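import Pool.Agent.Lib.MP_ba1c0b_an.Defs

/-!
A1: anticommutation relations of the creation and annihilation operators.
-/

set_option autoImplicit false

open MeasureTheory

namespace Pool.Agent.Lib.QR

variable {n : ℕ}

theorem cr_apply (v : Fin n → ℝ) (x : V n) (S : Finset (Fin n)) :
    cr v x S = ∑ j ∈ S, (v j : ℂ) * (sg j S : ℂ) * x (S.erase j) := rfl

theorem an_apply (v : Fin n → ℝ) (x : V n) (S : Finset (Fin n)) :
    an v x S = ∑ j ∈ Sᶜ, (v j : ℂ) * (sg j S : ℂ) * x (insert j S) := rfl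

theorem cr_add_left (v w : Fin n → ℝ) (x : V n) : cr (v + w) x = cr v x + cr w x := by
  ext S
  rw [PiLp.add_apply, cr_apply, cr_apply, cr_apply, ← Finset.sum_add_distrib]
  refine Finset.sum_congr rfl fun j _ => ?_
  simp only [Pi.add_apply, Complex.ofReal_add]
  ring

theorem cr_smul_left (c : ℝ) (v : Fin n → ℝ) (x : V n) : cr (c • v) x = (c : ℂ) • cr v x := by
  ext S
  rw [PiLp.smul_apply, cr_apply, cr_apply, smul_eq_mul, Finset.mul_sum]
  refine Finset.sum_congr rfl fun j _ => ?_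
  simp only [Pi.smul_apply, smul_eq_mul, Complex.ofReal_mul]
  ring

theorem an_add_left (v w : Fin n → ℝ) (x : V n) : an (v + w) x = an v x + an w x := by
  ext S
  rw [PiLp.add_apply, an_apply, an_apply, an_apply, ← Finset.sum_add_distrib]
  refine Finset.sum_congr rfl fun j _ => ?_
  simp only [Pi.add_apply, Complex.ofReal_add]
  ring

theorem an_smul_left (c : ℝ) (v : Fin n → ℝ) (x : V n) : an (c • v) x = (c : ℂ) • an v x := by
  ext S
  rw [PiLp.smul_apply, an_apply, an_apply, smul_eq_mul, Finset.mul_sum]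
  refine Finset.sum_congr rfl fun j _ => ?_
  simp only [Pi.smul_apply, smul_eq_mul, Complex.ofReal_mul]
  ring

private theorem A1_sum_single (s : Finset (Fin n)) (v : Fin n → ℝ) (g : Fin n → ℂ) :
    ∑ i ∈ s, (v i : ℂ) * g i =
      ∑ j, (v j : ℂ) * ∑ i ∈ s, (((Pi.single j (1 : ℝ) : Fin n → ℝ) i : ℝ) : ℂ) * g i := by
  simp only [Finset.mul_sum]
  rw [Finset.sum_comm]
  refine Finset.sum_congr rfl fun i _ => ?_
  rw [Finset.sum_eq_single i]
  · simp
  · intro j _ hj
    simp [Pi.single_apply, Ne.symm hj]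
  · intro h
    exact absurd (Finset.mem_univ i) h

theorem cr_eq_sum (v : Fin n → ℝ) (x : V n) :
    cr v x = ∑ j, (v j : ℂ) • cr (Pi.single j (1 : ℝ)) x := by
  ext S
  have h : (∑ j, (v j : ℂ) • cr (Pi.single j (1 : ℝ)) x) S =
      ∑ j, (v j : ℂ) * (cr (Pi.single j (1 : ℝ)) x) S := by
    simp [WithLp.ofLp_sum]
  rw [h, cr_apply]
  simp only [cr_apply, mul_assoc]
  exact A1_sum_single S v fun j => (sg j S : ℂ) * x (S.erase j)

theorem an_eq_sum (v : Fin n → ℝ) (x : V n) :
    an v x = ∑ j, (v j : ℂ) • an (Pi.single j (1 : ℝ)) x := by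
  ext S
  have h : (∑ j, (v j : ℂ) • an (Pi.single j (1 : ℝ)) x) S =
      ∑ j, (v j : ℂ) * (an (Pi.single j (1 : ℝ)) x) S := by
    simp [WithLp.ofLp_sum]
  rw [h, an_apply]
  simp only [an_apply, mul_assoc]
  exact A1_sum_single Sᶜ v fun j => (sg j S : ℂ) * x (insert j S)

private theorem A1_sg_insert (i j : Fin n) (S : Finset (Fin n)) (hi : i ∉ S) :
    sg j (insert i S) = sg j S * (if i < j then -1 else 1) := by
  unfold sg
  rw [Finset.filter_insert]
  split_ifs with h
  · rw [Finset.card_insert_of_notMem (by simp [hi]), pow_succ]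
  · rw [mul_one]

private theorem A1_sg_erase (i j : Fin n) (S : Finset (Fin n)) (hi : i ∈ S) :
    sg j (S.erase i) = sg j S * (if i < j then -1 else 1) := by
  have h := A1_sg_insert i j (S.erase i) (Finset.notMem_erase i S)
  rw [Finset.insert_erase hi] at h
  rw [h]
  split_ifs <;> ring

private theorem A1_sg_sq (j : Fin n) (S : Finset (Fin n)) : sg j S * sg j S = 1 := by
  unfold sg
  rw [← pow_add, ← two_mul, pow_mul]
  simp

private theorem A1_eps (i j : Fin n) (h : i ≠ j) :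
    (if i < j then (-1 : ℤ) else 1) = -(if j < i then (-1 : ℤ) else 1) := by
  rcases lt_or_gt_of_ne h with h1 | h1
  · simp [h1, not_lt.2 h1.le]
  · simp [h1, not_lt.2 h1.le]

/-- PROOF: coordinates; the coefficient of `v i w j` (`i ≠ j ∈ S`) is `sg i S * sg j (S.erase i)`, and
`sg j (S.erase i) = sg j S * (-1)^[i < j]`. -/
theorem cr_cr (v w : Fin n → ℝ) (x : V n) : cr v (cr w x) = -cr w (cr v x) := by
  ext S
  rw [PiLp.neg_apply, cr_apply, cr_apply]
  simp only [cr_apply, Finset.mul_sum]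
  rw [← Finset.sum_neg_distrib]
  simp only [← Finset.sum_neg_distrib]
  rw [Finset.sum_sigma', Finset.sum_sigma']
  refine Finset.sum_bij' (fun p _ => ⟨p.2, p.1⟩) (fun p _ => ⟨p.2, p.1⟩) ?_ ?_ ?_ ?_ ?_
  · rintro ⟨i, j⟩ h
    simp only [Finset.mem_sigma, Finset.mem_erase] at h ⊢
    exact ⟨h.2.2, fun e => h.2.1 e.symm, h.1⟩
  · rintro ⟨i, j⟩ h
    simp only [Finset.mem_sigma, Finset.mem_erase] at h ⊢
    exact ⟨h.2.2, fun e => h.2.1 e.symm, h.1⟩
  · rintro ⟨i, j⟩ _
    rfl
  · rintro ⟨i, j⟩ _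
    rfl
  · rintro ⟨i, j⟩ h
    simp only [Finset.mem_sigma, Finset.mem_erase] at h
    obtain ⟨hi, hji, hj⟩ := h
    have e1 := A1_sg_erase i j S hi
    have e2 := A1_sg_erase j i S hj
    have e3 := A1_eps i j (Ne.symm hji)
    have key : (sg i S : ℂ) * (sg j (S.erase i) : ℂ) = -((sg j S : ℂ) * (sg i (S.erase j) : ℂ)) := by
      have : sg i S * sg j (S.erase i) = -(sg j S * sg i (S.erase j)) := by
        rw [e1, e2, e3]
        ring
      exact_mod_cast this
    rw [Finset.erase_right_comm]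
    linear_combination ((v i : ℂ) * (w j : ℂ) * x ((S.erase j).erase i)) * key

theorem cr_self (v : Fin n → ℝ) (x : V n) : cr v (cr v x) = 0 := by
  have h := cr_cr v v x
  have h2 : (2 : ℂ) • cr v (cr v x) = 0 := by
    rw [two_smul]
    nth_rewrite 1 [h]
    exact neg_add_cancel _
  exact (smul_eq_zero.1 h2).resolve_left two_ne_zero

/-- Transposition. -/
theorem bp_cr (v : Fin n → ℝ) (x y : V n) : bp (cr v x) y = bp x (an v y) := by
  unfold bp
  simp only [cr_apply, an_apply, Finset.mul_sum, Finset.sum_mul]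
  rw [Finset.sum_sigma', Finset.sum_sigma']
  refine Finset.sum_bij' (fun p _ => ⟨p.1.erase p.2, p.2⟩) (fun p _ => ⟨insert p.2 p.1, p.2⟩)
    ?_ ?_ ?_ ?_ ?_
  · rintro ⟨S, j⟩ h
    simp
  · rintro ⟨S, j⟩ h
    simp
  · rintro ⟨S, j⟩ h
    simp only [Finset.mem_sigma, Finset.mem_univ, true_and] at h
    simp [Finset.insert_erase h]
  · rintro ⟨S, j⟩ h
    simp only [Finset.mem_sigma, Finset.mem_univ, true_and, Finset.mem_compl] at h
    simp [Finset.erase_insert h]
  · rintro ⟨S, j⟩ h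
    simp only [Finset.mem_sigma, Finset.mem_univ, true_and] at h
    have e1 := A1_sg_erase j j S h
    simp only [lt_irrefl, if_false, mul_one] at e1
    simp only [Finset.insert_erase h, e1]
    ring

private theorem A1_bp_comm (x y : V n) : bp x y = bp y x := by
  unfold bp
  exact Finset.sum_congr rfl fun i _ => mul_comm _ _

theorem bp_an (v : Fin n → ℝ) (x y : V n) : bp (an v x) y = bp x (cr v y) := by
  rw [A1_bp_comm, ← bp_cr, A1_bp_comm]

private theorem A1_bp_ext (x y : V n) (h : ∀ z : V n, bp x z = bp y z) : x = y := by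
  ext S
  have := h (EuclideanSpace.single S 1)
  simpa [bp] using this

private theorem A1_bp_neg_left (x y : V n) : bp (-x) y = -bp x y := by
  simp [bp]

private theorem A1_bp_neg_right (x y : V n) : bp x (-y) = -bp x y := by
  simp [bp]

/-- PROOF: coordinates, or transpose `cr_cr` with `bp_cr`. -/
theorem an_an (v w : Fin n → ℝ) (x : V n) : an v (an w x) = -an w (an v x) := by
  refine A1_bp_ext _ _ fun z => ?_
  rw [A1_bp_neg_left, bp_an, bp_an, bp_an, bp_an, cr_cr, A1_bp_neg_right]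

theorem an_self (v : Fin n → ℝ) (x : V n) : an v (an v x) = 0 := by
  have h := an_an v v x
  have h2 : (2 : ℂ) • an v (an v x) = 0 := by
    rw [two_smul]
    nth_rewrite 1 [h]
    exact neg_add_cancel _
  exact (smul_eq_zero.1 h2).resolve_left two_ne_zero

/-- The canonical anticommutation relation. -/
theorem an_cr (v w : Fin n → ℝ) (x : V n) :
    an v (cr w x) = ((∑ j, v j * w j : ℝ) : ℂ) • x - cr w (an v x) := by
  ext S
  rw [PiLp.sub_apply, PiLp.smul_apply, smul_eq_mul, an_apply, cr_apply, eq_sub_iff_add_eq]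
  simp only [cr_apply, an_apply]
  have h1 : ∀ i ∈ Sᶜ, (v i : ℂ) * (sg i S : ℂ) *
      ∑ j ∈ insert i S, (w j : ℂ) * (sg j (insert i S) : ℂ) * x ((insert i S).erase j) =
      (v i : ℂ) * (w i : ℂ) * x S + ∑ j ∈ S, (v i : ℂ) * (w j : ℂ) *
        ((sg i S : ℂ) * (sg j (insert i S) : ℂ)) * x ((insert i S).erase j) := by
    intro i hi
    have hi' : i ∉ S := Finset.mem_compl.1 hi
    rw [Finset.sum_insert hi', Finset.erase_insert hi', mul_add, Finset.mul_sum]
    have e1 := A1_sg_insert i i S hi'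
    simp only [lt_irrefl, if_false, mul_one] at e1
    have e2 : (sg i S : ℂ) * (sg i S : ℂ) = 1 := by exact_mod_cast A1_sg_sq i S
    congr 1
    · rw [e1]
      linear_combination ((v i : ℂ) * (w i : ℂ) * x S) * e2
    · exact Finset.sum_congr rfl fun j _ => by ring
  have h2 : ∀ j ∈ S, (w j : ℂ) * (sg j S : ℂ) *
      ∑ i ∈ (S.erase j)ᶜ, (v i : ℂ) * (sg i (S.erase j) : ℂ) * x (insert i (S.erase j)) =
      (v j : ℂ) * (w j : ℂ) * x S + ∑ i ∈ Sᶜ, (v i : ℂ) * (w j : ℂ) *
        ((sg j S : ℂ) * (sg i (S.erase j) : ℂ)) * x (insert i (S.erase j)) := by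
    intro j hj
    have hc : (S.erase j)ᶜ = insert j Sᶜ := by
      ext a
      simp only [Finset.mem_compl, Finset.mem_erase, Finset.mem_insert]
      tauto
    have hj' : j ∉ Sᶜ := by simpa using hj
    rw [hc, Finset.sum_insert hj', Finset.insert_erase hj, mul_add, Finset.mul_sum]
    have e1 := A1_sg_erase j j S hj
    simp only [lt_irrefl, if_false, mul_one] at e1
    have e2 : (sg j S : ℂ) * (sg j S : ℂ) = 1 := by exact_mod_cast A1_sg_sq j S
    congr 1
    · rw [e1]
      linear_combination ((v j : ℂ) * (w j : ℂ) * x S) * e2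
    · exact Finset.sum_congr rfl fun i _ => by ring
  rw [Finset.sum_congr rfl h1, Finset.sum_congr rfl h2, Finset.sum_add_distrib,
    Finset.sum_add_distrib]
  have h3 : ∑ i ∈ Sᶜ, ∑ j ∈ S, (v i : ℂ) * (w j : ℂ) *
        ((sg i S : ℂ) * (sg j (insert i S) : ℂ)) * x ((insert i S).erase j) =
      -∑ j ∈ S, ∑ i ∈ Sᶜ, (v i : ℂ) * (w j : ℂ) *
        ((sg j S : ℂ) * (sg i (S.erase j) : ℂ)) * x (insert i (S.erase j)) := by
    rw [Finset.sum_comm, ← Finset.sum_neg_distrib]
    refine Finset.sum_congr rfl fun j hj => ?_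
    rw [← Finset.sum_neg_distrib]
    refine Finset.sum_congr rfl fun i hi => ?_
    have hi' : i ∉ S := Finset.mem_compl.1 hi
    have hij : i ≠ j := fun e => hi' (e ▸ hj)
    have e1 := A1_sg_insert i j S hi'
    have e2 := A1_sg_erase j i S hj
    have e3 := A1_eps i j hij
    have key : (sg i S : ℂ) * (sg j (insert i S) : ℂ) =
        -((sg j S : ℂ) * (sg i (S.erase j) : ℂ)) := by
      have : sg i S * sg j (insert i S) = -(sg j S * sg i (S.erase j)) := by
        rw [e1, e2, e3]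
        ring
      exact_mod_cast this
    have hs : (insert i S).erase j = insert i (S.erase j) := by
      ext a
      simp only [Finset.mem_erase, Finset.mem_insert]
      constructor
      · rintro ⟨ha, rfl | hb⟩
        · exact Or.inl rfl
        · exact Or.inr ⟨ha, hb⟩
      · rintro (rfl | ⟨ha, hb⟩)
        · exact ⟨hij, Or.inl rfl⟩
        · exact ⟨ha, Or.inr hb⟩
    rw [hs]
    linear_combination ((v i : ℂ) * (w j : ℂ) * x (insert i (S.erase j))) * key
  have h4 : ((∑ j, v j * w j : ℝ) : ℂ) * x S =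
      ∑ i ∈ Sᶜ, (v i : ℂ) * (w i : ℂ) * x S + ∑ j ∈ S, (v j : ℂ) * (w j : ℂ) * x S := by
    rw [add_comm, Finset.sum_add_sum_compl, ← Finset.sum_mul]
    push_cast
    rfl
  rw [h3, h4]
  ring

/-- conjugation of the coordinates -/
private noncomputable def A1cj (x : V n) : V n := WithLp.toLp 2 fun S => (starRingEnd ℂ) (x S)

private theorem A1cj_apply (x : V n) (S : Finset (Fin n)) : A1cj x S = (starRingEnd ℂ) (x S) := rfl

private theorem A1_inner (x y : V n) : inner ℂ x y = bp (A1cj x) y := by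
  rw [PiLp.inner_apply]
  unfold bp
  refine Finset.sum_congr rfl fun S _ => ?_
  rw [A1cj_apply]
  simp [RCLike.inner_apply, mul_comm]

private theorem A1_cj_cr (v : Fin n → ℝ) (x : V n) : A1cj (cr v x) = cr v (A1cj x) := by
  ext S
  rw [A1cj_apply, cr_apply, cr_apply, map_sum]
  refine Finset.sum_congr rfl fun j _ => ?_
  simp [A1cj_apply]

theorem inner_cr (v : Fin n → ℝ) (x y : V n) : inner ℂ (cr v x) y = inner ℂ x (an v y) := by
  rw [A1_inner, A1_inner, A1_cj_cr, bp_cr]

/-- PROOF: `inner_cr`, `an_cr`. -/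
theorem norm_cr_an (v : Fin n → ℝ) (x : V n) :
    ‖cr v x‖ ^ 2 + ‖an v x‖ ^ 2 = nsq v * ‖x‖ ^ 2 := by
  have h1 : ((‖cr v x‖ : ℂ)) ^ 2 = inner ℂ x (an v (cr v x)) := by
    rw [← inner_cr, inner_self_eq_norm_sq_to_K]
    rfl
  have h2 : ((‖an v x‖ : ℂ)) ^ 2 = inner ℂ x (cr v (an v x)) := by
    have h3 : inner ℂ x (cr v (an v x)) = (starRingEnd ℂ) (inner ℂ (cr v (an v x)) x) :=
      (inner_conj_symm _ _).symm
    have h4 : (inner ℂ (an v x) (an v x) : ℂ) = ((‖an v x‖ : ℂ)) ^ 2 := by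
      rw [inner_self_eq_norm_sq_to_K]
      rfl
    rw [h3, inner_cr, h4]
    simp
  have h5 : (inner ℂ x x : ℂ) = ((‖x‖ : ℂ)) ^ 2 := by
    rw [inner_self_eq_norm_sq_to_K]
    rfl
  have h6 : ((‖cr v x‖ : ℂ)) ^ 2 + ((‖an v x‖ : ℂ)) ^ 2 = ((nsq v : ℝ) : ℂ) * ((‖x‖ : ℂ)) ^ 2 := by
    rw [h1, h2, ← inner_add_right, an_cr, sub_add_cancel, inner_smul_right, h5]
    congr 2
    unfold nsq
    exact Finset.sum_congr rfl fun j _ => (sq _).symm
  exact_mod_cast h6

theorem an_vac (v : Fin n → ℝ) : an v (vac : V n) = 0 := by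
  ext S
  rw [an_apply]
  simp [vac, Finset.insert_ne_empty]

theorem cr_vol (v : Fin n → ℝ) : cr v (vol : V n) = 0 := by
  ext S
  rw [cr_apply]
  refine Finset.sum_eq_zero fun j hj => ?_
  have : S.erase j ≠ Finset.univ := fun h => by
    have := Finset.mem_univ j
    rw [← h] at this
    exact Finset.notMem_erase j S this
  simp [vol, this]

theorem norm_vac : ‖(vac : V n)‖ = 1 := by
  simp [vac]

end Pool.Agent.Lib.QR
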