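import Pool.Agent.Lib.MP_ba1c0b_an.A1

/-!
A2: degrees, the two contraction bounds, and the symbol `Pj`.
-/

set_option autoImplicit false

open MeasureTheory

namespace Pool.Agent.Lib.QR

variable {n : ℕ}

private theorem a2_dg_apply (k : ℕ) (x : V n) (S : Finset (Fin n)) :
    dg k x S = if S.card = k then x S else 0 := rfl

private theorem a2_Pj_apply (k : ℕ) (ξ : Fin n → ℤ) (x : V n) :
    Pj k ξ x = (((nsq (fr ξ))⁻¹ : ℝ) : ℂ) • an (fr ξ) (cr (fr ξ) (dg k x)) := rfl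

theorem isDeg_dg (k : ℕ) (x : V n) : IsDeg k (dg k x) := by
  intro S hS
  rw [a2_dg_apply, if_neg hS]

theorem dg_of_isDeg {k : ℕ} {x : V n} (h : IsDeg k x) : dg k x = x := by
  ext S
  rw [a2_dg_apply]
  split_ifs with h1
  · rfl
  · exact (h S h1).symm

theorem norm_dg_le (k : ℕ) (x : V n) : ‖dg k x‖ ≤ ‖x‖ := by
  rw [EuclideanSpace.norm_eq, EuclideanSpace.norm_eq]
  apply Real.sqrt_le_sqrt
  apply Finset.sum_le_sum
  intro S _
  rw [a2_dg_apply]
  split_ifs
  · exact le_refl _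
  · rw [norm_zero, zero_pow two_ne_zero]
    positivity

theorem bp_dg (k : ℕ) (x y : V n) : bp (dg k x) y = bp x (dg k y) := by
  unfold bp
  apply Finset.sum_congr rfl
  intro S _
  rw [a2_dg_apply, a2_dg_apply]
  split_ifs <;> simp

theorem bp_dg_of_isDeg {k : ℕ} {x : V n} (h : IsDeg k x) (y : V n) : bp x (dg k y) = bp x y := by
  rw [← bp_dg, dg_of_isDeg h]

theorem isDeg_cr {k : ℕ} {x : V n} (h : IsDeg k x) (v : Fin n → ℝ) : IsDeg (k + 1) (cr v x) := by
  intro S hS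
  rw [cr_apply]
  apply Finset.sum_eq_zero
  intro j hj
  have : (S.erase j).card ≠ k := by
    rw [Finset.card_erase_of_mem hj]
    have := Finset.card_pos.mpr ⟨j, hj⟩
    omega
  rw [h _ this, mul_zero]

theorem isDeg_an {k : ℕ} {x : V n} (h : IsDeg (k + 1) x) (v : Fin n → ℝ) : IsDeg k (an v x) := by
  intro S hS
  rw [an_apply]
  apply Finset.sum_eq_zero
  intro j hj
  have : (insert j S).card ≠ k + 1 := by
    rw [Finset.card_insert_of_notMem (Finset.mem_compl.mp hj)]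
    omega
  rw [h _ this, mul_zero]

theorem isDeg_vac : IsDeg 0 (vac : V n) := by
  intro S hS
  unfold vac
  have h : S ≠ ∅ := by
    intro h
    apply hS
    simp [h]
  simp [h]

theorem isDeg_vol : IsDeg n (vol : V n) := by
  intro S hS
  unfold vol
  have h : S ≠ Finset.univ := by
    intro h
    apply hS
    simp [h]
  simp [h]

private theorem a2_cr_single (w : Fin n → V n) (S : Finset (Fin n)) :
    (∑ j, cr (Pi.single j (1 : ℝ)) (w j)) S = ∑ j ∈ S, (sg j S : ℂ) * w j (S.erase j) := by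
  have h1 : (∑ j, cr (Pi.single j (1 : ℝ)) (w j)) S
      = ∑ j, (cr (Pi.single j (1 : ℝ)) (w j)) S := by
    simp
  rw [h1, ← Finset.sum_subset (Finset.subset_univ S)]
  · apply Finset.sum_congr rfl
    intro j hj
    rw [cr_apply, Finset.sum_eq_single j]
    · simp
    · intro i _ hij
      simp [hij]
    · intro h
      exact absurd hj h
  · intro j _ hj
    rw [cr_apply]
    apply Finset.sum_eq_zero
    intro i hi
    have hij : i ≠ j := fun h => hj (h ▸ hi)
    simp [hij]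

private theorem a2_an_single (w : Fin n → V n) (S : Finset (Fin n)) :
    (∑ j, an (Pi.single j (1 : ℝ)) (w j)) S = ∑ j ∈ Sᶜ, (sg j S : ℂ) * w j (insert j S) := by
  have h1 : (∑ j, an (Pi.single j (1 : ℝ)) (w j)) S
      = ∑ j, (an (Pi.single j (1 : ℝ)) (w j)) S := by
    simp
  rw [h1, ← Finset.sum_subset (Finset.subset_univ Sᶜ)]
  · apply Finset.sum_congr rfl
    intro j hj
    rw [an_apply, Finset.sum_eq_single j]
    · simp
    · intro i _ hij
      simp [hij]
    · intro h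
      exact absurd hj h
  · intro j _ hj
    rw [an_apply]
    apply Finset.sum_eq_zero
    intro i hi
    have hij : i ≠ j := fun h => hj (h ▸ hi)
    simp [hij]

private theorem a2_norm_sg (j : Fin n) (S : Finset (Fin n)) : ‖((sg j S : ℤ) : ℂ)‖ = 1 := by
  unfold sg
  simp

private theorem a2_cs {ι : Type*} (s : Finset ι) (c : ι → ℂ) (f : ι → ℂ) (hc : ∀ i, ‖c i‖ = 1) :
    ‖∑ i ∈ s, c i * f i‖ ^ 2 ≤ (s.card : ℝ) * ∑ i ∈ s, ‖f i‖ ^ 2 := by
  have h1 : ‖∑ i ∈ s, c i * f i‖ ≤ ∑ i ∈ s, ‖f i‖ := by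
    refine (norm_sum_le _ _).trans (le_of_eq ?_)
    apply Finset.sum_congr rfl
    intro i _
    rw [norm_mul, hc, one_mul]
  calc ‖∑ i ∈ s, c i * f i‖ ^ 2 ≤ (∑ i ∈ s, ‖f i‖) ^ 2 :=
        pow_le_pow_left₀ (norm_nonneg _) h1 2
    _ ≤ (s.card : ℝ) * ∑ i ∈ s, ‖f i‖ ^ 2 := sq_sum_le_card_mul_sum_sq

/-- Contraction bound. PROOF: the `S` coordinate of the sum is a sum of `#S = k + 1` terms
`± (w j) (S.erase j)`, `j ∈ S` (all coordinates with `#S ≠ k + 1` vanish); Cauchy-Schwarz, then sum over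
`S`, exchanging `(S, j)` and `(S.erase j, j)`. -/
theorem sum_cr_le (k : ℕ) (w : Fin n → V n) (hw : ∀ j, IsDeg k (w j)) :
    ‖∑ j, cr (Pi.single j (1 : ℝ)) (w j)‖ ^ 2 ≤ (k + 1 : ℝ) * ∑ j, ‖w j‖ ^ 2 := by
  rw [EuclideanSpace.norm_sq_eq]
  have h1 : ∀ S : Finset (Fin n), ‖(∑ j, cr (Pi.single j (1 : ℝ)) (w j)) S‖ ^ 2
      ≤ (k + 1 : ℝ) * ∑ j ∈ S, ‖w j (S.erase j)‖ ^ 2 := by
    intro S
    rw [a2_cr_single]
    by_cases hS : S.card = k + 1
    · have := a2_cs S (fun j => (sg j S : ℂ)) (fun j => w j (S.erase j)) (fun j => a2_norm_sg j S)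
      rw [hS] at this
      push_cast at this
      exact this
    · have h0 : ∑ j ∈ S, (sg j S : ℂ) * w j (S.erase j) = 0 := by
        apply Finset.sum_eq_zero
        intro j hj
        have : (S.erase j).card ≠ k := by
          rw [Finset.card_erase_of_mem hj]
          have := Finset.card_pos.mpr ⟨j, hj⟩
          omega
        rw [hw j _ this, mul_zero]
      rw [h0, norm_zero]
      have : 0 ≤ ∑ j ∈ S, ‖w j (S.erase j)‖ ^ 2 := Finset.sum_nonneg fun _ _ => by positivity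
      have h2 : (0 : ℝ) ≤ (k + 1 : ℝ) := by positivity
      have := mul_nonneg h2 this
      simpa using this
  refine (Finset.sum_le_sum fun S _ => h1 S).trans ?_
  rw [← Finset.mul_sum]
  apply mul_le_mul_of_nonneg_left _ (by positivity)
  rw [Finset.sum_comm' (s' := fun j => Finset.univ.filter fun S : Finset (Fin n) => j ∈ S)
    (t' := Finset.univ) (by intro S j; simp)]
  apply Finset.sum_le_sum
  intro j _
  rw [EuclideanSpace.norm_sq_eq,
    ← Finset.sum_image (f := fun T : Finset (Fin n) => ‖w j T‖ ^ 2)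
      (g := fun S : Finset (Fin n) => S.erase j)]
  · exact Finset.sum_le_sum_of_subset_of_nonneg (Finset.subset_univ _) fun _ _ _ => by positivity
  · intro S hS T hT hST
    have hS' : j ∈ S := by simpa using hS
    have hT' : j ∈ T := by simpa using hT
    have hST' : S.erase j = T.erase j := hST
    rw [← Finset.insert_erase hS', ← Finset.insert_erase hT', hST']

/-- The same for annihilators: the `S` coordinate (`#S = k`) is a sum over the `n - k` elements `j ∉ S`. -/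
theorem sum_an_le (k : ℕ) (hk : k ≤ n) (w : Fin n → V n) (hw : ∀ j, IsDeg (k + 1) (w j)) :
    ‖∑ j, an (Pi.single j (1 : ℝ)) (w j)‖ ^ 2 ≤ ((n : ℝ) - k) * ∑ j, ‖w j‖ ^ 2 := by
  have hnk : (0 : ℝ) ≤ (n : ℝ) - k := by
    have : (k : ℝ) ≤ n := by exact_mod_cast hk
    linarith
  rw [EuclideanSpace.norm_sq_eq]
  have h1 : ∀ S : Finset (Fin n), ‖(∑ j, an (Pi.single j (1 : ℝ)) (w j)) S‖ ^ 2
      ≤ ((n : ℝ) - k) * ∑ j ∈ Sᶜ, ‖w j (insert j S)‖ ^ 2 := by
    intro S
    rw [a2_an_single]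
    by_cases hS : S.card = k
    · have := a2_cs Sᶜ (fun j => (sg j S : ℂ)) (fun j => w j (insert j S)) (fun j => a2_norm_sg j S)
      rw [Finset.card_compl, Fintype.card_fin, hS, Nat.cast_sub hk] at this
      exact this
    · have h0 : ∑ j ∈ Sᶜ, (sg j S : ℂ) * w j (insert j S) = 0 := by
        apply Finset.sum_eq_zero
        intro j hj
        have : (insert j S).card ≠ k + 1 := by
          rw [Finset.card_insert_of_notMem (Finset.mem_compl.mp hj)]
          omega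
        rw [hw j _ this, mul_zero]
      rw [h0, norm_zero]
      have : 0 ≤ ∑ j ∈ Sᶜ, ‖w j (insert j S)‖ ^ 2 := Finset.sum_nonneg fun _ _ => by positivity
      have := mul_nonneg hnk this
      simpa using this
  refine (Finset.sum_le_sum fun S _ => h1 S).trans ?_
  rw [← Finset.mul_sum]
  apply mul_le_mul_of_nonneg_left _ hnk
  rw [Finset.sum_comm' (s' := fun j => Finset.univ.filter fun S : Finset (Fin n) => j ∉ S)
    (t' := Finset.univ) (by intro S j; simp)]
  apply Finset.sum_le_sum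
  intro j _
  rw [EuclideanSpace.norm_sq_eq,
    ← Finset.sum_image (f := fun T : Finset (Fin n) => ‖w j T‖ ^ 2)
      (g := fun S : Finset (Fin n) => insert j S)]
  · exact Finset.sum_le_sum_of_subset_of_nonneg (Finset.subset_univ _) fun _ _ _ => by positivity
  · intro S hS T hT hST
    have hS' : j ∉ S := by simpa using hS
    have hT' : j ∉ T := by simpa using hT
    have hST' : insert j S = insert j T := hST
    rw [← Finset.erase_insert hS', ← Finset.erase_insert hT', hST']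

theorem Pj_zero (k : ℕ) (x : V n) : Pj k 0 x = 0 := by
  have h : nsq (fr (0 : Fin n → ℤ)) = 0 := by
    unfold nsq fr
    simp
  rw [a2_Pj_apply, h]
  simp

theorem isDeg_Pj (k : ℕ) (ξ : Fin n → ℤ) (x : V n) : IsDeg k (Pj k ξ x) := by
  intro S hS
  rw [a2_Pj_apply]
  have := isDeg_an (isDeg_cr (isDeg_dg k x) (fr ξ)) (fr ξ) S hS
  rw [PiLp.smul_apply, this, smul_zero]

private theorem a2_nsq_nonneg (v : Fin n → ℝ) : 0 ≤ nsq v :=
  Finset.sum_nonneg fun _ _ => by positivity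

/-- PROOF: `‖cr v y‖² ≤ nsq v ‖y‖²`, `‖an v y‖² ≤ nsq v ‖y‖²` (`norm_cr_an`). -/
theorem norm_Pj_le (k : ℕ) (ξ : Fin n → ℤ) (x : V n) : ‖Pj k ξ x‖ ≤ ‖x‖ := by
  rw [a2_Pj_apply, norm_smul]
  have hn := a2_nsq_nonneg (fr ξ)
  rcases hn.eq_or_lt with h0 | hpos
  · rw [← h0]
    simp
  · have h1 : ‖an (fr ξ) (cr (fr ξ) (dg k x))‖ ^ 2 ≤ nsq (fr ξ) * ‖cr (fr ξ) (dg k x)‖ ^ 2 := by
      have := norm_cr_an (fr ξ) (cr (fr ξ) (dg k x))
      have h2 : 0 ≤ ‖cr (fr ξ) (cr (fr ξ) (dg k x))‖ ^ 2 := by positivity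
      linarith
    have h3 : ‖cr (fr ξ) (dg k x)‖ ^ 2 ≤ nsq (fr ξ) * ‖dg k x‖ ^ 2 := by
      have := norm_cr_an (fr ξ) (dg k x)
      have h2 : 0 ≤ ‖an (fr ξ) (dg k x)‖ ^ 2 := by positivity
      linarith
    have h4 : ‖an (fr ξ) (cr (fr ξ) (dg k x))‖ ^ 2 ≤ (nsq (fr ξ) * ‖dg k x‖) ^ 2 := by
      calc _ ≤ nsq (fr ξ) * ‖cr (fr ξ) (dg k x)‖ ^ 2 := h1
        _ ≤ nsq (fr ξ) * (nsq (fr ξ) * ‖dg k x‖ ^ 2) := mul_le_mul_of_nonneg_left h3 hn
        _ = _ := by ring
    have h5 : ‖an (fr ξ) (cr (fr ξ) (dg k x))‖ ≤ nsq (fr ξ) * ‖dg k x‖ :=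
      (pow_le_pow_iff_left₀ (norm_nonneg _) (mul_nonneg hn (norm_nonneg _)) two_ne_zero).mp h4
    have h6 : ‖(((nsq (fr ξ))⁻¹ : ℝ) : ℂ)‖ = (nsq (fr ξ))⁻¹ := by
      rw [Complex.norm_real, Real.norm_eq_abs, abs_of_pos (inv_pos.mpr hpos)]
    rw [h6]
    calc (nsq (fr ξ))⁻¹ * ‖an (fr ξ) (cr (fr ξ) (dg k x))‖
        ≤ (nsq (fr ξ))⁻¹ * (nsq (fr ξ) * ‖dg k x‖) :=
          mul_le_mul_of_nonneg_left h5 (inv_nonneg.mpr hn)
      _ = ‖dg k x‖ := by
          rw [← mul_assoc, inv_mul_cancel₀ hpos.ne', one_mul]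
      _ ≤ ‖x‖ := norm_dg_le k x

private theorem a2_dg_cr (k : ℕ) (v : Fin n → ℝ) (x : V n) :
    dg (k + 1) (cr v x) = cr v (dg k x) := by
  ext S
  rw [a2_dg_apply, cr_apply, cr_apply]
  split_ifs with h
  · apply Finset.sum_congr rfl
    intro j hj
    have : (S.erase j).card = k := by
      rw [Finset.card_erase_of_mem hj]
      omega
    rw [a2_dg_apply, if_pos this]
  · symm
    apply Finset.sum_eq_zero
    intro j hj
    have : (S.erase j).card ≠ k := by
      rw [Finset.card_erase_of_mem hj]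
      have := Finset.card_pos.mpr ⟨j, hj⟩
      omega
    rw [a2_dg_apply, if_neg this, mul_zero]

private theorem a2_dg_an (k : ℕ) (v : Fin n → ℝ) (x : V n) :
    dg k (an v x) = an v (dg (k + 1) x) := by
  ext S
  rw [a2_dg_apply, an_apply, an_apply]
  split_ifs with h
  · apply Finset.sum_congr rfl
    intro j hj
    have : (insert j S).card = k + 1 := by
      rw [Finset.card_insert_of_notMem (Finset.mem_compl.mp hj)]
      omega
    rw [a2_dg_apply, if_pos this]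
  · symm
    apply Finset.sum_eq_zero
    intro j hj
    have : (insert j S).card ≠ k + 1 := by
      rw [Finset.card_insert_of_notMem (Finset.mem_compl.mp hj)]
      omega
    rw [a2_dg_apply, if_neg this, mul_zero]

private theorem a2_bp_smul_left (c : ℂ) (x y : V n) : bp (c • x) y = c * bp x y := by
  unfold bp
  rw [Finset.mul_sum]
  apply Finset.sum_congr rfl
  intro i _
  rw [PiLp.smul_apply, smul_eq_mul]
  ring

private theorem a2_bp_smul_right (c : ℂ) (x y : V n) : bp x (c • y) = c * bp x y := by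
  unfold bp
  rw [Finset.mul_sum]
  apply Finset.sum_congr rfl
  intro i _
  rw [PiLp.smul_apply, smul_eq_mul]
  ring

theorem bp_Pj (k : ℕ) (ξ : Fin n → ℤ) (x y : V n) : bp (Pj k ξ x) y = bp x (Pj k ξ y) := by
  rw [a2_Pj_apply, a2_Pj_apply, a2_bp_smul_left, a2_bp_smul_right, bp_an, bp_cr, bp_dg,
    a2_dg_an, a2_dg_cr]

theorem Pj_neg (k : ℕ) (ξ : Fin n → ℤ) (x : V n) : Pj k (-ξ) x = Pj k ξ x := by
  have h1 : fr (-ξ) = (-1 : ℝ) • fr ξ := by
    funext j
    simp [fr]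
  have h2 : nsq (fr (-ξ)) = nsq (fr ξ) := by
    rw [h1]
    unfold nsq
    simp
  have h3 : an ((-1 : ℝ) • fr ξ) (cr ((-1 : ℝ) • fr ξ) (dg k x)) = an (fr ξ) (cr (fr ξ) (dg k x)) := by
    rw [cr_smul_left, an_smul_left, map_smul, smul_smul]
    norm_num
  rw [a2_Pj_apply, a2_Pj_apply, h2, h1, h3]

/-- The complementary projection. PROOF: `an_cr`. -/
theorem dg_sub_Pj (k : ℕ) (ξ : Fin n → ℤ) (hξ : ξ ≠ 0) (x : V n) :
    dg k x - Pj k ξ x = (((nsq (fr ξ))⁻¹ : ℝ) : ℂ) • cr (fr ξ) (an (fr ξ) (dg k x)) := by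
  have hpos : nsq (fr ξ) ≠ 0 := by
    intro h
    apply hξ
    unfold nsq at h
    rw [Finset.sum_eq_zero_iff_of_nonneg (fun _ _ => by positivity)] at h
    funext j
    have := h j (Finset.mem_univ j)
    have h2 : fr ξ j = 0 := by
      exact pow_eq_zero_iff (two_ne_zero) |>.mp this
    unfold fr at h2
    exact_mod_cast h2
  have hs : (∑ j, fr ξ j * fr ξ j : ℝ) = nsq (fr ξ) := by
    unfold nsq
    apply Finset.sum_congr rfl
    intro j _
    ring
  rw [a2_Pj_apply, an_cr, hs, smul_sub, smul_smul]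
  have : (((nsq (fr ξ))⁻¹ : ℝ) : ℂ) * ((nsq (fr ξ) : ℝ) : ℂ) = 1 := by
    rw [← Complex.ofReal_mul, inv_mul_cancel₀ hpos, Complex.ofReal_one]
  rw [this, one_smul]
  abel

end Pool.Agent.Lib.QR
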