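import Pool.Agent.Lib.MP_ba1c0b_an.A2

/-!
A3: the top form is the determinant; Hodge duality for matrices with orthogonal rows.
-/

set_option autoImplicit false

open MeasureTheory

namespace Pool.Agent.Lib.QR

variable {n : ℕ}

/-! ### Lists of creation and annihilation operators -/

private theorem a3_crl_nil (x : V n) : crl [] x = x := rfl

private theorem a3_crl_cons (v : Fin n → ℝ) (L : List (Fin n → ℝ)) (x : V n) :
    crl (v :: L) x = cr v (crl L x) := rfl

private theorem a3_anl_cons (v : Fin n → ℝ) (L : List (Fin n → ℝ)) (x : V n) :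
    anl (v :: L) x = an v (anl L x) := rfl

private theorem a3_crl_append (L K : List (Fin n → ℝ)) (x : V n) :
    crl (L ++ K) x = crl L (crl K x) := by
  unfold crl
  rw [List.foldr_append]

private theorem a3_anl_append (L K : List (Fin n → ℝ)) (x : V n) :
    anl (L ++ K) x = anl L (anl K x) := by
  unfold anl
  rw [List.foldr_append]

private theorem a3_crl_smul (L : List (Fin n → ℝ)) (a : ℂ) (x : V n) :
    crl L (a • x) = a • crl L x := by
  induction L with
  | nil => rfl
  | cons v L ih => rw [a3_crl_cons, a3_crl_cons, ih, map_smul]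

private theorem a3_anl_smul (L : List (Fin n → ℝ)) (a : ℂ) (x : V n) :
    anl L (a • x) = a • anl L x := by
  induction L with
  | nil => rfl
  | cons v L ih => rw [a3_anl_cons, a3_anl_cons, ih, map_smul]

private theorem a3_cr_mem (v : Fin n → ℝ) (L : List (Fin n → ℝ)) (x : V n) (h : v ∈ L) :
    cr v (crl L x) = 0 := by
  induction L with
  | nil => simp at h
  | cons w L ih =>
    rw [a3_crl_cons]
    rcases List.mem_cons.mp h with h | h
    · rw [h, cr_self]
    · rw [cr_cr, ih h, map_zero, neg_zero]

/-! ### The alternating map -/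

private theorem a3_update_add {m : ℕ} (A : Fin m → Fin n → ℝ) (i : Fin m) (x y : Fin n → ℝ)
    (z : V n) :
    crl (List.ofFn (Function.update A i (x + y))) z
      = crl (List.ofFn (Function.update A i x)) z + crl (List.ofFn (Function.update A i y)) z := by
  induction m with
  | zero => exact i.elim0
  | succ m ih =>
    rw [List.ofFn_succ, List.ofFn_succ, List.ofFn_succ, a3_crl_cons, a3_crl_cons, a3_crl_cons]
    refine Fin.cases ?_ (fun k => ?_) i
    · have h : ∀ w : Fin n → ℝ, (fun j : Fin m => Function.update A 0 w j.succ)
          = fun j => A j.succ := by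
        intro w
        funext j
        rw [Function.update_of_ne (Fin.succ_ne_zero j)]
      rw [h, h, h, Function.update_self, Function.update_self, Function.update_self, cr_add_left]
    · have h : ∀ w : Fin n → ℝ, (fun j : Fin m => Function.update A k.succ w j.succ)
          = Function.update (fun j => A j.succ) k w := by
        intro w
        funext j
        by_cases hj : j = k
        · rw [hj, Function.update_self, Function.update_self]
        · rw [Function.update_of_ne hj,
            Function.update_of_ne (fun h => hj (Fin.succ_injective _ h))]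
      have h0 : ∀ w : Fin n → ℝ, Function.update A k.succ w 0 = A 0 := by
        intro w
        rw [Function.update_of_ne (Fin.succ_ne_zero k).symm]
      rw [h, h, h, h0, h0, h0, ih, map_add]

private theorem a3_update_smul {m : ℕ} (A : Fin m → Fin n → ℝ) (i : Fin m) (c : ℝ)
    (x : Fin n → ℝ) (z : V n) :
    crl (List.ofFn (Function.update A i (c • x))) z
      = (c : ℂ) • crl (List.ofFn (Function.update A i x)) z := by
  induction m with
  | zero => exact i.elim0
  | succ m ih =>
    rw [List.ofFn_succ, List.ofFn_succ, a3_crl_cons, a3_crl_cons]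
    refine Fin.cases ?_ (fun k => ?_) i
    · have h : ∀ w : Fin n → ℝ, (fun j : Fin m => Function.update A 0 w j.succ)
          = fun j => A j.succ := by
        intro w
        funext j
        rw [Function.update_of_ne (Fin.succ_ne_zero j)]
      rw [h, h, Function.update_self, Function.update_self, cr_smul_left]
    · have h : ∀ w : Fin n → ℝ, (fun j : Fin m => Function.update A k.succ w j.succ)
          = Function.update (fun j => A j.succ) k w := by
        intro w
        funext j
        by_cases hj : j = k
        · rw [hj, Function.update_self, Function.update_self]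
        · rw [Function.update_of_ne hj,
            Function.update_of_ne (fun h => hj (Fin.succ_injective _ h))]
      have h0 : ∀ w : Fin n → ℝ, Function.update A k.succ w 0 = A 0 := by
        intro w
        rw [Function.update_of_ne (Fin.succ_ne_zero k).symm]
      rw [h, h, h0, h0, ih, map_smul]

private theorem a3_crl_eq_zero {m : ℕ} (A : Fin m → Fin n → ℝ) (i j : Fin m) (h : A i = A j)
    (hij : i ≠ j) (z : V n) : crl (List.ofFn A) z = 0 := by
  induction m with
  | zero => exact i.elim0
  | succ m ih =>
    rw [List.ofFn_succ, a3_crl_cons]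
    induction i using Fin.cases with
    | zero =>
      induction j using Fin.cases with
      | zero => exact absurd rfl hij
      | succ j =>
        apply a3_cr_mem
        rw [List.mem_ofFn]
        exact ⟨j, h.symm⟩
    | succ i =>
      induction j using Fin.cases with
      | zero =>
        apply a3_cr_mem
        rw [List.mem_ofFn]
        exact ⟨i, h⟩
      | succ j =>
        rw [ih (fun k => A k.succ) i j h (fun hh => hij (by rw [hh])), map_zero]

/-- The left side as an alternating map. -/
private noncomputable def a3_alt (n : ℕ) : (Fin n → ℝ) [⋀^Fin n]→ₗ[ℝ] (V n) where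
  toFun A := crl (List.ofFn A) vac
  map_update_add' := by
    intro inst A i x y
    have hi : inst = (fun a b => instDecidableEqFin n a b) := Subsingleton.elim _ _
    subst hi
    exact a3_update_add A i x y vac
  map_update_smul' := by
    intro inst A i c x
    have hi : inst = (fun a b => instDecidableEqFin n a b) := Subsingleton.elim _ _
    subst hi
    rw [a3_update_smul A i c x vac]
    ext S
    rw [PiLp.smul_apply, PiLp.smul_apply, Complex.real_smul, smul_eq_mul]
  map_eq_zero_of_eq' := by
    intro A i j h hij
    exact a3_crl_eq_zero A i j h hij vac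

/-- The right side as an alternating map. -/
private noncomputable def a3_det (n : ℕ) : (Fin n → ℝ) [⋀^Fin n]→ₗ[ℝ] (V n) :=
  ((LinearMap.toSpanSingleton ℝ (V n) (vol : V n)).compAlternatingMap
    (Matrix.detRowAlternating : (Fin n → ℝ) [⋀^Fin n]→ₗ[ℝ] ℝ))

private theorem a3_det_apply (A : Fin n → Fin n → ℝ) :
    a3_det n A = ((Matrix.of A).det : ℂ) • (vol : V n) := by
  unfold a3_det
  rw [LinearMap.compAlternatingMap_apply, LinearMap.toSpanSingleton_apply]
  ext S
  rw [PiLp.smul_apply, PiLp.smul_apply, Complex.real_smul, smul_eq_mul]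
  rfl

private theorem a3_cr_basis (i : Fin n) (T : Finset (Fin n)) (h : ∀ t ∈ T, i < t) :
    cr (Pi.single i (1 : ℝ)) (EuclideanSpace.single T (1 : ℂ) : V n)
      = EuclideanSpace.single (insert i T) (1 : ℂ) := by
  have hi : i ∉ T := fun hh => lt_irrefl _ (h i hh)
  ext S
  rw [cr_apply]
  by_cases hS : S = insert i T
  · subst hS
    rw [Finset.sum_eq_single i]
    · have h1 : sg i (insert i T) = 1 := by
        unfold sg
        have : (insert i T).filter (· < i) = ∅ := by
          rw [Finset.filter_eq_empty_iff]
          intro t ht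
          rcases Finset.mem_insert.mp ht with ht | ht
          · rw [ht]; exact lt_irrefl _
          · exact not_lt_of_gt (h t ht)
        rw [this]
        rfl
      rw [h1, Finset.erase_insert hi]
      simp
    · intro j _ hj
      rw [Pi.single_eq_of_ne hj]
      simp
    · intro hh
      exact absurd (Finset.mem_insert_self i T) hh
  · have h0 : (EuclideanSpace.single (insert i T) (1 : ℂ) : V n) S = 0 := by
      simp [hS]
    rw [h0]
    apply Finset.sum_eq_zero
    intro j hj
    by_cases hji : j = i
    · subst hji
      have : S.erase j ≠ T := by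
        intro hh
        apply hS
        rw [← hh, Finset.insert_erase hj]
      have h1 : (EuclideanSpace.single T (1 : ℂ) : V n) (S.erase j) = 0 := by
        simp [this]
      rw [h1, mul_zero]
    · rw [Pi.single_eq_of_ne hji]
      simp

private theorem a3_crl_basis (L : List (Fin n)) (hL : L.Pairwise (· < ·)) :
    crl (L.map (fun i => Pi.single i (1 : ℝ))) (vac : V n)
      = EuclideanSpace.single L.toFinset (1 : ℂ) := by
  induction L with
  | nil => rfl
  | cons i L ih =>
    rw [List.pairwise_cons] at hL
    rw [List.map_cons, a3_crl_cons, ih hL.2, List.toFinset_cons]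
    apply a3_cr_basis
    intro t ht
    exact hL.1 t (List.mem_toFinset.mp ht)

private theorem a3_crl_std :
    crl (List.ofFn (fun i : Fin n => (Pi.single i (1 : ℝ) : Fin n → ℝ))) (vac : V n) = vol := by
  rw [List.ofFn_eq_map, a3_crl_basis _ (List.pairwise_lt_finRange n), List.toFinset_finRange]
  rfl

private theorem a3_alt_eq_det : a3_alt n = a3_det n := by
  have hstd : a3_alt n (fun i : Fin n => (Pi.single i (1 : ℝ) : Fin n → ℝ))
      = a3_det n (fun i : Fin n => (Pi.single i (1 : ℝ) : Fin n → ℝ)) := by
    rw [a3_det_apply]
    have h1 : Matrix.of (fun i : Fin n => (Pi.single i (1 : ℝ) : Fin n → ℝ)) = 1 := by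
      ext i j
      rw [Matrix.of_apply, Matrix.one_apply, Pi.single_apply]
      simp only [eq_comm]
    rw [h1, Matrix.det_one, Complex.ofReal_one, one_smul]
    exact a3_crl_std
  apply Module.Basis.ext_alternating (Pi.basisFun ℝ (Fin n))
  intro v hv
  let σ : Equiv.Perm (Fin n) := Equiv.ofBijective v (Finite.injective_iff_bijective.mp hv)
  have hσ : (fun i => (Pi.basisFun ℝ (Fin n)) (v i))
      = (fun i : Fin n => (Pi.single i (1 : ℝ) : Fin n → ℝ)) ∘ σ := by
    funext i
    rw [Pi.basisFun_apply]
    rfl
  rw [hσ, AlternatingMap.map_perm, AlternatingMap.map_perm, hstd]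

/-- PROOF: both sides are alternating multilinear in the rows (`cr_cr`, `cr_self`); the left side has
degree `n`, so only the coordinate `univ` matters; for the standard basis
`cr e_0 (cr e_1 (... (cr e_{n-1} vac))) = vol` (all signs are `+`).  Use `AlternatingMap.eq_smul_basis_det`
or `AlternatingMap.map_basis_ne_zero_iff`-type uniqueness (`Matrix.detRowAlternating`). -/
theorem crl_rows (A : Fin n → Fin n → ℝ) :
    crl (List.ofFn A) (vac : V n) = ((Matrix.of A).det : ℂ) • (vol : V n) := by
  rw [← a3_det_apply, ← a3_alt_eq_det]
  rfl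

/-! ### Hodge duality -/

private theorem a3_an_crl (v : Fin n → ℝ) (L : List (Fin n → ℝ)) (x : V n)
    (h : ∀ w ∈ L, ∑ j, v j * w j = 0) :
    an v (crl L x) = ((-1 : ℂ) ^ L.length) • crl L (an v x) := by
  induction L with
  | nil => simp [a3_crl_nil]
  | cons w L ih =>
    rw [a3_crl_cons, an_cr, h w List.mem_cons_self,
      ih (fun u hu => h u (List.mem_cons_of_mem _ hu)), a3_crl_cons, map_smul,
      List.length_cons, pow_succ, Complex.ofReal_zero, zero_smul, zero_sub, mul_neg, mul_one,
      neg_smul]

private theorem a3_dual (c : ℝ) (P Q : List (Fin n → ℝ)) (hQ : Q.Pairwise (fun v w => ∑ j, v j * w j = 0))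
    (hPQ : ∀ q ∈ Q, ∀ p ∈ P, ∑ j, q j * p j = 0)
    (hc : ∀ q ∈ Q, ∑ j, q j * q j = c ^ 2) :
    anl Q.reverse (crl P (crl Q (vac : V n)))
      = (((-1 : ℂ) ^ P.length * (c : ℂ) ^ 2) ^ Q.length) • crl P (vac : V n) := by
  induction Q with
  | nil =>
    rw [List.length_nil, pow_zero, one_smul]
    rfl
  | cons q Q ih =>
    rw [List.pairwise_cons] at hQ
    have h1 : an q (crl P (crl (q :: Q) (vac : V n)))
        = ((-1 : ℂ) ^ P.length * (c : ℂ) ^ 2) • crl P (crl Q vac) := by
      rw [a3_an_crl q P _ (hPQ q List.mem_cons_self), a3_crl_cons, an_cr,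
        hc q List.mem_cons_self, a3_an_crl q Q _ hQ.1, an_vac]
      have h2 : crl Q (0 : V n) = 0 := by
        have := a3_crl_smul Q 0 (0 : V n)
        rw [zero_smul, zero_smul] at this
        exact this
      rw [h2, smul_zero, map_zero, sub_zero, a3_crl_smul, smul_smul, Complex.ofReal_pow]
    rw [List.reverse_cons, a3_anl_append]
    change anl Q.reverse (an q (crl P (crl (q :: Q) (vac : V n)))) = _
    rw [h1, a3_anl_smul, ih hQ.2 (fun u hu => hPQ u (List.mem_cons_of_mem _ hu))
      (fun u hu => hc u (List.mem_cons_of_mem _ hu)), smul_smul, List.length_cons,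
      pow_succ' _ Q.length]

private theorem a3_norm (c : ℝ) (hc0 : 0 ≤ c) (P : List (Fin n → ℝ))
    (hP : P.Pairwise (fun v w => ∑ j, v j * w j = 0))
    (hc : ∀ q ∈ P, ∑ j, q j * q j = c ^ 2) :
    ‖crl P (vac : V n)‖ = c ^ P.length := by
  induction P with
  | nil =>
    rw [a3_crl_nil, norm_vac, List.length_nil, pow_zero]
  | cons p P ih =>
    rw [List.pairwise_cons] at hP
    have h1 := norm_cr_an p (crl P (vac : V n))
    have h2 : an p (crl P (vac : V n)) = 0 := by
      rw [a3_an_crl p P _ hP.1, an_vac]
      have h2 : crl P (0 : V n) = 0 := by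
        have := a3_crl_smul P 0 (0 : V n)
        rw [zero_smul, zero_smul] at this
        exact this
      rw [h2, smul_zero]
    have h3 : nsq p = c ^ 2 := by
      rw [← hc p List.mem_cons_self]
      unfold nsq
      exact Finset.sum_congr rfl fun _ _ => by ring
    rw [h2, norm_zero, h3, ih hP.2 (fun u hu => hc u (List.mem_cons_of_mem _ hu))] at h1
    rw [a3_crl_cons, List.length_cons]
    have h4 : ‖cr p (crl P (vac : V n))‖ ^ 2 = (c ^ (P.length + 1)) ^ 2 := by
      rw [pow_succ c P.length, mul_pow]
      linarith
    exact (pow_left_inj₀ (norm_nonneg _) (pow_nonneg hc0 _) two_ne_zero).mp h4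

private theorem a3_anl_zero (L : List (Fin n → ℝ)) (h : (0 : Fin n → ℝ) ∈ L) (x : V n) :
    anl L x = 0 := by
  induction L with
  | nil => simp at h
  | cons w L ih =>
    rw [a3_anl_cons]
    rcases List.mem_cons.mp h with h | h
    · rw [← h]
      have := an_smul_left 0 (0 : Fin n → ℝ) (anl L x)
      rw [zero_smul, Complex.ofReal_zero, zero_smul] at this
      exact this
    · rw [ih h, map_zero]

/-- If the rows of `A` are orthogonal of length `c` and the determinant is `c ^ n`, `n = 2 l + 1`, then
the two middle forms are dual to each other.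
PROOF: for `c = 0` all rows vanish.  For `c > 0` put `r_i = row A i / c` (orthonormal, determinant 1), so
`vol = crl [r_0, ..., r_{n-1}] vac` by `crl_rows`; apply `an r_l`, then `an r_{l+1}`, ...: moving `an r_i`
through the `l` operators `cr r_0, ..., cr r_{l-1}` gives `(-1)^l` (`an_cr` with inner product zero), then
`an r_i (cr r_i Y) = Y` since `an r_i Y = 0`; altogether `((-1)^l)^(l+1) = 1`.  Norm: `norm_cr_an`,
`an r_0 (crl [r_1, ...] vac) = 0`. -/
theorem fV_eq (l : ℕ) (hn : n = 2 * l + 1) (A : E n →L[ℝ] E n) (c : ℝ) (hc : 0 ≤ c)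
    (h1 : ∀ i k, ∑ j, row A i j * row A k j = if i = k then c ^ 2 else 0)
    (h2 : (Matrix.of (row A)).det = c ^ n) :
    fV l A = (c : ℂ) • fU l A ∧ ‖fU l A‖ = c ^ l := by
  have hlen : (List.ofFn (row A)).length = n := List.length_ofFn
  have hpair : (List.ofFn (row A)).Pairwise (fun v w => ∑ j, v j * w j = 0) := by
    rw [List.pairwise_ofFn]
    intro i k hik
    rw [h1, if_neg hik.ne]
  have hsq : ∀ q ∈ List.ofFn (row A), ∑ j, q j * q j = c ^ 2 := by
    intro q hq
    rw [List.mem_ofFn] at hq
    obtain ⟨i, rfl⟩ := hq
    rw [h1, if_pos rfl]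
  set L := List.ofFn (row A) with hL
  have hsplit : L.take l ++ L.drop l = L := List.take_append_drop l L
  have hltake : (L.take l).length = l := by
    rw [List.length_take, hlen]
    omega
  have hldrop : (L.drop l).length = l + 1 := by
    rw [List.length_drop, hlen]
    omega
  have hpair' := hpair
  rw [← hsplit, List.pairwise_append] at hpair'
  obtain ⟨hpT, hpD, hpTD⟩ := hpair'
  constructor
  · rcases hc.eq_or_lt with h0 | hpos
    · have hrow : ∀ q ∈ L, q = 0 := by
        intro q hq
        have h3 := hsq q hq
        rw [← h0, zero_pow two_ne_zero, Finset.sum_eq_zero_iff_of_nonneg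
          (fun _ _ => mul_self_nonneg _)] at h3
        funext j
        exact mul_self_eq_zero.mp (h3 j (Finset.mem_univ j))
      unfold fV
      rw [← h0, Complex.ofReal_zero, zero_smul]
      apply a3_anl_zero
      rw [List.mem_reverse]
      have hne : L.drop l ≠ [] := by
        intro hh
        rw [hh] at hldrop
        simp at hldrop
      obtain ⟨q, hq⟩ := List.exists_mem_of_ne_nil _ hne
      rw [← hrow q (List.mem_of_mem_drop hq)]
      exact hq
    · have hcn : ((c : ℂ) ^ n) ≠ 0 := by
        apply pow_ne_zero
        exact_mod_cast hpos.ne'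
      have hvol : crl (L.take l) (crl (L.drop l) (vac : V n)) = ((c : ℂ) ^ n) • (vol : V n) := by
        rw [← a3_crl_append, hsplit, hL, crl_rows, h2, Complex.ofReal_pow]
      have hd := a3_dual c (L.take l) (L.drop l) hpD
        (fun q hq p hp => by
          have := hpTD p hp q hq
          rw [← this]
          exact Finset.sum_congr rfl fun _ _ => mul_comm _ _)
        (fun q hq => hsq q (List.mem_of_mem_drop hq))
      rw [hvol, a3_anl_smul, hltake, hldrop] at hd
      have hsign : ((-1 : ℂ) ^ l * (c : ℂ) ^ 2) ^ (l + 1) = (c : ℂ) ^ n * (c : ℂ) := by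
        rw [mul_pow, ← pow_mul, ← pow_mul, Even.neg_one_pow (Nat.even_mul_succ_self l), one_mul,
          hn, ← pow_succ]
        congr 1
      rw [hsign, mul_smul] at hd
      unfold fV fU
      rw [← hL]
      exact smul_right_injective _ hcn hd
  · unfold fU
    rw [← hL]
    have := a3_norm c hc (L.take l) hpT (fun q hq => hsq q (List.mem_of_mem_take hq))
    rw [hltake] at this
    exact this

end Pool.Agent.Lib.QR
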