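import Pool.Agent.Lib.MP_ba1c0b_an.Defs

/-!
A4: matrices with `‖A‖ ^ n ≤ det A`.
-/

set_option autoImplicit false

open MeasureTheory

namespace Pool.Agent.Lib.QR

variable {n : ℕ}

private lemma a4_toMatrix (A : E n →L[ℝ] E n) :
    LinearMap.toMatrix (EuclideanSpace.basisFun (Fin n) ℝ).toBasis
      (EuclideanSpace.basisFun (Fin n) ℝ).toBasis (A : E n →ₗ[ℝ] E n) = Matrix.of (row A) := by
  ext i j
  rw [LinearMap.toMatrix_apply]
  simp [row]

private lemma a4_det (A : E n →L[ℝ] E n) :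
    (Matrix.of (row A)).det = LinearMap.det (A : E n →ₗ[ℝ] E n) := by
  rw [← a4_toMatrix, LinearMap.det_toMatrix]

private lemma a4_adj_apply (A : E n →L[ℝ] E n) (i j : Fin n) :
    (ContinuousLinearMap.adjoint A (EuclideanSpace.single i 1)) j = row A i j := by
  have h1 : inner ℝ (EuclideanSpace.single j (1 : ℝ))
      (ContinuousLinearMap.adjoint A (EuclideanSpace.single i 1)) =
      (ContinuousLinearMap.adjoint A (EuclideanSpace.single i 1)) j := by
    rw [EuclideanSpace.inner_single_left]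
    simp
  rw [← h1, ContinuousLinearMap.adjoint_inner_right, EuclideanSpace.inner_single_right]
  simp [row]

private lemma a4_det_adj (A : E n →L[ℝ] E n) :
    LinearMap.det (ContinuousLinearMap.adjoint A : E n →ₗ[ℝ] E n) =
      LinearMap.det (A : E n →ₗ[ℝ] E n) := by
  rw [← a4_det, ← a4_det, ← Matrix.det_transpose]
  congr 1
  ext i j
  rw [Matrix.transpose_apply, Matrix.of_apply, Matrix.of_apply]
  have := a4_adj_apply A i j
  rw [← this]
  rfl

/-- PROOF: the eigenvalues `μ_i` of the symmetric matrix `A Aᵀ` lie in `[0, ‖A‖²]` and their product is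
`det(A)² ≥ ‖A‖^(2n)`, so (if `A ≠ 0`) all of them equal `‖A‖²`, i.e. `A Aᵀ = ‖A‖² 1`; and then
`|det A| = ‖A‖^n`, `det A ≥ 0`. -/
theorem conf_rows (hn : 1 ≤ n) (A : E n →L[ℝ] E n) (hA : Conf A) :
    (∀ i k, ∑ j, row A i j * row A k j = if i = k then ‖A‖ ^ 2 else 0) ∧
      (Matrix.of (row A)).det = ‖A‖ ^ n := by
  rw [a4_det]
  unfold Conf at hA
  have hdet0 : 0 ≤ LinearMap.det (A : E n →ₗ[ℝ] E n) := le_trans (by positivity) hA
  by_cases hA0 : A = 0
  · subst hA0
    constructor
    · intro i k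
      simp [row]
    · simp only [norm_zero]
      rw [zero_pow (by omega)]
      have : ((0 : E n →L[ℝ] E n) : E n →ₗ[ℝ] E n) = 0 := rfl
      rw [this, LinearMap.det_zero, finrank_euclideanSpace, Fintype.card_fin,
        zero_pow (by omega)]
  have hnorm : 0 < ‖A‖ := norm_pos_iff.2 hA0
  set S := ContinuousLinearMap.adjoint A with hS
  set T : E n →ₗ[ℝ] E n := (A : E n →ₗ[ℝ] E n) ∘ₗ (S : E n →ₗ[ℝ] E n) with hT
  have hTin : ∀ x y, inner ℝ x (T y) = inner ℝ (S x) (S y) := by
    intro x y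
    have : T y = A (S y) := rfl
    rw [this, hS, ContinuousLinearMap.adjoint_inner_left]
  have hTin' : ∀ x y, inner ℝ (T x) y = inner ℝ (S x) (S y) := by
    intro x y
    have : T x = A (S x) := rfl
    rw [this, hS, ContinuousLinearMap.adjoint_inner_right]
  have hsym : T.IsSymmetric := by
    intro x y
    rw [hTin, hTin']
  have hfr : Module.finrank ℝ (E n) = n := by simp
  have hdetT : LinearMap.det T = LinearMap.det (A : E n →ₗ[ℝ] E n) ^ 2 := by
    rw [hT, LinearMap.det_comp, hS, a4_det_adj]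
    ring
  have hprod : LinearMap.det T = ∏ i, hsym.eigenvalues hfr i := by
    have := hsym.det_eq_prod_eigenvalues hfr
    simpa using this
  have heig : ∀ i, hsym.eigenvalues hfr i = ‖S (hsym.eigenvectorBasis hfr i)‖ ^ 2 := by
    intro i
    have h1 := hTin (hsym.eigenvectorBasis hfr i) (hsym.eigenvectorBasis hfr i)
    rw [hsym.apply_eigenvectorBasis hfr i, inner_smul_right, real_inner_self_eq_norm_sq,
      real_inner_self_eq_norm_sq, (hsym.eigenvectorBasis hfr).norm_eq_one] at h1
    simpa using h1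
  have hle : ∀ i, hsym.eigenvalues hfr i ≤ ‖A‖ ^ 2 := by
    intro i
    rw [heig i]
    have h1 : ‖S (hsym.eigenvectorBasis hfr i)‖ ≤ ‖S‖ * ‖hsym.eigenvectorBasis hfr i‖ :=
      S.le_opNorm _
    rw [(hsym.eigenvectorBasis hfr).norm_eq_one, mul_one, hS,
      LinearIsometryEquiv.norm_map] at h1
    exact pow_le_pow_left₀ (norm_nonneg _) h1 2
  have hnn : ∀ i, 0 ≤ hsym.eigenvalues hfr i := by
    intro i
    rw [heig i]
    positivity
  have hbig : (‖A‖ ^ 2) ^ n ≤ ∏ i, hsym.eigenvalues hfr i := by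
    rw [← hprod, hdetT, ← pow_mul, mul_comm, pow_mul]
    exact pow_le_pow_left₀ (by positivity) hA 2
  have hall : ∀ i, hsym.eigenvalues hfr i = ‖A‖ ^ 2 := by
    intro i
    by_contra hne
    have hlt : hsym.eigenvalues hfr i < ‖A‖ ^ 2 := lt_of_le_of_ne (hle i) hne
    have h1 : ∏ i, hsym.eigenvalues hfr i < ∏ _i : Fin n, ‖A‖ ^ 2 := by
      rw [← Finset.mul_prod_erase Finset.univ _ (Finset.mem_univ i),
        ← Finset.mul_prod_erase Finset.univ (fun _ : Fin n => ‖A‖ ^ 2) (Finset.mem_univ i)]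
      have h2 : ∏ x ∈ Finset.univ.erase i, hsym.eigenvalues hfr x ≤
          ∏ _x ∈ Finset.univ.erase i, ‖A‖ ^ 2 :=
        Finset.prod_le_prod (fun j _ => hnn j) fun j _ => hle j
      have h3 : 0 < ∏ _x ∈ Finset.univ.erase i, ‖A‖ ^ 2 :=
        Finset.prod_pos fun _ _ => by positivity
      calc hsym.eigenvalues hfr i * ∏ x ∈ Finset.univ.erase i, hsym.eigenvalues hfr x
          ≤ hsym.eigenvalues hfr i * ∏ _x ∈ Finset.univ.erase i, ‖A‖ ^ 2 :=
            mul_le_mul_of_nonneg_left h2 (hnn i)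
        _ < ‖A‖ ^ 2 * ∏ _x ∈ Finset.univ.erase i, ‖A‖ ^ 2 :=
            mul_lt_mul_of_pos_right hlt h3
    rw [Finset.prod_const, Finset.card_univ, Fintype.card_fin] at h1
    exact absurd h1 (not_lt.2 hbig)
  have hTs : T = (‖A‖ ^ 2) • LinearMap.id := by
    apply (hsym.eigenvectorBasis hfr).toBasis.ext
    intro i
    rw [OrthonormalBasis.coe_toBasis, hsym.apply_eigenvectorBasis hfr i, hall i]
    simp
  constructor
  · intro i k
    have h1 : ∑ j, row A i j * row A k j =
        inner ℝ (S (EuclideanSpace.single i 1)) (S (EuclideanSpace.single k 1)) := by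
      rw [PiLp.inner_apply]
      refine Finset.sum_congr rfl fun j _ => ?_
      rw [a4_adj_apply A i j, a4_adj_apply A k j]
      simp [mul_comm]
    rw [h1, ← hTin, hTs]
    simp only [LinearMap.smul_apply, LinearMap.id_coe, id_eq, inner_smul_right]
    rw [EuclideanSpace.inner_single_left]
    by_cases h : i = k
    · subst h
      simp
    · simp [h]
  · have h1 : LinearMap.det (A : E n →ₗ[ℝ] E n) ^ 2 = (‖A‖ ^ n) ^ 2 := by
      rw [← hdetT, hprod]
      simp only [hall]
      rw [Finset.prod_const, Finset.card_univ, Fintype.card_fin, ← pow_mul, ← pow_mul, mul_comm]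
    exact (pow_left_inj₀ hdet0 (by positivity) (by norm_num)).1 h1

theorem conf_zero (hn : 1 ≤ n) : Conf (0 : E n →L[ℝ] E n) := by
  unfold Conf
  simp only [norm_zero]
  rw [zero_pow (by omega)]
  have : ((0 : E n →L[ℝ] E n) : E n →ₗ[ℝ] E n) = 0 := rfl
  rw [this, LinearMap.det_zero, finrank_euclideanSpace, Fintype.card_fin, zero_pow (by omega)]

theorem Conf.smul {A : E n →L[ℝ] E n} (hA : Conf A) {c : ℝ} (hc : 0 ≤ c) : Conf (c • A) := by
  unfold Conf at *
  have h1 : ((c • A : E n →L[ℝ] E n) : E n →ₗ[ℝ] E n) = c • (A : E n →ₗ[ℝ] E n) := rfl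
  rw [h1, LinearMap.det_smul, finrank_euclideanSpace, Fintype.card_fin, norm_smul, mul_pow,
    Real.norm_of_nonneg hc]
  exact mul_le_mul_of_nonneg_left hA (by positivity)

theorem isClosed_conf : IsClosed {A : E n →L[ℝ] E n | Conf A} := by
  unfold Conf
  have h1 : Continuous fun A : E n →L[ℝ] E n => LinearMap.det (A : E n →ₗ[ℝ] E n) := by
    have h2 : (fun A : E n →L[ℝ] E n => LinearMap.det (A : E n →ₗ[ℝ] E n)) =
        fun A => (Matrix.of (row A)).det := by
      funext A
      rw [a4_det]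
    rw [h2]
    apply Continuous.matrix_det
    apply continuous_pi
    intro i
    apply continuous_pi
    intro j
    change Continuous fun A : E n →L[ℝ] E n => A (EuclideanSpace.single j 1) i
    fun_prop
  exact isClosed_le (by fun_prop) h1

end Pool.Agent.Lib.QR
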