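import Pool.Agent.Lib.MP_ba1c0b_an.A3
import Pool.Agent.Lib.MP_ba1c0b_an.A4

/-!
A5: continuity, homogeneity, and the two pointwise inequalities.
-/

set_option autoImplicit false

open MeasureTheory

namespace Pool.Agent.Lib.QR

variable {n : ℕ}

private lemma a5_row_cont (i : Fin n) : Continuous fun A : E n →L[ℝ] E n => row A i := by
  apply continuous_pi
  intro j
  change Continuous fun A : E n →L[ℝ] E n => A (EuclideanSpace.single j 1) i
  fun_prop

private lemma a5_cr_cont : Continuous fun p : (Fin n → ℝ) × V n => cr p.1 p.2 := by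
  change Continuous fun p : (Fin n → ℝ) × V n => WithLp.toLp 2 (fun S : Finset (Fin n) =>
    ∑ j ∈ S, (p.1 j : ℂ) * (sg j S : ℂ) * p.2 (S.erase j))
  apply (PiLp.continuous_toLp 2 _).comp
  apply continuous_pi
  intro S
  apply continuous_finsetSum
  intro j _
  fun_prop

private lemma a5_an_cont : Continuous fun p : (Fin n → ℝ) × V n => an p.1 p.2 := by
  change Continuous fun p : (Fin n → ℝ) × V n => WithLp.toLp 2 (fun S : Finset (Fin n) =>
    ∑ j ∈ Sᶜ, (p.1 j : ℂ) * (sg j S : ℂ) * p.2 (insert j S))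
  apply (PiLp.continuous_toLp 2 _).comp
  apply continuous_pi
  intro S
  apply continuous_finsetSum
  intro j _
  fun_prop

private lemma a5_crl_cont (I : List (Fin n)) (x : V n) :
    Continuous fun A : E n →L[ℝ] E n => crl (I.map (row A)) x := by
  induction I with
  | nil => exact continuous_const
  | cons i I ih =>
    change Continuous fun A : E n →L[ℝ] E n => cr (row A i) (crl (I.map (row A)) x)
    exact Continuous.comp (g := fun p : (Fin n → ℝ) × V n => cr p.1 p.2)
      (f := fun A : E n →L[ℝ] E n => (row A i, crl (I.map (row A)) x)) a5_cr_cont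
      ((a5_row_cont i).prodMk ih)

private lemma a5_anl_cont (I : List (Fin n)) (x : V n) :
    Continuous fun A : E n →L[ℝ] E n => anl (I.map (row A)) x := by
  induction I with
  | nil => exact continuous_const
  | cons i I ih =>
    change Continuous fun A : E n →L[ℝ] E n => an (row A i) (anl (I.map (row A)) x)
    exact Continuous.comp (g := fun p : (Fin n → ℝ) × V n => an p.1 p.2)
      (f := fun A : E n →L[ℝ] E n => (row A i, anl (I.map (row A)) x)) a5_an_cont
      ((a5_row_cont i).prodMk ih)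

private lemma a5_fU (l : ℕ) (A : E n →L[ℝ] E n) :
    fU l A = crl (((List.finRange n).take l).map (row A)) vac := by
  unfold fU
  rw [List.ofFn_eq_map, List.map_take]

private lemma a5_fV (l : ℕ) (A : E n →L[ℝ] E n) :
    fV l A = anl ((((List.finRange n).drop l).reverse).map (row A)) vol := by
  unfold fV
  rw [List.ofFn_eq_map, List.map_reverse, List.map_drop]

private lemma a5_row_smul (c : ℝ) (A : E n →L[ℝ] E n) (i : Fin n) :
    row (c • A) i = c • row A i := by
  funext j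
  simp [row]

private lemma a5_crl_smul (c : ℝ) (A : E n →L[ℝ] E n) (I : List (Fin n)) (x : V n) :
    crl (I.map (row (c • A))) x = ((c : ℂ) ^ I.length) • crl (I.map (row A)) x := by
  induction I with
  | nil => simp [crl]
  | cons i I ih =>
    change cr (row (c • A) i) (crl (I.map (row (c • A))) x) =
      ((c : ℂ) ^ (I.length + 1)) • cr (row A i) (crl (I.map (row A)) x)
    rw [ih, a5_row_smul, cr_smul_left, map_smul, smul_smul, pow_succ, mul_comm]

private lemma a5_anl_smul (c : ℝ) (A : E n →L[ℝ] E n) (I : List (Fin n)) (x : V n) :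
    anl (I.map (row (c • A))) x = ((c : ℂ) ^ I.length) • anl (I.map (row A)) x := by
  induction I with
  | nil => simp [anl]
  | cons i I ih =>
    change an (row (c • A) i) (anl (I.map (row (c • A))) x) =
      ((c : ℂ) ^ (I.length + 1)) • an (row A i) (anl (I.map (row A)) x)
    rw [ih, a5_row_smul, an_smul_left, map_smul, smul_smul, pow_succ, mul_comm]

private lemma a5_crl_deg (L : List (Fin n → ℝ)) (k : ℕ) (x : V n) (hx : IsDeg k x) :
    IsDeg (k + L.length) (crl L x) := by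
  induction L with
  | nil => exact hx
  | cons v L ih => exact isDeg_cr ih v

private lemma a5_anl_deg (L : List (Fin n → ℝ)) : ∀ (k : ℕ) (x : V n), IsDeg (k + L.length) x →
    IsDeg k (anl L x) := by
  induction L with
  | nil => intro k x hx; exact hx
  | cons v L ih =>
    intro k x hx
    refine isDeg_an (ih (k + 1) x ?_) v
    have : k + 1 + L.length = k + (v :: L).length := by
      rw [List.length_cons]; ring
    rw [this]
    exact hx

theorem continuous_fU (l : ℕ) : Continuous (fun A : E n →L[ℝ] E n => fU l A) := by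
  simp only [a5_fU]
  exact a5_crl_cont _ _

theorem continuous_fV (l : ℕ) : Continuous (fun A : E n →L[ℝ] E n => fV l A) := by
  simp only [a5_fV]
  exact a5_anl_cont _ _

theorem fU_smul (l : ℕ) (hl : l ≤ n) (c : ℝ) (A : E n →L[ℝ] E n) :
    fU l (c • A) = ((c : ℂ) ^ l) • fU l A := by
  rw [a5_fU, a5_fU, a5_crl_smul]
  simp [hl]

theorem fV_smul (l : ℕ) (hl : l ≤ n) (c : ℝ) (A : E n →L[ℝ] E n) :
    fV l (c • A) = ((c : ℂ) ^ (n - l)) • fV l A := by
  have _ := hl
  rw [a5_fV, a5_fV, a5_anl_smul]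
  simp

theorem isDeg_fU (l : ℕ) (hl : l ≤ n) (A : E n →L[ℝ] E n) : IsDeg l (fU l A) := by
  have h := a5_crl_deg ((List.ofFn (row A)).take l) 0 (vac : V n) isDeg_vac
  have h2 : 0 + ((List.ofFn (row A)).take l).length = l := by simp [hl]
  rw [h2] at h
  exact h

theorem isDeg_fV (l : ℕ) (hl : l ≤ n) (A : E n →L[ℝ] E n) : IsDeg l (fV l A) := by
  refine a5_anl_deg (((List.ofFn (row A)).drop l).reverse) l (vol : V n) ?_
  have h2 : l + (((List.ofFn (row A)).drop l).reverse).length = n := by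
    simp; omega
  rw [h2]
  exact isDeg_vol

private lemma a5_unit {W : Type*} [NormedAddCommGroup W] [NormedSpace ℝ W] (A : W) :
    A = ‖A‖ • (‖A‖⁻¹ • A) := by
  by_cases h : A = 0
  · subst h
    rw [smul_zero, smul_zero]
  · rw [smul_smul, mul_inv_cancel₀ (norm_ne_zero_iff.2 h), one_smul]

private lemma a5_bound (F : (E n →L[ℝ] E n) → V n) (hF : Continuous F) (d : ℕ)
    (hh : ∀ (c : ℝ) (A : E n →L[ℝ] E n), F (c • A) = ((c : ℂ) ^ d) • F A) :
    ∃ C : ℝ, 0 ≤ C ∧ ∀ A : E n →L[ℝ] E n, ‖F A‖ ≤ C * ‖A‖ ^ d := by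
  have : ProperSpace (E n →L[ℝ] E n) := FiniteDimensional.proper ℝ _
  obtain ⟨C, hC⟩ := (isCompact_closedBall (0 : E n →L[ℝ] E n) 1).exists_bound_of_continuousOn
    hF.continuousOn
  have hC0 : 0 ≤ C := (norm_nonneg _).trans (hC 0 (by simp))
  refine ⟨C, hC0, fun A => ?_⟩
  have h1 : A = ‖A‖ • (‖A‖⁻¹ • A) := a5_unit A
  have h2 : ‖A‖⁻¹ • A ∈ Metric.closedBall (0 : E n →L[ℝ] E n) 1 := by
    rw [mem_closedBall_zero_iff, norm_smul, norm_inv, norm_norm]
    exact inv_mul_le_one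
  have h3 := hC _ h2
  calc ‖F A‖ = ‖F (‖A‖ • (‖A‖⁻¹ • A))‖ := by rw [← h1]
    _ = ‖A‖ ^ d * ‖F (‖A‖⁻¹ • A)‖ := by
      rw [hh, norm_smul, norm_pow]
      simp
    _ ≤ ‖A‖ ^ d * C := mul_le_mul_of_nonneg_left h3 (by positivity)
    _ = C * ‖A‖ ^ d := mul_comm _ _

/-- PROOF: homogeneity and compactness of the unit sphere. -/
theorem bound_fU (l : ℕ) (hl : l ≤ n) : ∃ C : ℝ, 0 ≤ C ∧ ∀ A : E n →L[ℝ] E n,
    ‖fU l A‖ ≤ C * ‖A‖ ^ l :=
  a5_bound (fun A => fU l A) (continuous_fU l) l (fun c A => fU_smul l hl c A)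

theorem bound_fV (l : ℕ) (hl : l ≤ n) : ∃ C : ℝ, 0 ≤ C ∧ ∀ A : E n →L[ℝ] E n,
    ‖fV l A‖ ≤ C * ‖A‖ ^ (n - l) :=
  a5_bound (fun A => fV l A) (continuous_fV l) (n - l) (fun c A => fV_smul l hl c A)

/-- Conformal matrices. PROOF: `conf_rows`, `fV_eq`. -/
theorem conf_forms (l : ℕ) (hn : n = 2 * l + 1) (A : E n →L[ℝ] E n) (hA : Conf A) :
    fV l A = (‖A‖ : ℂ) • fU l A ∧ ‖fU l A‖ = ‖A‖ ^ l := by
  obtain ⟨h1, h2⟩ := conf_rows (by omega) A hA
  exact fV_eq l hn A ‖A‖ (norm_nonneg _) h1 h2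

private lemma a5_hom {W : Type*} [NormedAddCommGroup W] [NormedSpace ℝ W] [FiniteDimensional ℝ W]
    (P : Set W) (hP : IsClosed P) (hPc : ∀ A ∈ P, ∀ c : ℝ, 0 ≤ c → c • A ∈ P) (d : ℕ)
    (hd : 1 ≤ d) (Ψ : W × W → ℝ) (hc : Continuous Ψ)
    (hh : ∀ c : ℝ, 0 ≤ c → ∀ p, Ψ (c • p) = c ^ d * Ψ p)
    (hneg : ∀ A ∈ P, ‖A‖ = 1 → Ψ (A, 0) < 0) :
    ∃ C : ℝ, 0 ≤ C ∧ ∀ A ∈ P, ∀ B, Ψ (A, B) ≤ C * ‖B‖ ^ d := by
  have : ProperSpace (W × W) := FiniteDimensional.proper ℝ _
  set K : Set (W × W) := Metric.sphere 0 1 ∩ {p | p.1 ∈ P ∧ 0 ≤ Ψ p} with hK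
  have hKc : IsCompact K := by
    apply (isCompact_sphere (0 : W × W) 1).inter_right
    exact (hP.preimage continuous_fst).inter (isClosed_le continuous_const hc)
  have hne : ∀ p ∈ K, ‖p.2‖ ≠ 0 := by
    rintro ⟨A, B⟩ ⟨h1, h2, h3⟩ h4
    simp only [norm_eq_zero] at h4
    subst h4
    have h5 : ‖A‖ = 1 := by
      rw [mem_sphere_zero_iff_norm, Prod.norm_def] at h1
      simpa using h1
    exact absurd (hneg A h2 h5) (not_lt.2 h3)
  have hcont : ContinuousOn (fun p : W × W => Ψ p / ‖p.2‖ ^ d) K := by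
    apply ContinuousOn.div hc.continuousOn
    · fun_prop
    · intro p hp
      exact pow_ne_zero _ (hne p hp)
  obtain ⟨C, hC⟩ := hKc.exists_bound_of_continuousOn hcont
  refine ⟨max C 0, le_max_right _ _, fun A hA B => ?_⟩
  by_cases hp : ((A, B) : W × W) = 0
  · have h1 := hh 0 le_rfl 0
    rw [smul_zero, zero_pow (by omega), zero_mul] at h1
    rw [hp, h1]
    positivity
  · have hpos : 0 < ‖((A, B) : W × W)‖ := norm_pos_iff.2 hp
    set t := ‖((A, B) : W × W)‖ with ht
    set q : W × W := t⁻¹ • (A, B) with hq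
    have hqn : ‖q‖ = 1 := by
      rw [hq, norm_smul, norm_inv, Real.norm_of_nonneg hpos.le, ← ht, inv_mul_cancel₀ hpos.ne']
    have hqP : q.1 ∈ P := hPc A hA _ (by positivity)
    have hpq : ((A, B) : W × W) = t • q := by
      rw [hq, smul_smul, mul_inv_cancel₀ hpos.ne', one_smul]
    have hB : ‖B‖ = t * ‖q.2‖ := by
      have : B = t • q.2 := by
        have := congrArg Prod.snd hpq
        simpa using this
      conv_lhs => rw [this]
      rw [norm_smul, Real.norm_of_nonneg hpos.le]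
    have h2 : Ψ q ≤ max C 0 * ‖q.2‖ ^ d := by
      rcases lt_or_ge (Ψ q) 0 with h | h
      · exact h.le.trans (by positivity)
      · have hqK : q ∈ K := ⟨by rw [mem_sphere_zero_iff_norm]; exact hqn, hqP, h⟩
        have h3 := hC q hqK
        have h4 : 0 < ‖q.2‖ ^ d := by
          have := hne q hqK
          positivity
        rw [Real.norm_eq_abs] at h3
        have h5 := (le_abs_self _).trans h3
        rw [div_le_iff₀ h4] at h5
        exact h5.trans (mul_le_mul_of_nonneg_right (le_max_left _ _) h4.le)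
    rw [hpq, hh t hpos.le, hB, mul_pow]
    calc t ^ d * Ψ q ≤ t ^ d * (max C 0 * ‖q.2‖ ^ d) :=
          mul_le_mul_of_nonneg_left h2 (by positivity)
      _ = max C 0 * (t ^ d * ‖q.2‖ ^ d) := by ring

private lemma a5_rpow (l : ℕ) (hl : 1 ≤ l) (c x : ℝ) (hc : 0 ≤ c) (hx : 0 ≤ x) :
    (c ^ l * x) ^ ((1 : ℝ) / l) = c * x ^ ((1 : ℝ) / l) := by
  rw [Real.mul_rpow (by positivity) hx, ← Real.rpow_natCast c l, ← Real.rpow_mul hc]
  have : (l : ℝ) ≠ 0 := by
    have : 0 < l := hl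
    positivity
  rw [mul_one_div_cancel this, Real.rpow_one]

/-- First pointwise inequality. PROOF: all terms are continuous and homogeneous of degree `l + 1` in
`(A, B)`.  On the compact set `{max ‖A‖ ‖B‖ = 1, Conf A}` the left side vanishes where `B = 0` (then
`‖A‖ = 1` and `conf_forms`), so the closed subset where `LHS ≥ κ ‖A‖^(l+1)` has `‖B‖ ≥ c > 0` and `C` exists
by compactness. -/
theorem est1 (l : ℕ) (hl : 1 ≤ l) (hn : n = 2 * l + 1) (κ : ℝ) (hκ : 0 < κ) :
    ∃ C : ℝ, 0 ≤ C ∧ ∀ A B : E n →L[ℝ] E n, Conf A →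
      ‖((‖fU l (A + B)‖ ^ ((1 : ℝ) / l) : ℝ) : ℂ) • fU l (A + B) - fV l (A + B)‖
        ≤ κ * ‖A‖ ^ (l + 1) + C * ‖B‖ ^ (l + 1) := by
  have hln : l ≤ n := by omega
  have hnl : n - l = l + 1 := by omega
  have hl0 : (0 : ℝ) < l := by exact_mod_cast hl
  obtain ⟨C, hC0, hC⟩ := a5_hom {A : E n →L[ℝ] E n | Conf A} isClosed_conf
    (fun A hA c hc => Conf.smul hA hc) (l + 1) (by omega)
    (fun p => ‖((‖fU l (p.1 + p.2)‖ ^ ((1 : ℝ) / l) : ℝ) : ℂ) • fU l (p.1 + p.2)
      - fV l (p.1 + p.2)‖ - κ * ‖p.1‖ ^ (l + 1))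
    (by
      have h1 : Continuous fun p : (E n →L[ℝ] E n) × (E n →L[ℝ] E n) => fU l (p.1 + p.2) :=
        (continuous_fU l).comp (continuous_fst.add continuous_snd)
      have h2 : Continuous fun p : (E n →L[ℝ] E n) × (E n →L[ℝ] E n) => fV l (p.1 + p.2) :=
        (continuous_fV l).comp (continuous_fst.add continuous_snd)
      have h3 : Continuous fun p : (E n →L[ℝ] E n) × (E n →L[ℝ] E n) =>
          ((‖fU l (p.1 + p.2)‖ ^ ((1 : ℝ) / l) : ℝ) : ℂ) :=
        Complex.continuous_ofReal.comp (h1.norm.rpow_const fun _ => Or.inr (by positivity))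
      exact ((h3.smul h1).sub h2).norm.sub (by fun_prop))
    (by
      intro c hc p
      have h1 : (c • p).1 + (c • p).2 = c • (p.1 + p.2) := by
        rw [Prod.smul_fst, Prod.smul_snd, smul_add]
      simp only [h1]
      rw [fU_smul l hln, fV_smul l hln, hnl, norm_smul, norm_pow, Complex.norm_real,
        Real.norm_of_nonneg hc, a5_rpow l hl c _ hc (norm_nonneg _), Prod.smul_fst, norm_smul,
        Real.norm_of_nonneg hc]
      have h2 : ((c * ‖fU l (p.1 + p.2)‖ ^ ((1 : ℝ) / l) : ℝ) : ℂ) • (c : ℂ) ^ l •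
          fU l (p.1 + p.2) - (c : ℂ) ^ (l + 1) • fV l (p.1 + p.2) =
          (c : ℂ) ^ (l + 1) • (((‖fU l (p.1 + p.2)‖ ^ ((1 : ℝ) / l) : ℝ) : ℂ) •
            fU l (p.1 + p.2) - fV l (p.1 + p.2)) := by
        rw [smul_sub, smul_smul, smul_smul]
        congr 2
        push_cast
        ring
      rw [h2, norm_smul, norm_pow, Complex.norm_real, Real.norm_of_nonneg hc]
      ring)
    (by
      intro A hA hA1
      obtain ⟨h1, h2⟩ := conf_forms l hn A hA
      simp only [add_zero]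
      rw [h1, h2, hA1]
      simp [hκ])
  refine ⟨C, hC0, fun A B hA => ?_⟩
  have := hC A hA B
  simp only at this
  linarith

/-- Second pointwise inequality, the same proof. -/
theorem est2 (l : ℕ) (hl : 1 ≤ l) (hn : n = 2 * l + 1) :
    ∃ C : ℝ, 0 ≤ C ∧ ∀ A B : E n →L[ℝ] E n, Conf A →
      ‖A‖ ^ (l + 1) ≤ 2 * ‖fU l (A + B)‖ ^ (1 + (1 : ℝ) / l) + C * ‖B‖ ^ (l + 1) := by
  have hln : l ≤ n := by omega
  have hl0 : (0 : ℝ) < l := by exact_mod_cast hl
  obtain ⟨C, hC0, hC⟩ := a5_hom {A : E n →L[ℝ] E n | Conf A} isClosed_conf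
    (fun A hA c hc => Conf.smul hA hc) (l + 1) (by omega)
    (fun p => ‖p.1‖ ^ (l + 1) - 2 * ‖fU l (p.1 + p.2)‖ ^ (1 + (1 : ℝ) / l))
    (by
      have h1 : Continuous fun p : (E n →L[ℝ] E n) × (E n →L[ℝ] E n) => fU l (p.1 + p.2) :=
        (continuous_fU l).comp (continuous_fst.add continuous_snd)
      have h2 : Continuous fun p : (E n →L[ℝ] E n) × (E n →L[ℝ] E n) =>
          ‖fU l (p.1 + p.2)‖ ^ (1 + (1 : ℝ) / l) :=
        h1.norm.rpow_const fun _ => Or.inr (by positivity)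
      exact (by fun_prop : Continuous fun p : (E n →L[ℝ] E n) × (E n →L[ℝ] E n) =>
        ‖p.1‖ ^ (l + 1)).sub (continuous_const.mul h2))
    (by
      intro c hc p
      have h1 : (c • p).1 + (c • p).2 = c • (p.1 + p.2) := by
        rw [Prod.smul_fst, Prod.smul_snd, smul_add]
      simp only [h1]
      rw [fU_smul l hln, norm_smul, norm_pow, Complex.norm_real,
        Real.norm_of_nonneg hc, Prod.smul_fst, norm_smul, Real.norm_of_nonneg hc]
      have h2 : (c ^ l * ‖fU l (p.1 + p.2)‖) ^ (1 + (1 : ℝ) / l) =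
          c ^ (l + 1) * ‖fU l (p.1 + p.2)‖ ^ (1 + (1 : ℝ) / l) := by
        have hx := norm_nonneg (fU l (p.1 + p.2))
        have e1 : (1 : ℝ) + 1 / l = ((l + 1 : ℕ) : ℝ) * (1 / l) := by
          push_cast
          field_simp
        rw [e1, mul_comm ((l + 1 : ℕ) : ℝ), Real.rpow_mul (by positivity),
          Real.rpow_mul hx, Real.rpow_natCast, Real.rpow_natCast,
          a5_rpow l hl c _ hc hx, mul_pow]
      rw [h2]
      ring)
    (by
      intro A hA hA1
      obtain ⟨_, h2⟩ := conf_forms l hn A hA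
      simp only [add_zero]
      rw [h2, hA1]
      norm_num)
  refine ⟨C, hC0, fun A B hA => ?_⟩
  have := hC A hA B
  simp only at this
  linarith

end Pool.Agent.Lib.QR
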