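import Pool.Agent.Lib.MP_ba1c0b_an.Defs

/-!
B0: orthogonality of the characters of the torus, basic facts on trigonometric sums.
-/

set_option autoImplicit false

open MeasureTheory
open scoped ENNReal

namespace Pool.Agent.Lib.QR

variable {n : ℕ}

private theorem b0_fourier (k : ℤ) :
    ∫ x, (fourier k x : ℂ) ∂(AddCircle.haarAddCircle (T := (1 : ℝ))) = if k = 0 then 1 else 0 := by
  have h := (orthonormal_iff_ite.mp (orthonormal_fourier (T := (1 : ℝ)))) 0 k
  rw [ContinuousMap.inner_toLp] at h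
  simp only [fourier_zero, map_one, mul_one] at h
  rw [h]
  by_cases hk : k = 0
  · simp [hk]
  · rw [if_neg (fun h0 => hk h0.symm), if_neg hk]

theorem integral_mFourier (ξ : Fin n → ℤ) :
    ∫ x, UnitAddTorus.mFourier ξ x ∂(μT n) = if ξ = 0 then 1 else 0 := by
  have h := MeasureTheory.integral_fintype_prod_eq_prod (𝕜 := ℂ)
    (μ := fun _ : Fin n => AddCircle.haarAddCircle (T := (1 : ℝ)))
    (fun (i : Fin n) (y : AddCircle (1 : ℝ)) => (fourier (ξ i) y : ℂ))
  have h2 : ∫ x, UnitAddTorus.mFourier ξ x ∂(μT n)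
      = ∏ i : Fin n, ∫ x, (fourier (ξ i) x : ℂ) ∂(AddCircle.haarAddCircle (T := (1 : ℝ))) := by
    rw [← h]
    rfl
  rw [h2]
  simp only [b0_fourier]
  by_cases hξ : ξ = 0
  · simp [hξ]
  · rw [if_neg hξ]
    obtain ⟨i, hi⟩ := Function.ne_iff.mp hξ
    apply Finset.prod_eq_zero (Finset.mem_univ i)
    exact if_neg hi

theorem continuous_tp {W : Type*} [NormedAddCommGroup W] [NormedSpace ℂ W]
    (S : Finset (Fin n → ℤ)) (a : (Fin n → ℤ) → W) :
    Continuous (tp S a : UnitAddTorus (Fin n) → W) := by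
  unfold tp
  refine continuous_finsetSum _ fun ξ _ => ?_
  exact ((UnitAddTorus.mFourier ξ).continuous).smul continuous_const

private theorem b0_int (ξ : Fin n → ℤ) (c : ℂ) :
    Integrable (fun x => UnitAddTorus.mFourier ξ x * c) (μT n) := by
  have h : Continuous (fun x : UnitAddTorus (Fin n) => UnitAddTorus.mFourier ξ x * c) :=
    ((UnitAddTorus.mFourier ξ).continuous).mul continuous_const
  exact h.integrable_of_hasCompactSupport (HasCompactSupport.of_compactSpace _)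

private theorem b0_int_eq (ξ : Fin n → ℤ) (c : ℂ) :
    ∫ x, UnitAddTorus.mFourier ξ x * c ∂(μT n) = if ξ = 0 then c else 0 := by
  rw [integral_mul_const, integral_mFourier]
  split_ifs <;> simp

private theorem b0_inner {W : Type*} [NormedAddCommGroup W] [InnerProductSpace ℂ W]
    (S : Finset (Fin n → ℤ)) (a : (Fin n → ℤ) → W) (x : UnitAddTorus (Fin n)) :
    inner ℂ (tp S a x) (tp S a x)
      = ∑ ξ ∈ S, ∑ ζ ∈ S, UnitAddTorus.mFourier (ζ - ξ) x * inner ℂ (a ξ) (a ζ) := by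
  unfold tp
  rw [sum_inner]
  refine Finset.sum_congr rfl fun ξ _ => ?_
  rw [inner_sum]
  refine Finset.sum_congr rfl fun ζ _ => ?_
  rw [inner_smul_left, inner_smul_right, ← UnitAddTorus.mFourier_neg, sub_eq_add_neg,
    UnitAddTorus.mFourier_add]
  ring

/-- Parseval. -/
theorem parseval {ι : Type*} [Fintype ι] (S : Finset (Fin n → ℤ))
    (a : (Fin n → ℤ) → EuclideanSpace ℂ ι) :
    ∫ x, ‖tp S a x‖ ^ 2 ∂(μT n) = ∑ ξ ∈ S, ‖a ξ‖ ^ 2 := by
  have h : ((∫ x, ‖tp S a x‖ ^ 2 ∂(μT n) : ℝ) : ℂ) = ((∑ ξ ∈ S, ‖a ξ‖ ^ 2 : ℝ) : ℂ) := by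
    rw [← integral_complex_ofReal]
    have h1 : ∀ x, (((‖tp S a x‖ ^ 2 : ℝ)) : ℂ)
        = ∑ ξ ∈ S, ∑ ζ ∈ S, UnitAddTorus.mFourier (ζ - ξ) x * inner ℂ (a ξ) (a ζ) := by
      intro x
      rw [← b0_inner, inner_self_eq_norm_sq_to_K]
      simp
    simp only [h1]
    rw [integral_finsetSum _ (fun ξ _ => integrable_finsetSum _ fun ζ _ => b0_int _ _)]
    rw [Complex.ofReal_sum]
    refine Finset.sum_congr rfl fun ξ hξ => ?_
    rw [integral_finsetSum _ (fun ζ _ => b0_int _ _)]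
    simp only [b0_int_eq, sub_eq_zero]
    rw [Finset.sum_ite_eq' S ξ, if_pos hξ, inner_self_eq_norm_sq_to_K]
    simp
  exact_mod_cast h

/-- Pairing of trigonometric sums. -/
theorem parseval_bp {ι : Type*} [Fintype ι] (S S' : Finset (Fin n → ℤ))
    (a b : (Fin n → ℤ) → EuclideanSpace ℂ ι) :
    ∫ x, bp (tp S a x) (tp S' b x) ∂(μT n)
      = ∑ ξ ∈ S, ∑ ζ ∈ S', if ξ + ζ = 0 then bp (a ξ) (b ζ) else 0 := by
  have h1 : ∀ x, bp (tp S a x) (tp S' b x)
      = ∑ ξ ∈ S, ∑ ζ ∈ S', UnitAddTorus.mFourier (ξ + ζ) x * bp (a ξ) (b ζ) := by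
    intro x
    have h2 : ∀ i, (tp S a x) i * (tp S' b x) i
        = ∑ ξ ∈ S, ∑ ζ ∈ S', UnitAddTorus.mFourier (ξ + ζ) x * (a ξ i * b ζ i) := by
      intro i
      unfold tp
      simp only [WithLp.ofLp_sum, WithLp.ofLp_smul, Finset.sum_apply, Pi.smul_apply, smul_eq_mul,
        UnitAddTorus.mFourier_add]
      rw [Finset.sum_mul_sum]
      refine Finset.sum_congr rfl fun ξ _ => Finset.sum_congr rfl fun ζ _ => ?_
      ring
    unfold bp
    simp only [h2, Finset.mul_sum]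
    rw [Finset.sum_comm]
    refine Finset.sum_congr rfl fun ξ _ => ?_
    rw [Finset.sum_comm]
  simp only [h1]
  rw [integral_finsetSum _ (fun ξ _ => integrable_finsetSum _ fun ζ _ => b0_int _ _)]
  refine Finset.sum_congr rfl fun ξ hξ => ?_
  rw [integral_finsetSum _ (fun ζ _ => b0_int _ _)]
  simp only [b0_int_eq]

end Pool.Agent.Lib.QR
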