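import Pool.Agent.Lib.MP_ba1c0b_an.B0

/-!
B1: the directional Hilbert transform on the torus, `L^{2m}` bound (M. Riesz), vector valued.
-/

set_option autoImplicit false

open MeasureTheory
open scoped ENNReal

namespace Pool.Agent.Lib.QR

variable {n : ℕ}

/-- Elementary inequality. PROOF: if `b ≥ 6 m a`, the left side is at most
`b^(2m) * (1/3) * (1 + 1/(6m))^(2m-1) ≤ b^(2m) (1/3) e^(1/3)`; otherwise it is at most
`2 m (1 + 6 m)^(2m-1) a^(2m)`. -/
theorem ht_young (m : ℕ) (hm : 1 ≤ m) (a b : ℝ) (ha : 0 ≤ a) (hb : 0 ≤ b) :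
    2 * m * a * (a + b) ^ (2 * m - 1) ≤ b ^ (2 * m) / 2 + (1 + 6 * m) ^ (2 * m) * a ^ (2 * m) := by
  have hm' : (1 : ℝ) ≤ m := by exact_mod_cast hm
  have hmp : (0 : ℝ) < m := by linarith
  obtain ⟨r, hr⟩ : ∃ r, 2 * m = r + 1 := ⟨2 * m - 1, by omega⟩
  have hr1 : 2 * m - 1 = r := by omega
  rw [hr1, hr]
  by_cases hc : 6 * m * a ≤ b
  · have h1 : a + b ≤ b * (1 + 1 / (6 * m)) := by
      have : a ≤ b / (6 * m) := by
        rw [le_div_iff₀ (by positivity)]
        linarith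
      have h2 : b * (1 + 1 / (6 * (m : ℝ))) = b + b / (6 * m) := by ring
      rw [h2]
      linarith
    have h2 : (1 + 1 / (6 * (m : ℝ))) ^ r ≤ 3 / 2 := by
      have h3 : (1 + 1 / (6 * (m : ℝ))) ^ r ≤ (1 + 1 / (6 * (m : ℝ))) ^ (2 * m) := by
        apply pow_le_pow_right₀
        · have : 0 < 1 / (6 * (m : ℝ)) := by positivity
          linarith
        · omega
      have h4 : (1 + 1 / (6 * (m : ℝ))) ^ (2 * m) ≤ Real.exp (1 / 3) := by
        have h5 : 1 + 1 / (6 * (m : ℝ)) ≤ Real.exp (1 / (6 * (m : ℝ))) := by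
          have := Real.add_one_le_exp (1 / (6 * (m : ℝ)))
          linarith
        calc (1 + 1 / (6 * (m : ℝ))) ^ (2 * m)
            ≤ (Real.exp (1 / (6 * (m : ℝ)))) ^ (2 * m) := by
              apply pow_le_pow_left₀ _ h5
              positivity
          _ = Real.exp (1 / 3) := by
              rw [← Real.exp_nat_mul]
              congr 1
              push_cast
              field_simp
              norm_num
      have h6 : Real.exp (1 / 3) ≤ 3 / 2 := by
        have h7 : Real.exp (1 / 3) ^ 3 = Real.exp 1 := by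
          rw [← Real.exp_nat_mul]
          norm_num
        by_contra hcon
        push Not at hcon
        have h8 : (3 / 2 : ℝ) ^ 3 < Real.exp (1 / 3) ^ 3 := by
          apply pow_lt_pow_left₀ hcon (by norm_num) (by norm_num)
        rw [h7] at h8
        have := Real.exp_one_lt_d9
        norm_num at h8
        linarith
      linarith
    have h3 : (a + b) ^ r ≤ b ^ r * (3 / 2) := by
      calc (a + b) ^ r ≤ (b * (1 + 1 / (6 * m))) ^ r := by
            apply pow_le_pow_left₀ (by positivity) h1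
        _ = b ^ r * (1 + 1 / (6 * (m : ℝ))) ^ r := by rw [mul_pow]
        _ ≤ b ^ r * (3 / 2) := by
            apply mul_le_mul_of_nonneg_left h2 (by positivity)
    have h4 : 2 * m * a ≤ b / 3 := by linarith
    calc 2 * m * a * (a + b) ^ r ≤ (b / 3) * (b ^ r * (3 / 2)) := by
          apply mul_le_mul h4 h3 (by positivity) (by positivity)
      _ = b ^ (r + 1) / 2 := by ring
      _ ≤ _ := by
          have : (0 : ℝ) ≤ (1 + 6 * m) ^ (r + 1) * a ^ (r + 1) := by positivity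
          linarith
  · push Not at hc
    have h1 : a + b ≤ a * (1 + 6 * m) := by linarith
    have h2 : 2 * (m : ℝ) ≤ 1 + 6 * m := by linarith
    calc 2 * m * a * (a + b) ^ r ≤ (1 + 6 * m) * a * (a * (1 + 6 * m)) ^ r := by
          apply mul_le_mul
          · apply mul_le_mul_of_nonneg_right h2 ha
          · apply pow_le_pow_left₀ (by positivity) h1
          · positivity
          · positivity
      _ = (1 + 6 * m) ^ (r + 1) * a ^ (r + 1) := by rw [mul_pow]; ring
      _ ≤ _ := by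
          have : 0 ≤ b ^ (r + 1) / 2 := by positivity
          linarith

/-- helper: the real and imaginary parts -/
theorem ht_aux {ι : Type*} [Fintype ι] (p q : EuclideanSpace ℂ ι) :
    (4 * inner ℂ q p : ℂ).re = ‖p + q‖ ^ 2 - ‖p - q‖ ^ 2 ∧
      |(4 * inner ℂ q p : ℂ).im| ≤ 2 * ‖p + q‖ * ‖p - q‖ := by
  have h1 := norm_add_sq (𝕜 := ℂ) p q
  have h2 := norm_sub_sq (𝕜 := ℂ) p q
  have h3 : RCLike.re (inner ℂ p q) = (inner ℂ q p : ℂ).re := by
    have h := congrArg Complex.re (inner_conj_symm (𝕜 := ℂ) p q)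
    rw [Complex.conj_re] at h
    exact h.symm
  constructor
  · rw [h1, h2, h3]
    simp
    ring
  · have h4 : (inner ℂ (p - q) (p + q) : ℂ) = inner ℂ p p + inner ℂ p q - inner ℂ q p - inner ℂ q q := by
      rw [inner_sub_left, inner_add_right, inner_add_right]
      ring
    have h5 : (inner ℂ (p - q) (p + q) : ℂ).im = - 2 * (inner ℂ q p : ℂ).im := by
      rw [h4]
      have h6 : (inner ℂ p p : ℂ).im = 0 := by
        have := inner_self_im (𝕜 := ℂ) p
        simpa using this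
      have h7 : (inner ℂ q q : ℂ).im = 0 := by
        have := inner_self_im (𝕜 := ℂ) q
        simpa using this
      have h8 : (inner ℂ p q : ℂ).im = - (inner ℂ q p : ℂ).im := by
        have h := congrArg Complex.im (inner_conj_symm (𝕜 := ℂ) p q)
        rw [Complex.conj_im] at h
        exact h.symm
      simp only [Complex.add_im, Complex.sub_im, h6, h7, h8]
      ring
    have h9 : |(inner ℂ (p - q) (p + q) : ℂ).im| ≤ ‖p - q‖ * ‖p + q‖ :=
      (Complex.abs_im_le_norm _).trans (norm_inner_le_norm _ _)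
    rw [h5] at h9
    have h10 : (4 * inner ℂ q p : ℂ).im = 4 * (inner ℂ q p : ℂ).im := by simp
    rw [h10]
    rw [abs_mul] at h9 ⊢
    norm_num at h9 ⊢
    linarith

theorem ht_aux2 (m : ℕ) (z w : ℂ) (R : ℝ) (hz : ‖z‖ ≤ R) (hw : ‖w‖ ≤ R) :
    ‖z ^ (m + 1) - w ^ (m + 1)‖ ≤ ‖z - w‖ * ((m + 1) * R ^ m) := by
  have hR : 0 ≤ R := (norm_nonneg _).trans hz
  have h := (Commute.all z w).mul_geom_sum₂ (m + 1)
  rw [← h, norm_mul]
  apply mul_le_mul_of_nonneg_left _ (norm_nonneg _)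
  calc ‖∑ i ∈ Finset.range (m + 1), z ^ i * w ^ (m + 1 - 1 - i)‖
      ≤ ∑ i ∈ Finset.range (m + 1), ‖z ^ i * w ^ (m + 1 - 1 - i)‖ := norm_sum_le _ _
    _ ≤ ∑ i ∈ Finset.range (m + 1), R ^ m := by
        apply Finset.sum_le_sum
        intro i hi
        rw [Finset.mem_range] at hi
        rw [norm_mul, norm_pow, norm_pow]
        calc ‖z‖ ^ i * ‖w‖ ^ (m + 1 - 1 - i) ≤ R ^ i * R ^ (m + 1 - 1 - i) := by
              apply mul_le_mul
              · exact pow_le_pow_left₀ (norm_nonneg _) hz _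
              · exact pow_le_pow_left₀ (norm_nonneg _) hw _
              · positivity
              · positivity
          _ = R ^ m := by
              rw [← pow_add]
              congr 1
              omega
    _ = (m + 1) * R ^ m := by
        rw [Finset.sum_const, Finset.card_range, nsmul_eq_mul]
        push_cast
        ring

/-- Pointwise inequality. `p`, `q` are the parts of `f` with positive and negative frequencies,
`w = 4 ⟪q, p⟫`, `a = ‖p + q‖`, `b = ‖p - q‖`: `Re w = a² - b²`, `|Im w| ≤ 2 a b`, hence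
`|-w - b²| ≤ 2 a (a + b)`, `|w| ≤ (a + b)²` and `|(-w)^m - b^(2m)| ≤ 2 m a (a + b)^(2m-1)`. -/
theorem ht_point {ι : Type*} [Fintype ι] (m : ℕ) (hm : 1 ≤ m) (p q : EuclideanSpace ℂ ι) :
    ‖p - q‖ ^ (2 * m) ≤ ((-(4 * inner ℂ q p)) ^ m : ℂ).re
      + 2 * m * ‖p + q‖ * (‖p + q‖ + ‖p - q‖) ^ (2 * m - 1) := by
  obtain ⟨h1, h2⟩ := ht_aux p q
  set a := ‖p + q‖ with ha
  set b := ‖p - q‖ with hb
  set w : ℂ := 4 * inner ℂ q p with hw
  have ha0 : 0 ≤ a := norm_nonneg _
  have hb0 : 0 ≤ b := norm_nonneg _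
  obtain ⟨r, rfl⟩ : ∃ r, m = r + 1 := ⟨m - 1, by omega⟩
  have hd : ‖-w - ((b ^ 2 : ℝ) : ℂ)‖ ≤ 2 * a * (a + b) := by
    have h3 : ‖-w - ((b ^ 2 : ℝ) : ℂ)‖ ≤ |(-w - ((b ^ 2 : ℝ) : ℂ)).re| + |(-w - ((b ^ 2 : ℝ) : ℂ)).im| :=
      Complex.norm_le_abs_re_add_abs_im _
    have h4 : (-w - ((b ^ 2 : ℝ) : ℂ)).re = - a ^ 2 := by
      rw [Complex.sub_re, Complex.neg_re, h1, Complex.ofReal_re]
      ring
    have h5 : (-w - ((b ^ 2 : ℝ) : ℂ)).im = - w.im := by
      rw [Complex.sub_im, Complex.neg_im, Complex.ofReal_im]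
      ring
    rw [h4, h5, abs_neg, abs_neg, abs_of_nonneg (by positivity)] at h3
    nlinarith [mul_nonneg ha0 ha0, mul_nonneg ha0 hb0]
  have hn1 : ‖((b ^ 2 : ℝ) : ℂ)‖ ≤ (a + b) ^ 2 := by
    rw [Complex.norm_real, Real.norm_of_nonneg (by positivity)]
    nlinarith [mul_nonneg ha0 ha0, mul_nonneg ha0 hb0]
  have hn2 : ‖-w‖ ≤ (a + b) ^ 2 := by
    rw [norm_neg]
    have h3 : ‖w‖ ^ 2 ≤ ((a + b) ^ 2) ^ 2 := by
      rw [Complex.sq_norm, Complex.normSq_apply, h1]
      have h4 : w.im * w.im ≤ (2 * a * b) * (2 * a * b) := by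
        have := abs_le.mp h2
        nlinarith [mul_nonneg ha0 hb0]
      nlinarith [mul_nonneg ha0 ha0, mul_nonneg ha0 hb0, mul_nonneg (mul_nonneg ha0 ha0) (mul_nonneg ha0 hb0), mul_nonneg (mul_nonneg hb0 hb0) (mul_nonneg ha0 hb0), mul_nonneg (mul_nonneg ha0 hb0) (mul_nonneg ha0 hb0)]
    exact (pow_le_pow_iff_left₀ (norm_nonneg _) (by positivity) (by norm_num)).mp h3
  have h6 := ht_aux2 r (-w) ((b ^ 2 : ℝ) : ℂ) ((a + b) ^ 2) hn2 hn1
  have h7 : ((((b ^ 2 : ℝ) : ℂ)) ^ (r + 1)).re = b ^ (2 * (r + 1)) := by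
    rw [← Complex.ofReal_pow, Complex.ofReal_re, ← pow_mul]
  have h8 : b ^ (2 * (r + 1)) - ((-w) ^ (r + 1)).re ≤ ‖(-w) ^ (r + 1) - (((b ^ 2 : ℝ) : ℂ)) ^ (r + 1)‖ := by
    rw [← h7, ← Complex.sub_re, ← norm_neg, neg_sub]
    exact Complex.re_le_norm _
  have h9 : ‖-w - ((b ^ 2 : ℝ) : ℂ)‖ * (((r : ℝ) + 1) * ((a + b) ^ 2) ^ r)
      ≤ 2 * a * (a + b) * (((r : ℝ) + 1) * ((a + b) ^ 2) ^ r) := by
    apply mul_le_mul_of_nonneg_right hd
    positivity
  have h10 : 2 * a * (a + b) * (((r : ℝ) + 1) * ((a + b) ^ 2) ^ r)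
      = 2 * ((r + 1 : ℕ) : ℝ) * a * (a + b) ^ (2 * (r + 1) - 1) := by
    have : 2 * (r + 1) - 1 = 2 * r + 1 := by omega
    rw [this, ← pow_mul]
    push_cast
    ring
  linarith

/-- Combinations of characters of positive pairing with `y`. -/
def HtGood (y : Fin n → ℝ) (f : UnitAddTorus (Fin n) → ℂ) : Prop :=
  ∃ (κ : Type) (_ : Fintype κ) (η : κ → (Fin n → ℤ)) (c : κ → ℂ),
    (∀ i, 0 < ∑ j, (η i j : ℝ) * y j) ∧ ∀ x, f x = ∑ i, c i * UnitAddTorus.mFourier (η i) x

theorem HtGood.mul {y : Fin n → ℝ} {f g : UnitAddTorus (Fin n) → ℂ} (hf : HtGood y f)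
    (hg : HtGood y g) : HtGood y (fun x => f x * g x) := by
  obtain ⟨κ, _, η, c, h1, h2⟩ := hf
  obtain ⟨κ', _, η', c', h1', h2'⟩ := hg
  refine ⟨κ × κ', inferInstance, fun i => η i.1 + η' i.2, fun i => c i.1 * c' i.2, ?_, ?_⟩
  · rintro ⟨i, i'⟩
    have h3 : ∑ j, (((η i + η' i') j : ℤ) : ℝ) * y j
        = (∑ j, (η i j : ℝ) * y j) + ∑ j, (η' i' j : ℝ) * y j := by
      rw [← Finset.sum_add_distrib]
      apply Finset.sum_congr rfl
      intro j _
      rw [Pi.add_apply]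
      push_cast
      ring
    show 0 < ∑ j, (((η i + η' i') j : ℤ) : ℝ) * y j
    rw [h3]
    exact add_pos (h1 i) (h1' i')
  · intro x
    show f x * g x = _
    rw [h2, h2', Finset.sum_mul_sum, Fintype.sum_prod_type]
    apply Finset.sum_congr rfl
    intro i _
    apply Finset.sum_congr rfl
    intro i' _
    rw [UnitAddTorus.mFourier_add]
    ring

theorem HtGood.pow {y : Fin n → ℝ} {f : UnitAddTorus (Fin n) → ℂ} (hf : HtGood y f) (m : ℕ) :
    HtGood y (fun x => f x ^ (m + 1)) := by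
  induction m with
  | zero => simpa using hf
  | succ m ih =>
    have := ih.mul hf
    simpa [pow_succ] using this

theorem HtGood.integral {y : Fin n → ℝ} {f : UnitAddTorus (Fin n) → ℂ} (hf : HtGood y f) :
    ∫ x, f x ∂(μT n) = 0 := by
  obtain ⟨κ, _, η, c, h1, h2⟩ := hf
  simp_rw [h2]
  rw [integral_finsetSum]
  · apply Finset.sum_eq_zero
    intro i _
    rw [integral_const_mul, integral_mFourier, if_neg, mul_zero]
    intro h
    have := h1 i
    rw [h] at this
    simp at this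
  · intro i _
    apply Continuous.integrable_of_hasCompactSupport
    · exact continuous_const.mul (UnitAddTorus.mFourier (η i)).continuous
    · exact HasCompactSupport.of_compactSpace _

/-- If all frequencies `ξ ∈ S` satisfy `ξ · y > 0` and all `ξ ∈ S'` satisfy `ξ · y < 0`, then the mean of
`⟪tp S' b, tp S a⟫ ^ m` is zero. PROOF: `⟪tp S' b, tp S a⟫` is a combination of characters `ξ - ξ'` with
`(ξ - ξ') · y > 0`; the span of these characters is closed under products; `integral_mFourier`. -/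
theorem ht_mean {ι : Type*} [Fintype ι] (m : ℕ) (hm : 1 ≤ m) (y : Fin n → ℝ)
    (S S' : Finset (Fin n → ℤ)) (hS : ∀ ξ ∈ S, 0 < ∑ j, (ξ j : ℝ) * y j)
    (hS' : ∀ ξ ∈ S', ∑ j, (ξ j : ℝ) * y j < 0) (a b : (Fin n → ℤ) → EuclideanSpace ℂ ι) :
    ∫ x, (inner ℂ (tp S' b x) (tp S a x)) ^ m ∂(μT n) = 0 := by
  obtain ⟨r, rfl⟩ : ∃ r, m = r + 1 := ⟨m - 1, by omega⟩
  have h : HtGood y (fun x => inner ℂ (tp S' b x) (tp S a x)) := by
    refine ⟨{ξ // ξ ∈ S'} × {ξ // ξ ∈ S}, inferInstance, fun i => -i.1.1 + i.2.1,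
      fun i => inner ℂ (b i.1.1) (a i.2.1), ?_, ?_⟩
    · rintro ⟨⟨ξ', h'⟩, ⟨ξ, h⟩⟩
      have h1 := hS ξ h
      have h2 := hS' ξ' h'
      have h3 : ∑ j, (((-ξ' + ξ) j : ℤ) : ℝ) * y j
          = (∑ j, (ξ j : ℝ) * y j) - ∑ j, (ξ' j : ℝ) * y j := by
        rw [← Finset.sum_sub_distrib]
        apply Finset.sum_congr rfl
        intro j _
        rw [Pi.add_apply, Pi.neg_apply]
        push_cast
        ring
      show 0 < ∑ j, (((-ξ' + ξ) j : ℤ) : ℝ) * y j
      rw [h3]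
      linarith
    · intro x
      show inner ℂ (tp S' b x) (tp S a x) = _
      unfold tp
      rw [sum_inner, Fintype.sum_prod_type, ← Finset.sum_coe_sort S']
      apply Finset.sum_congr rfl
      intro ξ' _
      rw [inner_sum, ← Finset.sum_coe_sort S]
      apply Finset.sum_congr rfl
      intro ξ _
      rw [inner_smul_left, inner_smul_right, UnitAddTorus.mFourier_add, UnitAddTorus.mFourier_neg]
      ring
  exact (h.pow r).integral

theorem ht_integrable {W : Type*} [NormedAddCommGroup W] {f : UnitAddTorus (Fin n) → W}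
    (hf : Continuous f) : Integrable f (μT n) :=
  hf.integrable_of_hasCompactSupport (HasCompactSupport.of_compactSpace _)

/-- The directional Hilbert transform. PROOF: split `S` in the positive and negative part, `ht_point`,
`ht_mean`, integrate, `ht_young`, absorb. -/
theorem ht {ι : Type*} [Fintype ι] (m : ℕ) (hm : 1 ≤ m) (S : Finset (Fin n → ℤ))
    (a : (Fin n → ℤ) → EuclideanSpace ℂ ι) (y : Fin n → ℝ)
    (hy : ∀ ξ ∈ S, ∑ j, (ξ j : ℝ) * y j ≠ 0) :
    ∫ x, ‖tp S (fun ξ => (((SignType.sign (∑ j, (ξ j : ℝ) * y j) : ℤ) : ℝ) : ℂ) • a ξ) x‖ ^ (2 * m)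
        ∂(μT n)
      ≤ 2 * (1 + 6 * m) ^ (2 * m) * ∫ x, ‖tp S a x‖ ^ (2 * m) ∂(μT n) := by
  classical
  set P : Finset (Fin n → ℤ) := S.filter (fun ξ => 0 < ∑ j, (ξ j : ℝ) * y j) with hP
  set N : Finset (Fin n → ℤ) := S.filter (fun ξ => ¬ 0 < ∑ j, (ξ j : ℝ) * y j) with hN
  have hN' : ∀ ξ ∈ N, ∑ j, (ξ j : ℝ) * y j < 0 := by
    intro ξ hξ
    rw [hN, Finset.mem_filter] at hξ
    exact lt_of_le_of_ne (not_lt.mp hξ.2) (hy ξ hξ.1)
  have h1 : ∀ x, tp S a x = tp P a x + tp N a x := by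
    intro x
    unfold tp
    rw [hP, hN, Finset.sum_filter_add_sum_filter_not]
  have h2 : ∀ x, tp S (fun ξ => (((SignType.sign (∑ j, (ξ j : ℝ) * y j) : ℤ) : ℝ) : ℂ) • a ξ) x
      = tp P a x - tp N a x := by
    intro x
    unfold tp
    rw [← Finset.sum_filter_add_sum_filter_not S (fun ξ => 0 < ∑ j, (ξ j : ℝ) * y j), sub_eq_add_neg,
      ← Finset.sum_neg_distrib]
    congr 1
    · apply Finset.sum_congr rfl
      intro ξ hξ
      rw [Finset.mem_filter] at hξ
      show UnitAddTorus.mFourier ξ x •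
        ((((SignType.sign (∑ j, (ξ j : ℝ) * y j) : ℤ) : ℝ) : ℂ) • a ξ) = _
      rw [sign_pos hξ.2]
      simp
    · apply Finset.sum_congr rfl
      intro ξ hξ
      show UnitAddTorus.mFourier ξ x •
        ((((SignType.sign (∑ j, (ξ j : ℝ) * y j) : ℤ) : ℝ) : ℂ) • a ξ) = _
      rw [sign_neg (hN' ξ hξ)]
      simp
  have hcp := continuous_tp P a
  have hcn := continuous_tp N a
  simp_rw [h1, h2]
  have hpt : ∀ x, ‖tp P a x - tp N a x‖ ^ (2 * m)
      ≤ 2 * ((-(4 * inner ℂ (tp N a x) (tp P a x))) ^ m : ℂ).re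
        + 2 * (1 + 6 * (m : ℝ)) ^ (2 * m) * ‖tp P a x + tp N a x‖ ^ (2 * m) := by
    intro x
    have h3 := ht_point m hm (tp P a x) (tp N a x)
    have h4 := ht_young m hm ‖tp P a x + tp N a x‖ ‖tp P a x - tp N a x‖ (norm_nonneg _) (norm_nonneg _)
    linarith
  have hi : Continuous (fun x => ((-(4 * inner ℂ (tp N a x) (tp P a x))) ^ m : ℂ)) :=
    ((continuous_const.mul (hcn.inner hcp)).neg).pow m
  have h5 : ∫ x, ((-(4 * inner ℂ (tp N a x) (tp P a x))) ^ m : ℂ).re ∂(μT n) = 0 := by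
    have h6 : ∫ x, ((-(4 * inner ℂ (tp N a x) (tp P a x))) ^ m : ℂ) ∂(μT n) = 0 := by
      have h7 : ∀ x, ((-(4 * inner ℂ (tp N a x) (tp P a x))) ^ m : ℂ)
          = (-4) ^ m * (inner ℂ (tp N a x) (tp P a x)) ^ m := by
        intro x
        rw [← mul_pow]
        congr 1
        ring
      simp_rw [h7]
      rw [integral_const_mul, ht_mean m hm y P N ?_ hN' a a, mul_zero]
      intro ξ hξ
      rw [hP, Finset.mem_filter] at hξ
      exact hξ.2
    have h8 := integral_re (𝕜 := ℂ) (ht_integrable hi)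
    rw [h6] at h8
    simpa using h8
  calc ∫ x, ‖tp P a x - tp N a x‖ ^ (2 * m) ∂(μT n)
      ≤ ∫ x, (2 * ((-(4 * inner ℂ (tp N a x) (tp P a x))) ^ m : ℂ).re
        + 2 * (1 + 6 * (m : ℝ)) ^ (2 * m) * ‖tp P a x + tp N a x‖ ^ (2 * m)) ∂(μT n) := by
        apply integral_mono
        · exact ht_integrable ((hcp.sub hcn).norm.pow _)
        · exact ht_integrable ((continuous_const.mul (Complex.continuous_re.comp hi)).add
            (continuous_const.mul ((hcp.add hcn).norm.pow _)))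
        · exact hpt
    _ = 2 * (1 + 6 * (m : ℝ)) ^ (2 * m) * ∫ x, ‖tp P a x + tp N a x‖ ^ (2 * m) ∂(μT n) := by
        rw [integral_add, integral_const_mul, integral_const_mul, h5]
        · ring
        · exact ht_integrable (continuous_const.mul (Complex.continuous_re.comp hi))
        · exact ht_integrable (continuous_const.mul ((hcp.add hcn).norm.pow _))

end Pool.Agent.Lib.QR
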