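import Pool.Agent.Lib.MP_ba1c0b_an.Defs

/-!
B2: the standard Gaussian measure.
-/

set_option autoImplicit false

open MeasureTheory ProbabilityTheory
open scoped ENNReal

namespace Pool.Agent.Lib.QR

variable {n : ℕ}

private lemma gauss_law (ξ : E n) :
    (stdGaussian (E n)).map (fun y : E n => inner ℝ ξ y) =
      gaussianReal 0 (‖ξ‖ ^ 2).toNNReal := by
  have h := IsGaussian.map_eq_gaussianReal (μ := stdGaussian (E n)) (innerSL ℝ ξ)
  rw [integral_strongDual_stdGaussian, variance_dual_stdGaussian, innerSL_apply_norm] at h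
  exact h

/-- PROOF: the law of `⟪ξ, y⟫` is a Gaussian with variance `‖ξ‖² > 0`, no atoms. -/
theorem gauss_null (ξ : E n) (hξ : ξ ≠ 0) : stdGaussian (E n) {y | inner ℝ ξ y = 0} = 0 := by
  have h := gauss_law ξ
  have hv : (‖ξ‖ ^ 2).toNNReal ≠ 0 := by
    have : 0 < ‖ξ‖ ^ 2 := by positivity
    simp [Real.toNNReal_eq_zero, hξ]
  have hm : Measurable (fun y : E n => inner ℝ ξ y) := by fun_prop
  have h1 : stdGaussian (E n) {y | inner ℝ ξ y = 0} =
      ((stdGaussian (E n)).map (fun y : E n => inner ℝ ξ y)) {0} := by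
    rw [Measure.map_apply hm (measurableSet_singleton 0)]
    rfl
  rw [h1, h]
  have := nullSingletonClass_gaussianReal (μ := 0) hv
  exact measure_singleton 0

private lemma coord_memLp (j : Fin n) : MemLp (fun y : E n => y j) 2 (stdGaussian (E n)) := by
  have h := IsGaussian.memLp_dual (stdGaussian (E n)) (EuclideanSpace.proj (𝕜 := ℝ) j) 2 (by simp)
  exact h

theorem gauss_integrable (j : Fin n) : Integrable (fun y : E n => y j) (stdGaussian (E n)) :=
  (coord_memLp j).integrable (by norm_num)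

theorem gauss_integrable2 (i j : Fin n) :
    Integrable (fun y : E n => y i * y j) (stdGaussian (E n)) :=
  (coord_memLp i).integrable_mul (coord_memLp j)

private lemma coord_mean (j : Fin n) : ∫ y : E n, y j ∂(stdGaussian (E n)) = 0 :=
  integral_strongDual_stdGaussian (E := E n) (EuclideanSpace.proj (𝕜 := ℝ) j)

theorem gauss_cov (i j : Fin n) :
    ∫ y : E n, y i * y j ∂(stdGaussian (E n)) = if i = j then 1 else 0 := by
  have h := covariance_eval_multivariateGaussian (μ := (0 : E n)) (S := (1 : Matrix (Fin n) (Fin n) ℝ))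
    Matrix.PosSemidef.one i j
  rw [multivariateGaussian_zero_one, covariance_eq_sub (coord_memLp i) (coord_memLp j), coord_mean,
    coord_mean] at h
  simp only [mul_zero, sub_zero] at h
  rw [Matrix.one_apply] at h
  exact h

private noncomputable def sgr (x : ℝ) : ℝ := ((SignType.sign x : ℤ) : ℝ)

private lemma sgr_eq (x : ℝ) : sgr x = if 0 < x then 1 else if x < 0 then -1 else 0 := by
  unfold sgr
  rw [sign_apply]
  split_ifs <;> simp

private lemma sgr_measurable : Measurable sgr := by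
  have : sgr = fun x : ℝ => if 0 < x then (1 : ℝ) else if x < 0 then -1 else 0 :=
    funext sgr_eq
  rw [this]
  exact Measurable.ite measurableSet_Ioi measurable_const
    (Measurable.ite measurableSet_Iio measurable_const measurable_const)

private lemma sgr_abs_le (x : ℝ) : |sgr x| ≤ 1 := by
  rw [sgr_eq]
  split_ifs <;> simp

private lemma sgr_mul_self (x : ℝ) : sgr x * x = |x| := by
  rw [sgr_eq]
  split_ifs with h1 h2
  · rw [abs_of_pos h1, one_mul]
  · rw [abs_of_neg h2]; ring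
  · have : x = 0 := le_antisymm (not_lt.mp h1) (not_lt.mp h2)
    simp [this]

private lemma abs_moment : ∫ t : ℝ, |t| ∂(gaussianReal 0 1) = 2 / √(2 * Real.pi) := by
  rw [integral_gaussianReal_eq_integral_smul one_ne_zero]
  have h1 : (fun x : ℝ => gaussianPDFReal 0 1 x • |x|) =
      fun x : ℝ => (√(2 * Real.pi))⁻¹ * ((fun u : ℝ => u * Real.exp (-(1 / 2) * u ^ 2)) |x|) := by
    ext x
    simp only [gaussianPDFReal, smul_eq_mul, NNReal.coe_one, mul_one, sub_zero, sq_abs]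
    have : -x ^ 2 / 2 = -(1 / 2) * x ^ 2 := by ring
    rw [this]; ring
  rw [h1, integral_const_mul, integral_comp_abs (f := fun u : ℝ => u * Real.exp (-(1 / 2) * u ^ 2))]
  have h2 : ∫ x in Set.Ioi (0 : ℝ), x * Real.exp (-(1 / 2) * x ^ 2) = 1 := by
    have h3 := integral_rpow_mul_exp_neg_mul_rpow (p := 2) (q := 1) (b := 1 / 2) (by norm_num)
      (by norm_num) (by norm_num)
    have h4 : ∫ x in Set.Ioi (0 : ℝ), x * Real.exp (-(1 / 2) * x ^ 2) =
        ∫ x in Set.Ioi (0 : ℝ), x ^ (1 : ℝ) * Real.exp (-(1 / 2) * x ^ (2 : ℝ)) := by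
      refine setIntegral_congr_fun measurableSet_Ioi fun x _ => ?_
      simp
    rw [h4, h3]
    norm_num
  rw [h2]
  ring

private lemma half_le : 1 / 2 ≤ 2 / √(2 * Real.pi) := by
  have hp : 0 < √(2 * Real.pi) := by positivity
  rw [le_div_iff₀ hp]
  have : √(2 * Real.pi) ≤ 4 := by
    rw [Real.sqrt_le_left (by norm_num)]
    have := Real.pi_le_four
    linarith
  linarith

private lemma abs_inner_moment (ξ : E n) :
    ∫ y : E n, |inner ℝ ξ y| ∂(stdGaussian (E n)) = 2 / √(2 * Real.pi) * ‖ξ‖ := by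
  have hm : Measurable (fun y : E n => inner ℝ ξ y) := by fun_prop
  have h1 : ∫ y : E n, |inner ℝ ξ y| ∂(stdGaussian (E n)) =
      ∫ t : ℝ, |t| ∂((stdGaussian (E n)).map (fun y : E n => inner ℝ ξ y)) := by
    rw [integral_map hm.aemeasurable (by fun_prop)]
  have h2 : gaussianReal 0 (‖ξ‖ ^ 2).toNNReal = (gaussianReal 0 1).map (‖ξ‖ * ·) := by
    rw [gaussianReal_map_const_mul]
    congr 1
    · simp
    · ext
      simp [Real.coe_toNNReal _ (sq_nonneg ‖ξ‖)]
  rw [h1, gauss_law, h2, integral_map (by fun_prop) (by fun_prop)]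
  have h3 : (fun x : ℝ => |‖ξ‖ * x|) = fun x : ℝ => ‖ξ‖ * |x| := by
    ext x
    rw [abs_mul, abs_norm]
  rw [h3, integral_const_mul, abs_moment]
  ring

/-- There is an absolute constant `c0 ≥ 1/2` (namely `√(2/π)`) with `∫ sign⟪ξ,y⟫ y_j = c0 ξ_j / ‖ξ‖`.
PROOF: the vector `m = ∫ sign⟪ξ,y⟫ y` is invariant under the reflection `y ↦ 2⟪ξ,y⟫ξ/‖ξ‖² - y` (a linear
isometry fixing `ξ`, `stdGaussian_map`), so `m = ⟪m,ξ⟫ ξ/‖ξ‖²`, and `⟪m,ξ⟫ = ∫ |⟪ξ,y⟫| = c0 ‖ξ‖` because
the law of `⟪ξ,y⟫` is `N(0,‖ξ‖²)`, with `c0 = ∫ |t| dN(0,1) = √(2/π)`. -/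
theorem gauss_sign : ∃ c0 : ℝ, 1 / 2 ≤ c0 ∧ ∀ (n : ℕ) (ξ : E n), ξ ≠ 0 → ∀ j : Fin n,
    ∫ y : E n, ((SignType.sign (inner ℝ ξ y) : ℤ) : ℝ) * y j ∂(stdGaussian (E n))
      = c0 * (ξ j / ‖ξ‖) := by
  refine ⟨2 / √(2 * Real.pi), half_le, ?_⟩
  intro n ξ hξ j
  have hn : 0 < ‖ξ‖ := norm_pos_iff.mpr hξ
  have hm : Measurable (fun y : E n => inner ℝ ξ y) := by fun_prop
  have hsm : AEStronglyMeasurable (fun y : E n => sgr (inner ℝ ξ y)) (stdGaussian (E n)) :=
    (sgr_measurable.comp hm).aestronglyMeasurable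
  have hbd : ∀ y : E n, ‖sgr (inner ℝ ξ y)‖ ≤ 1 := fun y => sgr_abs_le _
  have hint : Integrable (fun y : E n => inner ℝ ξ y) (stdGaussian (E n)) :=
    (IsGaussian.memLp_dual (stdGaussian (E n)) (innerSL ℝ ξ) 1 (by simp)).integrable le_rfl
  have i1 : Integrable (fun y : E n => sgr (inner ℝ ξ y) * inner ℝ ξ y) (stdGaussian (E n)) :=
    hint.bdd_mul hsm (Filter.Eventually.of_forall hbd)
  have hg : Integrable (fun y : E n => y j - ξ j / ‖ξ‖ ^ 2 * inner ℝ ξ y) (stdGaussian (E n)) :=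
    (gauss_integrable j).sub (hint.const_mul _)
  have i2 : Integrable (fun y : E n => sgr (inner ℝ ξ y) * (y j - ξ j / ‖ξ‖ ^ 2 * inner ℝ ξ y))
      (stdGaussian (E n)) := hg.bdd_mul hsm (Filter.Eventually.of_forall hbd)
  have hsplit : (fun y : E n => ((SignType.sign (inner ℝ ξ y) : ℤ) : ℝ) * y j) =
      fun y : E n => ξ j / ‖ξ‖ ^ 2 * (sgr (inner ℝ ξ y) * inner ℝ ξ y) +
        sgr (inner ℝ ξ y) * (y j - ξ j / ‖ξ‖ ^ 2 * inner ℝ ξ y) := by
    ext y
    show sgr (inner ℝ ξ y) * y j = _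
    ring
  have hzero : ∫ y : E n, sgr (inner ℝ ξ y) * (y j - ξ j / ‖ξ‖ ^ 2 * inner ℝ ξ y)
      ∂(stdGaussian (E n)) = 0 := by
    set R : E n ≃ₗᵢ[ℝ] E n := (Submodule.span ℝ {ξ}).reflection with hR
    have hRξ : R ξ = ξ :=
      Submodule.reflection_mem_subspace_eq_self (Submodule.mem_span_singleton_self ξ)
    have hRin : ∀ y : E n, inner ℝ ξ (R y) = inner ℝ ξ y := by
      intro y
      conv_lhs => rw [← hRξ]
      exact R.inner_map_map ξ y
    have hRj : ∀ y : E n, R y j = 2 * (inner ℝ ξ y / ‖ξ‖ ^ 2 * ξ j) - y j := by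
      intro y
      rw [hR, Submodule.reflection_singleton_apply]
      simp
    have h1 : ∫ y : E n, sgr (inner ℝ ξ y) * (y j - ξ j / ‖ξ‖ ^ 2 * inner ℝ ξ y)
        ∂(stdGaussian (E n)) =
        ∫ y : E n, sgr (inner ℝ ξ (R y)) * (R y j - ξ j / ‖ξ‖ ^ 2 * inner ℝ ξ (R y))
        ∂(stdGaussian (E n)) := by
      conv_lhs => rw [← stdGaussian_map R]
      rw [integral_map]
      · exact R.continuous.measurable.aemeasurable
      · rw [stdGaussian_map R]
        exact i2.aestronglyMeasurable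
    have h2 : (fun y : E n => sgr (inner ℝ ξ (R y)) * (R y j - ξ j / ‖ξ‖ ^ 2 * inner ℝ ξ (R y))) =
        fun y : E n => -(sgr (inner ℝ ξ y) * (y j - ξ j / ‖ξ‖ ^ 2 * inner ℝ ξ y)) := by
      ext y
      rw [hRin, hRj]
      ring
    rw [h2, integral_neg] at h1
    linarith
  rw [hsplit, integral_add (i1.const_mul _) i2, integral_const_mul, hzero, add_zero]
  have h5 : (fun y : E n => sgr (inner ℝ ξ y) * inner ℝ ξ y) = fun y : E n => |inner ℝ ξ y| := by
    ext y
    exact sgr_mul_self _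
  rw [h5, abs_inner_moment]
  field_simp

/-- Bessel's inequality for the orthonormal functions `y_j`. PROOF: expand
`0 ≤ ∫ ‖g y - ∑ j, y_j b_j‖²` with `b_j = ∫ y_j g y`. -/
theorem gauss_bessel {ι : Type*} [Fintype ι] (g : E n → EuclideanSpace ℂ ι)
    (hg : AEStronglyMeasurable g (stdGaussian (E n))) (C : ℝ) (hC : ∀ y, ‖g y‖ ≤ C) :
    ∑ j : Fin n, ‖∫ y : E n, ((y j : ℝ) : ℂ) • g y ∂(stdGaussian (E n))‖ ^ 2
      ≤ ∫ y, ‖g y‖ ^ 2 ∂(stdGaussian (E n)) := by
  set μ := stdGaussian (E n) with hμ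
  have hC0 : 0 ≤ C := (norm_nonneg _).trans (hC 0)
  -- the integrals
  have i0 : ∀ j : Fin n, Integrable (fun y : E n => ((y j : ℝ) : ℂ) • g y) μ := by
    intro j
    have h1 : Integrable (fun y : E n => ((y j : ℝ) : ℂ)) μ := (gauss_integrable j).ofReal
    exact h1.smul_bdd C hg (Filter.Eventually.of_forall hC)
  set b : Fin n → EuclideanSpace ℂ ι := fun j => ∫ y : E n, ((y j : ℝ) : ℂ) • g y ∂μ with hb
  have igg : Integrable (fun y => ‖g y‖ ^ 2) μ := by
    refine Integrable.mono' (integrable_const (C ^ 2)) (hg.norm.pow 2) (Filter.Eventually.of_forall ?_)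
    intro y
    rw [Real.norm_of_nonneg (by positivity)]
    exact pow_le_pow_left₀ (norm_nonneg _) (hC y) 2
  have igb : ∀ j : Fin n, Integrable (fun y : E n => (inner ℂ (b j) (((y j : ℝ) : ℂ) • g y)).re) μ := by
    intro j
    exact (Integrable.const_inner (𝕜 := ℂ) (b j) (i0 j)).re
  have ibb : ∀ i j : Fin n, Integrable (fun y : E n => y i * y j * (inner ℂ (b i) (b j)).re) μ :=
    fun i j => (gauss_integrable2 i j).mul_const _
  -- the expansion
  have hexp : ∀ y : E n, ‖g y - ∑ j, ((y j : ℝ) : ℂ) • b j‖ ^ 2 =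
      ‖g y‖ ^ 2 - 2 * (∑ j, (inner ℂ (b j) (((y j : ℝ) : ℂ) • g y)).re) +
        ∑ i, ∑ j, y i * y j * (inner ℂ (b i) (b j)).re := by
    intro y
    rw [norm_sub_sq (𝕜 := ℂ)]
    have hre : RCLike.re (inner ℂ (g y) (∑ j, ((y j : ℝ) : ℂ) • b j)) =
        ∑ j, (inner ℂ (b j) (((y j : ℝ) : ℂ) • g y)).re := by
      rw [inner_re_symm (𝕜 := ℂ), sum_inner, map_sum]
      refine Finset.sum_congr rfl fun j _ => ?_
      rw [inner_smul_left, inner_smul_right, Complex.conj_ofReal]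
      rfl
    rw [hre]
    congr 1
    · rw [← inner_self_eq_norm_sq (𝕜 := ℂ), sum_inner, map_sum]
      refine Finset.sum_congr rfl fun i _ => ?_
      rw [inner_sum, map_sum]
      refine Finset.sum_congr rfl fun j _ => ?_
      rw [inner_smul_left, inner_smul_right, Complex.conj_ofReal, ← mul_assoc,
        ← Complex.ofReal_mul]
      exact Complex.re_ofReal_mul _ _
  have hint : ∫ y : E n, ‖g y - ∑ j, ((y j : ℝ) : ℂ) • b j‖ ^ 2 ∂μ =
      ∫ y, ‖g y‖ ^ 2 ∂μ - ∑ j : Fin n, ‖b j‖ ^ 2 := by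
    have e1 : ∀ j : Fin n, ∫ y : E n, (inner ℂ (b j) (((y j : ℝ) : ℂ) • g y)).re ∂μ = ‖b j‖ ^ 2 := by
      intro j
      have h1 := integral_inner (𝕜 := ℂ) (i0 j) (b j)
      have h2 := integral_re (𝕜 := ℂ) (Integrable.const_inner (𝕜 := ℂ) (b j) (i0 j))
      have h3 : ∫ y : E n, (inner ℂ (b j) (((y j : ℝ) : ℂ) • g y)).re ∂μ =
          (∫ y : E n, inner ℂ (b j) (((y j : ℝ) : ℂ) • g y) ∂μ).re := h2
      rw [h3, h1]
      exact inner_self_eq_norm_sq (𝕜 := ℂ) (b j)
    have e2 : ∀ i j : Fin n, ∫ y : E n, y i * y j * (inner ℂ (b i) (b j)).re ∂μ =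
        if i = j then ‖b i‖ ^ 2 else 0 := by
      intro i j
      rw [integral_mul_const, gauss_cov]
      split_ifs with hij
      · subst hij
        rw [one_mul]
        exact inner_self_eq_norm_sq (𝕜 := ℂ) (b i)
      · rw [zero_mul]
    have e3 : ∫ y : E n, ‖g y - ∑ j, ((y j : ℝ) : ℂ) • b j‖ ^ 2 ∂μ =
        ∫ y : E n, (‖g y‖ ^ 2 - 2 * (∑ j, (inner ℂ (b j) (((y j : ℝ) : ℂ) • g y)).re) +
        ∑ i, ∑ j, y i * y j * (inner ℂ (b i) (b j)).re) ∂μ :=
      integral_congr_ae (Filter.Eventually.of_forall hexp)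
    have j1 : Integrable (fun y : E n => 2 * (∑ j, (inner ℂ (b j) (((y j : ℝ) : ℂ) • g y)).re)) μ :=
      (integrable_finsetSum _ fun j _ => igb j).const_mul 2
    have j2 : Integrable (fun y : E n => ∑ i, ∑ j, y i * y j * (inner ℂ (b i) (b j)).re) μ :=
      integrable_finsetSum _ fun i _ => integrable_finsetSum _ fun j _ => ibb i j
    have j0 : Integrable (fun y : E n =>
        ‖g y‖ ^ 2 - 2 * (∑ j, (inner ℂ (b j) (((y j : ℝ) : ℂ) • g y)).re)) μ := igg.sub j1
    rw [e3, integral_add j0 j2, integral_sub igg j1, integral_const_mul,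
      integral_finsetSum _ fun j _ => igb j,
      integral_finsetSum _ fun i _ => integrable_finsetSum _ fun j _ => ibb i j]
    have e4 : ∀ i : Fin n, ∫ y : E n, ∑ j, y i * y j * (inner ℂ (b i) (b j)).re ∂μ = ‖b i‖ ^ 2 := by
      intro i
      rw [integral_finsetSum _ fun j _ => ibb i j]
      simp_rw [e2]
      simp
    simp_rw [e1, e4]
    ring
  have hnn : 0 ≤ ∫ y : E n, ‖g y - ∑ j, ((y j : ℝ) : ℂ) • b j‖ ^ 2 ∂μ :=
    integral_nonneg fun y => by positivity
  rw [hint] at hnn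
  linarith

end Pool.Agent.Lib.QR
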