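import Pool.Agent.Lib.MP_ba1c0b_an.B1
import Pool.Agent.Lib.MP_ba1c0b_an.B2

/-!
B3: dimension free `L^{2m}` bound for the vector of Riesz transforms on the torus.
-/

set_option autoImplicit false

open MeasureTheory ProbabilityTheory
open scoped ENNReal

namespace Pool.Agent.Lib.QR

variable {n : ℕ}

/-- The real sign function. -/
private noncomputable def rzS (t : ℝ) : ℝ := ((SignType.sign t : ℤ) : ℝ)

private theorem rzS_meas : Measurable rzS := by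
  have h : rzS = fun t : ℝ => if 0 < t then 1 else if t < 0 then -1 else 0 := by
    funext t
    unfold rzS
    rw [sign_apply]
    split_ifs <;> simp
  rw [h]
  exact Measurable.ite measurableSet_Ioi measurable_const
    (Measurable.ite measurableSet_Iio measurable_const measurable_const)

private theorem rzS_bd (t : ℝ) : |rzS t| ≤ 1 := by
  unfold rzS
  rw [sign_apply]
  split_ifs <;> simp

private noncomputable def rzF {ι : Type*} [Fintype ι] (S : Finset (Fin n → ℤ))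
    (a : (Fin n → ℤ) → EuclideanSpace ℂ ι) (p : UnitAddTorus (Fin n) × E n) : EuclideanSpace ℂ ι :=
  ∑ ξ ∈ S, UnitAddTorus.mFourier ξ p.1 • (((rzS (∑ j, (ξ j : ℝ) * p.2 j) : ℝ) : ℂ) • a ξ)

private theorem rzF_meas {ι : Type*} [Fintype ι] (S : Finset (Fin n → ℤ))
    (a : (Fin n → ℤ) → EuclideanSpace ℂ ι) : StronglyMeasurable (rzF (n := n) S a) := by
  unfold rzF
  refine Finset.stronglyMeasurable_fun_sum _ fun ξ _ => ?_
  have h1 : StronglyMeasurable (fun p : UnitAddTorus (Fin n) × E n => UnitAddTorus.mFourier ξ p.1) :=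
    ((UnitAddTorus.mFourier ξ).continuous.measurable.comp measurable_fst).stronglyMeasurable
  have h2 : StronglyMeasurable (fun p : UnitAddTorus (Fin n) × E n =>
      ((rzS (∑ j, (ξ j : ℝ) * p.2 j) : ℝ) : ℂ)) := by
    refine Measurable.stronglyMeasurable ?_
    refine Complex.measurable_ofReal.comp (rzS_meas.comp ?_)
    refine Finset.measurable_fun_sum _ fun j _ => ?_
    refine Measurable.const_mul ?_ _
    have : Measurable (fun y : E n => y j) := (EuclideanSpace.proj j : E n →L[ℝ] ℝ).continuous.measurable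
    exact this.comp measurable_snd
  exact h1.smul (h2.smul_const (a ξ))

private theorem rzF_bd {ι : Type*} [Fintype ι] (S : Finset (Fin n → ℤ))
    (a : (Fin n → ℤ) → EuclideanSpace ℂ ι) (p : UnitAddTorus (Fin n) × E n) :
    ‖rzF S a p‖ ≤ ∑ ξ ∈ S, ‖a ξ‖ := by
  unfold rzF
  refine (norm_sum_le _ _).trans (Finset.sum_le_sum fun ξ _ => ?_)
  rw [norm_smul, norm_smul]
  have h1 : ‖UnitAddTorus.mFourier ξ p.1‖ ≤ 1 := by
    refine ((UnitAddTorus.mFourier ξ).norm_coe_le_norm p.1).trans ?_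
    rw [UnitAddTorus.mFourier_norm]
  have h2 : ‖((rzS (∑ j, (ξ j : ℝ) * p.2 j) : ℝ) : ℂ)‖ ≤ 1 := by
    rw [Complex.norm_real, Real.norm_eq_abs]
    exact rzS_bd _
  have h3 : ‖((rzS (∑ j, (ξ j : ℝ) * p.2 j) : ℝ) : ℂ)‖ * ‖a ξ‖ ≤ ‖a ξ‖ :=
    mul_le_of_le_one_left (norm_nonneg _) h2
  exact (mul_le_of_le_one_left (by positivity) h1).trans h3

private theorem rz_inner (ξ : Fin n → ℤ) (y : E n) :
    inner ℝ (WithLp.toLp 2 (fr ξ) : E n) y = ∑ j, (ξ j : ℝ) * y j := by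
  rw [PiLp.inner_apply]
  refine Finset.sum_congr rfl fun j _ => ?_
  simp [fr, mul_comm]

private theorem rz_norm (ξ : Fin n → ℤ) :
    ‖(WithLp.toLp 2 (fr ξ) : E n)‖ = Real.sqrt (nsq (fr ξ)) := by
  rw [EuclideanSpace.norm_eq]
  simp [nsq]

private theorem rz_ne (ξ : Fin n → ℤ) (h : ξ ≠ 0) : (WithLp.toLp 2 (fr ξ) : E n) ≠ 0 := by
  intro h0
  apply h
  funext j
  have := congrArg (fun v : E n => v j) h0
  simpa [fr] using this

private theorem rz_ae (S : Finset (Fin n → ℤ)) (hS : (0 : Fin n → ℤ) ∉ S) :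
    ∀ᵐ y ∂(stdGaussian (E n)), ∀ ξ ∈ S, ∑ j, (ξ j : ℝ) * y j ≠ 0 := by
  rw [Finset.eventually_all]
  intro ξ hξ
  have h := gauss_null (WithLp.toLp 2 (fr ξ) : E n) (rz_ne ξ (fun h => hS (h ▸ hξ)))
  rw [ae_iff]
  simpa [rz_inner] using h

private theorem rz_point {ι : Type*} [Fintype ι] (m : ℕ) (S : Finset (Fin n → ℤ))
    (hS : (0 : Fin n → ℤ) ∉ S) (a : (Fin n → ℤ) → EuclideanSpace ℂ ι) (x : UnitAddTorus (Fin n)) :
    (∑ j : Fin n, ‖tp S (fun ξ => (((ξ j : ℝ) / Real.sqrt (nsq (fr ξ)) : ℝ) : ℂ) • a ξ) x‖ ^ 2) ^ m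
      ≤ 4 ^ m * ∫ y, ‖rzF S a (x, y)‖ ^ (2 * m) ∂(stdGaussian (E n)) := by
  obtain ⟨c0, hc0, hsg⟩ := gauss_sign
  have hsm : StronglyMeasurable (fun y : E n => rzF S a (x, y)) :=
    (rzF_meas S a).comp_measurable measurable_prodMk_left
  have hbd : ∀ y : E n, ‖rzF S a (x, y)‖ ≤ ∑ ξ ∈ S, ‖a ξ‖ := fun y => rzF_bd S a (x, y)
  have hint : ∀ j : Fin n, ∫ y : E n, ((y j : ℝ) : ℂ) • rzF S a (x, y) ∂(stdGaussian (E n))
      = (c0 : ℂ) • tp S (fun ξ => (((ξ j : ℝ) / Real.sqrt (nsq (fr ξ)) : ℝ) : ℂ) • a ξ) x := by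
    intro j
    unfold rzF tp
    simp only [Finset.smul_sum]
    have hI : ∀ ξ : Fin n → ℤ, Integrable (fun y : E n => rzS (∑ i, (ξ i : ℝ) * y i) * y j)
        (stdGaussian (E n)) := by
      intro ξ
      refine (gauss_integrable j).mono ?_ (Filter.Eventually.of_forall fun y => ?_)
      · refine (Measurable.mul ?_ ?_).aestronglyMeasurable
        · refine rzS_meas.comp (Finset.measurable_fun_sum _ fun i _ => Measurable.const_mul ?_ _)
          exact (EuclideanSpace.proj i : E n →L[ℝ] ℝ).continuous.measurable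
        · exact (EuclideanSpace.proj j : E n →L[ℝ] ℝ).continuous.measurable
      · rw [norm_mul]
        exact mul_le_of_le_one_left (norm_nonneg _) (by rw [Real.norm_eq_abs]; exact rzS_bd _)
    have hE : ∀ ξ ∈ S, ∫ y : E n, rzS (∑ i, (ξ i : ℝ) * y i) * y j ∂(stdGaussian (E n))
        = c0 * ((ξ j : ℝ) / Real.sqrt (nsq (fr ξ))) := by
      intro ξ hξ
      have h := hsg n (WithLp.toLp 2 (fr ξ) : E n) (rz_ne ξ (fun h => hS (h ▸ hξ))) j
      rw [rz_norm] at h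
      simp only [rz_inner] at h
      exact h
    have hfe : ∀ (ξ : Fin n → ℤ) (y : E n),
        ((y j : ℝ) : ℂ) • (UnitAddTorus.mFourier ξ x • (((rzS (∑ i, (ξ i : ℝ) * y i) : ℝ) : ℂ) • a ξ))
        = ((rzS (∑ i, (ξ i : ℝ) * y i) * y j : ℝ) : ℂ) • (UnitAddTorus.mFourier ξ x • a ξ) := by
      intro ξ y
      rw [smul_smul, smul_smul, smul_smul]
      congr 1
      push_cast
      ring
    simp only [hfe]
    have hI' : ∀ ξ : Fin n → ℤ, Integrable (fun y : E n =>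
        ((rzS (∑ i, (ξ i : ℝ) * y i) * y j : ℝ) : ℂ) • (UnitAddTorus.mFourier ξ x • a ξ))
        (stdGaussian (E n)) := fun ξ => ((hI ξ).ofReal (𝕜 := ℂ)).smul_const _
    rw [integral_finsetSum _ (fun ξ _ => hI' ξ)]
    refine Finset.sum_congr rfl fun ξ hξ => ?_
    rw [integral_smul_const]
    rw [show ∫ y : E n, ((rzS (∑ i, (ξ i : ℝ) * y i) * y j : ℝ) : ℂ) ∂(stdGaussian (E n))
      = ((∫ y : E n, rzS (∑ i, (ξ i : ℝ) * y i) * y j ∂(stdGaussian (E n)) : ℝ) : ℂ) from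
      integral_ofReal]
    rw [hE ξ hξ, smul_smul, smul_smul, smul_smul]
    congr 1
    push_cast
    ring
  have hb := gauss_bessel (fun y : E n => rzF S a (x, y)) hsm.aestronglyMeasurable _ hbd
  simp only [hint] at hb
  have hc : ‖(c0 : ℂ)‖ = c0 := by
    rw [Complex.norm_real, Real.norm_eq_abs, abs_of_nonneg (by linarith)]
  simp only [norm_smul, hc, mul_pow] at hb
  rw [← Finset.mul_sum] at hb
  set R := ∑ j : Fin n, ‖tp S (fun ξ => (((ξ j : ℝ) / Real.sqrt (nsq (fr ξ)) : ℝ) : ℂ) • a ξ) x‖ ^ 2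
    with hR
  have hR0 : 0 ≤ R := Finset.sum_nonneg fun j _ => by positivity
  have h4 : R ≤ 4 * ∫ y, ‖rzF S a (x, y)‖ ^ 2 ∂(stdGaussian (E n)) := by
    have h5 : (1 / 4 : ℝ) ≤ c0 ^ 2 := by nlinarith
    nlinarith [mul_le_mul_of_nonneg_right h5 hR0]
  have hInt : ∀ k : ℕ, Integrable (fun y : E n => (‖rzF S a (x, y)‖ ^ 2) ^ k) (stdGaussian (E n)) := by
    intro k
    refine Integrable.of_bound ((hsm.norm.pow 2).pow k).aestronglyMeasurable
      (((∑ ξ ∈ S, ‖a ξ‖) ^ 2) ^ k) (Filter.Eventually.of_forall fun y => ?_)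
    rw [Real.norm_eq_abs, abs_of_nonneg (by positivity)]
    exact pow_le_pow_left₀ (by positivity) (pow_le_pow_left₀ (norm_nonneg _) (hbd y) 2) k
  have hJ : (∫ y, ‖rzF S a (x, y)‖ ^ 2 ∂(stdGaussian (E n))) ^ m
      ≤ ∫ y, (‖rzF S a (x, y)‖ ^ 2) ^ m ∂(stdGaussian (E n)) := by
    refine (convexOn_pow m).map_integral_le (continuous_pow m).continuousOn isClosed_Ici ?_ ?_ (hInt m)
    · exact Filter.Eventually.of_forall fun y => by
        simp only [Set.mem_Ici]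
        positivity
    · simpa using hInt 1
  calc R ^ m ≤ (4 * ∫ y, ‖rzF S a (x, y)‖ ^ 2 ∂(stdGaussian (E n))) ^ m :=
        pow_le_pow_left₀ hR0 h4 m
    _ = 4 ^ m * (∫ y, ‖rzF S a (x, y)‖ ^ 2 ∂(stdGaussian (E n))) ^ m := mul_pow _ _ _
    _ ≤ 4 ^ m * ∫ y, (‖rzF S a (x, y)‖ ^ 2) ^ m ∂(stdGaussian (E n)) := by gcongr
    _ = 4 ^ m * ∫ y, ‖rzF S a (x, y)‖ ^ (2 * m) ∂(stdGaussian (E n)) := by simp only [pow_mul]

/-- PROOF: for `y` outside a Gaussian null set (`gauss_null`) put `h_y = tp S (sign(ξ·y) a_ξ)`.  At fixed `x`,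
`∫ y_j h_y(x) dγ(y) = c0 R_j f(x)` (`gauss_sign`), so `c0² ∑ ‖R_j f(x)‖² ≤ ∫ ‖h_y(x)‖² dγ` (`gauss_bessel`),
then Jensen (`(∫ F dγ)^m ≤ ∫ F^m dγ`), integrate in `x`, Fubini and `ht`.  Constant `c0^(-2m) ≤ 4^m`. -/
theorem riesz {ι : Type*} [Fintype ι] (m : ℕ) (hm : 1 ≤ m) (S : Finset (Fin n → ℤ))
    (hS : (0 : Fin n → ℤ) ∉ S) (a : (Fin n → ℤ) → EuclideanSpace ℂ ι) :
    ∫ x, (∑ j : Fin n, ‖tp S (fun ξ => (((ξ j : ℝ) / Real.sqrt (nsq (fr ξ)) : ℝ) : ℂ) • a ξ) x‖ ^ 2) ^ m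
        ∂(μT n)
      ≤ 4 ^ m * (2 * (1 + 6 * m) ^ (2 * m)) * ∫ x, ‖tp S a x‖ ^ (2 * m) ∂(μT n) := by
  have hI : Integrable (fun p : UnitAddTorus (Fin n) × E n => ‖rzF S a p‖ ^ (2 * m))
      ((μT n).prod (stdGaussian (E n))) := by
    refine Integrable.of_bound ((rzF_meas S a).norm.pow (2 * m)).aestronglyMeasurable
      ((∑ ξ ∈ S, ‖a ξ‖) ^ (2 * m)) (Filter.Eventually.of_forall fun p => ?_)
    rw [Real.norm_eq_abs, abs_of_nonneg (by positivity)]
    exact pow_le_pow_left₀ (norm_nonneg _) (rzF_bd S a p) _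
  have h1 : ∫ x, (∑ j : Fin n,
      ‖tp S (fun ξ => (((ξ j : ℝ) / Real.sqrt (nsq (fr ξ)) : ℝ) : ℂ) • a ξ) x‖ ^ 2) ^ m ∂(μT n)
      ≤ ∫ x, 4 ^ m * ∫ y, ‖rzF S a (x, y)‖ ^ (2 * m) ∂(stdGaussian (E n)) ∂(μT n) := by
    refine integral_mono_of_nonneg (Filter.Eventually.of_forall fun x => ?_)
      (hI.integral_prod_left.const_mul _)
      (Filter.Eventually.of_forall fun x => rz_point m S hS a x)
    simp only [Pi.zero_apply]
    positivity
  have h2 : ∫ x, 4 ^ m * ∫ y, ‖rzF S a (x, y)‖ ^ (2 * m) ∂(stdGaussian (E n)) ∂(μT n)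
      = 4 ^ m * ∫ y, ∫ x, ‖rzF S a (x, y)‖ ^ (2 * m) ∂(μT n) ∂(stdGaussian (E n)) := by
    rw [integral_const_mul, integral_integral_swap hI]
  have h3 : ∫ y, ∫ x, ‖rzF S a (x, y)‖ ^ (2 * m) ∂(μT n) ∂(stdGaussian (E n))
      ≤ ∫ y : E n, 2 * (1 + 6 * m) ^ (2 * m) * ∫ x, ‖tp S a x‖ ^ (2 * m) ∂(μT n)
          ∂(stdGaussian (E n)) := by
    refine integral_mono_ae hI.integral_prod_right (integrable_const _) ?_
    filter_upwards [rz_ae S hS] with y hy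
    exact ht m hm S a (fun j => y j) hy
  rw [integral_const, probReal_univ, one_smul] at h3
  rw [h2] at h1
  refine h1.trans ?_
  rw [mul_assoc]
  exact mul_le_mul_of_nonneg_left h3 (by positivity)

end Pool.Agent.Lib.QR
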