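import Pool.Agent.Lib.MP_ba1c0b_an.A2
import Pool.Agent.Lib.MP_ba1c0b_an.B0
import Pool.Agent.Lib.MP_ba1c0b_an.B3

/-!
B4: bounds of the Hodge projection on trigonometric sums.
-/

set_option autoImplicit false

open MeasureTheory
open scoped ENNReal

namespace Pool.Agent.Lib.QR

private theorem b4_integrable {n : ℕ} {g : UnitAddTorus (Fin n) → ℝ} (hg : Continuous g) :
    Integrable g (μT n) :=
  hg.integrable_of_hasCompactSupport (HasCompactSupport.of_compactSpace g)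

private theorem b4_integrable' {n : ℕ} {W : Type*} [NormedAddCommGroup W] [NormedSpace ℂ W]
    {g : UnitAddTorus (Fin n) → W} (hg : Continuous g) :
    Integrable g (μT n) :=
  hg.integrable_of_hasCompactSupport (HasCompactSupport.of_compactSpace g)

private theorem b4_tp_map {n : ℕ} {W W' : Type*} [NormedAddCommGroup W] [NormedSpace ℂ W]
    [NormedAddCommGroup W'] [NormedSpace ℂ W'] (L : W →ₗ[ℂ] W') (S : Finset (Fin n → ℤ))
    (a : (Fin n → ℤ) → W) (x : UnitAddTorus (Fin n)) :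
    tp S (fun ξ => L (a ξ)) x = L (tp S a x) := by
  simp [tp, map_sum]

private theorem b4_tp_sum {n : ℕ} {κ : Type*} {W : Type*} [NormedAddCommGroup W] [NormedSpace ℂ W]
    (s : Finset κ) (S : Finset (Fin n → ℤ))
    (a : κ → (Fin n → ℤ) → W) (x : UnitAddTorus (Fin n)) :
    tp S (fun ξ => ∑ j ∈ s, a j ξ) x = ∑ j ∈ s, tp S (a j) x := by
  unfold tp
  rw [Finset.sum_comm]
  apply Finset.sum_congr rfl
  intro ξ _
  rw [Finset.smul_sum]

private theorem b4_sum_apply {n : ℕ} (w : Fin n → V n) (U : Finset (Fin n)) :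
    (∑ j, w j) U = ∑ j, (w j) U := by
  simp

private theorem b4_integral_tp {n : ℕ} {ι : Type*} [Fintype ι] (S : Finset (Fin n → ℤ))
    (a : (Fin n → ℤ) → EuclideanSpace ℂ ι) :
    ∫ x, tp S a x ∂(μT n) = if (0 : Fin n → ℤ) ∈ S then a 0 else 0 := by
  unfold tp
  rw [integral_finsetSum]
  · simp_rw [integral_smul_const, integral_mFourier, ite_smul, one_smul, zero_smul]
    rw [Finset.sum_ite_eq' S (0 : Fin n → ℤ) a]
  · intro ξ _
    exact b4_integrable' (by fun_prop)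

private theorem b4_tp_erase {n : ℕ} {ι : Type*} [Fintype ι] (S : Finset (Fin n → ℤ))
    (a : (Fin n → ℤ) → EuclideanSpace ℂ ι) (x : UnitAddTorus (Fin n)) :
    tp (S.erase 0) a x = tp S a x - ∫ y, tp S a y ∂(μT n) := by
  rw [b4_integral_tp]
  split_ifs with h
  · have h1 := Finset.sum_erase_add S (fun ξ => UnitAddTorus.mFourier ξ x • a ξ) h
    have h2 : UnitAddTorus.mFourier (0 : Fin n → ℤ) x = 1 := by
      rw [UnitAddTorus.mFourier_zero]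
      rfl
    unfold tp
    rw [← h1]
    beta_reduce
    rw [h2, one_smul, add_sub_cancel_right]
  · rw [Finset.erase_eq_of_notMem h, sub_zero]

private theorem b4_mean {n : ℕ} {ι : Type*} [Fintype ι] (m : ℕ) (hm : 1 ≤ m)
    (S : Finset (Fin n → ℤ)) (a : (Fin n → ℤ) → EuclideanSpace ℂ ι) :
    ∫ x, ‖tp (S.erase 0) a x‖ ^ (2 * m) ∂(μT n)
      ≤ 2 ^ (2 * m) * ∫ x, ‖tp S a x‖ ^ (2 * m) ∂(μT n) := by
  set I : ℝ := ∫ x, ‖tp S a x‖ ^ (2 * m) ∂(μT n) with hI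
  have hc : Continuous (tp S a : UnitAddTorus (Fin n) → _) := continuous_tp S a
  have h1 : ‖∫ y, tp S a y ∂(μT n)‖ ^ (2 * m) ≤ I := by
    have h2 : ‖∫ y, tp S a y ∂(μT n)‖ ≤ ∫ y, ‖tp S a y‖ ∂(μT n) := norm_integral_le_integral_norm _
    have h3 : (∫ y, ‖tp S a y‖ ∂(μT n)) ^ (2 * m) ≤ I := by
      have hconv : ConvexOn ℝ Set.univ (fun t : ℝ => t ^ (2 * m)) := (even_two_mul m).convexOn_pow
      exact hconv.map_integral_le (continuous_pow _).continuousOn isClosed_univ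
        (Filter.Eventually.of_forall fun _ => Set.mem_univ _)
        (b4_integrable hc.norm) (b4_integrable (hc.norm.pow _))
    exact (pow_le_pow_left₀ (norm_nonneg _) h2 _).trans h3
  have h2 : ∀ x, ‖tp (S.erase 0) a x‖ ^ (2 * m)
      ≤ 2 ^ (2 * m - 1) * (‖tp S a x‖ ^ (2 * m) + I) := by
    intro x
    rw [b4_tp_erase]
    calc ‖tp S a x - ∫ y, tp S a y ∂(μT n)‖ ^ (2 * m)
        ≤ (‖tp S a x‖ + ‖∫ y, tp S a y ∂(μT n)‖) ^ (2 * m) :=
          pow_le_pow_left₀ (norm_nonneg _) (norm_sub_le _ _) _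
      _ ≤ 2 ^ (2 * m - 1) * (‖tp S a x‖ ^ (2 * m) + ‖∫ y, tp S a y ∂(μT n)‖ ^ (2 * m)) :=
          add_pow_le (norm_nonneg _) (norm_nonneg _) _
      _ ≤ _ := by gcongr
  calc ∫ x, ‖tp (S.erase 0) a x‖ ^ (2 * m) ∂(μT n)
      ≤ ∫ x, 2 ^ (2 * m - 1) * (‖tp S a x‖ ^ (2 * m) + I) ∂(μT n) := by
        apply integral_mono
        · exact b4_integrable ((continuous_tp _ _).norm.pow _)
        · exact b4_integrable (by fun_prop)
        · exact h2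
    _ = 2 ^ (2 * m - 1) * (I + I) := by
        have hadd : ∫ x, (‖tp S a x‖ ^ (2 * m) + I) ∂(μT n)
            = ∫ x, ‖tp S a x‖ ^ (2 * m) ∂(μT n) + ∫ x, I ∂(μT n) :=
          integral_add (b4_integrable (hc.norm.pow _)) (integrable_const _)
        rw [integral_const_mul, hadd, ← hI]
        simp
    _ = 2 ^ (2 * m) * I := by
        obtain ⟨k, hk⟩ : ∃ k, 2 * m = k + 1 := ⟨2 * m - 1, by omega⟩
        rw [hk]
        simp only [Nat.add_sub_cancel]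
        ring

/-- One step: `tp S (b ξ)` with `b ξ = ∑ j, (ξ_j / |ξ|) c_j (a ξ)`. -/
private theorem b4_step {n : ℕ} (m : ℕ) (hm : 1 ≤ m) (S : Finset (Fin n → ℤ))
    (hS : (0 : Fin n → ℤ) ∉ S) (a : (Fin n → ℤ) → V n) (C : Fin n → V n →ₗ[ℂ] V n) (K : ℝ)
    (hK : 0 ≤ K)
    (hC : ∀ x : UnitAddTorus (Fin n),
      ‖∑ j, C j (tp S (fun ξ => (((ξ j : ℝ) / Real.sqrt (nsq (fr ξ)) : ℝ) : ℂ) • a ξ) x)‖ ^ 2
        ≤ K * ∑ j, ‖tp S (fun ξ => (((ξ j : ℝ) / Real.sqrt (nsq (fr ξ)) : ℝ) : ℂ) • a ξ) x‖ ^ 2) :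
    ∫ x, ‖tp S (fun ξ => ∑ j, C j ((((ξ j : ℝ) / Real.sqrt (nsq (fr ξ)) : ℝ) : ℂ) • a ξ)) x‖
        ^ (2 * m) ∂(μT n)
      ≤ K ^ m * (4 ^ m * (2 * (1 + 6 * m) ^ (2 * m))) * ∫ x, ‖tp S a x‖ ^ (2 * m) ∂(μT n) := by
  have h1 : ∀ x, ‖tp S (fun ξ => ∑ j, C j ((((ξ j : ℝ) / Real.sqrt (nsq (fr ξ)) : ℝ) : ℂ) • a ξ)) x‖
        ^ (2 * m)
      ≤ K ^ m * (∑ j, ‖tp S (fun ξ => (((ξ j : ℝ) / Real.sqrt (nsq (fr ξ)) : ℝ) : ℂ) • a ξ) x‖ ^ 2)
        ^ m := by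
    intro x
    rw [b4_tp_sum, pow_mul, ← mul_pow]
    simp_rw [b4_tp_map]
    exact pow_le_pow_left₀ (by positivity) (hC x) _
  calc _ ≤ ∫ x, K ^ m *
        (∑ j, ‖tp S (fun ξ => (((ξ j : ℝ) / Real.sqrt (nsq (fr ξ)) : ℝ) : ℂ) • a ξ) x‖ ^ 2) ^ m
          ∂(μT n) := by
        apply integral_mono
        · exact b4_integrable ((continuous_tp _ _).norm.pow _)
        · apply b4_integrable
          apply Continuous.mul continuous_const
          apply Continuous.pow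
          apply continuous_finsetSum
          intro j _
          exact (continuous_tp _ _).norm.pow _
        · exact h1
    _ ≤ _ := by
        rw [integral_const_mul, mul_assoc]
        exact mul_le_mul_of_nonneg_left (riesz m hm S hS a) (by positivity)

/-- The constant of the `L^{2m}` bound on `R^(2l+1)`. -/
noncomputable def Mc (l m : ℕ) : ℝ := 16 * (l + 1) * (1 + 6 * m) ^ 2

theorem one_le_Mc (l m : ℕ) : 1 ≤ Mc l m := by
  unfold Mc
  have h1 : (1 : ℝ) ≤ (1 + 6 * (m : ℝ)) ^ 2 := by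
    have : (0 : ℝ) ≤ m := Nat.cast_nonneg m
    nlinarith
  have h2 : (1 : ℝ) ≤ 16 * ((l : ℝ) + 1) := by
    have : (0 : ℝ) ≤ l := Nat.cast_nonneg l
    linarith
  nlinarith

/-- `L^{2m}` bound. PROOF: remove the mean value and the components of degree `≠ l`
(`‖f - ∫ f‖_{2m} ≤ 2 ‖f‖_{2m}`).  With `R_j` = multiplier `ξ_j/|ξ|` and `e_j = Pi.single j 1`:
`G = ∑ j, cr e_j (R_j f) = tp (cr(ξ) a_ξ / |ξ|)`, pointwise `‖G‖² ≤ (l+1) ∑ ‖R_j f‖²` (`sum_cr_le`), and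
`tp (Pj l ξ a_ξ) = ∑ j, an e_j (R_j G)`, pointwise `‖·‖² ≤ (n-l) ∑ ‖R_j G‖²` (`sum_an_le`), `n - l = l + 1`;
twice `riesz`.  Constant: `4 * (8 (l+1) (1+6m)²)^(2m) ≤ (Mc l m)^(2m)`. -/
theorem proj_P (l m : ℕ) (hm : 1 ≤ m) (S : Finset (Fin (2 * l + 1) → ℤ))
    (a : (Fin (2 * l + 1) → ℤ) → V (2 * l + 1)) :
    ∫ x, ‖tp S (fun ξ => Pj l ξ (a ξ)) x‖ ^ (2 * m) ∂(μT (2 * l + 1))
      ≤ (Mc l m) ^ (2 * m) * ∫ x, ‖tp S a x‖ ^ (2 * m) ∂(μT (2 * l + 1)) := by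
  classical
  set T : Finset (Fin (2 * l + 1) → ℤ) := S.erase 0 with hT
  have hT0 : (0 : Fin (2 * l + 1) → ℤ) ∉ T := by simp [hT]
  -- the first step
  set a1 : (Fin (2 * l + 1) → ℤ) → V (2 * l + 1) := fun ξ => dg l (a ξ) with ha1
  set a2 : (Fin (2 * l + 1) → ℤ) → V (2 * l + 1) :=
    fun ξ => ∑ j, cr (Pi.single j (1 : ℝ)) ((((ξ j : ℝ) / Real.sqrt (nsq (fr ξ)) : ℝ) : ℂ) • a1 ξ)
    with ha2
  set a3 : (Fin (2 * l + 1) → ℤ) → V (2 * l + 1) :=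
    fun ξ => ∑ j, an (Pi.single j (1 : ℝ)) ((((ξ j : ℝ) / Real.sqrt (nsq (fr ξ)) : ℝ) : ℂ) • a2 ξ)
    with ha3
  have hdtp : ∀ (k : ℕ) (b : (Fin (2 * l + 1) → ℤ) → V (2 * l + 1)), (∀ ξ, IsDeg k (b ξ)) →
      ∀ x, IsDeg k (tp T b x) := by
    intro k b hb x U hU
    unfold tp
    simp [hb _ U hU]
  have hd1 : ∀ ξ, IsDeg l (a1 ξ) := fun ξ => isDeg_dg l _
  have hsm : ∀ (k : ℕ) (c : ℂ) (v : V (2 * l + 1)), IsDeg k v → IsDeg k (c • v) := by
    intro k c v hv U hU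
    simp [hv U hU]
  have hd2 : ∀ ξ, IsDeg (l + 1) (a2 ξ) := by
    intro ξ U hU
    have : ∀ j, (cr (Pi.single j (1 : ℝ)) ((((ξ j : ℝ) / Real.sqrt (nsq (fr ξ)) : ℝ) : ℂ) • a1 ξ)) U
        = 0 := fun j => isDeg_cr (hsm l _ _ (hd1 ξ)) _ U hU
    show (∑ j, cr (Pi.single j (1 : ℝ)) ((((ξ j : ℝ) / Real.sqrt (nsq (fr ξ)) : ℝ) : ℂ) • a1 ξ)) U
      = 0
    rw [b4_sum_apply]
    exact Finset.sum_eq_zero fun j _ => this j
  have s1 := b4_step m hm T hT0 a1 (fun j => cr (Pi.single j (1 : ℝ))) ((l : ℝ) + 1)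
    (by positivity) (fun x => sum_cr_le l _ fun j => hdtp l _ (fun ξ => hsm l _ _ (hd1 ξ)) x)
  have s2 := b4_step m hm T hT0 a2 (fun j => an (Pi.single j (1 : ℝ))) ((l : ℝ) + 1)
    (by positivity) (fun x => by
      have := sum_an_le (n := 2 * l + 1) l (by omega)
        (fun j => tp T (fun ξ => (((ξ j : ℝ) / Real.sqrt (nsq (fr ξ)) : ℝ) : ℂ) • a2 ξ) x)
        (fun j => hdtp (l + 1) _ (fun ξ => hsm (l + 1) _ _ (hd2 ξ)) x)
      have h2 : (((2 * l + 1 : ℕ) : ℝ) - (l : ℝ)) = (l : ℝ) + 1 := by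
        push_cast
        ring
      rw [h2] at this
      exact this)
  have h3 : ∀ ξ, ξ ≠ 0 → Pj l ξ (a ξ) = a3 ξ := by
    intro ξ hξ
    have hpos : 0 ≤ nsq (fr ξ) := Finset.sum_nonneg fun _ _ => by positivity
    have e2 : a2 ξ = (((Real.sqrt (nsq (fr ξ)))⁻¹ : ℝ) : ℂ) • cr (fr ξ) (a1 ξ) := by
      rw [cr_eq_sum (fr ξ), Finset.smul_sum, ha2]
      apply Finset.sum_congr rfl
      intro j _
      rw [map_smul, smul_smul]
      congr 1
      rw [← Complex.ofReal_mul, div_eq_inv_mul]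
      rfl
    have e3 : a3 ξ = (((Real.sqrt (nsq (fr ξ)))⁻¹ : ℝ) : ℂ) • an (fr ξ) (a2 ξ) := by
      rw [an_eq_sum (fr ξ), Finset.smul_sum, ha3]
      apply Finset.sum_congr rfl
      intro j _
      rw [map_smul, smul_smul]
      congr 1
      rw [← Complex.ofReal_mul, div_eq_inv_mul]
      rfl
    rw [e3, e2, map_smul, smul_smul, ← Complex.ofReal_mul, ← mul_inv, Real.mul_self_sqrt hpos]
    rfl
  have h4 : ∀ x, tp S (fun ξ => Pj l ξ (a ξ)) x = tp T a3 x := by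
    intro x
    have h5 : tp S (fun ξ => Pj l ξ (a ξ)) x = tp T (fun ξ => Pj l ξ (a ξ)) x := by
      unfold tp
      by_cases h0 : (0 : Fin (2 * l + 1) → ℤ) ∈ S
      · rw [hT, ← Finset.sum_erase_add S _ h0]
        simp [Pj_zero]
      · rw [hT, Finset.erase_eq_of_notMem h0]
    rw [h5]
    unfold tp
    apply Finset.sum_congr rfl
    intro ξ hξ
    beta_reduce
    rw [h3 ξ (by rintro rfl; exact hT0 hξ)]
  have h6 : ∫ x, ‖tp T a1 x‖ ^ (2 * m) ∂(μT (2 * l + 1))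
      ≤ ∫ x, ‖tp T a x‖ ^ (2 * m) ∂(μT (2 * l + 1)) := by
    apply integral_mono
    · exact b4_integrable ((continuous_tp _ _).norm.pow _)
    · exact b4_integrable ((continuous_tp _ _).norm.pow _)
    · intro x
      show ‖tp T (fun ξ => dg l (a ξ)) x‖ ^ (2 * m) ≤ _
      rw [b4_tp_map]
      exact pow_le_pow_left₀ (norm_nonneg _) (norm_dg_le _ _) _
  have h7 := b4_mean m hm S a
  simp_rw [h4]
  set Q : ℝ := ((l : ℝ) + 1) ^ m * (4 ^ m * (2 * (1 + 6 * m) ^ (2 * m))) with hQ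
  have hQ0 : 0 ≤ Q := by positivity
  calc ∫ x, ‖tp T a3 x‖ ^ (2 * m) ∂(μT (2 * l + 1))
      ≤ Q * ∫ x, ‖tp T a2 x‖ ^ (2 * m) ∂(μT (2 * l + 1)) := s2
    _ ≤ Q * (Q * ∫ x, ‖tp T a1 x‖ ^ (2 * m) ∂(μT (2 * l + 1))) :=
        mul_le_mul_of_nonneg_left s1 hQ0
    _ ≤ Q * (Q * (2 ^ (2 * m) * ∫ x, ‖tp S a x‖ ^ (2 * m) ∂(μT (2 * l + 1)))) := by
        gcongr
        exact h6.trans h7
    _ = (Q * Q * 2 ^ (2 * m)) * ∫ x, ‖tp S a x‖ ^ (2 * m) ∂(μT (2 * l + 1)) := by ring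
    _ ≤ _ := by
        apply mul_le_mul_of_nonneg_right
        · have e1 : Q * Q * 2 ^ (2 * m)
              = 4 * (8 * ((l : ℝ) + 1) * (1 + 6 * m) ^ 2) ^ (2 * m) := by
            rw [hQ, show (8 : ℝ) = 2 * 4 by norm_num]
            generalize (l : ℝ) + 1 = y
            generalize 1 + 6 * (m : ℝ) = z
            rw [mul_pow, mul_pow, mul_pow, ← pow_mul]
            ring
          have e2 : (Mc l m) ^ (2 * m)
              = 2 ^ (2 * m) * (8 * ((l : ℝ) + 1) * (1 + 6 * m) ^ 2) ^ (2 * m) := by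
            unfold Mc
            rw [← mul_pow]
            congr 1
            ring
          rw [e1, e2]
          apply mul_le_mul_of_nonneg_right _ (by positivity)
          calc (4 : ℝ) = 2 ^ 2 := by norm_num
            _ ≤ 2 ^ (2 * m) := pow_le_pow_right₀ (by norm_num) (by omega)
        · exact integral_nonneg fun x => by positivity

/-- `L²` bound. PROOF: `parseval`, `norm_Pj_le`. -/
theorem proj_two {n : ℕ} (k : ℕ) (S : Finset (Fin n → ℤ)) (a : (Fin n → ℤ) → V n) :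
    ∫ x, ‖tp S (fun ξ => Pj k ξ (a ξ)) x‖ ^ 2 ∂(μT n) ≤ ∫ x, ‖tp S a x‖ ^ 2 ∂(μT n) := by
  rw [parseval, parseval]
  apply Finset.sum_le_sum
  intro ξ _
  exact pow_le_pow_left₀ (norm_nonneg _) (norm_Pj_le _ _ _) _

/-- Symmetry. PROOF: `parseval_bp`, `bp_Pj`, `Pj_neg`. -/
theorem proj_symm {n : ℕ} (k : ℕ) (S S' : Finset (Fin n → ℤ)) (a b : (Fin n → ℤ) → V n) :
    ∫ x, bp (tp S (fun ξ => Pj k ξ (a ξ)) x) (tp S' b x) ∂(μT n)
      = ∫ x, bp (tp S a x) (tp S' (fun ξ => Pj k ξ (b ξ)) x) ∂(μT n) := by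
  rw [parseval_bp, parseval_bp]
  apply Finset.sum_congr rfl
  intro ξ _
  apply Finset.sum_congr rfl
  intro ζ _
  split_ifs with h
  · have : ζ = -ξ := by
      rw [eq_neg_iff_add_eq_zero, add_comm]
      exact h
    rw [this, bp_Pj, Pj_neg]
  · rfl

end Pool.Agent.Lib.QR
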