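import Pool.Agent.Lib.MP_ba1c0b_an.B0

/-!
C1: density of the vector valued trigonometric sums in `L^P` of the torus.
-/

set_option autoImplicit false

open MeasureTheory
open scoped ENNReal

namespace Pool.Agent.Lib.QR

variable {n : ℕ}

theorem memLp_tp {ι : Type*} [Fintype ι] (p : ℝ≥0∞) (S : Finset (Fin n → ℤ))
    (a : (Fin n → ℤ) → EuclideanSpace ℂ ι) : MemLp (tp S a) p (μT n) :=
  (continuous_tp S a).memLp_of_hasCompactSupport (HasCompactSupport.of_compactSpace _)

/-- The submodule of trigonometric sums in `L^p`. -/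
noncomputable def trigSub (n : ℕ) (ι : Type*) [Fintype ι] (p : ℝ≥0∞) [Fact (1 ≤ p)] :
    Submodule ℂ (Lp (EuclideanSpace ℂ ι) p (μT n)) :=
  Submodule.span ℂ {g | ∃ (ξ : Fin n → ℤ) (y : EuclideanSpace ℂ ι),
    (g : UnitAddTorus (Fin n) → EuclideanSpace ℂ ι) =ᵐ[μT n] fun x => UnitAddTorus.mFourier ξ x • y}

private theorem c1_tp_insert {ι : Type*} [Fintype ι] (S : Finset (Fin n → ℤ)) (ξ : Fin n → ℤ)
    (h : ξ ∉ S) (a : (Fin n → ℤ) → EuclideanSpace ℂ ι) :
    tp (insert ξ S) a = fun x => UnitAddTorus.mFourier ξ x • a ξ + tp S a x := by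
  funext x
  simp only [tp]
  rw [Finset.sum_insert h]

private theorem c1_toLp_mem {ι : Type*} [Fintype ι] (p : ℝ≥0∞) [Fact (1 ≤ p)]
    (S : Finset (Fin n → ℤ)) (a : (Fin n → ℤ) → EuclideanSpace ℂ ι) :
    (memLp_tp p S a).toLp (tp S a) ∈ trigSub n ι p := by
  classical
  induction S using Finset.induction_on with
  | empty =>
    have h0 : (memLp_tp p ∅ a).toLp (tp (∅ : Finset (Fin n → ℤ)) a) = 0 := by
      refine Lp.ext ((memLp_tp p ∅ a).coeFn_toLp.trans
        (Filter.EventuallyEq.trans ?_ (Lp.coeFn_zero _ _ _).symm))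
      refine Filter.Eventually.of_forall fun x => ?_
      simp [tp]
    rw [h0]
    exact Submodule.zero_mem _
  | insert ξ S hξ ih =>
    have hm : MemLp (fun x => UnitAddTorus.mFourier ξ x • a ξ) p (μT n) := by
      have h1 := memLp_tp p ({ξ} : Finset (Fin n → ℤ)) a
      have h2 : tp ({ξ} : Finset (Fin n → ℤ)) a = fun x => UnitAddTorus.mFourier ξ x • a ξ := by
        funext x
        simp [tp]
      rwa [h2] at h1
    have h0 : (memLp_tp p (insert ξ S) a).toLp (tp (insert ξ S) a)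
        = hm.toLp _ + (memLp_tp p S a).toLp (tp S a) := by
      rw [← MemLp.toLp_add]
      refine MemLp.toLp_congr _ _ ?_
      rw [c1_tp_insert S ξ hξ a]
      exact Filter.Eventually.of_forall fun x => rfl
    rw [h0]
    refine Submodule.add_mem _ (Submodule.subset_span ⟨ξ, a ξ, hm.coeFn_toLp⟩) ih

/-- Every element of `trigSub` is a.e. a trigonometric sum and conversely. -/
theorem mem_trigSub_iff {ι : Type*} [Fintype ι] (p : ℝ≥0∞) [Fact (1 ≤ p)]
    (g : Lp (EuclideanSpace ℂ ι) p (μT n)) :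
    g ∈ trigSub n ι p ↔ ∃ (S : Finset (Fin n → ℤ)) (a : (Fin n → ℤ) → EuclideanSpace ℂ ι),
      (g : UnitAddTorus (Fin n) → EuclideanSpace ℂ ι) =ᵐ[μT n] tp S a := by
  classical
  constructor
  · intro hg
    unfold trigSub at hg
    induction hg using Submodule.span_induction with
    | mem x hx =>
      obtain ⟨ξ, y, h⟩ := hx
      refine ⟨{ξ}, fun _ => y, h.trans (Filter.Eventually.of_forall fun x => ?_)⟩
      simp [tp]
    | zero =>
      refine ⟨∅, fun _ => 0, (Lp.coeFn_zero _ _ _).trans (Filter.Eventually.of_forall fun x => ?_)⟩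
      simp [tp]
    | add x y _ _ ihx ihy =>
      obtain ⟨S₁, a₁, h₁⟩ := ihx
      obtain ⟨S₂, a₂, h₂⟩ := ihy
      refine ⟨S₁ ∪ S₂, fun ξ => (if ξ ∈ S₁ then a₁ ξ else 0) + (if ξ ∈ S₂ then a₂ ξ else 0),
        (Lp.coeFn_add _ _).trans ((h₁.add h₂).trans (Filter.Eventually.of_forall fun x => ?_))⟩
      simp only [tp, smul_add, smul_ite, smul_zero, Finset.sum_add_distrib]
      rw [Finset.sum_ite_mem, Finset.sum_ite_mem, Finset.union_inter_cancel_left,
        Finset.union_inter_cancel_right]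
      rfl
    | smul c x _ ih =>
      obtain ⟨S, a, h⟩ := ih
      refine ⟨S, fun ξ => c • a ξ,
        (Lp.coeFn_smul _ _).trans ((h.const_smul c).trans (Filter.Eventually.of_forall fun x => ?_))⟩
      simp only [tp, Finset.smul_sum, Pi.smul_apply]
      exact Finset.sum_congr rfl fun ξ _ => smul_comm _ _ _
  · rintro ⟨S, a, h⟩
    have hg : g = (memLp_tp p S a).toLp (tp S a) := by
      apply Lp.ext
      exact h.trans (memLp_tp p S a).coeFn_toLp.symm
    rw [hg]
    exact c1_toLp_mem p S a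

/-- The submodule of trigonometric sums in the continuous functions. -/
private noncomputable def c1_sub (n : ℕ) (ι : Type*) [Fintype ι] :
    Submodule ℂ (C(UnitAddTorus (Fin n), EuclideanSpace ℂ ι)) :=
  Submodule.span ℂ {g | ∃ (ξ : Fin n → ℤ) (y : EuclideanSpace ℂ ι),
    ∀ x, g x = UnitAddTorus.mFourier ξ x • y}

private noncomputable def c1_phi (n : ℕ) {ι : Type*} [Fintype ι] (y : EuclideanSpace ℂ ι) :
    C(UnitAddTorus (Fin n), ℂ) →L[ℂ] C(UnitAddTorus (Fin n), EuclideanSpace ℂ ι) :=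
  ContinuousLinearMap.compLeftContinuous ℂ (UnitAddTorus (Fin n))
    ((ContinuousLinearMap.id ℂ ℂ).smulRight y)

private theorem c1_phi_apply {ι : Type*} [Fintype ι] (y : EuclideanSpace ℂ ι)
    (f : C(UnitAddTorus (Fin n), ℂ)) (x : UnitAddTorus (Fin n)) :
    c1_phi n y f x = f x • y := rfl

private theorem c1_phi_mem {ι : Type*} [Fintype ι] (y : EuclideanSpace ℂ ι)
    (f : C(UnitAddTorus (Fin n), ℂ)) : c1_phi n y f ∈ (c1_sub n ι).topologicalClosure := by
  have h1 : f ∈ (Submodule.span ℂ (Set.range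
      (UnitAddTorus.mFourier (d := Fin n)))).topologicalClosure := by
    rw [UnitAddTorus.span_mFourier_closure_eq_top]
    trivial
  have h2 : (Submodule.span ℂ (Set.range (UnitAddTorus.mFourier (d := Fin n)))) ≤
      (c1_sub n ι).comap (c1_phi n y : C(UnitAddTorus (Fin n), ℂ) →ₗ[ℂ] _) := by
    rw [Submodule.span_le]
    rintro _ ⟨ξ, rfl⟩
    exact Submodule.subset_span ⟨ξ, y, fun x => c1_phi_apply y _ x⟩
  have h3 : Set.MapsTo (c1_phi n y)
      (Submodule.span ℂ (Set.range (UnitAddTorus.mFourier (d := Fin n))) : Set _)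
      (c1_sub n ι : Set _) := fun g hg => h2 hg
  exact map_mem_closure (c1_phi n y).continuous h1 h3

private theorem c1_dense (n : ℕ) (ι : Type*) [Fintype ι] :
    (c1_sub n ι).topologicalClosure = ⊤ := by
  classical
  rw [eq_top_iff]
  intro g _
  have hg : g = ∑ i : ι, c1_phi n (EuclideanSpace.single i (1 : ℂ))
      (((EuclideanSpace.proj i : EuclideanSpace ℂ ι →L[ℂ] ℂ) :
        C(EuclideanSpace ℂ ι, ℂ)).comp g) := by
    ext x j
    simp [c1_phi_apply, ContinuousMap.sum_apply, Finset.sum_apply, Pi.single_apply]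
  rw [hg]
  exact Submodule.sum_mem _ fun i _ => c1_phi_mem _ _

/-- Density. PROOF: coordinatewise from `UnitAddTorus.span_mFourierLp_closure_eq_top`. -/
theorem trigSub_dense {ι : Type*} [Fintype ι] (p : ℝ≥0∞) [Fact (1 ≤ p)] (hp : p ≠ ∞) :
    (trigSub n ι p).topologicalClosure = ⊤ := by
  have h1 := (ContinuousMap.toLp_denseRange (EuclideanSpace ℂ ι) (μT n) ℂ
    hp).topologicalClosure_map_submodule (c1_dense n ι)
  rw [eq_top_iff, ← h1]
  refine Submodule.topologicalClosure_mono ?_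
  rw [Submodule.map_le_iff_le_comap]
  unfold c1_sub
  rw [Submodule.span_le]
  rintro g ⟨ξ, y, hg⟩
  refine Submodule.subset_span ⟨ξ, y, ?_⟩
  refine (ContinuousMap.coeFn_toLp (μT n) g).trans (Filter.Eventually.of_forall fun x => ?_)
  exact hg x

end Pool.Agent.Lib.QR
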