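import Pool.Agent.Lib.MP_ba1c0b_an.C1
import Pool.Agent.Lib.MP_ba1c0b_an.B4

/-!
C2t: tools for C2 (the pairing of `L^P'` and `L^P`, integrals of powers on `L^P`).
-/

set_option autoImplicit false

open MeasureTheory
open scoped ENNReal

namespace Pool.Agent.Lib.QR

section tools

variable {ι : Type*} [Fintype ι]

theorem c2_bp_comm (x y : EuclideanSpace ℂ ι) : bp x y = bp y x := by
  unfold bp
  exact Finset.sum_congr rfl fun i _ => mul_comm _ _

theorem c2_norm_bp_le (x y : EuclideanSpace ℂ ι) : ‖bp x y‖ ≤ ‖x‖ * ‖y‖ := by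
  unfold bp
  calc ‖∑ i, x i * y i‖ ≤ ∑ i, ‖x i‖ * ‖y i‖ := by
        refine (norm_sum_le _ _).trans (le_of_eq ?_)
        simp
    _ ≤ √(∑ i, ‖x i‖ ^ 2) * √(∑ i, ‖y i‖ ^ 2) := Real.sum_mul_le_sqrt_mul_sqrt _ _ _
    _ = ‖x‖ * ‖y‖ := by rw [EuclideanSpace.norm_eq, EuclideanSpace.norm_eq]

/-- The pairing as a continuous bilinear map. -/
noncomputable def bpL (ι : Type*) [Fintype ι] :
    EuclideanSpace ℂ ι →L[ℂ] EuclideanSpace ℂ ι →L[ℂ] ℂ :=
  LinearMap.mkContinuous₂ (LinearMap.mk₂ ℂ (fun x y : EuclideanSpace ℂ ι => bp x y)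
    (fun x y z => by simp [bp, add_mul, Finset.sum_add_distrib])
    (fun c x y => by
      simp only [bp, PiLp.smul_apply, smul_eq_mul, Finset.mul_sum]
      exact Finset.sum_congr rfl fun i _ => by ring)
    (fun x y z => by simp [bp, mul_add, Finset.sum_add_distrib])
    (fun c x y => by
      simp only [bp, PiLp.smul_apply, smul_eq_mul, Finset.mul_sum]
      exact Finset.sum_congr rfl fun i _ => by ring)) 1
    (fun x y => by simpa using c2_norm_bp_le x y)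

theorem bpL_apply (x y : EuclideanSpace ℂ ι) : bpL ι x y = bp x y := rfl

/-- The complex conjugate vector. -/
noncomputable def cj (x : EuclideanSpace ℂ ι) : EuclideanSpace ℂ ι :=
  WithLp.toLp 2 (fun i => (starRingEnd ℂ) (x i))

theorem norm_cj (x : EuclideanSpace ℂ ι) : ‖cj x‖ = ‖x‖ := by
  rw [EuclideanSpace.norm_eq, EuclideanSpace.norm_eq]
  simp [cj]

theorem bp_cj (x : EuclideanSpace ℂ ι) : bp x (cj x) = ((‖x‖ ^ 2 : ℝ) : ℂ) := by
  rw [EuclideanSpace.norm_sq_eq]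
  unfold bp cj
  push_cast
  refine Finset.sum_congr rfl fun i _ => ?_
  exact Complex.mul_conj' (x i)

omit [Fintype ι] in
theorem continuous_cj : Continuous (cj : EuclideanSpace ℂ ι → EuclideanSpace ℂ ι) := by
  unfold cj
  fun_prop

theorem c2_bp_smul_right (c : ℂ) (x y : EuclideanSpace ℂ ι) : bp x (c • y) = c * bp x y := by
  rw [← bpL_apply, map_smul, bpL_apply, smul_eq_mul]

variable {X : Type*} [MeasurableSpace X] {μ : Measure X}

theorem c2_norm_rpow {G : Type*} [NormedAddCommGroup G] {P : ℝ} (hP : 0 < P)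
    (g : Lp G (ENNReal.ofReal P) μ) : ‖g‖ ^ P = ∫ x, ‖g x‖ ^ P ∂μ := by
  have h0 : ENNReal.ofReal P ≠ 0 := by simpa using hP
  rw [Lp.norm_def, MemLp.eLpNorm_eq_integral_rpow_norm h0 ENNReal.ofReal_ne_top (Lp.memLp g),
    ENNReal.toReal_ofReal hP.le]
  have h1 : 0 ≤ ∫ x, ‖g x‖ ^ P ∂μ := integral_nonneg fun x => by positivity
  rw [ENNReal.toReal_ofReal (by positivity), Real.rpow_inv_rpow h1 hP.ne']

/-- The inclusion of `L^P` in `L^Q`, `Q ≤ P`, for a probability measure. -/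
noncomputable def c2_incl (μ : Measure X) [IsProbabilityMeasure μ] (ι : Type*) [Fintype ι]
    (p q : ℝ≥0∞) [Fact (1 ≤ p)] [Fact (1 ≤ q)] (h : q ≤ p) :
    Lp (EuclideanSpace ℂ ι) p μ →L[ℂ] Lp (EuclideanSpace ℂ ι) q μ :=
  LinearMap.mkContinuous
    { toFun := fun g => ((Lp.memLp g).mono_exponent h).toLp g
      map_add' := fun f g => by
        rw [← MemLp.toLp_add]
        exact MemLp.toLp_congr _ _ (Lp.coeFn_add f g)
      map_smul' := fun c g => by
        rw [RingHom.id_apply, ← MemLp.toLp_const_smul]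
        exact MemLp.toLp_congr _ _ (Lp.coeFn_smul c g) } 1
    (fun g => by
      simp only [LinearMap.coe_mk, AddHom.coe_mk, one_mul]
      rw [Lp.norm_toLp, Lp.norm_def]
      refine ENNReal.toReal_mono (Lp.eLpNorm_ne_top g) ?_
      exact eLpNorm_le_eLpNorm_of_exponent_le h (Lp.aestronglyMeasurable g))

theorem c2_incl_coe [IsProbabilityMeasure μ] (p q : ℝ≥0∞) [Fact (1 ≤ p)] [Fact (1 ≤ q)]
    (h : q ≤ p) (g : Lp (EuclideanSpace ℂ ι) p μ) :
    (c2_incl μ ι p q h g : X → EuclideanSpace ℂ ι) =ᵐ[μ] g :=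
  ((Lp.memLp g).mono_exponent h).coeFn_toLp

/-- Continuity of the integral of a power. -/
theorem c2_continuous_int [IsProbabilityMeasure μ] {P Q : ℝ} [Fact (1 ≤ ENNReal.ofReal P)]
    (hQ : 1 ≤ Q) (hQP : Q ≤ P) :
    Continuous (fun g : Lp (EuclideanSpace ℂ ι) (ENNReal.ofReal P) μ => ∫ x, ‖g x‖ ^ Q ∂μ) := by
  have : Fact (1 ≤ ENNReal.ofReal Q) := ⟨by simpa using hQ⟩
  have h : ENNReal.ofReal Q ≤ ENNReal.ofReal P := ENNReal.ofReal_le_ofReal hQP
  have e : (fun g : Lp (EuclideanSpace ℂ ι) (ENNReal.ofReal P) μ => ∫ x, ‖g x‖ ^ Q ∂μ) =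
      fun g => ‖c2_incl μ ι _ _ h g‖ ^ Q := by
    funext g
    rw [c2_norm_rpow (by linarith)]
    refine integral_congr_ae ?_
    filter_upwards [c2_incl_coe _ _ h g] with x hx
    rw [hx]
  rw [e]
  exact (continuous_norm.comp (c2_incl μ ι _ _ h).continuous).rpow_const
    (fun _ => Or.inr (by linarith))

/-- The pairing with a function of `L^P'` as a continuous linear functional on `L^P`. -/
theorem c2_pair {P Q : ℝ} (hPQ : Q.HolderConjugate P) [Fact (1 ≤ ENNReal.ofReal P)]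
    {u : X → EuclideanSpace ℂ ι} (hu : MemLp u (ENNReal.ofReal Q) μ) :
    ∃ Φ : Lp (EuclideanSpace ℂ ι) (ENNReal.ofReal P) μ →L[ℂ] ℂ,
      ∀ g, Φ g = ∫ x, bp (u x) (g x) ∂μ := by
  have : Fact (1 ≤ ENNReal.ofReal Q) := ⟨by
    have := hPQ.lt
    simpa using this.le⟩
  have : ENNReal.HolderConjugate (ENNReal.ofReal Q) (ENNReal.ofReal P) := hPQ.ennrealOfReal
  refine ⟨(bpL ι).lpPairing μ (ENNReal.ofReal Q) (ENNReal.ofReal P) (hu.toLp u), fun g => ?_⟩
  rw [ContinuousLinearMap.lpPairing_eq_integral]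
  refine integral_congr_ae ?_
  filter_upwards [hu.coeFn_toLp] with x hx
  rw [hx, bpL_apply]

/-- Numbers in the duality argument. -/
theorem c2_num {P Q I G M : ℝ} (hPQ : Q.HolderConjugate P) (hI : 0 ≤ I) (hG : 0 ≤ G)
    (hM : 0 ≤ M) (h : I ≤ G ^ (1 / Q) * (M ^ P * I) ^ (1 / P)) : I ≤ M ^ Q * G := by
  have hP0 : 0 < P := hPQ.symm.pos
  have hQ0 : 0 < Q := hPQ.pos
  rcases hI.eq_or_lt with h0 | h0
  · rw [← h0]; positivity
  have e1 : (M ^ P * I) ^ (1 / P) = M * I ^ (1 / P) := by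
    rw [Real.mul_rpow (by positivity) hI, ← Real.rpow_mul hM, mul_one_div_cancel hP0.ne',
      Real.rpow_one]
  rw [e1] at h
  have hpos : 0 < I ^ (1 / P) := Real.rpow_pos_of_pos h0 _
  have e2 : I = I ^ (1 / Q) * I ^ (1 / P) := by
    rw [← Real.rpow_add h0, one_div, one_div, hPQ.inv_add_inv_eq_one, Real.rpow_one]
  have h2 : I ^ (1 / Q) ≤ G ^ (1 / Q) * M := by
    have h3 : I ^ (1 / Q) * I ^ (1 / P) ≤ G ^ (1 / Q) * M * I ^ (1 / P) := by
      rw [← e2]; linarith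
    exact le_of_mul_le_mul_right h3 hpos
  have h4 : (I ^ (1 / Q)) ^ Q ≤ (G ^ (1 / Q) * M) ^ Q :=
    Real.rpow_le_rpow (by positivity) h2 hQ0.le
  rw [← Real.rpow_mul hI, one_div_mul_cancel hQ0.ne', Real.rpow_one,
    Real.mul_rpow (by positivity) hM, ← Real.rpow_mul hG, one_div_mul_cancel hQ0.ne',
    Real.rpow_one] at h4
  linarith

/-- The duality argument. -/
theorem c2_dual [IsProbabilityMeasure μ] {P Q M : ℝ} (hPQ : Q.HolderConjugate P) (hQP : Q ≤ P)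
    (hM : 0 ≤ M) [Fact (1 ≤ ENNReal.ofReal P)]
    (T : Lp (EuclideanSpace ℂ ι) (ENNReal.ofReal P) μ →L[ℂ]
      Lp (EuclideanSpace ℂ ι) (ENNReal.ofReal P) μ)
    (hP : ∀ g, ∫ x, ‖T g x‖ ^ P ∂μ ≤ M ^ P * ∫ x, ‖g x‖ ^ P ∂μ)
    (hs : ∀ g h, ∫ x, bp (T g x) (h x) ∂μ = ∫ x, bp (g x) (T h x) ∂μ)
    (g : Lp (EuclideanSpace ℂ ι) (ENNReal.ofReal P) μ) :
    ∫ x, ‖T g x‖ ^ Q ∂μ ≤ M ^ Q * ∫ x, ‖g x‖ ^ Q ∂μ := by
  have hP0 : 0 < P := hPQ.symm.pos
  have hQ0 : 0 < Q := hPQ.pos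
  have hQ1 : 1 < Q := hPQ.lt
  have hP0' : ENNReal.ofReal P ≠ 0 := by simpa using hP0
  have hQ0' : ENNReal.ofReal Q ≠ 0 := by simpa using hQ0
  have hQPe : ENNReal.ofReal Q ≤ ENNReal.ofReal P := ENNReal.ofReal_le_ofReal hQP
  set f := T g with hf
  have hfm : AEStronglyMeasurable (f : X → EuclideanSpace ℂ ι) μ := Lp.aestronglyMeasurable f
  -- the dual function
  set h : X → EuclideanSpace ℂ ι := fun x => ((‖f x‖ ^ (Q - 2) : ℝ) : ℂ) • cj (f x) with hh
  have hnh : ∀ x, ‖h x‖ = ‖f x‖ ^ (Q - 1) := by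
    intro x
    rw [hh]
    simp only [norm_smul, norm_cj, Complex.norm_real, Real.norm_eq_abs]
    rw [abs_of_nonneg (by positivity)]
    rcases (norm_nonneg (f x)).eq_or_lt with h0 | h0
    · rw [← h0, mul_zero, Real.zero_rpow (by linarith)]
    · have : Q - 1 = Q - 2 + 1 := by ring
      rw [this, Real.rpow_add_one h0.ne']
  have hQPm : (Q - 1) * P = Q := by
    have := hPQ.sub_one_mul_conj
    linarith
  have hhP : ∀ x, ‖h x‖ ^ P = ‖f x‖ ^ Q := by
    intro x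
    rw [hnh, ← Real.rpow_mul (norm_nonneg _), hQPm]
  have hbp : ∀ x, bp (f x) (h x) = ((‖f x‖ ^ Q : ℝ) : ℂ) := by
    intro x
    rw [hh]
    simp only []
    rw [c2_bp_smul_right, bp_cj, ← Complex.ofReal_mul]
    congr 1
    rcases (norm_nonneg (f x)).eq_or_lt with h0 | h0
    · rw [← h0, Real.zero_rpow hQ0.ne']; simp
    · rw [← Real.rpow_natCast, ← Real.rpow_add h0]
      congr 1
      push_cast; ring
  have hfQ : MemLp (f : X → EuclideanSpace ℂ ι) (ENNReal.ofReal Q) μ :=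
    (Lp.memLp f).mono_exponent hQPe
  have hgQ : MemLp (g : X → EuclideanSpace ℂ ι) (ENNReal.ofReal Q) μ :=
    (Lp.memLp g).mono_exponent hQPe
  have hfQi : Integrable (fun x => ‖f x‖ ^ Q) μ := by
    have := hfQ.integrable_norm_rpow hQ0' ENNReal.ofReal_ne_top
    rwa [ENNReal.toReal_ofReal hQ0.le] at this
  have hhm : AEStronglyMeasurable h μ := by
    have hc : AEStronglyMeasurable (fun x => ((‖f x‖ ^ (Q - 2) : ℝ) : ℂ)) μ :=
      Complex.continuous_ofReal.comp_aestronglyMeasurable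
        (hfm.norm.aemeasurable.pow_const (Q - 2)).aestronglyMeasurable
    have hv : AEStronglyMeasurable (fun x => cj (f x)) μ :=
      continuous_cj.comp_aestronglyMeasurable hfm
    exact hc.smul hv
  have hhL : MemLp h (ENNReal.ofReal P) μ := by
    rw [← integrable_norm_rpow_iff hhm hP0' ENNReal.ofReal_ne_top,
      ENNReal.toReal_ofReal hP0.le]
    simpa only [hhP] using hfQi
  set k : Lp (EuclideanSpace ℂ ι) (ENNReal.ofReal P) μ := hhL.toLp h with hk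
  have hkh : (k : X → EuclideanSpace ℂ ι) =ᵐ[μ] h := hhL.coeFn_toLp
  set I := ∫ x, ‖f x‖ ^ Q ∂μ with hI
  set G := ∫ x, ‖g x‖ ^ Q ∂μ with hG
  have hI0 : 0 ≤ I := integral_nonneg fun x => by positivity
  have hG0 : 0 ≤ G := integral_nonneg fun x => by positivity
  have hkP : ∫ x, ‖k x‖ ^ P ∂μ = I := by
    refine integral_congr_ae ?_
    filter_upwards [hkh] with x hx
    rw [hx, hhP]
  have e1 : ((I : ℝ) : ℂ) = ∫ x, bp (g x) (T k x) ∂μ := by
    rw [← hs, ← hf, hI, ← integral_complex_ofReal]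
    refine integral_congr_ae ?_
    filter_upwards [hkh] with x hx
    rw [hx, hbp]
  have h1 : I ≤ ∫ x, ‖g x‖ * ‖T k x‖ ∂μ := by
    calc I = ‖((I : ℝ) : ℂ)‖ := by rw [Complex.norm_real, Real.norm_eq_abs, abs_of_nonneg hI0]
      _ = ‖∫ x, bp (g x) (T k x) ∂μ‖ := by rw [e1]
      _ ≤ ∫ x, ‖bp (g x) (T k x)‖ ∂μ := norm_integral_le_integral_norm _
      _ ≤ ∫ x, ‖g x‖ * ‖T k x‖ ∂μ := by
          refine integral_mono_of_nonneg (Filter.Eventually.of_forall fun x => norm_nonneg _) ?_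
            (Filter.Eventually.of_forall fun x => c2_norm_bp_le _ _)
          have : ENNReal.HolderConjugate (ENNReal.ofReal Q) (ENNReal.ofReal P) :=
            hPQ.ennrealOfReal
          exact hgQ.norm.integrable_mul (Lp.memLp (T k)).norm
  have h2 : ∫ x, ‖g x‖ * ‖T k x‖ ∂μ ≤ G ^ (1 / Q) * (∫ x, ‖T k x‖ ^ P ∂μ) ^ (1 / P) :=
    integral_mul_le_Lp_mul_Lq_of_nonneg hPQ
      (Filter.Eventually.of_forall fun x => norm_nonneg _)
      (Filter.Eventually.of_forall fun x => norm_nonneg _) hgQ.norm (Lp.memLp (T k)).norm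
  have h3 : (∫ x, ‖T k x‖ ^ P ∂μ) ^ (1 / P) ≤ (M ^ P * I) ^ (1 / P) := by
    refine Real.rpow_le_rpow (integral_nonneg fun x => by positivity) ?_ (by positivity)
    rw [← hkP]
    exact hP k
  refine c2_num hPQ hI0 hG0 hM (h1.trans (h2.trans ?_))
  exact mul_le_mul_of_nonneg_left h3 (by positivity)

end tools

end Pool.Agent.Lib.QR
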