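import Pool.Agent.Lib.MP_ba1c0b_an.C2

/-!
C2g: the Hodge projection as an operator on `L^P` of the torus, with an arbitrary bound `M`.
-/

set_option autoImplicit false

open MeasureTheory
open scoped ENNReal

namespace Pool.Agent.Lib.QR

section c2

variable {n : ℕ}

/-- Trigonometric sums with finitely supported coefficients, with a multiplier. -/
private noncomputable def c2g_m (p : ℝ≥0∞) (A : (Fin n → ℤ) → V n →ₗ[ℂ] V n) :
    ((Fin n → ℤ) →₀ V n) →ₗ[ℂ] Lp (V n) p (μT n) where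
  toFun a := (memLp_tp p a.support (fun ξ => A ξ (a ξ))).toLp _
  map_add' a b := by
    rw [← MemLp.toLp_add]
    refine MemLp.toLp_congr _ _ (Filter.Eventually.of_forall fun x => ?_)
    exact Finsupp.sum_add_index' (h := fun ξ y => UnitAddTorus.mFourier ξ x • A ξ y)
      (fun ξ => by simp) (fun ξ y z => by rw [map_add, smul_add])
  map_smul' c a := by
    rw [RingHom.id_apply, ← MemLp.toLp_const_smul]
    refine MemLp.toLp_congr _ _ (Filter.Eventually.of_forall fun x => ?_)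
    have h1 : tp (c • a).support (fun ξ => A ξ ((c • a) ξ)) x =
        a.sum fun ξ y => UnitAddTorus.mFourier ξ x • A ξ (c • y) :=
      Finsupp.sum_smul_index' (h := fun ξ y => UnitAddTorus.mFourier ξ x • A ξ y)
        (fun ξ => by simp)
    rw [h1]
    simp only [Pi.smul_apply, tp, Finsupp.sum, map_smul, Finset.smul_sum]
    exact Finset.sum_congr rfl fun ξ _ => smul_comm _ _ _

private theorem c2g_m_coe (p : ℝ≥0∞) (A : (Fin n → ℤ) → V n →ₗ[ℂ] V n)
    (a : (Fin n → ℤ) →₀ V n) :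
    (c2g_m p A a : UnitAddTorus (Fin n) → V n) =ᵐ[μT n] tp a.support (fun ξ => A ξ (a ξ)) :=
  (memLp_tp p a.support (fun ξ => A ξ (a ξ))).coeFn_toLp

private theorem c2g_m_single (p : ℝ≥0∞) (A : (Fin n → ℤ) → V n →ₗ[ℂ] V n)
    (ξ : Fin n → ℤ) (y : V n) :
    (c2g_m p A (Finsupp.single ξ y) : UnitAddTorus (Fin n) → V n) =ᵐ[μT n]
      fun x => UnitAddTorus.mFourier ξ x • A ξ y := by
  refine (c2g_m_coe p A _).trans (Filter.Eventually.of_forall fun x => ?_)
  exact Finsupp.sum_single_index (h := fun ξ y => UnitAddTorus.mFourier ξ x • A ξ y)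
    (by simp)

private theorem c2g_dense (p : ℝ≥0∞) [Fact (1 ≤ p)] (hp : p ≠ ∞) :
    DenseRange (c2g_m (n := n) p fun _ => LinearMap.id) := by
  classical
  have h1 : Dense ((trigSub n (Finset (Fin n)) p : Submodule ℂ _) : Set (Lp (V n) p (μT n))) :=
    Submodule.dense_iff_topologicalClosure_eq_top.2 (trigSub_dense p hp)
  refine h1.mono ?_
  intro g hg
  obtain ⟨S, a, ha⟩ := (mem_trigSub_iff p g).1 hg
  refine ⟨Finsupp.indicator S (fun ξ _ => a ξ), ?_⟩
  refine Lp.ext ((c2g_m_coe p _ _).trans (Filter.EventuallyEq.trans ?_ ha.symm))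
  refine Filter.Eventually.of_forall fun x => ?_
  simp only [LinearMap.id_apply, tp]
  rw [Finset.sum_subset (Finsupp.support_indicator_subset S _)]
  · refine Finset.sum_congr rfl fun ξ hξ => ?_
    rw [Finsupp.indicator_of_mem hξ]
  · intro ξ _ hξ
    rw [Finsupp.notMem_support_iff.1 hξ, smul_zero]

end c2

/-- PROOF. Define `T` on `trigSub` by `tp S a ↦ tp S (Pj l ξ (a ξ))` (well defined: Fourier coefficients),
extend by density (`proj_P`).  `h2`: density in `L^P ⊆ L²` and `proj_two`.  `hP'`: for `g ∈ L^P` let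
`h = ‖T g‖^(P'-2) conj (T g) ∈ L^P`; `∫ ‖T g‖^P' = ∫ bp (T g) h = ∫ bp g (T h)` (symmetry by density from
`proj_symm`) `≤ ‖g‖_P' M ‖h‖_P`, `‖h‖_P^P = ∫ ‖T g‖^P'`.
Annihilation: `u ∈ L^r`, `r ≥ P'`, annihilates all `T(e_ξ y)`, hence `T` of `trigSub`, hence of its closure
(`g ↦ ∫ bp u (T g)` is continuous on `L^P` by Hölder, the measure is a probability measure). -/
theorem exists_T_gen (l m : ℕ) (hm : 1 ≤ m) (M : ℝ) (hM1 : 1 ≤ M)
    (hb : ∀ (S : Finset (Fin (2 * l + 1) → ℤ)) (a : (Fin (2 * l + 1) → ℤ) → V (2 * l + 1)),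
      ∫ x, ‖tp S (fun ξ => Pj l ξ (a ξ)) x‖ ^ (2 * m) ∂(μT (2 * l + 1))
        ≤ M ^ (2 * m) * ∫ x, ‖tp S a x‖ ^ (2 * m) ∂(μT (2 * l + 1)))
    (P : ℝ) (hP : P = 2 * m) [Fact (1 ≤ ENNReal.ofReal P)] :
    ∃ T : Lp (V (2 * l + 1)) (ENNReal.ofReal P) (μT (2 * l + 1)) →L[ℂ]
        Lp (V (2 * l + 1)) (ENNReal.ofReal P) (μT (2 * l + 1)),
      IsProj (μT (2 * l + 1)) P M T ∧
      (∀ (r : ℝ) (u : UnitAddTorus (Fin (2 * l + 1)) → V (2 * l + 1)), P / (P - 1) ≤ r →
        MemLp u (ENNReal.ofReal r) (μT (2 * l + 1)) →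
        (∀ (ξ : Fin (2 * l + 1) → ℤ) (y : V (2 * l + 1)),
          ∫ x, bp (u x) (UnitAddTorus.mFourier ξ x • Pj l ξ y) ∂(μT (2 * l + 1)) = 0) →
        ∀ g, ∫ x, bp (u x) (T g x) ∂(μT (2 * l + 1)) = 0) ∧
      (∀ (r : ℝ) (v : UnitAddTorus (Fin (2 * l + 1)) → V (2 * l + 1)), P / (P - 1) ≤ r →
        MemLp v (ENNReal.ofReal r) (μT (2 * l + 1)) →
        (∀ (ξ : Fin (2 * l + 1) → ℤ) (y : V (2 * l + 1)),
          ∫ x, bp (v x) (UnitAddTorus.mFourier ξ x • (y - Pj l ξ y)) ∂(μT (2 * l + 1)) = 0) →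
        ∀ g : Lp (V (2 * l + 1)) (ENNReal.ofReal P) (μT (2 * l + 1)),
          ∫ x, bp (v x) (g x - T g x) ∂(μT (2 * l + 1)) = 0) := by
  have hmR : (1 : ℝ) ≤ m := by exact_mod_cast hm
  have hP2 : 2 ≤ P := by rw [hP]; linarith
  have hP0 : 0 < P := by linarith
  have hP1 : 1 < P := by linarith
  have hPn : P = ((2 * m : ℕ) : ℝ) := by rw [hP]; push_cast; ring
  obtain ⟨Q, hQ⟩ : ∃ Q : ℝ, Q = P / (P - 1) := ⟨_, rfl⟩
  have hPQ : Q.HolderConjugate P :=
    ((Real.holderConjugate_iff_eq_conjExponent hP1).2 hQ).symm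
  have hQP : Q ≤ P := by
    rw [hQ, div_le_iff₀ (by linarith)]; nlinarith
  have hQPe : ENNReal.ofReal Q ≤ ENNReal.ofReal P := ENNReal.ofReal_le_ofReal hQP
  have hM0 : 0 ≤ M := by linarith
  obtain ⟨e, he⟩ : ∃ e : ((Fin (2 * l + 1) → ℤ) →₀ V (2 * l + 1)) →ₗ[ℂ]
      Lp (V (2 * l + 1)) (ENNReal.ofReal P) (μT (2 * l + 1)),
      e = c2g_m (ENNReal.ofReal P) fun _ => LinearMap.id := ⟨_, rfl⟩
  obtain ⟨f, hf⟩ : ∃ f : ((Fin (2 * l + 1) → ℤ) →₀ V (2 * l + 1)) →ₗ[ℂ]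
      Lp (V (2 * l + 1)) (ENNReal.ofReal P) (μT (2 * l + 1)),
      f = c2g_m (ENNReal.ofReal P) fun ξ => Pj l ξ := ⟨_, rfl⟩
  have hdense : DenseRange e := by rw [he]; exact c2g_dense _ ENNReal.ofReal_ne_top
  have hecoe : ∀ a, (e a : UnitAddTorus (Fin (2 * l + 1)) → V (2 * l + 1))
      =ᵐ[μT (2 * l + 1)] tp a.support a := by
    intro a; rw [he]; exact c2g_m_coe _ _ a
  have hfcoe : ∀ a, (f a : UnitAddTorus (Fin (2 * l + 1)) → V (2 * l + 1))
      =ᵐ[μT (2 * l + 1)] tp a.support (fun ξ => Pj l ξ (a ξ)) := by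
    intro a; rw [hf]; exact c2g_m_coe _ _ a
  have hbound : ∀ a, ‖f a‖ ≤ M * ‖e a‖ := by
    intro a
    have h1 : ‖f a‖ ^ P ≤ (M * ‖e a‖) ^ P := by
      rw [Real.mul_rpow hM0 (norm_nonneg _), c2_norm_rpow hP0, c2_norm_rpow hP0]
      have h2 : ∫ x, ‖f a x‖ ^ P ∂(μT (2 * l + 1)) =
          ∫ x, ‖tp a.support (fun ξ => Pj l ξ (a ξ)) x‖ ^ (2 * m) ∂(μT (2 * l + 1)) := by
        refine integral_congr_ae ?_
        filter_upwards [hfcoe a] with x hx
        rw [hx, hPn, Real.rpow_natCast]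
      have h3 : ∫ x, ‖e a x‖ ^ P ∂(μT (2 * l + 1)) =
          ∫ x, ‖tp a.support a x‖ ^ (2 * m) ∂(μT (2 * l + 1)) := by
        refine integral_congr_ae ?_
        filter_upwards [hecoe a] with x hx
        rw [hx, hPn, Real.rpow_natCast]
      rw [h2, h3]
      have h4 : M ^ P = M ^ (2 * m) := by
        conv_lhs => rw [hPn]
        exact Real.rpow_natCast _ _
      rw [h4]
      exact hb a.support a
    exact (Real.rpow_le_rpow_iff (norm_nonneg _) (by positivity) hP0).1 h1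
  obtain ⟨T, hT⟩ : ∃ T : Lp (V (2 * l + 1)) (ENNReal.ofReal P) (μT (2 * l + 1)) →L[ℂ]
        Lp (V (2 * l + 1)) (ENNReal.ofReal P) (μT (2 * l + 1)), T = f.extendOfNorm e :=
    ⟨_, rfl⟩
  have hTe : ∀ a, T (e a) = f a := fun a => by
    rw [hT]; exact LinearMap.extendOfNorm_eq hdense ⟨_, hbound⟩ a
  have hTn : ∀ g, ‖T g‖ ≤ M * ‖g‖ := fun g => by
    rw [hT]; exact LinearMap.norm_extendOfNorm_apply_le hdense _ hbound g
  have hTP : ∀ g, ∫ x, ‖T g x‖ ^ P ∂(μT (2 * l + 1)) ≤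
      M ^ P * ∫ x, ‖g x‖ ^ P ∂(μT (2 * l + 1)) := by
    intro g
    rw [← c2_norm_rpow hP0, ← c2_norm_rpow hP0, ← Real.mul_rpow hM0 (norm_nonneg _)]
    exact Real.rpow_le_rpow (norm_nonneg _) (hTn g) hP0.le
  -- symmetry
  have hmem : ∀ g : Lp (V (2 * l + 1)) (ENNReal.ofReal P) (μT (2 * l + 1)),
      MemLp (g : UnitAddTorus (Fin (2 * l + 1)) → V (2 * l + 1)) (ENNReal.ofReal Q)
        (μT (2 * l + 1)) := fun g => (Lp.memLp g).mono_exponent hQPe
  have hs1 : ∀ (b : (Fin (2 * l + 1) → ℤ) →₀ V (2 * l + 1))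
      (g : Lp (V (2 * l + 1)) (ENNReal.ofReal P) (μT (2 * l + 1))),
      ∫ x, bp (T g x) (e b x) ∂(μT (2 * l + 1)) = ∫ x, bp (g x) (f b x) ∂(μT (2 * l + 1)) := by
    intro b g
    obtain ⟨Φ1, hΦ1⟩ := c2_pair hPQ (hmem (e b))
    obtain ⟨Φ2, hΦ2⟩ := c2_pair hPQ (hmem (f b))
    have h1 : ∀ g, Φ1 (T g) = Φ2 g := by
      refine fun g => hdense.induction_on (p := fun g => Φ1 (T g) = Φ2 g) g ?_ ?_
      · exact isClosed_eq (Φ1.continuous.comp T.continuous) Φ2.continuous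
      · intro a
        rw [hΦ1, hΦ2, hTe]
        have h2 := proj_symm l a.support b.support a b
        have h3 : ∫ x, bp (e b x) (f a x) ∂(μT (2 * l + 1)) =
            ∫ x, bp (tp a.support (fun ξ => Pj l ξ (a ξ)) x) (tp b.support b x)
              ∂(μT (2 * l + 1)) := by
          refine integral_congr_ae ?_
          filter_upwards [hfcoe a, hecoe b] with x hx hy
          rw [hx, hy, c2_bp_comm]
        have h4 : ∫ x, bp (f b x) (e a x) ∂(μT (2 * l + 1)) =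
            ∫ x, bp (tp a.support a x) (tp b.support (fun ξ => Pj l ξ (b ξ)) x)
              ∂(μT (2 * l + 1)) := by
          refine integral_congr_ae ?_
          filter_upwards [hecoe a, hfcoe b] with x hx hy
          rw [hx, hy, c2_bp_comm]
        rw [h3, h4, h2]
    have h5 := h1 g
    rw [hΦ1, hΦ2] at h5
    simpa only [c2_bp_comm] using h5
  have hs : ∀ g h : Lp (V (2 * l + 1)) (ENNReal.ofReal P) (μT (2 * l + 1)),
      ∫ x, bp (T g x) (h x) ∂(μT (2 * l + 1)) = ∫ x, bp (g x) (T h x) ∂(μT (2 * l + 1)) := by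
    intro g h
    obtain ⟨Φ1, hΦ1⟩ := c2_pair hPQ (hmem (T g))
    obtain ⟨Φ2, hΦ2⟩ := c2_pair hPQ (hmem g)
    have h1 : Φ1 h = Φ2 (T h) := by
      refine hdense.induction_on (p := fun h => Φ1 h = Φ2 (T h)) h ?_ ?_
      · exact isClosed_eq Φ1.continuous (Φ2.continuous.comp T.continuous)
      · intro b
        rw [hΦ1, hΦ2, hTe]
        exact hs1 b g
    rw [hΦ1, hΦ2] at h1
    exact h1
  -- density for functionals
  have hzero : ∀ (Φ : Lp (V (2 * l + 1)) (ENNReal.ofReal P) (μT (2 * l + 1)) →L[ℂ] ℂ),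
      (∀ ξ y, Φ (e (Finsupp.single ξ y)) = 0) → ∀ g, Φ g = 0 := by
    intro Φ h g
    refine hdense.induction_on (p := fun g => Φ g = 0) g
      (isClosed_eq Φ.continuous continuous_const) fun a => ?_
    induction a using Finsupp.induction_linear with
    | zero => simp
    | add a b ha hb => rw [map_add, map_add, ha, hb, add_zero]
    | single ξ y => exact h ξ y
  refine ⟨T, ⟨hTP, ?_, ?_⟩, ?_, ?_⟩
  · intro g
    refine hdense.induction_on (p := fun g => ∫ x, ‖T g x‖ ^ (2 : ℝ) ∂(μT (2 * l + 1)) ≤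
      ∫ x, ‖g x‖ ^ (2 : ℝ) ∂(μT (2 * l + 1))) g ?_ ?_
    · exact isClosed_le ((c2_continuous_int (by norm_num) hP2).comp T.continuous)
        (c2_continuous_int (by norm_num) hP2)
    · intro a
      rw [hTe]
      have h2 : ∫ x, ‖f a x‖ ^ (2 : ℝ) ∂(μT (2 * l + 1)) =
          ∫ x, ‖tp a.support (fun ξ => Pj l ξ (a ξ)) x‖ ^ 2 ∂(μT (2 * l + 1)) := by
        refine integral_congr_ae ?_
        filter_upwards [hfcoe a] with x hx
        rw [hx, Real.rpow_two]
      have h3 : ∫ x, ‖e a x‖ ^ (2 : ℝ) ∂(μT (2 * l + 1)) =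
          ∫ x, ‖tp a.support a x‖ ^ 2 ∂(μT (2 * l + 1)) := by
        refine integral_congr_ae ?_
        filter_upwards [hecoe a] with x hx
        rw [hx, Real.rpow_two]
      rw [h2, h3]
      exact proj_two l a.support a
  · intro g
    rw [← hQ]
    exact c2_dual hPQ hQP hM0 T hTP hs g
  · intro r u hr hu hann g
    have huQ : MemLp u (ENNReal.ofReal Q) (μT (2 * l + 1)) :=
      hu.mono_exponent (ENNReal.ofReal_le_ofReal (by rw [hQ]; exact hr))
    obtain ⟨Φ, hΦ⟩ := c2_pair hPQ huQ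
    have h1 := hzero (Φ.comp T) (fun ξ y => by
      rw [ContinuousLinearMap.comp_apply, hTe, hΦ, ← hann ξ y]
      refine integral_congr_ae ?_
      have h2 := c2g_m_single (ENNReal.ofReal P) (fun ξ => Pj l ξ) ξ y
      rw [← hf] at h2
      filter_upwards [h2] with x hx
      rw [hx]) g
    rw [ContinuousLinearMap.comp_apply, hΦ] at h1
    exact h1
  · intro r v hr hv hann g
    have hvQ : MemLp v (ENNReal.ofReal Q) (μT (2 * l + 1)) :=
      hv.mono_exponent (ENNReal.ofReal_le_ofReal (by rw [hQ]; exact hr))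
    obtain ⟨Φ, hΦ⟩ := c2_pair hPQ hvQ
    have hsub : ∀ g, Φ (g - T g) = ∫ x, bp (v x) (g x - T g x) ∂(μT (2 * l + 1)) := by
      intro g
      rw [hΦ]
      refine integral_congr_ae ?_
      filter_upwards [Lp.coeFn_sub g (T g)] with x hx
      rw [hx, Pi.sub_apply]
    have h1 := hzero (Φ.comp (ContinuousLinearMap.id ℂ _ - T)) (fun ξ y => by
      rw [ContinuousLinearMap.comp_apply, ContinuousLinearMap.sub_apply,
        ContinuousLinearMap.id_apply, hsub, ← hann ξ y, hTe]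
      refine integral_congr_ae ?_
      have h2 := c2g_m_single (ENNReal.ofReal P) (fun ξ => Pj l ξ) ξ y
      rw [← hf] at h2
      have h3 := c2g_m_single (ENNReal.ofReal P)
        (fun _ => (LinearMap.id : V (2 * l + 1) →ₗ[ℂ] V (2 * l + 1))) ξ y
      rw [← he] at h3
      filter_upwards [h2, h3] with x hx hy
      rw [hx, hy, LinearMap.id_apply, smul_sub]) g
    rw [ContinuousLinearMap.comp_apply, ContinuousLinearMap.sub_apply,
      ContinuousLinearMap.id_apply, hsub] at h1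
    exact h1

end Pool.Agent.Lib.QR
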