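import Pool.Agent.Lib.MP_ba1c0b_an.Defs

/-!
D0: Mellin type integrals are analytic.
-/

set_option autoImplicit false

open MeasureTheory
open scoped ENNReal

namespace Pool.Agent.Lib.QR

private theorem d0_rpow_le_add {t : ℝ} (ht : 0 < t) {a b s : ℝ} (h1 : a ≤ s) (h2 : s ≤ b) :
    t ^ s ≤ t ^ a + t ^ b := by
  rcases le_total 1 t with h | h
  · have h3 := Real.rpow_le_rpow_of_exponent_le h h2
    have h4 := Real.rpow_nonneg ht.le a
    linarith
  · have h3 := Real.rpow_le_rpow_of_exponent_ge ht h h1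
    have h4 := Real.rpow_nonneg ht.le b
    linarith

private theorem d0_abs_log_le {t δ : ℝ} (ht : 0 < t) (hδ : 0 < δ) :
    |Real.log t| ≤ t ^ δ / δ + t ^ (-δ) / δ := by
  have h1 := Real.log_le_rpow_div ht.le hδ
  have h2 := Real.log_le_rpow_div (inv_pos.2 ht).le hδ
  rw [Real.log_inv, Real.inv_rpow ht.le, ← Real.rpow_neg ht.le] at h2
  have h3 : 0 ≤ t ^ δ / δ := div_nonneg (Real.rpow_nonneg ht.le _) hδ.le
  have h4 : 0 ≤ t ^ (-δ) / δ := div_nonneg (Real.rpow_nonneg ht.le _) hδ.le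
  rw [abs_le]
  constructor <;> linarith

private theorem d0_log_rpow {t δ a b s : ℝ} (ht : 0 < t) (hδ : 0 < δ) (h1 : a + δ ≤ s)
    (h2 : s + δ ≤ b) : |Real.log t| * t ^ s ≤ 2 / δ * (t ^ a + t ^ b) := by
  have h3 := d0_abs_log_le ht hδ
  have hs : 0 ≤ t ^ s := Real.rpow_nonneg ht.le _
  have h4 : |Real.log t| * t ^ s ≤ (t ^ δ / δ + t ^ (-δ) / δ) * t ^ s :=
    mul_le_mul_of_nonneg_right h3 hs
  have h5 : (t ^ δ / δ + t ^ (-δ) / δ) * t ^ s = 1 / δ * (t ^ (s + δ) + t ^ (s - δ)) := by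
    rw [Real.rpow_add ht, sub_eq_add_neg, Real.rpow_add ht]
    ring
  have h6 : t ^ (s + δ) ≤ t ^ a + t ^ b := d0_rpow_le_add ht (by linarith) h2
  have h7 : t ^ (s - δ) ≤ t ^ a + t ^ b := d0_rpow_le_add ht (by linarith) (by linarith)
  calc |Real.log t| * t ^ s ≤ 1 / δ * (t ^ (s + δ) + t ^ (s - δ)) := h4.trans h5.le
    _ ≤ 1 / δ * ((t ^ a + t ^ b) + (t ^ a + t ^ b)) :=
        mul_le_mul_of_nonneg_left (add_le_add h6 h7) (by positivity)
    _ = 2 / δ * (t ^ a + t ^ b) := by ring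

private theorem d0_norm_le {u : ℝ} (hu : 0 ≤ u) {k : ℂ} (h0 : u = 0 → k = 0) {a b : ℝ} {z : ℂ}
    (h1 : a ≤ z.re) (h2 : z.re ≤ b) :
    ‖((u : ℝ) : ℂ) ^ z * k‖ ≤ u ^ a * ‖k‖ + u ^ b * ‖k‖ := by
  rcases hu.eq_or_lt with h | h
  · rw [h0 h.symm]
    simp
  · rw [norm_mul, Complex.norm_cpow_eq_rpow_re_of_pos h, ← add_mul]
    exact mul_le_mul_of_nonneg_right (d0_rpow_le_add h h1 h2) (norm_nonneg _)

private theorem d0_norm_deriv_le {u : ℝ} (hu : 0 ≤ u) {k : ℂ} (h0 : u = 0 → k = 0)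
    {a b δ : ℝ} (hδ : 0 < δ) {z : ℂ} (h1 : a + δ ≤ z.re) (h2 : z.re + δ ≤ b) :
    ‖((u : ℝ) : ℂ) ^ z * Complex.log ((u : ℝ) : ℂ) * 1 * k‖
      ≤ 2 / δ * (u ^ a * ‖k‖ + u ^ b * ‖k‖) := by
  rcases hu.eq_or_lt with h | h
  · rw [h0 h.symm]
    simp
  · rw [mul_one, norm_mul, norm_mul, Complex.norm_cpow_eq_rpow_re_of_pos h,
      ← Complex.ofReal_log hu, Complex.norm_real, Real.norm_eq_abs]
    have h3 := mul_le_mul_of_nonneg_right (d0_log_rpow h hδ h1 h2) (norm_nonneg k)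
    calc u ^ z.re * |Real.log u| * ‖k‖ = |Real.log u| * u ^ z.re * ‖k‖ := by ring
      _ ≤ 2 / δ * (u ^ a + u ^ b) * ‖k‖ := h3
      _ = 2 / δ * (u ^ a * ‖k‖ + u ^ b * ‖k‖) := by ring

private theorem d0_hasDerivAt {u : ℝ} {k : ℂ} (h0 : u = 0 → k = 0) (z : ℂ) :
    HasDerivAt (fun z : ℂ => ((u : ℝ) : ℂ) ^ z * k)
      (((u : ℝ) : ℂ) ^ z * Complex.log ((u : ℝ) : ℂ) * 1 * k) z := by
  by_cases h : u = 0
  · rw [h0 h]
    simp only [mul_zero]
    exact hasDerivAt_const z (0 : ℂ)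
  · have hc : ((u : ℝ) : ℂ) ≠ 0 := by exact_mod_cast h
    exact ((hasDerivAt_id z).const_cpow (Or.inl hc)).mul_const k

/-- PROOF: `|U^z κ| ≤ (U^a + U^b) |κ|` on the closed strip, dominated convergence for the continuity; for
the derivative use `hasDerivAt_integral_of_dominated_loc_of_deriv_le` with the bound
`|log U| U^(Re z) ≤ C_δ (U^a + U^b)` for `a + δ ≤ Re z ≤ b - δ` (points with `U = 0` do not contribute as
`κ = 0` there). -/
theorem mellin_diffContOnCl {X : Type*} [MeasurableSpace X] (μ : Measure X) (U : X → ℝ)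
    (hU : AEStronglyMeasurable U μ) (hU0 : ∀ x, 0 ≤ U x) (κ : X → ℂ)
    (hκ : AEStronglyMeasurable κ μ) (h0 : ∀ x, U x = 0 → κ x = 0) (a b : ℝ) (hab : a < b)
    (ha : Integrable (fun x => U x ^ a * ‖κ x‖) μ) (hb : Integrable (fun x => U x ^ b * ‖κ x‖) μ) :
    DiffContOnCl ℂ (fun z : ℂ => ∫ x, ((U x : ℝ) : ℂ) ^ z * κ x ∂μ)
      (Complex.HadamardThreeLines.verticalStrip a b) ∧
    ∀ z ∈ Complex.HadamardThreeLines.verticalClosedStrip a b,
      Integrable (fun x => ((U x : ℝ) : ℂ) ^ z * κ x) μ ∧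
      ‖∫ x, ((U x : ℝ) : ℂ) ^ z * κ x ∂μ‖
        ≤ ∫ x, U x ^ a * ‖κ x‖ ∂μ + ∫ x, U x ^ b * ‖κ x‖ ∂μ := by
  have hUc : AEMeasurable (fun x => ((U x : ℝ) : ℂ)) μ :=
    Complex.measurable_ofReal.comp_aemeasurable hU.aemeasurable
  have hmeas : ∀ z : ℂ, AEStronglyMeasurable (fun x => ((U x : ℝ) : ℂ) ^ z * κ x) μ := fun z =>
    ((hUc.pow_const z).aestronglyMeasurable).mul hκ
  have hbound : Integrable (fun x => U x ^ a * ‖κ x‖ + U x ^ b * ‖κ x‖) μ := ha.add hb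
  have hle : ∀ z ∈ Complex.HadamardThreeLines.verticalClosedStrip a b, ∀ x,
      ‖((U x : ℝ) : ℂ) ^ z * κ x‖ ≤ U x ^ a * ‖κ x‖ + U x ^ b * ‖κ x‖ := fun z hz x =>
    d0_norm_le (hU0 x) (h0 x) hz.1 hz.2
  have hint : ∀ z ∈ Complex.HadamardThreeLines.verticalClosedStrip a b,
      Integrable (fun x => ((U x : ℝ) : ℂ) ^ z * κ x) μ := fun z hz =>
    hbound.mono' (hmeas z) (Filter.Eventually.of_forall (hle z hz))
  have hcont : ∀ x, Continuous fun z : ℂ => ((U x : ℝ) : ℂ) ^ z * κ x := fun x =>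
    continuous_iff_continuousAt.2 fun z => (d0_hasDerivAt (h0 x) z).continuousAt
  refine ⟨⟨?_, ?_⟩, fun z hz => ⟨hint z hz, ?_⟩⟩
  · intro z hz
    have hz1 : a < z.re := hz.1
    have hz2 : z.re < b := hz.2
    obtain ⟨δ, hδ, hδ1, hδ2⟩ : ∃ δ : ℝ, 0 < δ ∧ a + 2 * δ ≤ z.re ∧ z.re + 2 * δ ≤ b := by
      refine ⟨min (z.re - a) (b - z.re) / 2, ?_, ?_, ?_⟩
      · have : 0 < min (z.re - a) (b - z.re) := lt_min (by linarith) (by linarith)
        linarith
      · have := min_le_left (z.re - a) (b - z.re)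
        linarith
      · have := min_le_right (z.re - a) (b - z.re)
        linarith
    have hball : ∀ w ∈ Metric.ball z δ, a + δ ≤ w.re ∧ w.re + δ ≤ b := by
      intro w hw
      have h1 : |(w - z).re| ≤ ‖w - z‖ := Complex.abs_re_le_norm _
      have h2 : ‖w - z‖ < δ := by
        rw [← dist_eq_norm]
        exact hw
      rw [Complex.sub_re] at h1
      have h3 := abs_le.1 (h1.trans h2.le)
      constructor
      · linarith [h3.1]
      · linarith [h3.2]
    have key := hasDerivAt_integral_of_dominated_loc_of_deriv_le (μ := μ)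
      (F := fun (z : ℂ) x => ((U x : ℝ) : ℂ) ^ z * κ x)
      (F' := fun (z : ℂ) x => ((U x : ℝ) : ℂ) ^ z * Complex.log ((U x : ℝ) : ℂ) * 1 * κ x)
      (x₀ := z) (bound := fun x => 2 / δ * (U x ^ a * ‖κ x‖ + U x ^ b * ‖κ x‖))
      (Metric.ball_mem_nhds z hδ) (Filter.Eventually.of_forall hmeas)
      (hint z ⟨hz1.le, hz2.le⟩)
      ((((hUc.pow_const z).mul (Complex.measurable_log.comp_aemeasurable hUc)).mul_const
        1).aestronglyMeasurable.mul hκ)
      (Filter.Eventually.of_forall fun x w hw =>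
        d0_norm_deriv_le (hU0 x) (h0 x) hδ (hball w hw).1 (hball w hw).2)
      (hbound.const_mul _)
      (Filter.Eventually.of_forall fun x w _ => d0_hasDerivAt (h0 x) w)
    exact key.2.differentiableAt.differentiableWithinAt
  · have hsub : closure (Complex.HadamardThreeLines.verticalStrip a b) ⊆
        Complex.HadamardThreeLines.verticalClosedStrip a b := by
      refine (Complex.continuous_re.closure_preimage_subset _).trans ?_
      exact Set.preimage_mono (closure_minimal Set.Ioo_subset_Icc_self isClosed_Icc)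
    refine ContinuousOn.mono ?_ hsub
    exact continuousOn_of_dominated (fun z _ => hmeas z)
      (fun z hz => Filter.Eventually.of_forall (hle z hz)) hbound
      (Filter.Eventually.of_forall fun x => (hcont x).continuousOn)
  · rw [← integral_add ha hb]
    exact norm_integral_le_of_norm_le hbound (Filter.Eventually.of_forall (hle z hz))

end Pool.Agent.Lib.QR
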