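import Pool.Agent.Lib.MP_ba1c0b_an.C2
import Pool.Agent.Lib.MP_ba1c0b_an.D0

/-!
D1: the analytic family.
-/

set_option autoImplicit false

open MeasureTheory
open scoped ENNReal

namespace Pool.Agent.Lib.QR

private lemma d1_bp_le {ι : Type*} [Fintype ι] (x y : EuclideanSpace ℂ ι) :
    ‖bp x y‖ ≤ ‖x‖ * ‖y‖ := by
  unfold bp
  calc ‖∑ i, x i * y i‖ ≤ ∑ i, ‖x i‖ * ‖y i‖ := by
        refine (norm_sum_le _ _).trans (le_of_eq ?_)
        exact Finset.sum_congr rfl fun i _ => norm_mul _ _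
    _ ≤ Real.sqrt (∑ i, ‖x i‖ ^ 2) * Real.sqrt (∑ i, ‖y i‖ ^ 2) :=
        Real.sum_mul_le_sqrt_mul_sqrt _ _ _
    _ = ‖x‖ * ‖y‖ := by rw [EuclideanSpace.norm_eq, EuclideanSpace.norm_eq]

private lemma d1_bp_smul {ι : Type*} [Fintype ι] (c : ℂ) (x y : EuclideanSpace ℂ ι) :
    bp (c • x) y = c * bp x y := by
  unfold bp
  rw [Finset.mul_sum]
  exact Finset.sum_congr rfl fun i _ => by
    rw [PiLp.smul_apply, smul_eq_mul, mul_assoc]

private lemma d1_bp_zero {ι : Type*} [Fintype ι] (y : EuclideanSpace ℂ ι) :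
    bp (0 : EuclideanSpace ℂ ι) y = 0 := by
  unfold bp
  simp

private lemma d1_bp_sum {ι : Type*} [Fintype ι] {κ : Type*} (I : Finset κ) (c : κ → ℂ)
    (x : EuclideanSpace ℂ ι) (f : κ → EuclideanSpace ℂ ι) :
    bp x (∑ j ∈ I, c j • f j) = ∑ j ∈ I, c j * bp x (f j) := by
  unfold bp
  simp only [Finset.mul_sum]
  rw [Finset.sum_comm]
  refine Finset.sum_congr rfl fun i _ => ?_
  rw [WithLp.ofLp_sum, Finset.sum_apply, Finset.mul_sum]
  refine Finset.sum_congr rfl fun j _ => ?_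
  rw [PiLp.smul_apply, smul_eq_mul]
  ring

private lemma d1_bp_cont {ι : Type*} [Fintype ι] :
    Continuous fun p : EuclideanSpace ℂ ι × EuclideanSpace ℂ ι => bp p.1 p.2 := by
  unfold bp
  fun_prop

/-- Hölder. -/
private lemma d1_holder {X : Type*} [MeasurableSpace X] (μ : Measure X) [IsProbabilityMeasure μ]
    {ι : Type*} [Fintype ι] {s r r' : ℝ} (hrr : r.HolderConjugate r') (hs : 0 < s)
    (u : X → EuclideanSpace ℂ ι) (hu : MemLp u (ENNReal.ofReal s) μ)
    (hu1 : ∫ x, ‖u x‖ ^ s ∂μ = 1) (h : X → EuclideanSpace ℂ ι)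
    (hh : MemLp h (ENNReal.ofReal r') μ) :
    Integrable (fun x => ‖u x‖ ^ (s / r) * ‖h x‖) μ ∧
      ∀ A : ℝ, 0 ≤ A → ∫ x, ‖h x‖ ^ r' ∂μ ≤ A ^ r' → ∫ x, ‖u x‖ ^ (s / r) * ‖h x‖ ∂μ ≤ A := by
  have hr : 0 < r := hrr.pos
  have hr' : 0 < r' := hrr.symm.pos
  have hf : MemLp (fun x => ‖u x‖ ^ (s / r)) (ENNReal.ofReal r) μ := by
    have h1 := hu.norm_rpow_div (ENNReal.ofReal (s / r))
    rw [← ENNReal.ofReal_div_of_pos (div_pos hs hr), ENNReal.toReal_ofReal (div_pos hs hr).le,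
      div_div_cancel₀ hs.ne'] at h1
    exact h1
  have hg : MemLp (fun x => ‖h x‖) (ENNReal.ofReal r') μ := hh.norm
  have := hrr.ennrealOfReal
  refine ⟨hf.integrable_mul hg, fun A hA hB => ?_⟩
  have h2 := integral_mul_le_Lp_mul_Lq_of_nonneg hrr
    (Filter.Eventually.of_forall fun x => Real.rpow_nonneg (norm_nonneg (u x)) (s / r))
    (Filter.Eventually.of_forall fun x => norm_nonneg (h x)) hf hg
  have h3 : ∫ x, (‖u x‖ ^ (s / r)) ^ r ∂μ = 1 := by
    rw [← hu1]
    refine integral_congr_ae (Filter.Eventually.of_forall fun x => ?_)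
    dsimp only
    rw [← Real.rpow_mul (norm_nonneg _), div_mul_cancel₀ _ hr.ne']
  rw [h3, Real.one_rpow, one_mul] at h2
  refine h2.trans ?_
  have h4 : (∫ x, ‖h x‖ ^ r' ∂μ) ^ (1 / r') ≤ (A ^ r') ^ (1 / r') :=
    Real.rpow_le_rpow (integral_nonneg fun x => Real.rpow_nonneg (norm_nonneg _) _) hB
      (by positivity)
  refine h4.trans (le_of_eq ?_)
  rw [← Real.rpow_mul hA, mul_one_div_cancel hr'.ne', Real.rpow_one]

/-- The integrand is bounded. -/
private lemma d1_norm {ι : Type*} [Fintype ι] (u y : EuclideanSpace ℂ ι) (z : ℂ) :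
    ‖((‖u‖ : ℝ) : ℂ) ^ z * bp u y‖ ≤ ‖u‖ ^ (1 + z.re) * ‖y‖ := by
  rcases eq_or_ne u 0 with rfl | hu
  · rw [d1_bp_zero, mul_zero, norm_zero]
    positivity
  · have hp : 0 < ‖u‖ := norm_pos_iff.2 hu
    rw [norm_mul, Complex.norm_cpow_eq_rpow_re_of_pos hp, Real.rpow_add hp, Real.rpow_one]
    calc ‖u‖ ^ z.re * ‖bp u y‖ ≤ ‖u‖ ^ z.re * (‖u‖ * ‖y‖) :=
          mul_le_mul_of_nonneg_left (d1_bp_le u y) (Real.rpow_nonneg hp.le _)
      _ = ‖u‖ * ‖u‖ ^ z.re * ‖y‖ := by ring

/-- The analytic family. `V := EuclideanSpace ℂ ι`, `P' = P/(P-1)`, `t = s/(1+ε)`, `t' = t/(t-1)`,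
`|y|^w y := (‖y‖ : ℂ)^w • y`.
PROOF. Put `β z = t' (1 - (1 + z)/s)` (so `β ε = 1`), `g_z = |g|^(β z - 1) g` (a simple function, a finite
combination `∑_{y ∈ range gs} (‖y‖:ℂ)^(β z - 1) • 1_{gs = y} y`), `g0 = g_0`, and
`F z = ∫ bp (|u|^z u) (T g_z) = ∑_y (‖y‖:ℂ)^(β z - 1) ∫ (‖u‖:ℂ)^z bp u (T (1_{gs=y} y))`.
Each integral is analytic in the strip `s/P - 1 < Re z < s (P-1)/P - 1` and continuous on its closure
(`mellin_diffContOnCl` with `U = ‖u‖`, `κ = bp u (T_y)`: `‖u‖^(1+a) ‖T_y‖` is integrable for `(1+a)/s = 1/P`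
and for `(1+a)/s = 1/P'` by Hölder since `T_y ∈ L^P`).
On the line `Re z = x` put `1/r = (1+x)/s`: `∫ ‖|u|^z u‖^r = ∫ ‖u‖^s = 1`, `∫ ‖g_z‖^(r') = ∫ ‖g‖^t' = 1`.  Hence by
Hölder and `IsProj`: `|F| ≤ 1` for `r = 2`, `|F| ≤ M` for `r = P` (use `hP'`) and for `r = P'` (use `hP`).
Hadamard's three lines theorem (`Complex.HadamardThreeLines.norm_le_interp_of_mem_verticalClosedStrip'`) on
the two strips between the three lines gives the bound `M ^ (|(1+x)/s - 1/2| / (1/2 - 1/P))`. -/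
theorem exists_family {X : Type*} [MeasurableSpace X] (μ : Measure X) [IsProbabilityMeasure μ]
    {ι : Type*} [Fintype ι] {P M : ℝ} (hP : 2 < P) [Fact (1 ≤ ENNReal.ofReal P)] (hM : 1 ≤ M)
    (T : Lp (EuclideanSpace ℂ ι) (ENNReal.ofReal P) μ →L[ℂ]
      Lp (EuclideanSpace ℂ ι) (ENNReal.ofReal P) μ) (hT : IsProj μ P M T)
    {s ε : ℝ} (hε : 0 ≤ ε) (hs1 : P / (P - 1) < s / (1 + ε)) (hs2 : s < P)
    (u : X → EuclideanSpace ℂ ι) (hu : MemLp u (ENNReal.ofReal s) μ) (hu1 : ∫ x, ‖u x‖ ^ s ∂μ = 1)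
    (g : Lp (EuclideanSpace ℂ ι) (ENNReal.ofReal P) μ) (gs : SimpleFunc X (EuclideanSpace ℂ ι))
    (hgs : (g : X → EuclideanSpace ℂ ι) =ᵐ[μ] gs)
    (hg1 : ∫ x, ‖g x‖ ^ ((s / (1 + ε)) / (s / (1 + ε) - 1)) ∂μ = 1) :
    ∃ (F : ℂ → ℂ) (g0 : Lp (EuclideanSpace ℂ ι) (ENNReal.ofReal P) μ),
      DifferentiableOn ℂ F
        (Complex.HadamardThreeLines.verticalStrip (s / P - 1) (s * (P - 1) / P - 1)) ∧
      F 0 = ∫ x, bp (u x) (T g0 x) ∂μ ∧
      F (ε : ℂ) = ∫ x, bp (((‖u x‖ ^ ε : ℝ) : ℂ) • u x) (T g x) ∂μ ∧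
      ∀ z ∈ Complex.HadamardThreeLines.verticalStrip (s / P - 1) (s * (P - 1) / P - 1),
        ‖F z‖ ≤ M ^ (|(1 + z.re) / s - 1 / 2| / (1 / 2 - 1 / P)) := by
  classical
  have hP0 : 0 < P := by linarith
  have hP1 : 0 < P - 1 := by linarith
  have h1ε : 0 < 1 + ε := by linarith
  have hPc : 1 < P / (P - 1) := by rw [one_lt_div hP1]; linarith
  have hM0 : 0 ≤ M := by linarith
  set t : ℝ := s / (1 + ε) with ht
  have ht1 : 1 < t := hPc.trans hs1
  have hst : s = t * (1 + ε) := by rw [ht]; field_simp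
  have hs0 : 0 < s := by rw [hst]; exact mul_pos (by linarith) h1ε
  have hts : t ≤ s := by rw [hst]; nlinarith
  set t' : ℝ := t / (t - 1) with ht'
  have ht'0 : 0 < t' := div_pos (by linarith) (by linarith)
  have hconj : P.HolderConjugate (P / (P - 1)) := Real.HolderConjugate.conjExponent (by linarith)
  set a : ℝ := s / P - 1 with ha
  set b : ℝ := s * (P - 1) / P - 1 with hb
  have hab : a < b := by
    rw [ha, hb]
    have : s / P < s * (P - 1) / P := by
      rw [div_lt_div_iff_of_pos_right hP0]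
      nlinarith
    linarith
  let β : ℂ → ℂ := fun z => (t' : ℂ) * (1 - (1 + z) / (s : ℂ))
  have hβre : ∀ z : ℂ, (β z).re = t' * (1 - (1 + z.re) / s) := by
    intro z
    simp only [β]
    rw [Complex.re_ofReal_mul, Complex.sub_re, Complex.one_re, Complex.div_ofReal_re,
      Complex.add_re, Complex.one_re]
  have hβε : β (ε : ℂ) = 1 := by
    have h1 : t' * (1 - (1 + ε) / s) = 1 := by
      rw [ht', hst]
      have h2 : t - 1 ≠ 0 := by linarith
      have h3 : t ≠ 0 := by linarith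
      field_simp
    simp only [β]
    exact_mod_cast h1
  let c : EuclideanSpace ℂ ι → ℂ → ℂ := fun y z => Complex.exp ((β z - 1) * (Real.log ‖y‖ : ℂ))
  have hcn : ∀ y z, ‖c y z‖ = Real.exp (((β z).re - 1) * Real.log ‖y‖) := by
    intro y z
    simp only [c]
    rw [Complex.norm_exp, Complex.re_mul_ofReal, Complex.sub_re, Complex.one_re]
  have hcd : ∀ y, Differentiable ℂ (c y) := by
    intro y
    simp only [c, β]
    fun_prop
  let Ind : EuclideanSpace ℂ ι → Lp (EuclideanSpace ℂ ι) (ENNReal.ofReal P) μ := fun y =>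
    indicatorConstLp (ENNReal.ofReal P) (gs.measurableSet_fiber y) (measure_ne_top μ _) y
  let G : ℂ → Lp (EuclideanSpace ℂ ι) (ENNReal.ofReal P) μ := fun z =>
    ∑ y ∈ gs.range, c y z • Ind y
  have hG : ∀ z, ∀ᵐ x ∂μ, G z x = c (gs x) z • gs x := by
    intro z
    have h1 := Lp.coeFn_fun_finsetSum gs.range (fun y => c y z • Ind y)
    have h2 : ∀ᵐ x ∂μ, ∀ y ∈ gs.range, (c y z • Ind y : Lp (EuclideanSpace ℂ ι)
        (ENNReal.ofReal P) μ) x = c y z • (gs ⁻¹' {y}).indicator (fun _ => y) x := by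
      rw [Filter.eventually_all_finset]
      intro y _
      have h3 := Lp.coeFn_smul (c y z) (Ind y)
      have h4 : (Ind y : X → EuclideanSpace ℂ ι) =ᵐ[μ] (gs ⁻¹' {y}).indicator (fun _ => y) :=
        indicatorConstLp_coeFn
      filter_upwards [h3, h4] with x hx3 hx4
      rw [hx3, Pi.smul_apply, hx4]
    filter_upwards [h1, h2] with x hx1 hx2
    have h5 : G z x = ∑ y ∈ gs.range, (c y z • Ind y : Lp (EuclideanSpace ℂ ι)
        (ENNReal.ofReal P) μ) x := hx1
    rw [h5, Finset.sum_congr rfl hx2, Finset.sum_eq_single (gs x)]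
    · rw [Set.indicator_of_mem]
      exact rfl
    · intro y _ hy
      rw [Set.indicator_of_notMem, smul_zero]
      intro h6
      exact hy (Set.mem_singleton_iff.1 h6).symm
    · intro h6
      exact absurd (gs.mem_range_self x) h6
  have hTG : ∀ z, ∀ᵐ x ∂μ, T (G z) x = ∑ y ∈ gs.range, c y z • T (Ind y) x := by
    intro z
    have h0 : T (G z) = ∑ y ∈ gs.range, c y z • T (Ind y) := by
      simp only [G]
      rw [map_sum]
      exact Finset.sum_congr rfl fun y _ => by rw [map_smul]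
    rw [h0]
    have h1 := Lp.coeFn_fun_finsetSum gs.range (fun y => c y z • T (Ind y))
    have h2 : ∀ᵐ x ∂μ, ∀ y ∈ gs.range, (c y z • T (Ind y) : Lp (EuclideanSpace ℂ ι)
        (ENNReal.ofReal P) μ) x = c y z • T (Ind y) x := by
      rw [Filter.eventually_all_finset]
      intro y _
      filter_upwards [Lp.coeFn_smul (c y z) (T (Ind y))] with x hx3
      rw [hx3, Pi.smul_apply]
    filter_upwards [h1, h2] with x hx1 hx2
    rw [hx1, Finset.sum_congr rfl hx2]
  -- norms of `G z`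
  have hGn : ∀ (z : ℂ) (r' : ℝ), 0 < r' → (β z).re * r' = t' → ∫ x, ‖G z x‖ ^ r' ∂μ = 1 := by
    intro z r' hr' hz
    rw [← hg1]
    refine integral_congr_ae ?_
    filter_upwards [hG z, hgs] with x hx1 hx2
    rw [hx1, hx2, norm_smul, hcn]
    rcases eq_or_ne (gs x) 0 with h0 | h0
    · rw [h0, norm_zero, mul_zero, Real.zero_rpow hr'.ne', Real.zero_rpow ht'0.ne']
    · have hp : 0 < ‖gs x‖ := norm_pos_iff.2 h0
      have h1 : Real.exp (((β z).re - 1) * Real.log ‖gs x‖) * ‖gs x‖ = ‖gs x‖ ^ (β z).re := by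
        rw [Real.rpow_def_of_pos hp]
        nth_rewrite 2 [← Real.exp_log hp]
        rw [← Real.exp_add]
        congr 1
        ring
      rw [h1, ← Real.rpow_mul hp.le, hz]
  -- the integrals
  have hmono : ∀ (h : Lp (EuclideanSpace ℂ ι) (ENNReal.ofReal P) μ) (r' : ℝ), r' ≤ P →
      MemLp (h : X → EuclideanSpace ℂ ι) (ENNReal.ofReal r') μ := fun h r' hr' =>
    (Lp.memLp h).mono_exponent (ENNReal.ofReal_le_ofReal hr')
  have hPP : P / (P - 1) ≤ P := by
    rw [div_le_iff₀ hP1]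
    nlinarith
  have hinta : ∀ h : Lp (EuclideanSpace ℂ ι) (ENNReal.ofReal P) μ,
      Integrable (fun x => ‖u x‖ ^ (1 + a) * ‖h x‖) μ := by
    intro h
    have h1 := (d1_holder μ hconj hs0 u hu hu1 _ (hmono h _ hPP)).1
    have h2 : 1 + a = s / P := by rw [ha]; ring
    rw [h2]
    exact h1
  have hintb : ∀ h : Lp (EuclideanSpace ℂ ι) (ENNReal.ofReal P) μ,
      Integrable (fun x => ‖u x‖ ^ (1 + b) * ‖h x‖) μ := by
    intro h
    have h1 := (d1_holder μ hconj.symm hs0 u hu hu1 _ (hmono h _ le_rfl)).1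
    have h2 : 1 + b = s / (P / (P - 1)) := by rw [hb]; field_simp; ring
    rw [h2]
    exact h1
  have hkm : ∀ h : Lp (EuclideanSpace ℂ ι) (ENNReal.ofReal P) μ,
      AEStronglyMeasurable (fun x => bp (u x) (h x)) μ := fun h =>
    d1_bp_cont.comp_aestronglyMeasurable (hu.1.prodMk (Lp.aestronglyMeasurable h))
  have haux : ∀ (h : Lp (EuclideanSpace ℂ ι) (ENNReal.ofReal P) μ) (e : ℝ),
      Integrable (fun x => ‖u x‖ ^ (1 + e) * ‖h x‖) μ →
      Integrable (fun x => ‖u x‖ ^ e * ‖bp (u x) (h x)‖) μ := by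
    intro h e hi
    refine hi.mono' ?_ (Filter.Eventually.of_forall fun x => ?_)
    · exact ((hu.1.norm.aemeasurable.pow_const e).aestronglyMeasurable).mul (hkm h).norm
    · rw [Real.norm_of_nonneg (by positivity)]
      rcases eq_or_ne (u x) 0 with h0 | h0
      · rw [h0, d1_bp_zero]
        simp only [norm_zero, mul_zero]
        positivity
      · have hp : 0 < ‖u x‖ := norm_pos_iff.2 h0
        rw [Real.rpow_add hp, Real.rpow_one]
        calc ‖u x‖ ^ e * ‖bp (u x) (h x)‖ ≤ ‖u x‖ ^ e * (‖u x‖ * ‖h x‖) :=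
              mul_le_mul_of_nonneg_left (d1_bp_le _ _) (Real.rpow_nonneg hp.le _)
          _ = ‖u x‖ * ‖u x‖ ^ e * ‖h x‖ := by ring
  have hmel : ∀ h : Lp (EuclideanSpace ℂ ι) (ENNReal.ofReal P) μ, _ := fun h =>
    mellin_diffContOnCl μ (fun x => ‖u x‖) hu.1.norm (fun x => norm_nonneg _)
      (fun x => bp (u x) (h x)) (hkm h)
      (fun x hx => by rw [norm_eq_zero.1 hx, d1_bp_zero]) a b hab (haux h a (hinta h))
      (haux h b (hintb h))
  let F : ℂ → ℂ := fun z =>
    ∑ y ∈ gs.range, c y z * ∫ x, ((‖u x‖ : ℝ) : ℂ) ^ z * bp (u x) (T (Ind y) x) ∂μ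
  have hF : ∀ z ∈ Complex.HadamardThreeLines.verticalClosedStrip a b,
      F z = ∫ x, ((‖u x‖ : ℝ) : ℂ) ^ z * bp (u x) (T (G z) x) ∂μ := by
    intro z hz
    have h1 : ∫ x, ((‖u x‖ : ℝ) : ℂ) ^ z * bp (u x) (T (G z) x) ∂μ =
        ∫ x, ∑ y ∈ gs.range, c y z * (((‖u x‖ : ℝ) : ℂ) ^ z * bp (u x) (T (Ind y) x)) ∂μ := by
      refine integral_congr_ae ?_
      filter_upwards [hTG z] with x hx
      rw [hx, d1_bp_sum, Finset.mul_sum]
      exact Finset.sum_congr rfl fun y _ => by ring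
    rw [h1, integral_finsetSum]
    · exact Finset.sum_congr rfl fun y _ => (integral_const_mul _ _).symm
    · intro y _
      exact ((hmel (T (Ind y))).2 z hz).1.const_mul _
  -- differentiability
  have hFd : DiffContOnCl ℂ F (Complex.HadamardThreeLines.verticalStrip a b) := by
    refine ⟨?_, ?_⟩
    · exact DifferentiableOn.fun_sum fun y _ =>
        (hcd y).differentiableOn.mul (hmel (T (Ind y))).1.1
    · exact continuousOn_finsetSum _ fun y _ =>
        (hcd y).continuous.continuousOn.mul (hmel (T (Ind y))).1.2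
  -- boundedness
  have hFb : BddAbove ((norm ∘ F) '' Complex.HadamardThreeLines.verticalClosedStrip a b) := by
    refine ⟨∑ y ∈ gs.range, Real.exp ((t' + 1) * |Real.log ‖y‖|) *
      (∫ x, ‖u x‖ ^ a * ‖bp (u x) (T (Ind y) x)‖ ∂μ +
        ∫ x, ‖u x‖ ^ b * ‖bp (u x) (T (Ind y) x)‖ ∂μ), ?_⟩
    rintro _ ⟨z, hz, rfl⟩
    refine (norm_sum_le _ _).trans (Finset.sum_le_sum fun y _ => ?_)
    rw [norm_mul]
    refine mul_le_mul ?_ ((hmel (T (Ind y))).2 z hz).2 (norm_nonneg _) (Real.exp_pos _).le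
    rw [hcn, Real.exp_le_exp]
    refine (le_abs_self _).trans ?_
    rw [abs_mul]
    refine mul_le_mul_of_nonneg_right ?_ (abs_nonneg _)
    have hz' : a ≤ z.re ∧ z.re ≤ b := hz
    have h1 : 0 ≤ (1 + z.re) / s := by
      refine div_nonneg ?_ hs0.le
      have : 0 < s / P := div_pos hs0 hP0
      linarith [hz'.1]
    have h2 : (1 + z.re) / s ≤ 1 := by
      rw [div_le_one hs0]
      have : s * (P - 1) / P ≤ s := by
        rw [div_le_iff₀ hP0]
        nlinarith
      linarith [hz'.2]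
    rw [hβre, abs_le]
    constructor <;> nlinarith
  -- the lines
  have hline : ∀ (z : ℂ) (r r' A : ℝ), z ∈ Complex.HadamardThreeLines.verticalClosedStrip a b →
      r.HolderConjugate r' → (1 + z.re) / s = 1 / r → r' ≤ P → 0 ≤ A →
      (∀ h : Lp (EuclideanSpace ℂ ι) (ENNReal.ofReal P) μ,
        ∫ x, ‖T h x‖ ^ r' ∂μ ≤ A ^ r' * ∫ x, ‖h x‖ ^ r' ∂μ) → ‖F z‖ ≤ A := by
    intro z r r' A hz hrr hr hr'P hA hTA
    have hr0 : 0 < r := hrr.pos
    have hr'0 : 0 < r' := hrr.symm.pos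
    have h1 : (β z).re * r' = t' := by
      rw [hβre, hr]
      have h2 : 1 - 1 / r = 1 / r' := by
        have := hrr.inv_add_inv_eq_one
        rw [one_div, one_div]
        linarith
      rw [h2]
      field_simp
    have h2 := hGn z r' hr'0 h1
    have h3 : ∫ x, ‖T (G z) x‖ ^ r' ∂μ ≤ A ^ r' := by
      have := hTA (G z)
      rwa [h2, mul_one] at this
    obtain ⟨h4, h5⟩ := d1_holder μ hrr hs0 u hu hu1 _ (hmono (T (G z)) _ hr'P)
    have h6 : 1 + z.re = s / r := by
      rw [div_eq_iff hs0.ne'] at hr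
      rw [hr]
      ring
    rw [hF z hz]
    refine (norm_integral_le_of_norm_le h4 (Filter.Eventually.of_forall fun x => ?_)).trans
      (h5 A hA h3)
    have h7 := d1_norm (u x) (T (G z) x) z
    rwa [h6] at h7
  have hl1 : ∀ z : ℂ, z.re = a → ‖F z‖ ≤ M := by
    intro z hz
    refine hline z P (P / (P - 1)) M ?_ hconj ?_ hPP hM0 hT.hP'
    · exact ⟨hz.ge, by rw [hz]; exact hab.le⟩
    · rw [hz, ha]
      field_simp
      ring
  have hl2 : ∀ z : ℂ, z.re = s / 2 - 1 → ‖F z‖ ≤ 1 := by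
    intro z hz
    refine hline z 2 2 1 ?_ Real.HolderConjugate.two_two ?_ hP.le zero_le_one ?_
    · refine ⟨?_, ?_⟩
      · rw [hz, ha]
        have : s / P ≤ s / 2 := div_le_div_of_nonneg_left hs0.le (by norm_num) hP.le
        linarith
      · rw [hz, hb]
        have : s / 2 ≤ s * (P - 1) / P := by
          rw [div_le_div_iff₀ (by norm_num) hP0]
          nlinarith
        linarith
    · rw [hz]
      field_simp
      ring
    · intro h
      rw [Real.one_rpow, one_mul]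
      exact hT.h2 h
  have hl3 : ∀ z : ℂ, z.re = b → ‖F z‖ ≤ M := by
    intro z hz
    refine hline z (P / (P - 1)) P M ?_ hconj.symm ?_ le_rfl hM0 hT.hP
    · exact ⟨by rw [hz]; exact hab.le, hz.le⟩
    · rw [hz, hb]
      field_simp
      ring
  have hd0 : 0 < 1 / 2 - 1 / P := by
    have : 1 / P < 1 / 2 := one_div_lt_one_div_of_lt (by norm_num) hP
    linarith
  have hal : a < s / 2 - 1 := by
    rw [ha]
    have : s / P < s / 2 := div_lt_div_of_pos_left hs0 (by norm_num) hP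
    linarith
  have hlb : s / 2 - 1 < b := by
    rw [hb]
    have : s / 2 < s * (P - 1) / P := by
      rw [div_lt_div_iff₀ (by norm_num) hP0]
      nlinarith
    linarith
  refine ⟨F, G 0, hFd.1, ?_, ?_, ?_⟩
  · rw [hF 0]
    · refine integral_congr_ae (Filter.Eventually.of_forall fun x => ?_)
      dsimp only
      rw [Complex.cpow_zero, one_mul]
    · refine ⟨?_, ?_⟩
      · rw [Complex.zero_re, ha]
        have : s / P ≤ 1 := by rw [div_le_one hP0]; exact hs2.le
        linarith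
      · rw [Complex.zero_re, hb]
        have h1 : P / (P - 1) < s := hs1.trans_le hts
        rw [div_lt_iff₀ hP1] at h1
        have : 1 ≤ s * (P - 1) / P := by
          rw [le_div_iff₀ hP0]
          linarith
        linarith
  · have hGε : G (ε : ℂ) = g := by
      refine Lp.ext ?_
      filter_upwards [hG (ε : ℂ), hgs] with x hx1 hx2
      rw [hx1, hx2]
      simp only [c]
      rw [hβε, sub_self, zero_mul, Complex.exp_zero, one_smul]
    rw [hF (ε : ℂ), hGε]
    · refine integral_congr_ae (Filter.Eventually.of_forall fun x => ?_)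
      dsimp only
      rw [d1_bp_smul, Complex.ofReal_cpow (norm_nonneg _)]
    · refine ⟨?_, ?_⟩
      · rw [Complex.ofReal_re, ha]
        have : s / P ≤ 1 := by rw [div_le_one hP0]; exact hs2.le
        linarith
      · rw [Complex.ofReal_re, hb]
        rw [ht, div_lt_div_iff₀ hP1 h1ε] at hs1
        have : 1 + ε ≤ s * (P - 1) / P := by
          rw [le_div_iff₀ hP0]
          linarith
        linarith
  · intro z hz
    have hz' : a < z.re ∧ z.re < b := hz
    rcases le_total z.re (s / 2 - 1) with hle | hle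
    · have h1 := Complex.HadamardThreeLines.norm_le_interp_of_mem_verticalClosedStrip' (f := F)
        (z := z) (a := M) (b := 1) hal ⟨hz'.1.le, hle⟩
        (hFd.mono (Set.preimage_mono (Set.Ioo_subset_Ioo_right hlb.le)))
        (hFb.mono (Set.image_mono (Set.preimage_mono (Set.Icc_subset_Icc_right hlb.le))))
        (fun w hw => hl1 w hw) (fun w hw => hl2 w hw)
      rw [Real.one_rpow, mul_one] at h1
      refine h1.trans (le_of_eq ?_)
      congr 1
      have h2 : (1 + z.re) / s - 1 / 2 ≤ 0 := by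
        rw [sub_nonpos, div_le_div_iff₀ hs0 (by norm_num)]
        linarith
      rw [abs_of_nonpos h2, ha]
      have h3 : P - 2 ≠ 0 := by linarith
      have h4 : s / 2 - 1 - (s / P - 1) = s * (1 / 2 - 1 / P) := by ring
      rw [h4, eq_div_iff hd0.ne']
      have h5 : s * (1 / 2 - 1 / P) ≠ 0 := (mul_pos hs0 hd0).ne'
      have h6 : (1 - (z.re - (s / P - 1)) / (s * (1 / 2 - 1 / P))) * (1 / 2 - 1 / P) =
          (1 / 2 - 1 / P) - (z.re - (s / P - 1)) / s := by
        rw [sub_mul, one_mul, div_mul_eq_mul_div, mul_div_mul_right _ _ hd0.ne']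
      rw [h6]
      field_simp
      ring
    · have h1 := Complex.HadamardThreeLines.norm_le_interp_of_mem_verticalClosedStrip' (f := F)
        (z := z) (a := 1) (b := M) hlb ⟨hle, hz'.2.le⟩
        (hFd.mono (Set.preimage_mono (Set.Ioo_subset_Ioo_left hal.le)))
        (hFb.mono (Set.image_mono (Set.preimage_mono (Set.Icc_subset_Icc_left hal.le))))
        (fun w hw => hl2 w hw) (fun w hw => hl3 w hw)
      rw [Real.one_rpow, one_mul] at h1
      refine h1.trans (le_of_eq ?_)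
      congr 1
      have h2 : 0 ≤ (1 + z.re) / s - 1 / 2 := by
        rw [sub_nonneg, div_le_div_iff₀ (by norm_num) hs0]
        linarith
      rw [abs_of_nonneg h2, hb]
      have h4 : s * (P - 1) / P - 1 - (s / 2 - 1) = s * (1 / 2 - 1 / P) := by
        field_simp
        ring
      rw [h4, eq_div_iff hd0.ne', div_mul_eq_mul_div, mul_div_mul_right _ _ hd0.ne']
      field_simp
      ring

end Pool.Agent.Lib.QR
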