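import Pool.Agent.Lib.MP_ba1c0b_an.D1

/-!
D2: the two pairing inequalities.
-/

set_option autoImplicit false

open MeasureTheory
open scoped ENNReal

namespace Pool.Agent.Lib.QR

private lemma d2_bp_le {ι : Type*} [Fintype ι] (x y : EuclideanSpace ℂ ι) :
    ‖bp x y‖ ≤ ‖x‖ * ‖y‖ := by
  unfold bp
  calc ‖∑ i, x i * y i‖ ≤ ∑ i, ‖x i‖ * ‖y i‖ := by
        refine (norm_sum_le _ _).trans (le_of_eq ?_)
        exact Finset.sum_congr rfl fun i _ => norm_mul _ _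
    _ ≤ Real.sqrt (∑ i, ‖x i‖ ^ 2) * Real.sqrt (∑ i, ‖y i‖ ^ 2) :=
        Real.sum_mul_le_sqrt_mul_sqrt _ _ _
    _ = ‖x‖ * ‖y‖ := by rw [EuclideanSpace.norm_eq, EuclideanSpace.norm_eq]

private lemma d2_bp_smul {ι : Type*} [Fintype ι] (c : ℂ) (x y : EuclideanSpace ℂ ι) :
    bp (c • x) y = c * bp x y := by
  unfold bp
  rw [Finset.mul_sum]
  exact Finset.sum_congr rfl fun i _ => by
    rw [PiLp.smul_apply, smul_eq_mul, mul_assoc]

private lemma d2_bp_smul' {ι : Type*} [Fintype ι] (c : ℂ) (x y : EuclideanSpace ℂ ι) :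
    bp x (c • y) = c * bp x y := by
  unfold bp
  rw [Finset.mul_sum]
  exact Finset.sum_congr rfl fun i _ => by
    rw [PiLp.smul_apply, smul_eq_mul]
    ring

private lemma d2_bp_sub {ι : Type*} [Fintype ι] (x y y' : EuclideanSpace ℂ ι) :
    bp x (y - y') = bp x y - bp x y' := by
  unfold bp
  rw [← Finset.sum_sub_distrib]
  exact Finset.sum_congr rfl fun i _ => by
    rw [PiLp.sub_apply]
    ring

private lemma d2_bp_zero {ι : Type*} [Fintype ι] (y : EuclideanSpace ℂ ι) :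
    bp (0 : EuclideanSpace ℂ ι) y = 0 := by
  unfold bp
  simp

private lemma d2_bp_zero' {ι : Type*} [Fintype ι] (y : EuclideanSpace ℂ ι) :
    bp y (0 : EuclideanSpace ℂ ι) = 0 := by
  unfold bp
  simp

private lemma d2_bp_cont {ι : Type*} [Fintype ι] :
    Continuous fun p : EuclideanSpace ℂ ι × EuclideanSpace ℂ ι => bp p.1 p.2 := by
  unfold bp
  fun_prop

section

variable {X : Type*} [MeasurableSpace X] (μ : Measure X) [IsProbabilityMeasure μ]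
  {ι : Type*} [Fintype ι] {P M : ℝ}

omit [IsProbabilityMeasure μ] in
private lemma d2_norm_eq [Fact (1 ≤ ENNReal.ofReal P)] (hP : 0 < P)
    (h : Lp (EuclideanSpace ℂ ι) (ENNReal.ofReal P) μ) :
    ‖h‖ = (∫ x, ‖h x‖ ^ P ∂μ) ^ (1 / P) := by
  rw [Lp.norm_def, (Lp.memLp h).eLpNorm_eq_integral_rpow_norm (by simpa using hP) ENNReal.ofReal_ne_top,
    ENNReal.toReal_ofReal hP.le, ENNReal.toReal_ofReal, one_div]
  exact Real.rpow_nonneg (integral_nonneg fun x => Real.rpow_nonneg (norm_nonneg _) _) _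

private lemma d2_pair_int [Fact (1 ≤ ENNReal.ofReal P)] (hP : 1 < P) (w : X → EuclideanSpace ℂ ι)
    (hw : MemLp w (ENNReal.ofReal (P / (P - 1))) μ)
    (h : Lp (EuclideanSpace ℂ ι) (ENNReal.ofReal P) μ) :
    Integrable (fun x => bp (w x) (h x)) μ ∧
      ‖∫ x, bp (w x) (h x) ∂μ‖ ≤ (∫ x, ‖w x‖ ^ (P / (P - 1)) ∂μ) ^ (1 / (P / (P - 1))) * ‖h‖ := by
  have hconj : P.HolderConjugate (P / (P - 1)) := Real.HolderConjugate.conjExponent hP
  have hc' := hconj.symm.ennrealOfReal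
  have h1 : Integrable (fun x => ‖w x‖ * ‖h x‖) μ := hw.norm.integrable_mul (Lp.memLp h).norm
  have h2 : ∀ x, ‖bp (w x) (h x)‖ ≤ ‖w x‖ * ‖h x‖ := fun x => d2_bp_le _ _
  have hm : AEStronglyMeasurable (fun x => bp (w x) (h x)) μ :=
    d2_bp_cont.comp_aestronglyMeasurable (hw.1.prodMk (Lp.aestronglyMeasurable h))
  refine ⟨h1.mono' hm (Filter.Eventually.of_forall h2), ?_⟩
  refine (norm_integral_le_of_norm_le h1 (Filter.Eventually.of_forall h2)).trans ?_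
  rw [d2_norm_eq μ (by linarith) h]
  exact integral_mul_le_Lp_mul_Lq_of_nonneg hconj.symm
    (Filter.Eventually.of_forall fun x => norm_nonneg (w x))
    (Filter.Eventually.of_forall fun x => norm_nonneg (h x)) hw.norm (Lp.memLp h).norm

private lemma d2_pair_cont [Fact (1 ≤ ENNReal.ofReal P)] (hP : 1 < P) (w : X → EuclideanSpace ℂ ι)
    (hw : MemLp w (ENNReal.ofReal (P / (P - 1))) μ) :
    Continuous fun h : Lp (EuclideanSpace ℂ ι) (ENNReal.ofReal P) μ => ∫ x, bp (w x) (h x) ∂μ := by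
  obtain ⟨C, hC⟩ : ∃ C : ℝ, C = (∫ x, ‖w x‖ ^ (P / (P - 1)) ∂μ) ^ (1 / (P / (P - 1))) := ⟨_, rfl⟩
  have hC0 : 0 ≤ C := by
    rw [hC]
    exact Real.rpow_nonneg (integral_nonneg fun x => Real.rpow_nonneg (norm_nonneg _) _) _
  refine (LipschitzWith.of_dist_le_mul (K := ⟨C, hC0⟩) fun h h' => ?_).continuous
  rw [dist_eq_norm, dist_eq_norm]
  have h1 : ∫ x, bp (w x) (h x) ∂μ - ∫ x, bp (w x) (h' x) ∂μ = ∫ x, bp (w x) ((h - h') x) ∂μ := by
    rw [← integral_sub (d2_pair_int μ hP w hw h).1 (d2_pair_int μ hP w hw h').1]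
    refine integral_congr_ae ?_
    filter_upwards [Lp.coeFn_sub h h'] with x hx
    rw [hx, Pi.sub_apply, d2_bp_sub]
  rw [h1]
  have h2 := (d2_pair_int μ hP w hw (h - h')).2
  rw [← hC] at h2
  exact h2

private lemma d2_norm_cont [Fact (1 ≤ ENNReal.ofReal P)] {r : ℝ} (hr : 1 ≤ r) (hrP : r ≤ P) :
    Continuous fun h : Lp (EuclideanSpace ℂ ι) (ENNReal.ofReal P) μ =>
      (∫ x, ‖h x‖ ^ r ∂μ) ^ (1 / r) := by
  have hr0 : 0 < r := by linarith
  have : Fact (1 ≤ ENNReal.ofReal r) := ⟨by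
    rw [← ENNReal.ofReal_one]
    exact ENNReal.ofReal_le_ofReal hr⟩
  have hmem : ∀ h : Lp (EuclideanSpace ℂ ι) (ENNReal.ofReal P) μ,
      MemLp (h : X → EuclideanSpace ℂ ι) (ENNReal.ofReal r) μ := fun h =>
    (Lp.memLp h).mono_exponent (ENNReal.ofReal_le_ofReal hrP)
  have he : ∀ h : Lp (EuclideanSpace ℂ ι) (ENNReal.ofReal P) μ,
      (∫ x, ‖h x‖ ^ r ∂μ) ^ (1 / r) = ‖(hmem h).toLp (h : X → EuclideanSpace ℂ ι)‖ := by
    intro h
    rw [d2_norm_eq μ hr0]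
    congr 1
    refine integral_congr_ae ?_
    filter_upwards [(hmem h).coeFn_toLp] with x hx
    rw [hx]
  have he' : (fun h : Lp (EuclideanSpace ℂ ι) (ENNReal.ofReal P) μ =>
      (∫ x, ‖h x‖ ^ r ∂μ) ^ (1 / r)) = fun h => ‖(hmem h).toLp (h : X → EuclideanSpace ℂ ι)‖ :=
    funext he
  rw [he']
  refine (LipschitzWith.of_dist_le_mul (K := 1) fun h h' => ?_).continuous
  rw [dist_eq_norm, dist_eq_norm, NNReal.coe_one, one_mul]
  refine (abs_norm_sub_norm_le _ _).trans ?_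
  have h1 : (hmem h).toLp (h : X → EuclideanSpace ℂ ι) - (hmem h').toLp (h' : X → EuclideanSpace ℂ ι)
      = (hmem (h - h')).toLp ((h - h' : Lp (EuclideanSpace ℂ ι) (ENNReal.ofReal P) μ) :
        X → EuclideanSpace ℂ ι) := by
    rw [← MemLp.toLp_sub]
    refine MemLp.toLp_congr _ _ (Lp.coeFn_sub h h').symm
  rw [h1, Lp.norm_toLp, Lp.norm_def]
  refine ENNReal.toReal_mono (Lp.eLpNorm_ne_top _) ?_
  exact eLpNorm_le_eLpNorm_of_exponent_le (ENNReal.ofReal_le_ofReal hrP) (Lp.aestronglyMeasurable _)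

private lemma d2_simple [Fact (1 ≤ ENNReal.ofReal P)]
    (T : Lp (EuclideanSpace ℂ ι) (ENNReal.ofReal P) μ →L[ℂ]
      Lp (EuclideanSpace ℂ ι) (ENNReal.ofReal P) μ) {s ε K : ℝ} (hs0 : 0 < s)
    (u : X → EuclideanSpace ℂ ι) (hu1 : 0 < ∫ x, ‖u x‖ ^ s ∂μ)
    (hunit : ∀ α : ℝ, ∫ x, ‖(α : ℂ) • u x‖ ^ s ∂μ = 1 →
      ∀ (g : Lp (EuclideanSpace ℂ ι) (ENNReal.ofReal P) μ) (gs : SimpleFunc X (EuclideanSpace ℂ ι)),
      (g : X → EuclideanSpace ℂ ι) =ᵐ[μ] gs →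
      ∫ x, ‖g x‖ ^ ((s / (1 + ε)) / (s / (1 + ε) - 1)) ∂μ = 1 →
      ‖∫ x, bp (((‖(α : ℂ) • u x‖ ^ ε : ℝ) : ℂ) • (α : ℂ) • u x) (T g x) ∂μ‖ ≤ K)
    {t' : ℝ} (ht' : t' = (s / (1 + ε)) / (s / (1 + ε) - 1)) (ht'0 : 0 < t')
    (g : Lp (EuclideanSpace ℂ ι) (ENNReal.ofReal P) μ) (gs : SimpleFunc X (EuclideanSpace ℂ ι))
    (hgs : (g : X → EuclideanSpace ℂ ι) =ᵐ[μ] gs)
    (hg1 : 0 < ∫ x, ‖g x‖ ^ t' ∂μ) :
    ‖∫ x, bp (((‖u x‖ ^ ε : ℝ) : ℂ) • u x) (T g x) ∂μ‖ ≤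
      K * (∫ x, ‖u x‖ ^ s ∂μ) ^ ((1 + ε) / s) * (∫ x, ‖g x‖ ^ t' ∂μ) ^ (1 / t') := by
  obtain ⟨A, hA⟩ : ∃ A : ℝ, A = ∫ x, ‖u x‖ ^ s ∂μ := ⟨_, rfl⟩
  obtain ⟨B, hB⟩ : ∃ B : ℝ, B = ∫ x, ‖g x‖ ^ t' ∂μ := ⟨_, rfl⟩
  rw [← hA] at hu1 ⊢
  rw [← hB] at hg1 ⊢
  obtain ⟨α, hα⟩ : ∃ α : ℝ, α = A ^ (-(1 / s)) := ⟨_, rfl⟩
  obtain ⟨β, hβ⟩ : ∃ β : ℝ, β = B ^ (-(1 / t')) := ⟨_, rfl⟩
  have hα0 : 0 < α := by rw [hα]; exact Real.rpow_pos_of_pos hu1 _
  have hβ0 : 0 < β := by rw [hβ]; exact Real.rpow_pos_of_pos hg1 _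
  have hαs : α ^ s * A = 1 := by
    rw [hα, ← Real.rpow_mul hu1.le]
    have : -(1 / s) * s = -1 := by field_simp
    rw [this, Real.rpow_neg_one, inv_mul_cancel₀ hu1.ne']
  have hβt : β ^ t' * B = 1 := by
    rw [hβ, ← Real.rpow_mul hg1.le]
    have : -(1 / t') * t' = -1 := by field_simp
    rw [this, Real.rpow_neg_one, inv_mul_cancel₀ hg1.ne']
  have hun : ∀ x, ‖(α : ℂ) • u x‖ = α * ‖u x‖ := by
    intro x
    rw [norm_smul, Complex.norm_real, Real.norm_of_nonneg hα0.le]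
  have hu1' : ∫ x, ‖(α : ℂ) • u x‖ ^ s ∂μ = 1 := by
    rw [← hαs, hA, ← integral_const_mul]
    refine integral_congr_ae (Filter.Eventually.of_forall fun x => ?_)
    dsimp only
    rw [hun, Real.mul_rpow hα0.le (norm_nonneg _)]
  have hgc := Lp.coeFn_smul (β : ℂ) g
  have hgs' : (((β : ℂ) • g : Lp (EuclideanSpace ℂ ι) (ENNReal.ofReal P) μ) :
      X → EuclideanSpace ℂ ι) =ᵐ[μ] gs.map (fun y => (β : ℂ) • y) := by
    filter_upwards [hgc, hgs] with x hx1 hx2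
    rw [hx1, Pi.smul_apply, hx2, SimpleFunc.map_apply]
  have hg1' : ∫ x, ‖((β : ℂ) • g : Lp (EuclideanSpace ℂ ι) (ENNReal.ofReal P) μ) x‖ ^
      ((s / (1 + ε)) / (s / (1 + ε) - 1)) ∂μ = 1 := by
    rw [← ht', ← hβt, hB, ← integral_const_mul]
    refine integral_congr_ae ?_
    filter_upwards [hgc] with x hx
    rw [hx, Pi.smul_apply, norm_smul, Complex.norm_real, Real.norm_of_nonneg hβ0.le,
      Real.mul_rpow hβ0.le (norm_nonneg _)]
  have key := hunit α hu1' ((β : ℂ) • g) _ hgs' hg1'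
  have hk : ∫ x, bp (((‖(α : ℂ) • u x‖ ^ ε : ℝ) : ℂ) • (α : ℂ) • u x)
      (T ((β : ℂ) • g) x) ∂μ =
      ((α ^ (1 + ε) * β : ℝ) : ℂ) * ∫ x, bp (((‖u x‖ ^ ε : ℝ) : ℂ) • u x) (T g x) ∂μ := by
    rw [← integral_const_mul]
    refine integral_congr_ae ?_
    have h1 : T ((β : ℂ) • g) = (β : ℂ) • T g := map_smul T _ _
    rw [h1]
    filter_upwards [Lp.coeFn_smul (β : ℂ) (T g)] with x hx
    rw [hx, Pi.smul_apply, hun, Real.mul_rpow hα0.le (norm_nonneg _), d2_bp_smul', smul_smul,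
      d2_bp_smul, d2_bp_smul, Real.rpow_add hα0, Real.rpow_one]
    push_cast
    ring
  rw [hk, norm_mul, Complex.norm_real, Real.norm_of_nonneg (by positivity)] at key
  have h2 : 0 < α ^ (1 + ε) * β := by positivity
  have h3 : (α ^ (1 + ε) * β) * (A ^ ((1 + ε) / s) * B ^ (1 / t')) = 1 := by
    rw [hα, hβ, ← Real.rpow_mul hu1.le]
    have h4 : A ^ (-(1 / s) * (1 + ε)) * A ^ ((1 + ε) / s) = 1 := by
      rw [← Real.rpow_add hu1]
      have : -(1 / s) * (1 + ε) + (1 + ε) / s = 0 := by ring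
      rw [this, Real.rpow_zero]
    have h5 : B ^ (-(1 / t')) * B ^ (1 / t') = 1 := by
      rw [← Real.rpow_add hg1]
      have : -(1 / t') + 1 / t' = 0 := by ring
      rw [this, Real.rpow_zero]
    calc A ^ (-(1 / s) * (1 + ε)) * B ^ (-(1 / t')) * (A ^ ((1 + ε) / s) * B ^ (1 / t'))
        = (A ^ (-(1 / s) * (1 + ε)) * A ^ ((1 + ε) / s)) * (B ^ (-(1 / t')) * B ^ (1 / t')) := by ring
      _ = 1 := by rw [h4, h5, mul_one]
  obtain ⟨N, hN⟩ : ∃ N : ℝ, N = ‖∫ x, bp (((‖u x‖ ^ ε : ℝ) : ℂ) • u x) (T g x) ∂μ‖ := ⟨_, rfl⟩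
  rw [← hN] at key ⊢
  have h6 : 0 < A ^ ((1 + ε) / s) * B ^ (1 / t') :=
    mul_pos (Real.rpow_pos_of_pos hu1 _) (Real.rpow_pos_of_pos hg1 _)
  calc N = (α ^ (1 + ε) * β * N) * (A ^ ((1 + ε) / s) * B ^ (1 / t')) := by
        linear_combination (-N) * h3
    _ ≤ K * (A ^ ((1 + ε) / s) * B ^ (1 / t')) :=
        mul_le_mul_of_nonneg_right key h6.le
    _ = K * A ^ ((1 + ε) / s) * B ^ (1 / t') := by ring


private lemma d2_gen (hP : 2 < P) [Fact (1 ≤ ENNReal.ofReal P)]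
    (T : Lp (EuclideanSpace ℂ ι) (ENNReal.ofReal P) μ →L[ℂ]
      Lp (EuclideanSpace ℂ ι) (ENNReal.ofReal P) μ) {s ε K : ℝ} (hs0 : 0 < s) (hε : 0 ≤ ε) (hK0 : 0 ≤ K)
    (hs1 : P / (P - 1) < s / (1 + ε))
    (u : X → EuclideanSpace ℂ ι) (hu : MemLp u (ENNReal.ofReal s) μ)
    (hunit : ∀ α : ℝ, ∫ x, ‖(α : ℂ) • u x‖ ^ s ∂μ = 1 →
      ∀ (g : Lp (EuclideanSpace ℂ ι) (ENNReal.ofReal P) μ) (gs : SimpleFunc X (EuclideanSpace ℂ ι)),
      (g : X → EuclideanSpace ℂ ι) =ᵐ[μ] gs →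
      ∫ x, ‖g x‖ ^ ((s / (1 + ε)) / (s / (1 + ε) - 1)) ∂μ = 1 →
      ‖∫ x, bp (((‖(α : ℂ) • u x‖ ^ ε : ℝ) : ℂ) • (α : ℂ) • u x) (T g x) ∂μ‖ ≤ K)
    (g : Lp (EuclideanSpace ℂ ι) (ENNReal.ofReal P) μ) :
    ‖∫ x, bp (((‖u x‖ ^ ε : ℝ) : ℂ) • u x) (T g x) ∂μ‖
      ≤ K * (∫ x, ‖u x‖ ^ s ∂μ) ^ ((1 + ε) / s)
        * (∫ x, ‖g x‖ ^ ((s / (1 + ε)) / (s / (1 + ε) - 1)) ∂μ) ^ ((s / (1 + ε) - 1) / (s / (1 + ε))) := by
  have hP0 : 0 < P := by linarith
  have hP1 : 0 < P - 1 := by linarith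
  have h1ε : 0 < 1 + ε := by linarith
  have hPc : 1 < P / (P - 1) := by rw [one_lt_div hP1]; linarith
  obtain ⟨t, ht⟩ : ∃ t : ℝ, t = s / (1 + ε) := ⟨_, rfl⟩
  obtain ⟨t', ht'⟩ : ∃ t' : ℝ, t' = (s / (1 + ε)) / (s / (1 + ε) - 1) := ⟨_, rfl⟩
  have ht1 : 1 < t := by rw [ht]; exact hPc.trans hs1
  have hst : s = t * (1 + ε) := by rw [ht]; field_simp
  have ht'' : t' = t / (t - 1) := by rw [ht', ← ht]
  have ht'0 : 0 < t' := by rw [ht'']; exact div_pos (by linarith) (by linarith)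
  have ht'1 : 1 ≤ t' := by
    rw [ht'', one_le_div (by linarith)]
    linarith
  have ht'P : t' ≤ P := by
    rw [ht'', div_le_iff₀ (by linarith)]
    rw [← ht, div_lt_iff₀ hP1] at hs1
    nlinarith
  have hexp : (s / (1 + ε) - 1) / (s / (1 + ε)) = 1 / t' := by
    rw [ht', one_div_div]
  rw [hexp, ← ht']
  have hA0 : 0 ≤ ∫ x, ‖u x‖ ^ s ∂μ := integral_nonneg fun x => Real.rpow_nonneg (norm_nonneg _) _
  have hB0 : ∀ g : Lp (EuclideanSpace ℂ ι) (ENNReal.ofReal P) μ, 0 ≤ ∫ x, ‖g x‖ ^ t' ∂μ := fun g =>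
    integral_nonneg fun x => Real.rpow_nonneg (norm_nonneg _) _
  have hRHS : ∀ g : Lp (EuclideanSpace ℂ ι) (ENNReal.ofReal P) μ,
      0 ≤ K * (∫ x, ‖u x‖ ^ s ∂μ) ^ ((1 + ε) / s)
        * (∫ x, ‖g x‖ ^ t' ∂μ) ^ (1 / t') := fun g =>
    mul_nonneg (mul_nonneg hK0 (Real.rpow_nonneg hA0 _)) (Real.rpow_nonneg (hB0 g) _)
  have huint : Integrable (fun x => ‖u x‖ ^ s) μ := by
    have := hu.integrable_norm_rpow (by simpa using hs0) ENNReal.ofReal_ne_top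
    rwa [ENNReal.toReal_ofReal hs0.le] at this
  rcases hA0.eq_or_lt with hA | hA
  · -- u = 0
    have h1 : (fun x => ‖u x‖ ^ s) =ᵐ[μ] 0 :=
      (integral_eq_zero_iff_of_nonneg (fun x => Real.rpow_nonneg (norm_nonneg _) _) huint).1 hA.symm
    have h2 : ∫ x, bp (((‖u x‖ ^ ε : ℝ) : ℂ) • u x) (T g x) ∂μ = 0 := by
      rw [← integral_zero X ℂ (μ := μ)]
      refine integral_congr_ae ?_
      filter_upwards [h1] with x hx
      have h3 : ‖u x‖ = 0 := by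
        have h4 : ‖u x‖ ^ s = 0 := hx
        rcases (Real.rpow_eq_zero_iff_of_nonneg (norm_nonneg _)).1 h4 with h5
        exact h5.1
      rw [norm_eq_zero.1 h3, smul_zero, d2_bp_zero]
    rw [h2, norm_zero]
    exact hRHS g
  · have hw : MemLp (fun x => ((‖u x‖ ^ ε : ℝ) : ℂ) • u x) (ENNReal.ofReal (P / (P - 1))) μ := by
      have hwt : MemLp (fun x => ((‖u x‖ ^ ε : ℝ) : ℂ) • u x) (ENNReal.ofReal t) μ := by
        have h1 := hu.norm_rpow_div (ENNReal.ofReal (1 + ε))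
        rw [← ENNReal.ofReal_div_of_pos h1ε, ENNReal.toReal_ofReal h1ε.le, ← ht] at h1
        refine h1.of_le ?_ (Filter.Eventually.of_forall fun x => ?_)
        · have hm : AEStronglyMeasurable (fun x => ((‖u x‖ ^ ε : ℝ) : ℂ)) μ :=
            (Complex.measurable_ofReal.comp_aemeasurable
              (hu.1.norm.aemeasurable.pow_const ε)).aestronglyMeasurable
          exact hm.smul hu.1
        · rw [norm_smul, Complex.norm_real, Real.norm_of_nonneg (Real.rpow_nonneg (norm_nonneg _) _),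
            Real.norm_of_nonneg (Real.rpow_nonneg (norm_nonneg _) _)]
          rcases eq_or_ne (u x) 0 with h0 | h0
          · rw [h0, norm_zero, mul_zero]
            exact Real.rpow_nonneg le_rfl _
          · have hp : 0 < ‖u x‖ := norm_pos_iff.2 h0
            rw [Real.rpow_add hp, Real.rpow_one, mul_comm]
      exact hwt.mono_exponent (ENNReal.ofReal_le_ofReal (by rw [ht]; exact hs1.le))
    have hcont1 : Continuous fun g : Lp (EuclideanSpace ℂ ι) (ENNReal.ofReal P) μ =>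
        ‖∫ x, bp (((‖u x‖ ^ ε : ℝ) : ℂ) • u x) (T g x) ∂μ‖ :=
      ((d2_pair_cont μ (by linarith) _ hw).comp T.continuous).norm
    have hcont2 : Continuous fun g : Lp (EuclideanSpace ℂ ι) (ENNReal.ofReal P) μ =>
        K * (∫ x, ‖u x‖ ^ s ∂μ) ^ ((1 + ε) / s)
        * (∫ x, ‖g x‖ ^ t' ∂μ) ^ (1 / t') :=
      continuous_const.mul (d2_norm_cont μ ht'1 ht'P)
    refine (Lp.simpleFunc.denseRange (E := EuclideanSpace ℂ ι) (μ := μ) (p := ENNReal.ofReal P)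
      ENNReal.ofReal_ne_top).induction_on g (isClosed_le hcont1 hcont2) fun f => ?_
    have hgs := (Lp.simpleFunc.toSimpleFunc_eq_toFun f).symm
    rcases (hB0 (f : Lp (EuclideanSpace ℂ ι) (ENNReal.ofReal P) μ)).eq_or_lt with hB | hB
    · have hgint : Integrable (fun x => ‖(f : Lp (EuclideanSpace ℂ ι) (ENNReal.ofReal P) μ) x‖ ^ t') μ := by
        have := ((Lp.memLp (f : Lp (EuclideanSpace ℂ ι) (ENNReal.ofReal P) μ)).mono_exponent
          (ENNReal.ofReal_le_ofReal ht'P)).integrable_norm_rpow (by simpa using ht'0)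
          ENNReal.ofReal_ne_top
        rwa [ENNReal.toReal_ofReal ht'0.le] at this
      have h1 := (integral_eq_zero_iff_of_nonneg
        (fun x => Real.rpow_nonneg (norm_nonneg _) _) hgint).1 hB.symm
      have h2 : (f : Lp (EuclideanSpace ℂ ι) (ENNReal.ofReal P) μ) = 0 := by
        refine Lp.ext ?_
        filter_upwards [h1, Lp.coeFn_zero (EuclideanSpace ℂ ι) (ENNReal.ofReal P) μ] with x hx hx0
        have h3 : ‖(f : Lp (EuclideanSpace ℂ ι) (ENNReal.ofReal P) μ) x‖ = 0 := by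
          have h4 : ‖(f : Lp (EuclideanSpace ℂ ι) (ENNReal.ofReal P) μ) x‖ ^ t' = 0 := hx
          exact ((Real.rpow_eq_zero_iff_of_nonneg (norm_nonneg _)).1 h4).1
        rw [hx0, Pi.zero_apply]
        exact norm_eq_zero.1 h3
      have h3 : ∫ x, bp (((‖u x‖ ^ ε : ℝ) : ℂ) • u x)
          (T (f : Lp (EuclideanSpace ℂ ι) (ENNReal.ofReal P) μ) x) ∂μ = 0 := by
        rw [h2, map_zero, ← integral_zero X ℂ (μ := μ)]
        refine integral_congr_ae ?_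
        filter_upwards [Lp.coeFn_zero (EuclideanSpace ℂ ι) (ENNReal.ofReal P) μ] with x hx0
        rw [hx0, Pi.zero_apply, d2_bp_zero']
      rw [h3, norm_zero]
      exact hRHS _
    · exact d2_simple μ T hs0 u hA hunit ht' ht'0 _ _ hgs hB

end

/-- PROOF: `exists_family` with `ε = 0` for normalised `w` and simple `g` (exponent of `M` at most 1), scaling,
and density of simple functions in `L^P` (both sides are continuous in `g ∈ L^P`, as `t' ≤ P` and `T g ∈ L^P`,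
`w ∈ L^t`). The trivial cases `∫ ‖w‖^t = 0`, `∫ ‖g‖^t' = 0` separately. -/
theorem pair_le {X : Type*} [MeasurableSpace X] (μ : Measure X) [IsProbabilityMeasure μ]
    {ι : Type*} [Fintype ι] {P M : ℝ} (hP : 2 < P) [Fact (1 ≤ ENNReal.ofReal P)] (hM : 1 ≤ M)
    (T : Lp (EuclideanSpace ℂ ι) (ENNReal.ofReal P) μ →L[ℂ]
      Lp (EuclideanSpace ℂ ι) (ENNReal.ofReal P) μ) (hT : IsProj μ P M T)
    {t : ℝ} (ht1 : P / (P - 1) < t) (ht2 : t < P)
    (w : X → EuclideanSpace ℂ ι) (hw : MemLp w (ENNReal.ofReal t) μ)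
    (g : Lp (EuclideanSpace ℂ ι) (ENNReal.ofReal P) μ) :
    ‖∫ x, bp (w x) (T g x) ∂μ‖
      ≤ M * (∫ x, ‖w x‖ ^ t ∂μ) ^ (1 / t) * (∫ x, ‖g x‖ ^ (t / (t - 1)) ∂μ) ^ ((t - 1) / t) := by
  have hP0 : 0 < P := by linarith
  have hP1 : 0 < P - 1 := by linarith
  have hPc : 1 < P / (P - 1) := by rw [one_lt_div hP1]; linarith
  have ht0 : 0 < t := by linarith
  have hs1 : P / (P - 1) < t / (1 + 0) := by rwa [add_zero, div_one]
  have key := d2_gen μ hP T (s := t) (ε := 0) (K := M) ht0 le_rfl (by linarith) hs1 w hw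
    (fun α hα g gs hgs hg1 => ?_) g
  · simpa only [Real.rpow_zero, Complex.ofReal_one, one_smul, add_zero, div_one] using key
  · obtain ⟨F, g0, hFd, hF0, hFε, hFb⟩ :=
      exists_family μ hP hM T hT le_rfl hs1 ht2 _ (hw.const_smul (α : ℂ)) hα g gs hgs hg1
    have h1 : ‖F ((0 : ℝ) : ℂ)‖ ≤ M := by
      have h2 : (1 + (((0 : ℝ) : ℂ)).re) / t = 1 / t := by simp
      have hPt : 1 / P < 1 / t := one_div_lt_one_div_of_lt ht0 ht2
      have hPt2 : 1 / t < 1 - 1 / P := by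
        have h3 : 1 - 1 / P = 1 / (P / (P - 1)) := by field_simp
        rw [h3]
        exact one_div_lt_one_div_of_lt (by linarith) ht1
      have hd0 : 0 < 1 / 2 - 1 / P := by
        have : 1 / P < 1 / 2 := one_div_lt_one_div_of_lt (by norm_num) hP
        linarith
      have h4 : |1 / t - 1 / 2| / (1 / 2 - 1 / P) ≤ 1 := by
        rw [div_le_one hd0, abs_le]
        constructor <;> linarith
      refine (hFb _ ⟨?_, ?_⟩).trans ?_
      · have : t / P < 1 := by rwa [div_lt_one hP0]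
        simp only [Complex.ofReal_re]
        linarith
      · have : 1 < t * (P - 1) / P := by
          rw [lt_div_iff₀ hP0]
          rw [div_lt_iff₀ hP1] at ht1
          linarith
        simp only [Complex.ofReal_re]
        linarith
      · rw [h2]
        calc M ^ (|1 / t - 1 / 2| / (1 / 2 - 1 / P)) ≤ M ^ (1 : ℝ) :=
              Real.rpow_le_rpow_of_exponent_le hM h4
          _ = M := Real.rpow_one M
    rw [hFε] at h1
    exact h1

/-- PROOF: normalise `u`, `g`; for simple `g` take `F` from `exists_family`; `F 0 = 0` by `hcl`; on the disc of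
radius `ρ = min (1 - s (rs-1)/rs) (s/rs - 1)` around `0` one has `|(1+x)/s - 1/2| ≤ 1/rs - 1/2`, so
`|F| ≤ M^θ`, `θ = (1/rs - 1/2)/(1/2 - 1/P)`; Schwarz lemma (`Complex.dist_le_div_mul_dist_of_mapsTo_ball` or
the closed-ball version): `|F ε| ≤ ε M^θ / ρ`.  Then density of simple functions. -/
theorem stab {X : Type*} [MeasurableSpace X] (μ : Measure X) [IsProbabilityMeasure μ]
    {ι : Type*} [Fintype ι] {P M : ℝ} (hP : 2 < P) [Fact (1 ≤ ENNReal.ofReal P)] (hM : 1 ≤ M)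
    (T : Lp (EuclideanSpace ℂ ι) (ENNReal.ofReal P) μ →L[ℂ]
      Lp (EuclideanSpace ℂ ι) (ENNReal.ofReal P) μ) (hT : IsProj μ P M T)
    {s ε rs : ℝ} (hrs : P / (P - 1) < rs) (hrs2 : rs < 2) (hε : 0 < ε) (hs : s < rs / (rs - 1))
    (ht : rs < s / (1 + ε)) (hε2 : ε < min (1 - s * (rs - 1) / rs) (s / rs - 1))
    (u : X → EuclideanSpace ℂ ι) (hu : MemLp u (ENNReal.ofReal s) μ)
    (hcl : ∀ g : Lp (EuclideanSpace ℂ ι) (ENNReal.ofReal P) μ, ∫ x, bp (u x) (T g x) ∂μ = 0)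
    (g : Lp (EuclideanSpace ℂ ι) (ENNReal.ofReal P) μ) :
    ‖∫ x, bp (((‖u x‖ ^ ε : ℝ) : ℂ) • u x) (T g x) ∂μ‖
      ≤ ε * M ^ ((1 / rs - 1 / 2) / (1 / 2 - 1 / P)) / min (1 - s * (rs - 1) / rs) (s / rs - 1)
        * (∫ x, ‖u x‖ ^ s ∂μ) ^ ((1 + ε) / s)
        * (∫ x, ‖g x‖ ^ ((s / (1 + ε)) / (s / (1 + ε) - 1)) ∂μ) ^ ((s / (1 + ε) - 1) / (s / (1 + ε))) := by
  have hP0 : 0 < P := by linarith
  have hP1 : 0 < P - 1 := by linarith
  have h1ε : 0 < 1 + ε := by linarith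
  have hPc : 1 < P / (P - 1) := by rw [one_lt_div hP1]; linarith
  have hrs1 : 1 < rs := hPc.trans hrs
  have hrs0 : 0 < rs := by linarith
  have hst : 0 < s := by
    have h1 : 0 < s / (1 + ε) := by linarith
    have h2 : s = s / (1 + ε) * (1 + ε) := by field_simp
    rw [h2]
    exact mul_pos h1 h1ε
  obtain ⟨ρ, hρ⟩ : ∃ ρ : ℝ, ρ = min (1 - s * (rs - 1) / rs) (s / rs - 1) := ⟨_, rfl⟩
  rw [← hρ] at hε2 ⊢
  have hρ1 : ρ ≤ 1 - s * (rs - 1) / rs := by rw [hρ]; exact min_le_left _ _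
  have hρ2 : ρ ≤ s / rs - 1 := by rw [hρ]; exact min_le_right _ _
  have hρ0 : 0 < ρ := hε.trans hε2
  have hs1 : P / (P - 1) < s / (1 + ε) := hrs.trans ht
  have hinv : 1 / rs < 1 - 1 / P := by
    have h3 : 1 - 1 / P = 1 / (P / (P - 1)) := by field_simp
    rw [h3]
    exact one_div_lt_one_div_of_lt (by linarith) hrs
  have e1 : s * (rs - 1) / rs = s * (1 - 1 / rs) := by field_simp
  have e2 : s / rs = s * (1 / rs) := by ring
  have e3 : s / P = s * (1 / P) := by ring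
  have e4 : s * (P - 1) / P = s * (1 - 1 / P) := by field_simp
  have hl1 : s / P ≤ s * (rs - 1) / rs := by
    rw [e1, e3]
    exact mul_le_mul_of_nonneg_left (by linarith) hst.le
  have hl2 : s / rs ≤ s * (P - 1) / P := by
    rw [e2, e4]
    exact mul_le_mul_of_nonneg_left (by linarith) hst.le
  have hs2 : s < P := by
    have : s / P < 1 := by linarith
    rwa [div_lt_one hP0] at this
  obtain ⟨θ, hθ⟩ : ∃ θ : ℝ, θ = (1 / rs - 1 / 2) / (1 / 2 - 1 / P) := ⟨_, rfl⟩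
  rw [← hθ]
  have hM0 : 0 < M ^ θ := Real.rpow_pos_of_pos (by linarith) _
  have hd0 : 0 < 1 / 2 - 1 / P := by
    have : 1 / P < 1 / 2 := one_div_lt_one_div_of_lt (by norm_num) hP
    linarith
  refine d2_gen μ hP T hst hε.le (by positivity) hs1 u hu (fun α hα g gs hgs hg1 => ?_) g
  obtain ⟨F, g0, hFd, hF0, hFε, hFb⟩ :=
    exists_family μ hP hM T hT hε.le hs1 hs2 _ (hu.const_smul (α : ℂ)) hα g gs hgs hg1
  have hF0' : F 0 = 0 := by
    rw [hF0]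
    have h1 : ∫ x, bp ((α : ℂ) • u x) (T g0 x) ∂μ = 0 := by
      simp only [d2_bp_smul]
      rw [integral_const_mul, hcl g0, mul_zero]
    exact h1
  have hmem : ∀ w : ℂ, ‖w‖ < 1 → ((ρ : ℂ) * w) ∈
      Complex.HadamardThreeLines.verticalStrip (s / P - 1) (s * (P - 1) / P - 1) ∧
      |(1 + ((ρ : ℂ) * w).re) / s - 1 / 2| ≤ 1 / rs - 1 / 2 := by
    intro w hw
    have h1 : |w.re| < 1 := (Complex.abs_re_le_norm w).trans_lt hw
    have h2 := abs_lt.1 h1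
    have h3 : ((ρ : ℂ) * w).re = ρ * w.re := by rw [Complex.re_ofReal_mul]
    have h4 : -ρ < ρ * w.re := by nlinarith [h2.1]
    have h5 : ρ * w.re < ρ := by nlinarith [h2.2]
    refine ⟨⟨?_, ?_⟩, ?_⟩
    · show s / P - 1 < _
      rw [h3]; linarith
    · show _ < s * (P - 1) / P - 1
      rw [h3]; linarith
    · rw [h3, abs_le]
      constructor
      · have h6 : 1 - 1 / rs ≤ (1 + ρ * w.re) / s := by
          rw [le_div_iff₀ hst, mul_comm, ← e1]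
          linarith
        linarith
      · have h6 : (1 + ρ * w.re) / s ≤ 1 / rs := by
          have e5 : 1 / rs * s = s / rs := by ring
          rw [div_le_iff₀ hst, e5]
          linarith
        linarith
  let G : ℂ → ℂ := fun w => F ((ρ : ℂ) * w) * ((M ^ θ)⁻¹ : ℝ)
  have hGd : DifferentiableOn ℂ G (Metric.ball 0 1) := by
    refine DifferentiableOn.mul ?_ (differentiableOn_const _)
    refine hFd.comp ((differentiableOn_const _).mul differentiableOn_id) fun w hw => ?_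
    exact (hmem w (by simpa using hw)).1
  have hGb : Set.MapsTo G (Metric.ball 0 1) (Metric.closedBall 0 1) := by
    intro w hw
    have hw' : ‖w‖ < 1 := by simpa using hw
    rw [mem_closedBall_zero_iff]
    show ‖F ((ρ : ℂ) * w) * ((M ^ θ)⁻¹ : ℝ)‖ ≤ 1
    rw [norm_mul, Complex.norm_real, Real.norm_of_nonneg (inv_nonneg.2 hM0.le), ← div_eq_mul_inv,
      div_le_one hM0]
    refine (hFb _ (hmem w hw').1).trans ?_
    refine Real.rpow_le_rpow_of_exponent_le hM ?_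
    rw [hθ]
    exact div_le_div_of_nonneg_right (hmem w hw').2 hd0.le
  have hG0 : G 0 = 0 := by
    show F ((ρ : ℂ) * 0) * _ = 0
    rw [mul_zero, hF0', zero_mul]
  have hw0 : ‖((ε / ρ : ℝ) : ℂ)‖ = ε / ρ := by
    rw [Complex.norm_real, Real.norm_of_nonneg (div_nonneg hε.le hρ0.le)]
  have key := Complex.norm_le_norm_of_mapsTo_ball hGd hGb hG0 (z := ((ε / ρ : ℝ) : ℂ))
    (by rw [hw0, div_lt_one hρ0]; exact hε2)
  have hGw : G ((ε / ρ : ℝ) : ℂ) = F (ε : ℂ) * ((M ^ θ)⁻¹ : ℝ) := by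
    show F ((ρ : ℂ) * ((ε / ρ : ℝ) : ℂ)) * _ = _
    have h1 : (ρ : ℂ) * ((ε / ρ : ℝ) : ℂ) = (ε : ℂ) := by
      rw [← Complex.ofReal_mul, mul_div_cancel₀ _ hρ0.ne']
    rw [h1]
  rw [hGw, hw0, norm_mul, Complex.norm_real, Real.norm_of_nonneg (inv_nonneg.2 hM0.le),
    ← div_eq_mul_inv, div_le_iff₀ hM0, hFε] at key
  refine key.trans (le_of_eq ?_)
  ring

end Pool.Agent.Lib.QR
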