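import Mathlib

/-!
D2s: a Schwarz lemma on a strip with a log-convex bound.
-/

set_option autoImplicit false

open Metric Set

namespace Pool.Agent.Lib.QR

private theorem d2s_re (b : ℝ) (hb1 : -1 < b) (hb2 : b < 1) (w : ℂ) (hw : ‖w‖ < 1) :
    0 < (1 - w.re) + b * (w.re - ‖w‖ ^ 2) ∧ 0 < (1 + w.re) + b * (w.re + ‖w‖ ^ 2) := by
  have h1 : ‖w‖ ^ 2 = w.re ^ 2 + w.im ^ 2 := by
    rw [← Complex.normSq_eq_norm_sq, Complex.normSq_apply]; ring
  have h2 : ‖w‖ ^ 2 < 1 := by nlinarith [norm_nonneg w]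
  have h3 : 0 ≤ w.im ^ 2 := sq_nonneg _
  have h4 : w.re < 1 := (Complex.re_le_norm w).trans_lt hw
  have h5 : -1 < w.re := by
    have := (abs_le.1 (Complex.abs_re_le_norm w)).1
    linarith
  set r := ‖w‖ ^ 2 with hr
  have e1 : (1 - w.re) + b * (w.re - r) = (1 + b) / 2 * (1 - r)
      + (1 - b) / 2 * ((1 - w.re) ^ 2 + w.im ^ 2) := by
    rw [h1]; ring
  have e2 : (1 + w.re) + b * (w.re + r) = (1 - b) / 2 * (1 - r)
      + (1 + b) / 2 * ((1 + w.re) ^ 2 + w.im ^ 2) := by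
    rw [h1]; ring
  have h6 : 0 < (1 - w.re) ^ 2 + w.im ^ 2 := by
    have : 0 < (1 - w.re) ^ 2 := by apply pow_pos; linarith
    linarith
  have h7 : 0 < (1 + w.re) ^ 2 + w.im ^ 2 := by
    have : 0 < (1 + w.re) ^ 2 := by apply pow_pos; linarith
    linarith
  have h8 : 0 < (1 + b) / 2 := by linarith
  have h9 : 0 < (1 - b) / 2 := by linarith
  have h10 : 0 < 1 - r := by linarith
  constructor
  · rw [e1]; positivity
  · rw [e2]; positivity

/-- Schwarz lemma for functions on a strip with a bound `M ^ θ (re z)`, `θ` convex. -/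
theorem schwarz_strip (F : ℂ → ℂ) (M : ℝ) (hM : 1 ≤ M) (θ : ℝ → ℝ) (lam del ε α β : ℝ)
    (hlam : 0 < lam) (hε : 0 < ε) (hdel : ε < del) (hα : α ≤ -lam) (hβ : del ≤ β)
    (hF : DifferentiableOn ℂ F (Complex.HadamardThreeLines.verticalStrip α β))
    (hb : ∀ z ∈ Complex.HadamardThreeLines.verticalStrip α β, ‖F z‖ ≤ M ^ θ z.re)
    (hconv : ∀ x : ℝ, -lam < x → x < del →
      θ x ≤ θ (-lam) + (θ del - θ (-lam)) * ((x + lam) / (lam + del))) (h0 : F 0 = 0) :
    ‖F (ε : ℂ)‖ ≤ M ^ (θ (-lam) + (θ del - θ (-lam)) * ((ε + lam) / (lam + del)))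
      * (ε * (lam + del) / (2 * del * lam - ε * (lam - del))) := by
  have hM0 : 0 < M := by linarith
  have hd0 : 0 < del := by linarith
  have hs : 0 < lam + del := by linarith
  obtain ⟨b, hbd⟩ : ∃ b : ℝ, b = (lam - del) / (lam + del) := ⟨_, rfl⟩
  obtain ⟨a, had⟩ : ∃ a : ℝ, a = 2 * del * lam / (lam + del) := ⟨_, rfl⟩
  have hb1 : -1 < b := by rw [hbd, lt_div_iff₀ hs]; linarith
  have hb2 : b < 1 := by rw [hbd, div_lt_iff₀ hs]; linarith
  have ha1 : a = del * (1 + b) := by rw [had, hbd]; field_simp; ring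
  have ha2 : a = lam * (1 - b) := by rw [had, hbd]; field_simp; ring
  have ha0 : 0 < a := by rw [had]; positivity
  obtain ⟨B, hB⟩ : ∃ B : ℝ, B = (θ del - θ (-lam)) / (lam + del) := ⟨_, rfl⟩
  obtain ⟨A, hA⟩ : ∃ A : ℝ, A = θ (-lam) + B * lam := ⟨_, rfl⟩
  have hAB : ∀ x : ℝ, θ (-lam) + (θ del - θ (-lam)) * ((x + lam) / (lam + del)) = A + B * x := by
    intro x; rw [hA, hB]; field_simp; ring
  -- the Moebius map
  let φ : ℂ → ℂ := fun w => (a : ℂ) * w / (1 + (b : ℂ) * w)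
  have hden : ∀ w : ℂ, ‖w‖ < 1 → (1 + (b : ℂ) * w) ≠ 0 := by
    intro w hw h
    have h1 : ‖(b : ℂ) * w‖ = 1 := by
      have : (b : ℂ) * w = -1 := by linear_combination h
      rw [this]; simp
    have h2 : ‖(b : ℂ) * w‖ < 1 := by
      rw [norm_mul, Complex.norm_real, Real.norm_eq_abs]
      have : |b| < 1 := abs_lt.2 ⟨hb1, hb2⟩
      nlinarith [norm_nonneg w, abs_nonneg b]
    linarith
  have hφre : ∀ w : ℂ, ‖w‖ < 1 → -lam < (φ w).re ∧ (φ w).re < del := by
    intro w hw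
    obtain ⟨k1, k2⟩ := d2s_re b hb1 hb2 w hw
    have hD := hden w hw
    have hN : 0 < Complex.normSq (1 + (b : ℂ) * w) := Complex.normSq_pos.2 hD
    have h1 : ‖w‖ ^ 2 = w.re ^ 2 + w.im ^ 2 := by
      rw [← Complex.normSq_eq_norm_sq, Complex.normSq_apply]; ring
    have hNe : Complex.normSq (1 + (b : ℂ) * w) = 1 + 2 * b * w.re + b ^ 2 * ‖w‖ ^ 2 := by
      rw [h1, Complex.normSq_apply]
      simp
      ring
    have hre : (φ w).re = a * (w.re + b * ‖w‖ ^ 2) / Complex.normSq (1 + (b : ℂ) * w) := by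
      show ((a : ℂ) * w / (1 + (b : ℂ) * w)).re = _
      rw [Complex.div_re, h1]
      simp
      ring
    rw [hre]
    constructor
    · rw [lt_div_iff₀ hN, hNe, ha2]
      nlinarith
    · rw [div_lt_iff₀ hN, hNe, ha1]
      nlinarith
  have hφmem : ∀ w ∈ ball (0 : ℂ) 1, φ w ∈ Complex.HadamardThreeLines.verticalStrip α β := by
    intro w hw
    have hw' : ‖w‖ < 1 := by simpa using hw
    obtain ⟨h1, h2⟩ := hφre w hw'
    exact ⟨by linarith, by linarith⟩
  have hφd : DifferentiableOn ℂ φ (ball 0 1) := by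
    intro w hw
    have hw' : ‖w‖ < 1 := by simpa using hw
    refine DifferentiableAt.differentiableWithinAt ?_
    refine DifferentiableAt.div ?_ ?_ (hden w hw')
    · exact (differentiableAt_const _).mul differentiableAt_id
    · exact (differentiableAt_const _).add ((differentiableAt_const _).mul differentiableAt_id)
  let G : ℂ → ℂ := fun w => F (φ w) * Complex.exp (-(Real.log M : ℂ) * ((A : ℂ) + (B : ℂ) * φ w))
  have hGd : DifferentiableOn ℂ G (ball 0 1) := by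
    refine (hF.comp hφd hφmem).mul ?_
    refine DifferentiableOn.cexp ?_
    refine (differentiableOn_const _).mul ?_
    exact (differentiableOn_const _).add ((differentiableOn_const _).mul hφd)
  have hexp : ∀ z : ℂ, ‖Complex.exp (-(Real.log M : ℂ) * ((A : ℂ) + (B : ℂ) * z))‖
      = (M ^ (A + B * z.re))⁻¹ := by
    intro z
    rw [Complex.norm_exp, ← Real.rpow_neg hM0.le, Real.rpow_def_of_pos hM0]
    congr 1
    simp
    ring
  have hGb : MapsTo G (ball 0 1) (closedBall 0 1) := by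
    intro w hw
    have hw' : ‖w‖ < 1 := by simpa using hw
    obtain ⟨h1, h2⟩ := hφre w hw'
    rw [mem_closedBall_zero_iff]
    show ‖F (φ w) * Complex.exp _‖ ≤ 1
    rw [norm_mul, hexp]
    have h3 := hb (φ w) (hφmem w hw)
    have h4 : M ^ θ (φ w).re ≤ M ^ (A + B * (φ w).re) := by
      apply Real.rpow_le_rpow_of_exponent_le hM
      rw [← hAB]
      exact hconv _ h1 h2
    have h5 : 0 < M ^ (A + B * (φ w).re) := Real.rpow_pos_of_pos hM0 _
    rw [← div_eq_mul_inv, div_le_one h5]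
    exact h3.trans h4
  have hG0 : G 0 = 0 := by
    show F (φ 0) * _ = 0
    have : φ 0 = 0 := by show (a : ℂ) * 0 / _ = 0; simp
    rw [this, h0, zero_mul]
  -- the point
  have hden2 : 0 < a - b * ε := by
    rw [ha1]; nlinarith
  obtain ⟨w0, hw0⟩ : ∃ w0 : ℝ, w0 = ε / (a - b * ε) := ⟨_, rfl⟩
  have hw0p : 0 < w0 := by rw [hw0]; positivity
  have hw01 : w0 < 1 := by
    rw [hw0, div_lt_one hden2, ha1]; nlinarith
  have hw0n : ‖(w0 : ℂ)‖ = w0 := by rw [Complex.norm_real, Real.norm_of_nonneg hw0p.le]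
  have hφ0 : φ (w0 : ℂ) = (ε : ℂ) := by
    show (a : ℂ) * (w0 : ℂ) / (1 + (b : ℂ) * (w0 : ℂ)) = (ε : ℂ)
    have h1 : a * w0 / (1 + b * w0) = ε := by
      have e1 : w0 * (a - b * ε) = ε := by rw [hw0, div_mul_cancel₀ _ hden2.ne']
      have e2 : 1 + b * w0 ≠ 0 := by
        have h2 : -1 < b * w0 := by
          have := mul_lt_mul_of_pos_right hb1 hw0p
          nlinarith
        linarith
      rw [div_eq_iff e2]
      linarith
    rw [← h1]
    push_cast
    rfl
  have key := Complex.norm_le_norm_of_mapsTo_ball hGd hGb hG0 (z := (w0 : ℂ)) (by rw [hw0n]; exact hw01)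
  have hGw : G (w0 : ℂ) = F (ε : ℂ) * Complex.exp (-(Real.log M : ℂ) * ((A : ℂ) + (B : ℂ) * (ε : ℂ))) := by
    show F (φ (w0 : ℂ)) * Complex.exp (-(Real.log M : ℂ) * ((A : ℂ) + (B : ℂ) * φ (w0 : ℂ))) = _
    rw [hφ0]
  rw [hGw, norm_mul, hexp, hw0n, Complex.ofReal_re] at key
  have h5 : 0 < M ^ (A + B * ε) := Real.rpow_pos_of_pos hM0 _
  rw [← div_eq_mul_inv, div_le_iff₀ h5] at key
  rw [hAB, mul_comm]
  refine key.trans (le_of_eq ?_)
  congr 1
  rw [hw0, had, hbd]
  have h6 : 2 * del * lam - ε * (lam - del) ≠ 0 := by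
    have : 0 < 2 * del * lam - ε * (lam - del) := by nlinarith
    exact this.ne'
  have h7 : 2 * del * lam / (lam + del) - (lam - del) / (lam + del) * ε
      = (2 * del * lam - ε * (lam - del)) / (lam + del) := by
    field_simp
  rw [h7]
  field_simp

end Pool.Agent.Lib.QR
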