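import Pool.Agent.Lib.MP_ba1c0b_an.D1
import Pool.Agent.Lib.MP_ba1c0b_an.D2s

/-!
D2g: the stability inequality with the constant of the Schwarz lemma on a strip.
-/

set_option autoImplicit false

open MeasureTheory
open scoped ENNReal

namespace Pool.Agent.Lib.QR

/-- The interpolation exponent on the line `re z = x`. -/
noncomputable def thet (P s x : ℝ) : ℝ := |(1 + x) / s - 1 / 2| / (1 / 2 - 1 / P)

/-- The constant in the stability inequality. -/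
noncomputable def Kst (M P s lam del ε : ℝ) : ℝ :=
  M ^ (thet P s (-lam) + (thet P s del - thet P s (-lam)) * ((ε + lam) / (lam + del)))
    * (ε * (lam + del) / (2 * del * lam - ε * (lam - del)))

private lemma d2g_bp_le {ι : Type*} [Fintype ι] (x y : EuclideanSpace ℂ ι) :
    ‖bp x y‖ ≤ ‖x‖ * ‖y‖ := by
  unfold bp
  calc ‖∑ i, x i * y i‖ ≤ ∑ i, ‖x i‖ * ‖y i‖ := by
        refine (norm_sum_le _ _).trans (le_of_eq ?_)
        exact Finset.sum_congr rfl fun i _ => norm_mul _ _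
    _ ≤ Real.sqrt (∑ i, ‖x i‖ ^ 2) * Real.sqrt (∑ i, ‖y i‖ ^ 2) :=
        Real.sum_mul_le_sqrt_mul_sqrt _ _ _
    _ = ‖x‖ * ‖y‖ := by rw [EuclideanSpace.norm_eq, EuclideanSpace.norm_eq]

private lemma d2g_bp_smul {ι : Type*} [Fintype ι] (c : ℂ) (x y : EuclideanSpace ℂ ι) :
    bp (c • x) y = c * bp x y := by
  unfold bp
  rw [Finset.mul_sum]
  exact Finset.sum_congr rfl fun i _ => by
    rw [PiLp.smul_apply, smul_eq_mul, mul_assoc]

private lemma d2g_bp_smul' {ι : Type*} [Fintype ι] (c : ℂ) (x y : EuclideanSpace ℂ ι) :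
    bp x (c • y) = c * bp x y := by
  unfold bp
  rw [Finset.mul_sum]
  exact Finset.sum_congr rfl fun i _ => by
    rw [PiLp.smul_apply, smul_eq_mul]
    ring

private lemma d2g_bp_sub {ι : Type*} [Fintype ι] (x y y' : EuclideanSpace ℂ ι) :
    bp x (y - y') = bp x y - bp x y' := by
  unfold bp
  rw [← Finset.sum_sub_distrib]
  exact Finset.sum_congr rfl fun i _ => by
    rw [PiLp.sub_apply]
    ring

private lemma d2g_bp_zero {ι : Type*} [Fintype ι] (y : EuclideanSpace ℂ ι) :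
    bp (0 : EuclideanSpace ℂ ι) y = 0 := by
  unfold bp
  simp

private lemma d2g_bp_zero' {ι : Type*} [Fintype ι] (y : EuclideanSpace ℂ ι) :
    bp y (0 : EuclideanSpace ℂ ι) = 0 := by
  unfold bp
  simp

private lemma d2g_bp_cont {ι : Type*} [Fintype ι] :
    Continuous fun p : EuclideanSpace ℂ ι × EuclideanSpace ℂ ι => bp p.1 p.2 := by
  unfold bp
  fun_prop

private lemma d2g_chord {P s lam del : ℝ} (hP : 2 < P) (h1 : 0 < lam + del) (x : ℝ)
    (hx1 : -lam < x) (hx2 : x < del) :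
    thet P s x ≤ thet P s (-lam) + (thet P s del - thet P s (-lam)) * ((x + lam) / (lam + del)) := by
  have hd0 : 0 < 1 / 2 - 1 / P := by
    have : 1 / P < 1 / 2 := one_div_lt_one_div_of_lt (by norm_num) hP
    linarith
  obtain ⟨m, hm⟩ : ∃ m : ℝ, m = (x + lam) / (lam + del) := ⟨_, rfl⟩
  have hm0 : 0 ≤ m := by rw [hm]; exact div_nonneg (by linarith) h1.le
  have hm1 : m ≤ 1 := by rw [hm, div_le_one h1]; linarith
  have hx : x = (1 - m) * (-lam) + m * del := by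
    rw [hm]; field_simp; ring
  rw [← hm]
  unfold thet
  have h2 : |(1 + x) / s - 1 / 2| ≤ (1 - m) * |(1 + -lam) / s - 1 / 2| + m * |(1 + del) / s - 1 / 2| := by
    have h3 : (1 + x) / s - 1 / 2 = (1 - m) * ((1 + -lam) / s - 1 / 2) + m * ((1 + del) / s - 1 / 2) := by
      rw [hx]; ring
    rw [h3]
    refine (abs_add_le _ _).trans (le_of_eq ?_)
    rw [abs_mul, abs_mul, abs_of_nonneg hm0, abs_of_nonneg (sub_nonneg.2 hm1)]
  have h4 := div_le_div_of_nonneg_right h2 hd0.le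
  refine h4.trans (le_of_eq ?_)
  ring

section

variable {X : Type*} [MeasurableSpace X] (μ : Measure X) [IsProbabilityMeasure μ]
  {ι : Type*} [Fintype ι] {P M : ℝ}

omit [IsProbabilityMeasure μ] in
private lemma d2g_norm_eq [Fact (1 ≤ ENNReal.ofReal P)] (hP : 0 < P)
    (h : Lp (EuclideanSpace ℂ ι) (ENNReal.ofReal P) μ) :
    ‖h‖ = (∫ x, ‖h x‖ ^ P ∂μ) ^ (1 / P) := by
  rw [Lp.norm_def, (Lp.memLp h).eLpNorm_eq_integral_rpow_norm (by simpa using hP) ENNReal.ofReal_ne_top,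
    ENNReal.toReal_ofReal hP.le, ENNReal.toReal_ofReal, one_div]
  exact Real.rpow_nonneg (integral_nonneg fun x => Real.rpow_nonneg (norm_nonneg _) _) _

private lemma d2g_pair_int [Fact (1 ≤ ENNReal.ofReal P)] (hP : 1 < P) (w : X → EuclideanSpace ℂ ι)
    (hw : MemLp w (ENNReal.ofReal (P / (P - 1))) μ)
    (h : Lp (EuclideanSpace ℂ ι) (ENNReal.ofReal P) μ) :
    Integrable (fun x => bp (w x) (h x)) μ ∧
      ‖∫ x, bp (w x) (h x) ∂μ‖ ≤ (∫ x, ‖w x‖ ^ (P / (P - 1)) ∂μ) ^ (1 / (P / (P - 1))) * ‖h‖ := by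
  have hconj : P.HolderConjugate (P / (P - 1)) := Real.HolderConjugate.conjExponent hP
  have hc' := hconj.symm.ennrealOfReal
  have h1 : Integrable (fun x => ‖w x‖ * ‖h x‖) μ := hw.norm.integrable_mul (Lp.memLp h).norm
  have h2 : ∀ x, ‖bp (w x) (h x)‖ ≤ ‖w x‖ * ‖h x‖ := fun x => d2g_bp_le _ _
  have hm : AEStronglyMeasurable (fun x => bp (w x) (h x)) μ :=
    d2g_bp_cont.comp_aestronglyMeasurable (hw.1.prodMk (Lp.aestronglyMeasurable h))
  refine ⟨h1.mono' hm (Filter.Eventually.of_forall h2), ?_⟩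
  refine (norm_integral_le_of_norm_le h1 (Filter.Eventually.of_forall h2)).trans ?_
  rw [d2g_norm_eq μ (by linarith) h]
  exact integral_mul_le_Lp_mul_Lq_of_nonneg hconj.symm
    (Filter.Eventually.of_forall fun x => norm_nonneg (w x))
    (Filter.Eventually.of_forall fun x => norm_nonneg (h x)) hw.norm (Lp.memLp h).norm

private lemma d2g_pair_cont [Fact (1 ≤ ENNReal.ofReal P)] (hP : 1 < P) (w : X → EuclideanSpace ℂ ι)
    (hw : MemLp w (ENNReal.ofReal (P / (P - 1))) μ) :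
    Continuous fun h : Lp (EuclideanSpace ℂ ι) (ENNReal.ofReal P) μ => ∫ x, bp (w x) (h x) ∂μ := by
  obtain ⟨C, hC⟩ : ∃ C : ℝ, C = (∫ x, ‖w x‖ ^ (P / (P - 1)) ∂μ) ^ (1 / (P / (P - 1))) := ⟨_, rfl⟩
  have hC0 : 0 ≤ C := by
    rw [hC]
    exact Real.rpow_nonneg (integral_nonneg fun x => Real.rpow_nonneg (norm_nonneg _) _) _
  refine (LipschitzWith.of_dist_le_mul (K := ⟨C, hC0⟩) fun h h' => ?_).continuous
  rw [dist_eq_norm, dist_eq_norm]
  have h1 : ∫ x, bp (w x) (h x) ∂μ - ∫ x, bp (w x) (h' x) ∂μ = ∫ x, bp (w x) ((h - h') x) ∂μ := by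
    rw [← integral_sub (d2g_pair_int μ hP w hw h).1 (d2g_pair_int μ hP w hw h').1]
    refine integral_congr_ae ?_
    filter_upwards [Lp.coeFn_sub h h'] with x hx
    rw [hx, Pi.sub_apply, d2g_bp_sub]
  rw [h1]
  have h2 := (d2g_pair_int μ hP w hw (h - h')).2
  rw [← hC] at h2
  exact h2

private lemma d2g_norm_cont [Fact (1 ≤ ENNReal.ofReal P)] {r : ℝ} (hr : 1 ≤ r) (hrP : r ≤ P) :
    Continuous fun h : Lp (EuclideanSpace ℂ ι) (ENNReal.ofReal P) μ =>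
      (∫ x, ‖h x‖ ^ r ∂μ) ^ (1 / r) := by
  have hr0 : 0 < r := by linarith
  have : Fact (1 ≤ ENNReal.ofReal r) := ⟨by
    rw [← ENNReal.ofReal_one]
    exact ENNReal.ofReal_le_ofReal hr⟩
  have hmem : ∀ h : Lp (EuclideanSpace ℂ ι) (ENNReal.ofReal P) μ,
      MemLp (h : X → EuclideanSpace ℂ ι) (ENNReal.ofReal r) μ := fun h =>
    (Lp.memLp h).mono_exponent (ENNReal.ofReal_le_ofReal hrP)
  have he : ∀ h : Lp (EuclideanSpace ℂ ι) (ENNReal.ofReal P) μ,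
      (∫ x, ‖h x‖ ^ r ∂μ) ^ (1 / r) = ‖(hmem h).toLp (h : X → EuclideanSpace ℂ ι)‖ := by
    intro h
    rw [d2g_norm_eq μ hr0]
    congr 1
    refine integral_congr_ae ?_
    filter_upwards [(hmem h).coeFn_toLp] with x hx
    rw [hx]
  have he' : (fun h : Lp (EuclideanSpace ℂ ι) (ENNReal.ofReal P) μ =>
      (∫ x, ‖h x‖ ^ r ∂μ) ^ (1 / r)) = fun h => ‖(hmem h).toLp (h : X → EuclideanSpace ℂ ι)‖ :=
    funext he
  rw [he']
  refine (LipschitzWith.of_dist_le_mul (K := 1) fun h h' => ?_).continuous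
  rw [dist_eq_norm, dist_eq_norm, NNReal.coe_one, one_mul]
  refine (abs_norm_sub_norm_le _ _).trans ?_
  have h1 : (hmem h).toLp (h : X → EuclideanSpace ℂ ι) - (hmem h').toLp (h' : X → EuclideanSpace ℂ ι)
      = (hmem (h - h')).toLp ((h - h' : Lp (EuclideanSpace ℂ ι) (ENNReal.ofReal P) μ) :
        X → EuclideanSpace ℂ ι) := by
    rw [← MemLp.toLp_sub]
    refine MemLp.toLp_congr _ _ (Lp.coeFn_sub h h').symm
  rw [h1, Lp.norm_toLp, Lp.norm_def]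
  refine ENNReal.toReal_mono (Lp.eLpNorm_ne_top _) ?_
  exact eLpNorm_le_eLpNorm_of_exponent_le (ENNReal.ofReal_le_ofReal hrP) (Lp.aestronglyMeasurable _)

private lemma d2g_unit (hP : 2 < P) [Fact (1 ≤ ENNReal.ofReal P)] (hM : 1 ≤ M)
    (T : Lp (EuclideanSpace ℂ ι) (ENNReal.ofReal P) μ →L[ℂ]
      Lp (EuclideanSpace ℂ ι) (ENNReal.ofReal P) μ) (hT : IsProj μ P M T)
    {s ε lam del : ℝ} (hε : 0 < ε) (hlam : 0 < lam) (hlam2 : s / P - 1 < -lam) (hdel : ε < del)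
    (hdel2 : del < s * (P - 1) / P - 1)
    (hs1 : P / (P - 1) < s / (1 + ε)) (hs2 : s < P)
    (u : X → EuclideanSpace ℂ ι) (hu : MemLp u (ENNReal.ofReal s) μ) (hu1 : ∫ x, ‖u x‖ ^ s ∂μ = 1)
    (hcl : ∀ g : Lp (EuclideanSpace ℂ ι) (ENNReal.ofReal P) μ, ∫ x, bp (u x) (T g x) ∂μ = 0)
    (g : Lp (EuclideanSpace ℂ ι) (ENNReal.ofReal P) μ) (gs : SimpleFunc X (EuclideanSpace ℂ ι))
    (hgs : (g : X → EuclideanSpace ℂ ι) =ᵐ[μ] gs)
    (hg1 : ∫ x, ‖g x‖ ^ ((s / (1 + ε)) / (s / (1 + ε) - 1)) ∂μ = 1) :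
    ‖∫ x, bp (((‖u x‖ ^ ε : ℝ) : ℂ) • u x) (T g x) ∂μ‖ ≤ Kst M P s lam del ε := by
  obtain ⟨F, g0, hFd, hF0, hFε, hFb⟩ :=
    exists_family μ hP hM T hT hε.le hs1 hs2 u hu hu1 g gs hgs hg1
  rw [← hFε]
  exact schwarz_strip F M hM (thet P s) lam del ε (s / P - 1) (s * (P - 1) / P - 1) hlam hε hdel
    hlam2.le hdel2.le hFd hFb (d2g_chord hP (by linarith)) (by rw [hF0]; exact hcl g0)

private lemma d2g_simple (hP : 2 < P) [Fact (1 ≤ ENNReal.ofReal P)] (hM : 1 ≤ M)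
    (T : Lp (EuclideanSpace ℂ ι) (ENNReal.ofReal P) μ →L[ℂ]
      Lp (EuclideanSpace ℂ ι) (ENNReal.ofReal P) μ) (hT : IsProj μ P M T)
    {s ε lam del : ℝ} (hε : 0 < ε) (hlam : 0 < lam) (hlam2 : s / P - 1 < -lam) (hdel : ε < del)
    (hdel2 : del < s * (P - 1) / P - 1) (hs0 : 0 < s)
    (hs1 : P / (P - 1) < s / (1 + ε)) (hs2 : s < P)
    (u : X → EuclideanSpace ℂ ι) (hu : MemLp u (ENNReal.ofReal s) μ) (hu1 : 0 < ∫ x, ‖u x‖ ^ s ∂μ)
    (hcl : ∀ g : Lp (EuclideanSpace ℂ ι) (ENNReal.ofReal P) μ, ∫ x, bp (u x) (T g x) ∂μ = 0)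
    {t' : ℝ} (ht' : t' = (s / (1 + ε)) / (s / (1 + ε) - 1)) (ht'0 : 0 < t')
    (g : Lp (EuclideanSpace ℂ ι) (ENNReal.ofReal P) μ) (gs : SimpleFunc X (EuclideanSpace ℂ ι))
    (hgs : (g : X → EuclideanSpace ℂ ι) =ᵐ[μ] gs)
    (hg1 : 0 < ∫ x, ‖g x‖ ^ t' ∂μ) :
    ‖∫ x, bp (((‖u x‖ ^ ε : ℝ) : ℂ) • u x) (T g x) ∂μ‖ ≤
      Kst M P s lam del ε * (∫ x, ‖u x‖ ^ s ∂μ) ^ ((1 + ε) / s) * (∫ x, ‖g x‖ ^ t' ∂μ) ^ (1 / t') := by
  obtain ⟨A, hA⟩ : ∃ A : ℝ, A = ∫ x, ‖u x‖ ^ s ∂μ := ⟨_, rfl⟩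
  obtain ⟨B, hB⟩ : ∃ B : ℝ, B = ∫ x, ‖g x‖ ^ t' ∂μ := ⟨_, rfl⟩
  rw [← hA] at hu1 ⊢
  rw [← hB] at hg1 ⊢
  obtain ⟨α, hα⟩ : ∃ α : ℝ, α = A ^ (-(1 / s)) := ⟨_, rfl⟩
  obtain ⟨β, hβ⟩ : ∃ β : ℝ, β = B ^ (-(1 / t')) := ⟨_, rfl⟩
  have hα0 : 0 < α := by rw [hα]; exact Real.rpow_pos_of_pos hu1 _
  have hβ0 : 0 < β := by rw [hβ]; exact Real.rpow_pos_of_pos hg1 _
  have hαs : α ^ s * A = 1 := by
    rw [hα, ← Real.rpow_mul hu1.le]
    have : -(1 / s) * s = -1 := by field_simp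
    rw [this, Real.rpow_neg_one, inv_mul_cancel₀ hu1.ne']
  have hβt : β ^ t' * B = 1 := by
    rw [hβ, ← Real.rpow_mul hg1.le]
    have : -(1 / t') * t' = -1 := by field_simp
    rw [this, Real.rpow_neg_one, inv_mul_cancel₀ hg1.ne']
  have hun : ∀ x, ‖(α : ℂ) • u x‖ = α * ‖u x‖ := by
    intro x
    rw [norm_smul, Complex.norm_real, Real.norm_of_nonneg hα0.le]
  have hu' : MemLp (fun x => (α : ℂ) • u x) (ENNReal.ofReal s) μ := hu.const_smul (α : ℂ)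
  have hu1' : ∫ x, ‖(α : ℂ) • u x‖ ^ s ∂μ = 1 := by
    rw [← hαs, hA, ← integral_const_mul]
    refine integral_congr_ae (Filter.Eventually.of_forall fun x => ?_)
    dsimp only
    rw [hun, Real.mul_rpow hα0.le (norm_nonneg _)]
  have hcl' : ∀ g : Lp (EuclideanSpace ℂ ι) (ENNReal.ofReal P) μ,
      ∫ x, bp ((α : ℂ) • u x) (T g x) ∂μ = 0 := by
    intro g
    simp only [d2g_bp_smul]
    rw [integral_const_mul, hcl g, mul_zero]
  have hgc := Lp.coeFn_smul (β : ℂ) g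
  have hgs' : (((β : ℂ) • g : Lp (EuclideanSpace ℂ ι) (ENNReal.ofReal P) μ) :
      X → EuclideanSpace ℂ ι) =ᵐ[μ] gs.map (fun y => (β : ℂ) • y) := by
    filter_upwards [hgc, hgs] with x hx1 hx2
    rw [hx1, Pi.smul_apply, hx2, SimpleFunc.map_apply]
  have hg1' : ∫ x, ‖((β : ℂ) • g : Lp (EuclideanSpace ℂ ι) (ENNReal.ofReal P) μ) x‖ ^
      ((s / (1 + ε)) / (s / (1 + ε) - 1)) ∂μ = 1 := by
    rw [← ht', ← hβt, hB, ← integral_const_mul]
    refine integral_congr_ae ?_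
    filter_upwards [hgc] with x hx
    rw [hx, Pi.smul_apply, norm_smul, Complex.norm_real, Real.norm_of_nonneg hβ0.le,
      Real.mul_rpow hβ0.le (norm_nonneg _)]
  have key := d2g_unit μ hP hM T hT hε hlam hlam2 hdel hdel2 hs1 hs2 _ hu' hu1' hcl'
    ((β : ℂ) • g) _ hgs' hg1'
  have hk : ∫ x, bp (((‖(α : ℂ) • u x‖ ^ ε : ℝ) : ℂ) • (α : ℂ) • u x)
      (T ((β : ℂ) • g) x) ∂μ =
      ((α ^ (1 + ε) * β : ℝ) : ℂ) * ∫ x, bp (((‖u x‖ ^ ε : ℝ) : ℂ) • u x) (T g x) ∂μ := by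
    rw [← integral_const_mul]
    refine integral_congr_ae ?_
    have h1 : T ((β : ℂ) • g) = (β : ℂ) • T g := map_smul T _ _
    rw [h1]
    filter_upwards [Lp.coeFn_smul (β : ℂ) (T g)] with x hx
    rw [hx, Pi.smul_apply, hun, Real.mul_rpow hα0.le (norm_nonneg _), d2g_bp_smul', smul_smul,
      d2g_bp_smul, d2g_bp_smul, Real.rpow_add hα0, Real.rpow_one]
    push_cast
    ring
  rw [hk, norm_mul, Complex.norm_real, Real.norm_of_nonneg (by positivity)] at key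
  have h2 : 0 < α ^ (1 + ε) * β := by positivity
  have h3 : (α ^ (1 + ε) * β) * (A ^ ((1 + ε) / s) * B ^ (1 / t')) = 1 := by
    rw [hα, hβ, ← Real.rpow_mul hu1.le]
    have h4 : A ^ (-(1 / s) * (1 + ε)) * A ^ ((1 + ε) / s) = 1 := by
      rw [← Real.rpow_add hu1]
      have : -(1 / s) * (1 + ε) + (1 + ε) / s = 0 := by ring
      rw [this, Real.rpow_zero]
    have h5 : B ^ (-(1 / t')) * B ^ (1 / t') = 1 := by
      rw [← Real.rpow_add hg1]
      have : -(1 / t') + 1 / t' = 0 := by ring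
      rw [this, Real.rpow_zero]
    calc A ^ (-(1 / s) * (1 + ε)) * B ^ (-(1 / t')) * (A ^ ((1 + ε) / s) * B ^ (1 / t'))
        = (A ^ (-(1 / s) * (1 + ε)) * A ^ ((1 + ε) / s)) * (B ^ (-(1 / t')) * B ^ (1 / t')) := by ring
      _ = 1 := by rw [h4, h5, mul_one]
  obtain ⟨N, hN⟩ : ∃ N : ℝ, N = ‖∫ x, bp (((‖u x‖ ^ ε : ℝ) : ℂ) • u x) (T g x) ∂μ‖ := ⟨_, rfl⟩
  rw [← hN] at key ⊢
  have h6 : 0 < A ^ ((1 + ε) / s) * B ^ (1 / t') :=
    mul_pos (Real.rpow_pos_of_pos hu1 _) (Real.rpow_pos_of_pos hg1 _)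
  calc N = (α ^ (1 + ε) * β * N) * (A ^ ((1 + ε) / s) * B ^ (1 / t')) := by
        linear_combination (-N) * h3
    _ ≤ Kst M P s lam del ε * (A ^ ((1 + ε) / s) * B ^ (1 / t')) :=
        mul_le_mul_of_nonneg_right key h6.le
    _ = Kst M P s lam del ε * A ^ ((1 + ε) / s) * B ^ (1 / t') := by ring

end

/-- PROOF: as `stab`, with `schwarz_strip` instead of the Schwarz lemma in a disc. -/
theorem stab_gen {X : Type*} [MeasurableSpace X] (μ : Measure X) [IsProbabilityMeasure μ]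
    {ι : Type*} [Fintype ι] {P M : ℝ} (hP : 2 < P) [Fact (1 ≤ ENNReal.ofReal P)] (hM : 1 ≤ M)
    (T : Lp (EuclideanSpace ℂ ι) (ENNReal.ofReal P) μ →L[ℂ]
      Lp (EuclideanSpace ℂ ι) (ENNReal.ofReal P) μ) (hT : IsProj μ P M T)
    {s ε lam del : ℝ} (hε : 0 < ε) (hlam : 0 < lam) (hlam2 : s / P - 1 < -lam) (hdel : ε < del)
    (hdel2 : del < s * (P - 1) / P - 1)
    (u : X → EuclideanSpace ℂ ι) (hu : MemLp u (ENNReal.ofReal s) μ)
    (hcl : ∀ g : Lp (EuclideanSpace ℂ ι) (ENNReal.ofReal P) μ, ∫ x, bp (u x) (T g x) ∂μ = 0)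
    (g : Lp (EuclideanSpace ℂ ι) (ENNReal.ofReal P) μ) :
    ‖∫ x, bp (((‖u x‖ ^ ε : ℝ) : ℂ) • u x) (T g x) ∂μ‖
      ≤ Kst M P s lam del ε
        * (∫ x, ‖u x‖ ^ s ∂μ) ^ ((1 + ε) / s)
        * (∫ x, ‖g x‖ ^ ((s / (1 + ε)) / (s / (1 + ε) - 1)) ∂μ) ^ ((s / (1 + ε) - 1) / (s / (1 + ε))) := by
  have hP0 : 0 < P := by linarith
  have hP1 : 0 < P - 1 := by linarith
  have h1ε : 0 < 1 + ε := by linarith
  have hsP : 1 + ε < s * (P - 1) / P := by linarith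
  have hs0 : 0 < s := by
    by_contra hcon
    have h1 : s * (P - 1) / P ≤ 0 :=
      div_nonpos_of_nonpos_of_nonneg (mul_nonpos_of_nonpos_of_nonneg (not_lt.1 hcon) hP1.le) hP0.le
    linarith
  have hs2 : s < P := by
    have h1 : s / P < 1 := by linarith
    rwa [div_lt_one hP0] at h1
  have hs1 : P / (P - 1) < s / (1 + ε) := by
    rw [div_lt_div_iff₀ hP1 h1ε]
    rw [lt_div_iff₀ hP0] at hsP
    linarith
  have hPc : 1 < P / (P - 1) := by rw [one_lt_div hP1]; linarith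
  obtain ⟨t, ht⟩ : ∃ t : ℝ, t = s / (1 + ε) := ⟨_, rfl⟩
  obtain ⟨t', ht'⟩ : ∃ t' : ℝ, t' = (s / (1 + ε)) / (s / (1 + ε) - 1) := ⟨_, rfl⟩
  have ht1 : 1 < t := by rw [ht]; exact hPc.trans hs1
  have hst : s = t * (1 + ε) := by rw [ht]; field_simp
  have ht'' : t' = t / (t - 1) := by rw [ht', ← ht]
  have ht'0 : 0 < t' := by rw [ht'']; exact div_pos (by linarith) (by linarith)
  have ht'1 : 1 ≤ t' := by
    rw [ht'', one_le_div (by linarith)]
    linarith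
  have ht'P : t' ≤ P := by
    rw [ht'', div_le_iff₀ (by linarith)]
    rw [← ht, div_lt_iff₀ hP1] at hs1
    nlinarith
  have hexp : (s / (1 + ε) - 1) / (s / (1 + ε)) = 1 / t' := by
    rw [ht', one_div_div]
  rw [hexp, ← ht']
  have hK0 : 0 ≤ Kst M P s lam del ε := by
    unfold Kst
    have h1 : 0 < 2 * del * lam - ε * (lam - del) := by nlinarith
    have h2 : 0 ≤ M ^ (thet P s (-lam) + (thet P s del - thet P s (-lam)) * ((ε + lam) / (lam + del))) :=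
      Real.rpow_nonneg (by linarith) _
    have h3 : 0 ≤ ε * (lam + del) / (2 * del * lam - ε * (lam - del)) :=
      div_nonneg (mul_nonneg hε.le (by linarith)) h1.le
    exact mul_nonneg h2 h3
  have hA0 : 0 ≤ ∫ x, ‖u x‖ ^ s ∂μ := integral_nonneg fun x => Real.rpow_nonneg (norm_nonneg _) _
  have hB0 : ∀ g : Lp (EuclideanSpace ℂ ι) (ENNReal.ofReal P) μ, 0 ≤ ∫ x, ‖g x‖ ^ t' ∂μ := fun g =>
    integral_nonneg fun x => Real.rpow_nonneg (norm_nonneg _) _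
  have hRHS : ∀ g : Lp (EuclideanSpace ℂ ι) (ENNReal.ofReal P) μ,
      0 ≤ Kst M P s lam del ε * (∫ x, ‖u x‖ ^ s ∂μ) ^ ((1 + ε) / s)
        * (∫ x, ‖g x‖ ^ t' ∂μ) ^ (1 / t') := fun g =>
    mul_nonneg (mul_nonneg hK0 (Real.rpow_nonneg hA0 _)) (Real.rpow_nonneg (hB0 g) _)
  have huint : Integrable (fun x => ‖u x‖ ^ s) μ := by
    have := hu.integrable_norm_rpow (by simpa using hs0) ENNReal.ofReal_ne_top
    rwa [ENNReal.toReal_ofReal hs0.le] at this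
  rcases hA0.eq_or_lt with hA | hA
  · -- u = 0
    have h1 : (fun x => ‖u x‖ ^ s) =ᵐ[μ] 0 :=
      (integral_eq_zero_iff_of_nonneg (fun x => Real.rpow_nonneg (norm_nonneg _) _) huint).1 hA.symm
    have h2 : ∫ x, bp (((‖u x‖ ^ ε : ℝ) : ℂ) • u x) (T g x) ∂μ = 0 := by
      rw [← integral_zero X ℂ (μ := μ)]
      refine integral_congr_ae ?_
      filter_upwards [h1] with x hx
      have h3 : ‖u x‖ = 0 := by
        have h4 : ‖u x‖ ^ s = 0 := hx
        rcases (Real.rpow_eq_zero_iff_of_nonneg (norm_nonneg _)).1 h4 with h5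
        exact h5.1
      rw [norm_eq_zero.1 h3, smul_zero, d2g_bp_zero]
    rw [h2, norm_zero]
    exact hRHS g
  · have hw : MemLp (fun x => ((‖u x‖ ^ ε : ℝ) : ℂ) • u x) (ENNReal.ofReal (P / (P - 1))) μ := by
      have hwt : MemLp (fun x => ((‖u x‖ ^ ε : ℝ) : ℂ) • u x) (ENNReal.ofReal t) μ := by
        have h1 := hu.norm_rpow_div (ENNReal.ofReal (1 + ε))
        rw [← ENNReal.ofReal_div_of_pos h1ε, ENNReal.toReal_ofReal h1ε.le, ← ht] at h1
        refine h1.of_le ?_ (Filter.Eventually.of_forall fun x => ?_)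
        · have hm : AEStronglyMeasurable (fun x => ((‖u x‖ ^ ε : ℝ) : ℂ)) μ :=
            (Complex.measurable_ofReal.comp_aemeasurable
              (hu.1.norm.aemeasurable.pow_const ε)).aestronglyMeasurable
          exact hm.smul hu.1
        · rw [norm_smul, Complex.norm_real, Real.norm_of_nonneg (Real.rpow_nonneg (norm_nonneg _) _),
            Real.norm_of_nonneg (Real.rpow_nonneg (norm_nonneg _) _)]
          rcases eq_or_ne (u x) 0 with h0 | h0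
          · rw [h0, norm_zero, mul_zero]
            exact Real.rpow_nonneg le_rfl _
          · have hp : 0 < ‖u x‖ := norm_pos_iff.2 h0
            rw [Real.rpow_add hp, Real.rpow_one, mul_comm]
      exact hwt.mono_exponent (ENNReal.ofReal_le_ofReal (by rw [ht]; exact hs1.le))
    have hcont1 : Continuous fun g : Lp (EuclideanSpace ℂ ι) (ENNReal.ofReal P) μ =>
        ‖∫ x, bp (((‖u x‖ ^ ε : ℝ) : ℂ) • u x) (T g x) ∂μ‖ :=
      ((d2g_pair_cont μ (by linarith) _ hw).comp T.continuous).norm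
    have hcont2 : Continuous fun g : Lp (EuclideanSpace ℂ ι) (ENNReal.ofReal P) μ =>
        Kst M P s lam del ε * (∫ x, ‖u x‖ ^ s ∂μ) ^ ((1 + ε) / s)
        * (∫ x, ‖g x‖ ^ t' ∂μ) ^ (1 / t') :=
      continuous_const.mul (d2g_norm_cont μ ht'1 ht'P)
    refine (Lp.simpleFunc.denseRange (E := EuclideanSpace ℂ ι) (μ := μ) (p := ENNReal.ofReal P)
      ENNReal.ofReal_ne_top).induction_on g (isClosed_le hcont1 hcont2) fun f => ?_
    have hgs := (Lp.simpleFunc.toSimpleFunc_eq_toFun f).symm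
    rcases (hB0 (f : Lp (EuclideanSpace ℂ ι) (ENNReal.ofReal P) μ)).eq_or_lt with hB | hB
    · have hgint : Integrable (fun x => ‖(f : Lp (EuclideanSpace ℂ ι) (ENNReal.ofReal P) μ) x‖ ^ t') μ := by
        have := ((Lp.memLp (f : Lp (EuclideanSpace ℂ ι) (ENNReal.ofReal P) μ)).mono_exponent
          (ENNReal.ofReal_le_ofReal ht'P)).integrable_norm_rpow (by simpa using ht'0)
          ENNReal.ofReal_ne_top
        rwa [ENNReal.toReal_ofReal ht'0.le] at this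
      have h1 := (integral_eq_zero_iff_of_nonneg
        (fun x => Real.rpow_nonneg (norm_nonneg _) _) hgint).1 hB.symm
      have h2 : (f : Lp (EuclideanSpace ℂ ι) (ENNReal.ofReal P) μ) = 0 := by
        refine Lp.ext ?_
        filter_upwards [h1, Lp.coeFn_zero (EuclideanSpace ℂ ι) (ENNReal.ofReal P) μ] with x hx hx0
        have h3 : ‖(f : Lp (EuclideanSpace ℂ ι) (ENNReal.ofReal P) μ) x‖ = 0 := by
          have h4 : ‖(f : Lp (EuclideanSpace ℂ ι) (ENNReal.ofReal P) μ) x‖ ^ t' = 0 := hx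
          exact ((Real.rpow_eq_zero_iff_of_nonneg (norm_nonneg _)).1 h4).1
        rw [hx0, Pi.zero_apply]
        exact norm_eq_zero.1 h3
      have h3 : ∫ x, bp (((‖u x‖ ^ ε : ℝ) : ℂ) • u x)
          (T (f : Lp (EuclideanSpace ℂ ι) (ENNReal.ofReal P) μ) x) ∂μ = 0 := by
        rw [h2, map_zero, ← integral_zero X ℂ (μ := μ)]
        refine integral_congr_ae ?_
        filter_upwards [Lp.coeFn_zero (EuclideanSpace ℂ ι) (ENNReal.ofReal P) μ] with x hx0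
        rw [hx0, Pi.zero_apply, d2g_bp_zero']
      rw [h3, norm_zero]
      exact hRHS _
    · exact d2g_simple μ hP hM T hT hε hlam hlam2 hdel hdel2 hs0 hs1 hs2 u hu hA hcl ht' ht'0 _ _
        hgs hB

end Pool.Agent.Lib.QR
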