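import Pool.Agent.Lib.MP_ba1c0b_an.D2

/-!
D3g: the a priori estimate, with an arbitrary constant `κ < 1` in the stability inequality.
-/

set_option autoImplicit false

open MeasureTheory
open scoped ENNReal

namespace Pool.Agent.Lib.QR

private lemma d3g_bp_le {ι : Type*} [Fintype ι] (x y : EuclideanSpace ℂ ι) :
    ‖bp x y‖ ≤ ‖x‖ * ‖y‖ := by
  unfold bp
  calc ‖∑ i, x i * y i‖ ≤ ∑ i, ‖x i‖ * ‖y i‖ := by
        refine (norm_sum_le _ _).trans (le_of_eq ?_)
        exact Finset.sum_congr rfl fun i _ => norm_mul _ _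
    _ ≤ Real.sqrt (∑ i, ‖x i‖ ^ 2) * Real.sqrt (∑ i, ‖y i‖ ^ 2) :=
        Real.sum_mul_le_sqrt_mul_sqrt _ _ _
    _ = ‖x‖ * ‖y‖ := by rw [EuclideanSpace.norm_eq, EuclideanSpace.norm_eq]

private lemma d3g_bp_cont {ι : Type*} [Fintype ι] :
    Continuous fun p : EuclideanSpace ℂ ι × EuclideanSpace ℂ ι => bp p.1 p.2 := by
  unfold bp
  fun_prop

private lemma d3g_bp_sub {ι : Type*} [Fintype ι] (x y z : EuclideanSpace ℂ ι) :
    bp (x - y) z = bp x z - bp y z := by
  unfold bp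
  rw [← Finset.sum_sub_distrib]
  refine Finset.sum_congr rfl fun i _ => ?_
  rw [PiLp.sub_apply]
  ring

private lemma d3g_bp_sub' {ι : Type*} [Fintype ι] (x y z : EuclideanSpace ℂ ι) :
    bp x (y - z) = bp x y - bp x z := by
  unfold bp
  rw [← Finset.sum_sub_distrib]
  refine Finset.sum_congr rfl fun i _ => ?_
  rw [PiLp.sub_apply]
  ring

/-- Hölder for the bilinear pairing. -/
private lemma d3g_holder {X : Type*} [MeasurableSpace X] (μ : Measure X) [IsProbabilityMeasure μ]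
    {ι : Type*} [Fintype ι] {r r' : ℝ} (hrr : r.HolderConjugate r')
    (w k : X → EuclideanSpace ℂ ι) (hw : MemLp w (ENNReal.ofReal r) μ)
    (hk : MemLp k (ENNReal.ofReal r') μ) :
    Integrable (fun x => bp (w x) (k x)) μ ∧
      ‖∫ x, bp (w x) (k x) ∂μ‖ ≤
        (∫ x, ‖w x‖ ^ r ∂μ) ^ (1 / r) * (∫ x, ‖k x‖ ^ r' ∂μ) ^ (1 / r') := by
  have := hrr.ennrealOfReal
  have h1 : Integrable (fun x => ‖w x‖ * ‖k x‖) μ := hw.norm.integrable_mul hk.norm
  have h2 : AEStronglyMeasurable (fun x => bp (w x) (k x)) μ :=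
    d3g_bp_cont.comp_aestronglyMeasurable (hw.1.prodMk hk.1)
  refine ⟨h1.mono' h2 (Filter.Eventually.of_forall fun x => d3g_bp_le _ _), ?_⟩
  refine (norm_integral_le_of_norm_le h1 (Filter.Eventually.of_forall fun x =>
    d3g_bp_le (w x) (k x))).trans ?_
  exact integral_mul_le_Lp_mul_Lq_of_nonneg hrr
    (Filter.Eventually.of_forall fun x => norm_nonneg (w x))
    (Filter.Eventually.of_forall fun x => norm_nonneg (k x)) hw.norm hk.norm

/-- The conjugate vector. -/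
private noncomputable def d3g_conj {ι : Type*} (y : EuclideanSpace ℂ ι) : EuclideanSpace ℂ ι :=
  WithLp.toLp 2 (fun i => (starRingEnd ℂ) (y i))

private lemma d3g_conj_cont {ι : Type*} [Fintype ι] :
    Continuous fun y : EuclideanSpace ℂ ι => d3g_conj y := by
  unfold d3g_conj
  fun_prop

private lemma d3g_conj_norm {ι : Type*} [Fintype ι] (y : EuclideanSpace ℂ ι) :
    ‖d3g_conj y‖ = ‖y‖ := by
  rw [EuclideanSpace.norm_eq, EuclideanSpace.norm_eq]
  congr 1
  refine Finset.sum_congr rfl fun i _ => ?_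
  simp [d3g_conj]

private lemma d3g_bp_conj {ι : Type*} [Fintype ι] (y : EuclideanSpace ℂ ι) (c : ℂ) :
    bp y (c • d3g_conj y) = c * ((‖y‖ ^ 2 : ℝ) : ℂ) := by
  unfold bp
  rw [EuclideanSpace.norm_sq_eq]
  push_cast
  rw [Finset.mul_sum]
  refine Finset.sum_congr rfl fun i _ => ?_
  rw [PiLp.smul_apply, smul_eq_mul]
  have h1 : (d3g_conj y) i = (starRingEnd ℂ) (y i) := rfl
  rw [h1]
  have h2 : y i * (starRingEnd ℂ) (y i) = ((‖y i‖ : ℝ) : ℂ) ^ 2 := by
    rw [Complex.mul_conj, Complex.normSq_eq_norm_sq]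
    push_cast
    rfl
  rw [← h2]
  ring

/-- The test functions. -/
private lemma d3g_test {X : Type*} [MeasurableSpace X] (μ : Measure X) [IsProbabilityMeasure μ]
    {ι : Type*} [Fintype ι] {P : ℝ} [Fact (1 ≤ ENNReal.ofReal P)] {t : ℝ} (ht : 1 < t)
    (h : X → EuclideanSpace ℂ ι) (hh : AEStronglyMeasurable h μ) (N : ℝ) (hN : 0 ≤ N) :
    ∃ g : Lp (EuclideanSpace ℂ ι) (ENNReal.ofReal P) μ,
      (∀ᵐ x ∂μ, bp (h x) (g x) = (({x | ‖h x‖ ≤ N}.indicator (fun x => ‖h x‖ ^ t) x : ℝ) : ℂ)) ∧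
      ∀ᵐ x ∂μ, ‖g x‖ ^ (t / (t - 1)) = {x | ‖h x‖ ≤ N}.indicator (fun x => ‖h x‖ ^ t) x := by
  have ht1 : 0 < t - 1 := by linarith
  set f : X → EuclideanSpace ℂ ι := {x | ‖h x‖ ≤ N}.indicator
    (fun x => ((‖h x‖ ^ (t - 2) : ℝ) : ℂ) • d3g_conj (h x)) with hf
  have hnorm : ∀ x, ‖((‖h x‖ ^ (t - 2) : ℝ) : ℂ) • d3g_conj (h x)‖ = ‖h x‖ ^ (t - 1) := by
    intro x
    rw [norm_smul, d3g_conj_norm, Complex.norm_real,
      Real.norm_of_nonneg (Real.rpow_nonneg (norm_nonneg _) _)]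
    rcases eq_or_lt_of_le (norm_nonneg (h x)) with h0 | h0
    · rw [← h0, mul_zero, Real.zero_rpow ht1.ne']
    · have h1 : t - 1 = (t - 2) + 1 := by ring
      rw [h1, Real.rpow_add h0, Real.rpow_one]
  have hmeas : AEStronglyMeasurable f μ := by
    have ha : AEStronglyMeasurable (fun x => ((‖h x‖ ^ (t - 2) : ℝ) : ℂ)) μ :=
      Complex.continuous_ofReal.comp_aestronglyMeasurable
        ((hh.norm.aemeasurable.pow_const (t - 2)).aestronglyMeasurable)
    have hb : AEStronglyMeasurable (fun x => d3g_conj (h x)) μ :=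
      d3g_conj_cont.comp_aestronglyMeasurable hh
    refine AEStronglyMeasurable.indicator₀ (ha.smul hb) ?_
    exact nullMeasurableSet_le hh.norm.aemeasurable aemeasurable_const
  have hmem : MemLp f (ENNReal.ofReal P) μ := by
    refine MemLp.of_bound hmeas (N ^ (t - 1)) (Filter.Eventually.of_forall fun x => ?_)
    rw [hf]
    by_cases hx : x ∈ {x | ‖h x‖ ≤ N}
    · rw [Set.indicator_of_mem hx, hnorm]
      exact Real.rpow_le_rpow (norm_nonneg _) hx ht1.le
    · rw [Set.indicator_of_notMem hx, norm_zero]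
      exact Real.rpow_nonneg hN _
  refine ⟨hmem.toLp f, ?_, ?_⟩
  · filter_upwards [hmem.coeFn_toLp] with x hx
    rw [hx, hf]
    by_cases hx : x ∈ {x | ‖h x‖ ≤ N}
    · rw [Set.indicator_of_mem hx, Set.indicator_of_mem hx, d3g_bp_conj, ← Complex.ofReal_mul]
      congr 1
      rcases eq_or_lt_of_le (norm_nonneg (h x)) with h0 | h0
      · rw [← h0, Real.zero_rpow (by linarith : t ≠ 0)]
        simp
      · rw [← Real.rpow_natCast, ← Real.rpow_add h0]
        congr 1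
        push_cast
        ring
    · rw [Set.indicator_of_notMem hx, Set.indicator_of_notMem hx]
      simp [bp]
  · filter_upwards [hmem.coeFn_toLp] with x hx
    rw [hx, hf]
    by_cases hx : x ∈ {x | ‖h x‖ ≤ N}
    · rw [Set.indicator_of_mem hx, Set.indicator_of_mem hx, hnorm,
        ← Real.rpow_mul (norm_nonneg _), mul_div_cancel₀ _ ht1.ne']
    · rw [Set.indicator_of_notMem hx, Set.indicator_of_notMem hx, norm_zero,
        Real.zero_rpow (div_pos (by linarith) ht1).ne']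

/-- The a priori estimate from a stability inequality with constant `κ < 1`. -/
theorem apriori_gen {X : Type*} [MeasurableSpace X] (μ : Measure X) [IsProbabilityMeasure μ]
    {ι : Type*} [Fintype ι] {P M : ℝ} (hP : 2 < P) [Fact (1 ≤ ENNReal.ofReal P)] (hM : 1 ≤ M)
    (T : Lp (EuclideanSpace ℂ ι) (ENNReal.ofReal P) μ →L[ℂ]
      Lp (EuclideanSpace ℂ ι) (ENNReal.ofReal P) μ) (hT : IsProj μ P M T)
    {s ε κ : ℝ} (hε : 0 < ε) (hsP : s < P) (htP1' : P / (P - 1) < s / (1 + ε)) (hκ : κ < 1)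
    (hκ0 : 0 ≤ κ)
    (u v : X → EuclideanSpace ℂ ι) (hu : MemLp u (ENNReal.ofReal s) μ)
    (hv : MemLp v (ENNReal.ofReal (s / (1 + ε))) μ)
    (hstab : ∀ g : Lp (EuclideanSpace ℂ ι) (ENNReal.ofReal P) μ,
      ‖∫ x, bp (((‖u x‖ ^ ε : ℝ) : ℂ) • u x) (T g x) ∂μ‖
      ≤ κ * (∫ x, ‖u x‖ ^ s ∂μ) ^ ((1 + ε) / s)
        * (∫ x, ‖g x‖ ^ ((s / (1 + ε)) / (s / (1 + ε) - 1)) ∂μ) ^ ((s / (1 + ε) - 1) / (s / (1 + ε))))
    (hco : ∀ g : Lp (EuclideanSpace ℂ ι) (ENNReal.ofReal P) μ,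
      ∫ x, bp (v x) (g x - T g x) ∂μ = 0) :
    ∫ x, ‖u x‖ ^ s ∂μ
      ≤ ((1 + M) / (1 - κ)) ^ (s / (1 + ε))
        * ∫ x, ‖((‖u x‖ ^ ε : ℝ) : ℂ) • u x - v x‖ ^ (s / (1 + ε)) ∂μ := by
  have hP1 : 0 < P - 1 := by linarith
  have h1ε : 0 < 1 + ε := by linarith
  have hPc : 1 < P / (P - 1) := by rw [one_lt_div hP1]; linarith
  set t : ℝ := s / (1 + ε) with htdef
  have htP1 : P / (P - 1) < t := htP1'
  have ht1 : 1 < t := hPc.trans htP1
  have ht0 : 0 < t := by linarith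
  have hst : s = t * (1 + ε) := by rw [htdef]; field_simp
  have hs0 : 0 < s := by rw [hst]; exact mul_pos ht0 h1ε
  have hts : t < s := by rw [hst]; nlinarith
  have htP : t < P := hts.trans hsP
  set t' : ℝ := t / (t - 1) with ht'
  have hconj : t.HolderConjugate t' := Real.HolderConjugate.conjExponent ht1
  have ht'0 : 0 < t' := hconj.symm.pos
  have ht'P : t' ≤ P := by
    have htP2 := htP1
    rw [ht', div_le_iff₀ (by linarith)]
    rw [div_lt_iff₀ hP1] at htP2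
    nlinarith
  -- the functions
  set h : X → EuclideanSpace ℂ ι := fun x => ((‖u x‖ ^ ε : ℝ) : ℂ) • u x with hh
  have hhn : ∀ x, ‖h x‖ = ‖u x‖ ^ (1 + ε) := by
    intro x
    rw [hh]
    dsimp only
    rw [norm_smul, Complex.norm_real, Real.norm_of_nonneg (Real.rpow_nonneg (norm_nonneg _) _)]
    rcases eq_or_lt_of_le (norm_nonneg (u x)) with h0 | h0
    · rw [← h0, mul_zero, Real.zero_rpow h1ε.ne']
    · rw [Real.rpow_add h0, Real.rpow_one, mul_comm]
  have hht : ∀ x, ‖h x‖ ^ t = ‖u x‖ ^ s := by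
    intro x
    rw [hhn, ← Real.rpow_mul (norm_nonneg _)]
    congr 1
    rw [hst]
    ring
  have hhm : AEStronglyMeasurable h μ := by
    have ha : AEStronglyMeasurable (fun x => ((‖u x‖ ^ ε : ℝ) : ℂ)) μ :=
      Complex.continuous_ofReal.comp_aestronglyMeasurable
        ((hu.1.norm.aemeasurable.pow_const ε).aestronglyMeasurable)
    exact ha.smul hu.1
  have hhL : MemLp h (ENNReal.ofReal t) μ := by
    have h1 := hu.norm_rpow_div (ENNReal.ofReal (1 + ε))
    rw [← ENNReal.ofReal_div_of_pos h1ε, ENNReal.toReal_ofReal h1ε.le] at h1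
    refine (memLp_norm_iff hhm).1 ?_
    refine h1.congr_norm ?_ (Filter.Eventually.of_forall fun x => ?_)
    · exact hhm.norm
    · rw [hhn]
  have hwL : MemLp (fun x => h x - v x) (ENNReal.ofReal t) μ := hhL.sub hv
  have hgL : ∀ g : Lp (EuclideanSpace ℂ ι) (ENNReal.ofReal P) μ,
      MemLp (g : X → EuclideanSpace ℂ ι) (ENNReal.ofReal t') μ := fun g =>
    (Lp.memLp g).mono_exponent (ENNReal.ofReal_le_ofReal ht'P)
  set A : ℝ := ∫ x, ‖u x‖ ^ s ∂μ with hA
  set B : ℝ := ∫ x, ‖h x - v x‖ ^ t ∂μ with hB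
  have hA0 : 0 ≤ A := integral_nonneg fun x => Real.rpow_nonneg (norm_nonneg _) _
  have hB0 : 0 ≤ B := integral_nonneg fun x => Real.rpow_nonneg (norm_nonneg _) _
  have hAh : A = ∫ x, ‖h x‖ ^ t ∂μ := by
    rw [hA]
    exact integral_congr_ae (Filter.Eventually.of_forall fun x => (hht x).symm)
  have hAint : Integrable (fun x => ‖h x‖ ^ t) μ := by
    have h1 := hhL.integrable_norm_rpow (by simpa using ht0) ENNReal.ofReal_ne_top
    rwa [ENNReal.toReal_ofReal ht0.le] at h1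
  set c : ℝ := κ * A ^ (1 / t) + (1 + M) * B ^ (1 / t) with hc
  have hA1 : 0 ≤ A ^ (1 / t) := Real.rpow_nonneg hA0 _
  have hB1 : 0 ≤ B ^ (1 / t) := Real.rpow_nonneg hB0 _
  have hc0 : 0 ≤ c := by
    rw [hc]
    have h1 : 0 ≤ (1 + M) * B ^ (1 / t) := mul_nonneg (by linarith) hB1
    have h2 : 0 ≤ κ * A ^ (1 / t) := mul_nonneg hκ0 hA1
    linarith
  -- the estimate for the truncated integrals
  have hkey : ∀ N : ℝ, 0 ≤ N →
      ∫ x, {x | ‖h x‖ ≤ N}.indicator (fun x => ‖h x‖ ^ t) x ∂μ ≤ c ^ t := by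
    intro N hN
    obtain ⟨g, hg1, hg2⟩ := d3g_test (P := P) μ ht1 h hhm N hN
    set I : ℝ := ∫ x, {x | ‖h x‖ ≤ N}.indicator (fun x => ‖h x‖ ^ t) x ∂μ with hI
    have hI0 : 0 ≤ I := integral_nonneg fun x => by
      refine Set.indicator_nonneg (fun y _ => Real.rpow_nonneg (norm_nonneg _) _) x
    have hgI : ∫ x, ‖g x‖ ^ t' ∂μ = I := integral_congr_ae hg2
    have h1 : (I : ℂ) = ∫ x, bp (h x) (g x) ∂μ := by
      rw [integral_congr_ae hg1, hI]
      exact integral_complex_ofReal.symm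
    have i1 := (d3g_holder μ hconj h _ hhL (hgL (T g))).1
    obtain ⟨i2, e2⟩ := d3g_holder μ hconj _ _ hwL (hgL g)
    have i3 := (d3g_holder μ hconj _ _ hwL (hgL (T g))).1
    have i4 := (d3g_holder μ hconj v _ hv (hgL g)).1
    have i5 := (d3g_holder μ hconj v _ hv (hgL (T g))).1
    have h2 : ∫ x, bp (h x) (g x) ∂μ = ∫ x, bp (h x) (T g x) ∂μ +
        (∫ x, bp (h x - v x) (g x) ∂μ - ∫ x, bp (h x - v x) (T g x) ∂μ) +
          ∫ x, bp (v x) (g x - T g x) ∂μ := by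
      have i23 : Integrable (fun x => bp (h x - v x) (g x) - bp (h x - v x) (T g x)) μ := i2.sub i3
      have i6 : Integrable (fun x => bp (v x) (g x - T g x)) μ := by
        refine (i4.sub i5).congr (Filter.Eventually.of_forall fun x => ?_)
        exact (d3g_bp_sub' (v x) (g x) (T g x)).symm
      have i123 : Integrable (fun x => bp (h x) (T g x) +
          (bp (h x - v x) (g x) - bp (h x - v x) (T g x))) μ := i1.add i23
      rw [← integral_sub i2 i3, ← integral_add i1 i23, ← integral_add i123 i6]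
      refine integral_congr_ae (Filter.Eventually.of_forall fun x => ?_)
      simp only [d3g_bp_sub, d3g_bp_sub']
      ring
    rw [hco g, add_zero] at h2
    have e1 := hstab g
    have e3 := pair_le μ hP hM T hT htP1 htP _ hwL g
    have ht'e : (t - 1) / t = 1 / t' := by
      rw [ht']
      field_simp
    have hst' : (1 + ε) / s = 1 / t := by
      rw [htdef]
      field_simp
    rw [ht'e, hst', hgI] at e1
    rw [← ht', ht'e, hgI, ← hB] at e3
    rw [hgI, ← hB] at e2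
    have hI1 : 0 ≤ I ^ (1 / t') := Real.rpow_nonneg hI0 _
    have e4 : I ≤ c * I ^ (1 / t') := by
      have e5 : I = ‖∫ x, bp (h x) (g x) ∂μ‖ := by
        rw [← h1, Complex.norm_real, Real.norm_of_nonneg hI0]
      have e6 : ‖∫ x, bp (h x) (g x) ∂μ‖ ≤ ‖∫ x, bp (h x) (T g x) ∂μ‖ +
          (‖∫ x, bp (h x - v x) (g x) ∂μ‖ + ‖∫ x, bp (h x - v x) (T g x) ∂μ‖) := by
        rw [h2]
        exact (norm_add_le _ _).trans (add_le_add le_rfl (norm_sub_le _ _))
      have e7 : ‖∫ x, bp (h x) (T g x) ∂μ‖ ≤ κ * A ^ (1 / t) * I ^ (1 / t') := e1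
      calc I = ‖∫ x, bp (h x) (g x) ∂μ‖ := e5
        _ ≤ _ := e6
        _ ≤ κ * A ^ (1 / t) * I ^ (1 / t') + (B ^ (1 / t) * I ^ (1 / t') +
            M * B ^ (1 / t) * I ^ (1 / t')) := add_le_add e7 (add_le_add e2 e3)
        _ = c * I ^ (1 / t') := by rw [hc]; ring
    rcases eq_or_lt_of_le hI0 with hz | hz
    · rw [← hz]
      exact Real.rpow_nonneg hc0 _
    · have e8 : I = I ^ (1 / t) * I ^ (1 / t') := by
        rw [← Real.rpow_add hz]
        have h3 := hconj.inv_add_inv_eq_one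
        rw [one_div, one_div, h3, Real.rpow_one]
      have hI2 : 0 < I ^ (1 / t') := Real.rpow_pos_of_pos hz _
      have e9 : I ^ (1 / t) ≤ c := by
        have e10 : I ^ (1 / t) * I ^ (1 / t') ≤ c * I ^ (1 / t') := by
          rw [← e8]
          exact e4
        exact le_of_mul_le_mul_right e10 hI2
      calc I = (I ^ (1 / t)) ^ t := by
            rw [← Real.rpow_mul hI0, one_div_mul_cancel ht0.ne', Real.rpow_one]
        _ ≤ c ^ t := Real.rpow_le_rpow (Real.rpow_nonneg hI0 _) e9 ht0.le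
  -- the limit
  have hlim : Filter.Tendsto
      (fun N : ℕ => ∫ x, {x | ‖h x‖ ≤ (N : ℝ)}.indicator (fun x => ‖h x‖ ^ t) x ∂μ)
      Filter.atTop (nhds (∫ x, ‖h x‖ ^ t ∂μ)) := by
    refine tendsto_integral_of_dominated_convergence (fun x => ‖h x‖ ^ t) ?_ hAint ?_ ?_
    · intro N
      exact (hAint.aestronglyMeasurable).indicator₀
        (nullMeasurableSet_le hhm.norm.aemeasurable aemeasurable_const)
    · intro N
      refine Filter.Eventually.of_forall fun x => ?_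
      have h1 : 0 ≤ ‖h x‖ ^ t := Real.rpow_nonneg (norm_nonneg _) _
      by_cases hx : x ∈ {x | ‖h x‖ ≤ (N : ℝ)}
      · rw [Set.indicator_of_mem hx, Real.norm_of_nonneg h1]
      · rw [Set.indicator_of_notMem hx, norm_zero]
        exact h1
    · refine Filter.Eventually.of_forall fun x => ?_
      refine tendsto_const_nhds.congr' ?_
      filter_upwards [Filter.eventually_ge_atTop ⌈‖h x‖⌉₊] with N hN
      have hx : x ∈ {x | ‖h x‖ ≤ (N : ℝ)} := by
        have h1 : ‖h x‖ ≤ (⌈‖h x‖⌉₊ : ℝ) := Nat.le_ceil _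
        have h2 : ((⌈‖h x‖⌉₊ : ℕ) : ℝ) ≤ (N : ℝ) := by exact_mod_cast hN
        exact h1.trans h2
      rw [Set.indicator_of_mem hx]
  have hAc : A ≤ c ^ t := by
    rw [hAh]
    exact le_of_tendsto' hlim fun N => hkey N (Nat.cast_nonneg N)
  have hA2 : A ^ (1 / t) ≤ c := by
    calc A ^ (1 / t) ≤ (c ^ t) ^ (1 / t) := Real.rpow_le_rpow hA0 hAc (by positivity)
      _ = c := by rw [← Real.rpow_mul hc0, mul_one_div_cancel ht0.ne', Real.rpow_one]
  have h1κ : 0 < 1 - κ := by linarith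
  have hA3 : A ^ (1 / t) ≤ (1 + M) / (1 - κ) * B ^ (1 / t) := by
    rw [hc] at hA2
    rw [div_mul_eq_mul_div, le_div_iff₀ h1κ]
    linarith
  have hM2 : 0 ≤ (1 + M) / (1 - κ) := div_nonneg (by linarith) h1κ.le
  calc A = (A ^ (1 / t)) ^ t := by
        rw [← Real.rpow_mul hA0, one_div_mul_cancel ht0.ne', Real.rpow_one]
    _ ≤ ((1 + M) / (1 - κ) * B ^ (1 / t)) ^ t := Real.rpow_le_rpow hA1 hA3 ht0.le
    _ = ((1 + M) / (1 - κ)) ^ t * B := by
        rw [Real.mul_rpow hM2 hB1, ← Real.rpow_mul hB0, one_div_mul_cancel ht0.ne', Real.rpow_one]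

end Pool.Agent.Lib.QR
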