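import Mathlib

/-!
MP_ba1c0b_an: weakly 1-quasiregular maps in odd dimensions.  Definitions.
Captain: helper78.
-/

set_option autoImplicit false

open MeasureTheory
open scoped ENNReal NNReal

namespace Pool.Agent.Lib.QR

/-- Euclidean space `R^n`. -/
abbrev E (n : ℕ) := EuclideanSpace ℝ (Fin n)

/-- The complex fermionic Fock space over `Fin n`: basis = subsets of `Fin n`. -/
abbrev V (n : ℕ) := EuclideanSpace ℂ (Finset (Fin n))

/-- The bilinear pairing of `ℂ^ι`. -/
noncomputable def bp {ι : Type*} [Fintype ι] (x y : EuclideanSpace ℂ ι) : ℂ := ∑ i, x i * y i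

/-- The sign `(-1)^#{i ∈ S | i < j}`. -/
def sg {n : ℕ} (j : Fin n) (S : Finset (Fin n)) : ℤ := (-1) ^ (S.filter (· < j)).card

/-- Creation operator (wedge product with the covector `v`). -/
noncomputable def cr {n : ℕ} (v : Fin n → ℝ) : V n →ₗ[ℂ] V n where
  toFun x := WithLp.toLp 2 (fun S => ∑ j ∈ S, (v j : ℂ) * (sg j S : ℂ) * x (S.erase j))
  map_add' x y := by
    ext S
    simp [mul_add, Finset.sum_add_distrib]
  map_smul' c x := by
    ext S
    simp only [PiLp.smul_apply, smul_eq_mul, RingHom.id_apply, Finset.mul_sum]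
    exact Finset.sum_congr rfl fun j _ => by ring

/-- Annihilation operator (contraction with `v`). -/
noncomputable def an {n : ℕ} (v : Fin n → ℝ) : V n →ₗ[ℂ] V n where
  toFun x := WithLp.toLp 2 (fun S => ∑ j ∈ Sᶜ, (v j : ℂ) * (sg j S : ℂ) * x (insert j S))
  map_add' x y := by
    ext S
    simp [mul_add, Finset.sum_add_distrib]
  map_smul' c x := by
    ext S
    simp only [PiLp.smul_apply, smul_eq_mul, RingHom.id_apply, Finset.mul_sum]
    exact Finset.sum_congr rfl fun j _ => by ring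

/-- Projection to the elements of degree `k`. -/
noncomputable def dg {n : ℕ} (k : ℕ) : V n →ₗ[ℂ] V n where
  toFun x := WithLp.toLp 2 (fun S => if S.card = k then x S else 0)
  map_add' x y := by
    ext S
    by_cases h : S.card = k <;> simp [h]
  map_smul' c x := by
    ext S
    by_cases h : S.card = k <;> simp [h]

/-- Being homogeneous of degree `k`. -/
def IsDeg {n : ℕ} (k : ℕ) (x : V n) : Prop := ∀ S : Finset (Fin n), S.card ≠ k → x S = 0

/-- The vacuum. -/
noncomputable def vac {n : ℕ} : V n := EuclideanSpace.single ∅ 1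

/-- The volume element. -/
noncomputable def vol {n : ℕ} : V n := EuclideanSpace.single Finset.univ 1

/-- Square of the Euclidean norm of a plain vector. -/
def nsq {n : ℕ} (v : Fin n → ℝ) : ℝ := ∑ j, v j ^ 2

/-- The frequency `ξ` as a real vector. -/
def fr {n : ℕ} (ξ : Fin n → ℤ) : Fin n → ℝ := fun j => (ξ j : ℝ)

/-- Symbol of the projection to coexact forms of degree `k`. -/
noncomputable def Pj {n : ℕ} (k : ℕ) (ξ : Fin n → ℤ) : V n →ₗ[ℂ] V n :=
  (((nsq (fr ξ))⁻¹ : ℝ) : ℂ) • ((an (fr ξ)) ∘ₗ (cr (fr ξ)) ∘ₗ (dg k))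

/-- Normalised Haar measure of the torus. -/
noncomputable def μT (n : ℕ) : Measure (UnitAddTorus (Fin n)) :=
  Measure.pi (fun _ => AddCircle.haarAddCircle)

instance (n : ℕ) : IsProbabilityMeasure (μT n) := by
  unfold μT; infer_instance

/-- Vector valued trigonometric sums. -/
noncomputable def tp {n : ℕ} {W : Type*} [NormedAddCommGroup W] [NormedSpace ℂ W]
    (S : Finset (Fin n → ℤ)) (a : (Fin n → ℤ) → W) (x : UnitAddTorus (Fin n)) : W :=
  ∑ ξ ∈ S, UnitAddTorus.mFourier ξ x • a ξ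

/-- The `i`-th row (gradient of the `i`-th component) of a linear map. -/
noncomputable def row {n : ℕ} (A : E n →L[ℝ] E n) (i : Fin n) : Fin n → ℝ :=
  fun j => A (EuclideanSpace.single j 1) i

/-- Product of creation operators. -/
noncomputable def crl {n : ℕ} (L : List (Fin n → ℝ)) (x : V n) : V n :=
  L.foldr (fun v y => cr v y) x

/-- Product of annihilation operators. -/
noncomputable def anl {n : ℕ} (L : List (Fin n → ℝ)) (x : V n) : V n :=
  L.foldr (fun v y => an v y) x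

/-- The `l`-form `df_1 ∧ ... ∧ df_l` of a linear map. -/
noncomputable def fU {n : ℕ} (l : ℕ) (A : E n →L[ℝ] E n) : V n :=
  crl ((List.ofFn (row A)).take l) vac

/-- The Hodge dual of `df_{l+1} ∧ ... ∧ df_n`. -/
noncomputable def fV {n : ℕ} (l : ℕ) (A : E n →L[ℝ] E n) : V n :=
  anl ((List.ofFn (row A)).drop l).reverse vol

/-- Orientation preserving conformal matrices (or zero), as in the problem. -/
def Conf {n : ℕ} (A : E n →L[ℝ] E n) : Prop :=
  ‖A‖ ^ n ≤ LinearMap.det (A : E n →ₗ[ℝ] E n)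

/-- The open unit cube centred at zero. -/
def cube (n : ℕ) : Set (E n) := {x | ∀ i, |x i| < 1 / 2}

/-- Compactly supported Sobolev maps `g` of exponent `q` with weak derivative `Dg`. -/
structure SobC {n : ℕ} (q : ℝ) (g : E n → E n) (Dg : E n → E n →L[ℝ] E n) : Prop where
  mem : MemLp g (ENNReal.ofReal q) volume
  memD : MemLp Dg (ENNReal.ofReal q) volume
  supp : ∃ R : ℝ, ∀ x, R < ‖x‖ → g x = 0 ∧ Dg x = 0
  weak : ∀ φ : E n → ℝ, ContDiff ℝ ((⊤ : ℕ∞) : WithTop ℕ∞) φ → HasCompactSupport φ →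
    ∀ v : E n, ∫ x, (fderiv ℝ φ x v) • g x = -∫ x, φ x • Dg x v

/-- The coercivity inequality at exponent `q` with constant `C`. -/
def Coer {n : ℕ} (q : ℝ) (C : ℝ≥0) : Prop :=
  ∀ (g : E n → E n) (Dg A : E n → E n →L[ℝ] E n), SobC q g Dg →
    MemLp A (ENNReal.ofReal q) volume → (∀ᵐ x, Conf (A x)) →
    (∃ R : ℝ, ∀ x, R < ‖x‖ → A x = 0) →
    ∫⁻ x, ‖A x‖ₑ ^ q ≤ C * ∫⁻ x, ‖Dg x - A x‖ₑ ^ q

/-- The property of `q` in the definition of `q(n,1)` (verbatim the set of the frozen statement). -/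
def QProp (n : ℕ) (q : ℝ) : Prop :=
  1 < q ∧ q ≤ (n : ℝ) ∧
      ∀ (Ω : Set (EuclideanSpace ℝ (Fin n)))
        (f : EuclideanSpace ℝ (Fin n) → EuclideanSpace ℝ (Fin n))
        (Df : EuclideanSpace ℝ (Fin n) →
          (EuclideanSpace ℝ (Fin n) →L[ℝ] EuclideanSpace ℝ (Fin n))),
        IsOpen Ω →
        (∀ C : Set (EuclideanSpace ℝ (Fin n)), IsCompact C → C ⊆ Ω →
          MeasureTheory.MemLp f (ENNReal.ofReal q) (MeasureTheory.volume.restrict C) ∧
          MeasureTheory.MemLp Df (ENNReal.ofReal q) (MeasureTheory.volume.restrict C)) →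
        (∀ φ : EuclideanSpace ℝ (Fin n) → ℝ,
          ContDiff ℝ ((⊤ : ℕ∞) : WithTop ℕ∞) φ → HasCompactSupport φ → tsupport φ ⊆ Ω →
          ∀ v : EuclideanSpace ℝ (Fin n),
            ∫ x, (fderiv ℝ φ x v) • f x = -∫ x, φ x • Df x v) →
        (∀ᵐ x ∂(MeasureTheory.volume.restrict Ω),
          ‖Df x‖ ^ n ≤ LinearMap.det
            (Df x : EuclideanSpace ℝ (Fin n) →ₗ[ℝ] EuclideanSpace ℝ (Fin n))) →
        ∀ C : Set (EuclideanSpace ℝ (Fin n)), IsCompact C → C ⊆ Ω →
          MeasureTheory.MemLp f (n : ENNReal) (MeasureTheory.volume.restrict C) ∧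
          MeasureTheory.MemLp Df (n : ENNReal) (MeasureTheory.volume.restrict C)

/-- The critical exponent `q(n,1)`. -/
noncomputable def qexp (n : ℕ) : ℝ := sInf {q : ℝ | QProp n q}

end Pool.Agent.Lib.QR
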