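import Pool.Agent.Lib.MP_ba1c0b_an.A5

/-!
F1: the middle forms of smooth compactly supported maps are closed and coclosed.
-/

set_option autoImplicit false

open MeasureTheory
open scoped ENNReal

namespace Pool.Agent.Lib.QR

variable {n : ℕ}

private theorem int_fderiv_zero (ψ : E n → V n) (hψ : ContDiff ℝ ((⊤ : ℕ∞) : WithTop ℕ∞) ψ)
    (hc : HasCompactSupport ψ) (v : E n) :
    Integrable (fun x => fderiv ℝ ψ x v) ∧ ∫ x, fderiv ℝ ψ x v = 0 := by
  have hd : Continuous (fun x => fderiv ℝ ψ x v) :=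
    (hψ.continuous_fderiv (by simp)).clm_apply continuous_const
  have hcd : HasCompactSupport (fun x => fderiv ℝ ψ x v) := by
    have := hc.fderiv (𝕜 := ℝ)
    exact this.comp_left (g := fun L : E n →L[ℝ] V n => L v) (by simp)
  have hi : Integrable (fun x => fderiv ℝ ψ x v) := hd.integrable_of_hasCompactSupport hcd
  refine ⟨hi, ?_⟩
  have h := integral_smul_fderiv_eq_neg_fderiv_smul_of_integrable (𝕜 := ℝ)
    (μ := (volume : Measure (E n)))
    (f := fun _ : E n => (1 : ℝ)) (g := ψ) (v := v) (by simp) (by simpa using hi)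
    (by simpa using hψ.continuous.integrable_of_hasCompactSupport hc)
    (fun x _ => differentiableAt_const _)
    (fun x _ => (hψ.differentiable (by simp)).differentiableAt)
  simpa using h

private noncomputable def gr (g : E n → ℝ) (x : E n) : Fin n → ℝ :=
  fun j => fderiv ℝ g x (EuclideanSpace.single j 1)

private noncomputable def DD (B : (Fin n → ℝ) → V n →ₗ[ℂ] V n) (ψ : E n → V n) (x : E n) : V n :=
  ∑ j, B (Pi.single j (1 : ℝ)) (fderiv ℝ ψ x (EuclideanSpace.single j 1))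

private noncomputable def bk (B : (Fin n → ℝ) → V n →ₗ[ℂ] V n) (k : Fin n) : V n →L[ℝ] V n :=
  (LinearMap.toContinuousLinearMap (B (Pi.single k (1 : ℝ)))).restrictScalars ℝ

private theorem bk_apply (B : (Fin n → ℝ) → V n →ₗ[ℂ] V n) (k : Fin n) (x : V n) :
    bk B k x = B (Pi.single k (1 : ℝ)) x := rfl

private theorem B_gr (B : (Fin n → ℝ) → V n →ₗ[ℂ] V n)
    (hs : ∀ v x, B v x = ∑ j, (v j : ℂ) • B (Pi.single j (1 : ℝ)) x)
    (g : E n → ℝ) (ψ : E n → V n) :
    (fun y => B (gr g y) (ψ y)) =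
      fun y => ∑ k, (fderiv ℝ g y (EuclideanSpace.single k 1)) • bk B k (ψ y) := by
  funext y
  rw [hs]
  refine Finset.sum_congr rfl fun k _ => ?_
  rw [bk_apply]
  simp only [gr]
  exact Complex.coe_smul _ _

private theorem smooth_B_gr (B : (Fin n → ℝ) → V n →ₗ[ℂ] V n)
    (hs : ∀ v x, B v x = ∑ j, (v j : ℂ) • B (Pi.single j (1 : ℝ)) x)
    (g : E n → ℝ) (hg : ContDiff ℝ ((⊤ : ℕ∞) : WithTop ℕ∞) g)
    (ψ : E n → V n) (hψ : ContDiff ℝ ((⊤ : ℕ∞) : WithTop ℕ∞) ψ) :
    ContDiff ℝ ((⊤ : ℕ∞) : WithTop ℕ∞) (fun y => B (gr g y) (ψ y)) := by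
  rw [B_gr B hs]
  refine ContDiff.sum fun k _ => ?_
  have ha : ContDiff ℝ ((⊤ : ℕ∞) : WithTop ℕ∞)
      (fun y => fderiv ℝ g y (EuclideanSpace.single k 1)) :=
    (hg.fderiv_right (by simp)).clm_apply contDiff_const
  exact ha.smul ((bk B k).contDiff.comp hψ)

private theorem DD_key (B : (Fin n → ℝ) → V n →ₗ[ℂ] V n)
    (hBB : ∀ v w x, B v (B w x) = -B w (B v x))
    (hs : ∀ v x, B v x = ∑ j, (v j : ℂ) • B (Pi.single j (1 : ℝ)) x)
    (g : E n → ℝ) (hg : ContDiff ℝ ((⊤ : ℕ∞) : WithTop ℕ∞) g)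
    (ψ : E n → V n) (hψ : ContDiff ℝ ((⊤ : ℕ∞) : WithTop ℕ∞) ψ) (x : E n) :
    DD B (fun y => B (gr g y) (ψ y)) x = -B (gr g x) (DD B ψ x) := by
  have h1 : ∀ k : Fin n, HasFDerivAt (fun y => fderiv ℝ g y (EuclideanSpace.single k 1))
      ((ContinuousLinearMap.apply ℝ ℝ (EuclideanSpace.single k (1 : ℝ))).comp
        (fderiv ℝ (fderiv ℝ g) x)) x := by
    intro k
    have hd : DifferentiableAt ℝ (fderiv ℝ g) x :=
      ((hg.fderiv_right (m := ((⊤ : ℕ∞) : WithTop ℕ∞)) (by simp)).differentiable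
        (by simp)).differentiableAt
    exact (ContinuousLinearMap.apply ℝ ℝ
      (EuclideanSpace.single k (1 : ℝ))).hasFDerivAt.comp x hd.hasFDerivAt
  have h2 : ∀ k : Fin n, HasFDerivAt (fun y => bk B k (ψ y)) ((bk B k).comp (fderiv ℝ ψ x)) x := by
    intro k
    exact (bk B k).hasFDerivAt.comp x (hψ.differentiable (by simp)).differentiableAt.hasFDerivAt
  have h3 : fderiv ℝ (fun y => ∑ k, (fderiv ℝ g y (EuclideanSpace.single k 1)) • bk B k (ψ y)) x
      = ∑ k, ((fderiv ℝ g x (EuclideanSpace.single k 1)) • ((bk B k).comp (fderiv ℝ ψ x)) +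
        ((ContinuousLinearMap.apply ℝ ℝ (EuclideanSpace.single k (1 : ℝ))).comp
        (fderiv ℝ (fderiv ℝ g) x)).smulRight (bk B k (ψ x))) := by
    exact (HasFDerivAt.fun_sum fun k _ => (h1 k).smul (h2 k)).fderiv
  have hsym : ∀ j k : Fin n,
      fderiv ℝ (fderiv ℝ g) x (EuclideanSpace.single j 1) (EuclideanSpace.single k 1) =
      fderiv ℝ (fderiv ℝ g) x (EuclideanSpace.single k 1) (EuclideanSpace.single j 1) := by
    intro j k
    have := (hg.contDiffAt (x := x)).isSymmSndFDerivAt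
      (by rw [minSmoothness_of_isRCLikeNormedField]; exact WithTop.coe_le_coe.mpr le_top)
    exact this _ _
  have h0 : DD B (fun y => B (gr g y) (ψ y)) x =
      ∑ j, ∑ k, ((fderiv ℝ g x (EuclideanSpace.single k 1)) •
          B (Pi.single j (1 : ℝ)) (B (Pi.single k (1 : ℝ))
            (fderiv ℝ ψ x (EuclideanSpace.single j 1))) +
        (fderiv ℝ (fderiv ℝ g) x (EuclideanSpace.single j 1) (EuclideanSpace.single k 1)) •
          B (Pi.single j (1 : ℝ)) (B (Pi.single k (1 : ℝ)) (ψ x))) := by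
    unfold DD
    rw [B_gr B hs, h3]
    refine Finset.sum_congr rfl fun j _ => ?_
    rw [sum_apply, map_sum]
    refine Finset.sum_congr rfl fun k _ => ?_
    simp only [add_apply, smul_apply,
      ContinuousLinearMap.comp_apply, ContinuousLinearMap.smulRight_apply,
      ContinuousLinearMap.apply_apply, bk_apply, map_add, LinearMap.map_smul_of_tower]
  rw [h0]
  simp only [Finset.sum_add_distrib]
  have hS : ∑ j, ∑ k, (fderiv ℝ (fderiv ℝ g) x (EuclideanSpace.single j 1)
      (EuclideanSpace.single k 1)) •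
        B (Pi.single j (1 : ℝ)) (B (Pi.single k (1 : ℝ)) (ψ x)) = 0 := by
    set S := ∑ j, ∑ k, (fderiv ℝ (fderiv ℝ g) x (EuclideanSpace.single j 1)
      (EuclideanSpace.single k 1)) •
        B (Pi.single j (1 : ℝ)) (B (Pi.single k (1 : ℝ)) (ψ x)) with hSd
    have : S = -S := by
      conv_lhs => rw [hSd, Finset.sum_comm]
      rw [hSd, ← Finset.sum_neg_distrib]
      refine Finset.sum_congr rfl fun j _ => ?_
      rw [← Finset.sum_neg_distrib]
      refine Finset.sum_congr rfl fun k _ => ?_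
      rw [hsym k j, hBB (Pi.single k (1 : ℝ)) (Pi.single j (1 : ℝ)), smul_neg]
    have h2 : (2 : ℝ) • S = 0 := by
      rw [two_smul]
      nth_rewrite 2 [this]
      exact add_neg_cancel S
    exact (smul_eq_zero.mp h2).resolve_left two_ne_zero
  rw [hS, add_zero, hs (gr g x) (DD B ψ x), ← Finset.sum_neg_distrib, Finset.sum_comm]
  refine Finset.sum_congr rfl fun k _ => ?_
  unfold DD
  rw [map_sum, Finset.smul_sum, ← Finset.sum_neg_distrib]
  refine Finset.sum_congr rfl fun j _ => ?_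
  rw [hBB (Pi.single j (1 : ℝ)) (Pi.single k (1 : ℝ)), smul_neg]
  simp only [gr]
  rw [Complex.coe_smul]

private theorem B_zero (B : (Fin n → ℝ) → V n →ₗ[ℂ] V n)
    (hs : ∀ v x, B v x = ∑ j, (v j : ℂ) • B (Pi.single j (1 : ℝ)) x) (x : V n) :
    B 0 x = 0 := by
  rw [hs]; simp

private theorem supp1 (B : (Fin n → ℝ) → V n →ₗ[ℂ] V n)
    (g : E n → ℝ) (ψ : E n → V n) (hc : HasCompactSupport ψ) :
    HasCompactSupport (fun y => B (gr g y) (ψ y)) := by
  refine hc.mono ?_
  intro y hy h0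
  apply hy
  simp only
  rw [h0, map_zero]

private theorem supp2 (B : (Fin n → ℝ) → V n →ₗ[ℂ] V n)
    (hs : ∀ v x, B v x = ∑ j, (v j : ℂ) • B (Pi.single j (1 : ℝ)) x)
    (g : E n → ℝ) (hc : HasCompactSupport g) (ψ : E n → V n) :
    HasCompactSupport (fun y => B (gr g y) (ψ y)) := by
  refine (hc.fderiv (𝕜 := ℝ)).mono ?_
  intro y hy h0
  apply hy
  have : gr g y = 0 := by
    funext j
    simp only [gr]
    rw [h0]; rfl
  simp only
  rw [this, B_zero B hs]

private noncomputable def bpl (z : V n) : V n →ₗ[ℂ] ℂ where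
  toFun y := bp z y
  map_add' x y := by simp [bp, mul_add, Finset.sum_add_distrib]
  map_smul' c x := by
    simp only [bp, PiLp.smul_apply, smul_eq_mul, RingHom.id_apply, Finset.mul_sum]
    exact Finset.sum_congr rfl fun j _ => by ring

private theorem bp_neg_right (x y : V n) : bp x (-y) = -bp x y :=
  (bpl x).map_neg y

private theorem gen_aux (A B : (Fin n → ℝ) → V n →ₗ[ℂ] V n)
    (hAB : ∀ v x y, bp (A v x) y = bp x (B v y))
    (hBB : ∀ v w x, B v (B w x) = -B w (B v x))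
    (hs : ∀ v x, B v x = ∑ j, (v j : ℂ) • B (Pi.single j (1 : ℝ)) x) (z : V n)
    (L : List (E n → ℝ)) (h1 : ∀ g ∈ L, ContDiff ℝ ((⊤ : ℕ∞) : WithTop ℕ∞) g) :
    ∀ (ψ : E n → V n), ContDiff ℝ ((⊤ : ℕ∞) : WithTop ℕ∞) ψ → HasCompactSupport ψ →
    ∫ x, bp ((L.map fun g => gr g x).foldr (fun v y => A v y) z) (DD B ψ x) = 0 := by
  induction L with
  | nil =>
    intro ψ hψ hc
    simp only [List.map_nil, List.foldr_nil]
    have he : (fun x => bp z (DD B ψ x)) = fun x => ∑ j,
        (((LinearMap.toContinuousLinearMap (bpl z)).restrictScalars ℝ).comp (bk B j))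
          (fderiv ℝ ψ x (EuclideanSpace.single j 1)) := by
      funext x
      have : bp z (DD B ψ x) = bpl z (DD B ψ x) := rfl
      rw [this]
      unfold DD
      rw [map_sum]
      rfl
    rw [he, integral_finsetSum _ fun j _ => ContinuousLinearMap.integrable_comp _
      (int_fderiv_zero ψ hψ hc _).1]
    refine Finset.sum_eq_zero fun j _ => ?_
    rw [ContinuousLinearMap.integral_comp_comm _ (int_fderiv_zero ψ hψ hc _).1,
      (int_fderiv_zero ψ hψ hc _).2, map_zero]
  | cons g L ih =>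
    intro ψ hψ hc
    have hg := h1 g (by simp)
    have := ih (fun f hf => h1 f (by simp [hf])) (fun y => B (gr g y) (ψ y))
      (smooth_B_gr B hs g hg ψ hψ) (supp1 B g ψ hc)
    simp only [List.map_cons, List.foldr_cons]
    have he : ∀ x, bp (A (gr g x) ((L.map fun g => gr g x).foldr (fun v y => A v y) z)) (DD B ψ x)
        = -bp ((L.map fun g => gr g x).foldr (fun v y => A v y) z)
          (DD B (fun y => B (gr g y) (ψ y)) x) := by
      intro x
      rw [hAB, DD_key B hBB hs g hg ψ hψ, bp_neg_right, neg_neg]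
    simp only [he]
    rw [integral_neg, this, neg_zero]

private theorem gen_main (A B : (Fin n → ℝ) → V n →ₗ[ℂ] V n)
    (hAB : ∀ v x y, bp (A v x) y = bp x (B v y))
    (hBB : ∀ v w x, B v (B w x) = -B w (B v x))
    (hs : ∀ v x, B v x = ∑ j, (v j : ℂ) • B (Pi.single j (1 : ℝ)) x) (z : V n)
    (L : List (E n → ℝ)) (hL : L ≠ []) (h1 : ∀ g ∈ L, ContDiff ℝ ((⊤ : ℕ∞) : WithTop ℕ∞) g)
    (h2 : ∀ g ∈ L, HasCompactSupport g)
    (ψ : E n → V n) (hψ : ContDiff ℝ ((⊤ : ℕ∞) : WithTop ℕ∞) ψ) :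
    ∫ x, bp ((L.map fun g => gr g x).foldr (fun v y => A v y) z) (DD B ψ x) = 0 := by
  cases L with
  | nil => exact absurd rfl hL
  | cons g L =>
    have hg := h1 g (by simp)
    have := gen_aux A B hAB hBB hs z L (fun f hf => h1 f (by simp [hf]))
      (fun y => B (gr g y) (ψ y))
      (smooth_B_gr B hs g hg ψ hψ) (supp2 B hs g (h2 g (by simp)) ψ)
    simp only [List.map_cons, List.foldr_cons]
    have he : ∀ x, bp (A (gr g x) ((L.map fun g => gr g x).foldr (fun v y => A v y) z)) (DD B ψ x)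
        = -bp ((L.map fun g => gr g x).foldr (fun v y => A v y) z)
          (DD B (fun y => B (gr g y) (ψ y)) x) := by
      intro x
      rw [hAB, DD_key B hBB hs g hg ψ hψ, bp_neg_right, neg_neg]
    simp only [he]
    rw [integral_neg, this, neg_zero]

theorem closed_list (L : List (E n → ℝ)) (hL : L ≠ []) (h1 : ∀ g ∈ L, ContDiff ℝ ((⊤ : ℕ∞) : WithTop ℕ∞) g)
    (h2 : ∀ g ∈ L, HasCompactSupport g) (ψ : E n → V n)
    (hψ : ContDiff ℝ ((⊤ : ℕ∞) : WithTop ℕ∞) ψ) :
    ∫ x, bp (crl (L.map fun g => fun j => fderiv ℝ g x (EuclideanSpace.single j 1)) vac)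
      (∑ j, an (Pi.single j (1 : ℝ)) (fderiv ℝ ψ x (EuclideanSpace.single j 1))) = 0 :=
  gen_main cr an bp_cr an_an an_eq_sum vac L hL h1 h2 ψ hψ

theorem coclosed_list (L : List (E n → ℝ)) (hL : L ≠ [])
    (h1 : ∀ g ∈ L, ContDiff ℝ ((⊤ : ℕ∞) : WithTop ℕ∞) g)
    (h2 : ∀ g ∈ L, HasCompactSupport g) (ψ : E n → V n)
    (hψ : ContDiff ℝ ((⊤ : ℕ∞) : WithTop ℕ∞) ψ) :
    ∫ x, bp (anl (L.map fun g => fun j => fderiv ℝ g x (EuclideanSpace.single j 1)) vol)
      (∑ j, cr (Pi.single j (1 : ℝ)) (fderiv ℝ ψ x (EuclideanSpace.single j 1))) = 0 :=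
  gen_main an cr bp_an cr_cr cr_eq_sum vol L hL h1 h2 ψ hψ

private theorem fderiv_comp (g : E n → E n)
    (hg : ContDiff ℝ ((⊤ : ℕ∞) : WithTop ℕ∞) g) (i : Fin n) (x : E n) :
    fderiv ℝ (fun y => g y i) x = (EuclideanSpace.proj i : E n →L[ℝ] ℝ).comp (fderiv ℝ g x) := by
  have h := (EuclideanSpace.proj i : E n →L[ℝ] ℝ).hasFDerivAt.comp x
    (hg.differentiable (by simp)).differentiableAt.hasFDerivAt
  exact h.fderiv

private theorem row_gr (g : E n → E n)
    (hg : ContDiff ℝ ((⊤ : ℕ∞) : WithTop ℕ∞) g) (x : E n) :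
    List.ofFn (row (fderiv ℝ g x)) =
      (List.ofFn (fun (i : Fin n) (y : E n) => g y i)).map
        (fun h => fun j => fderiv ℝ h x (EuclideanSpace.single j 1)) := by
  rw [List.map_ofFn]
  congr 1
  funext i j
  simp only [row, Function.comp]
  rw [fderiv_comp g hg]
  rfl

private theorem comp_mem (g : E n → E n)
    (hg : ContDiff ℝ ((⊤ : ℕ∞) : WithTop ℕ∞) g) (hc : HasCompactSupport g)
    (h : E n → ℝ) (hh : h ∈ List.ofFn (fun (i : Fin n) (y : E n) => g y i)) :
    ContDiff ℝ ((⊤ : ℕ∞) : WithTop ℕ∞) h ∧ HasCompactSupport h := by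
  rw [List.mem_ofFn] at hh
  obtain ⟨i, rfl⟩ := hh
  refine ⟨(EuclideanSpace.proj i : E n →L[ℝ] ℝ).contDiff.comp hg, ?_⟩
  exact hc.comp_left (g := fun v : E n => v i) (by simp)

/-- For maps. PROOF: `row (fderiv ℝ g x) i j = fderiv ℝ (fun x => g x i) x (single j 1)`. -/
theorem closed_fU (l : ℕ) (hl : 1 ≤ l) (hl' : l ≤ n) (g : E n → E n)
    (hg : ContDiff ℝ ((⊤ : ℕ∞) : WithTop ℕ∞) g) (hc : HasCompactSupport g) (ψ : E n → V n)
    (hψ : ContDiff ℝ ((⊤ : ℕ∞) : WithTop ℕ∞) ψ) :
    ∫ x, bp (fU l (fderiv ℝ g x))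
      (∑ j, an (Pi.single j (1 : ℝ)) (fderiv ℝ ψ x (EuclideanSpace.single j 1))) = 0 := by
  have h := closed_list ((List.ofFn (fun (i : Fin n) (y : E n) => g y i)).take l)
    (by
      intro h0
      have := congrArg List.length h0
      simp at this
      omega)
    (fun f hf => (comp_mem g hg hc f (List.mem_of_mem_take hf)).1)
    (fun f hf => (comp_mem g hg hc f (List.mem_of_mem_take hf)).2) ψ hψ
  unfold fU
  simp only [row_gr g hg, ← List.map_take]
  exact h

theorem coclosed_fV (l : ℕ) (hl' : l < n) (g : E n → E n)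
    (hg : ContDiff ℝ ((⊤ : ℕ∞) : WithTop ℕ∞) g) (hc : HasCompactSupport g) (ψ : E n → V n)
    (hψ : ContDiff ℝ ((⊤ : ℕ∞) : WithTop ℕ∞) ψ) :
    ∫ x, bp (fV l (fderiv ℝ g x))
      (∑ j, cr (Pi.single j (1 : ℝ)) (fderiv ℝ ψ x (EuclideanSpace.single j 1))) = 0 := by
  have h := coclosed_list ((List.ofFn (fun (i : Fin n) (y : E n) => g y i)).drop l).reverse
    (by
      intro h0
      have := congrArg List.length h0
      simp at this
      omega)
    (fun f hf => (comp_mem g hg hc f (List.mem_of_mem_drop (List.mem_reverse.mp hf))).1)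
    (fun f hf => (comp_mem g hg hc f (List.mem_of_mem_drop (List.mem_reverse.mp hf))).2) ψ hψ
  unfold fV
  simp only [row_gr g hg, ← List.map_drop, ← List.map_reverse]
  exact h

/-- Mean value zero. -/
theorem mean_fV (l : ℕ) (hl' : l < n) (g : E n → E n)
    (hg : ContDiff ℝ ((⊤ : ℕ∞) : WithTop ℕ∞) g) (hc : HasCompactSupport g) (y : V n) :
    ∫ x, bp (fV l (fderiv ℝ g x)) y = 0 := by
  unfold fV
  simp only [row_gr g hg, ← List.map_drop, ← List.map_reverse]
  have hmem : ∀ f ∈ ((List.ofFn (fun (i : Fin n) (y : E n) => g y i)).drop l).reverse,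
      ContDiff ℝ ((⊤ : ℕ∞) : WithTop ℕ∞) f ∧ HasCompactSupport f :=
    fun f hf => comp_mem g hg hc f (List.mem_of_mem_drop (List.mem_reverse.mp hf))
  have hne : ((List.ofFn (fun (i : Fin n) (y : E n) => g y i)).drop l).reverse ≠ [] := by
    intro h0
    have := congrArg List.length h0
    simp at this
    omega
  generalize ((List.ofFn (fun (i : Fin n) (y : E n) => g y i)).drop l).reverse = M at hmem hne
  cases M with
  | nil => exact absurd rfl hne
  | cons f M =>
    have hf := hmem f (by simp)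
    have hsm : ContDiff ℝ ((⊤ : ℕ∞) : WithTop ℕ∞) (fun x => f x • y) :=
      hf.1.smul contDiff_const
    have hcs : HasCompactSupport (fun x => f x • y) := by
      refine hf.2.mono ?_
      intro x hx h0
      apply hx
      simp only
      rw [h0, zero_smul]
    have h := gen_aux an cr bp_an cr_cr cr_eq_sum vol M (fun f hf => (hmem f (by simp [hf])).1)
      (fun x => f x • y) hsm hcs
    have he : ∀ x, bp (anl (List.map (fun h => fun j => fderiv ℝ h x
        (EuclideanSpace.single j 1)) (f :: M)) vol) y =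
        bp ((M.map fun g => gr g x).foldr (fun v y => an v y) vol)
          (DD cr (fun x => f x • y) x) := by
      intro x
      unfold anl
      simp only [List.map_cons, List.foldr_cons]
      rw [bp_an, cr_eq_sum]
      unfold DD
      congr 1
      refine Finset.sum_congr rfl fun j _ => ?_
      have hd : fderiv ℝ (fun x => f x • y) x = (fderiv ℝ f x).smulRight y := by
        exact ((hf.1.differentiable (by simp)).differentiableAt.hasFDerivAt.smul_const y).fderiv
      rw [hd, ContinuousLinearMap.smulRight_apply, LinearMap.map_smul_of_tower, Complex.coe_smul]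
    simp only [he]
    exact h

end Pool.Agent.Lib.QR
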