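import Pool.Agent.Lib.MP_ba1c0b_an.F1
import Pool.Agent.Lib.MP_ba1c0b_an.B0

/-!
F3: transfer from the cube to the torus.
-/

set_option autoImplicit false

open MeasureTheory
open scoped ENNReal

namespace Pool.Agent.Lib.QR

variable {n : ℕ}

/-- The representative of a point of the torus in the cube `(-1/2, 1/2]^n`. -/
noncomputable def rep (n : ℕ) (x : UnitAddTorus (Fin n)) : E n :=
  WithLp.toLp 2 (UnitAddTorus.measurableEquivPiIoc (fun _ : Fin n => (-1 / 2 : ℝ)) x).1

theorem measurable_rep : Measurable (rep n) := by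
  unfold rep
  exact (PiLp.volume_preserving_toLp (Fin n)).measurable.comp
    (measurable_subtype_coe.comp (UnitAddTorus.measurableEquivPiIoc (fun _ : Fin n => (-1 / 2 : ℝ))).measurable)

/-- Integrals over the torus of functions of the representative.
PROOF: `UnitAddTorus.lintegral_preimage`/`integral_preimage` (with Mathlib's local measure instance; `μT` is the
same measure by `rfl`), `EuclideanSpace.volume_preserving_symm_measurableEquiv_toLp` or
`PiLp.volume_preserving_ofLp`, and the boundary of the cube is a null set. -/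
theorem map_rep : Measure.map (rep n) (μT n) = volume.restrict (cube n) := by
  have h1 : Measure.map (UnitAddTorus.measurableEquivPiIoc (fun _ : Fin n => (-1 / 2 : ℝ))) (μT n)
      = Measure.comap Subtype.val volume :=
    (UnitAddTorus.measurePreserving_equivPiIoc (fun _ : Fin n => (-1 / 2 : ℝ))).map_eq
  have hm : MeasurableSet {x : Fin n → ℝ | ∀ i, x i ∈ Set.Ioc (-1 / 2 : ℝ) (-1 / 2 + 1)} :=
    MeasurableSet.univ_pi' fun i => measurableSet_Ioc
  have h2 : Measure.map (Subtype.val :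
      {x : Fin n → ℝ // ∀ i, x i ∈ Set.Ioc (-1 / 2 : ℝ) (-1 / 2 + 1)} → Fin n → ℝ)
      (Measure.comap Subtype.val volume)
      = volume.restrict {x : Fin n → ℝ | ∀ i, x i ∈ Set.Ioc (-1 / 2 : ℝ) (-1 / 2 + 1)} :=
    map_comap_subtype_coe hm volume
  have h3 : (volume : Measure (Fin n → ℝ)).restrict
      {x : Fin n → ℝ | ∀ i, x i ∈ Set.Ioc (-1 / 2 : ℝ) (-1 / 2 + 1)}
      = volume.restrict ((WithLp.toLp 2 : (Fin n → ℝ) → E n) ⁻¹' (cube n)) := by
    apply Measure.restrict_congr_set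
    have e1 : {x : Fin n → ℝ | ∀ i, x i ∈ Set.Ioc (-1 / 2 : ℝ) (-1 / 2 + 1)}
        = Set.pi Set.univ (fun _ : Fin n => Set.Ioc (-1 / 2 : ℝ) (1 / 2)) := by
      ext x
      simp only [Set.mem_ofPred_eq, Set.mem_pi, Set.mem_univ, true_imp_iff, Set.mem_Ioc]
      norm_num
    have e2 : (WithLp.toLp 2 : (Fin n → ℝ) → E n) ⁻¹' (cube n)
        = Set.pi Set.univ (fun _ : Fin n => Set.Ioo (-1 / 2 : ℝ) (1 / 2)) := by
      ext x
      simp only [cube, Set.mem_preimage, Set.mem_ofPred_eq, Set.mem_pi, Set.mem_univ, true_imp_iff,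
        Set.mem_Ioo, abs_lt]
      constructor
      · intro h i
        have := h i
        constructor <;> linarith [this.1, this.2]
      · intro h i
        have := h i
        constructor <;> linarith [this.1, this.2]
    rw [e1, e2]
    exact Measure.univ_pi_Ioc_ae_eq_Icc.trans Measure.univ_pi_Ioo_ae_eq_Icc.symm
  have hc : MeasurableSet (cube n) := by
    have : cube n = ⋂ i, {x : E n | |x i| < 1 / 2} := by
      ext x; simp [cube]
    rw [this]
    refine MeasurableSet.iInter fun i => ?_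
    exact measurableSet_lt (by fun_prop) measurable_const
  have h4 : Measure.map (WithLp.toLp 2 : (Fin n → ℝ) → E n)
      ((volume : Measure (Fin n → ℝ)).restrict ((WithLp.toLp 2 : (Fin n → ℝ) → E n) ⁻¹' (cube n)))
      = volume.restrict (cube n) :=
    ((PiLp.volume_preserving_toLp (Fin n)).restrict_preimage hc).map_eq
  rw [← h4, ← h3, ← h2, ← h1, Measure.map_map measurable_subtype_coe
    (UnitAddTorus.measurableEquivPiIoc (fun _ : Fin n => (-1 / 2 : ℝ))).measurable,
    Measure.map_map (PiLp.volume_preserving_toLp (Fin n)).measurable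
    (measurable_subtype_coe.comp
      (UnitAddTorus.measurableEquivPiIoc (fun _ : Fin n => (-1 / 2 : ℝ))).measurable)]
  rfl

/-- The characters at the representative. -/
theorem mFourier_rep (ξ : Fin n → ℤ) (x : UnitAddTorus (Fin n)) :
    UnitAddTorus.mFourier ξ x
      = Complex.exp (2 * Real.pi * Complex.I * ((∑ j, (ξ j : ℝ) * rep n x j : ℝ) : ℂ)) := by
  have hx : ∀ i, ((rep n x i : ℝ) : UnitAddCircle) = x i := by
    intro i
    have := congrFun ((UnitAddTorus.measurableEquivPiIoc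
      (fun _ : Fin n => (-1 / 2 : ℝ))).symm_apply_apply x) i
    exact this
  unfold UnitAddTorus.mFourier
  rw [ContinuousMap.coe_mk]
  have : ∀ i, fourier (ξ i) (x i) = Complex.exp (2 * Real.pi * Complex.I * ((ξ i : ℝ) * rep n x i : ℝ)) := by
    intro i
    rw [← hx i, fourier_coe_apply]
    congr 1
    push_cast
    ring
  rw [Finset.prod_congr rfl fun i _ => this i, ← Complex.exp_sum]
  congr 1
  rw [← Finset.mul_sum]
  push_cast
  rfl

private theorem f3_bp_smul (c : ℂ) (x y : V n) : bp x (c • y) = c * bp x y := by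
  unfold bp
  rw [Finset.mul_sum]
  apply Finset.sum_congr rfl
  intro i _
  rw [PiLp.smul_apply, smul_eq_mul]
  ring

private theorem f3_bp_sub (x y z : V n) : bp x (y - z) = bp x y - bp x z := by
  unfold bp
  rw [← Finset.sum_sub_distrib]
  apply Finset.sum_congr rfl
  intro i _
  rw [PiLp.sub_apply]
  ring

private theorem f3_bp_zero_left (y : V n) : bp (0 : V n) y = 0 := by
  unfold bp
  simp

/-- The linear functional `ξ · x`. -/
private noncomputable def f3_L (ξ : Fin n → ℤ) : E n →L[ℝ] ℝ :=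
  ∑ j, (ξ j : ℝ) • (EuclideanSpace.proj j : E n →L[ℝ] ℝ)

private theorem f3_L_apply (ξ : Fin n → ℤ) (x : E n) : f3_L ξ x = ∑ j, (ξ j : ℝ) * x j := by
  simp [f3_L]

private theorem f3_L_single (ξ : Fin n → ℤ) (j : Fin n) :
    f3_L ξ (EuclideanSpace.single j (1 : ℝ)) = (ξ j : ℝ) := by
  rw [f3_L_apply, Finset.sum_eq_single j]
  · simp
  · intro b _ hb
    simp [hb]
  · simp

/-- The test form. -/
private noncomputable def f3_psi (ξ : Fin n → ℤ) (a : ℂ) (w : V n) (x : E n) : V n :=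
  (a * Complex.exp (2 * Real.pi * Complex.I * ((f3_L ξ x : ℝ) : ℂ))) • w

private theorem f3_psi_smooth (ξ : Fin n → ℤ) (a : ℂ) (w : V n) :
    ContDiff ℝ ((⊤ : ℕ∞) : WithTop ℕ∞) (f3_psi ξ a w) := by
  have h1 : ContDiff ℝ ((⊤ : ℕ∞) : WithTop ℕ∞) (fun x : E n => ((f3_L ξ x : ℝ) : ℂ)) :=
    Complex.ofRealCLM.contDiff.comp (f3_L ξ).contDiff
  unfold f3_psi
  exact (contDiff_const.mul (contDiff_const.mul h1).cexp).smul contDiff_const

private theorem f3_psi_deriv (ξ : Fin n → ℤ) (a : ℂ) (w : V n) (x v : E n) :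
    fderiv ℝ (f3_psi ξ a w) x v
      = (a * Complex.exp (2 * Real.pi * Complex.I * ((f3_L ξ x : ℝ) : ℂ))
          * (2 * Real.pi * Complex.I * ((f3_L ξ v : ℝ) : ℂ))) • w := by
  have h1 : HasFDerivAt (fun x : E n => ((f3_L ξ x : ℝ) : ℂ)) (Complex.ofRealCLM.comp (f3_L ξ)) x :=
    (Complex.ofRealCLM.comp (f3_L ξ)).hasFDerivAt
  have h2 := (((h1.const_mul (2 * Real.pi * Complex.I : ℂ)).cexp).const_mul a).smul_const w
  have h3 : fderiv ℝ (f3_psi ξ a w) x = _ := h2.fderiv
  rw [h3]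
  simp only [ContinuousLinearMap.smulRight_apply, smul_apply,
    ContinuousLinearMap.comp_apply, Complex.ofRealCLM_apply, smul_eq_mul]
  congr 1
  ring

private theorem f3_an_sum (ξ : Fin n → ℤ) (c : ℂ) (w : V n) :
    ∑ j, an (Pi.single j (1 : ℝ)) ((c * (2 * Real.pi * Complex.I * ((ξ j : ℝ) : ℂ))) • w)
      = (c * (2 * Real.pi * Complex.I)) • an (fr ξ) w := by
  rw [an_eq_sum (fr ξ) w, Finset.smul_sum]
  refine Finset.sum_congr rfl fun j _ => ?_
  rw [map_smul, smul_smul]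
  congr 1
  simp only [fr]
  ring

private theorem f3_cr_sum (ξ : Fin n → ℤ) (c : ℂ) (w : V n) :
    ∑ j, cr (Pi.single j (1 : ℝ)) ((c * (2 * Real.pi * Complex.I * ((ξ j : ℝ) : ℂ))) • w)
      = (c * (2 * Real.pi * Complex.I)) • cr (fr ξ) w := by
  rw [cr_eq_sum (fr ξ) w, Finset.smul_sum]
  refine Finset.sum_congr rfl fun j _ => ?_
  rw [map_smul, smul_smul]
  congr 1
  simp only [fr]
  ring

private theorem f3_nsq_ne (ξ : Fin n → ℤ) (hξ : ξ ≠ 0) : nsq (fr ξ) ≠ 0 := by
  intro h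
  apply hξ
  unfold nsq at h
  rw [Finset.sum_eq_zero_iff_of_nonneg (fun _ _ => by positivity)] at h
  funext j
  have := h j (Finset.mem_univ j)
  have h2 : fr ξ j = 0 := by
    exact pow_eq_zero_iff (two_ne_zero) |>.mp this
  unfold fr at h2
  exact_mod_cast h2

private theorem f3_fU_zero (l : ℕ) (hl : 1 ≤ l) (hl' : l ≤ n) :
    fU l (0 : E n →L[ℝ] E n) = 0 := by
  have h := fU_smul l hl' 0 (0 : E n →L[ℝ] E n)
  have e : ((0 : ℝ) • (0 : E n →L[ℝ] E n)) = 0 := by ext; simp
  rw [e] at h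
  rw [h, Complex.ofReal_zero, zero_pow (by omega), zero_smul]

private theorem f3_fV_zero (l : ℕ) (hl' : l < n) :
    fV l (0 : E n →L[ℝ] E n) = 0 := by
  have h := fV_smul l hl'.le 0 (0 : E n →L[ℝ] E n)
  have e : ((0 : ℝ) • (0 : E n →L[ℝ] E n)) = 0 := by ext; simp
  rw [e] at h
  rw [h, Complex.ofReal_zero, zero_pow (by omega), zero_smul]

private theorem f3_cont_bp {X : Type*} [TopologicalSpace X] {f h : X → V n} (hf : Continuous f)
    (hh : Continuous h) : Continuous fun x => bp (f x) (h x) := by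
  unfold bp
  refine continuous_finsetSum _ fun i _ => ?_
  exact ((EuclideanSpace.proj i : V n →L[ℂ] ℂ).continuous.comp hf).mul
    ((EuclideanSpace.proj i : V n →L[ℂ] ℂ).continuous.comp hh)

private theorem f3_transfer (F : E n → ℂ) (hF : Continuous F) (h0 : ∀ x, x ∉ cube n → F x = 0) :
    ∫ x, F (rep n x) ∂(μT n) = ∫ x, F x := by
  rw [← integral_map (φ := rep n) measurable_rep.aemeasurable (hF.aestronglyMeasurable), map_rep]
  exact setIntegral_eq_integral_of_forall_compl_eq_zero h0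

/-- PROOF: `map_rep` and `mFourier_rep` turn the integral into
`∫ x in cube n, bp (fU l (fderiv ℝ g x)) (exp (2πi ξ·x) • Pj l ξ y)`, the form vanishes outside the cube, and
`exp(2πi ξ·x) • Pj l ξ y = ∑ j, an e_j (∂_j ψ)` with
`ψ x = (exp (2πi ξ·x) / (2πi nsq ξ)) • cr ξ (dg l y)` (for `ξ ≠ 0`; `Pj l 0 = 0`); `closed_fU`. -/
theorem torus_closed (l : ℕ) (hl : 1 ≤ l) (hl' : l ≤ n) (g : E n → E n)
    (hg : ContDiff ℝ ((⊤ : ℕ∞) : WithTop ℕ∞) g) (hc : HasCompactSupport g)
    (hs : tsupport g ⊆ cube n) (ξ : Fin n → ℤ) (y : V n) :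
    ∫ x, bp (fU l (fderiv ℝ g (rep n x))) (UnitAddTorus.mFourier ξ x • Pj l ξ y) ∂(μT n) = 0 := by
  rcases eq_or_ne ξ 0 with rfl | hξ
  · have : ∀ x : UnitAddTorus (Fin n), bp (fU l (fderiv ℝ g (rep n x)))
        (UnitAddTorus.mFourier 0 x • Pj l 0 y) = 0 := by
      intro x
      rw [Pj_zero, smul_zero, ← zero_smul ℂ (0 : V n), f3_bp_smul, zero_mul]
    simp only [this, integral_zero]
  have hN := f3_nsq_ne ξ hξ
  have hg1 : Continuous (fderiv ℝ g) := hg.continuous_fderiv (by simp)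
  have key := closed_fU l hl hl' g hg hc
    (f3_psi ξ (2 * Real.pi * Complex.I * nsq (fr ξ))⁻¹ (cr (fr ξ) (dg l y)))
    (f3_psi_smooth _ _ _)
  have e1 : ∀ x : E n, ∑ j, an (Pi.single j (1 : ℝ))
      (fderiv ℝ (f3_psi ξ (2 * Real.pi * Complex.I * nsq (fr ξ))⁻¹ (cr (fr ξ) (dg l y))) x
        (EuclideanSpace.single j 1))
      = Complex.exp (2 * Real.pi * Complex.I * ((f3_L ξ x : ℝ) : ℂ)) • Pj l ξ y := by
    intro x
    simp only [f3_psi_deriv, f3_L_single]
    rw [f3_an_sum]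
    have : Pj l ξ y = (((nsq (fr ξ))⁻¹ : ℝ) : ℂ) • an (fr ξ) (cr (fr ξ) (dg l y)) := rfl
    rw [this, smul_smul]
    congr 1
    have hπ : (Real.pi : ℂ) ≠ 0 := by exact_mod_cast Real.pi_ne_zero
    have hN' : ((nsq (fr ξ) : ℝ) : ℂ) ≠ 0 := by exact_mod_cast hN
    push_cast
    field_simp
  have e2 : ∀ x : UnitAddTorus (Fin n), bp (fU l (fderiv ℝ g (rep n x)))
      (UnitAddTorus.mFourier ξ x • Pj l ξ y)
      = (fun z : E n => bp (fU l (fderiv ℝ g z))
        (Complex.exp (2 * Real.pi * Complex.I * ((f3_L ξ z : ℝ) : ℂ)) • Pj l ξ y)) (rep n x) := by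
    intro x
    simp only [mFourier_rep, f3_L_apply]
  refine (integral_congr_ae (Filter.Eventually.of_forall e2)).trans ?_
  refine (f3_transfer (fun z : E n => bp (fU l (fderiv ℝ g z))
        (Complex.exp (2 * Real.pi * Complex.I * ((f3_L ξ z : ℝ) : ℂ)) • Pj l ξ y)) ?_ ?_).trans ?_
  · refine f3_cont_bp ((continuous_fU l).comp hg1) ?_
    have := (f3_psi_smooth ξ 1 (Pj l ξ y)).continuous
    unfold f3_psi at this
    simpa only [one_mul] using this
  · intro x hx
    have : fderiv ℝ g x = 0 := fderiv_of_notMem_tsupport ℝ fun h => hx (hs h)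
    simp only [this, f3_fU_zero l hl hl', f3_bp_zero_left]
  · rw [← key]
    simp only [e1]

/-- PROOF: `bp (fV ..) y = bp (fV ..) (dg l y)` (`isDeg_fV`), `dg_sub_Pj`, `coclosed_fV` with
`ψ x = (exp (2πi ξ·x) / (2πi nsq ξ)) • an ξ (dg l y)`; for `ξ = 0` use `mean_fV`. -/
theorem torus_coclosed (l : ℕ) (hl' : l < n) (g : E n → E n)
    (hg : ContDiff ℝ ((⊤ : ℕ∞) : WithTop ℕ∞) g) (hc : HasCompactSupport g)
    (hs : tsupport g ⊆ cube n) (ξ : Fin n → ℤ) (y : V n) :
    ∫ x, bp (fV l (fderiv ℝ g (rep n x))) (UnitAddTorus.mFourier ξ x • (y - Pj l ξ y)) ∂(μT n)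
      = 0 := by
  have hg1 : Continuous (fderiv ℝ g) := hg.continuous_fderiv (by simp)
  have h0 : ∀ (w : E n → V n) (x : E n), x ∉ cube n → bp (fV l (fderiv ℝ g x)) (w x) = 0 := by
    intro w x hx
    have : fderiv ℝ g x = 0 := fderiv_of_notMem_tsupport ℝ fun h => hx (hs h)
    rw [this, f3_fV_zero l hl', f3_bp_zero_left]
  rcases eq_or_ne ξ 0 with rfl | hξ
  · have e2 : ∀ x : UnitAddTorus (Fin n), bp (fV l (fderiv ℝ g (rep n x)))
        (UnitAddTorus.mFourier 0 x • (y - Pj l 0 y))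
        = (fun z : E n => bp (fV l (fderiv ℝ g z)) y) (rep n x) := by
      intro x
      simp only [UnitAddTorus.mFourier_zero, Pj_zero, sub_zero, ContinuousMap.one_apply, one_smul]
    refine (integral_congr_ae (Filter.Eventually.of_forall e2)).trans ?_
    refine (f3_transfer (fun z : E n => bp (fV l (fderiv ℝ g z)) y) ?_ ?_).trans ?_
    · exact f3_cont_bp ((continuous_fV l).comp hg1) continuous_const
    · exact h0 fun _ => y
    · exact mean_fV l hl' g hg hc y
  have hN := f3_nsq_ne ξ hξ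
  have key := coclosed_fV l hl' g hg hc
    (f3_psi ξ (2 * Real.pi * Complex.I * nsq (fr ξ))⁻¹ (an (fr ξ) (dg l y)))
    (f3_psi_smooth _ _ _)
  have e1 : ∀ x : E n, ∑ j, cr (Pi.single j (1 : ℝ))
      (fderiv ℝ (f3_psi ξ (2 * Real.pi * Complex.I * nsq (fr ξ))⁻¹ (an (fr ξ) (dg l y))) x
        (EuclideanSpace.single j 1))
      = Complex.exp (2 * Real.pi * Complex.I * ((f3_L ξ x : ℝ) : ℂ)) • (dg l y - Pj l ξ y) := by
    intro x
    simp only [f3_psi_deriv, f3_L_single]
    rw [f3_cr_sum, dg_sub_Pj l ξ hξ, smul_smul]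
    congr 1
    have hπ : (Real.pi : ℂ) ≠ 0 := by exact_mod_cast Real.pi_ne_zero
    have hN' : ((nsq (fr ξ) : ℝ) : ℂ) ≠ 0 := by exact_mod_cast hN
    push_cast
    field_simp
  have e3 : ∀ (A : E n →L[ℝ] E n) (c : ℂ), bp (fV l A) (c • (y - Pj l ξ y))
      = bp (fV l A) (c • (dg l y - Pj l ξ y)) := by
    intro A c
    rw [f3_bp_smul, f3_bp_smul, f3_bp_sub, f3_bp_sub, bp_dg_of_isDeg (isDeg_fV l hl'.le A)]
  have e2 : ∀ x : UnitAddTorus (Fin n), bp (fV l (fderiv ℝ g (rep n x)))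
      (UnitAddTorus.mFourier ξ x • (y - Pj l ξ y))
      = (fun z : E n => bp (fV l (fderiv ℝ g z))
        (Complex.exp (2 * Real.pi * Complex.I * ((f3_L ξ z : ℝ) : ℂ)) • (dg l y - Pj l ξ y)))
        (rep n x) := by
    intro x
    simp only [mFourier_rep, f3_L_apply, e3]
  refine (integral_congr_ae (Filter.Eventually.of_forall e2)).trans ?_
  refine (f3_transfer (fun z : E n => bp (fV l (fderiv ℝ g z))
        (Complex.exp (2 * Real.pi * Complex.I * ((f3_L ξ z : ℝ) : ℂ)) • (dg l y - Pj l ξ y)))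
        ?_ ?_).trans ?_
  · refine f3_cont_bp ((continuous_fV l).comp hg1) ?_
    have := (f3_psi_smooth ξ 1 (dg l y - Pj l ξ y)).continuous
    unfold f3_psi at this
    simpa only [one_mul] using this
  · exact h0 _
  · rw [← key]
    simp only [e1]

end Pool.Agent.Lib.QR
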