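import Pool.Agent.Lib.MP_ba1c0b_an.M1

/-!
G1: Poincaré inequality on balls.
-/

set_option autoImplicit false

open MeasureTheory Filter Topology Metric
open scoped ENNReal NNReal

namespace Pool.Agent.Lib.QR

/-- scaling and translation -/
private theorem g1_scale {n : ℕ} (g : E n → ℝ≥0∞) (hg : Measurable g) (c : E n) (s : ℝ)
    (hs : 1 / 2 ≤ s) : ∫⁻ y, g (c + s • y) ≤ 2 ^ n * ∫⁻ y, g y := by
  have hs0 : s ≠ 0 := by
    intro h
    rw [h] at hs
    norm_num at hs
  have h1 : ∫⁻ y, g (c + s • y) = ∫⁻ z, g (c + z) ∂(Measure.map (fun y : E n => s • y) volume) := by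
    rw [lintegral_map (f := fun z => g (c + z)) (hg.comp (measurable_const_add c))
      (measurable_const_smul s)]
  rw [h1, Measure.map_addHaar_smul volume hs0, lintegral_smul_measure, smul_eq_mul,
    lintegral_add_left_eq_self g c]
  refine mul_le_mul_left ?_ _
  rw [finrank_euclideanSpace_fin]
  have h2 : |(s ^ n)⁻¹| ≤ 2 ^ n := by
    rw [abs_of_nonneg (by positivity), ← inv_pow]
    refine pow_le_pow_left₀ (by positivity) ?_ n
    rw [inv_le_comm₀ (by linarith) (by norm_num)]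
    linarith
  calc ENNReal.ofReal |(s ^ n)⁻¹| ≤ ENNReal.ofReal (2 ^ n) := ENNReal.ofReal_le_ofReal h2
    _ = 2 ^ n := by rw [ENNReal.ofReal_pow (by norm_num)]; norm_num

/-- the pointwise inequality -/
private theorem g1_point {n : ℕ} {F : Type*} [NormedAddCommGroup F] [NormedSpace ℝ F]
    [FiniteDimensional ℝ F]
    (f : E n → F) (hf : ContDiff ℝ 1 f) (p : ℝ) (hp : 1 ≤ p) (r : ℝ)
    (x y : E n) (hxy : ‖y - x‖ ≤ 2 * r) :
    ‖f x - f y‖ₑ ^ p ≤ ENNReal.ofReal (2 * r) ^ p *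
      ∫⁻ t in Set.Ioc (0 : ℝ) 1, ‖fderiv ℝ f (x + t • (y - x))‖ₑ ^ p := by
  have : CompleteSpace F := FiniteDimensional.complete ℝ F
  have hc : Continuous fun t : ℝ => fderiv ℝ f (x + t • (y - x)) :=
    (hf.continuous_fderiv one_ne_zero).comp (by fun_prop)
  have hd : ∀ t ∈ Set.uIcc (0 : ℝ) 1, HasDerivAt (fun t : ℝ => f (x + t • (y - x)))
      (fderiv ℝ f (x + t • (y - x)) (y - x)) t := by
    intro t _
    have h1 : HasFDerivAt f (fderiv ℝ f (x + t • (y - x))) (x + t • (y - x)) :=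
      (hf.differentiable (by norm_num) _).hasFDerivAt
    have h2 : HasDerivAt (fun t : ℝ => x + t • (y - x)) (y - x) t := by
      have := ((hasDerivAt_id t).smul_const (y - x)).const_add x
      simpa using this
    exact h1.comp_hasDerivAt t h2
  have hint : IntervalIntegrable (fun t : ℝ => fderiv ℝ f (x + t • (y - x)) (y - x)) volume 0 1 :=
    (hc.clm_apply continuous_const).intervalIntegrable _ _
  have h1 := intervalIntegral.integral_eq_sub_of_hasDerivAt hd hint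
  have h2 : f x - f y = -∫ t in (0 : ℝ)..1, fderiv ℝ f (x + t • (y - x)) (y - x) := by
    rw [h1]
    simp
  have h3 : ‖f x - f y‖ₑ ≤ ENNReal.ofReal (2 * r) *
      ∫⁻ t in Set.Ioc (0 : ℝ) 1, ‖fderiv ℝ f (x + t • (y - x))‖ₑ := by
    rw [h2, enorm_neg, intervalIntegral.integral_of_le zero_le_one]
    refine (enorm_integral_le_lintegral_enorm _).trans ?_
    rw [← lintegral_const_mul' _ _ ENNReal.ofReal_ne_top]
    refine lintegral_mono fun t => ?_
    refine (ContinuousLinearMap.le_opENorm _ _).trans ?_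
    rw [mul_comm]
    refine mul_le_mul_left ?_ _
    rw [← ofReal_norm]
    exact ENNReal.ofReal_le_ofReal hxy
  have hprob : IsProbabilityMeasure ((volume : Measure ℝ).restrict (Set.Ioc (0 : ℝ) 1)) :=
    ⟨by simp⟩
  have h4 : (∫⁻ t in Set.Ioc (0 : ℝ) 1, ‖fderiv ℝ f (x + t • (y - x))‖ₑ) ^ p ≤
      ∫⁻ t in Set.Ioc (0 : ℝ) 1, ‖fderiv ℝ f (x + t • (y - x))‖ₑ ^ p := by
    have h5 := eLpNorm'_le_eLpNorm'_of_exponent_le (p := 1) (q := p) one_pos hp
      ((volume : Measure ℝ).restrict (Set.Ioc (0 : ℝ) 1))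
      (f := fun t : ℝ => fderiv ℝ f (x + t • (y - x))) hc.aestronglyMeasurable
    simp only [eLpNorm', ENNReal.rpow_one, one_div, inv_one] at h5
    have h6 := ENNReal.rpow_le_rpow h5 (by linarith : (0 : ℝ) ≤ p)
    rwa [← ENNReal.rpow_mul, inv_mul_cancel₀ (by linarith : p ≠ 0), ENNReal.rpow_one] at h6
  calc ‖f x - f y‖ₑ ^ p ≤ (ENNReal.ofReal (2 * r) *
        ∫⁻ t in Set.Ioc (0 : ℝ) 1, ‖fderiv ℝ f (x + t • (y - x))‖ₑ) ^ p :=
        ENNReal.rpow_le_rpow h3 (by linarith)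
    _ = ENNReal.ofReal (2 * r) ^ p *
        (∫⁻ t in Set.Ioc (0 : ℝ) 1, ‖fderiv ℝ f (x + t • (y - x))‖ₑ) ^ p :=
        ENNReal.mul_rpow_of_nonneg _ _ (by linarith)
    _ ≤ _ := mul_le_mul_right h4 _

/-- Poincaré inequality for `C¹` maps on a ball, double integral form.
PROOF: `f x - f y = ∫_0^1 Df(x + t(y-x))(y-x) dt`, Jensen, Fubini; for `t ≥ 1/2` substitute `z = x + t(y-x)` in
the variable `y` (Jacobian `t^(-n) ≤ 2^n`, `z` stays in the ball by convexity), for `t ≤ 1/2` in `x`. -/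
theorem poincare_double {n : ℕ} {F : Type*} [NormedAddCommGroup F] [NormedSpace ℝ F]
    [FiniteDimensional ℝ F] [MeasurableSpace F] [BorelSpace F]
    (f : E n → F) (hf : ContDiff ℝ 1 f) (p : ℝ) (hp : 1 ≤ p) (x0 : E n) (r : ℝ) (hr : 0 < r) :
    ∫⁻ x in ball x0 r, ∫⁻ y in ball x0 r, ‖f x - f y‖ₑ ^ p
      ≤ ENNReal.ofReal ((2 * r) ^ p * 2 ^ n) * volume (ball x0 r)
        * ∫⁻ x in ball x0 r, ‖fderiv ℝ f x‖ₑ ^ p := by
  set B : Set (E n) := ball x0 r with hB
  have hBm : MeasurableSet B := measurableSet_ball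
  set Φ : E n → ℝ≥0∞ := B.indicator fun z => ‖fderiv ℝ f z‖ₑ ^ p with hΦ
  have hΦm : Measurable Φ := by
    refine Measurable.indicator ?_ hBm
    exact ((hf.continuous_fderiv one_ne_zero).enorm.measurable).pow_const p
  have hI : ∫⁻ x in B, ‖fderiv ℝ f x‖ₑ ^ p = ∫⁻ x, Φ x := (lintegral_indicator hBm _).symm
  rw [hI]
  have hΦ3 : Measurable fun q : (ℝ × E n) × E n => Φ (q.1.2 + q.1.1 • (q.2 - q.1.2)) := by
    refine hΦm.comp ?_
    fun_prop
  -- one value of the parameter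
  have hslice : ∀ t ∈ Set.Ioc (0 : ℝ) 1, ∫⁻ x in B, ∫⁻ y in B, Φ (x + t • (y - x)) ≤
      2 ^ n * volume B * ∫⁻ x, Φ x := by
    intro t ht
    by_cases ht2 : 1 / 2 ≤ t
    · have h1 : ∀ x : E n, ∫⁻ y in B, Φ (x + t • (y - x)) ≤ 2 ^ n * ∫⁻ x, Φ x := by
        intro x
        refine (setLIntegral_le_lintegral _ _).trans ?_
        have h2 := g1_scale Φ hΦm (x - t • x) t ht2
        have h3 : (fun y : E n => Φ (x + t • (y - x))) = fun y => Φ (x - t • x + t • y) := by
          funext y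
          congr 1
          rw [smul_sub]
          abel
        rw [h3]
        exact h2
      calc ∫⁻ x in B, ∫⁻ y in B, Φ (x + t • (y - x)) ≤ ∫⁻ x in B, 2 ^ n * ∫⁻ x, Φ x :=
            lintegral_mono fun x => h1 x
        _ = 2 ^ n * volume B * ∫⁻ x, Φ x := by
            rw [setLIntegral_const]
            ring
    · have hsw : ∫⁻ x in B, ∫⁻ y in B, Φ (x + t • (y - x)) =
          ∫⁻ y in B, ∫⁻ x in B, Φ (x + t • (y - x)) := by
        refine lintegral_lintegral_swap ?_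
        refine Measurable.aemeasurable ?_
        exact hΦm.comp (by fun_prop)
      rw [hsw]
      have h1 : ∀ y : E n, ∫⁻ x in B, Φ (x + t • (y - x)) ≤ 2 ^ n * ∫⁻ x, Φ x := by
        intro y
        refine (setLIntegral_le_lintegral _ _).trans ?_
        have h2 := g1_scale Φ hΦm (t • y) (1 - t) (by linarith [not_le.mp ht2])
        have h3 : (fun x : E n => Φ (x + t • (y - x))) = fun x => Φ (t • y + (1 - t) • x) := by
          funext x
          congr 1
          rw [smul_sub, sub_smul, one_smul]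
          abel
        rw [h3]
        exact h2
      calc ∫⁻ y in B, ∫⁻ x in B, Φ (x + t • (y - x)) ≤ ∫⁻ y in B, 2 ^ n * ∫⁻ x, Φ x :=
            lintegral_mono fun x => h1 x
        _ = 2 ^ n * volume B * ∫⁻ x, Φ x := by
            rw [setLIntegral_const]
            ring
  -- the triple integral
  have htriple : ∫⁻ x in B, ∫⁻ y in B, ∫⁻ t in Set.Ioc (0 : ℝ) 1, Φ (x + t • (y - x)) ≤
      2 ^ n * volume B * ∫⁻ x, Φ x := by
    have h1 : ∀ x : E n, ∫⁻ y in B, ∫⁻ t in Set.Ioc (0 : ℝ) 1, Φ (x + t • (y - x)) =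
        ∫⁻ t in Set.Ioc (0 : ℝ) 1, ∫⁻ y in B, Φ (x + t • (y - x)) := by
      intro x
      refine lintegral_lintegral_swap ?_
      refine Measurable.aemeasurable ?_
      exact hΦm.comp (by fun_prop)
    have h2 : ∫⁻ x in B, ∫⁻ t in Set.Ioc (0 : ℝ) 1, ∫⁻ y in B, Φ (x + t • (y - x)) =
        ∫⁻ t in Set.Ioc (0 : ℝ) 1, ∫⁻ x in B, ∫⁻ y in B, Φ (x + t • (y - x)) := by
      refine lintegral_lintegral_swap ?_
      refine Measurable.aemeasurable ?_
      have h3 : Measurable fun q : E n × ℝ => ∫⁻ y in B, Φ (q.1 + q.2 • (y - q.1)) := by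
        refine Measurable.lintegral_prod_right' (f := fun s : (E n × ℝ) × E n =>
          Φ (s.1.1 + s.1.2 • (s.2 - s.1.1))) ?_
        exact hΦm.comp (by fun_prop)
      exact h3
    calc ∫⁻ x in B, ∫⁻ y in B, ∫⁻ t in Set.Ioc (0 : ℝ) 1, Φ (x + t • (y - x))
        = ∫⁻ x in B, ∫⁻ t in Set.Ioc (0 : ℝ) 1, ∫⁻ y in B, Φ (x + t • (y - x)) :=
          lintegral_congr fun x => h1 x
      _ = ∫⁻ t in Set.Ioc (0 : ℝ) 1, ∫⁻ x in B, ∫⁻ y in B, Φ (x + t • (y - x)) := h2
      _ ≤ ∫⁻ t in Set.Ioc (0 : ℝ) 1, 2 ^ n * volume B * ∫⁻ x, Φ x :=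
          setLIntegral_mono' measurableSet_Ioc hslice
      _ = 2 ^ n * volume B * ∫⁻ x, Φ x := by
          rw [setLIntegral_const, Real.volume_Ioc]
          simp
  have hcoef : ENNReal.ofReal ((2 * r) ^ p * 2 ^ n) = ENNReal.ofReal (2 * r) ^ p * 2 ^ n := by
    rw [ENNReal.ofReal_mul (by positivity), ENNReal.ofReal_pow (by norm_num),
      ← ENNReal.ofReal_rpow_of_nonneg (by positivity) (by linarith)]
    norm_num
  have hfin : ENNReal.ofReal (2 * r) ^ p ≠ ∞ :=
    ENNReal.rpow_ne_top_of_nonneg (by linarith) ENNReal.ofReal_ne_top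
  calc ∫⁻ x in B, ∫⁻ y in B, ‖f x - f y‖ₑ ^ p
      ≤ ∫⁻ x in B, ∫⁻ y in B, ENNReal.ofReal (2 * r) ^ p *
          ∫⁻ t in Set.Ioc (0 : ℝ) 1, Φ (x + t • (y - x)) := by
        refine setLIntegral_mono' hBm fun x hx => setLIntegral_mono' hBm fun y hy => ?_
        have hxy : ‖y - x‖ ≤ 2 * r := by
          rw [← dist_eq_norm]
          have h1 : dist y x0 < r := hy
          have h2 : dist x x0 < r := hx
          linarith [dist_triangle_right y x x0]
        refine (g1_point f hf p hp r x y hxy).trans ?_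
        refine mul_le_mul_right ?_ _
        refine setLIntegral_mono' measurableSet_Ioc fun t ht => ?_
        have hmem : x + t • (y - x) ∈ B :=
          (convex_ball x0 r).add_smul_sub_mem hx hy ⟨ht.1.le, ht.2⟩
        rw [hΦ, Set.indicator_of_mem hmem]
    _ = ENNReal.ofReal (2 * r) ^ p *
        ∫⁻ x in B, ∫⁻ y in B, ∫⁻ t in Set.Ioc (0 : ℝ) 1, Φ (x + t • (y - x)) := by
        rw [← lintegral_const_mul' _ _ hfin]
        refine lintegral_congr fun x => ?_
        rw [← lintegral_const_mul' _ _ hfin]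
    _ ≤ ENNReal.ofReal (2 * r) ^ p * (2 ^ n * volume B * ∫⁻ x, Φ x) :=
        mul_le_mul_right htriple _
    _ = _ := by
        rw [hcoef]
        ring

end Pool.Agent.Lib.QR
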