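import Pool.Agent.Lib.MP_ba1c0b_an.G1

/-!
G2: Sobolev-Poincaré inequality for compactly supported Sobolev maps.
-/

set_option autoImplicit false

open MeasureTheory Filter Topology Metric
open scoped ENNReal NNReal

namespace Pool.Agent.Lib.QR

variable {n : ℕ}

/-- The normalised measure of a ball. -/
private noncomputable def g2nu (x : E n) (r : ℝ) : Measure (E n) :=
  (volume (ball x r))⁻¹ • volume.restrict (ball x r)

private theorem g2nu_prob (x : E n) {r : ℝ} (hr : 0 < r) : IsProbabilityMeasure (g2nu x r) := by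
  constructor
  rw [g2nu, Measure.smul_apply, Measure.restrict_apply_univ, smul_eq_mul, ENNReal.inv_mul_cancel]
  · exact (measure_ball_pos volume x hr).ne'
  · exact measure_ball_lt_top.ne

/-- Jensen. -/
private theorem g2_jensen {ν : Measure (E n)} [IsProbabilityMeasure ν] (f : E n → E n)
    (hf : Integrable f ν) (a : E n) (p : ℝ) (hp : 1 ≤ p) :
    ‖a - ∫ y, f y ∂ν‖ₑ ^ p ≤ ∫⁻ y, ‖a - f y‖ₑ ^ p ∂ν := by
  have h1 : a - ∫ y, f y ∂ν = ∫ y, (a - f y) ∂ν := by
    rw [integral_sub (integrable_const a) hf, integral_const]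
    simp
  have h2 : ‖a - ∫ y, f y ∂ν‖ₑ ≤ ∫⁻ y, ‖a - f y‖ₑ ∂ν := by
    rw [h1]
    exact enorm_integral_le_lintegral_enorm _
  have hm : AEStronglyMeasurable (fun y => a - f y) ν :=
    aestronglyMeasurable_const.sub hf.aestronglyMeasurable
  have h5 := eLpNorm'_le_eLpNorm'_of_exponent_le (p := 1) (q := p) one_pos hp ν hm
  simp only [eLpNorm', ENNReal.rpow_one, one_div, inv_one] at h5
  have h6 := ENNReal.rpow_le_rpow h5 (by linarith : (0 : ℝ) ≤ p)
  rw [← ENNReal.rpow_mul, inv_mul_cancel₀ (by linarith : p ≠ 0), ENNReal.rpow_one] at h6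
  exact (ENNReal.rpow_le_rpow h2 (by linarith)).trans h6

/-- Poincaré with the mean value. -/
private theorem g2_poincare (f : E n → E n) (hf : ContDiff ℝ 1 f) (p : ℝ) (hp : 1 ≤ p)
    (x0 : E n) (r : ℝ) (hr : 0 < r) :
    ∫⁻ x in ball x0 r, ‖f x - ∫ y, f y ∂(g2nu x0 r)‖ₑ ^ p
      ≤ ENNReal.ofReal ((2 * r) ^ p * 2 ^ n) * ∫⁻ x in ball x0 r, ‖fderiv ℝ f x‖ₑ ^ p := by
  have hprob := g2nu_prob x0 hr
  have hv0 : volume (ball x0 r) ≠ 0 := (measure_ball_pos volume x0 hr).ne'
  have hvt : volume (ball x0 r) ≠ ∞ := measure_ball_lt_top.ne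
  have hint : Integrable f (g2nu x0 r) := by
    have h1 : IntegrableOn f (ball x0 r) volume :=
      (hf.continuous.continuousOn.integrableOn_compact
        (isCompact_closedBall x0 r)).mono_set ball_subset_closedBall
    exact h1.smul_measure (ENNReal.inv_ne_top.mpr hv0)
  calc ∫⁻ x in ball x0 r, ‖f x - ∫ y, f y ∂(g2nu x0 r)‖ₑ ^ p
      ≤ ∫⁻ x in ball x0 r, ∫⁻ y, ‖f x - f y‖ₑ ^ p ∂(g2nu x0 r) :=
        lintegral_mono fun x => g2_jensen f hint (f x) p hp
    _ = ∫⁻ x in ball x0 r, (volume (ball x0 r))⁻¹ * ∫⁻ y in ball x0 r, ‖f x - f y‖ₑ ^ p := by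
        refine lintegral_congr fun x => ?_
        rw [g2nu, lintegral_smul_measure, smul_eq_mul]
    _ = (volume (ball x0 r))⁻¹ * ∫⁻ x in ball x0 r, ∫⁻ y in ball x0 r, ‖f x - f y‖ₑ ^ p :=
        lintegral_const_mul' _ _ (ENNReal.inv_ne_top.mpr hv0)
    _ ≤ (volume (ball x0 r))⁻¹ * (ENNReal.ofReal ((2 * r) ^ p * 2 ^ n) * volume (ball x0 r)
          * ∫⁻ x in ball x0 r, ‖fderiv ℝ f x‖ₑ ^ p) :=
        mul_le_mul_right (poincare_double f hf p hp x0 r hr) _
    _ = ((volume (ball x0 r))⁻¹ * volume (ball x0 r)) * (ENNReal.ofReal ((2 * r) ^ p * 2 ^ n)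
          * ∫⁻ x in ball x0 r, ‖fderiv ℝ f x‖ₑ ^ p) := by ring
    _ = _ := by rw [ENNReal.inv_mul_cancel hv0 hvt, one_mul]

/-- Poincaré with `eLpNorm`. -/
private theorem g2_poincare' (f : E n → E n) (hf : ContDiff ℝ 1 f) (p : ℝ) (hp : 1 ≤ p)
    (x0 : E n) (r : ℝ) (hr : 0 < r) :
    eLpNorm (fun x => f x - ∫ y, f y ∂(g2nu x0 r)) (ENNReal.ofReal p) (volume.restrict (ball x0 r))
      ≤ ENNReal.ofReal (2 * r * 2 ^ n) *
        eLpNorm (fderiv ℝ f) (ENNReal.ofReal p) (volume.restrict (ball x0 r)) := by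
  have hp0 : 0 < p := by linarith
  have h0 : ENNReal.ofReal p ≠ 0 := (ENNReal.ofReal_pos.mpr hp0).ne'
  have h1 : (ENNReal.ofReal p).toReal = p := ENNReal.toReal_ofReal hp0.le
  rw [eLpNorm_eq_lintegral_rpow_enorm_toReal h0 ENNReal.ofReal_ne_top,
    eLpNorm_eq_lintegral_rpow_enorm_toReal h0 ENNReal.ofReal_ne_top, h1]
  refine (ENNReal.rpow_le_rpow (g2_poincare f hf p hp x0 r hr) (by positivity)).trans ?_
  rw [ENNReal.mul_rpow_of_nonneg _ _ (by positivity)]
  refine mul_le_mul_left ?_ _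
  rw [ENNReal.ofReal_rpow_of_nonneg (by positivity) (by positivity)]
  refine ENNReal.ofReal_le_ofReal ?_
  rw [Real.mul_rpow (by positivity) (by positivity), ← Real.rpow_mul (by positivity), one_div,
    mul_inv_cancel₀ hp0.ne', Real.rpow_one]
  refine mul_le_mul_of_nonneg_left ?_ (by positivity)
  calc ((2 : ℝ) ^ n) ^ p⁻¹ ≤ ((2 : ℝ) ^ n) ^ (1 : ℝ) :=
        Real.rpow_le_rpow_of_exponent_le (one_le_pow₀ (by norm_num)) (inv_le_one_of_one_le₀ hp)
    _ = 2 ^ n := Real.rpow_one _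

/-- Cut-off functions. -/
private theorem g2_cutoff (n : ℕ) : ∃ K : ℝ, 0 ≤ K ∧ ∀ (x : E n) (r : ℝ), 0 < r → ∃ χ : E n → ℝ,
    ContDiff ℝ 1 χ ∧ HasCompactSupport χ ∧ (∀ y ∈ ball x r, χ y = 1) ∧ (∀ y, ‖χ y‖ ≤ 1) ∧
    (∀ y, y ∉ ball x (2 * r) → χ y = 0 ∧ fderiv ℝ χ y = 0) ∧ ∀ y, ‖fderiv ℝ χ y‖ ≤ K / r := by
  let χ0 : ContDiffBump (0 : E n) := ⟨1, 3 / 2, one_pos, by norm_num⟩
  have hc0 : ContDiff ℝ 1 χ0 := χ0.contDiff
  have hs0 : HasCompactSupport χ0 := χ0.hasCompactSupport
  obtain ⟨K, hK⟩ := (hc0.continuous_fderiv one_ne_zero).bounded_above_of_compact_support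
    (hs0.fderiv (𝕜 := ℝ))
  have hK0 : 0 ≤ K := (norm_nonneg _).trans (hK 0)
  refine ⟨K, hK0, ?_⟩
  intro x r hr
  have hd : ∀ y, HasFDerivAt (fun y => χ0 (r⁻¹ • (y - x)))
      ((fderiv ℝ χ0 (r⁻¹ • (y - x))).comp (r⁻¹ • ContinuousLinearMap.id ℝ (E n))) y := by
    intro y
    have h1 : HasFDerivAt χ0 (fderiv ℝ χ0 (r⁻¹ • (y - x))) (r⁻¹ • (y - x)) :=
      (hc0.differentiable (by norm_num) _).hasFDerivAt
    have h2 : HasFDerivAt (fun y : E n => r⁻¹ • (y - x)) (r⁻¹ • ContinuousLinearMap.id ℝ (E n)) y :=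
      ((hasFDerivAt_id y).sub_const x).const_smul r⁻¹
    exact HasFDerivAt.comp (g := (χ0 : E n → ℝ)) y h1 h2
  have hzero : ∀ z : E n, z ∉ closedBall (0 : E n) (3 / 2) → χ0 z = 0 ∧ fderiv ℝ χ0 z = 0 := by
    intro z hz
    have ht : tsupport χ0 = closedBall (0 : E n) (3 / 2) := χ0.tsupport_eq
    constructor
    · exact image_eq_zero_of_notMem_tsupport (by rw [ht]; exact hz)
    · by_contra h
      have := support_fderiv_subset ℝ (f := (χ0 : E n → ℝ)) (Function.mem_support.mpr h)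
      rw [ht] at this
      exact hz this
  refine ⟨fun y => χ0 (r⁻¹ • (y - x)), ?_, ?_, ?_, ?_, ?_, ?_⟩
  · exact hc0.comp (by fun_prop : ContDiff ℝ 1 fun y : E n => r⁻¹ • (y - x))
  · refine HasCompactSupport.intro (isCompact_closedBall x (2 * r)) ?_
    intro y hy
    refine (hzero _ ?_).1
    rw [mem_closedBall, dist_eq_norm, not_le] at hy
    rw [mem_closedBall, dist_zero_right, not_le, norm_smul, Real.norm_of_nonneg (by positivity)]
    rw [lt_inv_mul_iff₀ hr]
    linarith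
  · intro y hy
    refine χ0.one_of_mem_closedBall ?_
    rw [mem_ball, dist_eq_norm] at hy
    rw [mem_closedBall, dist_zero_right, norm_smul, Real.norm_of_nonneg (by positivity)]
    change r⁻¹ * ‖y - x‖ ≤ 1
    rw [inv_mul_le_iff₀ hr]
    linarith
  · intro y
    rw [Real.norm_of_nonneg χ0.nonneg]
    exact χ0.le_one
  · intro y hy
    have hz := hzero (r⁻¹ • (y - x)) (by
      rw [mem_ball, dist_eq_norm, not_lt] at hy
      rw [mem_closedBall, dist_zero_right, not_le, norm_smul, Real.norm_of_nonneg (by positivity)]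
      rw [lt_inv_mul_iff₀ hr]
      linarith)
    refine ⟨hz.1, ?_⟩
    rw [(hd y).fderiv, hz.2, ContinuousLinearMap.zero_comp]
  · intro y
    rw [(hd y).fderiv]
    refine (ContinuousLinearMap.opNorm_comp_le _ _).trans ?_
    rw [norm_smul, Real.norm_of_nonneg (by positivity : (0 : ℝ) ≤ r⁻¹), div_eq_mul_inv]
    refine mul_le_mul (hK _) ?_ (by positivity) hK0
    calc r⁻¹ * ‖ContinuousLinearMap.id ℝ (E n)‖ ≤ r⁻¹ * 1 :=
          mul_le_mul_of_nonneg_left ContinuousLinearMap.norm_id_le (by positivity)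
      _ = r⁻¹ := mul_one _

/-- The constant. -/
private theorem g2_const (hn : 2 ≤ n) (p : ℝ) (hp1 : 1 ≤ p) (hpn : p ≤ n / 2) :
    eLpNormLESNormFDerivOfEqInnerConst (volume : Measure (E n)) p ≤
      eLpNormLESNormFDerivOneConst (volume : Measure (E n)) (NNReal.conjExponent n) *
        ((n : ℝ) - 1).toNNReal := by
  have hn2 : (2 : ℝ) ≤ n := by exact_mod_cast hn
  unfold eLpNormLESNormFDerivOfEqInnerConst
  simp only [finrank_euclideanSpace_fin]
  refine mul_le_mul_right ?_ _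
  refine Real.toNNReal_le_toNNReal ?_
  rw [div_le_iff₀ (by linarith)]
  nlinarith

private theorem g2_supp {G : Type*} [NormedAddCommGroup G] (w : E n → G) (B : Set (E n))
    (h : ∀ y, y ∉ B → w y = 0) (p : ℝ≥0∞) :
    eLpNorm w p volume = eLpNorm w p (volume.restrict B) := by
  refine (eLpNorm_restrict_eq_of_support_subset ?_).symm
  intro y hy
  by_contra hyB
  exact (Function.mem_support.mp hy) (h y hyB)

/-- The bound of the derivative of the truncated map. -/
private theorem g2_du (χ : E n → ℝ) (f : E n → E n) (c : E n) (χ1 : ContDiff ℝ 1 χ)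
    (hf : ContDiff ℝ 1 f) (y : E n) :
    fderiv ℝ (fun y => χ y • (f y - c)) y =
      χ y • fderiv ℝ f y + (fderiv ℝ χ y).smulRight (f y - c) := by
  have h1 : HasFDerivAt χ (fderiv ℝ χ y) y := (χ1.differentiable (by norm_num) y).hasFDerivAt
  have h2 : HasFDerivAt (fun y => f y - c) (fderiv ℝ f y) y :=
    (hf.differentiable (by norm_num) y).hasFDerivAt.sub_const c
  exact (h1.fun_smul h2).fderiv

private theorem g2_R2 (χ : E n → ℝ) (f : E n → E n) (c : E n) (χ1 : ContDiff ℝ 1 χ)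
    (hf : ContDiff ℝ 1 f) (χ4 : ∀ y, ‖χ y‖ ≤ 1) (M : ℝ) (hM : 0 ≤ M)
    (χ6 : ∀ y, ‖fderiv ℝ χ y‖ ≤ M) (p : ℝ≥0∞) (hp : 1 ≤ p) (B : Set (E n)) :
    eLpNorm (fderiv ℝ (fun y => χ y • (f y - c))) p (volume.restrict B) ≤
      eLpNorm (fderiv ℝ f) p (volume.restrict B) +
        ENNReal.ofReal M * eLpNorm (fun y => f y - c) p (volume.restrict B) := by
  have hmf : AEStronglyMeasurable (fderiv ℝ f) (volume.restrict B) :=
    (hf.continuous_fderiv one_ne_zero).aestronglyMeasurable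
  have hmg : AEStronglyMeasurable (fun y => f y - c) (volume.restrict B) :=
    (hf.continuous.sub continuous_const).aestronglyMeasurable
  calc eLpNorm (fderiv ℝ (fun y => χ y • (f y - c))) p (volume.restrict B)
      ≤ eLpNorm (fun y => ‖fderiv ℝ f y‖ + M * ‖f y - c‖) p (volume.restrict B) := by
        refine eLpNorm_mono_real fun y => ?_
        rw [g2_du χ f c χ1 hf y]
        refine (norm_add_le _ _).trans ?_
        refine add_le_add ?_ ?_
        · rw [norm_smul]
          calc ‖χ y‖ * ‖fderiv ℝ f y‖ ≤ 1 * ‖fderiv ℝ f y‖ :=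
                mul_le_mul_of_nonneg_right (χ4 y) (norm_nonneg _)
            _ = ‖fderiv ℝ f y‖ := one_mul _
        · rw [ContinuousLinearMap.norm_smulRight_apply]
          exact mul_le_mul_of_nonneg_right (χ6 y) (norm_nonneg _)
    _ ≤ eLpNorm (fun y => ‖fderiv ℝ f y‖) p (volume.restrict B) +
        eLpNorm (fun y => M * ‖f y - c‖) p (volume.restrict B) :=
        eLpNorm_add_le hmf.norm (hmg.norm.const_mul _) hp
    _ = _ := by
        rw [eLpNorm_norm]
        congr 1
        have h1 : (fun y => M * ‖f y - c‖) = M • fun y => ‖f y - c‖ := rfl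
        rw [h1, eLpNorm_const_smul, eLpNorm_norm, Real.enorm_of_nonneg hM]

/-- The inequality for smooth maps. -/
private theorem g2_smooth (hn : 2 ≤ n) : ∃ C : ℝ≥0, ∀ q : ℝ, (n : ℝ) / (n - 1) ≤ q → q ≤ n →
    ∀ f : E n → E n, ContDiff ℝ 1 f → ∀ (x : E n) (r : ℝ), 0 < r →
      eLpNorm (fun y => f y - ∫ z, f z ∂(g2nu x (2 * r))) (ENNReal.ofReal q)
          (volume.restrict (ball x r))
        ≤ C * eLpNorm (fderiv ℝ f) (ENNReal.ofReal (n * q / (n + q)))
          (volume.restrict (ball x (2 * r))) := by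
  obtain ⟨K, hK0, hK⟩ := g2_cutoff n
  refine ⟨eLpNormLESNormFDerivOneConst (volume : Measure (E n)) (NNReal.conjExponent n) *
    ((n : ℝ) - 1).toNNReal * (1 + K * (4 * 2 ^ n)).toNNReal, ?_⟩
  intro q hq1 hqn f hf x r hr
  have hn2 : (2 : ℝ) ≤ n := by exact_mod_cast hn
  have hq0 : 1 < q := lt_of_lt_of_le (by rw [lt_div_iff₀ (by linarith)]; linarith) hq1
  have hp1 : 1 ≤ n * q / (n + q) := by
    rw [le_div_iff₀ (by linarith)]
    rw [div_le_iff₀ (by linarith)] at hq1
    nlinarith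
  have hpn : n * q / (n + q) ≤ (n : ℝ) / 2 := by
    rw [div_le_div_iff₀ (by linarith) (by norm_num)]
    nlinarith
  have hpq : (q : ℝ)⁻¹ = (n * q / (n + q))⁻¹ - (n : ℝ)⁻¹ := by
    have : (n : ℝ) ≠ 0 := by positivity
    have : q ≠ 0 := by positivity
    field_simp
    ring
  set p : ℝ := n * q / (n + q) with hp
  obtain ⟨χ, χ1, χ2, χ3, χ4, χ5, χ6⟩ := hK x r hr
  set c := ∫ z, f z ∂(g2nu x (2 * r)) with hc
  have hu1 : ContDiff ℝ 1 (fun y => χ y • (f y - c)) := χ1.smul (hf.sub contDiff_const)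
  have hu2 : HasCompactSupport (fun y => χ y • (f y - c)) := χ2.smul_right
  have hP0 : ENNReal.ofReal p = ((p.toNNReal : ℝ≥0) : ℝ≥0∞) := rfl
  have hQ0 : ENNReal.ofReal q = ((q.toNNReal : ℝ≥0) : ℝ≥0∞) := rfl
  have gns := eLpNorm_le_eLpNorm_fderiv_of_eq_inner (volume : Measure (E n)) hu1 hu2
    (p := p.toNNReal) (p' := q.toNNReal) (by
      rw [← Real.toNNReal_one]
      exact Real.toNNReal_le_toNNReal hp1) (by
      rw [finrank_euclideanSpace_fin]
      omega) (by
      rw [finrank_euclideanSpace_fin, Real.coe_toNNReal q (by linarith), NNReal.coe_inv,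
        Real.coe_toNNReal p (by linarith)]
      exact hpq)
  rw [← hP0, ← hQ0, Real.coe_toNNReal p (by linarith)] at gns
  -- the left side
  have hL : eLpNorm (fun y => f y - c) (ENNReal.ofReal q) (volume.restrict (ball x r)) ≤
      eLpNorm (fun y => χ y • (f y - c)) (ENNReal.ofReal q) volume := by
    have h1 : eLpNorm (fun y => f y - c) (ENNReal.ofReal q) (volume.restrict (ball x r)) =
        eLpNorm (fun y => χ y • (f y - c)) (ENNReal.ofReal q) (volume.restrict (ball x r)) := by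
      refine eLpNorm_congr_ae ?_
      filter_upwards [ae_restrict_mem measurableSet_ball] with y hy
      rw [χ3 y hy, one_smul]
    rw [h1]
    exact eLpNorm_mono_measure _ Measure.restrict_le_self
  have hP1 : 1 ≤ ENNReal.ofReal p := by
    rw [← ENNReal.ofReal_one]
    exact ENNReal.ofReal_le_ofReal hp1
  have hR1 := g2_supp (fderiv ℝ (fun y => χ y • (f y - c))) (ball x (2 * r)) (by
    intro y hy
    rw [g2_du χ f c χ1 hf y, (χ5 y hy).1, (χ5 y hy).2]
    ext v
    simp) (ENNReal.ofReal p)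
  have hR2 := g2_R2 χ f c χ1 hf χ4 (K / r) (by positivity) χ6 (ENNReal.ofReal p) hP1
    (ball x (2 * r))
  have hR3 := g2_poincare' f hf p hp1 x (2 * r) (by positivity)
  rw [← hc] at hR3
  have hR4 : eLpNorm (fderiv ℝ (fun y => χ y • (f y - c))) (ENNReal.ofReal p) volume ≤
      ENNReal.ofReal (1 + K * (4 * 2 ^ n)) *
        eLpNorm (fderiv ℝ f) (ENNReal.ofReal p) (volume.restrict (ball x (2 * r))) := by
    rw [hR1]
    refine hR2.trans ?_
    generalize eLpNorm (fderiv ℝ f) (ENNReal.ofReal p) (volume.restrict (ball x (2 * r))) = N at *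
    calc N + ENNReal.ofReal (K / r) * eLpNorm (fun y => f y - c) (ENNReal.ofReal p)
            (volume.restrict (ball x (2 * r)))
        ≤ N + ENNReal.ofReal (K / r) * (ENNReal.ofReal (2 * (2 * r) * 2 ^ n) * N) :=
          add_le_add le_rfl (mul_le_mul_right hR3 _)
      _ = ENNReal.ofReal (1 + K * (4 * 2 ^ n)) * N := by
          rw [← mul_assoc, ← ENNReal.ofReal_mul (by positivity),
            ENNReal.ofReal_add zero_le_one (by positivity), ENNReal.ofReal_one, add_mul, one_mul]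
          congr 3
          field_simp
          ring
  refine hL.trans (gns.trans ?_)
  have hcc := g2_const hn p hp1 hpn
  refine (mul_le_mul' (ENNReal.coe_le_coe.mpr hcc) hR4).trans (le_of_eq ?_)
  rw [← mul_assoc]
  push_cast
  rfl

/-- The difference of two mean values. -/
private theorem g2_mean (x : E n) (r : ℝ) (hr : 0 < r) (q : ℝ) (hq : 1 ≤ q) : ∃ A : ℝ≥0∞, A ≠ ∞ ∧
    ∀ g F : E n → E n, Continuous g → MemLp F (ENNReal.ofReal q) volume →
      ‖(∫ z, g z ∂(g2nu x r)) - ∫ z, F z ∂(g2nu x r)‖ₑ ≤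
        A * eLpNorm (fun y => g y - F y) (ENNReal.ofReal q) volume := by
  have hprob := g2nu_prob x hr
  have hv0 : volume (ball x r) ≠ 0 := (measure_ball_pos volume x hr).ne'
  have hvt : volume (ball x r) ≠ ∞ := measure_ball_lt_top.ne
  have hq1 : 1 ≤ ENNReal.ofReal q := by
    rw [← ENNReal.ofReal_one]
    exact ENNReal.ofReal_le_ofReal hq
  refine ⟨(volume (ball x r))⁻¹ * (volume (ball x r)) ^ (1 - 1 / q), ?_, ?_⟩
  · refine ENNReal.mul_ne_top (ENNReal.inv_ne_top.mpr hv0) ?_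
    refine ENNReal.rpow_ne_top_of_nonneg ?_ hvt
    rw [sub_nonneg, div_le_one (by linarith)]
    exact hq
  intro g F hg hF
  have hint1 : Integrable g (g2nu x r) := by
    have h1 : IntegrableOn g (ball x r) volume :=
      (hg.continuousOn.integrableOn_compact (isCompact_closedBall x r)).mono_set
        ball_subset_closedBall
    exact h1.smul_measure (ENNReal.inv_ne_top.mpr hv0)
  have hfin : IsFiniteMeasure (volume.restrict (ball x r)) :=
    ⟨by rw [Measure.restrict_apply_univ]; exact measure_ball_lt_top⟩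
  have hint2 : Integrable F (g2nu x r) := by
    have h1 : Integrable F (volume.restrict (ball x r)) := (hF.restrict _).integrable hq1
    exact h1.smul_measure (ENNReal.inv_ne_top.mpr hv0)
  rw [← integral_sub hint1 hint2]
  refine (enorm_integral_le_lintegral_enorm _).trans ?_
  rw [g2nu, lintegral_smul_measure, smul_eq_mul, mul_assoc]
  refine mul_le_mul_right ?_ _
  rw [← eLpNorm_one_eq_lintegral_enorm]
  have hm : AEStronglyMeasurable (fun y => g y - F y) (volume.restrict (ball x r)) :=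
    hg.aestronglyMeasurable.sub hF.1.restrict
  refine (eLpNorm_le_eLpNorm_mul_rpow_measure_univ hq1 hm).trans ?_
  rw [Measure.restrict_apply_univ, mul_comm, ENNReal.toReal_one, ENNReal.toReal_ofReal (by linarith),
    div_one]
  exact mul_le_mul_right (eLpNorm_mono_measure _ Measure.restrict_le_self) _

private theorem g2_tri {G : Type*} [NormedAddCommGroup G] {μ : Measure (E n)} {A B : E n → G}
    {e : ℝ≥0∞} (hA : AEStronglyMeasurable A μ) (hB : AEStronglyMeasurable B μ) (he : 1 ≤ e) :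
    eLpNorm A e μ ≤ eLpNorm (fun x => B x - A x) e μ + eLpNorm B e μ := by
  have h1 : B - (fun x => B x - A x) = A := by
    funext x
    simp
  calc eLpNorm A e μ = eLpNorm (B - (fun x => B x - A x)) e μ := by rw [h1]
    _ ≤ eLpNorm B e μ + eLpNorm (fun x => B x - A x) e μ := eLpNorm_sub_le hB (hB.sub hA) he
    _ = _ := add_comm _ _

/-- The inequality with `eLpNorm`. -/
private theorem g2_sob (hn : 2 ≤ n) : ∃ C : ℝ≥0, ∀ q : ℝ, (n : ℝ) / (n - 1) ≤ q → q ≤ n →
    ∀ (F : E n → E n) (DF : E n → E n →L[ℝ] E n), SobC q F DF → ∀ (x : E n) (r : ℝ), 0 < r →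
      ∃ c : E n, eLpNorm (fun y => F y - c) (ENNReal.ofReal q) (volume.restrict (ball x r))
        ≤ C * eLpNorm DF (ENNReal.ofReal (n * q / (n + q))) (volume.restrict (ball x (2 * r))) := by
  obtain ⟨C, hC⟩ := g2_smooth hn
  refine ⟨C, ?_⟩
  intro q hq1 hqn F DF h x r hr
  have hn2 : (2 : ℝ) ≤ n := by exact_mod_cast hn
  have hq0 : 1 < q := lt_of_lt_of_le (by rw [lt_div_iff₀ (by linarith)]; linarith) hq1
  have hp1 : 1 ≤ n * q / (n + q) := by
    rw [le_div_iff₀ (by linarith)]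
    rw [div_le_iff₀ (by linarith)] at hq1
    nlinarith
  have hpq : n * q / (n + q) ≤ q := by
    rw [div_le_iff₀ (by linarith)]
    nlinarith
  have hC' := hC q hq1 hqn
  set p : ℝ := n * q / (n + q) with hp
  have hQ1 : 1 ≤ ENNReal.ofReal q := by
    rw [← ENNReal.ofReal_one]
    exact ENNReal.ofReal_le_ofReal hq0.le
  have hP1 : 1 ≤ ENNReal.ofReal p := by
    rw [← ENNReal.ofReal_one]
    exact ENNReal.ofReal_le_ofReal hp1
  obtain ⟨R, g, g1, g2, g3, g4⟩ := h.approx hq0.le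
  obtain ⟨A, hA, hA'⟩ := g2_mean x (2 * r) (by positivity) q hq0.le
  refine ⟨∫ z, F z ∂(g2nu x (2 * r)), ?_⟩
  set c := ∫ z, F z ∂(g2nu x (2 * r)) with hc
  set B2 := ball x (2 * r) with hB2
  have hv2 : volume B2 ≠ ∞ := measure_ball_lt_top.ne
  have hv1 : volume (ball x r) ≠ ∞ := measure_ball_lt_top.ne
  set A1 : ℝ≥0∞ := volume (ball x r) ^ (1 / q) with hA1
  set A2 : ℝ≥0∞ := volume B2 ^ (1 / p - 1 / q) with hA2
  have hA1t : A1 ≠ ∞ := ENNReal.rpow_ne_top_of_nonneg (by positivity) hv1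
  have hA2t : A2 ≠ ∞ := by
    refine ENNReal.rpow_ne_top_of_nonneg ?_ hv2
    rw [sub_nonneg]
    exact one_div_le_one_div_of_le (by linarith) hpq
  have hbound : ∀ k, eLpNorm (fun y => F y - c) (ENNReal.ofReal q) (volume.restrict (ball x r)) ≤
      C * eLpNorm DF (ENNReal.ofReal p) (volume.restrict B2) +
      ((1 + A * A1) * eLpNorm (fun x => g k x - F x) (ENNReal.ofReal q) volume +
        C * A2 * eLpNorm (fun x => fderiv ℝ (g k) x - DF x) (ENNReal.ofReal q) volume) := by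
    intro k
    have hgc : ContDiff ℝ 1 (g k) := (g1 k).of_le (by simp)
    set ck := ∫ z, g k z ∂(g2nu x (2 * r)) with hck
    have s1 : eLpNorm (fun y => F y - c) (ENNReal.ofReal q) (volume.restrict (ball x r)) ≤
        eLpNorm (fun y => (g k y - ck) - (F y - c)) (ENNReal.ofReal q)
          (volume.restrict (ball x r)) +
        eLpNorm (fun y => g k y - ck) (ENNReal.ofReal q) (volume.restrict (ball x r)) :=
      g2_tri (h.mem.1.restrict.sub aestronglyMeasurable_const)
        ((hgc.continuous.sub continuous_const).aestronglyMeasurable) hQ1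
    have s2 : eLpNorm (fun y => (g k y - ck) - (F y - c)) (ENNReal.ofReal q)
          (volume.restrict (ball x r)) ≤
        eLpNorm (fun y => g k y - F y) (ENNReal.ofReal q) volume +
          A * eLpNorm (fun y => g k y - F y) (ENNReal.ofReal q) volume * A1 := by
      have e1 : (fun y => (g k y - ck) - (F y - c)) =
          (fun y => g k y - F y) - fun _ => (ck - c) := by
        funext y
        simp only [Pi.sub_apply]
        abel
      rw [e1]
      refine (eLpNorm_sub_le (hgc.continuous.aestronglyMeasurable.sub h.mem.1.restrict)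
        aestronglyMeasurable_const hQ1).trans ?_
      refine add_le_add (eLpNorm_mono_measure _ Measure.restrict_le_self) ?_
      rw [eLpNorm_const' _ (ne_of_gt (lt_of_lt_of_le one_pos hQ1)) ENNReal.ofReal_ne_top,
        Measure.restrict_apply_univ, ENNReal.toReal_ofReal (by linarith)]
      exact mul_le_mul_left (hA' (g k) F hgc.continuous h.mem) _
    have s3 := hC' (g k) hgc x r hr
    have s4 : eLpNorm (fderiv ℝ (g k)) (ENNReal.ofReal p) (volume.restrict B2) ≤
        eLpNorm DF (ENNReal.ofReal p) (volume.restrict B2) +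
        A2 * eLpNorm (fun x => fderiv ℝ (g k) x - DF x) (ENNReal.ofReal q) volume := by
      have hmd : AEStronglyMeasurable (fderiv ℝ (g k)) (volume.restrict B2) :=
        (hgc.continuous_fderiv one_ne_zero).aestronglyMeasurable
      have t1 : eLpNorm (fderiv ℝ (g k)) (ENNReal.ofReal p) (volume.restrict B2) ≤
          eLpNorm (fun x => DF x - fderiv ℝ (g k) x) (ENNReal.ofReal p) (volume.restrict B2) +
          eLpNorm DF (ENNReal.ofReal p) (volume.restrict B2) :=
        g2_tri hmd h.memD.1.restrict hP1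
      refine t1.trans ?_
      rw [add_comm]
      refine add_le_add le_rfl ?_
      have t2 : eLpNorm (fun x => DF x - fderiv ℝ (g k) x) (ENNReal.ofReal p)
          (volume.restrict B2) ≤ eLpNorm (fun x => DF x - fderiv ℝ (g k) x) (ENNReal.ofReal q)
          (volume.restrict B2) * A2 := by
        have := eLpNorm_le_eLpNorm_mul_rpow_measure_univ (ENNReal.ofReal_le_ofReal hpq)
          (h.memD.1.restrict.sub hmd)
        rw [Measure.restrict_apply_univ, ENNReal.toReal_ofReal (by linarith),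
          ENNReal.toReal_ofReal (by linarith)] at this
        exact this
      refine t2.trans ?_
      rw [mul_comm]
      refine mul_le_mul_right ?_ _
      refine (eLpNorm_mono_measure _ Measure.restrict_le_self).trans (le_of_eq ?_)
      exact eLpNorm_sub_comm _ _ _ _
    refine s1.trans ((add_le_add s2 (s3.trans (mul_le_mul_right s4 _))).trans (le_of_eq ?_))
    ring
  have hlim : Tendsto (fun k => C * eLpNorm DF (ENNReal.ofReal p) (volume.restrict B2) +
      ((1 + A * A1) * eLpNorm (fun x => g k x - F x) (ENNReal.ofReal q) volume +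
        C * A2 * eLpNorm (fun x => fderiv ℝ (g k) x - DF x) (ENNReal.ofReal q) volume)) atTop
      (𝓝 (C * eLpNorm DF (ENNReal.ofReal p) (volume.restrict B2) +
        ((1 + A * A1) * 0 + C * A2 * 0))) := by
    refine tendsto_const_nhds.add ((ENNReal.Tendsto.const_mul g3 (Or.inr ?_)).add
      (ENNReal.Tendsto.const_mul g4 (Or.inr ?_)))
    · exact ENNReal.add_ne_top.mpr ⟨ENNReal.one_ne_top, ENNReal.mul_ne_top hA hA1t⟩
    · exact ENNReal.mul_ne_top ENNReal.coe_ne_top hA2t
  have hfinal := ge_of_tendsto' hlim hbound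
  rw [mul_zero, mul_zero, add_zero, add_zero] at hfinal
  exact hfinal

/-- Sobolev-Poincaré, uniform in `q`. Exponent `q1 = n q/(n+q)` (so `1/q1 = 1/q + 1/n`).
PROOF. For smooth `F` on `B_{2r}`: choose `c` = a value with `∫_{B_2r} ‖F - c‖^q1 ≤ (1/|B_2r|) ∬` (from
`poincare_double`: some point `y` does it, `c = F y`; or the mean value); `χ` cut-off `= 1` on `B_r`, supported in
`B_{2r}`, `|Dχ| ≤ 4/r`; Mathlib's `eLpNorm_le_eLpNorm_fderiv_of_eq_inner` for `χ (F - c)` with `p = q1`, `p' = q`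
(constant `eLpNormLESNormFDerivOfEqInnerConst`, bounded uniformly because `q1 ≤ n/2`); everything is scale
invariant.  For Sobolev maps: `SobC.approx`, the constants `c_k` stay bounded (pass to a convergent subsequence;
or use mean values, which converge). -/
theorem sob_poincare (hn : 2 ≤ n) : ∃ C : ℝ≥0, ∀ q : ℝ, (n : ℝ) / (n - 1) ≤ q → q ≤ n →
    ∀ (F : E n → E n) (DF : E n → E n →L[ℝ] E n), SobC q F DF → ∀ (x : E n) (r : ℝ), 0 < r →
      ∃ c : E n, ∫⁻ y in ball x r, ‖F y - c‖ₑ ^ q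
        ≤ C * (∫⁻ y in ball x (2 * r), ‖DF y‖ₑ ^ (n * q / (n + q))) ^ ((n + q) / n) := by
  obtain ⟨C, hC⟩ := g2_sob hn
  refine ⟨(max 1 C) ^ n, ?_⟩
  intro q hq1 hqn F DF h x r hr
  obtain ⟨c, hc⟩ := hC q hq1 hqn F DF h x r hr
  refine ⟨c, ?_⟩
  have hn2 : (2 : ℝ) ≤ n := by exact_mod_cast hn
  have hq0 : 1 < q := lt_of_lt_of_le (by rw [lt_div_iff₀ (by linarith)]; linarith) hq1
  have hp1 : 1 ≤ n * q / (n + q) := by
    rw [le_div_iff₀ (by linarith)]
    rw [div_le_iff₀ (by linarith)] at hq1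
    nlinarith
  have hqp : (n + q) / n = (1 / (n * q / (n + q))) * q := by
    have : (n : ℝ) ≠ 0 := by positivity
    have : q ≠ 0 := by positivity
    field_simp
  set p : ℝ := n * q / (n + q) with hp
  have hQ0 : ENNReal.ofReal q ≠ 0 := (ENNReal.ofReal_pos.mpr (by linarith)).ne'
  have hP0 : ENNReal.ofReal p ≠ 0 := (ENNReal.ofReal_pos.mpr (by linarith)).ne'
  rw [eLpNorm_eq_lintegral_rpow_enorm_toReal hQ0 ENNReal.ofReal_ne_top,
    eLpNorm_eq_lintegral_rpow_enorm_toReal hP0 ENNReal.ofReal_ne_top,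
    ENNReal.toReal_ofReal (by linarith), ENNReal.toReal_ofReal (by linarith)] at hc
  have h1 := ENNReal.rpow_le_rpow hc (by linarith : (0 : ℝ) ≤ q)
  rw [← ENNReal.rpow_mul, one_div, inv_mul_cancel₀ (by linarith : q ≠ 0), ENNReal.rpow_one,
    ENNReal.mul_rpow_of_nonneg _ _ (by linarith : (0 : ℝ) ≤ q), ← ENNReal.rpow_mul, ← hqp] at h1
  refine h1.trans (mul_le_mul_left ?_ _)
  have h2 : (C : ℝ≥0∞) ^ q ≤ ((max 1 C : ℝ≥0) : ℝ≥0∞) ^ q :=
    ENNReal.rpow_le_rpow (ENNReal.coe_le_coe.mpr (le_max_right 1 C)) (by linarith)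
  refine h2.trans ?_
  have h3 : ((max 1 C : ℝ≥0) : ℝ≥0∞) ^ q ≤ ((max 1 C : ℝ≥0) : ℝ≥0∞) ^ (n : ℝ) :=
    ENNReal.rpow_le_rpow_of_exponent_le
      (by rw [← ENNReal.coe_one]; exact ENNReal.coe_le_coe.mpr (le_max_left 1 C)) hqn
  refine h3.trans (le_of_eq ?_)
  rw [ENNReal.rpow_natCast, ENNReal.coe_pow]

end Pool.Agent.Lib.QR
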