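import Pool.Agent.Lib.MP_ba1c0b_an.M1

/-!
G2e: Sobolev embedding for compactly supported Sobolev maps.
-/

set_option autoImplicit false

open MeasureTheory Filter Topology Metric
open scoped ENNReal NNReal

namespace Pool.Agent.Lib.QR

variable {n : ℕ}

/-- A map with compact support in a ball has derivative zero outside the ball. -/
private theorem g2e_fderiv_zero {u : E n → E n} {R : ℝ} (hu : ∀ x, R < ‖x‖ → u x = 0) (x : E n)
    (hx : R < ‖x‖) : fderiv ℝ u x = 0 := by
  have ho : IsOpen {y : E n | R < ‖y‖} := isOpen_lt continuous_const continuous_norm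
  have he : u =ᶠ[𝓝 x] (fun _ => (0 : E n)) := by
    filter_upwards [ho.mem_nhds hx] with y hy using hu y hy
  rw [he.fderiv_eq]
  simp

/-- The triangle inequality in the form used below. -/
private theorem g2e_tri {α G : Type*} [MeasurableSpace α] {μ : Measure α} [NormedAddCommGroup G]
    {A B : α → G} {e : ℝ≥0∞} (hA : AEStronglyMeasurable A μ)
    (hB : AEStronglyMeasurable B μ) (he : 1 ≤ e) :
    eLpNorm A e μ ≤ eLpNorm (fun x => A x - B x) e μ + eLpNorm B e μ := by
  have h1 : (A - B) + B = A := sub_add_cancel A B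
  have h2 := eLpNorm_add_le (hA.sub hB) hB he
  rw [h1] at h2
  exact h2

/-- The norm of a function vanishing outside a set. -/
private theorem g2e_restr {α G : Type*} [MeasurableSpace α] {μ : Measure α} [NormedAddCommGroup G]
    {A : α → G} {S : Set α} (hS : MeasurableSet S) (h0 : ∀ x, x ∉ S → A x = 0) (e : ℝ≥0∞) :
    eLpNorm A e μ = eLpNorm A e (μ.restrict S) := by
  have hind : S.indicator A = A := by
    funext x
    by_cases hxS : x ∈ S
    · exact Set.indicator_of_mem hxS _
    · rw [Set.indicator_of_notMem hxS, h0 x hxS]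
  rw [← eLpNorm_indicator_eq_eLpNorm_restrict hS, hind]

/-- Hoelder on a set of finite measure. -/
private theorem g2e_hoelder {α G : Type*} [MeasurableSpace α] {μ : Measure α} [NormedAddCommGroup G]
    {A : α → G} {S : Set α} (hS : MeasurableSet S) (h0 : ∀ x, x ∉ S → A x = 0) {r q : ℝ≥0∞}
    (hrq : r ≤ q) (hA : AEStronglyMeasurable A μ) :
    eLpNorm A r μ ≤ eLpNorm A q μ * (μ S) ^ (1 / r.toReal - 1 / q.toReal) := by
  rw [g2e_restr hS h0 r, g2e_restr hS h0 q]
  have := eLpNorm_le_eLpNorm_mul_rpow_measure_univ (μ := μ.restrict S) (f := A) hrq hA.restrict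
  simpa using this

/-- The smooth bound. -/
private theorem g2e_bound (hn : 2 ≤ n) {q p : ℝ} (hq : (n : ℝ) / (n - 1) ≤ q) (hqp : q ≤ p)
    (hp : p * (n - q) ≤ n * q) (R : ℝ) :
    ∃ C : ℝ≥0∞, C ≠ ∞ ∧ ∀ u : E n → E n, ContDiff ℝ ((⊤ : ℕ∞) : WithTop ℕ∞) u →
      (∀ x, R < ‖x‖ → u x = 0) →
      eLpNorm u (ENNReal.ofReal p) volume ≤ C * eLpNorm (fderiv ℝ u) (ENNReal.ofReal q) volume := by
  have hn1 : (1 : ℝ) < n := by exact_mod_cast (by omega : 1 < n)
  have hn0 : (0 : ℝ) < n := by linarith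
  have hq1 : 1 < q := by
    refine lt_of_lt_of_le ?_ hq
    rw [lt_div_iff₀ (by linarith)]; linarith
  have hp1 : 1 < p := lt_of_lt_of_le hq1 hqp
  have hnp : (n : ℝ) ≤ p * (n - 1) := by
    have := hq.trans hqp
    rwa [div_le_iff₀ (by linarith)] at this
  set r : ℝ := n * p / (n + p) with hr
  have hnp0 : 0 < (n : ℝ) + p := by linarith
  have hr1 : 1 ≤ r := by
    rw [hr, le_div_iff₀ hnp0]; linarith
  have hrq : r ≤ q := by
    rw [hr, div_le_iff₀ hnp0]; linarith
  have hr0 : 0 < r := by linarith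
  have hrinv : p⁻¹ = r⁻¹ - (n : ℝ)⁻¹ := by
    rw [hr]; field_simp; ring
  set S : Set (E n) := closedBall 0 R with hS
  have hSfin : volume S ≠ ∞ := (isCompact_closedBall (0 : E n) R).measure_lt_top.ne
  refine ⟨(SNormLESNormFDerivOfEqConst (E n) (volume : Measure (E n)) r.toNNReal : ℝ≥0∞) *
    (volume S) ^ (1 / (ENNReal.ofReal r).toReal - 1 / (ENNReal.ofReal q).toReal), ?_, ?_⟩
  · refine ENNReal.mul_ne_top ENNReal.coe_ne_top (ENNReal.rpow_ne_top_of_nonneg ?_ hSfin)
    rw [ENNReal.toReal_ofReal hr0.le, ENNReal.toReal_ofReal (by linarith)]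
    rw [sub_nonneg]
    exact one_div_le_one_div_of_le hr0 hrq
  · intro u hu hu0
    have hcs : HasCompactSupport u := by
      refine HasCompactSupport.intro (isCompact_closedBall (0 : E n) R) fun x hx => hu0 x ?_
      simpa using hx
    have h1 := eLpNorm_le_eLpNorm_fderiv_of_eq (volume : Measure (E n)) (F := E n) (u := u)
      (hu.of_le (by exact_mod_cast le_top)) hcs (p := r.toNNReal) (p' := p.toNNReal)
      (by rw [← NNReal.coe_le_coe, Real.coe_toNNReal r hr0.le]; exact_mod_cast hr1)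
      (by rw [finrank_euclideanSpace, Fintype.card_fin]; omega)
      (by
        rw [NNReal.coe_inv, Real.coe_toNNReal r hr0.le, Real.coe_toNNReal p (by linarith),
          finrank_euclideanSpace, Fintype.card_fin]
        exact hrinv)
    have h0 : ∀ x, x ∉ S → fderiv ℝ u x = 0 := by
      intro x hxS
      refine g2e_fderiv_zero hu0 x ?_
      simpa [hS] using hxS
    have hmeas : AEStronglyMeasurable (fderiv ℝ u) volume :=
      (hu.continuous_fderiv (by simp)).aestronglyMeasurable
    have h2 : eLpNorm (fderiv ℝ u) (ENNReal.ofReal r) volume ≤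
        eLpNorm (fderiv ℝ u) (ENNReal.ofReal q) volume *
          (volume S) ^ (1 / (ENNReal.ofReal r).toReal - 1 / (ENNReal.ofReal q).toReal) :=
      g2e_hoelder measurableSet_closedBall h0 (ENNReal.ofReal_le_ofReal hrq) hmeas
    calc eLpNorm u (ENNReal.ofReal p) volume
        ≤ (SNormLESNormFDerivOfEqConst (E n) (volume : Measure (E n)) r.toNNReal : ℝ≥0∞) *
          eLpNorm (fderiv ℝ u) (ENNReal.ofReal r) volume := h1
      _ ≤ (SNormLESNormFDerivOfEqConst (E n) (volume : Measure (E n)) r.toNNReal : ℝ≥0∞) *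
          (eLpNorm (fderiv ℝ u) (ENNReal.ofReal q) volume *
          (volume S) ^ (1 / (ENNReal.ofReal r).toReal - 1 / (ENNReal.ofReal q).toReal)) := by
          gcongr
      _ = _ := by ring

/-- Sobolev embedding. PROOF: for `p > q` apply the Gagliardo-Nirenberg-Sobolev inequality of Mathlib with the
exponents `n p/(n+p) ≤ q` and `p` to `SobC.approx`, Fatou. -/
theorem sob_embed (hn : 2 ≤ n) {q p : ℝ} (hq : (n : ℝ) / (n - 1) ≤ q) (hqp : q ≤ p) (hp : p * (n - q) ≤ n * q)
    {F : E n → E n} {DF : E n → E n →L[ℝ] E n} (h : SobC q F DF) :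
    MemLp F (ENNReal.ofReal p) volume := by
  have hn1 : (1 : ℝ) < n := by exact_mod_cast (by omega : 1 < n)
  have hq1 : 1 < q := by
    refine lt_of_lt_of_le ?_ hq
    rw [lt_div_iff₀ (by linarith)]; linarith
  have hp1 : 1 < p := lt_of_lt_of_le hq1 hqp
  obtain ⟨R, gk, hsm, hsupp, hg, hDg⟩ := SobC.approx hq1.le h
  obtain ⟨C, hC, hCb⟩ := g2e_bound hn hq hqp hp R
  have hqne : ENNReal.ofReal q ≠ 0 := by
    rw [ne_eq, ENNReal.ofReal_eq_zero, not_le]; linarith
  have hq1' : (1 : ℝ≥0∞) ≤ ENNReal.ofReal q := by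
    rw [← ENNReal.ofReal_one]; exact ENNReal.ofReal_le_ofReal hq1.le
  have hgm : ∀ k, AEStronglyMeasurable (gk k) volume := fun k =>
    (hsm k).continuous.aestronglyMeasurable
  have hDm : ∀ k, AEStronglyMeasurable (fderiv ℝ (gk k)) volume := fun k =>
    ((hsm k).continuous_fderiv (by simp)).aestronglyMeasurable
  -- almost everywhere convergence along a subsequence
  have hmeas : TendstoInMeasure volume gk atTop F := by
    refine tendstoInMeasure_of_tendsto_eLpNorm hqne hgm h.mem.aestronglyMeasurable ?_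
    exact hg
  obtain ⟨ns, hns, hae⟩ := hmeas.exists_seq_tendsto_ae
  have hle : eLpNorm F (ENNReal.ofReal p) volume ≤
      liminf (fun k => eLpNorm (gk (ns k)) (ENNReal.ofReal p) volume) atTop :=
    Lp.eLpNorm_lim_le_liminf_eLpNorm (fun k => hgm (ns k)) F hae
  have hb : ∀ k, eLpNorm (gk (ns k)) (ENNReal.ofReal p) volume ≤
      C * (eLpNorm (fun x => fderiv ℝ (gk (ns k)) x - DF x) (ENNReal.ofReal q) volume +
        eLpNorm DF (ENNReal.ofReal q) volume) := by
    intro k
    refine (hCb _ (hsm _) (hsupp _)).trans ?_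
    gcongr
    exact g2e_tri (hDm _) h.memD.aestronglyMeasurable hq1'
  have hlim : Tendsto (fun k => C * (eLpNorm (fun x => fderiv ℝ (gk (ns k)) x - DF x)
      (ENNReal.ofReal q) volume + eLpNorm DF (ENNReal.ofReal q) volume)) atTop
      (𝓝 (C * (0 + eLpNorm DF (ENNReal.ofReal q) volume))) := by
    refine ENNReal.Tendsto.const_mul ?_ (Or.inr hC)
    exact (hDg.comp hns.tendsto_atTop).add tendsto_const_nhds
  refine ⟨h.mem.aestronglyMeasurable, ?_⟩
  have h3 : liminf (fun k => eLpNorm (gk (ns k)) (ENNReal.ofReal p) volume) atTop ≤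
      C * (0 + eLpNorm DF (ENNReal.ofReal q) volume) := by
    rw [← hlim.liminf_eq]
    exact liminf_le_liminf (Eventually.of_forall hb)
  refine (hle.trans h3).trans_lt ?_
  rw [zero_add]
  exact ENNReal.mul_lt_top hC.lt_top h.memD.eLpNorm_lt_top

end Pool.Agent.Lib.QR
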