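import Mathlib

/-!
G3: Gehring's lemma (global form, with balls), first part: the level set inequality.
-/

set_option autoImplicit false

open MeasureTheory Filter Topology Metric Set
open scoped ENNReal NNReal

namespace Pool.Agent.Lib.QR

variable {F : Type*} [NormedAddCommGroup F] [NormedSpace ℝ F] [FiniteDimensional ℝ F]
  [MeasurableSpace F] [BorelSpace F] [Nontrivial F]

/-- Reverse Hölder inequality on all balls, with right hand side `H`. -/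
def RH (μ : Measure F) (K : ℝ≥0) (q q1 : ℝ) (G H : F → ℝ≥0∞) : Prop :=
  ∀ (x : F) (r : ℝ), 0 < r → ∫⁻ y in ball x r, G y ^ q ∂μ ≤
    K * (μ (ball x (4 * r)) * ((μ (ball x (4 * r)))⁻¹ * ∫⁻ y in ball x (4 * r), G y ^ q1 ∂μ) ^ (q / q1))
      + K * ∫⁻ y in ball x (4 * r), H y ^ q ∂μ

private lemma g3_ball_scale (μ : Measure F) [μ.IsAddHaarMeasure] (x : F) {c : ℝ} (hc : 0 < c)
    (r : ℝ) : μ (ball x (c * r)) = ENNReal.ofReal (c ^ Module.finrank ℝ F) * μ (ball x r) := by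
  rw [Measure.addHaar_ball_mul_of_pos μ x hc r, Measure.addHaar_ball_center μ x r]

private lemma g3_ball_ae (μ : Measure F) [μ.IsAddHaarMeasure] (x : F) (r : ℝ) :
    (ball x r : Set F) =ᵐ[μ] closedBall x r := by
  refine ae_eq_of_subset_of_measure_ge ball_subset_closedBall ?_
    measurableSet_ball.nullMeasurableSet ?_
  · rw [Measure.addHaar_closedBall_eq_addHaar_ball]
  · exact measure_closedBall_lt_top.ne

private lemma g3_big (μ : Measure F) [μ.IsAddHaarMeasure] (I : ℝ≥0∞) (hI : I < ∞) (L : ℝ≥0∞)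
    (hL : 0 < L) (hL' : L ≠ ∞) :
    ∃ R : ℝ, 0 < R ∧ ∀ (x : F) (ρ : ℝ), R ≤ ρ → I < L * μ (ball x ρ) := by
  have h1 : μ (ball (0 : F) 1) ≠ 0 := (measure_ball_pos μ 0 one_pos).ne'
  have h1' : μ (ball (0 : F) 1) ≠ ∞ := measure_ball_lt_top.ne
  set t : ℝ≥0∞ := I / (L * μ (ball (0 : F) 1)) with ht
  have hden : L * μ (ball (0 : F) 1) ≠ 0 := mul_ne_zero hL.ne' h1
  have hden' : L * μ (ball (0 : F) 1) ≠ ∞ := ENNReal.mul_ne_top hL' h1'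
  have htt : t ≠ ∞ := ENNReal.div_ne_top hI.ne hden
  refine ⟨t.toReal + 1, by positivity, fun x ρ hρ => ?_⟩
  have hρ1 : 1 ≤ ρ := le_trans (by have := ENNReal.toReal_nonneg (a := t); linarith) hρ
  have hd : Module.finrank ℝ F ≠ 0 := (Module.finrank_pos (R := ℝ) (M := F)).ne'
  have hpow : ρ ≤ ρ ^ Module.finrank ℝ F := le_self_pow₀ hρ1 hd
  have hlt : t < ENNReal.ofReal ρ := by
    rw [← ENNReal.ofReal_toReal htt]
    exact (ENNReal.ofReal_lt_ofReal_iff (by linarith)).2 (by linarith)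
  have h2 : μ (ball x ρ) = ENNReal.ofReal (ρ ^ Module.finrank ℝ F) * μ (ball (0 : F) 1) := by
    have := Measure.addHaar_ball_mul_of_pos μ x (show (0 : ℝ) < ρ by linarith) 1
    rwa [mul_one] at this
  have h3 : I < ENNReal.ofReal ρ * (L * μ (ball (0 : F) 1)) := by
    rw [← ENNReal.div_lt_iff (Or.inl hden) (Or.inl hden')]
    exact hlt
  calc I < ENNReal.ofReal ρ * (L * μ (ball (0 : F) 1)) := h3
    _ ≤ ENNReal.ofReal (ρ ^ Module.finrank ℝ F) * (L * μ (ball (0 : F) 1)) := by gcongr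
    _ = L * μ (ball x ρ) := by rw [h2]; ring

private lemma g3_radius (μ : Measure F) [μ.IsAddHaarMeasure] (f : F → ℝ≥0∞) (hf : Measurable f)
    (hI : ∫⁻ x, f x ∂μ < ∞) (L : ℝ≥0∞) (hL : 0 < L) (hL' : L ≠ ∞) :
    ∃ R : ℝ, ∀ᵐ x ∂μ, L < f x → ∃ r : ℝ, 0 < r ∧ r ≤ R ∧
      L * μ (ball x r) ≤ ∫⁻ y in ball x r, f y ∂μ ∧
      ∀ ρ, 2 * r ≤ ρ → ∫⁻ y in ball x ρ, f y ∂μ < L * μ (ball x ρ) := by
  obtain ⟨R, hR0, hR⟩ := g3_big μ (∫⁻ x, f x ∂μ) hI L hL hL'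
  refine ⟨R, ?_⟩
  filter_upwards [(Besicovitch.vitaliFamily μ).ae_tendsto_lintegral_div hf.aemeasurable hI.ne]
    with x hx hLx
  have hx' := hx.comp (Besicovitch.tendsto_filterAt μ x)
  have hev : ∀ᶠ r in 𝓝[>] (0 : ℝ), L < (∫⁻ y in closedBall x r, f y ∂μ) / μ (closedBall x r) :=
    hx'.eventually (lt_mem_nhds hLx)
  obtain ⟨r0, hr0, hr0'⟩ := (hev.and self_mem_nhdsWithin).exists
  have hr0pos : 0 < r0 := hr0'
  set A : Set ℝ := {r | 0 < r ∧ L * μ (ball x r) ≤ ∫⁻ y in ball x r, f y ∂μ} with hA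
  have hmem : r0 ∈ A := by
    refine ⟨hr0pos, ?_⟩
    have h1 : μ (closedBall x r0) ≠ 0 := (measure_closedBall_pos μ x hr0pos).ne'
    have h2 : μ (closedBall x r0) ≠ ∞ := measure_closedBall_lt_top.ne
    have h3 : L * μ (closedBall x r0) < ∫⁻ y in closedBall x r0, f y ∂μ := by
      rwa [← ENNReal.lt_div_iff_mul_lt (Or.inl h1) (Or.inl h2)]
    rw [← Measure.addHaar_closedBall_eq_addHaar_ball, Measure.restrict_congr_set (g3_ball_ae μ x r0)]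
    exact h3.le
  have hbdd : ∀ r ∈ A, r ≤ R := by
    intro r hr
    by_contra hcon
    push Not at hcon
    have h1 := hR x r hcon.le
    have h2 : ∫⁻ y in ball x r, f y ∂μ ≤ ∫⁻ y, f y ∂μ := setLIntegral_le_lintegral _ _
    exact absurd (hr.2.trans h2) (not_le.2 h1)
  have hBA : BddAbove A := ⟨R, hbdd⟩
  have hs0 : 0 < sSup A := lt_of_lt_of_le hr0pos (le_csSup hBA hmem)
  obtain ⟨r, hrA, hr⟩ := exists_lt_of_lt_csSup ⟨r0, hmem⟩ (show sSup A / 2 < sSup A by linarith)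
  refine ⟨r, hrA.1, hbdd r hrA, hrA.2, fun ρ hρ => ?_⟩
  by_contra hcon
  push Not at hcon
  have hρA : ρ ∈ A := ⟨by linarith [hrA.1], hcon⟩
  have := le_csSup hBA hρA
  linarith

/-- the inequality for one ball -/
private lemma g3_one (μ : Measure F) (K : ℝ≥0) (D : ℝ≥0) (hD : 1 ≤ D) (q q1 : ℝ) (hq1 : 1 ≤ q1)
    (hq : q1 < q) (G H : F → ℝ≥0∞) (B : Set F)
    (m : ℝ≥0∞) (hm0 : m ≠ 0) (hm1 : m ≠ ∞) (hB : μ B = D * m) (lam : ℝ≥0) (hlam : 0 < lam)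
    (b : ℝ≥0) (hb : b = 4 * D * max K 1) (a : ℝ≥0) (ha : a = (2 * b)⁻¹)
    (hmain : (lam : ℝ≥0∞) ^ q * m ≤ K * (μ B * ((μ B)⁻¹ * ∫⁻ y in B, G y ^ q1 ∂μ) ^ (q / q1))
      + K * ∫⁻ y in B, H y ^ q ∂μ)
    (X Y : ℝ≥0∞)
    (hX : ∫⁻ y in B, G y ^ q1 ∂μ ≤ X + ((a : ℝ≥0∞) * lam) ^ q1 * μ B)
    (hY : ∫⁻ y in B, H y ^ q ∂μ ≤ Y + ((a : ℝ≥0∞) * lam) ^ q * μ B) :
    (lam : ℝ≥0∞) ^ q * μ B ≤ 2 * b * ((lam : ℝ≥0∞) ^ (q - q1) * X + Y) := by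
  have hl0 : (lam : ℝ≥0∞) ≠ 0 := by simpa using hlam.ne'
  have hl1 : (lam : ℝ≥0∞) ≠ ∞ := ENNReal.coe_ne_top
  have hK1 : (1 : ℝ≥0) ≤ max K 1 := le_max_right _ _
  have hb4 : (4 : ℝ≥0) ≤ b := by
    rw [hb]
    calc (4 : ℝ≥0) = 4 * 1 * 1 := by norm_num
      _ ≤ 4 * D * max K 1 := by gcongr
  have hb0 : b ≠ 0 := by
    intro h; rw [h] at hb4; norm_num at hb4
  have ha1 : a ≤ 1 := by
    rw [ha]
    apply inv_le_one_of_one_le₀
    calc (1 : ℝ≥0) ≤ 2 * 4 := by norm_num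
      _ ≤ 2 * b := by gcongr
  have hbE0 : (b : ℝ≥0∞) ≠ 0 := by simpa using hb0
  have hbE1 : (b : ℝ≥0∞) ≠ ∞ := ENNReal.coe_ne_top
  have haE : (a : ℝ≥0∞) = (2 * (b : ℝ≥0∞))⁻¹ := by
    rw [ha, ENNReal.coe_inv (by simpa using hb0)]
    simp
  have haE1 : (a : ℝ≥0∞) ≤ 1 := by exact_mod_cast ha1
  have hDE0 : (D : ℝ≥0∞) ≠ 0 := by
    have : D ≠ 0 := by intro h; rw [h] at hD; norm_num at hD
    simpa using this
  have hP0 : μ B ≠ 0 := by rw [hB]; exact mul_ne_zero hDE0 hm0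
  have hP1 : μ B ≠ ∞ := by rw [hB]; exact ENNReal.mul_ne_top ENNReal.coe_ne_top hm1
  have hq0 : 0 < q := by linarith
  have hq10 : 0 < q1 := by linarith
  by_contra hcon
  push Not at hcon
  -- the two pieces are small
  have h2b : (2 * (b : ℝ≥0∞)) ≠ 0 := mul_ne_zero (by norm_num) hbE0
  have h2b' : (2 * (b : ℝ≥0∞)) ≠ ∞ := ENNReal.mul_ne_top (by norm_num) hbE1
  have hXY : (lam : ℝ≥0∞) ^ (q - q1) * X + Y ≤ (a : ℝ≥0∞) * ((lam : ℝ≥0∞) ^ q * μ B) := by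
    rw [haE]
    calc (lam : ℝ≥0∞) ^ (q - q1) * X + Y
        = (2 * (b : ℝ≥0∞))⁻¹ * (2 * b * ((lam : ℝ≥0∞) ^ (q - q1) * X + Y)) := by
          rw [← mul_assoc, ENNReal.inv_mul_cancel h2b h2b', one_mul]
      _ ≤ (2 * (b : ℝ≥0∞))⁻¹ * ((lam : ℝ≥0∞) ^ q * μ B) := by gcongr
  have hsplit : (lam : ℝ≥0∞) ^ q = (lam : ℝ≥0∞) ^ (q - q1) * (lam : ℝ≥0∞) ^ q1 := by
    rw [← ENNReal.rpow_add _ _ hl0 hl1]; congr 1; ring
  have hX' : X ≤ (a : ℝ≥0∞) * ((lam : ℝ≥0∞) ^ q1 * μ B) := by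
    have h1 : (lam : ℝ≥0∞) ^ (q - q1) * X ≤
        (lam : ℝ≥0∞) ^ (q - q1) * ((a : ℝ≥0∞) * ((lam : ℝ≥0∞) ^ q1 * μ B)) := by
      calc (lam : ℝ≥0∞) ^ (q - q1) * X ≤ (lam : ℝ≥0∞) ^ (q - q1) * X + Y := le_self_add
        _ ≤ (a : ℝ≥0∞) * ((lam : ℝ≥0∞) ^ q * μ B) := hXY
        _ = _ := by rw [hsplit]; ring
    have hc0 : (lam : ℝ≥0∞) ^ (q - q1) ≠ 0 := by
      rw [Ne, ENNReal.rpow_eq_zero_iff]; push Not; exact ⟨fun h => absurd h hl0, fun h => absurd h hl1⟩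
    have hc1 : (lam : ℝ≥0∞) ^ (q - q1) ≠ ∞ := ENNReal.rpow_ne_top_of_nonneg (by linarith) hl1
    exact (ENNReal.mul_le_mul_iff_right hc0 hc1).1 h1
  have hY' : Y ≤ (a : ℝ≥0∞) * ((lam : ℝ≥0∞) ^ q * μ B) := le_trans le_add_self hXY
  have hpow1 : ((a : ℝ≥0∞) * lam) ^ q1 ≤ (a : ℝ≥0∞) * (lam : ℝ≥0∞) ^ q1 := by
    rw [ENNReal.mul_rpow_of_nonneg _ _ hq10.le]
    gcongr
    calc (a : ℝ≥0∞) ^ q1 ≤ (a : ℝ≥0∞) ^ (1 : ℝ) := ENNReal.rpow_le_rpow_of_exponent_ge haE1 hq1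
      _ = a := ENNReal.rpow_one _
  have hpow2 : ((a : ℝ≥0∞) * lam) ^ q ≤ (a : ℝ≥0∞) * (lam : ℝ≥0∞) ^ q := by
    rw [ENNReal.mul_rpow_of_nonneg _ _ hq0.le]
    gcongr
    calc (a : ℝ≥0∞) ^ q ≤ (a : ℝ≥0∞) ^ (1 : ℝ) :=
          ENNReal.rpow_le_rpow_of_exponent_ge haE1 (by linarith)
      _ = a := ENNReal.rpow_one _
  have h2a : (a : ℝ≥0∞) + a = (b : ℝ≥0∞)⁻¹ := by
    rw [← two_mul, haE, ENNReal.mul_inv (Or.inl (by norm_num)) (Or.inl (by norm_num)), ← mul_assoc,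
      ENNReal.mul_inv_cancel (by norm_num) (by norm_num), one_mul]
  have hG : ∫⁻ y in B, G y ^ q1 ∂μ ≤ (b : ℝ≥0∞)⁻¹ * (lam : ℝ≥0∞) ^ q1 * μ B := by
    calc ∫⁻ y in B, G y ^ q1 ∂μ ≤ X + ((a : ℝ≥0∞) * lam) ^ q1 * μ B := hX
      _ ≤ (a : ℝ≥0∞) * ((lam : ℝ≥0∞) ^ q1 * μ B) + (a : ℝ≥0∞) * (lam : ℝ≥0∞) ^ q1 * μ B := by
          gcongr
      _ = ((a : ℝ≥0∞) + a) * (lam : ℝ≥0∞) ^ q1 * μ B := by ring
      _ = _ := by rw [h2a]
  have hH : ∫⁻ y in B, H y ^ q ∂μ ≤ (b : ℝ≥0∞)⁻¹ * (lam : ℝ≥0∞) ^ q * μ B := by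
    calc ∫⁻ y in B, H y ^ q ∂μ ≤ Y + ((a : ℝ≥0∞) * lam) ^ q * μ B := hY
      _ ≤ (a : ℝ≥0∞) * ((lam : ℝ≥0∞) ^ q * μ B) + (a : ℝ≥0∞) * (lam : ℝ≥0∞) ^ q * μ B := by
          gcongr
      _ = ((a : ℝ≥0∞) + a) * (lam : ℝ≥0∞) ^ q * μ B := by ring
      _ = _ := by rw [h2a]
  have hA : ((μ B)⁻¹ * ∫⁻ y in B, G y ^ q1 ∂μ) ^ (q / q1) ≤ (b : ℝ≥0∞)⁻¹ * (lam : ℝ≥0∞) ^ q := by
    have hqq : 1 ≤ q / q1 := by rw [le_div_iff₀ hq10]; linarith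
    have h1 : (μ B)⁻¹ * ∫⁻ y in B, G y ^ q1 ∂μ ≤ (b : ℝ≥0∞)⁻¹ * (lam : ℝ≥0∞) ^ q1 := by
      calc (μ B)⁻¹ * ∫⁻ y in B, G y ^ q1 ∂μ
          ≤ (μ B)⁻¹ * ((b : ℝ≥0∞)⁻¹ * (lam : ℝ≥0∞) ^ q1 * μ B) := by gcongr
        _ = ((μ B)⁻¹ * μ B) * ((b : ℝ≥0∞)⁻¹ * (lam : ℝ≥0∞) ^ q1) := by ring
        _ = _ := by rw [ENNReal.inv_mul_cancel hP0 hP1, one_mul]
    have hbinv : (b : ℝ≥0∞)⁻¹ ≤ 1 := by
      rw [ENNReal.inv_le_one]
      exact_mod_cast le_trans (by norm_num) hb4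
    calc ((μ B)⁻¹ * ∫⁻ y in B, G y ^ q1 ∂μ) ^ (q / q1)
        ≤ ((b : ℝ≥0∞)⁻¹ * (lam : ℝ≥0∞) ^ q1) ^ (q / q1) :=
          ENNReal.rpow_le_rpow h1 (by linarith)
      _ = ((b : ℝ≥0∞)⁻¹) ^ (q / q1) * (lam : ℝ≥0∞) ^ q := by
          rw [ENNReal.mul_rpow_of_nonneg _ _ (by linarith), ← ENNReal.rpow_mul]
          congr 2
          field_simp
      _ ≤ (b : ℝ≥0∞)⁻¹ * (lam : ℝ≥0∞) ^ q := by
          gcongr
          calc ((b : ℝ≥0∞)⁻¹) ^ (q / q1) ≤ ((b : ℝ≥0∞)⁻¹) ^ (1 : ℝ) :=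
                ENNReal.rpow_le_rpow_of_exponent_ge hbinv hqq
            _ = _ := ENNReal.rpow_one _
  have hKm : (K : ℝ≥0∞) ≤ (max K 1 : ℝ≥0) := by exact_mod_cast le_max_left _ _
  have hfin : (lam : ℝ≥0∞) ^ q * m ≤ (2 : ℝ≥0∞)⁻¹ * ((lam : ℝ≥0∞) ^ q * m) := by
    calc (lam : ℝ≥0∞) ^ q * m
        ≤ K * (μ B * ((μ B)⁻¹ * ∫⁻ y in B, G y ^ q1 ∂μ) ^ (q / q1))
          + K * ∫⁻ y in B, H y ^ q ∂μ := hmain
      _ ≤ (max K 1 : ℝ≥0) * (μ B * ((b : ℝ≥0∞)⁻¹ * (lam : ℝ≥0∞) ^ q))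
          + (max K 1 : ℝ≥0) * ((b : ℝ≥0∞)⁻¹ * (lam : ℝ≥0∞) ^ q * μ B) := by gcongr
      _ = (2 * D * (max K 1 : ℝ≥0)) * (b : ℝ≥0∞)⁻¹ * ((lam : ℝ≥0∞) ^ q * m) := by
          rw [hB]; ring
      _ = (2 : ℝ≥0∞)⁻¹ * ((lam : ℝ≥0∞) ^ q * m) := by
          congr 1
          have hbb : (b : ℝ≥0∞) = 2 * (2 * D * (max K 1 : ℝ≥0)) := by
            rw [hb]; push_cast; ring
          have hz : (2 * (D : ℝ≥0∞) * (max K 1 : ℝ≥0)) ≠ 0 := by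
            refine mul_ne_zero (mul_ne_zero (by norm_num) hDE0) ?_
            have : (max K 1 : ℝ≥0) ≠ 0 := by
              intro h; rw [h] at hK1; norm_num at hK1
            simpa using this
          have hz' : (2 * (D : ℝ≥0∞) * (max K 1 : ℝ≥0)) ≠ ∞ :=
            ENNReal.mul_ne_top (ENNReal.mul_ne_top (by norm_num) ENNReal.coe_ne_top)
              ENNReal.coe_ne_top
          rw [hbb, ENNReal.mul_inv (Or.inl (by norm_num)) (Or.inl (by norm_num)),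
            mul_comm ((2 : ℝ≥0∞)⁻¹), ← mul_assoc, ENNReal.mul_inv_cancel hz hz', one_mul]
  have hz0 : (lam : ℝ≥0∞) ^ q * m ≠ 0 := by
    refine mul_ne_zero ?_ hm0
    rw [Ne, ENNReal.rpow_eq_zero_iff]; push Not; exact ⟨fun h => absurd h hl0, fun h => absurd h hl1⟩
  have hz1 : (lam : ℝ≥0∞) ^ q * m ≠ ∞ :=
    ENNReal.mul_ne_top (ENNReal.rpow_ne_top_of_nonneg hq0.le hl1) hm1
  have hhalf : (2 : ℝ≥0∞)⁻¹ * ((lam : ℝ≥0∞) ^ q * m) < (lam : ℝ≥0∞) ^ q * m := by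
    rw [mul_comm, ← div_eq_mul_inv]
    exact ENNReal.half_lt_self hz0 hz1
  exact absurd hfin (not_le.2 hhalf)

private lemma g3_split (μ : Measure F) (f : F → ℝ≥0∞) (hf : Measurable f) (B : Set F)
    (q : ℝ) (hq : 0 < q) (c : ℝ≥0∞) :
    ∫⁻ y in B, f y ^ q ∂μ ≤ ∫⁻ y in B ∩ {x | c < f x}, f y ^ q ∂μ + c ^ q * μ B := by
  have hm : MeasurableSet {x | c < f x} := measurableSet_lt measurable_const hf
  rw [← lintegral_inter_add_sdiff (fun y => f y ^ q) B hm]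
  gcongr
  calc ∫⁻ y in B \ {x | c < f x}, f y ^ q ∂μ ≤ ∫⁻ y in B \ {x | c < f x}, c ^ q ∂μ := by
        have h1 : ∫⁻ y in B \ {x | c < f x}, f y ^ q ∂μ
            = ∫⁻ y in {x | c < f x}ᶜ, f y ^ q ∂(μ.restrict B) := by
          rw [Measure.restrict_restrict hm.compl, Set.inter_comm, Set.sdiff_eq]
        have h2 : ∫⁻ y in B \ {x | c < f x}, c ^ q ∂μ
            = ∫⁻ y in {x | c < f x}ᶜ, c ^ q ∂(μ.restrict B) := by
          rw [Measure.restrict_restrict hm.compl, Set.inter_comm, Set.sdiff_eq]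
        rw [h1, h2]
        refine setLIntegral_mono' hm.compl fun y hy => ?_
        exact ENNReal.rpow_le_rpow (not_lt.1 hy) hq.le
    _ = c ^ q * μ (B \ {x | c < f x}) := setLIntegral_const _ _
    _ ≤ c ^ q * μ B := by gcongr; exact sdiff_subset

private lemma g3_sum {ι : Type*} [Countable ι] (μ : Measure F) (f : F → ℝ≥0∞) (B : ι → Set F)
    (hB : ∀ i, MeasurableSet (B i)) (hd : Pairwise (Function.onFun Disjoint B)) (T : Set F)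
    (hT : MeasurableSet T) :
    ∑' i, ∫⁻ y in B i ∩ T, f y ∂μ ≤ ∫⁻ y in T, f y ∂μ := by
  have h1 : ∀ i, ∫⁻ y in B i ∩ T, f y ∂μ = ∫⁻ y in B i, f y ∂(μ.restrict T) := by
    intro i
    rw [Measure.restrict_restrict (hB i)]
  simp_rw [h1]
  rw [← lintegral_iUnion hB hd]
  exact setLIntegral_le_lintegral _ _

/-- Level set inequality.
PROOF. For a.e. `x` with `G x > lam` (Lebesgue points of `G^q`, e.g. `IsUnifLocDoublingMeasure.ae_tendsto_average`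
or `Besicovitch.ae_tendsto_...`) small balls have mean `> lam^q` and large balls have mean `< lam^q`; choose `r x > 0`
with mean over `B(x, r)` at least `lam^q` and mean over `B(x, ρ)` less than `lam^q` for all `ρ ≥ 2 r`.  The radii are
bounded.  Vitali (`Vitali.exists_disjoint_subfamily_covering_enlargement_closedBall`) for the balls `B(x, 4 r x)`:
disjoint subfamily, the `20 r`-balls (or any fixed enlargement) cover, so
`∫_{G > lam} G^q ≤ c lam^q ∑ μ(B(x_k, 4 r_k))`.  By `RH` at `B(x_k, r_k)` either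
`∫_{B_k'} G^q1 ≥ c1 lam^q1 μ(B_k')` or `∫_{B_k'} H^q ≥ c2 lam^q μ(B_k')` with `B_k' = B(x_k, 4 r_k)`; remove the
parts `G ≤ a lam`, `H ≤ a lam` (`a` small).  All constants depend only on `dim F`, `K`, `Q`. -/
theorem level_set (μ : Measure F) [μ.IsAddHaarMeasure] (K : ℝ≥0) (Q : ℝ) :
    ∃ (C : ℝ≥0) (a : ℝ≥0), 0 < a ∧ a ≤ 1 ∧ ∀ q q1 : ℝ, 1 ≤ q1 → q1 < q → q ≤ Q →
      ∀ G H : F → ℝ≥0∞, Measurable G → Measurable H → ∫⁻ x, G x ^ q ∂μ < ∞ →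
      RH μ K q q1 G H → ∀ lam : ℝ≥0, 0 < lam →
      ∫⁻ x in {x | (lam : ℝ≥0∞) < G x}, G x ^ q ∂μ
        ≤ C * ((lam : ℝ≥0∞) ^ (q - q1) * ∫⁻ x in {x | (a : ℝ≥0∞) * lam < G x}, G x ^ q1 ∂μ)
          + C * ∫⁻ x in {x | (a : ℝ≥0∞) * lam < H x}, H x ^ q ∂μ := by
  set d := Module.finrank ℝ F with hd
  set D : ℝ≥0 := 4 ^ d with hDdef
  set b : ℝ≥0 := 4 * D * max K 1 with hb
  set a : ℝ≥0 := (2 * b)⁻¹ with ha
  set E : ℝ≥0 := (21 / 4) ^ d with hE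
  have hD1 : 1 ≤ D := one_le_pow₀ (by norm_num)
  have hb4 : (4 : ℝ≥0) ≤ b := by
    rw [hb]
    calc (4 : ℝ≥0) = 4 * 1 * 1 := by norm_num
      _ ≤ 4 * D * max K 1 := by gcongr; exact le_max_right _ _
  have hb0 : 0 < b := lt_of_lt_of_le (by norm_num) hb4
  have ha0 : 0 < a := by rw [ha]; positivity
  have ha1 : a ≤ 1 := by
    rw [ha]
    apply inv_le_one_of_one_le₀
    calc (1 : ℝ≥0) ≤ 2 * 4 := by norm_num
      _ ≤ 2 * b := by gcongr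
  refine ⟨E * (2 * b), a, ha0, ha1, ?_⟩
  intro q q1 hq1 hq _ G H hG hH hI hRH lam hlam
  have hq0 : 0 < q := by linarith
  have hq10 : 0 < q1 := by linarith
  have hl0 : (lam : ℝ≥0∞) ≠ 0 := by simpa using hlam.ne'
  have hl1 : (lam : ℝ≥0∞) ≠ ∞ := ENNReal.coe_ne_top
  set L : ℝ≥0∞ := (lam : ℝ≥0∞) ^ q with hLdef
  have hL0 : 0 < L := by
    rw [pos_iff_ne_zero, hLdef, Ne, ENNReal.rpow_eq_zero_iff]; push Not
    exact ⟨fun h => absurd h hl0, fun h => absurd h hl1⟩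
  have hL1 : L ≠ ∞ := ENNReal.rpow_ne_top_of_nonneg hq0.le hl1
  have hGq : Measurable fun x => G x ^ q := hG.pow_const q
  obtain ⟨R, hR⟩ := g3_radius μ (fun x => G x ^ q) hGq hI L hL0 hL1
  set S : Set F := {x | L < G x ^ q ∧ ∃ r : ℝ, 0 < r ∧ r ≤ R ∧
      L * μ (ball x r) ≤ ∫⁻ y in ball x r, G y ^ q ∂μ ∧
      ∀ ρ, 2 * r ≤ ρ → ∫⁻ y in ball x ρ, G y ^ q ∂μ < L * μ (ball x ρ)} with hS
  have hch : ∀ x : F, ∃ r : ℝ, x ∈ S → 0 < r ∧ r ≤ R ∧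
      L * μ (ball x r) ≤ ∫⁻ y in ball x r, G y ^ q ∂μ ∧
      ∀ ρ, 2 * r ≤ ρ → ∫⁻ y in ball x ρ, G y ^ q ∂μ < L * μ (ball x ρ) := by
    intro x
    by_cases hx : x ∈ S
    · obtain ⟨r, hr⟩ := hx.2
      exact ⟨r, fun _ => hr⟩
    · exact ⟨0, fun h => absurd h hx⟩
  choose r hr using hch
  obtain ⟨u, huS, hudisj, hucov⟩ :=
    Vitali.exists_disjoint_subfamily_covering_enlargement_closedBall S (fun x : F => x)
      (fun x => 4 * r x) (4 * R) (fun x hx => by have := (hr x hx).2.1; linarith) 5 (by norm_num)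
  have hucount : u.Countable := by
    refine Set.PairwiseDisjoint.countable_of_nonempty_interior hudisj fun x hx => ?_
    refine ⟨x, ?_⟩
    have h1 : x ∈ ball x (4 * r x) := mem_ball_self (by have := (hr x (huS hx)).1; linarith)
    exact ball_subset_interior_closedBall h1
  have : Countable u := hucount.to_subtype
  -- covering
  have hcov : ({x | (lam : ℝ≥0∞) < G x} : Set F) ≤ᵐ[μ] ⋃ k : u, ball (k : F) (21 * r k) := by
    filter_upwards [hR] with x hx hxl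
    have hLx : L < G x ^ q := ENNReal.rpow_lt_rpow hxl hq0
    have hxS : x ∈ S := ⟨hLx, hx hLx⟩
    obtain ⟨k, hk, hsub⟩ := hucov x hxS
    have hk0 := (hr k (huS hk)).1
    have hx0 := (hr x hxS).1
    have hxm : x ∈ closedBall k (5 * (4 * r k)) := hsub (mem_closedBall_self (by linarith))
    refine mem_iUnion.2 ⟨⟨k, hk⟩, ?_⟩
    rw [mem_closedBall] at hxm
    rw [mem_ball]
    change dist x k < 21 * r k
    linarith
  have hstep1 : ∫⁻ x in {x | (lam : ℝ≥0∞) < G x}, G x ^ q ∂μ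
      ≤ ∑' k : u, E * (L * μ (ball (k : F) (4 * r k))) := by
    calc ∫⁻ x in {x | (lam : ℝ≥0∞) < G x}, G x ^ q ∂μ
        ≤ ∫⁻ x in ⋃ k : u, ball (k : F) (21 * r k), G x ^ q ∂μ := lintegral_mono_set' hcov
      _ ≤ ∑' k : u, ∫⁻ x in ball (k : F) (21 * r k), G x ^ q ∂μ := lintegral_iUnion_le _ _
      _ ≤ ∑' k : u, E * (L * μ (ball (k : F) (4 * r k))) := by
          refine ENNReal.tsum_le_tsum fun k => ?_
          have hk := hr k (huS k.2)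
          refine (hk.2.2.2 (21 * r k) (by linarith [hk.1])).le.trans ?_
          have h1 : μ (ball (k : F) (21 * r k))
              = ENNReal.ofReal ((21 / 4) ^ d) * μ (ball (k : F) (4 * r k)) := by
            rw [← g3_ball_scale μ (k : F) (show (0 : ℝ) < 21 / 4 by norm_num)]
            congr 2 <;> ring
          have h2 : ENNReal.ofReal ((21 / 4) ^ d) = (E : ℝ≥0∞) := by
            rw [hE, ← ENNReal.ofReal_coe_nnreal]
            congr 1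
          rw [h1, h2]
          exact le_of_eq (by ring)
  set T1 : Set F := {x | (a : ℝ≥0∞) * lam < G x} with hT1
  set T2 : Set F := {x | (a : ℝ≥0∞) * lam < H x} with hT2
  have hT1m : MeasurableSet T1 := measurableSet_lt measurable_const hG
  have hT2m : MeasurableSet T2 := measurableSet_lt measurable_const hH
  have hstep2 : ∀ k : u, L * μ (ball (k : F) (4 * r k)) ≤ 2 * b *
      ((lam : ℝ≥0∞) ^ (q - q1) * ∫⁻ y in ball (k : F) (4 * r k) ∩ T1, G y ^ q1 ∂μ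
        + ∫⁻ y in ball (k : F) (4 * r k) ∩ T2, H y ^ q ∂μ) := by
    intro k
    have hk := hr k (huS k.2)
    have hB : μ (ball (k : F) (4 * r k)) = (D : ℝ≥0∞) * μ (ball (k : F) (r k)) := by
      rw [g3_ball_scale μ (k : F) (show (0 : ℝ) < 4 by norm_num), hDdef, ← ENNReal.ofReal_coe_nnreal]
      congr 2
    refine g3_one μ K D hD1 q q1 hq1 hq G H (ball (k : F) (4 * r k)) (μ (ball (k : F) (r k)))
      (measure_ball_pos μ _ hk.1).ne' measure_ball_lt_top.ne hB lam hlam b hb a ha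
      (hk.2.2.1.trans (hRH k (r k) hk.1)) _ _ (g3_split μ G hG _ q1 hq10 _)
      (g3_split μ H hH _ q hq0 _)
  have hdis : Pairwise (Function.onFun Disjoint fun k : u => ball (k : F) (4 * r k)) := by
    intro k l hkl
    have := hudisj k.2 l.2 (fun h => hkl (Subtype.ext h))
    exact Disjoint.mono ball_subset_closedBall ball_subset_closedBall this
  calc ∫⁻ x in {x | (lam : ℝ≥0∞) < G x}, G x ^ q ∂μ
      ≤ ∑' k : u, E * (L * μ (ball (k : F) (4 * r k))) := hstep1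
    _ ≤ ∑' k : u, E * (2 * b *
      ((lam : ℝ≥0∞) ^ (q - q1) * ∫⁻ y in ball (k : F) (4 * r k) ∩ T1, G y ^ q1 ∂μ
        + ∫⁻ y in ball (k : F) (4 * r k) ∩ T2, H y ^ q ∂μ)) := by
        refine ENNReal.tsum_le_tsum fun k => ?_
        exact mul_le_mul' le_rfl (hstep2 k)
    _ = (E * (2 * b)) * ((lam : ℝ≥0∞) ^ (q - q1) *
          (∑' k : u, ∫⁻ y in ball (k : F) (4 * r k) ∩ T1, G y ^ q1 ∂μ)
        + ∑' k : u, ∫⁻ y in ball (k : F) (4 * r k) ∩ T2, H y ^ q ∂μ) := by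
        rw [← ENNReal.tsum_mul_left, ← ENNReal.tsum_add, ← ENNReal.tsum_mul_left]
        refine tsum_congr fun k => ?_
        ring
    _ ≤ (E * (2 * b)) * ((lam : ℝ≥0∞) ^ (q - q1) * (∫⁻ y in T1, G y ^ q1 ∂μ)
        + ∫⁻ y in T2, H y ^ q ∂μ) := by
        gcongr
        · exact g3_sum μ _ _ (fun k => measurableSet_ball) hdis T1 hT1m
        · exact g3_sum μ _ _ (fun k => measurableSet_ball) hdis T2 hT2m
    _ = _ := by push_cast; ring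

end Pool.Agent.Lib.QR
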