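import Pool.Agent.Lib.MP_ba1c0b_an.G3

/-!
G4: Gehring's lemma, second part: integration of the level set inequality.
-/

set_option autoImplicit false

open MeasureTheory Filter Topology Metric Set
open scoped ENNReal NNReal

namespace Pool.Agent.Lib.QR

/-- Layer cake for the truncated function `min (F x) N`. -/
private lemma g4_layer {X : Type} [MeasurableSpace X] (ν : Measure X) (F : X → ℝ≥0∞)
    (hF : Measurable F) (N : ℝ≥0) (p : ℝ) (hp : 0 < p) :
    ∫⁻ x, (min (F x) (N : ℝ≥0∞)) ^ p ∂ν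
      = ENNReal.ofReal p * ∫⁻ t in Ioo (0 : ℝ) (N : ℝ),
          ν {x | ENNReal.ofReal t < F x} * ENNReal.ofReal (t ^ (p - 1)) := by
  have hfin : ∀ x, min (F x) (N : ℝ≥0∞) ≠ ∞ := fun x =>
    ne_top_of_le_ne_top ENNReal.coe_ne_top (min_le_right _ _)
  have hmeas : Measurable fun x => (min (F x) (N : ℝ≥0∞)).toReal :=
    (hF.min measurable_const).ennreal_toReal
  have h1 := lintegral_rpow_eq_lintegral_meas_lt_mul ν
    (f := fun x => (min (F x) (N : ℝ≥0∞)).toReal)
    (Filter.Eventually.of_forall fun x => ENNReal.toReal_nonneg) hmeas.aemeasurable hp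
  have h2 : ∀ x, ENNReal.ofReal ((min (F x) (N : ℝ≥0∞)).toReal ^ p)
      = (min (F x) (N : ℝ≥0∞)) ^ p := by
    intro x
    rw [← ENNReal.ofReal_rpow_of_nonneg ENNReal.toReal_nonneg hp.le, ENNReal.ofReal_toReal (hfin x)]
  simp only [h2] at h1
  rw [h1]
  congr 1
  rw [← lintegral_indicator measurableSet_Ioi, ← lintegral_indicator measurableSet_Ioo]
  congr 1
  funext t
  by_cases ht0 : 0 < t
  · by_cases htN : t < (N : ℝ)
    · rw [indicator_of_mem (show t ∈ Ioi (0 : ℝ) from ht0),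
        indicator_of_mem (show t ∈ Ioo (0 : ℝ) (N : ℝ) from ⟨ht0, htN⟩)]
      congr 2
      ext x
      simp only [Set.mem_ofPred_eq]
      rw [← ENNReal.ofReal_lt_iff_lt_toReal ht0.le (hfin x), lt_min_iff]
      have : ENNReal.ofReal t < (N : ℝ≥0∞) := by
        rw [ENNReal.ofReal_lt_iff_lt_toReal ht0.le ENNReal.coe_ne_top]
        simpa using htN
      tauto
    · rw [indicator_of_mem (show t ∈ Ioi (0 : ℝ) from ht0),
        indicator_of_notMem (show t ∉ Ioo (0 : ℝ) (N : ℝ) from fun h => htN h.2)]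
      have : {x | t < (min (F x) (N : ℝ≥0∞)).toReal} = ∅ := by
        ext x
        simp only [Set.mem_ofPred_eq, mem_empty_iff_false, iff_false, not_lt]
        have h3 : (min (F x) (N : ℝ≥0∞)).toReal ≤ ((N : ℝ≥0∞)).toReal :=
          ENNReal.toReal_mono ENNReal.coe_ne_top (min_le_right _ _)
        have h4 : ((N : ℝ≥0∞)).toReal = (N : ℝ) := by simp
        linarith [not_lt.1 htN]
      rw [this]
      simp
  · rw [indicator_of_notMem (show t ∉ Ioi (0 : ℝ) from ht0),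
      indicator_of_notMem (show t ∉ Ioo (0 : ℝ) (N : ℝ) from fun h => ht0 h.1)]

private lemma g4_half {I R : ℝ≥0∞} (hI : I ≠ ∞) (h : I ≤ 2⁻¹ * I + R) : I ≤ 2 * R := by
  have h1 : I = 2⁻¹ * I + 2⁻¹ * I := by
    rw [← add_mul, ENNReal.inv_two_add_inv_two, one_mul]
  have h2 : 2⁻¹ * I + 2⁻¹ * I ≤ 2⁻¹ * I + R := by rw [← h1]; exact h
  have h3 : 2⁻¹ * I ≤ R :=
    (ENNReal.add_le_add_iff_left (ENNReal.mul_ne_top (by simp) hI)).1 h2
  calc I = 2 * (2⁻¹ * I) := by
        rw [← mul_assoc, ENNReal.mul_inv_cancel (by norm_num) (by norm_num), one_mul]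
    _ ≤ 2 * R := by gcongr

/-- Abstract integration step (any measure). PROOF: multiply by `τ lam^(τ-1)` and integrate over `0 < lam < N`
(Tonelli): left `∫ G^q min(G,N)^τ`; first term on the right at most
`C a^(-(q-q1+τ)) (τ/(q-q1+τ)) ∫ G^q1 G^(q-q1) min(G,N)^τ`, second `C a^(-τ) ∫ H^(q+τ)`.  For `τ ≤ τ0` small the first
is absorbed (`∫ G^q min(G,N)^τ ≤ N^τ ∫ G^q < ∞`), then `N → ∞` (monotone convergence). -/
theorem gehring_int (C a : ℝ≥0) (ha : 0 < a) (ha1 : a ≤ 1) (κ Q : ℝ) (hκ : 0 < κ) :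
    ∃ (τ0 : ℝ) (C' : ℝ≥0), 0 < τ0 ∧ τ0 ≤ 1 ∧
      ∀ {X : Type} [MeasurableSpace X] (μ : Measure X) [SigmaFinite μ] (q q1 : ℝ), 1 ≤ q1 →
      q1 + κ ≤ q → q ≤ Q →
      ∀ G H : X → ℝ≥0∞, Measurable G → Measurable H → ∫⁻ x, G x ^ q ∂μ < ∞ →
      (∀ lam : ℝ≥0, 0 < lam →
        ∫⁻ x in {x | (lam : ℝ≥0∞) < G x}, G x ^ q ∂μ
          ≤ C * ((lam : ℝ≥0∞) ^ (q - q1) * ∫⁻ x in {x | (a : ℝ≥0∞) * lam < G x}, G x ^ q1 ∂μ)
            + C * ∫⁻ x in {x | (a : ℝ≥0∞) * lam < H x}, H x ^ q ∂μ) →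
      ∀ τ : ℝ, 0 < τ → τ ≤ τ0 → ∫⁻ x, G x ^ (q + τ) ∂μ ≤ C' * ∫⁻ x, H x ^ (q + τ) ∂μ := by
  set B : ℝ≥0 := C * (a⁻¹) ^ Q with hB
  have hBpos : (0 : ℝ) < 2 * (B : ℝ) + 1 := by positivity
  refine ⟨min 1 (κ / (2 * (B : ℝ) + 1)), 2 * (C * a⁻¹), lt_min one_pos (by positivity),
    min_le_left _ _, ?_⟩
  intro X _ μ _ q q1 hq1 hqκ hqQ G H hG hH hGfin hlev τ hτ hτ0
  have hτ1 : τ ≤ 1 := hτ0.trans (min_le_left _ _)
  have hτ2 : τ ≤ κ / (2 * (B : ℝ) + 1) := hτ0.trans (min_le_right _ _)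
  set A : ℝ≥0∞ := ((a⁻¹ : ℝ≥0) : ℝ≥0∞) with hA
  have hA1 : 1 ≤ A := by
    rw [hA]
    have : (1 : ℝ≥0) ≤ a⁻¹ := (one_le_inv₀ ha).2 ha1
    exact_mod_cast this
  have haA : (a : ℝ≥0∞) * A = 1 := by
    rw [hA, ← ENNReal.coe_mul, mul_inv_cancel₀ ha.ne']
    simp
  have hAtop : A ≠ ∞ := ENNReal.coe_ne_top
  have ha0 : (a : ℝ≥0∞) ≠ 0 := by exact_mod_cast ha.ne'
  -- comparison of level sets
  have hlt : ∀ (t : ℝ≥0∞) (y : ℝ≥0∞), (a : ℝ≥0∞) * t < y → t < y * A := by
    intro t y h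
    have h1 : (a : ℝ≥0∞) * t * A < y * A :=
      ENNReal.mul_lt_mul_left (by positivity) hAtop h
    have h2 : (a : ℝ≥0∞) * t * A = t := by
      rw [mul_right_comm, haA, one_mul]
    rwa [h2] at h1
  set p : ℝ := q - q1 + τ with hp
  have hqq : κ ≤ q - q1 := by linarith
  have hqq0 : 0 ≤ q - q1 := by linarith
  have hp0 : 0 < p := by linarith
  have hpκ : κ ≤ p := by linarith
  have hpQ : p ≤ Q := by linarith
  have hQ0 : 0 ≤ Q := by linarith
  have hq0 : 0 ≤ q := by linarith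
  have hq10 : 0 ≤ q1 := by linarith
  have hGA : Measurable fun x => G x * A := hG.mul_const A
  have hHA : Measurable fun x => H x * A := hH.mul_const A
  have hGq : Measurable fun x => G x ^ q := hG.pow_const q
  have hGq1 : Measurable fun x => G x ^ q1 := hG.pow_const q1
  have hHq : Measurable fun x => H x ^ q := hH.pow_const q
  set ν0 := μ.withDensity (fun x => G x ^ q) with hν0
  set ν1 := μ.withDensity (fun x => G x ^ q1) with hν1
  set ν2 := μ.withDensity (fun x => H x ^ q) with hν2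
  set J := ∫⁻ x, H x ^ (q + τ) ∂μ with hJ
  have hkey : ∀ N : ℝ≥0, ∫⁻ x, G x ^ q * (min (G x) (N : ℝ≥0∞)) ^ τ ∂μ ≤ 2 * (C * (A * J)) := by
    intro N
    have hmin : ∀ (F : X → ℝ≥0∞) (r : ℝ), Measurable F →
        Measurable fun x => (min (F x) (N : ℝ≥0∞)) ^ r := fun F r hF =>
      (hF.min measurable_const).pow_const r
    set I := ∫⁻ x, G x ^ q * (min (G x) (N : ℝ≥0∞)) ^ τ ∂μ with hI
    have hIfin : I ≠ ∞ := by
      have h1 : I ≤ ∫⁻ x, G x ^ q * (N : ℝ≥0∞) ^ τ ∂μ := by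
        refine lintegral_mono fun x => ?_
        gcongr
        exact min_le_right _ _
      rw [lintegral_mul_const _ hGq] at h1
      exact ne_top_of_le_ne_top (ENNReal.mul_ne_top hGfin.ne
        (ENNReal.rpow_ne_top_of_nonneg hτ.le ENNReal.coe_ne_top)) h1
    have h0 : I = ∫⁻ x, (min (G x) (N : ℝ≥0∞)) ^ τ ∂ν0 := by
      rw [hν0, lintegral_withDensity_eq_lintegral_mul _ hGq (hmin G τ hG)]
      rfl
    have h1 : ∫⁻ x, (min (G x * A) (N : ℝ≥0∞)) ^ p ∂ν1 ≤ A ^ Q * I := by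
      rw [hν1, lintegral_withDensity_eq_lintegral_mul _ hGq1 (hmin _ p hGA), hI,
        ← lintegral_const_mul _ (show Measurable fun x => G x ^ q * (min (G x) (N : ℝ≥0∞)) ^ τ from
          hGq.mul (hmin G τ hG))]
      refine lintegral_mono fun x => ?_
      simp only [Pi.mul_apply]
      have e1 : min (G x * A) (N : ℝ≥0∞) ≤ min (G x) (N : ℝ≥0∞) * A := by
        rw [min_mul_of_nonneg]
        · refine min_le_min le_rfl ?_
          calc (N : ℝ≥0∞) = N * 1 := (mul_one _).symm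
            _ ≤ N * A := by gcongr
        · exact zero_le
      calc G x ^ q1 * (min (G x * A) (N : ℝ≥0∞)) ^ p
          = G x ^ q1 * ((min (G x * A) (N : ℝ≥0∞)) ^ (q - q1)
              * (min (G x * A) (N : ℝ≥0∞)) ^ τ) := by
            rw [hp, ENNReal.rpow_add_of_nonneg _ _ hqq0 hτ.le]
        _ ≤ G x ^ q1 * ((G x * A) ^ (q - q1) * (min (G x) (N : ℝ≥0∞) * A) ^ τ) := by
            gcongr
            exact min_le_left _ _
        _ = (A ^ (q - q1) * A ^ τ) * ((G x ^ q1 * G x ^ (q - q1)) * (min (G x) (N : ℝ≥0∞)) ^ τ) := by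
            rw [ENNReal.mul_rpow_of_nonneg _ _ hqq0, ENNReal.mul_rpow_of_nonneg _ _ hτ.le]
            ring
        _ = A ^ p * (G x ^ q * (min (G x) (N : ℝ≥0∞)) ^ τ) := by
            rw [← ENNReal.rpow_add_of_nonneg _ _ hqq0 hτ.le,
              ← ENNReal.rpow_add_of_nonneg _ _ hq10 hqq0]
            congr 3
            ring_nf
        _ ≤ A ^ Q * (G x ^ q * (min (G x) (N : ℝ≥0∞)) ^ τ) := by
            gcongr
    have h2 : ∫⁻ x, (min (H x * A) (N : ℝ≥0∞)) ^ τ ∂ν2 ≤ A * J := by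
      rw [hν2, lintegral_withDensity_eq_lintegral_mul _ hHq (hmin _ τ hHA), hJ,
        ← lintegral_const_mul _ (hH.pow_const _)]
      refine lintegral_mono fun x => ?_
      simp only [Pi.mul_apply]
      calc H x ^ q * (min (H x * A) (N : ℝ≥0∞)) ^ τ
          ≤ H x ^ q * (H x * A) ^ τ := by
            gcongr
            exact min_le_left _ _
        _ = A ^ τ * (H x ^ q * H x ^ τ) := by
            rw [ENNReal.mul_rpow_of_nonneg _ _ hτ.le]
            ring
        _ = A ^ τ * H x ^ (q + τ) := by rw [← ENNReal.rpow_add_of_nonneg _ _ hq0 hτ.le]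
        _ ≤ A * H x ^ (q + τ) := by
            gcongr
            calc A ^ τ ≤ A ^ (1 : ℝ) := ENNReal.rpow_le_rpow_of_exponent_le hA1 hτ1
              _ = A := ENNReal.rpow_one A
    set J1 := ∫⁻ t in Ioo (0 : ℝ) (N : ℝ),
      ν1 {x | ENNReal.ofReal t < G x * A} * ENNReal.ofReal (t ^ (p - 1)) with hJ1
    set J2 := ∫⁻ t in Ioo (0 : ℝ) (N : ℝ),
      ν2 {x | ENNReal.ofReal t < H x * A} * ENNReal.ofReal (t ^ (τ - 1)) with hJ2
    have h3 : ENNReal.ofReal p * J1 ≤ A ^ Q * I := by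
      rw [hJ1, ← g4_layer ν1 _ hGA N p hp0]; exact h1
    have h4 : ENNReal.ofReal τ * J2 ≤ A * J := by
      rw [hJ2, ← g4_layer ν2 _ hHA N τ hτ]; exact h2
    have h5 : I ≤ ENNReal.ofReal τ * (C * J1 + C * J2) := by
      rw [h0, g4_layer ν0 G hG N τ hτ]
      gcongr
      have hm : Measurable fun t : ℝ =>
          (C : ℝ≥0∞) * (ν1 {x | ENNReal.ofReal t < G x * A} * ENNReal.ofReal (t ^ (p - 1))) := by
        refine Measurable.const_mul (Measurable.mul ?_ ?_) _
        · refine Antitone.measurable fun s t hst => measure_mono fun x hx => ?_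
          exact lt_of_le_of_lt (ENNReal.ofReal_le_ofReal hst) hx
        · exact (measurable_id.pow_const _).ennreal_ofReal
      have hm2 : Measurable fun t : ℝ =>
          (ν2 {x | ENNReal.ofReal t < H x * A} * ENNReal.ofReal (t ^ (τ - 1))) := by
        refine Measurable.mul ?_ ?_
        · refine Antitone.measurable fun s t hst => measure_mono fun x hx => ?_
          exact lt_of_le_of_lt (ENNReal.ofReal_le_ofReal hst) hx
        · exact (measurable_id.pow_const _).ennreal_ofReal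
      have hm1 : Measurable fun t : ℝ =>
          (ν1 {x | ENNReal.ofReal t < G x * A} * ENNReal.ofReal (t ^ (p - 1))) := by
        refine Measurable.mul ?_ ?_
        · refine Antitone.measurable fun s t hst => measure_mono fun x hx => ?_
          exact lt_of_le_of_lt (ENNReal.ofReal_le_ofReal hst) hx
        · exact (measurable_id.pow_const _).ennreal_ofReal
      rw [hJ1, hJ2, ← lintegral_const_mul _ hm1, ← lintegral_const_mul _ hm2,
        ← lintegral_add_left hm]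
      refine setLIntegral_mono' measurableSet_Ioo fun t ht => ?_
      have ht0 : 0 < t := ht.1
      have hl := hlev t.toNNReal (Real.toNNReal_pos.2 ht0)
      have e0 : ((t.toNNReal : ℝ≥0) : ℝ≥0∞) = ENNReal.ofReal t := rfl
      rw [e0] at hl
      have e1 : ν0 {x | ENNReal.ofReal t < G x} = ∫⁻ x in {x | ENNReal.ofReal t < G x}, G x ^ q ∂μ :=
        withDensity_apply _ (measurableSet_lt measurable_const hG)
      have e2 : ∫⁻ x in {x | (a : ℝ≥0∞) * ENNReal.ofReal t < G x}, G x ^ q1 ∂μ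
          ≤ ν1 {x | ENNReal.ofReal t < G x * A} := by
        rw [hν1, withDensity_apply _ (measurableSet_lt measurable_const hGA)]
        exact lintegral_mono_set fun x hx => hlt _ _ hx
      have e3 : ∫⁻ x in {x | (a : ℝ≥0∞) * ENNReal.ofReal t < H x}, H x ^ q ∂μ
          ≤ ν2 {x | ENNReal.ofReal t < H x * A} := by
        rw [hν2, withDensity_apply _ (measurableSet_lt measurable_const hHA)]
        exact lintegral_mono_set fun x hx => hlt _ _ hx
      have e4 : ENNReal.ofReal t ^ (q - q1) * ENNReal.ofReal (t ^ (τ - 1))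
          = ENNReal.ofReal (t ^ (p - 1)) := by
        rw [ENNReal.ofReal_rpow_of_pos ht0, ← ENNReal.ofReal_mul (by positivity),
          ← Real.rpow_add ht0]
        congr 2
        rw [hp]
        ring
      calc ν0 {x | ENNReal.ofReal t < G x} * ENNReal.ofReal (t ^ (τ - 1))
          ≤ (C * (ENNReal.ofReal t ^ (q - q1) * ν1 {x | ENNReal.ofReal t < G x * A})
              + C * ν2 {x | ENNReal.ofReal t < H x * A}) * ENNReal.ofReal (t ^ (τ - 1)) := by
            rw [e1]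
            gcongr
            refine hl.trans ?_
            gcongr
        _ = C * (ν1 {x | ENNReal.ofReal t < G x * A}
              * (ENNReal.ofReal t ^ (q - q1) * ENNReal.ofReal (t ^ (τ - 1))))
              + C * (ν2 {x | ENNReal.ofReal t < H x * A} * ENNReal.ofReal (t ^ (τ - 1))) := by
            ring
        _ = _ := by rw [e4]
    have h6 : ENNReal.ofReal τ * J1 ≤ ENNReal.ofReal (τ / κ) * (A ^ Q * I) := by
      calc ENNReal.ofReal τ * J1 ≤ ENNReal.ofReal (τ / κ * p) * J1 := by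
            gcongr
            rw [div_mul_eq_mul_div, le_div_iff₀ hκ]
            exact mul_le_mul_of_nonneg_left hpκ hτ.le
        _ = ENNReal.ofReal (τ / κ) * (ENNReal.ofReal p * J1) := by
            rw [ENNReal.ofReal_mul (by positivity), mul_assoc]
        _ ≤ _ := by gcongr
    have h7 : (C : ℝ≥0∞) * (ENNReal.ofReal (τ / κ) * (A ^ Q * I)) ≤ 2⁻¹ * I := by
      have e1 : (C : ℝ≥0∞) * A ^ Q = (B : ℝ≥0∞) := by
        rw [hB, hA, ENNReal.coe_mul, ENNReal.coe_rpow_of_nonneg _ hQ0]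
      have e2 : (B : ℝ≥0∞) * ENNReal.ofReal (τ / κ) ≤ 2⁻¹ := by
        have e3 : (B : ℝ≥0∞) = ENNReal.ofReal (B : ℝ) := by simp
        rw [e3, ← ENNReal.ofReal_mul (by positivity)]
        have e4 : (2⁻¹ : ℝ≥0∞) = ENNReal.ofReal (1 / 2) := by
          rw [ENNReal.ofReal_div_of_pos (by norm_num)]
          simp
        rw [e4]
        apply ENNReal.ofReal_le_ofReal
        have e5 : τ / κ ≤ 1 / (2 * (B : ℝ) + 1) := by
          rw [div_le_div_iff₀ hκ hBpos]
          have := (le_div_iff₀ hBpos).1 hτ2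
          linarith
        calc (B : ℝ) * (τ / κ) ≤ (B : ℝ) * (1 / (2 * (B : ℝ) + 1)) := by gcongr
          _ ≤ 1 / 2 := by
            rw [mul_one_div, div_le_div_iff₀ hBpos (by norm_num)]
            have : (0 : ℝ) ≤ (B : ℝ) := B.2
            linarith
      calc (C : ℝ≥0∞) * (ENNReal.ofReal (τ / κ) * (A ^ Q * I))
          = ((C : ℝ≥0∞) * A ^ Q * ENNReal.ofReal (τ / κ)) * I := by ring
        _ ≤ 2⁻¹ * I := by rw [e1]; gcongr
    refine g4_half hIfin ?_
    calc I ≤ ENNReal.ofReal τ * (C * J1 + C * J2) := h5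
      _ = C * (ENNReal.ofReal τ * J1) + C * (ENNReal.ofReal τ * J2) := by ring
      _ ≤ C * (ENNReal.ofReal (τ / κ) * (A ^ Q * I)) + C * (A * J) := by gcongr
      _ ≤ 2⁻¹ * I + C * (A * J) := by gcongr
  -- monotone convergence
  have hle : ∀ x, G x ^ (q + τ) ≤ ⨆ n : ℕ, G x ^ q * (min (G x) ((n : ℝ≥0) : ℝ≥0∞)) ^ τ := by
    intro x
    by_cases hx : G x = ∞
    · refine le_trans le_top (le_iSup_of_le 1 ?_)
      rw [hx, ENNReal.top_rpow_of_pos (by linarith)]
      simp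
    · obtain ⟨n, hn⟩ := ENNReal.exists_nat_gt hx
      refine le_iSup_of_le n ?_
      rw [ENNReal.rpow_add_of_nonneg _ _ hq0 hτ.le, min_eq_left (by simpa using hn.le)]
  calc ∫⁻ x, G x ^ (q + τ) ∂μ
      ≤ ∫⁻ x, ⨆ n : ℕ, G x ^ q * (min (G x) ((n : ℝ≥0) : ℝ≥0∞)) ^ τ ∂μ := lintegral_mono hle
    _ = ⨆ n : ℕ, ∫⁻ x, G x ^ q * (min (G x) ((n : ℝ≥0) : ℝ≥0∞)) ^ τ ∂μ := by
        refine lintegral_iSup (fun n => hGq.mul ((hG.min measurable_const).pow_const τ)) ?_
        intro m n hmn x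
        dsimp only
        gcongr
    _ ≤ 2 * (C * (A * J)) := iSup_le fun n => hkey n
    _ = ((2 * (C * a⁻¹) : ℝ≥0) : ℝ≥0∞) * J := by
        rw [ENNReal.coe_mul, ENNReal.coe_mul, ← hA]
        simp only [ENNReal.coe_ofNat]
        ring

end Pool.Agent.Lib.QR
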