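import Pool.Agent.Lib.MP_ba1c0b_an.Defs

/-!
M2: Sobolev maps with compact support: products, change of the exponent.
-/

set_option autoImplicit false

open MeasureTheory Filter Topology
open scoped ENNReal NNReal

namespace Pool.Agent.Lib.QR

variable {n : ℕ}

private lemma m2_of_restrict {F : Type*} [NormedAddCommGroup F] {p : ℝ≥0∞} {K : Set (E n)}
    (hK : MeasurableSet K) {g : E n → F} (h0 : ∀ x, x ∉ K → g x = 0)
    (h : MemLp g p (volume.restrict K)) : MemLp g p volume := by
  rw [← memLp_indicator_iff_restrict hK] at h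
  have h1 : K.indicator g = g := by
    rw [Set.indicator_eq_self]
    intro x hx
    by_contra h'
    exact hx (h0 x h')
  rwa [h1] at h

private lemma m2_bdd {a : E n → ℝ} (ha : Continuous a) (hc : HasCompactSupport a) :
    ∃ M : ℝ, ∀ x, ‖a x‖ ≤ M := hc.exists_bound_of_continuous ha

private lemma m2_smul {F : Type*} [NormedAddCommGroup F] [NormedSpace ℝ F] {p : ℝ≥0∞}
    {K : Set (E n)} (hK : IsCompact K) {u : E n → F} (hu : MemLp u p (volume.restrict K))
    {a : E n → ℝ} (ha : Continuous a) (h0 : ∀ x, x ∉ K → a x = 0) :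
    MemLp (fun x => a x • u x) p volume := by
  have hc : HasCompactSupport a := HasCompactSupport.intro hK (fun x hx => h0 x hx)
  obtain ⟨M, hM⟩ := m2_bdd ha hc
  refine m2_of_restrict hK.measurableSet (fun x hx => by simp [h0 x hx]) ?_
  refine MemLp.of_le_mul (c := M) hu (ha.aestronglyMeasurable.smul hu.1) (Eventually.of_forall ?_)
  intro x
  rw [norm_smul]
  exact mul_le_mul_of_nonneg_right (hM x) (norm_nonneg _)

private lemma m2_fin {K : Set (E n)} (hK : IsCompact K) :
    IsFiniteMeasure ((volume : Measure (E n)).restrict K) :=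
  ⟨by rw [Measure.restrict_apply_univ]; exact hK.measure_lt_top⟩

private lemma m2_int {F : Type*} [NormedAddCommGroup F] [NormedSpace ℝ F] {q : ℝ} (hq : 1 ≤ q)
    {K : Set (E n)} (hK : IsCompact K) {u : E n → F}
    (hu : MemLp u (ENNReal.ofReal q) (volume.restrict K))
    {a : E n → ℝ} (ha : Continuous a) (h0 : ∀ x, x ∉ K → a x = 0) :
    Integrable (fun x => a x • u x) volume := by
  have := m2_fin hK
  have h1 : (1 : ℝ≥0∞) ≤ ENNReal.ofReal q := by
    rw [← ENNReal.ofReal_one]
    exact ENNReal.ofReal_le_ofReal hq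
  exact memLp_one_iff_integrable.1 (m2_smul hK (hu.mono_exponent h1) ha h0)

private lemma m2_zero {η : E n → ℝ} {x : E n} (hx : x ∉ tsupport η) :
    η x = 0 ∧ fderiv ℝ η x = 0 :=
  ⟨image_eq_zero_of_notMem_tsupport hx,
    image_eq_zero_of_notMem_tsupport (fun h => hx (tsupport_fderiv_subset ℝ h))⟩

/-- Product of a compactly supported smooth function with a locally Sobolev map.
`Ω = univ` is allowed. The gradient part `y ↦ (fderiv η x y) • (f x - c)`. -/
theorem sobC_mul {q : ℝ} (hq : 1 ≤ q) (Ω : Set (E n)) (hΩ : IsOpen Ω) (f : E n → E n)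
    (Df : E n → E n →L[ℝ] E n)
    (hf : ∀ C : Set (E n), IsCompact C → C ⊆ Ω →
      MemLp f (ENNReal.ofReal q) (volume.restrict C) ∧ MemLp Df (ENNReal.ofReal q) (volume.restrict C))
    (hw : ∀ φ : E n → ℝ, ContDiff ℝ ((⊤ : ℕ∞) : WithTop ℕ∞) φ → HasCompactSupport φ →
      tsupport φ ⊆ Ω → ∀ v : E n, ∫ x, (fderiv ℝ φ x v) • f x = -∫ x, φ x • Df x v)
    (c : E n) (η : E n → ℝ) (hη : ContDiff ℝ ((⊤ : ℕ∞) : WithTop ℕ∞) η)
    (hηc : HasCompactSupport η) (hηs : tsupport η ⊆ Ω) :
    SobC q (fun x => η x • (f x - c))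
      (fun x => η x • Df x + (fderiv ℝ η x).smulRight (f x - c)) := by
  have hK : IsCompact (tsupport η) := hηc
  obtain ⟨hfK, hDK⟩ := hf _ hK hηs
  have := m2_fin hK
  have hfc : MemLp (fun x => f x - c) (ENNReal.ofReal q) (volume.restrict (tsupport η)) :=
    hfK.sub (memLp_const c)
  have h1top : (1 : WithTop ℕ∞) ≤ ((⊤ : ℕ∞) : WithTop ℕ∞) := by
    exact_mod_cast le_top
  have hne : ((⊤ : ℕ∞) : WithTop ℕ∞) ≠ 0 := by
    intro h
    rw [h] at h1top
    exact absurd h1top (by norm_num)
  have hηcont : Continuous η := hη.continuous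
  have hηd : Continuous (fderiv ℝ η) := hη.continuous_fderiv hne
  have hz : ∀ x, x ∉ tsupport η → η x = 0 := fun x hx => (m2_zero hx).1
  refine ⟨m2_smul hK hfc hηcont hz, ?_, ?_, ?_⟩
  · refine (m2_smul hK hDK hηcont hz).add ?_
    refine m2_of_restrict hK.measurableSet (fun x hx => by rw [(m2_zero hx).2]; ext; simp) ?_
    obtain ⟨M, hM⟩ : ∃ M : ℝ, ∀ x, ‖fderiv ℝ η x‖ ≤ M :=
      (hηc.fderiv ℝ).exists_bound_of_continuous hηd
    refine MemLp.of_le_mul (c := M) hfc ?_ (Eventually.of_forall ?_)
    · exact (ContinuousLinearMap.smulRightL ℝ (E n) (E n)).aestronglyMeasurable_comp₂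
        hηd.aestronglyMeasurable hfc.1
    · intro x
      rw [ContinuousLinearMap.norm_smulRight_apply]
      exact mul_le_mul_of_nonneg_right (hM x) (norm_nonneg _)
  · obtain ⟨R, hR⟩ := hK.isBounded.subset_closedBall 0
    refine ⟨R, fun x hx => ?_⟩
    have hx' : x ∉ tsupport η := by
      intro h
      have := hR h
      rw [mem_closedBall_zero_iff] at this
      exact absurd this (not_le.2 hx)
    obtain ⟨e1, e2⟩ := m2_zero hx'
    refine ⟨by simp [e1], ?_⟩
    rw [e1, e2]
    ext
    simp
  · intro φ hφ hφc v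
    have hφcont : Continuous φ := hφ.continuous
    have hφd : Continuous (fderiv ℝ φ) := hφ.continuous_fderiv hne
    have hφv : Continuous (fun x => fderiv ℝ φ x v) := hφd.clm_apply continuous_const
    have hηv : Continuous (fun x => fderiv ℝ η x v) := hηd.clm_apply continuous_const
    set A : E n → ℝ := fun x => fderiv ℝ φ x v * η x with hA
    set B : E n → ℝ := fun x => φ x * fderiv ℝ η x v with hB
    set ψ : E n → ℝ := fun x => φ x * η x with hψ
    have hAc : Continuous A := hφv.mul hηcont
    have hBc : Continuous B := hφcont.mul hηv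
    have hψc : Continuous ψ := hφcont.mul hηcont
    have hA0 : ∀ x, x ∉ tsupport η → A x = 0 := fun x hx => by simp [hA, (m2_zero hx).1]
    have hB0 : ∀ x, x ∉ tsupport η → B x = 0 := fun x hx => by simp [hB, (m2_zero hx).2]
    have hψ0 : ∀ x, x ∉ tsupport η → ψ x = 0 := fun x hx => by simp [hψ, (m2_zero hx).1]
    have hψs : ContDiff ℝ ((⊤ : ℕ∞) : WithTop ℕ∞) ψ := hφ.mul hη
    have hψcs : HasCompactSupport ψ := HasCompactSupport.intro hK hψ0
    have hψt : tsupport ψ ⊆ Ω :=
      (closure_minimal (fun x hx => by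
        by_contra h
        exact hx (hψ0 x h)) (isClosed_tsupport η)).trans hηs
    have hψd : ∀ x, fderiv ℝ ψ x v = B x + A x := by
      intro x
      have d1 : DifferentiableAt ℝ φ x := hφ.differentiable hne x
      have d2 : DifferentiableAt ℝ η x := hη.differentiable hne x
      have := fderiv_fun_mul d1 d2
      rw [hψ, this]
      simp only [add_apply, smul_apply, smul_eq_mul, hA, hB]
      ring
    have hDv : MemLp (fun x => Df x v) (ENNReal.ofReal q) (volume.restrict (tsupport η)) := by
      refine MemLp.of_le_mul (c := ‖v‖) hDK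
        ((ContinuousLinearMap.apply ℝ (E n) v).continuous.comp_aestronglyMeasurable hDK.1)
        (Eventually.of_forall fun x => ?_)
      rw [mul_comm]
      exact (Df x).le_opNorm v
    have iAf := m2_int hq hK hfc hAc hA0
    have iBf := m2_int hq hK hfc hBc hB0
    have iψ := m2_int hq hK hDv hψc hψ0
    have hcc : MemLp (fun _ : E n => c) (ENNReal.ofReal q) (volume.restrict (tsupport η)) :=
      memLp_const c
    have iAc := m2_int hq hK hcc hAc hA0
    have iBc := m2_int hq hK hcc hBc hB0
    have iψc := m2_int hq hK hcc hψc hψ0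
    have iAF := m2_int hq hK hfK hAc hA0
    have iBF := m2_int hq hK hfK hBc hB0
    -- the weak equation
    have e1 : ∫ x, (B x + A x) • f x = -∫ x, ψ x • Df x v := by
      rw [← hw ψ hψs hψcs hψt v]
      exact integral_congr_ae (Eventually.of_forall fun x => by simp only [hψd])
    have e2 : ∫ x, (B x + A x) • c = 0 := by
      have h := integral_bilinear_fderiv_right_eq_neg_left_of_integrable
        (μ := (volume : Measure (E n))) (f := ψ) (g := fun _ : E n => c) (v := v)
        (B := ContinuousLinearMap.lsmul ℝ ℝ)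
        (by
          simp only [ContinuousLinearMap.lsmul_apply, hψd, add_smul]
          exact iBc.add iAc)
        (by simp)
        (by simpa using iψc)
        (fun x _ => hψs.differentiable hne x)
        (fun x _ => differentiableAt_const c)
      simp only [ContinuousLinearMap.lsmul_apply, hψd, fderiv_fun_const, Pi.zero_apply,
        zero_apply, smul_zero, integral_zero] at h
      exact neg_eq_zero.1 h.symm
    have e3 : (∫ x, (B x + A x) • f x) - (∫ x, (B x + A x) • c)
        = (∫ x, A x • (f x - c)) + ∫ x, B x • (f x - c) := by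
      rw [← integral_add iAf iBf, ← integral_sub]
      · refine integral_congr_ae (Eventually.of_forall fun x => ?_)
        simp only [add_smul, smul_sub]
        abel
      · simp only [add_smul]
        exact iBF.add iAF
      · simp only [add_smul]
        exact iBc.add iAc
    have e4 : ∫ x, (fderiv ℝ φ x v) • (η x • (f x - c)) = ∫ x, A x • (f x - c) :=
      integral_congr_ae (Eventually.of_forall fun x => by simp only [hA, smul_smul])
    have e5 : ∫ x, φ x • ((η x • Df x + (fderiv ℝ η x).smulRight (f x - c)) v)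
        = (∫ x, ψ x • Df x v) + ∫ x, B x • (f x - c) := by
      rw [← integral_add iψ iBf]
      refine integral_congr_ae (Eventually.of_forall fun x => ?_)
      simp only [add_apply, smul_apply, ContinuousLinearMap.smulRight_apply, smul_add, smul_smul,
        hψ, hB]
    rw [e4, e5]
    rw [e1, e2, sub_zero] at e3
    rw [neg_add, e3]
    abel

theorem SobC.mono {q p : ℝ} (hq : 1 ≤ p) (hpq : p ≤ q) {g : E n → E n} {Dg : E n → E n →L[ℝ] E n}
    (h : SobC q g Dg) : SobC p g Dg := by
  obtain ⟨R, hR⟩ := h.supp
  have hK : IsCompact (Metric.closedBall (0 : E n) R) := isCompact_closedBall 0 R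
  have := m2_fin hK
  have hle : ENNReal.ofReal p ≤ ENNReal.ofReal q := ENNReal.ofReal_le_ofReal hpq
  have h0 : ∀ x, x ∉ Metric.closedBall (0 : E n) R → g x = 0 ∧ Dg x = 0 := by
    intro x hx
    rw [mem_closedBall_zero_iff, not_le] at hx
    exact hR x hx
  exact ⟨m2_of_restrict hK.measurableSet (fun x hx => (h0 x hx).1)
      ((h.mem.restrict _).mono_exponent hle),
    m2_of_restrict hK.measurableSet (fun x hx => (h0 x hx).2)
      ((h.memD.restrict _).mono_exponent hle), h.supp, h.weak⟩

theorem sobC_of_smooth {q : ℝ} (hq : 1 ≤ q) (g : E n → E n)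
    (hg : ContDiff ℝ ((⊤ : ℕ∞) : WithTop ℕ∞) g) (hc : HasCompactSupport g) :
    SobC q g (fderiv ℝ g) := by
  have h1top : (1 : WithTop ℕ∞) ≤ ((⊤ : ℕ∞) : WithTop ℕ∞) := by
    exact_mod_cast le_top
  have hne : ((⊤ : ℕ∞) : WithTop ℕ∞) ≠ 0 := by
    intro h
    rw [h] at h1top
    exact absurd h1top (by norm_num)
  have hd : Continuous (fderiv ℝ g) := hg.continuous_fderiv hne
  refine ⟨hg.continuous.memLp_of_hasCompactSupport hc,
    hd.memLp_of_hasCompactSupport (hc.fderiv ℝ), ?_, ?_⟩
  · obtain ⟨R, hR⟩ := hc.isCompact.isBounded.subset_closedBall 0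
    refine ⟨R, fun x hx => ?_⟩
    have hx' : x ∉ tsupport g := by
      intro h
      have := hR h
      rw [mem_closedBall_zero_iff] at this
      exact absurd this (not_le.2 hx)
    exact ⟨image_eq_zero_of_notMem_tsupport hx',
      image_eq_zero_of_notMem_tsupport (fun h => hx' (tsupport_fderiv_subset ℝ h))⟩
  · intro φ hφ hφc v
    have hφd : Continuous (fderiv ℝ φ) := hφ.continuous_fderiv hne
    have hφv : Continuous (fun x => fderiv ℝ φ x v) := hφd.clm_apply continuous_const
    have hgv : Continuous (fun x => fderiv ℝ g x v) := hd.clm_apply continuous_const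
    have h := integral_smul_fderiv_eq_neg_fderiv_smul_of_integrable
      (μ := (volume : Measure (E n))) (f := φ) (g := g) (v := v)
      ((hφv.smul hg.continuous).integrable_of_hasCompactSupport
        (HasCompactSupport.intro hc.isCompact fun x hx => by
          simp [image_eq_zero_of_notMem_tsupport hx]))
      ((hφ.continuous.smul hgv).integrable_of_hasCompactSupport
        (HasCompactSupport.intro hφc.isCompact fun x hx => by
          simp [image_eq_zero_of_notMem_tsupport hx]))
      ((hφ.continuous.smul hg.continuous).integrable_of_hasCompactSupport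
        (HasCompactSupport.intro hφc.isCompact fun x hx => by
          simp [image_eq_zero_of_notMem_tsupport hx]))
      (fun x _ => hφ.differentiable hne x) (fun x _ => hg.differentiable hne x)
    rw [h, neg_neg]

end Pool.Agent.Lib.QR
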