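import Pool.Agent.Lib.MP_ba1c0b_an.G2
import Pool.Agent.Lib.MP_ba1c0b_an.G3
import Pool.Agent.Lib.MP_ba1c0b_an.M2
import Pool.Agent.Lib.MP_ba1c0b_an.A4

/-!
G5: coercivity implies a reverse Hölder inequality.
-/

set_option autoImplicit false

open MeasureTheory Filter Topology Metric Set
open scoped ENNReal NNReal

namespace Pool.Agent.Lib.QR

variable {n : ℕ}

/-- A fixed cut-off function. -/
private lemma g5_bump (n : ℕ) : ∃ (η : E n → ℝ) (M : ℝ≥0),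
    ContDiff ℝ ((⊤ : ℕ∞) : WithTop ℕ∞) η ∧ (∀ y, 0 ≤ η y) ∧ (∀ y, η y ≤ 1) ∧
    (∀ y, ‖y‖ < 1 → η y = 1) ∧ (∀ y, 3 / 2 < ‖y‖ → η y = 0 ∧ fderiv ℝ η y = 0) ∧
    ∀ y, ‖fderiv ℝ η y‖ ≤ M := by
  let b : ContDiffBump (0 : E n) := ⟨1, 3 / 2, by norm_num, by norm_num⟩
  have h1top : (1 : WithTop ℕ∞) ≤ ((⊤ : ℕ∞) : WithTop ℕ∞) := by
    exact_mod_cast le_top
  have hne : ((⊤ : ℕ∞) : WithTop ℕ∞) ≠ 0 := by
    intro h
    rw [h] at h1top
    exact absurd h1top (by norm_num)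
  have hc : Continuous (fderiv ℝ (b : E n → ℝ)) := b.contDiff.continuous_fderiv hne
  obtain ⟨M, hM⟩ := hc.bounded_above_of_compact_support (b.hasCompactSupport.fderiv ℝ)
  refine ⟨b, M.toNNReal, b.contDiff, fun y => b.nonneg, fun y => b.le_one, ?_, ?_, ?_⟩
  · intro y hy
    refine b.one_of_mem_closedBall ?_
    rw [mem_closedBall_zero_iff]
    exact hy.le
  · intro y hy
    have h1 : y ∉ tsupport (b : E n → ℝ) := by
      rw [b.tsupport_eq, mem_closedBall_zero_iff, not_le]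
      exact hy
    exact ⟨image_eq_zero_of_notMem_tsupport h1,
      image_eq_zero_of_notMem_tsupport (fun h => h1 (tsupport_fderiv_subset ℝ h))⟩
  · intro y
    exact (hM y).trans (Real.le_coe_toNNReal M)

/-- The rescaled cut-off function. -/
private lemma g5_cut {η : E n → ℝ} {M : ℝ≥0} (h1 : ContDiff ℝ ((⊤ : ℕ∞) : WithTop ℕ∞) η)
    (h2 : ∀ y, 3 / 2 < ‖y‖ → η y = 0 ∧ fderiv ℝ η y = 0) (h3 : ∀ y, ‖fderiv ℝ η y‖ ≤ M)
    (x : E n) {r : ℝ} (hr : 0 < r) :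
    ContDiff ℝ ((⊤ : ℕ∞) : WithTop ℕ∞) (fun y => η (r⁻¹ • (y - x))) ∧
    HasCompactSupport (fun y => η (r⁻¹ • (y - x))) ∧
    (∀ y, ‖fderiv ℝ (fun y => η (r⁻¹ • (y - x))) y‖ ≤ M / r) ∧
    ∀ y, y ∉ ball x (2 * r) → η (r⁻¹ • (y - x)) = 0 ∧
      fderiv ℝ (fun y => η (r⁻¹ • (y - x))) y = 0 := by
  have h1top : (1 : WithTop ℕ∞) ≤ ((⊤ : ℕ∞) : WithTop ℕ∞) := by
    exact_mod_cast le_top
  have hne : ((⊤ : ℕ∞) : WithTop ℕ∞) ≠ 0 := by
    intro h
    rw [h] at h1top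
    exact absurd h1top (by norm_num)
  have hd : Differentiable ℝ η := h1.differentiable hne
  have hder : ∀ y, HasFDerivAt (fun y => η (r⁻¹ • (y - x)))
      ((fderiv ℝ η (r⁻¹ • (y - x))).comp (r⁻¹ • ContinuousLinearMap.id ℝ (E n))) y := by
    intro y
    have e1 : HasFDerivAt (fun y : E n => r⁻¹ • (y - x))
        (r⁻¹ • ContinuousLinearMap.id ℝ (E n)) y :=
      ((hasFDerivAt_id y).sub_const x).const_smul r⁻¹
    exact (hd _).hasFDerivAt.comp y e1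
  have hout : ∀ y, y ∉ ball x (2 * r) → 3 / 2 < ‖r⁻¹ • (y - x)‖ := by
    intro y hy
    rw [mem_ball, not_lt, dist_eq_norm] at hy
    rw [norm_smul, norm_inv, Real.norm_of_nonneg hr.le, inv_mul_eq_div, lt_div_iff₀ hr]
    linarith
  refine ⟨h1.comp ((contDiff_id.sub contDiff_const).const_smul r⁻¹), ?_, ?_, ?_⟩
  · refine HasCompactSupport.intro (isCompact_closedBall x (2 * r)) fun y hy => ?_
    exact (h2 _ (hout y fun h => hy (ball_subset_closedBall h))).1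
  · intro y
    rw [(hder y).fderiv]
    refine (ContinuousLinearMap.opNorm_comp_le _ _).trans ?_
    rw [norm_smul, norm_inv, Real.norm_of_nonneg hr.le]
    have e1 : ‖ContinuousLinearMap.id ℝ (E n)‖ ≤ 1 := ContinuousLinearMap.norm_id_le
    calc ‖fderiv ℝ η (r⁻¹ • (y - x))‖ * (r⁻¹ * ‖ContinuousLinearMap.id ℝ (E n)‖)
        ≤ M * (r⁻¹ * 1) := by
          refine mul_le_mul (h3 _) ?_ (by positivity) M.2
          exact mul_le_mul_of_nonneg_left e1 (by positivity)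
      _ = M / r := by rw [mul_one, div_eq_mul_inv]
  · intro y hy
    have h4 := h2 _ (hout y hy)
    refine ⟨h4.1, ?_⟩
    rw [(hder y).fderiv, h4.2]
    exact ContinuousLinearMap.zero_comp _

/-- Hölder's inequality on a set of finite measure. -/
private lemma g5_holder {W : Type*} [NormedAddCommGroup W] {f : E n → W} (μ : Measure (E n))
    (hf : AEStronglyMeasurable f μ) {q p : ℝ} (hp : 0 < p) (hpq : p ≤ q) :
    (∫⁻ y, ‖f y‖ₑ ^ p ∂μ) ^ (q / p) ≤ μ univ ^ (q / p - 1) * ∫⁻ y, ‖f y‖ₑ ^ q ∂μ := by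
  have hq : 0 < q := hp.trans_le hpq
  have h := eLpNorm'_le_eLpNorm'_mul_rpow_measure_univ hp hpq hf
  unfold eLpNorm' at h
  have h2 := ENNReal.rpow_le_rpow h hq.le
  rw [← ENNReal.rpow_mul, ENNReal.mul_rpow_of_nonneg _ _ hq.le, ← ENNReal.rpow_mul,
    ← ENNReal.rpow_mul, one_div_mul_cancel hq.ne', ENNReal.rpow_one] at h2
  have e1 : 1 / p * q = q / p := by ring
  have e2 : (1 / p - 1 / q) * q = q / p - 1 := by
    field_simp
  rw [e1, e2] at h2
  rw [mul_comm]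
  exact h2

private lemma g5_T {a μ4 : ℝ≥0∞} (h0 : μ4 ≠ 0) (h1 : μ4 ≠ ∞) {s : ℝ} (hs : 0 ≤ s) :
    a ^ s = μ4 ^ (s - 1) * (μ4 * (μ4⁻¹ * a) ^ s) := by
  have e1 : μ4 ^ (s - 1) * μ4 = μ4 ^ s := by
    nth_rewrite 2 [← ENNReal.rpow_one μ4]
    rw [← ENNReal.rpow_add _ _ h0 h1, sub_add_cancel]
  have e2 : μ4 ^ s * (μ4 ^ s)⁻¹ = 1 := by
    refine ENNReal.mul_inv_cancel ?_ ?_
    · simp [h0, h1]
    · simp [h0, h1]
  rw [ENNReal.mul_rpow_of_nonneg _ _ hs, ENNReal.inv_rpow, ← mul_assoc, e1, ← mul_assoc, e2,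
    one_mul]

private lemma g5_const (hn : 3 ≤ n) (M ω : ℝ≥0) (hω : (ω : ℝ≥0∞) = volume (ball (0 : E n) 1))
    {q : ℝ} (hq0 : 0 < q) (hq : q ≤ n) (x : E n) {r : ℝ} (hr : 0 < r) :
    ENNReal.ofReal (M / r) ^ q * volume (ball x (4 * r)) ^ (q / n) ≤
      (1 + 4 * (M : ℝ≥0∞)) ^ n * (1 + ω) := by
  have hn0 : (0 : ℝ) < n := by
    have : (3 : ℝ) ≤ n := by exact_mod_cast hn
    linarith
  have : Nonempty (Fin n) := ⟨⟨0, by omega⟩⟩
  have : Nontrivial (E n) := inferInstance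
  have h1 : volume (ball x (4 * r)) = ENNReal.ofReal (4 * r) ^ n * ω := by
    rw [hω, Measure.addHaar_ball volume x (by positivity : (0 : ℝ) ≤ 4 * r),
      finrank_euclideanSpace_fin, ENNReal.ofReal_pow (by positivity)]
  have h2 : (ENNReal.ofReal (4 * r) ^ n) ^ (q / n) = ENNReal.ofReal (4 * r) ^ q := by
    rw [← ENNReal.rpow_natCast, ← ENNReal.rpow_mul, mul_div_cancel₀ _ hn0.ne']
  rw [h1, ENNReal.mul_rpow_of_nonneg _ _ (by positivity), h2, ← mul_assoc,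
    ← ENNReal.mul_rpow_of_nonneg _ _ hq0.le, ← ENNReal.ofReal_mul (by positivity)]
  have h3 : (M : ℝ) / r * (4 * r) = 4 * M := by
    field_simp
  have h4 : ENNReal.ofReal (4 * (M : ℝ)) = 4 * (M : ℝ≥0∞) := by
    rw [ENNReal.ofReal_mul (by norm_num), ENNReal.ofReal_coe_nnreal]
    norm_num
  rw [h3, h4]
  refine mul_le_mul' ?_ ?_
  · rw [← ENNReal.rpow_natCast]
    exact (ENNReal.rpow_le_rpow le_add_self hq0.le).trans
      (ENNReal.rpow_le_rpow_of_exponent_le le_self_add hq)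
  · calc (ω : ℝ≥0∞) ^ (q / n) ≤ (1 + ω) ^ (q / n) :=
          ENNReal.rpow_le_rpow le_add_self (by positivity)
      _ ≤ (1 + ω) ^ (1 : ℝ) := by
          refine ENNReal.rpow_le_rpow_of_exponent_le le_self_add ?_
          rw [div_le_one hn0]
          exact hq
      _ = 1 + ω := ENNReal.rpow_one _

/-- Reverse Hölder. PROOF: `η` cut-off for `B_r ⊆ B_2r`, `0 ≤ η ≤ 1`, `‖Dη‖ ≤ 4/r`; `g = η (F - c)` is in `SobC`
(`sobC_mul`), `Dg - η A = η (DF - A) + Dη ⊗ (F - c)`; `Coer` gives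
`∫_{B_r} ‖A‖^q ≤ C 2^q (∫_{B_2r} ‖DF - A‖^q + (4/r)^q ∫_{B_2r} ‖F - c‖^q)`, then `sob_poincare` on `B_2r ⊆ B_4r` and
`‖DF‖ ≤ ‖A‖ + ‖DF - A‖`, Hölder for the second part; `q1 = n q/(n+q)`, `q/q1 = (n+q)/n`,
`r^(-q) μ(B_4r)^(q/q1 - 1) = const`. -/
theorem rev_holder (hn : 3 ≤ n) (C0 : ℝ≥0) : ∃ K : ℝ≥0, ∀ q : ℝ, (n : ℝ) / 2 ≤ q → q ≤ n →
    Coer (n := n) q C0 → ∀ (F : E n → E n) (DF A : E n → E n →L[ℝ] E n), SobC q F DF →
    MemLp A (ENNReal.ofReal q) volume → (∀ᵐ x, Conf (A x)) → (∃ R : ℝ, ∀ x, R < ‖x‖ → A x = 0) →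
    RH (volume : Measure (E n)) K q (n * q / (n + q)) (fun x => ‖A x‖ₑ)
      (fun x => ‖DF x - A x‖ₑ) := by
  have hn3 : (3 : ℝ) ≤ n := by exact_mod_cast hn
  obtain ⟨CS, hS⟩ := sob_poincare (n := n) (by omega)
  obtain ⟨η0, M, hη1, hη2, hη3, hη4, hη5, hη6⟩ := g5_bump n
  set ω : ℝ≥0 := (volume (ball (0 : E n) 1)).toNNReal with hω
  have hω' : (ω : ℝ≥0∞) = volume (ball (0 : E n) 1) :=
    ENNReal.coe_toNNReal measure_ball_lt_top.ne
  refine ⟨C0 * 2 ^ n * (1 + (1 + 4 * M) ^ n * (1 + ω) * CS * 2 ^ n * 2), ?_⟩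
  intro q hq1 hq2 hC F DF A hF hA hconf hR x r hr
  have hq0 : 0 < q := by linarith
  have hq1' : 1 ≤ q := by linarith
  have hnq : 0 < (n : ℝ) + q := by linarith
  set p : ℝ := n * q / (n + q) with hp
  have hp1 : 1 ≤ p := by
    rw [hp, le_div_iff₀ hnq]
    nlinarith
  have hp0 : 0 < p := by linarith
  have hpq : p ≤ q := by
    rw [hp, div_le_iff₀ hnq]
    nlinarith
  have hs : q / p = (n + q) / n := by
    rw [hp]
    field_simp
  have hs1 : q / p - 1 = q / n := by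
    rw [hs]
    field_simp
    ring
  have hs2 : 1 ≤ q / p := by
    rw [le_div_iff₀ hp0]
    linarith
  have hs3 : q / p - 1 ≤ 1 := by
    rw [hs1, div_le_one (by linarith)]
    exact hq2
  -- Sobolev-Poincare
  obtain ⟨c, hc⟩ := hS q (by
    rw [div_le_iff₀ (by linarith)]
    nlinarith) hq2 F DF hF x (2 * r) (by positivity)
  rw [← hp, ← hs] at hc
  have hrr : 2 * (2 * r) = 4 * r := by ring
  rw [hrr] at hc
  -- the cut-off
  obtain ⟨hc1, hc2, hc3, hc4⟩ := g5_cut hη1 hη5 hη6 x hr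
  set η : E n → ℝ := fun y => η0 (r⁻¹ • (y - x)) with hη
  have hηnn : ∀ y, 0 ≤ η y := fun y => hη2 _
  have hη1' : ∀ y, η y ≤ 1 := fun y => hη3 _
  have hSob := sobC_mul hq1' univ isOpen_univ F DF
    (fun C _ _ => ⟨hF.mem.restrict C, hF.memD.restrict C⟩)
    (fun φ h1 h2 _ v => hF.weak φ h1 h2 v) c η hc1 hc2 (subset_univ _)
  have hAη : MemLp (fun y => η y • A y) (ENNReal.ofReal q) volume := by
    refine hA.of_le (hc1.continuous.aestronglyMeasurable.smul hA.1) (Eventually.of_forall fun y => ?_)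
    rw [norm_smul, Real.norm_of_nonneg (hηnn y)]
    exact mul_le_of_le_one_left (norm_nonneg _) (hη1' y)
  have hconf' : ∀ᵐ y, Conf (η y • A y) := by
    filter_upwards [hconf] with y hy
    exact hy.smul (hηnn y)
  have hR' : ∃ R : ℝ, ∀ y, R < ‖y‖ → η y • A y = 0 := by
    obtain ⟨R, hR⟩ := hR
    refine ⟨R, fun y hy => ?_⟩
    rw [hR y hy]
    ext z
    simp
  have hCoer := hC _ _ _ hSob hAη hconf' hR'
  -- left hand side
  have hL : ∫⁻ y in ball x r, ‖A y‖ₑ ^ q ≤ ∫⁻ y, ‖η y • A y‖ₑ ^ q := by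
    rw [← lintegral_indicator measurableSet_ball]
    refine lintegral_mono fun y => ?_
    by_cases hy : y ∈ ball x r
    · rw [indicator_of_mem hy]
      have h1 : η y = 1 := by
        refine hη4 _ ?_
        rw [mem_ball, dist_eq_norm] at hy
        rw [norm_smul, norm_inv, Real.norm_of_nonneg hr.le, inv_mul_eq_div, div_lt_one hr]
        exact hy
      rw [h1, one_smul]
    · rw [indicator_of_notMem hy]
      exact bot_le
  -- right hand side
  set m : ℝ≥0∞ := ENNReal.ofReal (M / r) with hm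
  have hmtop : m ≠ ∞ := ENNReal.ofReal_ne_top
  have hpt : ∀ y, ‖(η y • DF y + (fderiv ℝ η y).smulRight (F y - c)) - η y • A y‖ₑ ^ q ≤
      (ball x (2 * r)).indicator
        (fun y => (2 : ℝ≥0∞) ^ (q - 1) * (‖DF y - A y‖ₑ ^ q + m ^ q * ‖F y - c‖ₑ ^ q)) y := by
    intro y
    by_cases hy : y ∈ ball x (2 * r)
    · rw [indicator_of_mem hy]
      have h1 : (η y • DF y + (fderiv ℝ η y).smulRight (F y - c)) - η y • A y =
          η y • (DF y - A y) + (fderiv ℝ η y).smulRight (F y - c) := by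
        rw [smul_sub]
        abel
      have h2 : ‖(η y • DF y + (fderiv ℝ η y).smulRight (F y - c)) - η y • A y‖ₑ ≤
          ‖DF y - A y‖ₑ + m * ‖F y - c‖ₑ := by
        rw [h1]
        have h3 : ‖η y • (DF y - A y) + (fderiv ℝ η y).smulRight (F y - c)‖ ≤
            ‖DF y - A y‖ + M / r * ‖F y - c‖ := by
          refine (norm_add_le _ _).trans (add_le_add ?_ ?_)
          · rw [norm_smul, Real.norm_of_nonneg (hηnn y)]
            exact mul_le_of_le_one_left (norm_nonneg _) (hη1' y)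
          · rw [ContinuousLinearMap.norm_smulRight_apply]
            exact mul_le_mul_of_nonneg_right (hc3 y) (norm_nonneg _)
        have h4 := ENNReal.ofReal_le_ofReal h3
        rw [ENNReal.ofReal_add (norm_nonneg _) (by positivity), ENNReal.ofReal_mul (by positivity),
          ofReal_norm, ofReal_norm, ofReal_norm] at h4
        exact h4
      refine (ENNReal.rpow_le_rpow h2 hq0.le).trans ?_
      refine (ENNReal.rpow_add_le_mul_rpow_add_rpow _ _ hq1').trans ?_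
      rw [ENNReal.mul_rpow_of_nonneg _ _ hq0.le]
    · rw [indicator_of_notMem hy]
      have h1 := hc4 y hy
      have h2 : η y = 0 := h1.1
      have h3 : (η y • DF y + (fderiv ℝ η y).smulRight (F y - c)) - η y • A y = 0 := by
        ext z
        simp [h2, h1.2]
      have h5 : ‖(0 : E n →L[ℝ] E n)‖ₑ = 0 := by
        rw [← ofReal_norm, ContinuousLinearMap.opNorm_zero, ENNReal.ofReal_zero]
      rw [h3, h5, ENNReal.zero_rpow_of_pos hq0]
  have hRt : ∫⁻ y, ‖(η y • DF y + (fderiv ℝ η y).smulRight (F y - c)) - η y • A y‖ₑ ^ q ≤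
      2 ^ (q - 1) * ((∫⁻ y in ball x (2 * r), ‖DF y - A y‖ₑ ^ q) +
        m ^ q * ∫⁻ y in ball x (2 * r), ‖F y - c‖ₑ ^ q) := by
    refine (lintegral_mono hpt).trans ?_
    rw [lintegral_indicator measurableSet_ball, lintegral_const_mul', lintegral_add_left',
      lintegral_const_mul']
    · exact ENNReal.rpow_ne_top_of_nonneg hq0.le hmtop
    · exact ((hF.memD.1.sub hA.1).enorm.pow_const q).restrict
    · exact ENNReal.rpow_ne_top_of_nonneg (by linarith) (by norm_num)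
  -- the integral of the derivative
  set B4 : Set (E n) := ball x (4 * r) with hB4
  have hsub : ball x (2 * r) ⊆ B4 := ball_subset_ball (by linarith)
  have hμ0 : volume B4 ≠ 0 := (measure_ball_pos volume x (by positivity)).ne'
  have hμ1 : volume B4 ≠ ∞ := measure_ball_lt_top.ne
  have hDm : AEStronglyMeasurable (fun y => DF y - A y) (volume.restrict B4) :=
    (hF.memD.1.sub hA.1).restrict
  set I1 : ℝ≥0∞ := ∫⁻ y in B4, ‖A y‖ₑ ^ p with hI1
  set I2 : ℝ≥0∞ := ∫⁻ y in B4, ‖DF y - A y‖ₑ ^ p with hI2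
  set Hh : ℝ≥0∞ := ∫⁻ y in B4, ‖DF y - A y‖ₑ ^ q with hHh
  set T : ℝ≥0∞ := volume B4 * ((volume B4)⁻¹ * I1) ^ (q / p) with hT
  have hD1 : ∫⁻ y in B4, ‖DF y‖ₑ ^ p ≤ 2 ^ (p - 1) * (I1 + I2) := by
    have h1 : ∀ y, ‖DF y‖ₑ ^ p ≤ 2 ^ (p - 1) * (‖A y‖ₑ ^ p + ‖DF y - A y‖ₑ ^ p) := by
      intro y
      have h2 : ‖DF y‖ ≤ ‖A y‖ + ‖DF y - A y‖ := by
        have h3 := norm_add_le (A y) (DF y - A y)
        rwa [add_sub_cancel] at h3
      have h4 := ENNReal.ofReal_le_ofReal h2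
      rw [ENNReal.ofReal_add (norm_nonneg _) (norm_nonneg _), ofReal_norm, ofReal_norm,
        ofReal_norm] at h4
      exact (ENNReal.rpow_le_rpow h4 hp0.le).trans (ENNReal.rpow_add_le_mul_rpow_add_rpow _ _ hp1)
    refine (lintegral_mono h1).trans ?_
    rw [lintegral_const_mul', lintegral_add_left']
    · exact (hA.1.enorm.pow_const p).restrict
    · exact ENNReal.rpow_ne_top_of_nonneg (by linarith) (by norm_num)
  have hD2 : (∫⁻ y in B4, ‖DF y‖ₑ ^ p) ^ (q / p) ≤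
      2 ^ n * 2 * (volume B4 ^ (q / p - 1) * (T + Hh)) := by
    have h1 : I1 ^ (q / p) = volume B4 ^ (q / p - 1) * T := g5_T hμ0 hμ1 (by linarith)
    have h2 : I2 ^ (q / p) ≤ volume B4 ^ (q / p - 1) * Hh := by
      have h3 := g5_holder (volume.restrict B4) hDm hp0 hpq
      rw [Measure.restrict_apply_univ] at h3
      exact h3
    have h4 : ((2 : ℝ≥0∞) ^ (p - 1)) ^ (q / p) ≤ 2 ^ n := by
      rw [← ENNReal.rpow_mul, ← ENNReal.rpow_natCast]
      refine ENNReal.rpow_le_rpow_of_exponent_le (by norm_num) ?_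
      have h5 : (p - 1) * (q / p) = q - q / p := by
        field_simp
      rw [h5]
      linarith
    have h6 : (2 : ℝ≥0∞) ^ (q / p - 1) ≤ 2 := by
      calc (2 : ℝ≥0∞) ^ (q / p - 1) ≤ 2 ^ (1 : ℝ) :=
            ENNReal.rpow_le_rpow_of_exponent_le (by norm_num) hs3
        _ = 2 := ENNReal.rpow_one _
    calc (∫⁻ y in B4, ‖DF y‖ₑ ^ p) ^ (q / p)
        ≤ (2 ^ (p - 1) * (I1 + I2)) ^ (q / p) := ENNReal.rpow_le_rpow hD1 (by linarith)
      _ = (2 ^ (p - 1)) ^ (q / p) * (I1 + I2) ^ (q / p) :=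
          ENNReal.mul_rpow_of_nonneg _ _ (by linarith)
      _ ≤ 2 ^ n * (2 ^ (q / p - 1) * (I1 ^ (q / p) + I2 ^ (q / p))) :=
          mul_le_mul' h4 (ENNReal.rpow_add_le_mul_rpow_add_rpow _ _ hs2)
      _ ≤ 2 ^ n * (2 * (volume B4 ^ (q / p - 1) * T + volume B4 ^ (q / p - 1) * Hh)) := by
          refine mul_le_mul' le_rfl (mul_le_mul' h6 (add_le_add h1.le h2))
      _ = 2 ^ n * 2 * (volume B4 ^ (q / p - 1) * (T + Hh)) := by ring
  have hconst : m ^ q * volume B4 ^ (q / p - 1) ≤ (1 + 4 * (M : ℝ≥0∞)) ^ n * (1 + ω) := by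
    rw [hs1]
    exact g5_const hn M ω hω' hq0 hq2 x hr
  have h2n : (2 : ℝ≥0∞) ^ (q - 1) ≤ 2 ^ n := by
    rw [← ENNReal.rpow_natCast]
    exact ENNReal.rpow_le_rpow_of_exponent_le (by norm_num) (by linarith)
  have hH2 : ∫⁻ y in ball x (2 * r), ‖DF y - A y‖ₑ ^ q ≤ T + Hh :=
    (lintegral_mono_set hsub).trans le_add_self
  have key : ∫⁻ y in ball x r, ‖A y‖ₑ ^ q ≤
      C0 * (2 ^ n * ((T + Hh) + m ^ q * (CS * (2 ^ n * 2 * (volume B4 ^ (q / p - 1) * (T + Hh)))))) := by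
    refine (hL.trans hCoer).trans (mul_le_mul' le_rfl (hRt.trans (mul_le_mul' h2n ?_)))
    exact add_le_add hH2 (mul_le_mul' le_rfl (hc.trans (mul_le_mul' le_rfl hD2)))
  refine key.trans ?_
  have e1 : (C0 : ℝ≥0∞) * (2 ^ n * ((T + Hh) + m ^ q * (CS * (2 ^ n * 2 *
      (volume B4 ^ (q / p - 1) * (T + Hh)))))) =
      C0 * 2 ^ n * (1 + m ^ q * volume B4 ^ (q / p - 1) * CS * 2 ^ n * 2) * (T + Hh) := by ring
  have e2 : ((C0 * 2 ^ n * (1 + (1 + 4 * M) ^ n * (1 + ω) * CS * 2 ^ n * 2) : ℝ≥0) : ℝ≥0∞) =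
      C0 * 2 ^ n * (1 + (1 + 4 * (M : ℝ≥0∞)) ^ n * (1 + ω) * CS * 2 ^ n * 2) := by
    push_cast
    ring
  rw [e1, ← mul_add, e2]
  gcongr

end Pool.Agent.Lib.QR
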