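import Pool.Agent.Lib.MP_ba1c0b_an.G5
import Pool.Agent.Lib.MP_ba1c0b_an.G4

/-!
G5h: higher integrability.
-/

set_option autoImplicit false

open MeasureTheory Filter Topology Metric Set
open scoped ENNReal NNReal

namespace Pool.Agent.Lib.QR

variable {n : ℕ}

private theorem g5h_RH_congr {K : ℝ≥0} {q q1 : ℝ} {G H G' H' : E n → ℝ≥0∞}
    (hG : G =ᵐ[volume] G') (hH : H =ᵐ[volume] H')
    (h : RH (volume : Measure (E n)) K q q1 G H) : RH (volume : Measure (E n)) K q q1 G' H' := by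
  intro x r hr
  have h0 := h x r hr
  have e1 : ∫⁻ y in ball x r, G' y ^ q = ∫⁻ y in ball x r, G y ^ q := by
    refine lintegral_congr_ae (ae_restrict_of_ae ?_)
    filter_upwards [hG] with y hy
    rw [hy]
  have e2 : ∫⁻ y in ball x (4 * r), G' y ^ q1 = ∫⁻ y in ball x (4 * r), G y ^ q1 := by
    refine lintegral_congr_ae (ae_restrict_of_ae ?_)
    filter_upwards [hG] with y hy
    rw [hy]
  have e3 : ∫⁻ y in ball x (4 * r), H' y ^ q = ∫⁻ y in ball x (4 * r), H y ^ q := by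
    refine lintegral_congr_ae (ae_restrict_of_ae ?_)
    filter_upwards [hH] with y hy
    rw [hy]
  rw [e1, e2, e3]
  exact h0

private theorem g5h_lt {W : Type*} [NormedAddCommGroup W] {f : E n → W} {p : ℝ} (hp : 0 < p)
    (hf : MemLp f (ENNReal.ofReal p) volume) {g : E n → ℝ≥0∞}
    (hg : (fun x => ‖f x‖ₑ) =ᵐ[volume] g) : ∫⁻ x, g x ^ p < ∞ := by
  have h1 : ENNReal.ofReal p ≠ 0 := by simpa using hp
  have h2 := (eLpNorm_lt_top_iff_lintegral_rpow_enorm_lt_top h1 ENNReal.ofReal_ne_top).1 hf.2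
  rw [ENNReal.toReal_ofReal hp.le] at h2
  refine lt_of_le_of_lt (le_of_eq ?_) h2
  refine lintegral_congr_ae ?_
  filter_upwards [hg] with y hy
  rw [← hy]

/-- Higher integrability. PROOF: `rev_holder`, `level_set`, `gehring_int` (`q - q1 = q²/(n+q) ≥ n/8 =: κ`); replace
`A`, `DF - A` by measurable representatives. -/
theorem higher (hn : 3 ≤ n) (C0 : ℝ≥0) : ∃ τ0 : ℝ, 0 < τ0 ∧ τ0 ≤ 1 ∧
    ∀ q : ℝ, (n : ℝ) / 2 ≤ q → q ≤ n →
    Coer (n := n) q C0 → ∀ (F : E n → E n) (DF A : E n → E n →L[ℝ] E n), SobC q F DF →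
    MemLp A (ENNReal.ofReal q) volume → (∀ᵐ x, Conf (A x)) → (∃ R : ℝ, ∀ x, R < ‖x‖ → A x = 0) →
    ∀ τ : ℝ, 0 ≤ τ → τ ≤ τ0 →
    MemLp (fun x => DF x - A x) (ENNReal.ofReal (q + τ)) volume →
    MemLp A (ENNReal.ofReal (q + τ)) volume := by
  have hn3 : (3 : ℝ) ≤ n := by exact_mod_cast hn
  have : Nonempty (Fin n) := ⟨⟨0, by omega⟩⟩
  have : Nontrivial (E n) := inferInstance
  obtain ⟨K, hK⟩ := rev_holder (n := n) hn C0
  obtain ⟨C, a, ha, ha1, hL⟩ := level_set (volume : Measure (E n)) K (n : ℝ)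
  obtain ⟨τ0, C', hτ0, hτ1, hg⟩ := gehring_int C a ha ha1 ((n : ℝ) / 8) (n : ℝ) (by positivity)
  refine ⟨τ0, hτ0, hτ1, ?_⟩
  intro q hq1 hq2 hC F DF A hF hA hconf hR τ hτ hττ hD
  rcases hτ.eq_or_lt with h0 | hτpos
  · rw [← h0, add_zero]
    exact hA
  have hq0 : 0 < q := by linarith
  have hnq : 0 < (n : ℝ) + q := by linarith
  have hRH := hK q hq1 hq2 hC F DF A hF hA hconf hR
  -- measurable representatives
  have hDq : AEStronglyMeasurable (fun x => DF x - A x) volume := hD.1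
  have hG : (fun x => ‖A x‖ₑ) =ᵐ[volume] (fun x => ‖hA.1.mk A x‖ₑ) := by
    filter_upwards [hA.1.ae_eq_mk] with x hx
    rw [hx]
  have hH : (fun x => ‖DF x - A x‖ₑ) =ᵐ[volume] (fun x => ‖hDq.mk _ x‖ₑ) := by
    filter_upwards [hDq.ae_eq_mk] with x hx
    rw [hx]
  have hRH' := g5h_RH_congr hG hH hRH
  have hGm : Measurable (fun x => ‖hA.1.mk A x‖ₑ) := hA.1.stronglyMeasurable_mk.enorm
  have hHm : Measurable (fun x => ‖hDq.mk _ x‖ₑ) := hDq.stronglyMeasurable_mk.enorm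
  have hfin : ∫⁻ x, ‖hA.1.mk A x‖ₑ ^ q < ∞ := g5h_lt hq0 hA hG
  have hfinH : ∫⁻ x, ‖hDq.mk _ x‖ₑ ^ (q + τ) < ∞ := g5h_lt (by linarith) hD hH
  have hq11 : 1 ≤ (n : ℝ) * q / (n + q) := by
    rw [le_div_iff₀ hnq]
    nlinarith
  have hκ : (n : ℝ) * q / (n + q) + n / 8 ≤ q := by
    rw [div_add' _ _ _ hnq.ne', div_le_iff₀ hnq]
    nlinarith
  have hlt : (n : ℝ) * q / (n + q) < q := by linarith
  have hlev := hL q ((n : ℝ) * q / (n + q)) hq11 hlt hq2 _ _ hGm hHm hfin hRH'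
  have hfinal := hg (volume : Measure (E n)) q ((n : ℝ) * q / (n + q)) hq11 hκ hq2 _ _ hGm hHm
    hfin hlev τ hτpos hττ
  have hlt2 : ∫⁻ x, ‖hA.1.mk A x‖ₑ ^ (q + τ) < ∞ :=
    lt_of_le_of_lt hfinal (ENNReal.mul_lt_top ENNReal.coe_lt_top hfinH)
  refine ⟨hA.1, ?_⟩
  have hp : ENNReal.ofReal (q + τ) ≠ 0 := by
    simp only [ne_eq, ENNReal.ofReal_eq_zero, not_le]
    linarith
  rw [eLpNorm_lt_top_iff_lintegral_rpow_enorm_lt_top hp ENNReal.ofReal_ne_top,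
    ENNReal.toReal_ofReal (by linarith)]
  refine lt_of_le_of_lt (le_of_eq ?_) hlt2
  refine lintegral_congr_ae ?_
  filter_upwards [hG] with y hy
  rw [hy]

end Pool.Agent.Lib.QR
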