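import Pool.Agent.Lib.MP_ba1c0b_an.G5h
import Pool.Agent.Lib.MP_ba1c0b_an.G2e

/-!
G6: coercivity on `[q0, n]` implies the property `QProp n q0`.
-/

set_option autoImplicit false

open MeasureTheory Filter Topology Metric Set
open scoped ENNReal NNReal

namespace Pool.Agent.Lib.QR

variable {n : ℕ}

private lemma g6_of_restrict {F : Type*} [NormedAddCommGroup F] {p : ℝ≥0∞} {K : Set (E n)}
    (hK : MeasurableSet K) {g : E n → F} (h0 : ∀ x, x ∉ K → g x = 0)
    (h : MemLp g p (volume.restrict K)) : MemLp g p volume := by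
  rw [← memLp_indicator_iff_restrict hK] at h
  have h1 : K.indicator g = g := by
    rw [Set.indicator_eq_self]
    intro x hx
    by_contra h'
    exact hx (h0 x h')
  rwa [h1] at h

private lemma g6_bump {C Ω : Set (E n)} (hC : IsCompact C) (hΩ : IsOpen Ω) (hCΩ : C ⊆ Ω) :
    ∃ η : E n → ℝ, ContDiff ℝ ((⊤ : ℕ∞) : WithTop ℕ∞) η ∧ HasCompactSupport η ∧ tsupport η ⊆ Ω ∧
      (∀ x ∈ C, η x = 1) ∧ (∀ x, 0 ≤ η x) := by
  obtain ⟨K, hK, hCK, hKΩ⟩ := exists_compact_between hC hΩ hCΩ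
  obtain ⟨f, h1, h0, hf⟩ := exists_contMDiffMap_one_nhds_of_subset_interior
    (modelWithCornersSelf ℝ (E n)) (n := (⊤ : ℕ∞)) hC.isClosed hCK
  have hs : tsupport (f : E n → ℝ) ⊆ K :=
    closure_minimal (fun x hx => by
      by_contra h
      exact hx (h0 x h)) hK.isClosed
  refine ⟨f, f.contMDiff.contDiff, HasCompactSupport.intro hK h0, hs.trans hKΩ, ?_, fun x => (hf x).1⟩
  intro x hx
  exact h1.self_of_nhdsSet x hx

private lemma g6_zero {η : E n → ℝ} {x : E n} (hx : x ∉ tsupport η) :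
    η x = 0 ∧ fderiv ℝ η x = 0 :=
  ⟨image_eq_zero_of_notMem_tsupport hx,
    image_eq_zero_of_notMem_tsupport (fun h => hx (tsupport_fderiv_subset ℝ h))⟩

private lemma g6_zs (D : E n →L[ℝ] E n) : (0 : ℝ) • D = 0 := by
  ext
  simp

private lemma g6_os (D : E n →L[ℝ] E n) : (1 : ℝ) • D = D := by
  ext
  simp

/-- One step of the iteration. -/
private lemma g6_step (hn : 3 ≤ n) (C0 : ℝ≥0) {τ0 : ℝ} (hτ01 : τ0 ≤ 1)
    (hhigh : ∀ q : ℝ, (n : ℝ) / 2 ≤ q → q ≤ n →
      Coer (n := n) q C0 → ∀ (F : E n → E n) (DF A : E n → E n →L[ℝ] E n), SobC q F DF →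
      MemLp A (ENNReal.ofReal q) volume → (∀ᵐ x, Conf (A x)) →
      (∃ R : ℝ, ∀ x, R < ‖x‖ → A x = 0) →
      ∀ τ : ℝ, 0 ≤ τ → τ ≤ τ0 →
      MemLp (fun x => DF x - A x) (ENNReal.ofReal (q + τ)) volume →
      MemLp A (ENNReal.ofReal (q + τ)) volume)
    {Ω : Set (E n)} {f : E n → E n} {Df : E n → E n →L[ℝ] E n} (hΩ : IsOpen Ω)
    (hw : ∀ φ : E n → ℝ, ContDiff ℝ ((⊤ : ℕ∞) : WithTop ℕ∞) φ → HasCompactSupport φ →
      tsupport φ ⊆ Ω → ∀ v : E n, ∫ x, (fderiv ℝ φ x v) • f x = -∫ x, φ x • Df x v)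
    (hconf : ∀ᵐ x ∂(volume.restrict Ω), Conf (Df x))
    {q τ : ℝ} (hq : (n : ℝ) / 2 ≤ q) (hqn : q ≤ n) (hcoer : Coer (n := n) q C0)
    (hτ : 0 ≤ τ) (hττ : τ ≤ τ0) (hqτ : q + τ ≤ n)
    (hP : ∀ C : Set (E n), IsCompact C → C ⊆ Ω →
      MemLp f (ENNReal.ofReal q) (volume.restrict C) ∧
      MemLp Df (ENNReal.ofReal q) (volume.restrict C)) :
    ∀ C : Set (E n), IsCompact C → C ⊆ Ω →
      MemLp f (ENNReal.ofReal (q + τ)) (volume.restrict C) ∧
      MemLp Df (ENNReal.ofReal (q + τ)) (volume.restrict C) := by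
  intro C hC hCΩ
  have hn3 : (3 : ℝ) ≤ n := by exact_mod_cast hn
  have hq1 : 1 ≤ q := by linarith
  have h1top : (1 : WithTop ℕ∞) ≤ ((⊤ : ℕ∞) : WithTop ℕ∞) := by
    exact_mod_cast le_top
  have hne : ((⊤ : ℕ∞) : WithTop ℕ∞) ≠ 0 := by
    intro h
    rw [h] at h1top
    exact absurd h1top (by norm_num)
  -- the cut-off functions
  obtain ⟨η, hηs, hηc, hηΩ, hη1, hη0⟩ := g6_bump hC hΩ hCΩ
  have hS : IsCompact (tsupport η) := hηc
  obtain ⟨θ, hθs, hθc, hθΩ, hθ1, hθ0⟩ := g6_bump hS hΩ hηΩ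
  have hηd : Continuous (fderiv ℝ η) := hηs.continuous_fderiv hne
  -- higher integrability of f
  have hF1 := sobC_mul hq1 Ω hΩ f Df hP hw 0 θ hθs hθc hθΩ
  have hemb : MemLp (fun x => θ x • (f x - 0)) (ENNReal.ofReal (q + τ)) volume := by
    refine sob_embed (by omega) (q := q) (p := q + τ) ?_ (by linarith) ?_ hF1
    · rw [div_le_iff₀ (by linarith)]
      nlinarith
    · have h1 : τ * (n - q) ≤ 1 * (n - q) :=
        mul_le_mul_of_nonneg_right (hττ.trans hτ01) (by linarith)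
      nlinarith
  have hfS : ∀ T : Set (E n), MeasurableSet T → T ⊆ tsupport η →
      MemLp f (ENNReal.ofReal (q + τ)) (volume.restrict T) := by
    intro T hT hTS
    refine (memLp_congr_ae ?_).1 (hemb.restrict T)
    filter_upwards [ae_restrict_mem hT] with x hx
    rw [hθ1 x (hTS hx), one_smul, sub_zero]
  have hCS : C ⊆ tsupport η := by
    intro x hx
    apply subset_tsupport
    rw [Function.mem_support, hη1 x hx]
    exact one_ne_zero
  refine ⟨hfS C hC.measurableSet hCS, ?_⟩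
  -- the conformal field
  have hF := sobC_mul hq1 Ω hΩ f Df hP hw 0 η hηs hηc hηΩ
  have hA : MemLp (fun x => η x • Df x) (ENNReal.ofReal q) volume := by
    obtain ⟨M, hM⟩ := hηc.exists_bound_of_continuous hηs.continuous
    have hDK := (hP _ hS hηΩ).2
    refine g6_of_restrict hS.measurableSet (fun x hx => by rw [(g6_zero hx).1, g6_zs]) ?_
    refine MemLp.of_le_mul (c := M) hDK (hηs.continuous.aestronglyMeasurable.smul hDK.1)
      (Eventually.of_forall ?_)
    intro x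
    rw [norm_smul]
    exact mul_le_mul_of_nonneg_right (hM x) (norm_nonneg _)
  have hAc : ∀ᵐ x : E n, Conf (η x • Df x) := by
    have h1 : ∀ᵐ x : E n, x ∈ Ω → Conf (Df x) := (ae_restrict_iff' hΩ.measurableSet).1 hconf
    filter_upwards [h1] with x hx
    by_cases h : x ∈ tsupport η
    · exact (hx (hηΩ h)).smul (hη0 x)
    · rw [(g6_zero h).1, g6_zs]
      exact conf_zero (by omega)
  have hAs : ∃ R : ℝ, ∀ x : E n, R < ‖x‖ → η x • Df x = 0 := by
    obtain ⟨R, hR⟩ := hS.isBounded.subset_closedBall 0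
    refine ⟨R, fun x hx => ?_⟩
    have hx' : x ∉ tsupport η := by
      intro h
      have := hR h
      rw [mem_closedBall_zero_iff] at this
      exact absurd this (not_le.2 hx)
    rw [(g6_zero hx').1, g6_zs]
  have hD : MemLp (fun x => (η x • Df x + (fderiv ℝ η x).smulRight (f x - 0)) - η x • Df x)
      (ENNReal.ofReal (q + τ)) volume := by
    refine g6_of_restrict hS.measurableSet (fun x hx => by
      rw [(g6_zero hx).1, (g6_zero hx).2]
      ext
      simp) ?_
    have hfT := hfS _ hS.measurableSet subset_rfl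
    obtain ⟨M, hM⟩ := (hηc.fderiv ℝ).exists_bound_of_continuous hηd
    have h2 : MemLp (fun x => (fderiv ℝ η x).smulRight (f x)) (ENNReal.ofReal (q + τ))
        (volume.restrict (tsupport η)) := by
      refine MemLp.of_le_mul (c := M) hfT ?_ (Eventually.of_forall ?_)
      · exact (ContinuousLinearMap.smulRightL ℝ (E n) (E n)).aestronglyMeasurable_comp₂
          hηd.aestronglyMeasurable hfT.1
      · intro x
        rw [ContinuousLinearMap.norm_smulRight_apply]
        exact mul_le_mul_of_nonneg_right (hM x) (norm_nonneg _)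
    refine (memLp_congr_ae (Eventually.of_forall fun x => ?_)).2 h2
    simp only [sub_zero, add_sub_cancel_left]
  have hres := hhigh q hq hqn hcoer _ _ _ hF hA hAc hAs τ hτ hττ hD
  refine (memLp_congr_ae ?_).1 (hres.restrict C)
  filter_upwards [ae_restrict_mem hC.measurableSet] with x hx
  rw [hη1 x hx, g6_os]

/-- PROOF. Let `P q` = for all compact `C ⊆ Ω`, `f, Df ∈ L^q(C)`.  Step: `P q`, `q0 ≤ q < n` implies
`P (min (q + τ1) n)` for a fixed `τ1 > 0`: for compact `C` choose a smooth cut-off `η : E n → [0,1]`, `η = 1` on a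
neighbourhood of `C`, compact support in `Ω`; `F = η f` (`sobC_mul` with `c = 0`), `A = η Df` (`Conf.smul`),
`DF - A = Dη ⊗ f`; `f ∈ L^(q+τ)` on the support of `η` by `sob_embed` applied to `η' f` with a larger cut-off
(`q + τ1 ≤ n q/(n-q)` because `q²/(n-q) ≥ n/4`); `higher`.  Finitely many steps. -/
theorem qprop_of_coer (hn : 3 ≤ n) (q0 : ℝ) (hq0 : (n : ℝ) / 2 ≤ q0) (hq0n : q0 ≤ n) (C0 : ℝ≥0)
    (h : ∀ q : ℝ, q0 ≤ q → q ≤ n → Coer (n := n) q C0) : QProp n q0 := by
  have hn3 : (3 : ℝ) ≤ n := by exact_mod_cast hn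
  obtain ⟨τ0, hτ0, hτ01, hhigh⟩ := higher (n := n) hn C0
  refine ⟨by linarith, hq0n, ?_⟩
  intro Ω f Df hΩ hf hw hconf
  have key : ∀ k : ℕ, ∀ C : Set (E n), IsCompact C → C ⊆ Ω →
      MemLp f (ENNReal.ofReal (min (q0 + k * τ0) n)) (volume.restrict C) ∧
      MemLp Df (ENNReal.ofReal (min (q0 + k * τ0) n)) (volume.restrict C) := by
    intro k
    induction k with
    | zero =>
      have : min (q0 + ((0 : ℕ) : ℝ) * τ0) (n : ℝ) = q0 := by
        simp [hq0n]
      rw [this]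
      exact hf
    | succ k ih =>
      have h1 : q0 ≤ min (q0 + k * τ0) (n : ℝ) := by
        refine le_min ?_ hq0n
        have : 0 ≤ (k : ℝ) * τ0 := by positivity
        linarith
      have h2 : min (q0 + k * τ0) (n : ℝ) ≤ n := min_le_right _ _
      have h3 : min (q0 + k * τ0) (n : ℝ) ≤ min (q0 + ((k + 1 : ℕ) : ℝ) * τ0) (n : ℝ) := by
        refine min_le_min ?_ le_rfl
        push_cast
        nlinarith
      have h4 : min (q0 + ((k + 1 : ℕ) : ℝ) * τ0) (n : ℝ) ≤ min (q0 + k * τ0) (n : ℝ) + τ0 := by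
        rw [← min_add_add_right]
        refine min_le_min ?_ (by linarith)
        push_cast
        nlinarith
      have h5 := g6_step hn C0 hτ01 hhigh hΩ hw hconf (hq0.trans h1) h2 (h _ h1 h2)
        (sub_nonneg.2 h3) (by linarith) (by linarith [min_le_right (q0 + ((k + 1 : ℕ) : ℝ) * τ0) (n : ℝ)]) ih
      rw [add_sub_cancel] at h5
      exact h5
  obtain ⟨k, hk⟩ := exists_nat_ge ((n : ℝ) / τ0)
  have hkn : min (q0 + k * τ0) (n : ℝ) = n := by
    refine min_eq_right ?_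
    have := (div_le_iff₀ hτ0).1 hk
    linarith
  have := key k
  rw [hkn, ENNReal.ofReal_natCast] at this
  exact this

end Pool.Agent.Lib.QR
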