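import Pool.Agent.Lib.MP_ba1c0b_an.B4

/-!
H0: the numerical condition.
-/

set_option autoImplicit false

namespace Pool.Agent.Lib.QR

private lemma h0_tend (K θ ε : ℝ) (hθ : θ < 1) (hε : 0 < ε) :
    ∃ l1 : ℕ, ∀ l : ℕ, l1 ≤ l → K * (l : ℝ) ^ (θ - 1) < ε := by
  have h1 : Filter.Tendsto (fun l : ℕ => ((l : ℝ)) ^ (-(1 - θ))) Filter.atTop (nhds 0) :=
    (tendsto_rpow_neg_atTop (by linarith : (0 : ℝ) < 1 - θ)).comp tendsto_natCast_atTop_atTop
  have h2 : Filter.Tendsto (fun l : ℕ => K * ((l : ℝ)) ^ (-(1 - θ))) Filter.atTop (nhds 0) := by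
    simpa using h1.const_mul K
  have h3 := (h2.eventually (gt_mem_nhds hε))
  obtain ⟨l1, hl1⟩ := Filter.eventually_atTop.1 h3
  refine ⟨l1, fun l hl => ?_⟩
  have := hl1 l hl
  have e : (θ - 1) = (-(1 - θ)) := by ring
  rw [e]
  exact this

/-- The numerical condition holds for large `l`. PROOF: `δ ≤ 1/4`, `rs = 1 + δ/2`, `m ≥ 1 + 1/δ`:
the exponent `θ = (1/rs - 1/2)/(1/2 - 1/(2m)) < 1`, `Mc l m ≤ c l`, so `(1/l) Mc^θ → 0`; the minimum is
`≥ δ/4`. -/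
theorem num_cond (δ : ℝ) (hδ : 0 < δ) (hδ' : δ ≤ 1 / 4) :
    ∃ (m l0 : ℕ) (rs : ℝ), 1 ≤ m ∧ 1 ≤ l0 ∧ (2 * m : ℝ) / (2 * m - 1) < rs ∧ rs < 2 ∧
      ∀ l : ℕ, l0 ≤ l → ∀ q : ℝ, (1 / 2 + δ) * (2 * l + 1) ≤ q → q ≤ 2 * l + 1 →
        rs < q / (l + 1) ∧ q / l < rs / (rs - 1) ∧
        ((1 : ℝ) / l) * (Mc l m) ^ ((1 / rs - 1 / 2) / (1 / 2 - 1 / (2 * m : ℝ)))
          / min (1 - (q / l) * (rs - 1) / rs) (q / l / rs - 1) ≤ 1 / 2 := by
  obtain ⟨m, hm⟩ : ∃ m : ℕ, 1 / δ + 1 ≤ (m : ℝ) :=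
    ⟨⌈1 / δ⌉₊ + 1, by push_cast; linarith [Nat.le_ceil (1 / δ)]⟩
  have hinv : 0 < 1 / δ := by positivity
  have hm1 : (1 : ℝ) < m := by linarith
  have hmδ : 1 < ((m : ℝ) - 1) * δ + 0 ∨ 1 ≤ ((m : ℝ) - 1) * δ := by
    right
    have : 1 / δ ≤ (m : ℝ) - 1 := by linarith
    have h := mul_le_mul_of_nonneg_right this hδ.le
    rwa [one_div, inv_mul_cancel₀ hδ.ne'] at h
  have hmδ : 1 ≤ ((m : ℝ) - 1) * δ := by
    rcases hmδ with h | h
    · linarith
    · exact h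
  set rs : ℝ := 1 + δ / 2 with hrs
  have hrs1 : 1 < rs := by rw [hrs]; linarith
  have hrs2 : rs < 2 := by rw [hrs]; linarith
  have hden : (0 : ℝ) < 2 * m - 1 := by linarith
  have hcond : (2 * m : ℝ) / (2 * m - 1) < rs := by
    rw [div_lt_iff₀ hden, hrs]
    nlinarith
  set θ : ℝ := (1 / rs - 1 / 2) / (1 / 2 - 1 / (2 * m : ℝ)) with hθ
  have hd2 : 0 < 1 / 2 - 1 / (2 * m : ℝ) := by
    have : 1 / (2 * m : ℝ) < 1 / 2 := by
      apply one_div_lt_one_div_of_lt <;> linarith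
    linarith
  have hθ1 : θ < 1 := by
    rw [hθ, div_lt_one hd2]
    have h1 : 1 / rs < (2 * m - 1) / (2 * m : ℝ) := by
      rw [div_lt_div_iff₀ (by linarith) (by linarith)]
      rw [div_lt_iff₀ hden] at hcond
      linarith
    have h2 : (2 * m - 1) / (2 * m : ℝ) = 1 - 1 / (2 * m : ℝ) := by
      field_simp
    rw [h2] at h1
    linarith
  have hθ0 : 0 ≤ θ := by
    rw [hθ]
    apply div_nonneg _ hd2.le
    have : 1 / 2 ≤ 1 / rs := by
      apply one_div_le_one_div_of_le <;> linarith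
    linarith
  obtain ⟨l1, hl1⟩ := h0_tend ((32 * (1 + 6 * (m : ℝ)) ^ 2) ^ θ) θ (δ / 8) hθ1 (by positivity)
  obtain ⟨l2, hl2⟩ : ∃ l2 : ℕ, 1 / δ + 1 ≤ (l2 : ℝ) :=
    ⟨⌈1 / δ⌉₊ + 1, by push_cast; linarith [Nat.le_ceil (1 / δ)]⟩
  refine ⟨m, max (max l1 l2) 1, rs, by exact_mod_cast hm1.le, le_max_right _ _, hcond, hrs2, ?_⟩
  intro l hl q hq1 hq2
  have hl1' : l1 ≤ l := le_trans (le_trans (le_max_left _ _) (le_max_left _ _)) hl
  have hl2' : l2 ≤ l := le_trans (le_trans (le_max_right _ _) (le_max_left _ _)) hl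
  have hlR : 1 / δ + 1 ≤ (l : ℝ) := le_trans hl2 (by exact_mod_cast hl2')
  have hl0 : (1 : ℝ) < l := by linarith
  have hlpos : (0 : ℝ) < l := by linarith
  have hlδ : 1 ≤ ((l : ℝ) - 1) * δ := by
    have : 1 / δ ≤ (l : ℝ) - 1 := by linarith
    have h := mul_le_mul_of_nonneg_right this hδ.le
    rwa [one_div, inv_mul_cancel₀ hδ.ne'] at h
  refine ⟨?_, ?_, ?_⟩
  · rw [lt_div_iff₀ (by linarith), hrs]
    nlinarith
  · have h3 : q / l ≤ 3 := by
      rw [div_le_iff₀ hlpos]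
      linarith
    have h9 : 9 ≤ rs / (rs - 1) := by
      rw [le_div_iff₀ (by linarith), hrs]
      linarith
    linarith
  · have hqpos : 0 < q := by
      have : 0 < (1 / 2 + δ) * (2 * (l : ℝ) + 1) := by positivity
      linarith
    have h3 : q / l ≤ 3 := by
      rw [div_le_iff₀ hlpos]
      linarith
    have hq0 : 0 ≤ q / l := by positivity
    have hmin : δ / 4 ≤ min (1 - (q / l) * (rs - 1) / rs) (q / l / rs - 1) := by
      apply le_min
      · have h5 : (q / l) * (rs - 1) / rs ≤ 3 * (δ / 2) := by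
          rw [div_le_iff₀ (by linarith)]
          have e1 : rs - 1 = δ / 2 := by rw [hrs]; ring
          rw [e1]
          have h6 : (q / l) * (δ / 2) ≤ 3 * (δ / 2) := by
            apply mul_le_mul_of_nonneg_right h3 (by positivity)
          have h7 : 3 * (δ / 2) * 1 ≤ 3 * (δ / 2) * rs := by
            apply mul_le_mul_of_nonneg_left hrs1.le (by positivity)
          linarith
        linarith
      · have h8 : (1 + 2 * δ) ≤ q / l := by
          rw [le_div_iff₀ hlpos]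
          nlinarith
        have h9 : (1 + δ / 4) ≤ q / l / rs := by
          rw [le_div_iff₀ (by linarith)]
          refine le_trans ?_ h8
          rw [hrs]
          nlinarith
        linarith
    have hM : (Mc l m) ≤ (32 * (1 + 6 * (m : ℝ)) ^ 2) * l := by
      unfold Mc
      have h10 : 0 ≤ (1 + 6 * (m : ℝ)) ^ 2 := by positivity
      nlinarith
    have hM0 : 0 ≤ Mc l m := le_trans zero_le_one (one_le_Mc l m)
    have hX : ((1 : ℝ) / l) * (Mc l m) ^ θ ≤ δ / 8 := by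
      have h11 : (Mc l m) ^ θ ≤ ((32 * (1 + 6 * (m : ℝ)) ^ 2) * l) ^ θ :=
        Real.rpow_le_rpow hM0 hM hθ0
      have h12 : ((32 * (1 + 6 * (m : ℝ)) ^ 2) * l) ^ θ
          = (32 * (1 + 6 * (m : ℝ)) ^ 2) ^ θ * (l : ℝ) ^ θ :=
        Real.mul_rpow (by positivity) hlpos.le
      have h13 : (l : ℝ) ^ (θ - 1) = (l : ℝ) ^ θ / l := Real.rpow_sub_one hlpos.ne' θ
      have h14 := (hl1 l hl1').le
      rw [h13] at h14
      calc ((1 : ℝ) / l) * (Mc l m) ^ θ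
          ≤ ((1 : ℝ) / l) * ((32 * (1 + 6 * (m : ℝ)) ^ 2) ^ θ * (l : ℝ) ^ θ) := by
            rw [← h12]
            exact mul_le_mul_of_nonneg_left h11 (by positivity)
        _ = (32 * (1 + 6 * (m : ℝ)) ^ 2) ^ θ * ((l : ℝ) ^ θ / l) := by
            field_simp
        _ ≤ δ / 8 := h14
    have hX0 : 0 ≤ ((1 : ℝ) / l) * (Mc l m) ^ θ :=
      mul_nonneg (by positivity) (Real.rpow_nonneg hM0 θ)
    have hminpos : 0 < min (1 - (q / l) * (rs - 1) / rs) (q / l / rs - 1) :=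
      lt_of_lt_of_le (by positivity) hmin
    rw [div_le_iff₀ hminpos]
    linarith

end Pool.Agent.Lib.QR
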