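import Pool.Agent.Lib.MP_ba1c0b_an.F3
import Pool.Agent.Lib.MP_ba1c0b_an.D3g
import Pool.Agent.Lib.MP_ba1c0b_an.D2g
import Pool.Agent.Lib.MP_ba1c0b_an.C2g

/-!
H1: coercivity on the unit cube.
-/

set_option autoImplicit false

open MeasureTheory
open scoped ENNReal NNReal

namespace Pool.Agent.Lib.QR

private theorem h1g_add_rpow {x y t : ℝ} (hx : 0 ≤ x) (hy : 0 ≤ y) (ht : 0 ≤ t) :
    (x + y) ^ t ≤ 2 ^ t * (x ^ t + y ^ t) := by
  have h1 : x + y ≤ 2 * max x y := by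
    have := le_max_left x y
    have := le_max_right x y
    linarith
  have h2 : (x + y) ^ t ≤ (2 * max x y) ^ t := Real.rpow_le_rpow (by positivity) h1 ht
  rw [Real.mul_rpow (by norm_num) (le_max_of_le_left hx)] at h2
  have h3 : (max x y) ^ t ≤ x ^ t + y ^ t := by
    rcases le_total x y with h | h
    · rw [max_eq_right h]
      have := Real.rpow_nonneg hx t
      linarith
    · rw [max_eq_left h]
      have := Real.rpow_nonneg hy t
      linarith
  exact h2.trans (mul_le_mul_of_nonneg_left h3 (by positivity))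

/-- The nonlinear defect of a matrix. -/
private noncomputable def h1gH {n : ℕ} (l : ℕ) (X : E n →L[ℝ] E n) : V n :=
  ((‖fU l X‖ ^ ((1 : ℝ) / l) : ℝ) : ℂ) • fU l X - fV l X

private theorem h1g_continuous_H {n : ℕ} (l : ℕ) : Continuous (h1gH (n := n) l) := by
  unfold h1gH
  have h1 := continuous_fU (n := n) l
  have h2 := continuous_fV (n := n) l
  have h3 : Continuous fun X : E n →L[ℝ] E n => (‖fU l X‖ ^ ((1 : ℝ) / l) : ℝ) :=
    h1.norm.rpow_const fun _ => Or.inr (by positivity)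
  exact ((Complex.continuous_ofReal.comp h3).smul h1).sub h2

/-- Bounded continuous functions of the derivative of a compactly supported smooth map. -/
private theorem h1g_bdd {n : ℕ} {W : Type*} [NormedAddCommGroup W] (g : E n → E n)
    (hg : ContDiff ℝ ((⊤ : ℕ∞) : WithTop ℕ∞) g) (hc : HasCompactSupport g)
    (Φ : (E n →L[ℝ] E n) → W) (hΦ : Continuous Φ) :
    Continuous (fun x => Φ (fderiv ℝ g x)) ∧ ∃ K : ℝ, ∀ x, ‖Φ (fderiv ℝ g x)‖ ≤ K := by
  have h1 : Continuous (fderiv ℝ g) := hg.continuous_fderiv (by simp)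
  have h2 : HasCompactSupport (fderiv ℝ g) := hc.fderiv (𝕜 := ℝ)
  refine ⟨hΦ.comp h1, ?_⟩
  obtain ⟨K, hK⟩ := h2.isCompact.exists_bound_of_continuousOn (f := fun x => Φ (fderiv ℝ g x))
    (hΦ.comp h1).continuousOn
  refine ⟨max K ‖Φ 0‖, fun x => ?_⟩
  by_cases hx : x ∈ tsupport (fderiv ℝ g)
  · exact (hK x hx).trans (le_max_left _ _)
  · rw [image_eq_zero_of_notMem_tsupport hx]
    exact le_max_right _ _

/-- The numerical condition. -/
def GoodQ (M : ℝ) (l m : ℕ) (κ q : ℝ) : Prop :=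
  ∃ lam del : ℝ, 0 < lam ∧ q / l / (2 * m) - 1 < -lam ∧ 1 / (l : ℝ) < del ∧
    del < q / l * (2 * m - 1) / (2 * m) - 1 ∧ Kst M (2 * m) (q / l) lam del (1 / (l : ℝ)) ≤ κ

/-- The `L^{2m}` bound of the projection. -/
def BoundM (M : ℝ) (l m : ℕ) : Prop :=
  ∀ (S : Finset (Fin (2 * l + 1) → ℤ)) (a : (Fin (2 * l + 1) → ℤ) → V (2 * l + 1)),
    ∫ x, ‖tp S (fun ξ => Pj l ξ (a ξ)) x‖ ^ (2 * m) ∂(μT (2 * l + 1))
      ≤ M ^ (2 * m) * ∫ x, ‖tp S a x‖ ^ (2 * m) ∂(μT (2 * l + 1))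

/-- The a priori estimate on the cube. -/
private theorem h1g_cube (l m : ℕ) (hl : 1 ≤ l) (hm : 2 ≤ m) (M : ℝ) (hM : 1 ≤ M)
    (hb : BoundM M l m) (κ : ℝ) (hκ0 : 0 ≤ κ) (hκ1 : κ < 1) (q : ℝ) (hq : GoodQ M l m κ q)
    (hq0 : 0 < q)
    (g : E (2 * l + 1) → E (2 * l + 1))
    (hg : ContDiff ℝ ((⊤ : ℕ∞) : WithTop ℕ∞) g) (hc : HasCompactSupport g)
    (hs : tsupport g ⊆ cube (2 * l + 1)) :
    ∫ x in cube (2 * l + 1), ‖fU l (fderiv ℝ g x)‖ ^ (q / l)
      ≤ ((1 + M) / (1 - κ)) ^ (q / (l + 1))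
        * ∫ x in cube (2 * l + 1), ‖h1gH l (fderiv ℝ g x)‖ ^ (q / (l + 1)) := by
  have hl' : (1 : ℝ) ≤ l := by exact_mod_cast hl
  have hl0 : (0 : ℝ) < l := by linarith
  have hm1 : 1 ≤ m := by omega
  have hm2' : (2 : ℝ) ≤ m := by exact_mod_cast hm
  have hP : (2 : ℝ) < 2 * m := by linarith
  have : Fact (1 ≤ ENNReal.ofReal (2 * (m : ℝ))) := ⟨by
    rw [← ENNReal.ofReal_one]
    exact ENNReal.ofReal_le_ofReal (by linarith)⟩
  obtain ⟨lam, del, g1, g2, g3, g4, g5⟩ := hq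
  obtain ⟨T, hT, hTu, hTv⟩ := exists_T_gen l m hm1 M hM hb (2 * (m : ℝ)) rfl
  have hst : q / l / (1 + 1 / (l : ℝ)) = q / (l + 1) := by
    field_simp
  have hts : q / (l + 1) < q / l := div_lt_div_of_pos_left hq0 hl0 (by linarith)
  have hε : (0 : ℝ) < 1 / l := by positivity
  have hsP : q / l < 2 * m := by
    have : q / l / (2 * m) < 1 := by linarith
    rwa [div_lt_one (by linarith)] at this
  have htP : 2 * (m : ℝ) / (2 * m - 1) < q / l / (1 + 1 / (l : ℝ)) := by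
    have h1 : 1 + 1 / (l : ℝ) < q / l * (2 * m - 1) / (2 * m) := by linarith
    rw [div_lt_div_iff₀ (by linarith) (by linarith)]
    rw [lt_div_iff₀ (by linarith)] at h1
    linarith
  have hP1 : (1 : ℝ) < 2 * (m : ℝ) / (2 * m - 1) := by
    rw [one_lt_div (by linarith)]; linarith
  obtain ⟨cu, Ku, bu⟩ := h1g_bdd g hg hc (fun X => fU l X) (continuous_fU l)
  obtain ⟨cv, Kv, bv⟩ := h1g_bdd g hg hc (fun X => fV l X) (continuous_fV l)
  obtain ⟨cH, KH, bH⟩ := h1g_bdd g hg hc (fun X => h1gH l X) (h1g_continuous_H l)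
  have mu : ∀ p : ℝ≥0∞, MemLp (fun x => fU l (fderiv ℝ g (rep (2 * l + 1) x))) p
      (μT (2 * l + 1)) := fun p =>
    MemLp.of_bound (cu.measurable.comp measurable_rep).aestronglyMeasurable Ku
      (Filter.Eventually.of_forall fun x => bu _)
  have mv : ∀ p : ℝ≥0∞, MemLp (fun x => fV l (fderiv ℝ g (rep (2 * l + 1) x))) p
      (μT (2 * l + 1)) := fun p =>
    MemLp.of_bound (cv.measurable.comp measurable_rep).aestronglyMeasurable Kv
      (Filter.Eventually.of_forall fun x => bv _)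
  have hcl := hTu (q / l) _ (by rw [hst] at htP; linarith) (mu _) fun ξ y =>
      torus_closed l hl (by omega) g hg hc hs ξ y
  have hstab := fun G => (stab_gen (μT (2 * l + 1)) (P := 2 * (m : ℝ)) (M := M) hP hM T hT
    (s := q / l) (ε := 1 / (l : ℝ)) hε g1 g2 g3 g4
    (fun x => fU l (fderiv ℝ g (rep (2 * l + 1) x))) (mu _) hcl G).trans
      (mul_le_mul_of_nonneg_right (mul_le_mul_of_nonneg_right g5
        (Real.rpow_nonneg (integral_nonneg fun x => Real.rpow_nonneg (norm_nonneg _) _) _))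
        (Real.rpow_nonneg (integral_nonneg fun x => Real.rpow_nonneg (norm_nonneg _) _) _))
  have key := apriori_gen (μT (2 * l + 1)) (P := 2 * (m : ℝ)) (M := M) hP hM T hT
    (s := q / l) (ε := 1 / (l : ℝ)) hε hsP htP hκ1 hκ0
    (fun x => fU l (fderiv ℝ g (rep (2 * l + 1) x)))
    (fun x => fV l (fderiv ℝ g (rep (2 * l + 1) x))) (mu _) (mv _) hstab
    (hTv (q / l / (1 + 1 / (l : ℝ))) _ htP.le (mv _) fun ξ y =>
      torus_coclosed l (by omega) g hg hc hs ξ y)
  rw [hst] at key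
  have t1 : ∫ x in cube (2 * l + 1), ‖fU l (fderiv ℝ g x)‖ ^ (q / l)
      = ∫ x, ‖fU l (fderiv ℝ g (rep (2 * l + 1) x))‖ ^ (q / l) ∂(μT (2 * l + 1)) := by
    rw [← map_rep, integral_map measurable_rep.aemeasurable]
    exact (cu.norm.rpow_const fun _ => Or.inr (by positivity)).aestronglyMeasurable
  have t2 : ∫ x in cube (2 * l + 1), ‖h1gH l (fderiv ℝ g x)‖ ^ (q / (l + 1))
      = ∫ x, ‖h1gH l (fderiv ℝ g (rep (2 * l + 1) x))‖ ^ (q / (l + 1)) ∂(μT (2 * l + 1)) := by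
    rw [← map_rep, integral_map measurable_rep.aemeasurable]
    exact (cH.norm.rpow_const fun _ => Or.inr (by positivity)).aestronglyMeasurable
  rw [t1, t2]
  exact key

/-- The integral of the power of the norm as a lower integral. -/
private theorem h1g_lint {n : ℕ} {W : Type*} [NormedAddCommGroup W] {q : ℝ} (hq : 0 < q)
    (μ : Measure (E n)) (f : E n → W) (hf : MemLp f (ENNReal.ofReal q) μ) :
    Integrable (fun x => ‖f x‖ ^ q) μ ∧
      ENNReal.ofReal (∫ x, ‖f x‖ ^ q ∂μ) = ∫⁻ x, ‖f x‖ₑ ^ q ∂μ := by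
  have h1 : Integrable (fun x => ‖f x‖ ^ q) μ := by
    have h := hf.integrable_norm_rpow (by simpa using hq) ENNReal.ofReal_ne_top
    rwa [ENNReal.toReal_ofReal hq.le] at h
  refine ⟨h1, ?_⟩
  rw [ofReal_integral_eq_lintegral_ofReal h1
    (Filter.Eventually.of_forall fun x => Real.rpow_nonneg (norm_nonneg _) _)]
  refine lintegral_congr fun x => ?_
  rw [← ENNReal.ofReal_rpow_of_nonneg (norm_nonneg _) hq.le, ofReal_norm]

/-- Coercivity for smooth maps supported in the cube, from the numerical condition. -/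
theorem coercive_gen (l m : ℕ) (hl : 1 ≤ l) (hm : 2 ≤ m) (M : ℝ) (hM : 1 ≤ M)
    (hb : BoundM M l m) (κ : ℝ) (hκ0 : 0 ≤ κ) (hκ1 : κ < 1) :
    ∃ C : ℝ≥0, ∀ q : ℝ, 0 < q → q ≤ 2 * l + 1 → GoodQ M l m κ q →
      ∀ (g : E (2 * l + 1) → E (2 * l + 1))
        (A : E (2 * l + 1) → E (2 * l + 1) →L[ℝ] E (2 * l + 1)),
        ContDiff ℝ ((⊤ : ℕ∞) : WithTop ℕ∞) g → HasCompactSupport g →
        tsupport g ⊆ cube (2 * l + 1) →
        MemLp A (ENNReal.ofReal q) volume → (∀ᵐ x, Conf (A x)) →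
        (∀ x ∉ cube (2 * l + 1), A x = 0) →
        ∫⁻ x, ‖A x‖ₑ ^ q ≤ C * ∫⁻ x, ‖fderiv ℝ g x - A x‖ₑ ^ q := by
  obtain ⟨N, hN⟩ : ∃ N : ℝ, N = (1 + M) / (1 - κ) := ⟨_, rfl⟩
  have hN0 : 0 < N := by rw [hN]; exact div_pos (by linarith) (by linarith)
  obtain ⟨C1, hC1, e1⟩ := est1 (n := 2 * l + 1) l hl rfl (1 / (16 * N))
    (by positivity)
  obtain ⟨C2, hC2, e2⟩ := est2 (n := 2 * l + 1) l hl rfl
  have hl' : (1 : ℝ) ≤ l := by exact_mod_cast hl
  have hl0 : (0 : ℝ) < l := by linarith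
  have hm1 : (2 : ℝ) ≤ m := by exact_mod_cast hm
  obtain ⟨D, hD⟩ : ∃ D : ℝ, D = 1 + 8 * N * C1 + 2 * C2 := ⟨_, rfl⟩
  have hD1 : 1 ≤ D := by
    have : 0 ≤ 8 * N * C1 := by positivity
    rw [hD]
    linarith
  refine ⟨Real.toNNReal (4 * D ^ ((2 : ℝ))), ?_⟩
  intro q hq0 hqn hgood g A hg hgc hgs hA hAc hA0
  obtain ⟨t, ht⟩ : ∃ t : ℝ, t = q / (l + 1) := ⟨_, rfl⟩
  have hts : t < q / l := by
    rw [ht]
    exact div_lt_div_of_pos_left hq0 hl0 (by linarith)
  have ht1 : 1 ≤ t := by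
    obtain ⟨lam, del, g1, g2, g3, g4, g5⟩ := hgood
    have h1 : 1 + 1 / (l : ℝ) < q / l * (2 * m - 1) / (2 * m) := by linarith
    have h2 : q / l * (2 * m - 1) / (2 * m) ≤ q / l := by
      rw [div_le_iff₀ (by linarith)]
      have : 0 < q / l := by positivity
      nlinarith
    have h3 : 1 + 1 / (l : ℝ) < q / l := by linarith
    rw [lt_div_iff₀ hl0] at h3
    have h4 : (1 + 1 / (l : ℝ)) * l = l + 1 := by field_simp
    rw [ht, le_div_iff₀ (by linarith)]
    linarith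
  have htq : ((l : ℝ) + 1) * t = q := by
    rw [ht]
    field_simp
  have htq2 : (1 + (1 : ℝ) / l) * t = q / l := by
    rw [← htq]
    field_simp
  have htτ : t ≤ (2 : ℝ) := by
    rw [ht, div_le_iff₀ (by linarith)]
    linarith
  have key := h1g_cube l m hl hm M hM hb κ hκ0 hκ1 q hgood hq0 g hg hgc hgs
  rw [← ht, ← hN] at key
  have hpow : ∀ x : ℝ, 0 ≤ x → (x ^ (l + 1)) ^ t = x ^ q := by
    intro x hx
    rw [← Real.rpow_natCast, ← Real.rpow_mul hx]
    congr 1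
    push_cast
    exact htq
  -- the two pointwise bounds
  have p1 : ∀ᵐ x, ‖A x‖ ^ q ≤ 4 ^ t * ‖fU l (fderiv ℝ g x)‖ ^ (q / l)
      + (2 * C2) ^ t * ‖fderiv ℝ g x - A x‖ ^ q := by
    filter_upwards [hAc] with x hx
    have h := e2 (A x) (fderiv ℝ g x - A x) hx
    rw [add_sub_cancel] at h
    have h' := Real.rpow_le_rpow (by positivity) h (by linarith : 0 ≤ t)
    rw [hpow _ (norm_nonneg _)] at h'
    refine h'.trans ((h1g_add_rpow (by positivity) (by positivity) (by linarith)).trans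
      (le_of_eq ?_))
    rw [Real.mul_rpow (by norm_num) (by positivity), Real.mul_rpow hC2 (by positivity),
      hpow _ (norm_nonneg _), ← Real.rpow_mul (norm_nonneg _), htq2,
      Real.mul_rpow (by norm_num) hC2,
      show (4 : ℝ) = 2 * 2 by norm_num, Real.mul_rpow (by norm_num) (by norm_num)]
    ring
  have p2 : ∀ᵐ x, ‖h1gH l (fderiv ℝ g x)‖ ^ t
      ≤ (2 * (1 / (16 * N))) ^ t * ‖A x‖ ^ q
      + (2 * C1) ^ t * ‖fderiv ℝ g x - A x‖ ^ q := by
    filter_upwards [hAc] with x hx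
    have h := e1 (A x) (fderiv ℝ g x - A x) hx
    rw [add_sub_cancel] at h
    have h' := Real.rpow_le_rpow (norm_nonneg _) h (by linarith : 0 ≤ t)
    refine h'.trans ((h1g_add_rpow (by positivity) (by positivity) (by linarith)).trans
      (le_of_eq ?_))
    rw [Real.mul_rpow (by positivity) (by positivity), Real.mul_rpow hC1 (by positivity),
      hpow _ (norm_nonneg _), hpow _ (norm_nonneg _),
      Real.mul_rpow (by norm_num : (0 : ℝ) ≤ 2) (by positivity : 0 ≤ 1 / (16 * N)),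
      Real.mul_rpow (by norm_num) hC1]
    ring
  -- integrability
  have hG : MemLp (fun x => fderiv ℝ g x) (ENNReal.ofReal q) volume :=
    (hg.continuous_fderiv (by simp)).memLp_of_hasCompactSupport (hgc.fderiv (𝕜 := ℝ))
  have hB : MemLp (fun x => fderiv ℝ g x - A x) (ENNReal.ofReal q) volume := hG.sub hA
  obtain ⟨iA, lA⟩ := h1g_lint hq0 volume A hA
  obtain ⟨iB, lB⟩ := h1g_lint hq0 volume _ hB
  have iA' : Integrable (fun x => ‖A x‖ ^ q) (volume.restrict (cube (2 * l + 1))) :=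
    iA.restrict
  have iB' : Integrable (fun x => ‖fderiv ℝ g x - A x‖ ^ q)
      (volume.restrict (cube (2 * l + 1))) := iB.restrict
  have hprob : IsProbabilityMeasure (volume.restrict (cube (2 * l + 1))) := by
    rw [← map_rep]
    exact Measure.isProbabilityMeasure_map measurable_rep.aemeasurable
  obtain ⟨cu, Ku, bu⟩ := h1g_bdd g hg hgc (fun X => fU l X) (continuous_fU l)
  obtain ⟨cH, KH, bH⟩ := h1g_bdd g hg hgc (fun X => h1gH l X) (h1g_continuous_H l)
  have iU : Integrable (fun x => ‖fU l (fderiv ℝ g x)‖ ^ (q / l))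
      (volume.restrict (cube (2 * l + 1))) := by
    refine Integrable.of_bound
      (cu.norm.rpow_const fun _ => Or.inr (by positivity)).aestronglyMeasurable
      (Ku ^ (q / l)) (Filter.Eventually.of_forall fun x => ?_)
    rw [Real.norm_of_nonneg (by positivity)]
    exact Real.rpow_le_rpow (norm_nonneg _) (bu x) (by positivity)
  have iH : Integrable (fun x => ‖h1gH l (fderiv ℝ g x)‖ ^ t)
      (volume.restrict (cube (2 * l + 1))) := by
    refine Integrable.of_bound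
      (cH.norm.rpow_const fun _ => Or.inr (by positivity)).aestronglyMeasurable
      (KH ^ t) (Filter.Eventually.of_forall fun x => ?_)
    rw [Real.norm_of_nonneg (by positivity)]
    exact Real.rpow_le_rpow (norm_nonneg _) (bH x) (by positivity)
  -- the integrated inequalities
  have q1 : ∫ x in cube (2 * l + 1), ‖A x‖ ^ q
      ≤ 4 ^ t * (∫ x in cube (2 * l + 1), ‖fU l (fderiv ℝ g x)‖ ^ (q / l))
        + (2 * C2) ^ t * ∫ x in cube (2 * l + 1), ‖fderiv ℝ g x - A x‖ ^ q := by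
    rw [← integral_const_mul, ← integral_const_mul, ← integral_add (iU.const_mul _)
      (iB'.const_mul _)]
    exact integral_mono_ae iA' ((iU.const_mul _).add (iB'.const_mul _)) (ae_restrict_of_ae p1)
  have q2 : ∫ x in cube (2 * l + 1), ‖h1gH l (fderiv ℝ g x)‖ ^ t
      ≤ (2 * (1 / (16 * N))) ^ t * (∫ x in cube (2 * l + 1), ‖A x‖ ^ q)
        + (2 * C1) ^ t * ∫ x in cube (2 * l + 1), ‖fderiv ℝ g x - A x‖ ^ q := by
    rw [← integral_const_mul, ← integral_const_mul, ← integral_add (iA'.const_mul _)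
      (iB'.const_mul _)]
    exact integral_mono_ae iH ((iA'.const_mul _).add (iB'.const_mul _)) (ae_restrict_of_ae p2)
  have hIa : ∫ x in cube (2 * l + 1), ‖A x‖ ^ q = ∫ x, ‖A x‖ ^ q := by
    refine setIntegral_eq_integral_of_forall_compl_eq_zero fun x hx => ?_
    rw [hA0 x hx, norm_zero, Real.zero_rpow hq0.ne']
  have hIb : ∫ x in cube (2 * l + 1), ‖fderiv ℝ g x - A x‖ ^ q
      ≤ ∫ x, ‖fderiv ℝ g x - A x‖ ^ q :=
    setIntegral_le_integral iB (Filter.Eventually.of_forall fun x => by positivity)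
  have hIa0 : 0 ≤ ∫ x, ‖A x‖ ^ q := integral_nonneg fun x => by positivity
  have hIb0 : 0 ≤ ∫ x in cube (2 * l + 1), ‖fderiv ℝ g x - A x‖ ^ q :=
    integral_nonneg fun x => by positivity
  rw [hIa] at q1 q2
  rw [← lA, ← lB]
  have fin : ∫ x, ‖A x‖ ^ q
      ≤ 4 * D ^ ((2 : ℝ)) * ∫ x, ‖fderiv ℝ g x - A x‖ ^ q := by
    have k1 : (4 : ℝ) ^ t * (N ^ t * (2 * (1 / (16 * N))) ^ t)
        ≤ 1 / 2 := by
      rw [← Real.mul_rpow (by positivity) (by positivity),
        ← Real.mul_rpow (by norm_num) (by positivity)]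
      have : (4 : ℝ) * (N * (2 * (1 / (16 * N)))) = 1 / 2 := by
        have : N ≠ 0 := hN0.ne'
        field_simp
        norm_num
      rw [this]
      calc ((1 : ℝ) / 2) ^ t ≤ (1 / 2) ^ (1 : ℝ) :=
            Real.rpow_le_rpow_of_exponent_ge (by norm_num) (by norm_num) ht1
        _ = 1 / 2 := Real.rpow_one _
    have k2 : (4 : ℝ) ^ t * (N ^ t * (2 * C1) ^ t)
        ≤ D ^ ((2 : ℝ)) := by
      rw [← Real.mul_rpow (by positivity) (by positivity),
        ← Real.mul_rpow (by norm_num) (by positivity)]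
      refine (Real.rpow_le_rpow (by positivity) ?_ (by linarith)).trans
        (Real.rpow_le_rpow_of_exponent_le hD1 htτ)
      rw [hD]
      nlinarith
    have k3 : (2 * C2) ^ t ≤ D ^ ((2 : ℝ)) := by
      refine (Real.rpow_le_rpow (by positivity) ?_ (by linarith)).trans
        (Real.rpow_le_rpow_of_exponent_le hD1 htτ)
      have : 0 ≤ 8 * N * C1 := by positivity
      rw [hD]
      linarith
    have s1 : (∫ x in cube (2 * l + 1), ‖fU l (fderiv ℝ g x)‖ ^ (q / l))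
        ≤ N ^ t * ((2 * (1 / (16 * N))) ^ t * (∫ x, ‖A x‖ ^ q)
          + (2 * C1) ^ t * ∫ x in cube (2 * l + 1), ‖fderiv ℝ g x - A x‖ ^ q) :=
      key.trans (mul_le_mul_of_nonneg_left q2 (by positivity))
    have s2 := mul_le_mul_of_nonneg_left s1 (by positivity : (0 : ℝ) ≤ 4 ^ t)
    have s3 := mul_le_mul_of_nonneg_right k1 hIa0
    have s4 := mul_le_mul_of_nonneg_right k2 hIb0
    have s5 := mul_le_mul_of_nonneg_right k3 hIb0
    have s6 := mul_le_mul_of_nonneg_left hIb (by positivity : (0 : ℝ) ≤ D ^ ((2 : ℝ)))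
    nlinarith
  change _ ≤ ENNReal.ofReal (4 * D ^ ((2 : ℝ))) * _
  rw [← ENNReal.ofReal_mul (by positivity)]
  exact ENNReal.ofReal_le_ofReal fin

end Pool.Agent.Lib.QR
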