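import Pool.Agent.Lib.MP_ba1c0b_an.M1
import Pool.Agent.Lib.MP_ba1c0b_an.M2
import Pool.Agent.Lib.MP_ba1c0b_an.A4

/-!
H2: from smooth maps supported in the unit cube to all compactly supported Sobolev maps.
-/

set_option autoImplicit false

open MeasureTheory Filter Topology
open scoped ENNReal NNReal

namespace Pool.Agent.Lib.QR

variable {n : ℕ}

/-- Change of variables `x ↦ L x`. -/
private theorem h2_lintegral_scale {L : ℝ} (hL : L ≠ 0) (f : E n → ℝ≥0∞) :
    ∫⁻ x, f (L • x) = ENNReal.ofReal |(L ^ n)⁻¹| * ∫⁻ x, f x := by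
  have h1 : MeasurableEmbedding (fun x : E n => L • x) := measurableEmbedding_const_smul₀ hL
  have h2 : Measure.map (fun x : E n => L • x) volume
      = ENNReal.ofReal |(L ^ n)⁻¹| • (volume : Measure (E n)) := by
    have := Measure.map_addHaar_smul (volume : Measure (E n)) hL
    rwa [finrank_euclideanSpace, Fintype.card_fin] at this
  rw [← h1.lintegral_map, h2, lintegral_smul_measure, smul_eq_mul]

/-- A norm of a point outside of the cube. -/
private theorem h2_norm_of_notMem {x : E n} (hx : x ∉ cube n) : 1 / 2 ≤ ‖x‖ := by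
  simp only [cube, Set.mem_ofPred_eq, not_forall, not_lt] at hx
  obtain ⟨i, hi⟩ := hx
  calc (1 : ℝ) / 2 ≤ |x i| := hi
    _ = ‖x i‖ := rfl
    _ ≤ ‖x‖ := PiLp.norm_apply_le x i

/-- A limit in `ℝ≥0∞`. -/
private theorem h2_limit {a b c : ℝ≥0∞} {u : ℕ → ℝ≥0∞} (hc : c ≠ ∞)
    (hu : Tendsto u atTop (𝓝 0)) (h : ∀ k, a ≤ c * (u k + b)) : a ≤ c * b := by
  have h1 : Tendsto (fun k => c * (u k + b)) atTop (𝓝 (c * (0 + b))) :=
    ENNReal.Tendsto.const_mul (hu.add tendsto_const_nhds) (Or.inr hc)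
  rw [zero_add] at h1
  exact ge_of_tendsto' h1 h

/-- Triangle inequality, for a general target. -/
private theorem h2_tri {α F : Type*} [MeasurableSpace α] [NormedAddCommGroup F] (μ : Measure α)
    (f g h : α → F) (hf : AEStronglyMeasurable f μ) (hg : AEStronglyMeasurable g μ)
    (hh : AEStronglyMeasurable h μ) (p : ℝ≥0∞) (hp : 1 ≤ p) :
    eLpNorm (fun x => f x - h x) p μ
      ≤ eLpNorm (fun x => f x - g x) p μ + eLpNorm (fun x => g x - h x) p μ := by
  have : (fun x => f x - h x) = (fun x => f x - g x) + (fun x => g x - h x) := by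
    ext1 x
    simp
  rw [this]
  exact eLpNorm_add_le (hf.sub hg) (hg.sub hh) hp

/-- The smooth case. -/
private theorem h2_smooth {q : ℝ} (C : ℝ≥0)
    (h : ∀ (g : E n → E n) (A : E n → E n →L[ℝ] E n),
        ContDiff ℝ ((⊤ : ℕ∞) : WithTop ℕ∞) g → HasCompactSupport g → tsupport g ⊆ cube n →
        MemLp A (ENNReal.ofReal q) volume → (∀ᵐ x, Conf (A x)) → (∀ x ∉ cube n, A x = 0) →
        ∫⁻ x, ‖A x‖ₑ ^ q ≤ C * ∫⁻ x, ‖fderiv ℝ g x - A x‖ₑ ^ q)
    (g : E n → E n) (A : E n → E n →L[ℝ] E n) (R : ℝ)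
    (hg : ContDiff ℝ ((⊤ : ℕ∞) : WithTop ℕ∞) g) (hgR : ∀ x, R < ‖x‖ → g x = 0)
    (hA : MemLp A (ENNReal.ofReal q) volume) (hAc : ∀ᵐ x, Conf (A x))
    (hAR : ∀ x, R < ‖x‖ → A x = 0) :
    ∫⁻ x, ‖A x‖ₑ ^ q ≤ C * ∫⁻ x, ‖fderiv ℝ g x - A x‖ₑ ^ q := by
  set L : ℝ := 4 * |R| + 4 with hLdef
  have hLpos : 0 < L := by positivity
  have hL0 : L ≠ 0 := hLpos.ne'
  have hbig : ∀ x : E n, 1 / 4 < ‖x‖ → R < ‖L • x‖ := by
    intro x hx
    rw [norm_smul, Real.norm_eq_abs, abs_of_pos hLpos]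
    have h1 : L * (1 / 4) < L * ‖x‖ := mul_lt_mul_of_pos_left hx hLpos
    have h2 : R ≤ |R| := le_abs_self R
    rw [hLdef] at h1 ⊢
    linarith
  set g1 : E n → E n := fun x => L⁻¹ • g (L • x) with hg1
  set A1 : E n → E n →L[ℝ] E n := fun x => A (L • x) with hA1
  have hg1s : ContDiff ℝ ((⊤ : ℕ∞) : WithTop ℕ∞) g1 :=
    (hg.comp (contDiff_const_smul L)).const_smul L⁻¹
  have hg1z : ∀ x : E n, 1 / 4 < ‖x‖ → g1 x = 0 := by
    intro x hx
    simp only [hg1]
    rw [hgR _ (hbig x hx), smul_zero]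
  have hts : tsupport g1 ⊆ Metric.closedBall (0 : E n) (1 / 4) := by
    apply closure_minimal _ Metric.isClosed_closedBall
    intro x hx
    rw [mem_closedBall_zero_iff]
    by_contra hcon
    exact hx (hg1z x (not_le.mp hcon))
  have hcs : HasCompactSupport g1 :=
    HasCompactSupport.of_support_subset_isCompact (isCompact_closedBall (0 : E n) (1 / 4))
      ((subset_tsupport g1).trans hts)
  have htc : tsupport g1 ⊆ cube n := by
    intro x hx
    have hx1 := hts hx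
    rw [mem_closedBall_zero_iff] at hx1
    by_contra hcon
    have := h2_norm_of_notMem hcon
    linarith
  have hemb : MeasurableEmbedding (fun x : E n => L • x) := measurableEmbedding_const_smul₀ hL0
  have hmap : Measure.map (fun x : E n => L • x) volume
      = ENNReal.ofReal |(L ^ n)⁻¹| • (volume : Measure (E n)) := by
    have := Measure.map_addHaar_smul (volume : Measure (E n)) hL0
    rwa [finrank_euclideanSpace, Fintype.card_fin] at this
  have hA1m : MemLp A1 (ENNReal.ofReal q) volume := by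
    have h1 : MemLp A (ENNReal.ofReal q) (Measure.map (fun x : E n => L • x) volume) := by
      rw [hmap]
      exact hA.smul_measure ENNReal.ofReal_ne_top
    exact (hemb.memLp_map_measure_iff).mp h1
  have hA1c : ∀ᵐ x, Conf (A1 x) := by
    have h1 : ∀ᵐ x ∂(Measure.map (fun x : E n => L • x) volume), Conf (A x) := by
      rw [hmap]
      exact Measure.ae_smul_measure hAc _
    exact (hemb.ae_map_iff).mp h1
  have hA1z : ∀ x ∉ cube n, A1 x = 0 := by
    intro x hx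
    apply hAR
    apply hbig
    have := h2_norm_of_notMem hx
    linarith
  have hfd : ∀ x, fderiv ℝ g1 x = fderiv ℝ g (L • x) := by
    intro x
    have hgd : Differentiable ℝ g := hg.differentiable (by simp)
    have h1 : HasFDerivAt (fun y : E n => L • y) (L • ContinuousLinearMap.id ℝ (E n)) x :=
      (hasFDerivAt_id x).const_smul L
    have h2 : HasFDerivAt g1
        (L⁻¹ • ((fderiv ℝ g (L • x)).comp (L • ContinuousLinearMap.id ℝ (E n)))) x :=
      ((hgd (L • x)).hasFDerivAt.comp x h1).const_smul L⁻¹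
    rw [h2.fderiv]
    ext v i
    simp [hL0]
  have key := h g1 A1 hg1s hcs htc hA1m hA1c hA1z
  have e1 : ∫⁻ x, ‖A1 x‖ₑ ^ q = ENNReal.ofReal |(L ^ n)⁻¹| * ∫⁻ x, ‖A x‖ₑ ^ q :=
    h2_lintegral_scale hL0 (fun x => ‖A x‖ₑ ^ q)
  have e2 : ∫⁻ x, ‖fderiv ℝ g1 x - A1 x‖ₑ ^ q
      = ENNReal.ofReal |(L ^ n)⁻¹| * ∫⁻ x, ‖fderiv ℝ g x - A x‖ₑ ^ q := by
    rw [← h2_lintegral_scale hL0 (fun x => ‖fderiv ℝ g x - A x‖ₑ ^ q)]
    exact lintegral_congr fun x => by rw [hfd x]
  rw [e1, e2] at key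
  have hc0 : ENNReal.ofReal |(L ^ n)⁻¹| ≠ 0 := by
    rw [Ne, ENNReal.ofReal_eq_zero, not_le]
    positivity
  rw [mul_left_comm] at key
  exact (ENNReal.mul_le_mul_iff_right hc0 ENNReal.ofReal_ne_top).mp key

/-- PROOF. Scaling: for `g`, `A` vanishing for `‖x‖ > R` put `g_R x = g (L x) / L`, `A_R x = A (L x)` with
`L = 4 R + 4` (support in the cube), `Dg_R x = Dg (L x)`; both integrals scale by `L^(-n)`.  Smooth to Sobolev:
`g_k → g` (`SobC.approx`), `∫ ‖A‖^q ≤ C ∫ ‖fderiv g_k - A‖^q → C ∫ ‖Dg - A‖^q`. -/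
theorem coer_of_cube {q : ℝ} (hq : 1 ≤ q) (C : ℝ≥0)
    (h : ∀ (g : E n → E n) (A : E n → E n →L[ℝ] E n),
        ContDiff ℝ ((⊤ : ℕ∞) : WithTop ℕ∞) g → HasCompactSupport g → tsupport g ⊆ cube n →
        MemLp A (ENNReal.ofReal q) volume → (∀ᵐ x, Conf (A x)) → (∀ x ∉ cube n, A x = 0) →
        ∫⁻ x, ‖A x‖ₑ ^ q ≤ C * ∫⁻ x, ‖fderiv ℝ g x - A x‖ₑ ^ q) :
    Coer (n := n) q C := by
  intro g Dg A hS hA hAc hAR
  obtain ⟨R1, hR1⟩ := hAR
  obtain ⟨R0, gk, hgk, hgk0, -, hlim⟩ := hS.approx hq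
  have hq0 : 0 < q := lt_of_lt_of_le one_pos hq
  have hp0 : ENNReal.ofReal q ≠ 0 := by
    rw [Ne, ENNReal.ofReal_eq_zero, not_le]; exact hq0
  have hp1 : 1 ≤ ENNReal.ofReal q := by
    rw [← ENNReal.ofReal_one]; exact ENNReal.ofReal_le_ofReal hq
  have hen : ∀ f : E n → E n →L[ℝ] E n,
      eLpNorm f (ENNReal.ofReal q) volume = (∫⁻ x, ‖f x‖ₑ ^ q) ^ (1 / q) := by
    intro f
    rw [eLpNorm_eq_lintegral_rpow_enorm_toReal hp0 ENNReal.ofReal_ne_top,
      ENNReal.toReal_ofReal hq0.le]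
  have hcne : (C : ℝ≥0∞) ^ (1 / q) ≠ ∞ :=
    ENNReal.rpow_ne_top_of_nonneg (by positivity) ENNReal.coe_ne_top
  have hk1 : ∀ k, eLpNorm A (ENNReal.ofReal q) volume ≤ (C : ℝ≥0∞) ^ (1 / q)
        * eLpNorm (fun x => fderiv ℝ (gk k) x - A x) (ENNReal.ofReal q) volume := by
    intro k
    have h1 := h2_smooth C h (gk k) A (max R0 R1) (hgk k)
      (fun x hx => hgk0 k x (lt_of_le_of_lt (le_max_left _ _) hx)) hA hAc
      (fun x hx => hR1 x (lt_of_le_of_lt (le_max_right _ _) hx))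
    rw [hen, hen, ← ENNReal.mul_rpow_of_nonneg _ _ (by positivity)]
    exact ENNReal.rpow_le_rpow h1 (by positivity)
  have hfin : eLpNorm A (ENNReal.ofReal q) volume ≤ (C : ℝ≥0∞) ^ (1 / q)
        * eLpNorm (fun x => Dg x - A x) (ENNReal.ofReal q) volume := by
    generalize (C : ℝ≥0∞) ^ (1 / q) = c at hk1 hcne ⊢
    have hk : ∀ k, eLpNorm A (ENNReal.ofReal q) volume
        ≤ c * (eLpNorm (fun x => fderiv ℝ (gk k) x - Dg x) (ENNReal.ofReal q) volume
          + eLpNorm (fun x => Dg x - A x) (ENNReal.ofReal q) volume) := by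
      intro k
      refine (hk1 k).trans (mul_le_mul_right ?_ _)
      exact h2_tri volume (fderiv ℝ (gk k)) Dg A
        (((hgk k).continuous_fderiv (by simp)).aestronglyMeasurable) hS.memD.1 hA.1 _ hp1
    exact h2_limit hcne hlim hk
  rw [hen, hen, ← ENNReal.mul_rpow_of_nonneg _ _ (by positivity)] at hfin
  exact (ENNReal.rpow_le_rpow_iff (by positivity)).mp hfin

end Pool.Agent.Lib.QR
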