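import Pool.Agent.Lib.MP_ba1c0b_an.B4

/-!
H3: the quantitative form of the numerical condition.
-/

set_option autoImplicit false

namespace Pool.Agent.Lib.QR

/-- The numerical condition of `coercive_num` for all `q` in `[q0, 2 l + 1]`. -/
def NumCond (l m : ℕ) (rs q0 : ℝ) : Prop :=
  1 ≤ l ∧ 1 ≤ m ∧ (2 * m : ℝ) / (2 * m - 1) < rs ∧ rs < 2 ∧
    ∀ q : ℝ, q0 ≤ q → q ≤ 2 * l + 1 →
      rs < q / (l + 1) ∧ q / l < rs / (rs - 1) ∧
      ((1 : ℝ) / l) * (Mc l m) ^ ((1 / rs - 1 / 2) / (1 / 2 - 1 / (2 * m : ℝ)))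
        / min (1 - (q / l) * (rs - 1) / rs) (q / l / rs - 1) ≤ 1 / 2

theorem num_quant (δ : ℝ) (hδ : 0 < δ) (hδ' : δ ≤ 1 / 4) (l : ℕ) (hl : 1 / δ ≤ l)
    (hbig : 193600 / δ ^ 3 ≤ (l : ℝ) ^ (δ / 2)) :
    ∃ m : ℕ, NumCond l m (1 + δ / 2) ((1 / 2 + δ) * (2 * l + 1)) := by
  have hl4 : (4 : ℝ) ≤ l := by
    refine le_trans ?_ hl
    rw [le_div_iff₀ hδ]; linarith
  have hl0 : (0 : ℝ) < l := by linarith
  have hl1 : 1 ≤ l := by exact_mod_cast (show (1 : ℝ) ≤ l by linarith)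
  obtain ⟨m, hm1, hm2⟩ : ∃ m : ℕ, 8 / δ ≤ m ∧ (m : ℝ) < 8 / δ + 1 :=
    ⟨⌈8 / δ⌉₊, Nat.le_ceil _, Nat.ceil_lt_add_one (by positivity)⟩
  have hδ1 : 1 ≤ 1 / (4 * δ) := by rw [le_div_iff₀ (by positivity)]; linarith
  have e8 : 8 / δ = 8 * (1 / δ) := by ring
  have e4 : 1 / (4 * δ) = (1 / δ) / 4 := by field_simp
  have hd4 : 4 ≤ 1 / δ := by rw [le_div_iff₀ hδ]; linarith
  have hm9 : (m : ℝ) ≤ 9 * (1 / δ) := by
    rw [e8] at hm2
    linarith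
  have hm32 : (32 : ℝ) ≤ m := by
    rw [e8] at hm1
    linarith
  have hm1' : 1 ≤ m := by exact_mod_cast (show (1 : ℝ) ≤ m by linarith)
  refine ⟨m, hl1, hm1', ?_, by linarith, ?_⟩
  · rw [div_lt_iff₀ (by linarith)]
    have : 8 ≤ δ * m := by
      rw [div_le_iff₀ hδ] at hm1
      linarith
    nlinarith
  intro q hq1 hq2
  set rs : ℝ := 1 + δ / 2 with hrs
  have hrs1 : 1 < rs := by rw [hrs]; linarith
  have hrs0 : 0 < rs := by linarith
  have hrm : rs - 1 = δ / 2 := by rw [hrs]; ring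
  -- q / l
  have hql1 : 1 + 2 * δ ≤ q / l := by
    rw [le_div_iff₀ hl0]
    nlinarith
  have hql2 : q / l ≤ 3 := by
    rw [div_le_iff₀ hl0]
    linarith
  have hlδ : 1 ≤ δ * l := by
    rw [div_le_iff₀ hδ] at hl
    linarith
  have c1 : rs < q / (l + 1) := by
    rw [lt_div_iff₀ (by linarith)]
    refine lt_of_lt_of_le ?_ hq1
    rw [hrs]
    nlinarith
  have c2 : q / l < rs / (rs - 1) := by
    refine lt_of_le_of_lt hql2 ?_
    rw [hrm, lt_div_iff₀ (by linarith)]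
    linarith
  refine ⟨c1, c2, ?_⟩
  -- rho
  have hρ : δ ≤ min (1 - (q / l) * (rs - 1) / rs) (q / l / rs - 1) := by
    refine le_min ?_ ?_
    · have : (q / l) * (rs - 1) / rs ≤ 3 * (δ / 2) := by
        rw [div_le_iff₀ hrs0, hrm]
        have : q / l * (δ / 2) ≤ 3 * (δ / 2) := by nlinarith
        nlinarith
      linarith
    · rw [le_sub_iff_add_le, le_div_iff₀ hrs0]
      refine le_trans ?_ hql1
      rw [hrs]
      nlinarith
  -- theta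
  have hm0 : (0 : ℝ) < m := by linarith
  have h2m : 1 / (2 * m : ℝ) ≤ δ / 16 := by
    rw [div_le_div_iff₀ (by linarith) (by norm_num)]
    rw [div_le_iff₀ hδ] at hm1
    linarith
  have hθ : (1 / rs - 1 / 2) / (1 / 2 - 1 / (2 * m : ℝ)) ≤ 1 - δ / 2 := by
    have hden : 0 < 1 / 2 - 1 / (2 * m : ℝ) := by linarith
    rw [div_le_iff₀ hden]
    have h1 : 1 / rs ≤ 1 - δ / 2 + δ ^ 2 / 4 := by
      rw [div_le_iff₀ hrs0, hrs]
      nlinarith [pow_pos hδ 3]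
    have h2 : (1 - δ / 2) * (1 / 2 - δ / 16) ≤ (1 - δ / 2) * (1 / 2 - 1 / (2 * m : ℝ)) :=
      mul_le_mul_of_nonneg_left (by linarith) (by linarith)
    nlinarith
  have hM1 : 1 ≤ Mc l m := one_le_Mc l m
  have hMl : (l : ℝ) ≤ Mc l m := by
    unfold Mc
    nlinarith [sq_nonneg (6 * (m : ℝ)), mul_nonneg hl0.le hm0.le]
  have hMu : Mc l m ≤ 96800 / δ ^ 2 * l := by
    unfold Mc
    have h3 : 1 + 6 * (m : ℝ) ≤ 55 * (1 / δ) := by linarith
    have h4 : (1 + 6 * (m : ℝ)) ^ 2 ≤ (55 * (1 / δ)) ^ 2 := by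
      apply pow_le_pow_left₀ (by positivity) h3
    have h5 : 96800 / δ ^ 2 * (l : ℝ) = 16 * (2 * l) * (55 * (1 / δ)) ^ 2 := by
      field_simp; ring
    rw [h5]
    have h6 : (l : ℝ) + 1 ≤ 2 * l := by linarith
    have h7 : 16 * ((l : ℝ) + 1) ≤ 16 * (2 * l) := by linarith
    exact mul_le_mul h7 h4 (by positivity) (by positivity)
  have hMθ : (Mc l m) ^ ((1 / rs - 1 / 2) / (1 / 2 - 1 / (2 * m : ℝ)))
      ≤ Mc l m * ((l : ℝ) ^ (δ / 2))⁻¹ := by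
    calc (Mc l m) ^ ((1 / rs - 1 / 2) / (1 / 2 - 1 / (2 * m : ℝ)))
        ≤ (Mc l m) ^ (1 - δ / 2) := Real.rpow_le_rpow_of_exponent_le hM1 hθ
      _ = Mc l m * ((Mc l m) ^ (δ / 2))⁻¹ := by
          rw [Real.rpow_sub (by linarith), Real.rpow_one, div_eq_mul_inv]
      _ ≤ _ := by
          apply mul_le_mul_of_nonneg_left _ (by linarith)
          apply inv_anti₀ (Real.rpow_pos_of_pos hl0 _)
          exact Real.rpow_le_rpow hl0.le hMl (by linarith)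
  have hL : 0 < (l : ℝ) ^ (δ / 2) := Real.rpow_pos_of_pos hl0 _
  have hnum : ((1 : ℝ) / l) * (Mc l m) ^ ((1 / rs - 1 / 2) / (1 / 2 - 1 / (2 * m : ℝ))) ≤ δ / 2 := by
    calc ((1 : ℝ) / l) * (Mc l m) ^ ((1 / rs - 1 / 2) / (1 / 2 - 1 / (2 * m : ℝ)))
        ≤ (1 / l) * ((96800 / δ ^ 2 * l) * ((l : ℝ) ^ (δ / 2))⁻¹) := by
          apply mul_le_mul_of_nonneg_left _ (by positivity)
          exact hMθ.trans (mul_le_mul_of_nonneg_right hMu (by positivity))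
      _ = 96800 / δ ^ 2 * ((l : ℝ) ^ (δ / 2))⁻¹ := by field_simp
      _ ≤ 96800 / δ ^ 2 * (193600 / δ ^ 3)⁻¹ := by
          apply mul_le_mul_of_nonneg_left _ (by positivity)
          exact inv_anti₀ (by positivity) hbig
      _ = δ / 2 := by field_simp; norm_num
  have hρ0 : 0 < min (1 - (q / l) * (rs - 1) / rs) (q / l / rs - 1) := lt_of_lt_of_le hδ hρ
  rw [div_le_iff₀ hρ0]
  linarith

end Pool.Agent.Lib.QR
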