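import Pool.Agent.Lib.MP_ba1c0b_an.H3

/-!
H4: the numerical condition with `δ = 64 log log n / log n`, and for `q ≥ n - 1`, `n ≥ 401`.
-/

set_option autoImplicit false

namespace Pool.Agent.Lib.QR

theorem num_rate (l : ℕ) (hl : 1 ≤ l)
    (hδ' : 64 * (Real.log (Real.log (2 * l + 1)) / Real.log (2 * l + 1)) ≤ 1 / 4) :
    ∃ (m : ℕ) (rs : ℝ), NumCond l m rs
      ((1 / 2 + 64 * (Real.log (Real.log (2 * l + 1)) / Real.log (2 * l + 1))) * (2 * l + 1)) := by
  have hl' : (1 : ℝ) ≤ l := by exact_mod_cast hl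
  set n : ℝ := 2 * l + 1 with hn
  have hn3 : 3 ≤ n := by rw [hn]; linarith
  set L : ℝ := Real.log n with hL
  set LL : ℝ := Real.log L with hLL
  have hL1 : 1.09 < L := by
    have h1 : Real.log 3 ≤ L := Real.log_le_log (by norm_num) hn3
    have h2 : (1.09 : ℝ) < Real.log 3 := by
      rw [Real.lt_log_iff_exp_lt (by norm_num)]
      have h3 := Real.exp_one_lt_d9
      have h4 : Real.exp 1.09 = Real.exp 1 * Real.exp 0.09 := by
        rw [← Real.exp_add]; norm_num
      have h5 : Real.exp 0.09 < 1.1 := by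
        have := Real.exp_bound_div_one_sub_of_interval' (x := 0.09) (by norm_num) (by norm_num)
        refine lt_of_lt_of_le this ?_
        norm_num
      rw [h4]
      have h6 := Real.exp_pos 1
      have h7 := Real.exp_pos 0.09
      nlinarith
    linarith
  have hL0 : 0 < L := by linarith
  have hLLpos : 0 < LL := Real.log_pos (by linarith)
  have hq : 256 * LL ≤ L := by
    have h1 : 64 * (LL / L) ≤ 1 / 4 := hδ'
    rw [← mul_div_assoc, div_le_iff₀ hL0] at h1
    linarith
  have hLL1 : 1 ≤ LL := by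
    by_contra hcon
    push Not at hcon
    have h1 : L < Real.exp 1 := by
      rw [← Real.log_lt_iff_lt_exp hL0]; exact hcon
    have h2 := Real.exp_one_lt_d9
    have h3 : LL ≤ 0.0107 := by linarith
    have h4 : L ≤ Real.exp 0.0107 := by
      rw [← Real.log_le_iff_le_exp hL0]; exact h3
    have h5 : Real.exp 0.0107 < 1.02 := by
      have := Real.exp_bound_div_one_sub_of_interval' (x := 0.0107) (by norm_num) (by norm_num)
      refine lt_of_lt_of_le this ?_
      norm_num
    linarith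
  set δ : ℝ := 64 * (LL / L) with hδ
  have hδ0 : 0 < δ := by rw [hδ]; positivity
  have hδL : δ * L = 64 * LL := by rw [hδ]; field_simp
  have hLn : L ≤ n - 1 := Real.log_le_sub_one_of_pos (by linarith)
  have hinv : 1 / δ ≤ L / 64 := by
    rw [div_le_div_iff₀ hδ0 (by norm_num)]
    nlinarith
  have h1 : 1 / δ ≤ l := by
    refine hinv.trans ?_
    have : L ≤ 2 * l := by rw [hn] at hLn; linarith
    linarith
  have h256 : 256 ≤ L := by linarith
  -- log l ≥ L / 2
  have hl0 : (0 : ℝ) < l := by linarith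
  have hlog : L / 2 ≤ Real.log l := by
    have h2 : n ≤ (l : ℝ) ^ 2 := by
      have : (128 : ℝ) ≤ l := by
        rw [hn] at hLn; linarith
      rw [hn]; nlinarith
    have h3 : L ≤ 2 * Real.log l := by
      have := Real.log_le_log (by linarith) h2
      rw [Real.log_pow] at this
      exact_mod_cast this
    linarith
  have hbig : 193600 / δ ^ 3 ≤ (l : ℝ) ^ (δ / 2) := by
    have hpos : 0 < 193600 / δ ^ 3 := by positivity
    rw [← Real.log_le_log_iff hpos (Real.rpow_pos_of_pos hl0 _), Real.log_rpow hl0,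
      Real.log_div (by norm_num) (by positivity), Real.log_pow]
    have h4 : -Real.log δ ≤ LL := by
      rw [← Real.log_inv]
      apply Real.log_le_log (by positivity)
      rw [← one_div]
      linarith
    have h5 : Real.log 193600 ≤ 13 := by
      rw [Real.log_le_iff_le_exp (by norm_num)]
      have h6 := Real.exp_one_gt_d9
      have h7 : Real.exp 13 = Real.exp 1 ^ 13 := by
        rw [← Real.exp_nat_mul]; norm_num
      rw [h7]
      calc (193600 : ℝ) ≤ 2.7 ^ 13 := by norm_num
        _ ≤ Real.exp 1 ^ 13 := pow_le_pow_left₀ (by norm_num) (by linarith) _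
    have h8 : 16 * LL ≤ δ / 2 * Real.log l := by
      have : δ / 2 * (L / 2) ≤ δ / 2 * Real.log l :=
        mul_le_mul_of_nonneg_left hlog (by positivity)
      nlinarith
    push_cast
    linarith
  obtain ⟨m, hm⟩ := num_quant δ hδ0 hδ' l h1 hbig
  exact ⟨m, _, hm⟩

theorem num_nm1 (l : ℕ) (hl : 200 ≤ l) : NumCond l 2 (52 / 27) (2 * l) := by
  have hl' : (200 : ℝ) ≤ l := by exact_mod_cast hl
  have hl0 : (0 : ℝ) < l := by linarith
  refine ⟨by omega, by norm_num, by norm_num, by norm_num, fun q hq1 hq2 => ?_⟩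
  have a1 : 2 ≤ q / l := by rw [le_div_iff₀ hl0]; linarith
  have a2 : q / l ≤ 2.005 := by rw [div_le_iff₀ hl0]; linarith
  refine ⟨?_, ?_, ?_⟩
  · rw [lt_div_iff₀ (by linarith)]; linarith
  · refine lt_of_le_of_lt a2 ?_
    norm_num
  have hρ : 0.036 ≤ min (1 - (q / l) * (52 / 27 - 1) / (52 / 27)) (q / l / (52 / 27) - 1) := by
    refine le_min ?_ ?_
    · have e : (q / l) * (52 / 27 - 1) / (52 / 27) = (q / l) * (25 / 52) := by ring
      rw [e]; linarith
    · have e : q / l / (52 / 27) - 1 = (q / l) * (27 / 52) - 1 := by ring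
      rw [e]; linarith
  have hρ0 : 0 < min (1 - (q / l) * (52 / 27 - 1) / (52 / 27)) (q / l / (52 / 27) - 1) :=
    lt_of_lt_of_le (by norm_num) hρ
  have hθ : ((1 / (52 / 27) - 1 / 2) / (1 / 2 - 1 / (2 * (2 : ℕ) : ℝ)) : ℝ) = 1 / 13 := by
    norm_num
  rw [hθ, div_le_iff₀ hρ0]
  have hM : Mc l 2 = 2704 * (l + 1) := by unfold Mc; push_cast; ring
  have hM' : (Mc l 2) ^ ((1 : ℝ) / 13) ≤ 0.018 * l := by
    have hx : (0 : ℝ) ≤ 0.018 * l := by positivity
    rw [hM]
    calc (2704 * ((l : ℝ) + 1)) ^ ((1 : ℝ) / 13) ≤ ((0.018 * (l : ℝ)) ^ 13) ^ ((1 : ℝ) / 13) := by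
          apply Real.rpow_le_rpow (by positivity) _ (by norm_num)
          have h1 : (3.6 : ℝ) ≤ 0.018 * l := by linarith
          have h2 : (3.6 : ℝ) ^ 12 ≤ (0.018 * (l : ℝ)) ^ 12 := pow_le_pow_left₀ (by norm_num) h1 _
          have h3 : (0.018 * (l : ℝ)) ^ 13 = (0.018 * (l : ℝ)) ^ 12 * (0.018 * l) := by ring
          rw [h3]
          have h4 : (3.6 : ℝ) ^ 12 * (0.018 * l) ≤ (0.018 * (l : ℝ)) ^ 12 * (0.018 * l) :=
            mul_le_mul_of_nonneg_right h2 hx
          refine le_trans ?_ h4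
          norm_num
          linarith
      _ = 0.018 * l := by
          rw [← Real.rpow_natCast, ← Real.rpow_mul hx]
          norm_num
  calc (1 : ℝ) / l * (Mc l 2) ^ ((1 : ℝ) / 13) ≤ 1 / l * (0.018 * l) :=
        mul_le_mul_of_nonneg_left hM' (by positivity)
    _ = 1 / 2 * 0.036 := by field_simp; norm_num
    _ ≤ _ := mul_le_mul_of_nonneg_left hρ (by norm_num)

end Pool.Agent.Lib.QR
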