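import Pool.Agent.Lib.MP_ba1c0b_an.B0
import Pool.Agent.Lib.MP_ba1c0b_an.A1

/-!
K0: directional derivatives on the torus, integration by parts, the real pairing.
-/

set_option autoImplicit false

open MeasureTheory
open scoped ENNReal

namespace Pool.Agent.Lib.QR

variable {n : ℕ}

/-- Translation by the angle `s` in the direction `j`. -/
noncomputable def tr (j : Fin n) (s : ℝ) : UnitAddTorus (Fin n) :=
  Pi.single j ((s / (2 * Real.pi) : ℝ) : UnitAddCircle)

/-- `G` has the directional derivative `G'` in the direction `j` (at every point). -/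
def HasD {W : Type*} [NormedAddCommGroup W] [NormedSpace ℝ W] (j : Fin n)
    (G G' : UnitAddTorus (Fin n) → W) : Prop :=
  ∀ x, HasDerivAt (fun s : ℝ => G (x + tr j s)) (G' x) 0

private theorem K0_tr_zero (j : Fin n) : tr j 0 = (0 : UnitAddTorus (Fin n)) := by
  unfold tr
  simp

private theorem K0_tr_add (j : Fin n) (s t : ℝ) :
    (tr j (s + t) : UnitAddTorus (Fin n)) = tr j s + tr j t := by
  unfold tr
  rw [← Pi.single_add, add_div]
  rfl

private theorem K0_hasDerivAt {W : Type*} [NormedAddCommGroup W] [NormedSpace ℝ W] {j : Fin n}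
    {G G' : UnitAddTorus (Fin n) → W} (h : HasD j G G') (x : UnitAddTorus (Fin n)) (s : ℝ) :
    HasDerivAt (fun s : ℝ => G (x + tr j s)) (G' (x + tr j s)) s := by
  have h1 := h (x + tr j s)
  have h2 : HasDerivAt (fun t : ℝ => G (x + tr j s + tr j t)) (G' (x + tr j s)) (s - s) := by
    rw [sub_self]; exact h1
  have h3 := HasDerivAt.comp_sub_const s s h2
  refine h3.congr_of_eventuallyEq (Filter.Eventually.of_forall fun t => ?_)
  change G (x + tr j t) = G (x + tr j s + tr j (t - s))
  rw [add_assoc, ← K0_tr_add]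
  congr 3
  ring

private theorem K0_inv (y : UnitAddTorus (Fin n)) (G : UnitAddTorus (Fin n) → ℝ) :
    ∫ x, G (x + y) ∂(μT n) = ∫ x, G x ∂(μT n) := by
  unfold μT
  exact integral_add_right_eq_self G y

/-- PROOF: `g s = ∫ G (x + tr j s)` is constant (invariance of the Haar measure), its derivative at `0` is
`∫ G'` (`hasDerivAt_integral_of_dominated_loc_of_deriv_le`; the derivative of `s ↦ G (x + tr j s)` at `s` is
`G' (x + tr j s)` because `tr j (s + s') = tr j s + tr j s'`; `G'` is bounded: compact space). -/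
theorem integral_of_hasD (j : Fin n) (G G' : UnitAddTorus (Fin n) → ℝ) (hG : Continuous G)
    (hG' : Continuous G') (h : HasD j G G') : ∫ x, G' x ∂(μT n) = 0 := by
  obtain ⟨C, hC⟩ : ∃ C : ℝ, ∀ x, ‖G' x‖ ≤ C := by
    have := (isCompact_univ (X := UnitAddTorus (Fin n))).exists_bound_of_continuousOn
      hG'.continuousOn
    obtain ⟨C, hC⟩ := this
    exact ⟨C, fun x => hC x (Set.mem_univ x)⟩
  have hint : ∀ F : UnitAddTorus (Fin n) → ℝ, Continuous F → Integrable F (μT n) := by
    intro F hF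
    obtain ⟨D, hD⟩ := (isCompact_univ (X := UnitAddTorus (Fin n))).exists_bound_of_continuousOn
      hF.continuousOn
    refine Integrable.of_bound hF.aestronglyMeasurable D
      (Filter.Eventually.of_forall fun x => hD x (Set.mem_univ x))
  have key := hasDerivAt_integral_of_dominated_loc_of_deriv_le (μ := μT n)
    (F := fun s x => G (x + tr j s)) (F' := fun s x => G' (x + tr j s)) (x₀ := (0:ℝ))
    (bound := fun _ => C) (s := Metric.ball 0 1) (Metric.ball_mem_nhds 0 one_pos)
    (Filter.Eventually.of_forall fun s =>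
      (hG.comp (continuous_id.add continuous_const)).aestronglyMeasurable)
    (hint _ (hG.comp (continuous_id.add continuous_const)))
    ((hG'.comp (continuous_id.add continuous_const)).aestronglyMeasurable)
    (Filter.Eventually.of_forall fun x s _ => hC _)
    (integrable_const C)
    (Filter.Eventually.of_forall fun x s _ => K0_hasDerivAt h x s)
  have h2 := key.2
  simp only [K0_inv] at h2
  have h3 := h2.unique (hasDerivAt_const (0:ℝ) (∫ x, G x ∂(μT n)))
  exact h3

theorem hasD_tp {ι : Type*} [Fintype ι] (j : Fin n) (S : Finset (Fin n → ℤ))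
    (a : (Fin n → ℤ) → EuclideanSpace ℂ ι) :
    HasD j (tp S a) (tp S (fun ξ => (Complex.I * (ξ j : ℂ)) • a ξ)) := by
  intro x
  have hf : ∀ (m : ℤ) (y z : UnitAddCircle), fourier m (y + z) = fourier m y * fourier m z := by
    intro m y z
    rw [fourier_apply, fourier_apply, fourier_apply, smul_add, AddCircle.toCircle_add]
    simp
  have hm : ∀ (ξ : Fin n → ℤ) (s : ℝ), UnitAddTorus.mFourier ξ (x + tr j s) =
      UnitAddTorus.mFourier ξ x * Complex.exp (Complex.I * (ξ j : ℂ) * s) := by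
    intro ξ s
    change ∏ i, fourier (ξ i) ((x + tr j s) i) = (∏ i, fourier (ξ i) (x i)) * _
    rw [← Finset.mul_prod_erase _ _ (Finset.mem_univ j),
      ← Finset.mul_prod_erase _ (fun i => fourier (ξ i) (x i)) (Finset.mem_univ j)]
    have h1 : ∏ i ∈ Finset.univ.erase j, fourier (ξ i) ((x + tr j s) i) =
        ∏ i ∈ Finset.univ.erase j, fourier (ξ i) (x i) := by
      refine Finset.prod_congr rfl fun i hi => ?_
      have hij : i ≠ j := Finset.ne_of_mem_erase hi
      rw [Pi.add_apply, tr, Pi.single_eq_of_ne hij, add_zero]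
    have h2 : fourier (ξ j) ((x + tr j s) j) =
        fourier (ξ j) (x j) * Complex.exp (Complex.I * (ξ j : ℂ) * s) := by
      rw [Pi.add_apply, tr, Pi.single_eq_same, hf]
      congr 1
      rw [fourier_coe_apply]
      congr 1
      have hpi : (Real.pi : ℂ) ≠ 0 := by exact_mod_cast Real.pi_ne_zero
      push_cast
      field_simp
    rw [h1, h2]
    ring
  have h1 : (fun s : ℝ => tp S a (x + tr j s)) = fun s : ℝ => ∑ ξ ∈ S,
      (UnitAddTorus.mFourier ξ x * Complex.exp (Complex.I * (ξ j : ℂ) * s)) • a ξ := by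
    funext s
    unfold tp
    exact Finset.sum_congr rfl fun ξ _ => by rw [hm]
  rw [h1]
  unfold tp
  refine HasDerivAt.fun_sum fun ξ _ => ?_
  have h2 : HasDerivAt (fun s : ℝ => UnitAddTorus.mFourier ξ x *
      Complex.exp (Complex.I * (ξ j : ℂ) * s))
      (UnitAddTorus.mFourier ξ x * (Complex.I * (ξ j : ℂ))) 0 := by
    have h3 : HasDerivAt (fun s : ℝ => Complex.I * (ξ j : ℂ) * (s : ℂ))
        (Complex.I * (ξ j : ℂ)) 0 := by
      have := (Complex.ofRealCLM.hasDerivAt (x := (0:ℝ))).const_mul (Complex.I * (ξ j : ℂ))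
      simpa using this
    have h4 := h3.cexp
    simp only [Complex.ofReal_zero, mul_zero, Complex.exp_zero, one_mul] at h4
    exact h4.const_mul _
  have h5 := h2.smul_const (a ξ)
  rw [← smul_smul] at h5
  exact h5

theorem HasD.add {j : Fin n} {F F' G G' : UnitAddTorus (Fin n) → ℝ} (hF : HasD j F F')
    (hG : HasD j G G') : HasD j (fun x => F x + G x) (fun x => F' x + G' x) :=
  fun x => (hF x).add (hG x)

theorem HasD.mul {j : Fin n} {F F' G G' : UnitAddTorus (Fin n) → ℝ} (hF : HasD j F F')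
    (hG : HasD j G G') : HasD j (fun x => F x * G x) (fun x => F' x * G x + F x * G' x) := by
  intro x
  have h := (hF x).mul (hG x)
  simp only [K0_tr_zero, add_zero] at h
  exact h

theorem HasD.const_mul {j : Fin n} {F F' : UnitAddTorus (Fin n) → ℝ} (c : ℝ) (hF : HasD j F F') :
    HasD j (fun x => c * F x) (fun x => c * F' x) :=
  fun x => (hF x).const_mul c

theorem HasD.pow {j : Fin n} {F F' : UnitAddTorus (Fin n) → ℝ} (hF : HasD j F F') (k : ℕ) :
    HasD j (fun x => F x ^ k) (fun x => k * F x ^ (k - 1) * F' x) := by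
  intro x
  have h := (hF x).pow k
  simp only [K0_tr_zero, add_zero] at h
  exact h

theorem HasD.smul {ι : Type*} [Fintype ι] {j : Fin n} {φ φ' : UnitAddTorus (Fin n) → ℝ}
    {G G' : UnitAddTorus (Fin n) → EuclideanSpace ℂ ι} (hφ : HasD j φ φ') (hG : HasD j G G') :
    HasD j (fun x => (φ x : ℂ) • G x) (fun x => (φ' x : ℂ) • G x + (φ x : ℂ) • G' x) := by
  intro x
  have h := (hφ x).ofReal_comp.smul (hG x)
  simp only [K0_tr_zero, add_zero] at h
  rw [add_comm] at h
  exact h

theorem HasD.map {ι κ : Type*} [Fintype ι] [Fintype κ] {j : Fin n}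
    {G G' : UnitAddTorus (Fin n) → EuclideanSpace ℂ ι} (hG : HasD j G G')
    (L : EuclideanSpace ℂ ι →ₗ[ℂ] EuclideanSpace ℂ κ) :
    HasD j (fun x => L (G x)) (fun x => L (G' x)) := by
  intro x
  have h := ((L.toContinuousLinearMap.restrictScalars ℝ).hasFDerivAt
    (x := G (x + tr j 0))).comp_hasDerivAt (0:ℝ) (hG x)
  exact h

/-- The real pairing. -/
noncomputable def rp {ι : Type*} [Fintype ι] (x y : EuclideanSpace ℂ ι) : ℝ := (inner ℂ x y).re

section rp

variable {ι : Type*} [Fintype ι]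

theorem rp_comm (x y : EuclideanSpace ℂ ι) : rp x y = rp y x :=
  inner_re_symm (𝕜 := ℂ) x y

theorem rp_add_left (x y z : EuclideanSpace ℂ ι) : rp (x + y) z = rp x z + rp y z := by
  unfold rp
  rw [inner_add_left, Complex.add_re]

theorem rp_add_right (x y z : EuclideanSpace ℂ ι) : rp x (y + z) = rp x y + rp x z := by
  unfold rp
  rw [inner_add_right, Complex.add_re]

theorem rp_sum_right {κ : Type*} (s : Finset κ) (x : EuclideanSpace ℂ ι)
    (y : κ → EuclideanSpace ℂ ι) : rp x (∑ k ∈ s, y k) = ∑ k ∈ s, rp x (y k) := by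
  unfold rp
  rw [inner_sum, Complex.re_sum]

theorem rp_sum_left {κ : Type*} (s : Finset κ) (x : κ → EuclideanSpace ℂ ι)
    (y : EuclideanSpace ℂ ι) : rp (∑ k ∈ s, x k) y = ∑ k ∈ s, rp (x k) y := by
  unfold rp
  rw [sum_inner, Complex.re_sum]

theorem rp_smul_left (c : ℝ) (x y : EuclideanSpace ℂ ι) : rp ((c : ℂ) • x) y = c * rp x y := by
  unfold rp
  rw [inner_smul_left, Complex.conj_ofReal, Complex.re_ofReal_mul]

theorem rp_smul_right (c : ℝ) (x y : EuclideanSpace ℂ ι) : rp x ((c : ℂ) • y) = c * rp x y := by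
  unfold rp
  rw [inner_smul_right, Complex.re_ofReal_mul]

theorem rp_self (x : EuclideanSpace ℂ ι) : rp x x = ‖x‖ ^ 2 :=
  inner_self_eq_norm_sq (𝕜 := ℂ) x

theorem abs_rp_le (x y : EuclideanSpace ℂ ι) : |rp x y| ≤ ‖x‖ * ‖y‖ :=
  (Complex.abs_re_le_norm _).trans (norm_inner_le_norm x y)

theorem continuous_rp {X : Type*} [TopologicalSpace X] {F G : X → EuclideanSpace ℂ ι}
    (hF : Continuous F) (hG : Continuous G) : Continuous (fun x => rp (F x) (G x)) :=
  Complex.continuous_re.comp (hF.inner hG)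

theorem HasD.rp {j : Fin n} {F F' G G' : UnitAddTorus (Fin n) → EuclideanSpace ℂ ι}
    (hF : HasD j F F') (hG : HasD j G G') :
    HasD j (fun x => rp (F x) (G x)) (fun x => rp (F' x) (G x) + rp (F x) (G' x)) := by
  intro x
  have h := HasDerivAt.inner ℂ (hF x) (hG x)
  have h2 := (Complex.reCLM.hasFDerivAt).comp_hasDerivAt (0:ℝ) h
  simp only [K0_tr_zero, add_zero] at h2
  rw [Complex.reCLM_apply, Complex.add_re, add_comm] at h2
  exact h2

/-- Integration by parts with a weight. PROOF: `integral_of_hasD` for `Φ * rp F G`. -/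
theorem ibp_rp (j : Fin n) (Φ Φ' : UnitAddTorus (Fin n) → ℝ)
    (F F' G G' : UnitAddTorus (Fin n) → EuclideanSpace ℂ ι)
    (cΦ : Continuous Φ) (cΦ' : Continuous Φ') (cF : Continuous F) (cF' : Continuous F')
    (cG : Continuous G) (cG' : Continuous G') (hΦ : HasD j Φ Φ') (hF : HasD j F F')
    (hG : HasD j G G') :
    ∫ x, Φ x * rp (F' x) (G x) ∂(μT n)
      = -∫ x, Φ' x * rp (F x) (G x) ∂(μT n) - ∫ x, Φ x * rp (F x) (G' x) ∂(μT n) := by
  have hint : ∀ H : UnitAddTorus (Fin n) → ℝ, Continuous H → Integrable H (μT n) := by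
    intro H hH
    obtain ⟨D, hD⟩ := (isCompact_univ (X := UnitAddTorus (Fin n))).exists_bound_of_continuousOn
      hH.continuousOn
    refine Integrable.of_bound hH.aestronglyMeasurable D
      (Filter.Eventually.of_forall fun x => hD x (Set.mem_univ x))
  have c1 := continuous_rp cF cG
  have c2 := continuous_rp cF' cG
  have c3 := continuous_rp cF cG'
  have h := integral_of_hasD j _ _ (cΦ.mul c1) ((cΦ'.mul c1).add (cΦ.mul (c2.add c3)))
    (hΦ.mul (hF.rp hG))
  have i1 : Integrable (fun x => Φ' x * rp (F x) (G x)) (μT n) := hint _ (cΦ'.mul c1)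
  have i2 : Integrable (fun x => Φ x * rp (F' x) (G x)) (μT n) := hint _ (cΦ.mul c2)
  have i3 : Integrable (fun x => Φ x * rp (F x) (G' x)) (μT n) := hint _ (cΦ.mul c3)
  have i23 : Integrable (fun x => Φ x * rp (F' x) (G x) + Φ x * rp (F x) (G' x)) (μT n) :=
    i2.add i3
  have e : (fun x => Φ' x * rp (F x) (G x) + Φ x * (rp (F' x) (G x) + rp (F x) (G' x))) =
      fun x => Φ' x * rp (F x) (G x) + (Φ x * rp (F' x) (G x) + Φ x * rp (F x) (G' x)) := by
    funext x; ring
  have h' : ∫ x, (Φ' x * rp (F x) (G x) + (Φ x * rp (F' x) (G x) + Φ x * rp (F x) (G' x)))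
      ∂(μT n) = 0 := by
    rw [← e]; exact h
  rw [integral_add i1 i23, integral_add i2 i3] at h'
  linarith

end rp

theorem rp_cr (v : Fin n → ℝ) (x y : V n) : rp (cr v x) y = rp x (an v y) := by
  unfold rp
  rw [inner_cr]

theorem rp_an (v : Fin n → ℝ) (x y : V n) : rp (an v x) y = rp x (cr v y) := by
  rw [rp_comm, ← rp_cr, rp_comm]

theorem nsq_nonneg (v : Fin n → ℝ) : 0 ≤ nsq v :=
  Finset.sum_nonneg fun _ _ => sq_nonneg _

theorem norm_cr_le (v : Fin n → ℝ) (x : V n) : ‖cr v x‖ ≤ Real.sqrt (nsq v) * ‖x‖ := by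
  have h := norm_cr_an v x
  have h2 : ‖cr v x‖ ^ 2 ≤ (Real.sqrt (nsq v) * ‖x‖) ^ 2 := by
    rw [mul_pow, Real.sq_sqrt (nsq_nonneg v), ← h]
    have := sq_nonneg ‖an v x‖
    linarith
  exact le_of_sq_le_sq h2 (mul_nonneg (Real.sqrt_nonneg _) (norm_nonneg _))

theorem norm_an_le (v : Fin n → ℝ) (x : V n) : ‖an v x‖ ≤ Real.sqrt (nsq v) * ‖x‖ := by
  have h := norm_cr_an v x
  have h2 : ‖an v x‖ ^ 2 ≤ (Real.sqrt (nsq v) * ‖x‖) ^ 2 := by
    rw [mul_pow, Real.sq_sqrt (nsq_nonneg v), ← h]
    have := sq_nonneg ‖cr v x‖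
    linarith
  exact le_of_sq_le_sq h2 (mul_nonneg (Real.sqrt_nonneg _) (norm_nonneg _))

end Pool.Agent.Lib.QR
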