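import Pool.Agent.Lib.MP_ba1c0b_an.B0

/-!
K1: differentiation under the integral sign on the torus.
-/

set_option autoImplicit false

open MeasureTheory
open scoped ENNReal

namespace Pool.Agent.Lib.QR

variable {n : ℕ}

/-- PROOF: `hasDerivAt_integral_of_dominated_loc_of_deriv_le` on `Metric.ball t 1`; `G'` is bounded on the
compact set `closedBall t 1 × torus`. -/
theorem hasDerivAt_integral_torus (G G' : ℝ → UnitAddTorus (Fin n) → ℝ)
    (hG : Continuous (fun p : ℝ × UnitAddTorus (Fin n) => G p.1 p.2))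
    (hG' : Continuous (fun p : ℝ × UnitAddTorus (Fin n) => G' p.1 p.2))
    (h : ∀ t x, HasDerivAt (fun s => G s x) (G' t x) t) (t : ℝ) :
    HasDerivAt (fun s => ∫ x, G s x ∂(μT n)) (∫ x, G' t x ∂(μT n)) t := by
  have hK : IsCompact ((Metric.closedBall t 1) ×ˢ (Set.univ : Set (UnitAddTorus (Fin n)))) :=
    (isCompact_closedBall t 1).prod isCompact_univ
  obtain ⟨C, hC⟩ := hK.exists_bound_of_continuousOn hG'.continuousOn
  have hcont : ∀ s, Continuous (G s) := fun s =>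
    hG.comp (continuous_const.prodMk continuous_id)
  have hcont' : ∀ s, Continuous (G' s) := fun s =>
    hG'.comp (continuous_const.prodMk continuous_id)
  have hint : ∀ H : UnitAddTorus (Fin n) → ℝ, Continuous H → Integrable H (μT n) := by
    intro H hH
    exact hH.integrable_of_hasCompactSupport (HasCompactSupport.of_compactSpace _)
  have key := hasDerivAt_integral_of_dominated_loc_of_deriv_le (μ := μT n)
    (F := fun s x => G s x) (F' := fun s x => G' s x) (x₀ := t)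
    (bound := fun _ => C) (s := Metric.ball t 1) (Metric.ball_mem_nhds t one_pos)
    (Filter.Eventually.of_forall fun s => (hcont s).aestronglyMeasurable)
    (hint _ (hcont t))
    ((hcont' t).aestronglyMeasurable)
    (Filter.Eventually.of_forall fun x s hs =>
      hC (s, x) ⟨Metric.ball_subset_closedBall hs, Set.mem_univ _⟩)
    (integrable_const C)
    (Filter.Eventually.of_forall fun x s _ => h s x)
  exact key.2

/-- The coefficients of the heat flow. -/
noncomputable def ht_c {W : Type*} [NormedAddCommGroup W] [NormedSpace ℂ W] (t : ℝ)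
    (a : (Fin n → ℤ) → W) (ξ : Fin n → ℤ) : W := ((Real.exp (-(t * nsq (fr ξ))) : ℝ) : ℂ) • a ξ

theorem ht_c_zero {W : Type*} [NormedAddCommGroup W] [NormedSpace ℂ W] (a : (Fin n → ℤ) → W) :
    ht_c 0 a = a := by
  funext ξ
  simp [ht_c]

theorem continuous_ht_c {ι : Type*} [Fintype ι] (S : Finset (Fin n → ℤ))
    (a : (Fin n → ℤ) → EuclideanSpace ℂ ι) :
    Continuous (fun p : ℝ × UnitAddTorus (Fin n) => tp S (ht_c p.1 a) p.2) := by
  unfold tp ht_c
  refine continuous_finsetSum _ fun ξ _ => ?_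
  refine ((UnitAddTorus.mFourier ξ).continuous.comp continuous_snd).smul ?_
  have h1 : Continuous (fun p : ℝ × UnitAddTorus (Fin n) =>
      ((Real.exp (-(p.1 * nsq (fr ξ))) : ℝ) : ℂ)) :=
    Complex.continuous_ofReal.comp
      (Real.continuous_exp.comp (continuous_fst.mul continuous_const).neg)
  exact h1.smul continuous_const

theorem hasDerivAt_ht_c {ι : Type*} [Fintype ι] (S : Finset (Fin n → ℤ))
    (a : (Fin n → ℤ) → EuclideanSpace ℂ ι) (t : ℝ) (x : UnitAddTorus (Fin n)) :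
    HasDerivAt (fun s => tp S (ht_c s a) x)
      (tp S (fun ξ => ((-(nsq (fr ξ)) : ℝ) : ℂ) • ht_c t a ξ) x) t := by
  unfold tp ht_c
  refine HasDerivAt.fun_sum fun ξ _ => ?_
  have h1 : HasDerivAt (fun s : ℝ => Real.exp (-(s * nsq (fr ξ))))
      (Real.exp (-(t * nsq (fr ξ))) * (-(nsq (fr ξ)))) t := by
    have h0 : HasDerivAt (fun s : ℝ => -(s * nsq (fr ξ))) (-(nsq (fr ξ))) t := by
      have h00 : HasDerivAt (fun s : ℝ => s * nsq (fr ξ)) (nsq (fr ξ)) t := by
        simpa using (hasDerivAt_id t).mul_const (nsq (fr ξ))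
      exact h00.fun_neg
    exact h0.exp
  have h2 := (h1.ofReal_comp.smul_const (a ξ)).const_smul (UnitAddTorus.mFourier ξ x)
  refine h2.congr_deriv ?_
  congr 1
  beta_reduce
  rw [smul_smul]
  congr 1
  push_cast
  ring

private theorem K1_nsq (ξ : Fin n → ℤ) (h : ξ ≠ 0) : 1 ≤ nsq (fr ξ) := by
  obtain ⟨i, hi⟩ := Function.ne_iff.mp h
  have h1 : (1 : ℝ) ≤ (fr ξ i) ^ 2 := by
    unfold fr
    have : (1 : ℤ) ≤ (ξ i) ^ 2 := by
      have h0 : ξ i ≠ 0 := hi
      have : 0 < (ξ i) ^ 2 := by positivity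
      omega
    exact_mod_cast this
  refine h1.trans ?_
  unfold nsq
  exact Finset.single_le_sum (f := fun j => (fr ξ j) ^ 2) (fun _ _ => sq_nonneg _)
    (Finset.mem_univ i)

private theorem K1_bound {ι : Type*} [Fintype ι] (S : Finset (Fin n → ℤ))
    (a : (Fin n → ℤ) → EuclideanSpace ℂ ι) (ha : a 0 = 0) (t : ℝ) (ht : 0 ≤ t)
    (x : UnitAddTorus (Fin n)) :
    ‖tp S (ht_c t a) x‖ ≤ Real.exp (-t) * ∑ ξ ∈ S, ‖a ξ‖ := by
  unfold tp
  refine (norm_sum_le _ _).trans ?_
  rw [Finset.mul_sum]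
  refine Finset.sum_le_sum fun ξ _ => ?_
  rw [norm_smul]
  have h1 : ‖UnitAddTorus.mFourier ξ x‖ ≤ 1 := by
    have h := (UnitAddTorus.mFourier ξ).norm_coe_le_norm x
    rwa [UnitAddTorus.mFourier_norm] at h
  have h2 : ‖ht_c t a ξ‖ ≤ Real.exp (-t) * ‖a ξ‖ := by
    unfold ht_c
    rw [norm_smul, Complex.norm_real, Real.norm_eq_abs, abs_of_pos (Real.exp_pos _)]
    by_cases hξ : ξ = 0
    · subst hξ; rw [ha]; simp
    · refine mul_le_mul_of_nonneg_right ?_ (norm_nonneg _)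
      refine Real.exp_le_exp.mpr ?_
      have := K1_nsq ξ hξ
      nlinarith
  calc ‖UnitAddTorus.mFourier ξ x‖ * ‖ht_c t a ξ‖ ≤ 1 * ‖ht_c t a ξ‖ :=
        mul_le_mul_of_nonneg_right h1 (norm_nonneg _)
    _ = ‖ht_c t a ξ‖ := one_mul _
    _ ≤ _ := h2

/-- PROOF: `‖tp S (ht_c t a) x‖ ≤ ∑ ξ ∈ S, exp (- t |ξ|²) ‖a ξ‖ ≤ exp (-t) ∑ ‖a ξ‖` (`|ξ|² ≥ 1` for integer
`ξ ≠ 0`). -/
theorem tendsto_ht_c {ι : Type*} [Fintype ι] (m : ℕ) (hm : 1 ≤ m) (S : Finset (Fin n → ℤ))
    (a : (Fin n → ℤ) → EuclideanSpace ℂ ι) (ha : a 0 = 0) :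
    Filter.Tendsto (fun t => ∫ x, ‖tp S (ht_c t a) x‖ ^ (2 * m) ∂(μT n)) Filter.atTop (nhds 0) := by
  set A : ℝ := ∑ ξ ∈ S, ‖a ξ‖ with hA
  have hlim : Filter.Tendsto (fun t : ℝ => (Real.exp (-t) * A) ^ (2 * m)) Filter.atTop (nhds 0) := by
    have h1 : Filter.Tendsto (fun t : ℝ => Real.exp (-t) * A) Filter.atTop (nhds 0) := by
      have := Real.tendsto_exp_neg_atTop_nhds_zero.mul_const A
      simpa using this
    have h2 := h1.pow (2 * m)
    rwa [zero_pow (by omega)] at h2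
  refine tendsto_of_tendsto_of_tendsto_of_le_of_le' tendsto_const_nhds hlim ?_ ?_
  · exact Filter.Eventually.of_forall fun t => integral_nonneg fun x => by positivity
  · filter_upwards [Filter.eventually_ge_atTop (0 : ℝ)] with t ht
    have hb : ∀ x, ‖tp S (ht_c t a) x‖ ^ (2 * m) ≤ (Real.exp (-t) * A) ^ (2 * m) := fun x =>
      pow_le_pow_left₀ (norm_nonneg _) (K1_bound S a ha t ht x) _
    have hi : Integrable (fun x => ‖tp S (ht_c t a) x‖ ^ (2 * m)) (μT n) := by
      have hc : Continuous (fun x : UnitAddTorus (Fin n) => ‖tp S (ht_c t a) x‖ ^ (2 * m)) :=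
        (continuous_tp S (ht_c t a)).norm.pow _
      exact hc.integrable_of_hasCompactSupport (HasCompactSupport.of_compactSpace _)
    calc ∫ x, ‖tp S (ht_c t a) x‖ ^ (2 * m) ∂(μT n)
        ≤ ∫ _x, (Real.exp (-t) * A) ^ (2 * m) ∂(μT n) :=
          integral_mono hi (integrable_const _) hb
      _ = _ := by simp

end Pool.Agent.Lib.QR
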