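import Pool.Agent.Lib.MP_ba1c0b_an.K0

/-!
K2: exterior derivative, codifferential, gradient, Laplacian and Hodge projection of trigonometric sums;
weighted integration by parts.
-/

set_option autoImplicit false

open MeasureTheory
open scoped ENNReal

namespace Pool.Agent.Lib.QR

variable {n : ℕ}

/-- Coefficients of the partial derivative. -/
noncomputable def pdc (j : Fin n) (a : (Fin n → ℤ) → V n) (ξ : Fin n → ℤ) : V n :=
  (Complex.I * (ξ j : ℂ)) • a ξ

/-- Coefficients of the exterior derivative. -/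
noncomputable def ddc (a : (Fin n → ℤ) → V n) (ξ : Fin n → ℤ) : V n := Complex.I • cr (fr ξ) (a ξ)

/-- Coefficients of (minus) the codifferential. -/
noncomputable def dlc (a : (Fin n → ℤ) → V n) (ξ : Fin n → ℤ) : V n := Complex.I • an (fr ξ) (a ξ)

/-- Coefficients of the Laplacian. -/
noncomputable def lpc (a : (Fin n → ℤ) → V n) (ξ : Fin n → ℤ) : V n :=
  ((-(nsq (fr ξ)) : ℝ) : ℂ) • a ξ

/-- Coefficients of the Hodge projection (all degrees). -/
noncomputable def hpc (a : (Fin n → ℤ) → V n) (ξ : Fin n → ℤ) : V n :=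
  (((nsq (fr ξ))⁻¹ : ℝ) : ℂ) • an (fr ξ) (cr (fr ξ) (a ξ))

private theorem K2_map (L : V n →ₗ[ℂ] V n) (S : Finset (Fin n → ℤ)) (a : (Fin n → ℤ) → V n)
    (x : UnitAddTorus (Fin n)) : L (tp S a x) = tp S (fun ξ => L (a ξ)) x := by
  unfold tp
  rw [map_sum]
  exact Finset.sum_congr rfl fun ξ _ => by rw [map_smul]

private theorem K2_sum_tp (S : Finset (Fin n → ℤ)) (a : Fin n → (Fin n → ℤ) → V n)
    (x : UnitAddTorus (Fin n)) : ∑ j, tp S (a j) x = tp S (fun ξ => ∑ j, a j ξ) x := by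
  unfold tp
  rw [Finset.sum_comm]
  exact Finset.sum_congr rfl fun ξ _ => by rw [Finset.smul_sum]

private theorem K2_tp_congr (S : Finset (Fin n → ℤ)) (a b : (Fin n → ℤ) → V n)
    (x : UnitAddTorus (Fin n)) (h : ∀ ξ, a ξ = b ξ) : tp S a x = tp S b x := by
  rw [funext h]

private theorem K2_int {H : UnitAddTorus (Fin n) → ℝ} (hH : Continuous H) :
    Integrable H (μT n) := by
  obtain ⟨D, hD⟩ := (isCompact_univ (X := UnitAddTorus (Fin n))).exists_bound_of_continuousOn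
    hH.continuousOn
  exact Integrable.of_bound hH.aestronglyMeasurable D
    (Filter.Eventually.of_forall fun x => hD x (Set.mem_univ x))

private theorem K2_sum (A B C : Fin n → UnitAddTorus (Fin n) → ℝ) (hA : ∀ j, Continuous (A j))
    (hB : ∀ j, Continuous (B j)) (hC : ∀ j, Continuous (C j))
    (h : ∀ j, ∫ x, A j x ∂(μT n) = -∫ x, B j x ∂(μT n) - ∫ x, C j x ∂(μT n)) :
    ∫ x, ∑ j, A j x ∂(μT n) = -∫ x, ∑ j, B j x ∂(μT n) - ∫ x, ∑ j, C j x ∂(μT n) := by
  rw [integral_finsetSum _ fun j _ => K2_int (hA j), integral_finsetSum _ fun j _ => K2_int (hB j),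
    integral_finsetSum _ fun j _ => K2_int (hC j), ← Finset.sum_neg_distrib,
    ← Finset.sum_sub_distrib]
  exact Finset.sum_congr rfl fun j _ => h j

private theorem K2_nsq (v : Fin n → ℝ) : (∑ j, v j * v j : ℝ) = nsq v := by
  unfold nsq
  exact Finset.sum_congr rfl fun j _ => (sq _).symm

private theorem K2_an_cr (v : Fin n → ℝ) (y : V n) :
    an v (cr v y) = ((nsq v : ℝ) : ℂ) • y - cr v (an v y) := by
  rw [an_cr, K2_nsq]

private theorem K2_cr_an_cr (v : Fin n → ℝ) (y : V n) :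
    cr v (an v (cr v y)) = ((nsq v : ℝ) : ℂ) • cr v y := by
  rw [K2_an_cr, map_sub, map_smul, cr_self, sub_zero]

private theorem K2_fr_zero : fr (0 : Fin n → ℤ) = 0 := by
  funext j
  simp [fr]

private theorem K2_cr_zero (y : V n) : cr (0 : Fin n → ℝ) y = 0 := by
  rw [cr_eq_sum]
  simp

private theorem K2_an_zero (y : V n) : an (0 : Fin n → ℝ) y = 0 := by
  rw [an_eq_sum]
  simp

theorem hasD_pdc (j : Fin n) (S : Finset (Fin n → ℤ)) (a : (Fin n → ℤ) → V n) :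
    HasD j (tp S a) (tp S (pdc j a)) := hasD_tp j S a

theorem tp_ddc (S : Finset (Fin n → ℤ)) (a : (Fin n → ℤ) → V n) (x : UnitAddTorus (Fin n)) :
    tp S (ddc a) x = ∑ j, cr (Pi.single j (1 : ℝ)) (tp S (pdc j a) x) := by
  simp only [K2_map]
  rw [K2_sum_tp]
  refine K2_tp_congr S _ _ x fun ξ => ?_
  simp only [pdc, ddc, map_smul]
  rw [cr_eq_sum, Finset.smul_sum]
  refine Finset.sum_congr rfl fun j _ => ?_
  rw [smul_smul]
  simp [fr]

theorem tp_dlc (S : Finset (Fin n → ℤ)) (a : (Fin n → ℤ) → V n) (x : UnitAddTorus (Fin n)) :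
    tp S (dlc a) x = ∑ j, an (Pi.single j (1 : ℝ)) (tp S (pdc j a) x) := by
  simp only [K2_map]
  rw [K2_sum_tp]
  refine K2_tp_congr S _ _ x fun ξ => ?_
  simp only [pdc, dlc, map_smul]
  rw [an_eq_sum, Finset.smul_sum]
  refine Finset.sum_congr rfl fun j _ => ?_
  rw [smul_smul]
  simp [fr]

theorem tp_lpc (S : Finset (Fin n → ℤ)) (a : (Fin n → ℤ) → V n) (x : UnitAddTorus (Fin n)) :
    tp S (lpc a) x = ∑ j, tp S (pdc j (pdc j a)) x := by
  rw [K2_sum_tp]
  refine K2_tp_congr S _ _ x fun ξ => ?_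
  simp only [pdc, lpc, smul_smul]
  rw [← Finset.sum_smul]
  congr 1
  unfold nsq fr
  push_cast
  rw [← Finset.sum_neg_distrib]
  refine Finset.sum_congr rfl fun j _ => ?_
  linear_combination (-(ξ j : ℂ) ^ 2) * Complex.I_sq

theorem nsq_fr_eq_zero {ξ : Fin n → ℤ} (h : nsq (fr ξ) = 0) : ξ = 0 := by
  funext j
  have h1 := (Finset.sum_eq_zero_iff_of_nonneg (fun j _ => sq_nonneg (fr ξ j))).1 h j
    (Finset.mem_univ j)
  have h2 : (fr ξ j) = 0 := pow_eq_zero_iff two_ne_zero |>.1 h1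
  have h3 : ((ξ j : ℤ) : ℝ) = 0 := h2
  exact_mod_cast h3

/-- `d` of the coexact part is `d`. PROOF: `cr an cr = |ξ|² cr` by `an_cr`, `cr_self`; `ξ = 0` separately. -/
theorem ddc_hpc (a : (Fin n → ℤ) → V n) : ddc (hpc a) = ddc a := by
  funext ξ
  simp only [ddc, hpc]
  by_cases h : nsq (fr ξ) = 0
  · have h0 := nsq_fr_eq_zero h
    rw [h0, K2_fr_zero, K2_cr_zero, K2_cr_zero]
  · rw [map_smul, K2_cr_an_cr, smul_smul (((nsq (fr ξ))⁻¹ : ℝ) : ℂ), ← Complex.ofReal_mul,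
      inv_mul_cancel₀ h, Complex.ofReal_one, one_smul]

theorem lpc_hpc (a : (Fin n → ℤ) → V n) : lpc (hpc a) = dlc (ddc a) := by
  funext ξ
  simp only [lpc, hpc, dlc, ddc, map_smul, smul_smul]
  by_cases h : nsq (fr ξ) = 0
  · have h0 := nsq_fr_eq_zero h
    rw [h0, K2_fr_zero, K2_an_zero, smul_zero, smul_zero]
  · congr 1
    rw [Complex.I_mul_I, ← Complex.ofReal_mul, neg_mul, mul_inv_cancel₀ h]
    simp

theorem dlc_ddc_add (a : (Fin n → ℤ) → V n) (ξ : Fin n → ℤ) :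
    dlc (ddc a) ξ + ddc (dlc a) ξ = lpc a ξ := by
  simp only [dlc, ddc, lpc, map_smul, smul_smul]
  rw [Complex.I_mul_I, ← smul_add, K2_an_cr, sub_add_cancel, smul_smul]
  simp

theorem hpc_zero (a : (Fin n → ℤ) → V n) : hpc a 0 = 0 := by
  simp only [hpc]
  rw [K2_fr_zero, K2_an_zero, smul_zero]

/-- Weighted integration by parts for `d`. PROOF: `tp_ddc`, `rp_cr`, `ibp_rp` for every `j`
(`G = an e_j (tp S b)`, derivative `an e_j (tp S (pdc j b))`), `an_eq_sum`, `tp_dlc`. -/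
theorem wibp_dd (S : Finset (Fin n → ℤ)) (a b : (Fin n → ℤ) → V n)
    (Φ : UnitAddTorus (Fin n) → ℝ) (Φ' : Fin n → UnitAddTorus (Fin n) → ℝ)
    (cΦ : Continuous Φ) (cΦ' : ∀ j, Continuous (Φ' j)) (hΦ : ∀ j, HasD j Φ (Φ' j)) :
    ∫ x, Φ x * rp (tp S (ddc a) x) (tp S b x) ∂(μT n)
      = -∫ x, rp (tp S a x) (an (fun j => Φ' j x) (tp S b x)) ∂(μT n)
        - ∫ x, Φ x * rp (tp S a x) (tp S (dlc b) x) ∂(μT n) := by
  have cL : ∀ j : Fin n, Continuous (an (Pi.single j (1 : ℝ)) : V n →ₗ[ℂ] V n) := fun j =>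
    LinearMap.continuous_of_finiteDimensional _
  have key : ∀ j : Fin n,
      ∫ x, Φ x * rp (tp S (pdc j a) x) (an (Pi.single j (1 : ℝ)) (tp S b x)) ∂(μT n)
        = -∫ x, Φ' j x * rp (tp S a x) (an (Pi.single j (1 : ℝ)) (tp S b x)) ∂(μT n)
          - ∫ x, Φ x * rp (tp S a x) (an (Pi.single j (1 : ℝ)) (tp S (pdc j b) x)) ∂(μT n) :=
    fun j => ibp_rp j Φ (Φ' j) (tp S a) (tp S (pdc j a))
      (fun x => an (Pi.single j (1 : ℝ)) (tp S b x))
      (fun x => an (Pi.single j (1 : ℝ)) (tp S (pdc j b) x)) cΦ (cΦ' j)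
      (continuous_tp S a) (continuous_tp S _) ((cL j).comp (continuous_tp S b))
      ((cL j).comp (continuous_tp S _)) (hΦ j) (hasD_pdc j S a)
      ((hasD_pdc j S b).map (an (Pi.single j (1 : ℝ))))
  have e1 : ∀ x, Φ x * rp (tp S (ddc a) x) (tp S b x)
      = ∑ j, Φ x * rp (tp S (pdc j a) x) (an (Pi.single j (1 : ℝ)) (tp S b x)) := by
    intro x
    rw [tp_ddc, rp_sum_left, Finset.mul_sum]
    exact Finset.sum_congr rfl fun j _ => by rw [rp_cr]
  have e2 : ∀ x, rp (tp S a x) (an (fun j => Φ' j x) (tp S b x))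
      = ∑ j, Φ' j x * rp (tp S a x) (an (Pi.single j (1 : ℝ)) (tp S b x)) := by
    intro x
    rw [an_eq_sum, rp_sum_right]
    exact Finset.sum_congr rfl fun j _ => by rw [rp_smul_right]
  have e3 : ∀ x, Φ x * rp (tp S a x) (tp S (dlc b) x)
      = ∑ j, Φ x * rp (tp S a x) (an (Pi.single j (1 : ℝ)) (tp S (pdc j b) x)) := by
    intro x
    rw [tp_dlc, rp_sum_right, Finset.mul_sum]
  simp only [e1, e2, e3]
  exact K2_sum _ _ _ (fun j => cΦ.mul (continuous_rp (continuous_tp S _)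
      ((cL j).comp (continuous_tp S b))))
    (fun j => (cΦ' j).mul (continuous_rp (continuous_tp S a) ((cL j).comp (continuous_tp S b))))
    (fun j => cΦ.mul (continuous_rp (continuous_tp S a) ((cL j).comp (continuous_tp S _)))) key

theorem wibp_dl (S : Finset (Fin n → ℤ)) (a b : (Fin n → ℤ) → V n)
    (Φ : UnitAddTorus (Fin n) → ℝ) (Φ' : Fin n → UnitAddTorus (Fin n) → ℝ)
    (cΦ : Continuous Φ) (cΦ' : ∀ j, Continuous (Φ' j)) (hΦ : ∀ j, HasD j Φ (Φ' j)) :
    ∫ x, Φ x * rp (tp S (dlc a) x) (tp S b x) ∂(μT n)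
      = -∫ x, rp (tp S a x) (cr (fun j => Φ' j x) (tp S b x)) ∂(μT n)
        - ∫ x, Φ x * rp (tp S a x) (tp S (ddc b) x) ∂(μT n) := by
  have cL : ∀ j : Fin n, Continuous (cr (Pi.single j (1 : ℝ)) : V n →ₗ[ℂ] V n) := fun j =>
    LinearMap.continuous_of_finiteDimensional _
  have key : ∀ j : Fin n,
      ∫ x, Φ x * rp (tp S (pdc j a) x) (cr (Pi.single j (1 : ℝ)) (tp S b x)) ∂(μT n)
        = -∫ x, Φ' j x * rp (tp S a x) (cr (Pi.single j (1 : ℝ)) (tp S b x)) ∂(μT n)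
          - ∫ x, Φ x * rp (tp S a x) (cr (Pi.single j (1 : ℝ)) (tp S (pdc j b) x)) ∂(μT n) :=
    fun j => ibp_rp j Φ (Φ' j) (tp S a) (tp S (pdc j a))
      (fun x => cr (Pi.single j (1 : ℝ)) (tp S b x))
      (fun x => cr (Pi.single j (1 : ℝ)) (tp S (pdc j b) x)) cΦ (cΦ' j)
      (continuous_tp S a) (continuous_tp S _) ((cL j).comp (continuous_tp S b))
      ((cL j).comp (continuous_tp S _)) (hΦ j) (hasD_pdc j S a)
      ((hasD_pdc j S b).map (cr (Pi.single j (1 : ℝ))))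
  have e1 : ∀ x, Φ x * rp (tp S (dlc a) x) (tp S b x)
      = ∑ j, Φ x * rp (tp S (pdc j a) x) (cr (Pi.single j (1 : ℝ)) (tp S b x)) := by
    intro x
    rw [tp_dlc, rp_sum_left, Finset.mul_sum]
    exact Finset.sum_congr rfl fun j _ => by rw [rp_an]
  have e2 : ∀ x, rp (tp S a x) (cr (fun j => Φ' j x) (tp S b x))
      = ∑ j, Φ' j x * rp (tp S a x) (cr (Pi.single j (1 : ℝ)) (tp S b x)) := by
    intro x
    rw [cr_eq_sum, rp_sum_right]
    exact Finset.sum_congr rfl fun j _ => by rw [rp_smul_right]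
  have e3 : ∀ x, Φ x * rp (tp S a x) (tp S (ddc b) x)
      = ∑ j, Φ x * rp (tp S a x) (cr (Pi.single j (1 : ℝ)) (tp S (pdc j b) x)) := by
    intro x
    rw [tp_ddc, rp_sum_right, Finset.mul_sum]
  simp only [e1, e2, e3]
  exact K2_sum _ _ _ (fun j => cΦ.mul (continuous_rp (continuous_tp S _)
      ((cL j).comp (continuous_tp S b))))
    (fun j => (cΦ' j).mul (continuous_rp (continuous_tp S a) ((cL j).comp (continuous_tp S b))))
    (fun j => cΦ.mul (continuous_rp (continuous_tp S a) ((cL j).comp (continuous_tp S _)))) key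

theorem wibp_grad (S : Finset (Fin n → ℤ)) (a b : (Fin n → ℤ) → V n)
    (Φ : UnitAddTorus (Fin n) → ℝ) (Φ' : Fin n → UnitAddTorus (Fin n) → ℝ)
    (cΦ : Continuous Φ) (cΦ' : ∀ j, Continuous (Φ' j)) (hΦ : ∀ j, HasD j Φ (Φ' j)) :
    ∫ x, Φ x * ∑ j, rp (tp S (pdc j a) x) (tp S (pdc j b) x) ∂(μT n)
      = -∫ x, ∑ j, Φ' j x * rp (tp S a x) (tp S (pdc j b) x) ∂(μT n)
        - ∫ x, Φ x * rp (tp S a x) (tp S (lpc b) x) ∂(μT n) := by
  have key : ∀ j : Fin n,
      ∫ x, Φ x * rp (tp S (pdc j a) x) (tp S (pdc j b) x) ∂(μT n)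
        = -∫ x, Φ' j x * rp (tp S a x) (tp S (pdc j b) x) ∂(μT n)
          - ∫ x, Φ x * rp (tp S a x) (tp S (pdc j (pdc j b)) x) ∂(μT n) :=
    fun j => ibp_rp j Φ (Φ' j) (tp S a) (tp S (pdc j a)) (tp S (pdc j b))
      (tp S (pdc j (pdc j b))) cΦ (cΦ' j)
      (continuous_tp S a) (continuous_tp S _) (continuous_tp S _)
      (continuous_tp S _) (hΦ j) (hasD_pdc j S a) (hasD_pdc j S (pdc j b))
  have e3 : ∀ x, Φ x * rp (tp S a x) (tp S (lpc b) x)
      = ∑ j, Φ x * rp (tp S a x) (tp S (pdc j (pdc j b)) x) := by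
    intro x
    rw [tp_lpc, rp_sum_right, Finset.mul_sum]
  simp only [e3, Finset.mul_sum]
  exact K2_sum _ _ _ (fun j => cΦ.mul (continuous_rp (continuous_tp S _) (continuous_tp S _)))
    (fun j => (cΦ' j).mul (continuous_rp (continuous_tp S a) (continuous_tp S _)))
    (fun j => cΦ.mul (continuous_rp (continuous_tp S a) (continuous_tp S _))) key

end Pool.Agent.Lib.QR
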