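import Pool.Agent.Lib.MP_ba1c0b_an.K2

/-!
K3: energies at a fixed time.  `x = nx S b = ‖tp S b‖²`, `x_j = nxd S b j`, `gr S b = |∇ tp S b|²`.
-/

set_option autoImplicit false

open MeasureTheory
open scoped ENNReal

namespace Pool.Agent.Lib.QR

variable {n : ℕ}

noncomputable def nx (S : Finset (Fin n → ℤ)) (a : (Fin n → ℤ) → V n)
    (x : UnitAddTorus (Fin n)) : ℝ := ‖tp S a x‖ ^ 2

noncomputable def nxd (S : Finset (Fin n → ℤ)) (a : (Fin n → ℤ) → V n) (j : Fin n)
    (x : UnitAddTorus (Fin n)) : ℝ := 2 * rp (tp S a x) (tp S (pdc j a) x)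

noncomputable def gr (S : Finset (Fin n → ℤ)) (a : (Fin n → ℤ) → V n)
    (x : UnitAddTorus (Fin n)) : ℝ := ∑ j, ‖tp S (pdc j a) x‖ ^ 2

/-- `- d/dt ∫ ‖V‖^(2k+4)` along the heat flow. -/
noncomputable def DV (k : ℕ) (S : Finset (Fin n → ℤ)) (b : (Fin n → ℤ) → V n) : ℝ :=
  -∫ x, (k + 2 : ℝ) * nx S b x ^ (k + 1) * (2 * rp (tp S b x) (tp S (lpc b) x)) ∂(μT n)

/-- `- d/dt ∫ ‖V‖^(2k+2) ‖F‖²` along the heat flow. -/
noncomputable def DM (k : ℕ) (S : Finset (Fin n → ℤ)) (b a : (Fin n → ℤ) → V n) : ℝ :=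
  -∫ x, ((k + 1 : ℝ) * nx S b x ^ k * nx S a x * (2 * rp (tp S b x) (tp S (lpc b) x))
    + nx S b x ^ (k + 1) * (2 * rp (tp S a x) (tp S (lpc a) x))) ∂(μT n)

theorem nx_nonneg (S : Finset (Fin n → ℤ)) (a : (Fin n → ℤ) → V n) (x : UnitAddTorus (Fin n)) :
    0 ≤ nx S a x := by unfold nx; positivity

theorem gr_nonneg (S : Finset (Fin n → ℤ)) (a : (Fin n → ℤ) → V n) (x : UnitAddTorus (Fin n)) :
    0 ≤ gr S a x := by unfold gr; positivity

theorem continuous_nx (S : Finset (Fin n → ℤ)) (a : (Fin n → ℤ) → V n) :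
    Continuous (nx S a) := (continuous_tp S a).norm.pow 2

theorem continuous_nxd (S : Finset (Fin n → ℤ)) (a : (Fin n → ℤ) → V n) (j : Fin n) :
    Continuous (nxd S a j) :=
  continuous_const.mul (continuous_rp (continuous_tp S a) (continuous_tp S _))

theorem continuous_gr (S : Finset (Fin n → ℤ)) (a : (Fin n → ℤ) → V n) :
    Continuous (gr S a) := by
  unfold gr
  exact continuous_finsetSum _ fun j _ => (continuous_tp S _).norm.pow 2

private theorem k3_integrable {f : UnitAddTorus (Fin n) → ℝ} (hf : Continuous f) :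
    Integrable f (μT n) := hf.integrable_of_hasCompactSupport (HasCompactSupport.of_compactSpace f)

/-- PROOF: `HasD.rp`, `rp_self`, `rp_comm`. -/
theorem hasD_nx (S : Finset (Fin n → ℤ)) (a : (Fin n → ℤ) → V n) (j : Fin n) :
    HasD j (nx S a) (nxd S a j) := by
  have h := HasD.rp (hasD_pdc j S a) (hasD_pdc j S a)
  have e1 : (fun x => rp (tp S a x) (tp S a x)) = nx S a := by
    funext x
    rw [rp_self]
    rfl
  have e2 : (fun x => rp (tp S (pdc j a) x) (tp S a x) + rp (tp S a x) (tp S (pdc j a) x))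
      = nxd S a j := by
    funext x
    unfold nxd
    rw [rp_comm (tp S (pdc j a) x) (tp S a x)]
    ring
  rw [e1, e2] at h
  exact h

/-- PROOF: `abs_rp_le` for every `j`. -/
theorem sum_nxd_sq_le (S : Finset (Fin n → ℤ)) (a : (Fin n → ℤ) → V n)
    (x : UnitAddTorus (Fin n)) : ∑ j, nxd S a j x ^ 2 ≤ 4 * nx S a x * gr S a x := by
  unfold gr
  rw [Finset.mul_sum]
  refine Finset.sum_le_sum fun j _ => ?_
  have h := abs_rp_le (tp S a x) (tp S (pdc j a) x)
  have h2 : rp (tp S a x) (tp S (pdc j a) x) ^ 2 ≤ (‖tp S a x‖ * ‖tp S (pdc j a) x‖) ^ 2 := by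
    rw [← sq_abs (rp (tp S a x) (tp S (pdc j a) x))]
    exact pow_le_pow_left₀ (abs_nonneg _) h 2
  unfold nxd nx
  calc (2 * rp (tp S a x) (tp S (pdc j a) x)) ^ 2
      = 4 * rp (tp S a x) (tp S (pdc j a) x) ^ 2 := by ring
    _ ≤ 4 * (‖tp S a x‖ * ‖tp S (pdc j a) x‖) ^ 2 := by linarith
    _ = 4 * ‖tp S a x‖ ^ 2 * ‖tp S (pdc j a) x‖ ^ 2 := by ring

/-- PROOF: `wibp_grad` with `b = a`. -/
theorem wgrad (S : Finset (Fin n → ℤ)) (a : (Fin n → ℤ) → V n)
    (Φ : UnitAddTorus (Fin n) → ℝ) (Φ' : Fin n → UnitAddTorus (Fin n) → ℝ)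
    (cΦ : Continuous Φ) (cΦ' : ∀ j, Continuous (Φ' j)) (hΦ : ∀ j, HasD j Φ (Φ' j)) :
    -∫ x, Φ x * (2 * rp (tp S a x) (tp S (lpc a) x)) ∂(μT n)
      = ∫ x, (2 * Φ x * gr S a x + ∑ j, Φ' j x * nxd S a j x) ∂(μT n) := by
  have h := wibp_grad S a a Φ Φ' cΦ cΦ' hΦ
  have c1 : Continuous (fun x => 2 * Φ x * gr S a x) :=
    (continuous_const.mul cΦ).mul (continuous_gr S a)
  have c2 : Continuous (fun x => ∑ j, Φ' j x * nxd S a j x) :=
    continuous_finsetSum _ fun j _ => (cΦ' j).mul (continuous_nxd S a j)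
  rw [integral_add (k3_integrable c1) (k3_integrable c2)]
  have e1 : ∫ x, Φ x * (2 * rp (tp S a x) (tp S (lpc a) x)) ∂(μT n)
      = 2 * ∫ x, Φ x * rp (tp S a x) (tp S (lpc a) x) ∂(μT n) := by
    rw [← integral_const_mul]
    refine integral_congr_ae (Filter.Eventually.of_forall fun x => ?_)
    show Φ x * (2 * rp (tp S a x) (tp S (lpc a) x)) = 2 * (Φ x * rp (tp S a x) (tp S (lpc a) x))
    ring
  have e2 : ∫ x, 2 * Φ x * gr S a x ∂(μT n)
      = 2 * ∫ x, Φ x * ∑ j, rp (tp S (pdc j a) x) (tp S (pdc j a) x) ∂(μT n) := by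
    rw [← integral_const_mul]
    refine integral_congr_ae (Filter.Eventually.of_forall fun x => ?_)
    show 2 * Φ x * gr S a x = 2 * (Φ x * ∑ j, rp (tp S (pdc j a) x) (tp S (pdc j a) x))
    have : ∑ j, rp (tp S (pdc j a) x) (tp S (pdc j a) x) = gr S a x := by
      unfold gr
      exact Finset.sum_congr rfl fun j _ => rp_self _
    rw [this]
    ring
  have e3 : ∫ x, ∑ j, Φ' j x * nxd S a j x ∂(μT n)
      = 2 * ∫ x, ∑ j, Φ' j x * rp (tp S a x) (tp S (pdc j a) x) ∂(μT n) := by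
    rw [← integral_const_mul]
    refine integral_congr_ae (Filter.Eventually.of_forall fun x => ?_)
    show ∑ j, Φ' j x * nxd S a j x = 2 * ∑ j, Φ' j x * rp (tp S a x) (tp S (pdc j a) x)
    rw [Finset.mul_sum]
    refine Finset.sum_congr rfl fun j _ => ?_
    unfold nxd
    ring
  rw [e1, e2, e3, h]
  ring

/-- PROOF: `wgrad` with `Φ = (k+2) x^(k+1)`. -/
theorem dv_eq (k : ℕ) (S : Finset (Fin n → ℤ)) (b : (Fin n → ℤ) → V n) :
    DV k S b = ∫ x, (2 * (k + 2) * nx S b x ^ (k + 1) * gr S b x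
      + (k + 2) * (k + 1) * nx S b x ^ k * ∑ j, nxd S b j x ^ 2) ∂(μT n) := by
  have hc := continuous_nx S b
  have h := wgrad S b (fun x => (k + 2 : ℝ) * nx S b x ^ (k + 1))
    (fun j x => (k + 2 : ℝ) * (((k + 1 : ℕ) : ℝ) * nx S b x ^ (k + 1 - 1) * nxd S b j x))
    (continuous_const.mul (hc.pow _))
    (fun j => continuous_const.mul ((continuous_const.mul (hc.pow _)).mul (continuous_nxd S b j)))
    (fun j => ((hasD_nx S b j).pow (k + 1)).const_mul _)
  unfold DV
  rw [h]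
  refine integral_congr_ae (Filter.Eventually.of_forall fun x => ?_)
  show 2 * ((k + 2 : ℝ) * nx S b x ^ (k + 1)) * gr S b x
      + ∑ j, (k + 2 : ℝ) * (((k + 1 : ℕ) : ℝ) * nx S b x ^ (k + 1 - 1) * nxd S b j x) * nxd S b j x
    = 2 * (k + 2) * nx S b x ^ (k + 1) * gr S b x
      + (k + 2) * (k + 1) * nx S b x ^ k * ∑ j, nxd S b j x ^ 2
  rw [Finset.mul_sum]
  congr 1
  · ring
  · refine Finset.sum_congr rfl fun j _ => ?_
    rw [Nat.add_sub_cancel]
    push_cast
    ring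

/-- PROOF: `wgrad` for `b` with `Φ = (k+1) x^k y` and for `a` with `Φ = x^(k+1)` (`x = nx S b`, `y = nx S a`);
drop the nonnegative term `(k+1) k x^(k-1) y ∑ x_j²`. -/
theorem dm_ge (k : ℕ) (S : Finset (Fin n → ℤ)) (b a : (Fin n → ℤ) → V n) :
    ∫ x, (2 * (k + 1) * nx S b x ^ k * nx S a x * gr S b x + 2 * nx S b x ^ (k + 1) * gr S a x
      + 2 * (k + 1) * nx S b x ^ k * ∑ j, nxd S b j x * nxd S a j x) ∂(μT n) ≤ DM k S b a := by
  have hb := continuous_nx S b
  have ha := continuous_nx S a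
  have gb := continuous_gr S b
  have ga := continuous_gr S a
  have db := fun j => continuous_nxd S b j
  have da := fun j => continuous_nxd S a j
  have h1 := wgrad S b (fun x => (k + 1 : ℝ) * (nx S b x ^ k * nx S a x))
    (fun j x => (k + 1 : ℝ) * ((k : ℝ) * nx S b x ^ (k - 1) * nxd S b j x * nx S a x
      + nx S b x ^ k * nxd S a j x))
    (continuous_const.mul ((hb.pow _).mul ha))
    (fun j => continuous_const.mul ((((continuous_const.mul (hb.pow _)).mul (db j)).mul ha).add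
      ((hb.pow _).mul (da j))))
    (fun j => (((hasD_nx S b j).pow k).mul (hasD_nx S a j)).const_mul _)
  have h2 := wgrad S a (fun x => nx S b x ^ (k + 1))
    (fun j x => ((k + 1 : ℕ) : ℝ) * nx S b x ^ (k + 1 - 1) * nxd S b j x)
    (hb.pow _)
    (fun j => (continuous_const.mul (hb.pow _)).mul (db j))
    (fun j => (hasD_nx S b j).pow (k + 1))
  have c1 : Continuous (fun x => (k + 1 : ℝ) * (nx S b x ^ k * nx S a x)
      * (2 * rp (tp S b x) (tp S (lpc b) x))) :=
    (continuous_const.mul ((hb.pow _).mul ha)).mul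
      (continuous_const.mul (continuous_rp (continuous_tp S b) (continuous_tp S _)))
  have c2 : Continuous (fun x => nx S b x ^ (k + 1) * (2 * rp (tp S a x) (tp S (lpc a) x))) :=
    (hb.pow _).mul (continuous_const.mul (continuous_rp (continuous_tp S a) (continuous_tp S _)))
  have e : DM k S b a = -(∫ x, (k + 1 : ℝ) * (nx S b x ^ k * nx S a x)
      * (2 * rp (tp S b x) (tp S (lpc b) x)) ∂(μT n))
      + -(∫ x, nx S b x ^ (k + 1) * (2 * rp (tp S a x) (tp S (lpc a) x)) ∂(μT n)) := by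
    rw [← neg_add, ← integral_add (k3_integrable c1) (k3_integrable c2)]
    unfold DM
    congr 1
    refine integral_congr_ae (Filter.Eventually.of_forall fun x => ?_)
    show (k + 1 : ℝ) * nx S b x ^ k * nx S a x * (2 * rp (tp S b x) (tp S (lpc b) x))
        + nx S b x ^ (k + 1) * (2 * rp (tp S a x) (tp S (lpc a) x))
      = (k + 1 : ℝ) * (nx S b x ^ k * nx S a x) * (2 * rp (tp S b x) (tp S (lpc b) x))
        + nx S b x ^ (k + 1) * (2 * rp (tp S a x) (tp S (lpc a) x))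
    ring
  have c3 : Continuous (fun x => 2 * ((k + 1 : ℝ) * (nx S b x ^ k * nx S a x)) * gr S b x
      + ∑ j, (k + 1 : ℝ) * ((k : ℝ) * nx S b x ^ (k - 1) * nxd S b j x * nx S a x
      + nx S b x ^ k * nxd S a j x) * nxd S b j x) :=
    ((continuous_const.mul (continuous_const.mul ((hb.pow _).mul ha))).mul gb).add
      (continuous_finsetSum _ fun j _ => (continuous_const.mul
        ((((continuous_const.mul (hb.pow _)).mul (db j)).mul ha).add
        ((hb.pow _).mul (da j)))).mul (db j))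
  have c4 : Continuous (fun x => 2 * nx S b x ^ (k + 1) * gr S a x
      + ∑ j, ((k + 1 : ℕ) : ℝ) * nx S b x ^ (k + 1 - 1) * nxd S b j x * nxd S a j x) :=
    ((continuous_const.mul (hb.pow _)).mul ga).add
      (continuous_finsetSum _ fun j _ => ((continuous_const.mul (hb.pow _)).mul (db j)).mul (da j))
  have c5 : Continuous (fun x => 2 * (k + 1 : ℝ) * nx S b x ^ k * nx S a x * gr S b x
      + 2 * nx S b x ^ (k + 1) * gr S a x
      + 2 * (k + 1 : ℝ) * nx S b x ^ k * ∑ j, nxd S b j x * nxd S a j x) :=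
    ((((continuous_const.mul (hb.pow _)).mul ha).mul gb).add
      ((continuous_const.mul (hb.pow _)).mul ga)).add
      ((continuous_const.mul (hb.pow _)).mul
        (continuous_finsetSum _ fun j _ => (db j).mul (da j)))
  rw [e, h1, h2, ← integral_add (k3_integrable c3) (k3_integrable c4)]
  refine integral_mono (k3_integrable c5) (k3_integrable (c3.add c4)) fun x => ?_
  show 2 * (k + 1 : ℝ) * nx S b x ^ k * nx S a x * gr S b x
      + 2 * nx S b x ^ (k + 1) * gr S a x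
      + 2 * (k + 1 : ℝ) * nx S b x ^ k * ∑ j, nxd S b j x * nxd S a j x
    ≤ (2 * ((k + 1 : ℝ) * (nx S b x ^ k * nx S a x)) * gr S b x
      + ∑ j, (k + 1 : ℝ) * ((k : ℝ) * nx S b x ^ (k - 1) * nxd S b j x * nx S a x
      + nx S b x ^ k * nxd S a j x) * nxd S b j x)
      + (2 * nx S b x ^ (k + 1) * gr S a x
      + ∑ j, ((k + 1 : ℕ) : ℝ) * nx S b x ^ (k + 1 - 1) * nxd S b j x * nxd S a j x)
  have s1 : ∑ j, (k + 1 : ℝ) * ((k : ℝ) * nx S b x ^ (k - 1) * nxd S b j x * nx S a x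
      + nx S b x ^ k * nxd S a j x) * nxd S b j x
      = (k + 1 : ℝ) * k * nx S b x ^ (k - 1) * nx S a x * ∑ j, nxd S b j x ^ 2
        + (k + 1 : ℝ) * nx S b x ^ k * ∑ j, nxd S b j x * nxd S a j x := by
    rw [Finset.mul_sum, Finset.mul_sum, ← Finset.sum_add_distrib]
    refine Finset.sum_congr rfl fun j _ => ?_
    ring
  have s2 : ∑ j, ((k + 1 : ℕ) : ℝ) * nx S b x ^ (k + 1 - 1) * nxd S b j x * nxd S a j x
      = (k + 1 : ℝ) * nx S b x ^ k * ∑ j, nxd S b j x * nxd S a j x := by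
    rw [Finset.mul_sum, Nat.add_sub_cancel]
    refine Finset.sum_congr rfl fun j _ => ?_
    push_cast
    ring
  rw [s1, s2]
  have hp : 0 ≤ (k + 1 : ℝ) * k * nx S b x ^ (k - 1) * nx S a x * ∑ j, nxd S b j x ^ 2 := by
    have i1 := nx_nonneg S b x
    have i2 := nx_nonneg S a x
    have i3 : 0 ≤ ∑ j, nxd S b j x ^ 2 := Finset.sum_nonneg fun j _ => sq_nonneg _
    positivity
  nlinarith [hp]

end Pool.Agent.Lib.QR
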