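import Pool.Agent.Lib.MP_ba1c0b_an.K3

/-!
K4: the exterior derivative controls the energy of the coexact part.
-/

set_option autoImplicit false

open MeasureTheory
open scoped ENNReal

namespace Pool.Agent.Lib.QR

variable {n : ℕ}

private theorem k4_integrable {f : UnitAddTorus (Fin n) → ℝ} (hf : Continuous f) :
    Integrable f (μT n) := hf.integrable_of_hasCompactSupport (HasCompactSupport.of_compactSpace f)

/-- The pointwise bound. -/
private theorem k4_point (u y : V n) (g : Fin n → ℝ) (c : ℝ) (hc : 0 ≤ c) :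
    rp u (an (fun j => c * g j) y) ≤ c * (nsq g / 4 + ‖u‖ ^ 2 * ‖y‖ ^ 2) := by
  have h1 : (fun j => c * g j) = c • g := rfl
  rw [h1, an_smul_left, rp_smul_right]
  refine mul_le_mul_of_nonneg_left ?_ hc
  have h2 := (le_abs_self _).trans (abs_rp_le u (an g y))
  have h3 := norm_an_le g y
  have hg : 0 ≤ nsq g := Finset.sum_nonneg fun j _ => sq_nonneg _
  have h4 := Real.sq_sqrt hg
  have h5 : ‖u‖ * ‖an g y‖ ≤ ‖u‖ * (Real.sqrt (nsq g) * ‖y‖) :=
    mul_le_mul_of_nonneg_left h3 (norm_nonneg _)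
  nlinarith [sq_nonneg (Real.sqrt (nsq g) / 2 - ‖u‖ * ‖y‖)]

/-- PROOF. `V = tp S (hpc a)`, `x = ‖V‖²`, `m = k + 2`, `dF = tp S (ddc a)`.  `lpc (hpc a) = dlc (ddc a)`, so
`wibp_dd` (coefficients `hpc a`, `ddc a`, weight `x^(k+1)`) and `ddc_hpc` give
`DV = 2 m ∫ x^(k+1) ‖dF‖² + 2 m ∫ rp V (an (∇ x^(k+1)) dF)`, `∇ x^(k+1) = (k+1) x^k ∇x`.  Pointwise
`|rp V (an ∇x dF)| ≤ √x |∇x| ‖dF‖ ≤ |∇x|²/4 + x ‖dF‖²`, so
`DV ≤ 2 m² ∫ x^(k+1) ‖dF‖² + (1/2) m (m-1) ∫ x^k |∇x|²`, and the last term is at most `DV/2` (`dv_eq`). -/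
theorem dv_le_X (k : ℕ) (S : Finset (Fin n → ℤ)) (a : (Fin n → ℤ) → V n) :
    DV k S (hpc a)
      ≤ 4 * (k + 2) ^ 2 * ∫ x, nx S (hpc a) x ^ (k + 1) * ‖tp S (ddc a) x‖ ^ 2 ∂(μT n) := by
  set b := hpc a with hb
  have cx := continuous_nx S b
  have cd := fun j => continuous_nxd S b j
  have cV := continuous_tp S b
  have cD := continuous_tp S (ddc a)
  have cg := continuous_gr S b
  have w := wibp_dd S b (ddc a) (fun x => nx S b x ^ (k + 1))
    (fun j x => ((k + 1 : ℕ) : ℝ) * nx S b x ^ (k + 1 - 1) * nxd S b j x)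
    (cx.pow _) (fun j => (continuous_const.mul (cx.pow _)).mul (cd j))
    (fun j => (hasD_nx S b j).pow (k + 1))
  have e0 : ddc b = ddc a := ddc_hpc a
  have e1 : lpc b = dlc (ddc a) := lpc_hpc a
  rw [e0] at w
  -- the energy
  have hDV : DV k S b = 2 * (k + 2) * (∫ x, nx S b x ^ (k + 1) * ‖tp S (ddc a) x‖ ^ 2 ∂(μT n) +
      ∫ x, rp (tp S b x) (an (fun j => ((k + 1 : ℕ) : ℝ) * nx S b x ^ (k + 1 - 1) * nxd S b j x)
        (tp S (ddc a) x)) ∂(μT n)) := by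
    have h1 : DV k S b = -(2 * (k + 2)) *
        ∫ x, nx S b x ^ (k + 1) * rp (tp S b x) (tp S (dlc (ddc a)) x) ∂(μT n) := by
      unfold DV
      rw [e1, neg_mul, ← integral_const_mul]
      congr 1
      refine integral_congr_ae (Filter.Eventually.of_forall fun x => ?_)
      show (k + 2 : ℝ) * nx S b x ^ (k + 1) * (2 * rp (tp S b x) (tp S (dlc (ddc a)) x)) =
        2 * (k + 2) * (nx S b x ^ (k + 1) * rp (tp S b x) (tp S (dlc (ddc a)) x))
      ring
    have h2 : ∫ x, nx S b x ^ (k + 1) * rp (tp S (ddc a) x) (tp S (ddc a) x) ∂(μT n) =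
        ∫ x, nx S b x ^ (k + 1) * ‖tp S (ddc a) x‖ ^ 2 ∂(μT n) := by
      refine integral_congr_ae (Filter.Eventually.of_forall fun x => ?_)
      show nx S b x ^ (k + 1) * rp (tp S (ddc a) x) (tp S (ddc a) x) =
        nx S b x ^ (k + 1) * ‖tp S (ddc a) x‖ ^ 2
      rw [rp_self]
    rw [h2] at w
    rw [h1]
    have h3 : ∫ x, nx S b x ^ (k + 1) * rp (tp S b x) (tp S (dlc (ddc a)) x) ∂(μT n) =
        -∫ x, rp (tp S b x) (an (fun j => ((k + 1 : ℕ) : ℝ) * nx S b x ^ (k + 1 - 1) *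
          nxd S b j x) (tp S (ddc a) x)) ∂(μT n) -
        ∫ x, nx S b x ^ (k + 1) * ‖tp S (ddc a) x‖ ^ 2 ∂(μT n) := by linarith
    rw [h3]
    ring
  have c1 : Continuous (fun x => nx S b x ^ (k + 1) * ‖tp S (ddc a) x‖ ^ 2) :=
    (cx.pow _).mul (cD.norm.pow 2)
  have c2 : Continuous (fun x => nx S b x ^ k * ∑ j, nxd S b j x ^ 2) :=
    (cx.pow _).mul (continuous_finsetSum _ fun j _ => (cd j).pow 2)
  have c3 : Continuous (fun x => rp (tp S b x) (an (fun j => ((k + 1 : ℕ) : ℝ) *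
      nx S b x ^ (k + 1 - 1) * nxd S b j x) (tp S (ddc a) x))) := by
    have h1 : (fun x => rp (tp S b x) (an (fun j => ((k + 1 : ℕ) : ℝ) *
        nx S b x ^ (k + 1 - 1) * nxd S b j x) (tp S (ddc a) x))) = fun x =>
        ∑ j, (((k + 1 : ℕ) : ℝ) * nx S b x ^ (k + 1 - 1) * nxd S b j x) *
          rp (tp S b x) (an (Pi.single j 1) (tp S (ddc a) x)) := by
      funext x
      rw [an_eq_sum, rp_sum_right]
      exact Finset.sum_congr rfl fun j _ => rp_smul_right _ _ _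
    rw [h1]
    refine continuous_finsetSum _ fun j _ => ?_
    refine ((continuous_const.mul (cx.pow _)).mul (cd j)).mul (continuous_rp cV ?_)
    exact (LinearMap.continuous_of_finiteDimensional (an (Pi.single j 1))).comp cD
  -- the error term
  have hE : ∫ x, rp (tp S b x) (an (fun j => ((k + 1 : ℕ) : ℝ) * nx S b x ^ (k + 1 - 1) *
      nxd S b j x) (tp S (ddc a) x)) ∂(μT n) ≤
      (k + 1) / 4 * ∫ x, nx S b x ^ k * ∑ j, nxd S b j x ^ 2 ∂(μT n) +
      (k + 1) * ∫ x, nx S b x ^ (k + 1) * ‖tp S (ddc a) x‖ ^ 2 ∂(μT n) := by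
    have c2' : Continuous (fun x => (k + 1 : ℝ) / 4 * (nx S b x ^ k * ∑ j, nxd S b j x ^ 2)) :=
      continuous_const.mul c2
    have c1' : Continuous (fun x => (k + 1 : ℝ) *
        (nx S b x ^ (k + 1) * ‖tp S (ddc a) x‖ ^ 2)) := continuous_const.mul c1
    rw [← integral_const_mul, ← integral_const_mul,
      ← integral_add (k4_integrable c2') (k4_integrable c1')]
    refine integral_mono (k4_integrable c3) (k4_integrable (c2'.add c1')) fun x => ?_
    have h0 := nx_nonneg S b x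
    have h1 := k4_point (tp S b x) (tp S (ddc a) x) (fun j => nxd S b j x)
      (((k + 1 : ℕ) : ℝ) * nx S b x ^ (k + 1 - 1)) (by positivity)
    refine h1.trans (le_of_eq ?_)
    have h2 : nsq (fun j => nxd S b j x) = ∑ j, nxd S b j x ^ 2 := rfl
    have h3 : ‖tp S b x‖ ^ 2 = nx S b x := rfl
    show ((k + 1 : ℕ) : ℝ) * nx S b x ^ (k + 1 - 1) *
        (nsq (fun j => nxd S b j x) / 4 + ‖tp S b x‖ ^ 2 * ‖tp S (ddc a) x‖ ^ 2) =
      (k + 1) / 4 * (nx S b x ^ k * ∑ j, nxd S b j x ^ 2) +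
        (k + 1) * (nx S b x ^ (k + 1) * ‖tp S (ddc a) x‖ ^ 2)
    rw [h2, h3, Nat.add_sub_cancel]
    push_cast
    ring
  -- the last term
  have hL : (k + 2) * (k + 1) * ∫ x, nx S b x ^ k * ∑ j, nxd S b j x ^ 2 ∂(μT n) ≤ DV k S b := by
    rw [dv_eq, ← integral_const_mul]
    have c4 : Continuous (fun x => 2 * (k + 2 : ℝ) * nx S b x ^ (k + 1) * gr S b x
        + (k + 2) * (k + 1) * nx S b x ^ k * ∑ j, nxd S b j x ^ 2) :=
      ((continuous_const.mul (cx.pow _)).mul cg).add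
        ((continuous_const.mul (cx.pow _)).mul (continuous_finsetSum _ fun j _ => (cd j).pow 2))
    have c5 : Continuous (fun x => (k + 2 : ℝ) * (k + 1) *
        (nx S b x ^ k * ∑ j, nxd S b j x ^ 2)) := continuous_const.mul c2
    refine integral_mono (k4_integrable c5) (k4_integrable c4) fun x => ?_
    have h0 := nx_nonneg S b x
    have h1 := gr_nonneg S b x
    show (k + 2 : ℝ) * (k + 1) * (nx S b x ^ k * ∑ j, nxd S b j x ^ 2) ≤
      2 * (k + 2 : ℝ) * nx S b x ^ (k + 1) * gr S b x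
        + (k + 2) * (k + 1) * nx S b x ^ k * ∑ j, nxd S b j x ^ 2
    have h2 : 0 ≤ 2 * (k + 2 : ℝ) * nx S b x ^ (k + 1) * gr S b x := by positivity
    linarith
  generalize (∫ x, nx S b x ^ (k + 1) * ‖tp S (ddc a) x‖ ^ 2 ∂(μT n)) = I1 at *
  generalize (∫ x, nx S b x ^ k * ∑ j, nxd S b j x ^ 2 ∂(μT n)) = I2 at *
  generalize (∫ x, rp (tp S b x) (an (fun j => ((k + 1 : ℕ) : ℝ) * nx S b x ^ (k + 1 - 1) *
      nxd S b j x) (tp S (ddc a) x)) ∂(μT n)) = I3 at *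
  have hk : (0 : ℝ) ≤ 2 * (k + 2) := by positivity
  have h5 := mul_le_mul_of_nonneg_left hE hk
  nlinarith

end Pool.Agent.Lib.QR
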