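import Pool.Agent.Lib.MP_ba1c0b_an.K3

/-!
K5: the weighted Gaffney inequality.
-/

set_option autoImplicit false

open MeasureTheory
open scoped ENNReal

namespace Pool.Agent.Lib.QR

variable {n : ℕ}

/-- Elementary: `t² ≤ A B` implies `t ≤ c A + B / (4 c)`. -/
private theorem k5_amgm {t A B c d : ℝ} (hA : 0 ≤ A) (hB : 0 ≤ B) (hc : 0 ≤ c) (hd : 0 ≤ d)
    (hcd : 4 * c * d = 1) (h : t ^ 2 ≤ A * B) : t ≤ c * A + d * B := by
  have h1 : t ^ 2 ≤ (c * A + d * B) ^ 2 := by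
    have h2 : (c * A + d * B) ^ 2 = (c * A - d * B) ^ 2 + (4 * c * d) * (A * B) := by ring
    rw [h2, hcd]
    nlinarith [sq_nonneg (c * A - d * B)]
  have h3 : 0 ≤ c * A + d * B := by positivity
  exact (abs_le_of_sq_le_sq' h1 h3).2

private theorem k5_cont_an {X : Type*} [TopologicalSpace X] (v : X → Fin n → ℝ) (G : X → V n)
    (hv : ∀ j, Continuous (fun x => v x j)) (hG : Continuous G) :
    Continuous (fun x => an (v x) (G x)) := by
  have h : (fun x => an (v x) (G x))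
      = fun x => ∑ j, ((v x j : ℝ) : ℂ) • an (Pi.single j (1 : ℝ)) (G x) := by
    funext x
    exact an_eq_sum _ _
  rw [h]
  refine continuous_finsetSum _ fun j _ => ?_
  exact (Complex.continuous_ofReal.comp (hv j)).smul
    ((LinearMap.continuous_of_finiteDimensional (an (Pi.single j (1 : ℝ)))).comp hG)

private theorem k5_cont_cr {X : Type*} [TopologicalSpace X] (v : X → Fin n → ℝ) (G : X → V n)
    (hv : ∀ j, Continuous (fun x => v x j)) (hG : Continuous G) :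
    Continuous (fun x => cr (v x) (G x)) := by
  have h : (fun x => cr (v x) (G x))
      = fun x => ∑ j, ((v x j : ℝ) : ℂ) • cr (Pi.single j (1 : ℝ)) (G x) := by
    funext x
    exact cr_eq_sum _ _
  rw [h]
  refine continuous_finsetSum _ fun j _ => ?_
  exact (Complex.continuous_ofReal.comp (hv j)).smul
    ((LinearMap.continuous_of_finiteDimensional (cr (Pi.single j (1 : ℝ)))).comp hG)

private theorem k5_int {f : UnitAddTorus (Fin n) → ℝ} (hf : Continuous f) :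
    Integrable f (μT n) :=
  hf.integrable_of_hasCompactSupport (HasCompactSupport.of_compactSpace _)

/-- A bound for the pairing with `v ⌟`. -/
private theorem k5_pair_an (v : Fin n → ℝ) (x y : V n) :
    (-rp x (an v y)) ^ 2 ≤ ‖x‖ ^ 2 * nsq v * ‖y‖ ^ 2 := by
  have h1 := abs_rp_le x (an v y)
  have h2 := norm_an_le v y
  have h3 : |rp x (an v y)| ≤ ‖x‖ * (Real.sqrt (nsq v) * ‖y‖) :=
    h1.trans (mul_le_mul_of_nonneg_left h2 (norm_nonneg _))
  have h4 : (-rp x (an v y)) ^ 2 = |rp x (an v y)| ^ 2 := by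
    rw [neg_sq, sq_abs]
  rw [h4]
  have h5 := pow_le_pow_left₀ (abs_nonneg _) h3 2
  refine h5.trans (le_of_eq ?_)
  rw [mul_pow, mul_pow, Real.sq_sqrt (nsq_nonneg v)]
  ring

private theorem k5_pair_cr (v : Fin n → ℝ) (x y : V n) :
    (-rp x (cr v y)) ^ 2 ≤ ‖x‖ ^ 2 * nsq v * ‖y‖ ^ 2 := by
  have h1 := abs_rp_le x (cr v y)
  have h2 := norm_cr_le v y
  have h3 : |rp x (cr v y)| ≤ ‖x‖ * (Real.sqrt (nsq v) * ‖y‖) :=
    h1.trans (mul_le_mul_of_nonneg_left h2 (norm_nonneg _))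
  have h4 : (-rp x (cr v y)) ^ 2 = |rp x (cr v y)| ^ 2 := by
    rw [neg_sq, sq_abs]
  rw [h4]
  have h5 := pow_le_pow_left₀ (abs_nonneg _) h3 2
  refine h5.trans (le_of_eq ?_)
  rw [mul_pow, mul_pow, Real.sq_sqrt (nsq_nonneg v)]
  ring

private theorem k5_pair_grad (v : Fin n → ℝ) (x : V n) (y : Fin n → V n) :
    (∑ j, v j * rp x (y j)) ^ 2 ≤ ‖x‖ ^ 2 * nsq v * ∑ j, ‖y j‖ ^ 2 := by
  have h1 := Finset.sum_mul_sq_le_sq_mul_sq Finset.univ v (fun j => rp x (y j))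
  have h2 : ∑ j, rp x (y j) ^ 2 ≤ ∑ j, ‖x‖ ^ 2 * ‖y j‖ ^ 2 := by
    refine Finset.sum_le_sum fun j _ => ?_
    rw [← mul_pow, ← sq_abs (rp x (y j))]
    exact pow_le_pow_left₀ (abs_nonneg _) (abs_rp_le _ _) 2
  rw [← Finset.mul_sum] at h2
  calc (∑ j, v j * rp x (y j)) ^ 2 ≤ (∑ j, v j ^ 2) * ∑ j, rp x (y j) ^ 2 := h1
    _ ≤ nsq v * (‖x‖ ^ 2 * ∑ j, ‖y j‖ ^ 2) :=
        mul_le_mul_of_nonneg_left h2 (nsq_nonneg v)
    _ = ‖x‖ ^ 2 * nsq v * ∑ j, ‖y j‖ ^ 2 := by ring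

private theorem k5_tp_lpc (S : Finset (Fin n → ℤ)) (a : (Fin n → ℤ) → V n)
    (x : UnitAddTorus (Fin n)) :
    tp S (lpc a) x = tp S (dlc (ddc a)) x + tp S (ddc (dlc a)) x := by
  unfold tp
  rw [← Finset.sum_add_distrib]
  refine Finset.sum_congr rfl fun ξ _ => ?_
  rw [← smul_add, dlc_ddc_add]

/-- PROOF. Sum of `wibp_dd` (b = ddc a), `wibp_dl` (b = dlc a) minus `wibp_grad` (b = a) and `dlc_ddc_add`:
`∫ Φ (‖dF‖² + ‖δF‖²) = ∫ Φ |∇F|² - ∫ rp F (an ∇Φ dF) - ∫ rp F (cr ∇Φ δF) + ∫ ∑ Φ_j rp F F_j`.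
Pointwise with `s = ‖F‖ |∇Φ|`, `s² ≤ Φ Ψ`: `s ‖dF‖ ≤ Φ ‖dF‖²/6 + (3/2) Ψ`, `s ‖δF‖ ≤ Φ ‖δF‖² + Ψ/4`,
`s |∇F| ≤ Φ |∇F|²/4 + Ψ`.  So `(5/6) ∫ Φ ‖dF‖² ≤ (5/4) ∫ Φ |∇F|² + (11/4) ∫ Ψ`. -/
theorem gaffney (S : Finset (Fin n → ℤ)) (a : (Fin n → ℤ) → V n)
    (Φ Ψ : UnitAddTorus (Fin n) → ℝ) (Φ' : Fin n → UnitAddTorus (Fin n) → ℝ)
    (cΦ : Continuous Φ) (cΨ : Continuous Ψ) (cΦ' : ∀ j, Continuous (Φ' j))
    (hΦ : ∀ j, HasD j Φ (Φ' j)) (h0 : ∀ x, 0 ≤ Φ x) (h1 : ∀ x, 0 ≤ Ψ x)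
    (h : ∀ x, nx S a x * ∑ j, Φ' j x ^ 2 ≤ Φ x * Ψ x) :
    ∫ x, Φ x * ‖tp S (ddc a) x‖ ^ 2 ∂(μT n)
      ≤ 3 / 2 * ∫ x, Φ x * gr S a x ∂(μT n) + 33 / 10 * ∫ x, Ψ x ∂(μT n) := by
  have cF := continuous_tp S a
  have cd := continuous_tp S (ddc a)
  have cl := continuous_tp S (dlc a)
  have e1 := wibp_dd S a (ddc a) Φ Φ' cΦ cΦ' hΦ
  have e2 := wibp_dl S a (dlc a) Φ Φ' cΦ cΦ' hΦ
  have e3 := wibp_grad S a a Φ Φ' cΦ cΦ' hΦ
  -- integrability
  have i1 : Integrable (fun x => Φ x * ‖tp S (ddc a) x‖ ^ 2) (μT n) :=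
    k5_int (cΦ.mul (cd.norm.pow 2))
  have i2 : Integrable (fun x => Φ x * ‖tp S (dlc a) x‖ ^ 2) (μT n) :=
    k5_int (cΦ.mul (cl.norm.pow 2))
  have i3 : Integrable (fun x => Φ x * gr S a x) (μT n) :=
    k5_int (cΦ.mul (continuous_gr S a))
  have i4 : Integrable Ψ (μT n) := k5_int cΨ
  have i5 : Integrable (fun x => rp (tp S a x) (an (fun j => Φ' j x) (tp S (ddc a) x))) (μT n) :=
    k5_int (continuous_rp cF (k5_cont_an (fun x j => Φ' j x) _ (fun j => cΦ' j) cd))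
  have i6 : Integrable (fun x => rp (tp S a x) (cr (fun j => Φ' j x) (tp S (dlc a) x))) (μT n) :=
    k5_int (continuous_rp cF (k5_cont_cr (fun x j => Φ' j x) _ (fun j => cΦ' j) cl))
  have i7 : Integrable (fun x => ∑ j, Φ' j x * rp (tp S a x) (tp S (pdc j a) x)) (μT n) :=
    k5_int (continuous_finsetSum _ fun j _ =>
      (cΦ' j).mul (continuous_rp cF (continuous_tp S _)))
  have i8 : Integrable (fun x => Φ x * rp (tp S a x) (tp S (dlc (ddc a)) x)) (μT n) :=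
    k5_int (cΦ.mul (continuous_rp cF (continuous_tp S _)))
  have i9 : Integrable (fun x => Φ x * rp (tp S a x) (tp S (ddc (dlc a)) x)) (μT n) :=
    k5_int (cΦ.mul (continuous_rp cF (continuous_tp S _)))
  -- identities
  have r1 : ∫ x, Φ x * rp (tp S (ddc a) x) (tp S (ddc a) x) ∂(μT n)
      = ∫ x, Φ x * ‖tp S (ddc a) x‖ ^ 2 ∂(μT n) := by
    refine integral_congr_ae (Filter.Eventually.of_forall fun x => ?_)
    simp only [rp_self]
  have r2 : ∫ x, Φ x * rp (tp S (dlc a) x) (tp S (dlc a) x) ∂(μT n)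
      = ∫ x, Φ x * ‖tp S (dlc a) x‖ ^ 2 ∂(μT n) := by
    refine integral_congr_ae (Filter.Eventually.of_forall fun x => ?_)
    simp only [rp_self]
  have r3 : ∫ x, Φ x * ∑ j, rp (tp S (pdc j a) x) (tp S (pdc j a) x) ∂(μT n)
      = ∫ x, Φ x * gr S a x ∂(μT n) := by
    refine integral_congr_ae (Filter.Eventually.of_forall fun x => ?_)
    simp only [rp_self, gr]
  have r4 : ∫ x, Φ x * rp (tp S a x) (tp S (lpc a) x) ∂(μT n)
      = ∫ x, Φ x * rp (tp S a x) (tp S (dlc (ddc a)) x) ∂(μT n)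
        + ∫ x, Φ x * rp (tp S a x) (tp S (ddc (dlc a)) x) ∂(μT n) := by
    rw [← integral_add i8 i9]
    refine integral_congr_ae (Filter.Eventually.of_forall fun x => ?_)
    simp only [k5_tp_lpc, rp_add_right]
    ring
  rw [r1] at e1
  rw [r2] at e2
  rw [r3, r4] at e3
  -- pointwise estimates, integrated
  have p1 : -∫ x, rp (tp S a x) (an (fun j => Φ' j x) (tp S (ddc a) x)) ∂(μT n)
      ≤ 1 / 6 * ∫ x, Φ x * ‖tp S (ddc a) x‖ ^ 2 ∂(μT n) + 3 / 2 * ∫ x, Ψ x ∂(μT n) := by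
    rw [← integral_neg, ← integral_const_mul, ← integral_const_mul,
      ← integral_add (i1.const_mul _) (i4.const_mul _)]
    refine integral_mono i5.neg ((i1.const_mul _).add (i4.const_mul _)) fun x => ?_
    refine k5_amgm (mul_nonneg (h0 x) (sq_nonneg _)) (h1 x) (by norm_num) (by norm_num)
      (by norm_num) ?_
    refine (k5_pair_an _ _ _).trans ?_
    have := mul_le_mul_of_nonneg_right (h x) (sq_nonneg ‖tp S (ddc a) x‖)
    unfold nx at this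
    unfold nsq
    linarith
  have p2 : -∫ x, rp (tp S a x) (cr (fun j => Φ' j x) (tp S (dlc a) x)) ∂(μT n)
      ≤ 1 * ∫ x, Φ x * ‖tp S (dlc a) x‖ ^ 2 ∂(μT n) + 1 / 4 * ∫ x, Ψ x ∂(μT n) := by
    rw [← integral_neg, ← integral_const_mul, ← integral_const_mul,
      ← integral_add (i2.const_mul _) (i4.const_mul _)]
    refine integral_mono i6.neg ((i2.const_mul _).add (i4.const_mul _)) fun x => ?_
    refine k5_amgm (mul_nonneg (h0 x) (sq_nonneg _)) (h1 x) (by norm_num) (by norm_num)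
      (by norm_num) ?_
    refine (k5_pair_cr _ _ _).trans ?_
    have := mul_le_mul_of_nonneg_right (h x) (sq_nonneg ‖tp S (dlc a) x‖)
    unfold nx at this
    unfold nsq
    linarith
  have p3 : ∫ x, ∑ j, Φ' j x * rp (tp S a x) (tp S (pdc j a) x) ∂(μT n)
      ≤ 1 / 4 * ∫ x, Φ x * gr S a x ∂(μT n) + 1 * ∫ x, Ψ x ∂(μT n) := by
    rw [← integral_const_mul, ← integral_const_mul,
      ← integral_add (i3.const_mul _) (i4.const_mul _)]
    refine integral_mono i7 ((i3.const_mul _).add (i4.const_mul _)) fun x => ?_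
    refine k5_amgm (mul_nonneg (h0 x) (gr_nonneg S a x)) (h1 x) (by norm_num) (by norm_num)
      (by norm_num) ?_
    refine (k5_pair_grad (fun j => Φ' j x) _ _).trans ?_
    have := mul_le_mul_of_nonneg_right (h x) (gr_nonneg S a x)
    unfold nx gr at this
    unfold nsq gr
    linarith
  linarith

end Pool.Agent.Lib.QR
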