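import Pool.Agent.Lib.MP_ba1c0b_an.K3

/-!
K6: the mixed energy.
-/

set_option autoImplicit false

open MeasureTheory
open scoped ENNReal

namespace Pool.Agent.Lib.QR

variable {n : ℕ}

private theorem k6_integrable {f : UnitAddTorus (Fin n) → ℝ} (hf : Continuous f) :
    Integrable f (μT n) := hf.integrable_of_hasCompactSupport (HasCompactSupport.of_compactSpace f)

/-- PROOF. `p = √(∑ X_j²)`, `q = √(∑ Y_j²)`, `|∑ X_j Y_j| ≤ p q`.  Case `x ≥ β y`: `q ≤ 2 √(x h / β)`,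
`2 (k+1) p q ≤ x h + 4 (k+1)² p²/β`.  Case `x < β y`: `2 (k+1) p q ≤ 8 (k+1) √(x g y h) ≤ (k+1) (2 y g + 8 x h)`
and `x^(k+1) ≤ (β y)^(k+1)`. -/
theorem mixed_pointwise (k : ℕ) (β x y g h : ℝ) (hβ : 0 < β) (hx : 0 ≤ x) (hy : 0 ≤ y) (hg : 0 ≤ g)
    (hh : 0 ≤ h) (X Y : Fin n → ℝ) (hX : ∑ j, X j ^ 2 ≤ 4 * x * g) (hY : ∑ j, Y j ^ 2 ≤ 4 * y * h) :
    x ^ (k + 1) * h - 4 * (k + 1) ^ 2 / β * (x ^ k * ∑ j, X j ^ 2)
        - 8 * (k + 1) * β ^ (k + 1) * (y ^ (k + 1) * h)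
      ≤ 2 * (k + 1) * x ^ k * y * g + 2 * x ^ (k + 1) * h + 2 * (k + 1) * x ^ k * ∑ j, X j * Y j := by
  have hCS : (∑ j, X j * Y j) ^ 2 ≤ (∑ j, X j ^ 2) * ∑ j, Y j ^ 2 :=
    Finset.sum_mul_sq_le_sq_mul_sq _ _ _
  have hP : 0 ≤ ∑ j, X j ^ 2 := Finset.sum_nonneg fun j _ => sq_nonneg _
  generalize (∑ j, X j * Y j) = C at *
  generalize (∑ j, X j ^ 2) = P at *
  generalize (∑ j, Y j ^ 2) = Q at *
  have hK : (0 : ℝ) < k + 1 := by positivity
  have hxk : 0 ≤ x ^ k := pow_nonneg hx k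
  have e1 : x ^ (k + 1) = x ^ k * x := pow_succ x k
  have hCQ : C ^ 2 ≤ P * (4 * y * h) := hCS.trans (mul_le_mul_of_nonneg_left hY hP)
  rcases le_total (β * y) x with hc | hc
  · have h1 : -(2 * (k + 1) * C) ≤ x * h + 4 * (k + 1) ^ 2 / β * P := by
      have hz : 0 ≤ x * h + 4 * (k + 1) ^ 2 / β * P := by positivity
      refine (neg_le_abs _).trans (abs_le_of_sq_le_sq' ?_ hz |> fun t => abs_le.2 t)
      have hyh : y * h ≤ x / β * h := by
        refine mul_le_mul_of_nonneg_right ?_ hh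
        rw [le_div_iff₀ hβ]
        linarith
      have h2 : (2 * (k + 1) * C) ^ 2 ≤ 4 * (x * h) * (4 * (k + 1) ^ 2 / β * P) := by
        calc (2 * (k + 1 : ℝ) * C) ^ 2 = 4 * (k + 1 : ℝ) ^ 2 * C ^ 2 := by ring
          _ ≤ 4 * (k + 1 : ℝ) ^ 2 * (P * (4 * y * h)) :=
              mul_le_mul_of_nonneg_left hCQ (by positivity)
          _ = 16 * (k + 1 : ℝ) ^ 2 * P * (y * h) := by ring
          _ ≤ 16 * (k + 1 : ℝ) ^ 2 * P * (x / β * h) :=
              mul_le_mul_of_nonneg_left hyh (by positivity)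
          _ = 4 * (x * h) * (4 * (k + 1) ^ 2 / β * P) := by
              field_simp
              ring
      nlinarith [sq_nonneg (x * h - 4 * (k + 1) ^ 2 / β * P)]
    have h2 := mul_le_mul_of_nonneg_left h1 hxk
    have h3 : 0 ≤ 2 * (k + 1) * x ^ k * y * g := by positivity
    have h4 : 0 ≤ 8 * (k + 1) * β ^ (k + 1) * (y ^ (k + 1) * h) := by positivity
    rw [e1]
    nlinarith [h2, h3, h4]
  · have hCC : C ^ 2 ≤ 16 * (x * g) * (y * h) := by
      have h0 : 0 ≤ 4 * y * h := by positivity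
      calc C ^ 2 ≤ P * (4 * y * h) := hCQ
        _ ≤ (4 * x * g) * (4 * y * h) := mul_le_mul_of_nonneg_right hX h0
        _ = 16 * (x * g) * (y * h) := by ring
    have h1 : -(2 * C) ≤ 2 * (y * g) + 8 * (x * h) := by
      have hz : 0 ≤ 2 * (y * g) + 8 * (x * h) := by positivity
      refine (neg_le_abs _).trans (abs_le_of_sq_le_sq' ?_ hz |> fun t => abs_le.2 t)
      nlinarith [sq_nonneg (2 * (y * g) - 8 * (x * h))]
    have h2 := mul_le_mul_of_nonneg_left h1 (mul_nonneg hK.le hxk)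
    have h3 : x ^ (k + 1) ≤ β ^ (k + 1) * y ^ (k + 1) := by
      rw [← mul_pow]
      exact pow_le_pow_left₀ hx hc _
    have h4 : 8 * (k + 1) * (x ^ (k + 1) * h) ≤ 8 * (k + 1) * β ^ (k + 1) * (y ^ (k + 1) * h) := by
      have := mul_le_mul_of_nonneg_left (mul_le_mul_of_nonneg_right h3 hh)
        (by positivity : (0 : ℝ) ≤ 8 * (k + 1))
      calc 8 * (k + 1) * (x ^ (k + 1) * h) ≤ 8 * (k + 1) * (β ^ (k + 1) * y ^ (k + 1) * h) := this
        _ = 8 * (k + 1) * β ^ (k + 1) * (y ^ (k + 1) * h) := by ring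
    have h5 : 0 ≤ x ^ (k + 1) * h := by positivity
    have h6 : 0 ≤ 4 * (k + 1) ^ 2 / β * (x ^ k * P) := by positivity
    rw [e1] at *
    nlinarith [h2, h4, h5, h6]

/-- PROOF: integrate `mixed_pointwise` and use `dm_ge`. -/
theorem mixed_energy (k : ℕ) (S : Finset (Fin n → ℤ)) (b a : (Fin n → ℤ) → V n) (β : ℝ)
    (hβ : 0 < β) :
    ∫ x, nx S b x ^ (k + 1) * gr S a x ∂(μT n)
      ≤ DM k S b a + 4 * (k + 1) ^ 2 / β * ∫ x, nx S b x ^ k * ∑ j, nxd S b j x ^ 2 ∂(μT n)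
        + 8 * (k + 1) * β ^ (k + 1) * ∫ x, nx S a x ^ (k + 1) * gr S a x ∂(μT n) := by
  have hb := continuous_nx S b
  have ha := continuous_nx S a
  have gb := continuous_gr S b
  have ga := continuous_gr S a
  have db := fun j => continuous_nxd S b j
  have da := fun j => continuous_nxd S a j
  have c1 : Continuous (fun x => nx S b x ^ (k + 1) * gr S a x) := (hb.pow _).mul ga
  have c2 : Continuous (fun x => nx S b x ^ k * ∑ j, nxd S b j x ^ 2) :=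
    (hb.pow _).mul (continuous_finsetSum _ fun j _ => (db j).pow 2)
  have c3 : Continuous (fun x => nx S a x ^ (k + 1) * gr S a x) := (ha.pow _).mul ga
  have c5 : Continuous (fun x => 2 * (k + 1 : ℝ) * nx S b x ^ k * nx S a x * gr S b x
      + 2 * nx S b x ^ (k + 1) * gr S a x
      + 2 * (k + 1 : ℝ) * nx S b x ^ k * ∑ j, nxd S b j x * nxd S a j x) :=
    ((((continuous_const.mul (hb.pow _)).mul ha).mul gb).add
      ((continuous_const.mul (hb.pow _)).mul ga)).add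
      ((continuous_const.mul (hb.pow _)).mul
        (continuous_finsetSum _ fun j _ => (db j).mul (da j)))
  have i1 := k6_integrable c1
  have i2 := (k6_integrable c2).const_mul (4 * (k + 1 : ℝ) ^ 2 / β)
  have i3 := (k6_integrable c3).const_mul (8 * (k + 1 : ℝ) * β ^ (k + 1))
  have h1 : ∫ x, (nx S b x ^ (k + 1) * gr S a x
        - 4 * (k + 1 : ℝ) ^ 2 / β * (nx S b x ^ k * ∑ j, nxd S b j x ^ 2)
        - 8 * (k + 1 : ℝ) * β ^ (k + 1) * (nx S a x ^ (k + 1) * gr S a x)) ∂(μT n)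
      ≤ ∫ x, (2 * (k + 1 : ℝ) * nx S b x ^ k * nx S a x * gr S b x
      + 2 * nx S b x ^ (k + 1) * gr S a x
      + 2 * (k + 1 : ℝ) * nx S b x ^ k * ∑ j, nxd S b j x * nxd S a j x) ∂(μT n) := by
    refine integral_mono ((i1.sub i2).sub i3) (k6_integrable c5) fun x => ?_
    exact mixed_pointwise k β (nx S b x) (nx S a x) (gr S b x) (gr S a x) hβ (nx_nonneg S b x)
      (nx_nonneg S a x) (gr_nonneg S b x) (gr_nonneg S a x) (fun j => nxd S b j x)
      (fun j => nxd S a j x) (sum_nxd_sq_le S b x) (sum_nxd_sq_le S a x)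
  have h2 := h1.trans (dm_ge k S b a)
  have s1 := integral_sub (i1.sub i2) i3
  have s2 := integral_sub i1 i2
  simp only [Pi.sub_apply] at s1
  rw [s1, s2, integral_const_mul, integral_const_mul] at h2
  linarith

/-- PROOF. `(u + v)² ≤ (5/4) u² + 5 v²` for every `j`; `β y x^k ≤ x^(k+1) + (β y)^(k+1)`. -/
theorem weight_pointwise (k : ℕ) (β x y : ℝ) (hβ : 0 < β) (hx : 0 ≤ x) (hy : 0 ≤ y)
    (X Y : Fin n → ℝ) :
    y * ∑ j, ((k + 1) * x ^ k * X j + (k + 1) * β ^ (k + 1) * y ^ k * Y j) ^ 2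
      ≤ (x ^ (k + 1) + (β * y) ^ (k + 1))
        * ((k + 1) ^ 2 * (5 / (4 * β) * (x ^ k * ∑ j, X j ^ 2)
          + 5 * β ^ (k + 1) * (y ^ k * ∑ j, Y j ^ 2))) := by
  have h0 : β * y * x ^ k ≤ x ^ (k + 1) + (β * y) ^ (k + 1) := by
    have hby : 0 ≤ β * y := by positivity
    rcases le_total (β * y) x with hc | hc
    · have h1 : β * y * x ^ k ≤ x * x ^ k := mul_le_mul_of_nonneg_right hc (pow_nonneg hx k)
      have h2 : 0 ≤ (β * y) ^ (k + 1) := pow_nonneg hby _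
      rw [pow_succ x k]
      linarith
    · have h1 : β * y * x ^ k ≤ β * y * (β * y) ^ k :=
        mul_le_mul_of_nonneg_left (pow_le_pow_left₀ hx hc k) hby
      have h2 : 0 ≤ x ^ (k + 1) := pow_nonneg hx _
      rw [pow_succ (β * y) k]
      linarith
  have hj : ∀ j, y * ((k + 1) * x ^ k * X j + (k + 1) * β ^ (k + 1) * y ^ k * Y j) ^ 2
      ≤ (x ^ (k + 1) + (β * y) ^ (k + 1))
        * ((k + 1) ^ 2 * (5 / (4 * β) * (x ^ k * X j ^ 2)
          + 5 * β ^ (k + 1) * (y ^ k * Y j ^ 2))) := by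
    intro j
    have a1 : ((k + 1) * x ^ k * X j + (k + 1) * β ^ (k + 1) * y ^ k * Y j) ^ 2
        ≤ (k + 1) ^ 2 * (5 / 4 * (x ^ k * X j) ^ 2 + 5 * (β ^ (k + 1) * y ^ k * Y j) ^ 2) := by
      have : 0 ≤ (k + 1 : ℝ) ^ 2 * (x ^ k * X j / 2 - 2 * (β ^ (k + 1) * y ^ k * Y j)) ^ 2 := by
        positivity
      nlinarith [this]
    have a2 : y * (5 / 4 * (x ^ k * X j) ^ 2)
        ≤ (x ^ (k + 1) + (β * y) ^ (k + 1)) * (5 / (4 * β) * (x ^ k * X j ^ 2)) := by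
      have h1 : 0 ≤ 5 / (4 * β) * (x ^ k * X j ^ 2) := by positivity
      have h2 := mul_le_mul_of_nonneg_right h0 h1
      have h3 : β * y * x ^ k * (5 / (4 * β) * (x ^ k * X j ^ 2))
          = y * (5 / 4 * (x ^ k * X j) ^ 2) := by
        field_simp
      linarith
    have a3 : y * (5 * (β ^ (k + 1) * y ^ k * Y j) ^ 2)
        ≤ (x ^ (k + 1) + (β * y) ^ (k + 1)) * (5 * β ^ (k + 1) * (y ^ k * Y j ^ 2)) := by
      have h1 : 0 ≤ x ^ (k + 1) * (5 * β ^ (k + 1) * (y ^ k * Y j ^ 2)) := by positivity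
      have h2 : (β * y) ^ (k + 1) * (5 * β ^ (k + 1) * (y ^ k * Y j ^ 2))
          = y * (5 * (β ^ (k + 1) * y ^ k * Y j) ^ 2) := by
        rw [mul_pow]
        ring
      linarith
    have a4 : 0 ≤ (k + 1 : ℝ) ^ 2 := by positivity
    calc y * ((k + 1) * x ^ k * X j + (k + 1) * β ^ (k + 1) * y ^ k * Y j) ^ 2
        ≤ y * ((k + 1) ^ 2 * (5 / 4 * (x ^ k * X j) ^ 2
          + 5 * (β ^ (k + 1) * y ^ k * Y j) ^ 2)) := mul_le_mul_of_nonneg_left a1 hy
      _ = (k + 1) ^ 2 * (y * (5 / 4 * (x ^ k * X j) ^ 2)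
          + y * (5 * (β ^ (k + 1) * y ^ k * Y j) ^ 2)) := by ring
      _ ≤ (k + 1) ^ 2 * ((x ^ (k + 1) + (β * y) ^ (k + 1)) * (5 / (4 * β) * (x ^ k * X j ^ 2))
          + (x ^ (k + 1) + (β * y) ^ (k + 1)) * (5 * β ^ (k + 1) * (y ^ k * Y j ^ 2))) :=
          mul_le_mul_of_nonneg_left (add_le_add a2 a3) a4
      _ = _ := by ring
  have hs := Finset.sum_le_sum fun j (_ : j ∈ (Finset.univ : Finset (Fin n))) => hj j
  calc y * ∑ j, ((k + 1) * x ^ k * X j + (k + 1) * β ^ (k + 1) * y ^ k * Y j) ^ 2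
      = ∑ j, y * ((k + 1) * x ^ k * X j + (k + 1) * β ^ (k + 1) * y ^ k * Y j) ^ 2 :=
        Finset.mul_sum _ _ _
    _ ≤ _ := hs
    _ = _ := by
        simp only [Finset.mul_sum, ← Finset.sum_add_distrib]

end Pool.Agent.Lib.QR
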