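import Pool.Agent.Lib.MP_ba1c0b_an.K4
import Pool.Agent.Lib.MP_ba1c0b_an.K5
import Pool.Agent.Lib.MP_ba1c0b_an.K6

/-!
K7: the inequality at a fixed time.
-/

set_option autoImplicit false

open MeasureTheory
open scoped ENNReal

namespace Pool.Agent.Lib.QR

variable {n : ℕ}

private theorem k7_int {f : UnitAddTorus (Fin n) → ℝ} (hf : Continuous f) :
    Integrable f (μT n) :=
  hf.integrable_of_hasCompactSupport (HasCompactSupport.of_compactSpace _)

/-- The arithmetic of the constants. -/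
private theorem k7_arith (k : ℝ) (hk : 0 ≤ k) (β B X J Jb Q Sx Sy A D M : ℝ)
    (hβ : β = 81 * (k + 2) ^ 2) (hB : 0 ≤ B) (hJb : 0 ≤ Jb) (hQ : 0 ≤ Q) (hSx : 0 ≤ Sx)
    (hSy : 0 ≤ Sy)
    (h1 : X ≤ 3 / 2 * (J + B * Q)
      + 33 / 10 * ((k + 1) ^ 2 * (5 / (4 * β) * Sx + 5 * B * Sy)))
    (h2 : J ≤ M + 4 * (k + 1) ^ 2 / β * Sx + 8 * (k + 1) * B * Q)
    (h3 : D = 2 * (k + 2) * Jb + (k + 2) * (k + 1) * Sx)
    (h4 : A = 2 * (k + 2) * Q + (k + 2) * (k + 1) * Sy)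
    (h5 : D ≤ 4 * (k + 2) ^ 2 * X) :
    D ≤ 12 * (k + 2) ^ 2 * M + 9 / 4 * (β * B) * A := by
  have hm : 0 < (k + 2) ^ 2 := by positivity
  have hβ0 : 0 < β := by rw [hβ]; positivity
  -- the bound for `X`
  have hX : X ≤ 3 / 2 * M + 81 / 8 * ((k + 1) ^ 2 * Sx / β)
      + B * ((12 * (k + 1) + 3 / 2) * Q + 33 / 2 * ((k + 1) ^ 2 * Sy)) := by
    have e1 : 5 / (4 * β) * Sx = 5 / 4 * (Sx / β) := by
      field_simp
    have e2 : 4 * (k + 1) ^ 2 / β * Sx = 4 * (k + 1) ^ 2 * (Sx / β) := by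
      field_simp
    have e3 : (k + 1) ^ 2 * Sx / β = (k + 1) ^ 2 * (Sx / β) := by
      ring
    rw [e1] at h1
    rw [e2] at h2
    rw [e3]
    nlinarith [h1, h2]
  -- the two remaining terms
  have hx1 : (k + 1) ^ 2 * Sx ≤ D := by
    rw [h3]
    have : 0 ≤ (k + 1) * Sx := by positivity
    have h' : 0 ≤ 2 * (k + 2) * Jb := by positivity
    nlinarith
  have hy1 : (12 * (k + 1) + 3 / 2) * Q + 33 / 2 * ((k + 1) ^ 2 * Sy) ≤ 33 / 2 * A := by
    rw [h4]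
    have h6 : 0 ≤ (k + 1) * Sy := by positivity
    have h7 : 0 ≤ k * Q := by positivity
    nlinarith
  have hA : 0 ≤ A := by rw [h4]; positivity
  have hB1 : B * ((12 * (k + 1) + 3 / 2) * Q + 33 / 2 * ((k + 1) ^ 2 * Sy))
      ≤ B * (33 / 2 * A) := mul_le_mul_of_nonneg_left hy1 hB
  have hx2 : (k + 2) ^ 2 * ((k + 1) ^ 2 * Sx / β) ≤ D / 81 := by
    have e : (k + 2) ^ 2 * ((k + 1) ^ 2 * Sx / β) = (k + 1) ^ 2 * Sx / 81 := by
      rw [hβ]
      field_simp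
    rw [e]
    linarith
  have h6 : 4 * (k + 2) ^ 2 * X ≤ 4 * (k + 2) ^ 2 * (3 / 2 * M
      + 81 / 8 * ((k + 1) ^ 2 * Sx / β) + B * (33 / 2 * A)) := by
    refine mul_le_mul_of_nonneg_left ?_ (by positivity)
    linarith
  have h7 : D ≤ 6 * (k + 2) ^ 2 * M + D / 2 + 66 * ((k + 2) ^ 2 * (B * A)) := by
    nlinarith
  have h8 : 0 ≤ (k + 2) ^ 2 * (B * A) := by positivity
  have h9 : 9 / 4 * (β * B) * A = 729 / 4 * ((k + 2) ^ 2 * (B * A)) := by
    rw [hβ]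
    ring
  rw [h9]
  linarith

/-- PROOF. `m = k + 2`, `β = 81 m²`, `x = nx S (hpc a)`, `y = nx S a`, `Φ = x^(k+1) + (β y)^(k+1)`,
`Ψ = (k+1)² (5/(4β) x^k |∇x|² + 5 β^(k+1) y^k |∇y|²)` (`weight_pointwise`, `gaffney`).  With `X = ∫ x^(k+1) ‖dF‖²`,
`Sx = ∫ x^k |∇x|²`, `Sy = ∫ y^k |∇y|²`, `Q = ∫ y^(k+1) |∇F|²`, `J = ∫ x^(k+1) |∇F|²`:
`X ≤ ∫ Φ ‖dF‖² ≤ (3/2) (J + β^(k+1) Q) + (33/10) (k+1)² (5/(4β) Sx + 5 β^(k+1) Sy)`,
`J ≤ DM + 4 (k+1)²/β Sx + 8 (k+1) β^(k+1) Q` (`mixed_energy`), `m (k+1) Sx ≤ DV (hpc a)`,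
`m (k+1) Sy ≤ DV a`, `2 m Q ≤ DV a` (`dv_eq`), so
`X ≤ (3/2) DM + (10.125/β) DV (hpc a) + 22.5 β^(k+1) DV a`; finally `DV (hpc a) ≤ 4 m² X` (`dv_le_X`). -/
theorem fixed_time (k : ℕ) (S : Finset (Fin n → ℤ)) (a : (Fin n → ℤ) → V n) :
    DV k S (hpc a)
      ≤ 12 * (k + 2) ^ 2 * DM k S (hpc a) a
        + 9 / 4 * (81 * (k + 2) ^ 2) ^ (k + 2) * DV k S a := by
  set b := hpc a with hb
  have cb := continuous_nx S b
  have ca := continuous_nx S a
  have db := fun j => continuous_nxd S b j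
  have da := fun j => continuous_nxd S a j
  have gb := continuous_gr S b
  have ga := continuous_gr S a
  have cd := continuous_tp S (ddc a)
  have sb : Continuous (fun x => ∑ j, nxd S b j x ^ 2) :=
    continuous_finsetSum _ fun j _ => (db j).pow 2
  have sa : Continuous (fun x => ∑ j, nxd S a j x ^ 2) :=
    continuous_finsetSum _ fun j _ => (da j).pow 2
  obtain ⟨β, hβ⟩ : ∃ β : ℝ, β = 81 * ((k : ℝ) + 2) ^ 2 := ⟨_, rfl⟩
  have hβ0 : 0 < β := by rw [hβ]; positivity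
  -- integrability
  have iJ : Integrable (fun x => nx S b x ^ (k + 1) * gr S a x) (μT n) :=
    k7_int ((cb.pow _).mul ga)
  have iQ : Integrable (fun x => nx S a x ^ (k + 1) * gr S a x) (μT n) :=
    k7_int ((ca.pow _).mul ga)
  have iJb : Integrable (fun x => nx S b x ^ (k + 1) * gr S b x) (μT n) :=
    k7_int ((cb.pow _).mul gb)
  have iSx : Integrable (fun x => nx S b x ^ k * ∑ j, nxd S b j x ^ 2) (μT n) :=
    k7_int ((cb.pow _).mul sb)
  have iSy : Integrable (fun x => nx S a x ^ k * ∑ j, nxd S a j x ^ 2) (μT n) :=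
    k7_int ((ca.pow _).mul sa)
  have iX : Integrable (fun x => nx S b x ^ (k + 1) * ‖tp S (ddc a) x‖ ^ 2) (μT n) :=
    k7_int ((cb.pow _).mul (cd.norm.pow 2))
  -- the weights
  have cΦ : Continuous (fun x => nx S b x ^ (k + 1) + β ^ (k + 1) * nx S a x ^ (k + 1)) :=
    (cb.pow _).add (continuous_const.mul (ca.pow _))
  have iΦ : Integrable (fun x => (nx S b x ^ (k + 1) + β ^ (k + 1) * nx S a x ^ (k + 1))
      * ‖tp S (ddc a) x‖ ^ 2) (μT n) :=
    k7_int (cΦ.mul (cd.norm.pow 2))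
  have hG := gaffney S a
    (fun x => nx S b x ^ (k + 1) + β ^ (k + 1) * nx S a x ^ (k + 1))
    (fun x => ((k : ℝ) + 1) ^ 2 * (5 / (4 * β) * (nx S b x ^ k * ∑ j, nxd S b j x ^ 2)
      + 5 * β ^ (k + 1) * (nx S a x ^ k * ∑ j, nxd S a j x ^ 2)))
    (fun j x => ((k + 1 : ℕ) : ℝ) * nx S b x ^ (k + 1 - 1) * nxd S b j x
      + β ^ (k + 1) * (((k + 1 : ℕ) : ℝ) * nx S a x ^ (k + 1 - 1) * nxd S a j x))
    cΦ
    (continuous_const.mul ((continuous_const.mul ((cb.pow _).mul sb)).add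
      (continuous_const.mul ((ca.pow _).mul sa))))
    (fun j => ((continuous_const.mul (cb.pow _)).mul (db j)).add
      (continuous_const.mul ((continuous_const.mul (ca.pow _)).mul (da j))))
    (fun j => ((hasD_nx S b j).pow (k + 1)).add (((hasD_nx S a j).pow (k + 1)).const_mul _))
    (fun x => by
      have h1 := nx_nonneg S b x
      have h2 := nx_nonneg S a x
      positivity)
    (fun x => by
      have h1 := nx_nonneg S b x
      have h2 := nx_nonneg S a x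
      positivity)
    (fun x => by
      have h := weight_pointwise k β (nx S b x) (nx S a x) hβ0 (nx_nonneg S b x)
        (nx_nonneg S a x) (fun j => nxd S b j x) (fun j => nxd S a j x)
      rw [mul_pow] at h
      refine le_trans (le_of_eq ?_) h
      congr 1
      refine Finset.sum_congr rfl fun j _ => ?_
      have e : k + 1 - 1 = k := by omega
      rw [e]
      push_cast
      ring)
  -- rewriting the integrals
  have g1 : ∫ x, (nx S b x ^ (k + 1) + β ^ (k + 1) * nx S a x ^ (k + 1)) * gr S a x ∂(μT n)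
      = (∫ x, nx S b x ^ (k + 1) * gr S a x ∂(μT n))
        + β ^ (k + 1) * ∫ x, nx S a x ^ (k + 1) * gr S a x ∂(μT n) := by
    rw [← integral_const_mul, ← integral_add iJ (iQ.const_mul _)]
    refine integral_congr_ae (Filter.Eventually.of_forall fun x => ?_)
    simp only
    ring
  have g2 : ∫ x, ((k : ℝ) + 1) ^ 2 * (5 / (4 * β) * (nx S b x ^ k * ∑ j, nxd S b j x ^ 2)
      + 5 * β ^ (k + 1) * (nx S a x ^ k * ∑ j, nxd S a j x ^ 2)) ∂(μT n)
      = ((k : ℝ) + 1) ^ 2 * (5 / (4 * β) * (∫ x, nx S b x ^ k * ∑ j, nxd S b j x ^ 2 ∂(μT n))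
        + 5 * β ^ (k + 1) * ∫ x, nx S a x ^ k * ∑ j, nxd S a j x ^ 2 ∂(μT n)) := by
    rw [integral_const_mul, integral_add (iSx.const_mul _) (iSy.const_mul _),
      integral_const_mul, integral_const_mul]
  have g3 : ∫ x, nx S b x ^ (k + 1) * ‖tp S (ddc a) x‖ ^ 2 ∂(μT n)
      ≤ ∫ x, (nx S b x ^ (k + 1) + β ^ (k + 1) * nx S a x ^ (k + 1))
        * ‖tp S (ddc a) x‖ ^ 2 ∂(μT n) := by
    refine integral_mono iX iΦ fun x => ?_
    have h2 := nx_nonneg S a x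
    have h3 : 0 ≤ β ^ (k + 1) * nx S a x ^ (k + 1) := by positivity
    exact mul_le_mul_of_nonneg_right (by linarith) (by positivity)
  rw [g1, g2] at hG
  have hM := mixed_energy k S b a β hβ0
  have hDb : DV k S b = 2 * ((k : ℝ) + 2) * (∫ x, nx S b x ^ (k + 1) * gr S b x ∂(μT n))
      + ((k : ℝ) + 2) * ((k : ℝ) + 1) * ∫ x, nx S b x ^ k * ∑ j, nxd S b j x ^ 2 ∂(μT n) := by
    rw [dv_eq, ← integral_const_mul, ← integral_const_mul,
      ← integral_add (iJb.const_mul _) (iSx.const_mul _)]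
    refine integral_congr_ae (Filter.Eventually.of_forall fun x => ?_)
    simp only
    ring
  have hDa : DV k S a = 2 * ((k : ℝ) + 2) * (∫ x, nx S a x ^ (k + 1) * gr S a x ∂(μT n))
      + ((k : ℝ) + 2) * ((k : ℝ) + 1) * ∫ x, nx S a x ^ k * ∑ j, nxd S a j x ^ 2 ∂(μT n) := by
    rw [dv_eq, ← integral_const_mul, ← integral_const_mul,
      ← integral_add (iQ.const_mul _) (iSy.const_mul _)]
    refine integral_congr_ae (Filter.Eventually.of_forall fun x => ?_)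
    simp only
    ring
  have pJb : 0 ≤ ∫ x, nx S b x ^ (k + 1) * gr S b x ∂(μT n) :=
    integral_nonneg fun x => mul_nonneg (pow_nonneg (nx_nonneg S b x) _) (gr_nonneg S b x)
  have pQ : 0 ≤ ∫ x, nx S a x ^ (k + 1) * gr S a x ∂(μT n) :=
    integral_nonneg fun x => mul_nonneg (pow_nonneg (nx_nonneg S a x) _) (gr_nonneg S a x)
  have pSx : 0 ≤ ∫ x, nx S b x ^ k * ∑ j, nxd S b j x ^ 2 ∂(μT n) :=
    integral_nonneg fun x => mul_nonneg (pow_nonneg (nx_nonneg S b x) _)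
      (Finset.sum_nonneg fun j _ => sq_nonneg _)
  have pSy : 0 ≤ ∫ x, nx S a x ^ k * ∑ j, nxd S a j x ^ 2 ∂(μT n) :=
    integral_nonneg fun x => mul_nonneg (pow_nonneg (nx_nonneg S a x) _)
      (Finset.sum_nonneg fun j _ => sq_nonneg _)
  have hV := dv_le_X k S a
  rw [← hb] at hV
  have := k7_arith (k : ℝ) (Nat.cast_nonneg k) β (β ^ (k + 1)) _ _ _ _ _ _ _ _ _ hβ
    (by positivity) pJb pQ pSx pSy (g3.trans hG) hM hDb hDa hV
  refine this.trans (le_of_eq ?_)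
  have e : (81 * ((k : ℝ) + 2) ^ 2) ^ (k + 2) = β * β ^ (k + 1) := by
    rw [← hβ]
    ring
  rw [e]

end Pool.Agent.Lib.QR
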