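import Pool.Agent.Lib.MP_ba1c0b_an.K7
import Pool.Agent.Lib.MP_ba1c0b_an.K1

/-!
K8: the heat flow.
-/

set_option autoImplicit false

open MeasureTheory
open scoped ENNReal

namespace Pool.Agent.Lib.QR

variable {n : ℕ}

theorem hpc_ht_c (t : ℝ) (a : (Fin n → ℤ) → V n) : hpc (ht_c t a) = ht_c t (hpc a) := by
  funext ξ
  simp only [hpc, ht_c, map_smul]
  rw [smul_comm]

private theorem k8_lpc_ht_c (t : ℝ) (a : (Fin n → ℤ) → V n) :
    lpc (ht_c t a) = ht_c t (lpc a) := by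
  funext ξ
  simp only [lpc, ht_c]
  rw [smul_comm]

private theorem k8_ht (S : Finset (Fin n → ℤ)) (a : (Fin n → ℤ) → V n) (t : ℝ)
    (x : UnitAddTorus (Fin n)) :
    HasDerivAt (fun s => tp S (ht_c s a) x) (tp S (lpc (ht_c t a)) x) t :=
  hasDerivAt_ht_c S a t x

private theorem k8_nx (S : Finset (Fin n → ℤ)) (a : (Fin n → ℤ) → V n) (t : ℝ)
    (x : UnitAddTorus (Fin n)) :
    HasDerivAt (fun s => nx S (ht_c s a) x)
      (2 * rp (tp S (ht_c t a) x) (tp S (lpc (ht_c t a)) x)) t := by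
  have h1 := k8_ht S a t x
  have h2 := HasDerivAt.inner ℂ h1 h1
  have h3 := Complex.reCLM.hasFDerivAt.comp_hasDerivAt t h2
  have e1 : (fun s => nx S (ht_c s a) x)
      = (⇑Complex.reCLM ∘ fun s => inner ℂ (tp S (ht_c s a) x) (tp S (ht_c s a) x)) := by
    funext s
    have := rp_self (tp S (ht_c s a) x)
    simp only [rp] at this
    simp only [Function.comp, Complex.reCLM_apply, nx]
    exact this.symm
  rw [e1]
  refine h3.congr_deriv ?_
  have h4 := rp_comm (tp S (ht_c t a) x) (tp S (lpc (ht_c t a)) x)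
  simp only [rp] at h4 ⊢
  simp only [Complex.reCLM_apply, Complex.add_re]
  rw [← h4]
  ring

private theorem k8_cnx (S : Finset (Fin n → ℤ)) (a : (Fin n → ℤ) → V n) :
    Continuous (fun p : ℝ × UnitAddTorus (Fin n) => nx S (ht_c p.1 a) p.2) := by
  unfold nx
  exact (continuous_ht_c S a).norm.pow 2

private theorem k8_crp (S : Finset (Fin n → ℤ)) (a : (Fin n → ℤ) → V n) :
    Continuous (fun p : ℝ × UnitAddTorus (Fin n) =>
      rp (tp S (ht_c p.1 a) p.2) (tp S (lpc (ht_c p.1 a)) p.2)) := by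
  have h1 := continuous_ht_c S a
  have h2 : Continuous (fun p : ℝ × UnitAddTorus (Fin n) => tp S (lpc (ht_c p.1 a)) p.2) := by
    have h3 := continuous_ht_c S (lpc a)
    simp only [k8_lpc_ht_c]
    exact h3
  exact continuous_rp h1 h2

/-- PROOF. With `x t = nx S (ht_c t (hpc a))`, `y t = nx S (ht_c t a)`, `m = k + 2`, `K = 9/4 (81 m²)^m`:
`E t = ∫ (12 m² x^(k+1) y + K y^m - x^m)` has `E' t = - 12 m² DM - K DV a + DV (hpc a) ≤ 0` (`fixed_time` for
`ht_c t a`, `hasDerivAt_integral_torus`, `hasDerivAt_ht_c`), so `E` is antitone; `E t ≥ - ∫ x^m → 0`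
(`tendsto_ht_c`, `hpc_zero`), so `E 0 ≥ 0`. -/
theorem evolution (k : ℕ) (S : Finset (Fin n → ℤ)) (a : (Fin n → ℤ) → V n) :
    ∫ x, nx S (hpc a) x ^ (k + 2) ∂(μT n)
      ≤ 12 * (k + 2) ^ 2 * ∫ x, nx S (hpc a) x ^ (k + 1) * nx S a x ∂(μT n)
        + 9 / 4 * (81 * (k + 2) ^ 2) ^ (k + 2) * ∫ x, nx S a x ^ (k + 2) ∂(μT n) := by
  set A : ℝ := 12 * (k + 2) ^ 2 with hA
  set K : ℝ := 9 / 4 * (81 * (k + 2) ^ 2) ^ (k + 2) with hK
  have hA0 : 0 ≤ A := by positivity
  have hK0 : 0 ≤ K := by positivity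
  let X : ℝ → UnitAddTorus (Fin n) → ℝ := fun s x => nx S (ht_c s (hpc a)) x
  let Y : ℝ → UnitAddTorus (Fin n) → ℝ := fun s x => nx S (ht_c s a) x
  let X' : ℝ → UnitAddTorus (Fin n) → ℝ := fun s x =>
    2 * rp (tp S (ht_c s (hpc a)) x) (tp S (lpc (ht_c s (hpc a))) x)
  let Y' : ℝ → UnitAddTorus (Fin n) → ℝ := fun s x =>
    2 * rp (tp S (ht_c s a) x) (tp S (lpc (ht_c s a)) x)
  have cX : Continuous (fun p : ℝ × UnitAddTorus (Fin n) => X p.1 p.2) := k8_cnx S (hpc a)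
  have cY : Continuous (fun p : ℝ × UnitAddTorus (Fin n) => Y p.1 p.2) := k8_cnx S a
  have cX' : Continuous (fun p : ℝ × UnitAddTorus (Fin n) => X' p.1 p.2) :=
    continuous_const.mul (k8_crp S (hpc a))
  have cY' : Continuous (fun p : ℝ × UnitAddTorus (Fin n) => Y' p.1 p.2) :=
    continuous_const.mul (k8_crp S a)
  have dX : ∀ t x, HasDerivAt (fun s => X s x) (X' t x) t := fun t x => k8_nx S (hpc a) t x
  have dY : ∀ t x, HasDerivAt (fun s => Y s x) (Y' t x) t := fun t x => k8_nx S a t x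
  let G1 : ℝ → UnitAddTorus (Fin n) → ℝ := fun s x => X s x ^ (k + 1) * Y s x
  let G2 : ℝ → UnitAddTorus (Fin n) → ℝ := fun s x => Y s x ^ (k + 2)
  let G3 : ℝ → UnitAddTorus (Fin n) → ℝ := fun s x => X s x ^ (k + 2)
  let G1' : ℝ → UnitAddTorus (Fin n) → ℝ := fun s x =>
    (k + 1 : ℝ) * X s x ^ k * Y s x * X' s x + X s x ^ (k + 1) * Y' s x
  let G2' : ℝ → UnitAddTorus (Fin n) → ℝ := fun s x => (k + 2 : ℝ) * Y s x ^ (k + 1) * Y' s x
  let G3' : ℝ → UnitAddTorus (Fin n) → ℝ := fun s x => (k + 2 : ℝ) * X s x ^ (k + 1) * X' s x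
  have D1 : ∀ t, HasDerivAt (fun s => ∫ x, G1 s x ∂(μT n)) (∫ x, G1' t x ∂(μT n)) t := by
    intro t
    refine hasDerivAt_integral_torus G1 G1' ((cX.pow _).mul cY)
      ((((continuous_const.mul (cX.pow _)).mul cY).mul cX').add ((cX.pow _).mul cY')) ?_ t
    intro t x
    have h := ((dX t x).pow (k + 1)).mul (dY t x)
    refine h.congr_deriv ?_
    simp only [G1', Nat.add_sub_cancel]
    push_cast
    simp only [Pi.pow_apply]
    ring
  have D2 : ∀ t, HasDerivAt (fun s => ∫ x, G2 s x ∂(μT n)) (∫ x, G2' t x ∂(μT n)) t := by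
    intro t
    refine hasDerivAt_integral_torus G2 G2' (cY.pow _)
      ((continuous_const.mul (cY.pow _)).mul cY') ?_ t
    intro t x
    have h := (dY t x).pow (k + 2)
    refine h.congr_deriv ?_
    have e : k + 2 - 1 = k + 1 := by omega
    simp only [G2', e]
    push_cast
    ring
  have D3 : ∀ t, HasDerivAt (fun s => ∫ x, G3 s x ∂(μT n)) (∫ x, G3' t x ∂(μT n)) t := by
    intro t
    refine hasDerivAt_integral_torus G3 G3' (cX.pow _)
      ((continuous_const.mul (cX.pow _)).mul cX') ?_ t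
    intro t x
    have h := (dX t x).pow (k + 2)
    refine h.congr_deriv ?_
    have e : k + 2 - 1 = k + 1 := by omega
    simp only [G3', e]
    push_cast
    ring
  let E : ℝ → ℝ := fun t =>
    A * (∫ x, G1 t x ∂(μT n)) + K * (∫ x, G2 t x ∂(μT n)) - ∫ x, G3 t x ∂(μT n)
  have DE : ∀ t, HasDerivAt E
      (A * (∫ x, G1' t x ∂(μT n)) + K * (∫ x, G2' t x ∂(μT n)) - ∫ x, G3' t x ∂(μT n)) t := by
    intro t
    exact (((D1 t).const_mul A).add ((D2 t).const_mul K)).sub (D3 t)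
  have hneg : ∀ t,
      A * (∫ x, G1' t x ∂(μT n)) + K * (∫ x, G2' t x ∂(μT n)) - ∫ x, G3' t x ∂(μT n) ≤ 0 := by
    intro t
    have h := fixed_time k S (ht_c t a)
    rw [hpc_ht_c] at h
    have e1 : DM k S (ht_c t (hpc a)) (ht_c t a) = -∫ x, G1' t x ∂(μT n) := rfl
    have e2 : DV k S (ht_c t a) = -∫ x, G2' t x ∂(μT n) := rfl
    have e3 : DV k S (ht_c t (hpc a)) = -∫ x, G3' t x ∂(μT n) := rfl
    rw [e1, e2, e3] at h
    rw [← hA, ← hK] at h
    linarith
  have hanti : Antitone E := by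
    apply antitone_of_deriv_nonpos (fun t => (DE t).differentiableAt)
    intro t
    rw [(DE t).deriv]
    exact hneg t
  have h1 : ∀ t, 0 ≤ ∫ x, G1 t x ∂(μT n) := fun t =>
    integral_nonneg fun x => mul_nonneg (pow_nonneg (nx_nonneg _ _ _) _) (nx_nonneg _ _ _)
  have h2 : ∀ t, 0 ≤ ∫ x, G2 t x ∂(μT n) := fun t =>
    integral_nonneg fun x => pow_nonneg (nx_nonneg _ _ _) _
  have hlow : ∀ t, -∫ x, G3 t x ∂(μT n) ≤ E t := by
    intro t
    have := mul_nonneg hA0 (h1 t)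
    have := mul_nonneg hK0 (h2 t)
    simp only [E]
    linarith
  have hlim : Filter.Tendsto (fun t => ∫ x, G3 t x ∂(μT n)) Filter.atTop (nhds 0) := by
    have h := tendsto_ht_c (k + 2) (by omega) S (hpc a) (hpc_zero a)
    have e : (fun t => ∫ x, G3 t x ∂(μT n))
        = (fun t => ∫ x, ‖tp S (ht_c t (hpc a)) x‖ ^ (2 * (k + 2)) ∂(μT n)) := by
      funext t
      congr 1
      funext x
      simp only [G3, X, nx]
      rw [← pow_mul]
    rw [e]
    exact h
  have hE0 : 0 ≤ E 0 := by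
    have hl2 : Filter.Tendsto (fun t => -∫ x, G3 t x ∂(μT n)) Filter.atTop (nhds 0) := by
      have := hlim.neg
      rwa [neg_zero] at this
    refine le_of_tendsto hl2 ?_
    filter_upwards [Filter.eventually_ge_atTop (0 : ℝ)] with t ht
    exact (hlow t).trans (hanti ht)
  simp only [E, G1, G2, G3, X, Y, ht_c_zero] at hE0
  linarith

end Pool.Agent.Lib.QR
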