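import Pool.Agent.Lib.MP_ba1c0b_an.K8
import Pool.Agent.Lib.MP_ba1c0b_an.A2

/-!
K9: the Hodge projection is bounded on `L^{2m}` by `12 m`, in every dimension and degree.
-/

set_option autoImplicit false

open MeasureTheory
open scoped ENNReal

namespace Pool.Agent.Lib.QR

variable {n : ℕ}

private theorem k9_int (f : UnitAddTorus (Fin n) → ℝ) (hf : Continuous f) :
    Integrable f (μT n) :=
  hf.integrable_of_hasCompactSupport (HasCompactSupport.of_compactSpace f)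

private theorem k9_pt (k : ℕ) (M x y : ℝ) (hx : 0 ≤ x) (hy : 0 ≤ y) (hM : 0 < M) :
    12 * M * (x ^ (k + 1) * y) ≤ (x ^ (k + 2) + (144 * M) ^ (k + 2) * y ^ (k + 2)) / 12 := by
  rcases le_total (144 * M * y) x with h | h
  · have h1 : 12 * M * (x ^ (k + 1) * y) ≤ x ^ (k + 2) / 12 := by
      have h2 : 0 ≤ x ^ (k + 1) := by positivity
      have h3 := mul_le_mul_of_nonneg_left h h2
      rw [pow_succ x (k + 1)]
      nlinarith
    have h4 : 0 ≤ (144 * M) ^ (k + 2) * y ^ (k + 2) := by positivity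
    linarith
  · have h1 : x ^ (k + 1) ≤ (144 * M * y) ^ (k + 1) := pow_le_pow_left₀ hx h _
    have h2 : (144 * M) ^ (k + 2) * y ^ (k + 2) = (144 * M * y) ^ (k + 1) * (144 * M * y) := by
      rw [← mul_pow, pow_succ]
    have h3 : 0 ≤ x ^ (k + 2) := by positivity
    have h5 : 0 ≤ M * y := by positivity
    have h4 := mul_le_mul_of_nonneg_right h1 h5
    rw [h2]
    nlinarith

/-- PROOF. `12 m² x^(m-1) y ≤ (x^m + (144 m²)^m y^m)/12` (cases `x ≥ 144 m² y`, `x < 144 m² y`), so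
`(11/12) ∫ x^m ≤ (144 m²)^m (1/12 + (9/4) (81/144)^m) ∫ y^m` and `(9/4) (81/144)^m ≤ 0.712`. -/
theorem hodge_bound (m : ℕ) (hm : 2 ≤ m) (S : Finset (Fin n → ℤ)) (a : (Fin n → ℤ) → V n) :
    ∫ x, ‖tp S (hpc a) x‖ ^ (2 * m) ∂(μT n)
      ≤ (12 * m : ℝ) ^ (2 * m) * ∫ x, ‖tp S a x‖ ^ (2 * m) ∂(μT n) := by
  obtain ⟨k, rfl⟩ : ∃ k, m = k + 2 := ⟨m - 2, by omega⟩
  have hev := evolution k S a
  have hpw : ∀ (b : (Fin n → ℤ) → V n) (x : UnitAddTorus (Fin n)),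
      ‖tp S b x‖ ^ (2 * (k + 2)) = nx S b x ^ (k + 2) := fun b x => by
    unfold nx
    rw [← pow_mul]
  simp_rw [hpw]
  set X := ∫ x, nx S (hpc a) x ^ (k + 2) ∂(μT n) with hX
  set Y := ∫ x, nx S a x ^ (k + 2) ∂(μT n) with hY
  have hY0 : 0 ≤ Y := integral_nonneg fun x => pow_nonneg (nx_nonneg S a x) _
  have hM : (0 : ℝ) < ((k : ℝ) + 2) ^ 2 := by positivity
  have cX : Continuous (nx S (hpc a)) := continuous_nx S (hpc a)
  have cY : Continuous (nx S a) := continuous_nx S a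
  have h1 : 12 * ((k : ℝ) + 2) ^ 2 * ∫ x, nx S (hpc a) x ^ (k + 1) * nx S a x ∂(μT n)
      ≤ (X + (144 * ((k : ℝ) + 2) ^ 2) ^ (k + 2) * Y) / 12 := by
    have e1 : (X + (144 * ((k : ℝ) + 2) ^ 2) ^ (k + 2) * Y) / 12
        = ∫ x, (nx S (hpc a) x ^ (k + 2)
          + (144 * ((k : ℝ) + 2) ^ 2) ^ (k + 2) * nx S a x ^ (k + 2)) / 12 ∂(μT n) := by
      have i1 : Integrable (fun x => nx S (hpc a) x ^ (k + 2)) (μT n) := k9_int _ (cX.pow _)
      have i2 : Integrable (fun x => (144 * ((k : ℝ) + 2) ^ 2) ^ (k + 2) * nx S a x ^ (k + 2))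
          (μT n) := k9_int _ (continuous_const.mul (cY.pow _))
      rw [integral_div, integral_add i1 i2, integral_const_mul]
    rw [e1, ← integral_const_mul]
    apply integral_mono (k9_int _ (continuous_const.mul ((cX.pow _).mul cY)))
      (k9_int _ (((cX.pow _).add (continuous_const.mul (cY.pow _))).div_const _))
    intro x
    exact k9_pt k _ _ _ (nx_nonneg S _ x) (nx_nonneg S _ x) hM
  have h2 : (9 / 4 : ℝ) * (81 * ((k : ℝ) + 2) ^ 2) ^ (k + 2)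
      ≤ 729 / 1024 * (144 * ((k : ℝ) + 2) ^ 2) ^ (k + 2) := by
    have e2 : (81 * ((k : ℝ) + 2) ^ 2) ^ (k + 2)
        = (9 / 16) ^ (k + 2) * (144 * ((k : ℝ) + 2) ^ 2) ^ (k + 2) := by
      rw [← mul_pow]
      congr 1
      ring
    have h3 : (9 / 16 : ℝ) ^ (k + 2) ≤ (9 / 16) ^ 2 :=
      pow_le_pow_of_le_one (by norm_num) (by norm_num) (by omega)
    have h4 : (0 : ℝ) ≤ (144 * ((k : ℝ) + 2) ^ 2) ^ (k + 2) := by positivity
    rw [e2]
    nlinarith [mul_le_mul_of_nonneg_right h3 h4]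
  have h5 := mul_le_mul_of_nonneg_right h2 hY0
  have e3 : (12 * ((k + 2 : ℕ) : ℝ)) ^ (2 * (k + 2)) = (144 * ((k : ℝ) + 2) ^ 2) ^ (k + 2) := by
    rw [pow_mul]
    congr 1
    push_cast
    ring
  rw [e3]
  have h6 : 0 ≤ (144 * ((k : ℝ) + 2) ^ 2) ^ (k + 2) * Y := by positivity
  linarith

/-- PROOF: `hodge_bound` for `dg l ∘ a`, `norm_dg_le`. -/
theorem proj_dimfree (l m : ℕ) (hm : 2 ≤ m) (S : Finset (Fin n → ℤ)) (a : (Fin n → ℤ) → V n) :
    ∫ x, ‖tp S (fun ξ => Pj l ξ (a ξ)) x‖ ^ (2 * m) ∂(μT n)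
      ≤ (12 * m : ℝ) ^ (2 * m) * ∫ x, ‖tp S a x‖ ^ (2 * m) ∂(μT n) := by
  have h1 := hodge_bound m hm S (fun ξ => dg l (a ξ))
  have h2 : ∀ x, tp S (fun ξ => dg l (a ξ)) x = dg l (tp S a x) := by
    intro x
    unfold tp
    rw [map_sum]
    simp_rw [map_smul]
  refine h1.trans (mul_le_mul_of_nonneg_left ?_ (by positivity))
  apply integral_mono (k9_int _ ((continuous_tp S _).norm.pow _))
    (k9_int _ ((continuous_tp S _).norm.pow _))
  intro x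
  show ‖tp S (fun ξ => dg l (a ξ)) x‖ ^ (2 * m) ≤ ‖tp S a x‖ ^ (2 * m)
  rw [h2]
  exact pow_le_pow_left₀ (norm_nonneg _) (norm_dg_le l _) _

end Pool.Agent.Lib.QR
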