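import Pool.Agent.Lib.MP_ba1c0b_an.Defs

/-!
L1: the lower bound (inversion).
-/

set_option autoImplicit false

open MeasureTheory Filter Topology Metric Set
open scoped ENNReal NNReal

namespace Pool.Agent.Lib.QR

variable {n : ℕ}

/-- The reflection in the first coordinate. -/
private noncomputable def R0 (hn : 3 ≤ n) : E n ≃ₗᵢ[ℝ] E n :=
  (ℝ ∙ (EuclideanSpace.single (⟨0, by omega⟩ : Fin n) (1 : ℝ) : E n))ᗮ.reflection

/-- The reflected inversion. -/
private noncomputable def fL (hn : 3 ≤ n) (x : E n) : E n := (‖x‖ ^ 2)⁻¹ • R0 hn x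

/-- The isometry in the derivative of `fL`. -/
private noncomputable def IL (hn : 3 ≤ n) (x : E n) : E n ≃ₗᵢ[ℝ] E n :=
  ((ℝ ∙ x)ᗮ.reflection).trans (R0 hn)

private lemma nontriv (hn : 3 ≤ n) : Nontrivial (E n) := by
  have : Nonempty (Fin n) := ⟨⟨0, by omega⟩⟩
  infer_instance

private lemma fL_deriv (hn : 3 ≤ n) {x : E n} (hx : x ≠ 0) :
    HasFDerivAt (fL hn) ((‖x‖ ^ 2)⁻¹ •
      ((IL hn x).toContinuousLinearEquiv : E n →L[ℝ] E n)) x := by
  have h1 := EuclideanGeometry.hasFDerivAt_inversion (c := (0 : E n)) (x := x) (R := 1) hx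
  have h2 := ((R0 hn).toContinuousLinearEquiv : E n →L[ℝ] E n).hasFDerivAt.comp x h1
  have e1 : (fL hn) = (⇑((R0 hn).toContinuousLinearEquiv : E n →L[ℝ] E n)) ∘
      EuclideanGeometry.inversion (0 : E n) 1 := by
    funext y
    simp [fL, EuclideanGeometry.inversion]
  rw [e1]
  refine h2.congr_fderiv ?_
  ext v
  simp [IL]

private lemma fL_norm (hn : 3 ≤ n) (x : E n) : ‖fL hn x‖ = ‖x‖⁻¹ := by
  rw [fL, norm_smul, LinearIsometryEquiv.norm_map, norm_inv, norm_pow, norm_norm]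
  by_cases hx : x = 0
  · simp [hx]
  · have : ‖x‖ ≠ 0 := norm_ne_zero_iff.2 hx
    field_simp

private lemma DfL_norm (hn : 3 ≤ n) {x : E n} (hx : x ≠ 0) :
    ‖fderiv ℝ (fL hn) x‖ = (‖x‖ ^ 2)⁻¹ := by
  have := nontriv hn
  rw [(fL_deriv hn hx).fderiv, norm_smul]
  have h1 : ‖((IL hn x).toContinuousLinearEquiv : E n →L[ℝ] E n)‖ = 1 :=
    (IL hn x).toLinearIsometry.norm_toContinuousLinearMap
  rw [h1]
  simp

private lemma det_refl {x : E n} (hx : x ≠ 0) :
    LinearMap.det ((ℝ ∙ x)ᗮ.reflection.toLinearEquiv : E n →ₗ[ℝ] E n) = -1 := by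
  have h := Submodule.det_reflection ((ℝ ∙ x)ᗮ)
  have h2 : Module.finrank ℝ ((ℝ ∙ x)ᗮᗮ : Submodule ℝ (E n)) = 1 := by
    rw [Submodule.orthogonal_orthogonal]
    exact finrank_span_singleton hx
  rw [h2, pow_one] at h
  exact h

private lemma DfL_conf (hn : 3 ≤ n) {x : E n} (hx : x ≠ 0) :
    ‖fderiv ℝ (fL hn) x‖ ^ n ≤ LinearMap.det (fderiv ℝ (fL hn) x : E n →ₗ[ℝ] E n) := by
  rw [DfL_norm hn hx, (fL_deriv hn hx).fderiv]
  have e1 : (((‖x‖ ^ 2)⁻¹ • ((IL hn x).toContinuousLinearEquiv : E n →L[ℝ] E n) :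
      E n →L[ℝ] E n) : E n →ₗ[ℝ] E n) = (‖x‖ ^ 2)⁻¹ •
        (((R0 hn).toLinearEquiv : E n →ₗ[ℝ] E n) ∘ₗ
          ((ℝ ∙ x)ᗮ.reflection.toLinearEquiv : E n →ₗ[ℝ] E n)) := by
    ext v i
    simp [IL]
  have h3 : (EuclideanSpace.single (⟨0, by omega⟩ : Fin n) (1 : ℝ) : E n) ≠ 0 := by
    intro h
    have := congrArg norm h
    simp at this
  rw [e1, LinearMap.det_smul, LinearMap.det_comp, det_refl hx]
  have h4 : LinearMap.det ((R0 hn).toLinearEquiv : E n →ₗ[ℝ] E n) = -1 := det_refl h3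
  rw [h4]
  simp


private lemma fL_meas (hn : 3 ≤ n) : Measurable (fL hn) := by
  unfold fL
  have h1 : Measurable fun x : E n => (‖x‖ ^ 2)⁻¹ := (measurable_norm.pow_const 2).inv
  exact h1.smul (R0 hn).continuous.measurable

private lemma DfL_meas (hn : 3 ≤ n) : AEStronglyMeasurable (fderiv ℝ (fL hn)) (volume : Measure (E n)) :=
  (measurable_fderiv ℝ (fL hn)).aestronglyMeasurable

private lemma fr_E : Module.finrank ℝ (E n) = n := by simp

private lemma li1 (hn : 3 ≤ n) : LocallyIntegrable (fun x : E n => ‖x‖⁻¹) volume := by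
  refine locallyIntegrable_of_norm_le_rpow (C := 1) (α := 1) (by rw [fr_E]; omega)
    (by rw [fr_E]; exact_mod_cast (by omega : 1 < n)) (ae_of_all _ fun x => ?_)
    measurable_norm.inv.aestronglyMeasurable
  rw [Real.rpow_neg_one, one_mul, norm_inv, norm_norm]

private lemma li2 (hn : 3 ≤ n) : LocallyIntegrable (fun x : E n => (‖x‖ ^ 2)⁻¹) volume := by
  refine locallyIntegrable_of_norm_le_rpow (C := 1) (α := 2) (by rw [fr_E]; omega)
    (by rw [fr_E]; exact_mod_cast (by omega : 2 < n)) (ae_of_all _ fun x => ?_)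
    (measurable_norm.pow_const 2).inv.aestronglyMeasurable
  rw [Real.rpow_neg (norm_nonneg x), one_mul, norm_inv, norm_pow, norm_norm]
  simp

private lemma ae_ne (hn : 3 ≤ n) : ∀ᵐ x : E n, x ≠ 0 := by
  have := nontriv hn
  have h : (volume : Measure (E n)) {0} = 0 := measure_singleton 0
  rw [ae_iff]
  simp

private lemma fL_memLp (hn : 3 ≤ n) {q : ℝ} (hq : 1 < q) (hqn : q < n / 2) {C : Set (E n)}
    (hC : IsCompact C) : MemLp (fL hn) (ENNReal.ofReal q) (volume.restrict C) := by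
  have hq0 : 0 < q := by linarith
  rw [← integrable_norm_rpow_iff (fL_meas hn).aestronglyMeasurable (by simpa using hq0) (by simp),
    ENNReal.toReal_ofReal hq0.le]
  have h : LocallyIntegrable (fun x : E n => ‖fL hn x‖ ^ q) volume := by
    refine locallyIntegrable_of_norm_le_rpow (C := 1) (α := q) (by rw [fr_E]; omega)
      (by rw [fr_E]; linarith [show (0 : ℝ) < n by exact_mod_cast (by omega : 0 < n)])
      (ae_of_all _ fun x => ?_)
      ((fL_meas hn).norm.pow_const q).aestronglyMeasurable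
    rw [fL_norm, Real.rpow_neg (norm_nonneg x), one_mul, Real.inv_rpow (norm_nonneg x),
      norm_inv, Real.norm_of_nonneg (Real.rpow_nonneg (norm_nonneg x) _)]
  exact h.integrableOn_isCompact hC

private lemma DfL_memLp (hn : 3 ≤ n) {q : ℝ} (hq : 1 < q) (hqn : q < n / 2) {C : Set (E n)}
    (hC : IsCompact C) :
    MemLp (fderiv ℝ (fL hn)) (ENNReal.ofReal q) (volume.restrict C) := by
  have hq0 : 0 < q := by linarith
  rw [← integrable_norm_rpow_iff (DfL_meas hn).restrict (by simpa using hq0) (by simp),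
    ENNReal.toReal_ofReal hq0.le]
  have h : LocallyIntegrable (fun x : E n => ‖fderiv ℝ (fL hn) x‖ ^ q) volume := by
    refine locallyIntegrable_of_norm_le_rpow (C := 1) (α := 2 * q) (by rw [fr_E]; omega)
      (by rw [fr_E]; linarith) ?_
      (((measurable_fderiv ℝ (fL hn)).norm).pow_const q).aestronglyMeasurable
    filter_upwards [ae_ne hn] with x hx
    rw [DfL_norm hn hx, Real.rpow_neg (norm_nonneg x), one_mul,
      Real.norm_of_nonneg (Real.rpow_nonneg (by positivity) _), Real.inv_rpow (by positivity),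
      Real.rpow_mul (norm_nonneg x), Real.rpow_two]
  exact h.integrableOn_isCompact hC

private lemma not_memLp (hn : 3 ≤ n) :
    ¬ MemLp (fderiv ℝ (fL hn)) (n : ℝ≥0∞) (volume.restrict (closedBall (0 : E n) 1)) := by
  have := nontriv hn
  intro h
  have hn0 : (n : ℝ≥0∞) ≠ 0 := by
    simp; omega
  rw [← integrable_norm_rpow_iff (DfL_meas hn).restrict hn0 (by simp)] at h
  have h1 : IntegrableOn (fun x : E n => ‖fderiv ℝ (fL hn) x‖ ^ ((n : ℝ≥0∞).toReal))
      (ball (0 : E n) 1) volume := IntegrableOn.mono_set h ball_subset_closedBall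
  have h2 : IntegrableOn (fun x : E n => (fun r : ℝ => ((r ^ 2)⁻¹) ^ n) ‖x‖)
      (ball (0 : E n) 1) volume := by
    refine h1.congr ?_
    filter_upwards [ae_restrict_of_ae (ae_ne hn)] with x hx
    rw [DfL_norm hn hx, ENNReal.toReal_natCast, Real.rpow_natCast]
  rw [integrableOn_fun_norm_addHaar volume (f := fun r : ℝ => ((r ^ 2)⁻¹) ^ n), fr_E] at h2
  have h3 : IntegrableOn (fun y : ℝ => y ^ (-(n : ℝ) - 1)) (Ioo 0 1) := by
    refine h2.congr_fun (fun y hy => ?_) measurableSet_Ioo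
    have hy0 : 0 < y := hy.1
    have e : y ^ (-(n : ℝ) - 1) = (y ^ (n + 1))⁻¹ := by
      rw [← Real.rpow_natCast y (n + 1), ← Real.rpow_neg hy0.le]
      congr 1
      push_cast
      ring
    show y ^ (n - 1) • ((y ^ 2)⁻¹) ^ n = y ^ (-(n : ℝ) - 1)
    rw [e, smul_eq_mul, inv_pow, ← pow_mul]
    have e2 : y ^ (2 * n) = y ^ (n - 1) * y ^ (n + 1) := by
      rw [← pow_add]; congr 1; omega
    rw [e2]
    have : y ^ (n - 1) ≠ 0 := by positivity
    have : y ^ (n + 1) ≠ 0 := by positivity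
    field_simp
  rw [intervalIntegral.integrableOn_Ioo_rpow_iff one_pos] at h3
  have : (0 : ℝ) < n := by exact_mod_cast (by omega : 0 < n)
  linarith


/-- A fixed bump function. -/
private noncomputable def bχ (n : ℕ) : ContDiffBump (0 : E n) := ⟨1, 2, one_pos, one_lt_two⟩

private lemma bχ_far {y : E n} (hy : 2 < ‖y‖) : bχ n y = 0 ∧ fderiv ℝ (bχ n) y = 0 := by
  have h0 : ∀ z : E n, 2 < ‖z‖ → bχ n z = 0 := fun z hz =>
    (bχ n).zero_of_le_dist (by rw [dist_zero_right]; exact hz.le)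
  refine ⟨h0 y hy, ?_⟩
  have h1 : (bχ n : E n → ℝ) =ᶠ[𝓝 y] fun _ => (0 : ℝ) := by
    have h2 : ∀ᶠ z in 𝓝 y, 2 < ‖z‖ := continuous_norm.continuousAt.eventually (lt_mem_nhds hy)
    filter_upwards [h2] with z hz using h0 z hz
  rw [h1.fderiv_eq]
  simp

private lemma bχ_smooth : ContDiff ℝ ((⊤ : ℕ∞) : WithTop ℕ∞) (bχ n : E n → ℝ) := (bχ n).contDiff

private lemma bχ_bound (n : ℕ) : ∃ K : ℝ, 0 ≤ K ∧ ∀ y : E n, ‖y‖ * ‖fderiv ℝ (bχ n) y‖ ≤ K := by
  have h1 : HasCompactSupport (fderiv ℝ (bχ n : E n → ℝ)) := (bχ n).hasCompactSupport.fderiv ℝ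
  have h2 : Continuous (fderiv ℝ (bχ n : E n → ℝ)) :=
    bχ_smooth.continuous_fderiv (by simp)
  obtain ⟨C, hC⟩ := h1.exists_bound_of_continuous h2
  have hC0 : 0 ≤ C := (norm_nonneg _).trans (hC 0)
  refine ⟨2 * C, by linarith, fun y => ?_⟩
  rcases le_or_gt ‖y‖ 2 with h | h
  · exact mul_le_mul h (hC y) (norm_nonneg _) (by norm_num)
  · rw [(bχ_far h).2, norm_zero, mul_zero]; linarith

/-- The test function cut off near zero. -/
private noncomputable def ψc (φ : E n → ℝ) (m : ℕ) (x : E n) : ℝ :=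
  φ x * (1 - bχ n (((m : ℝ) + 1) • x))

private lemma ψc_smooth {φ : E n → ℝ} (h1 : ContDiff ℝ ((⊤ : ℕ∞) : WithTop ℕ∞) φ) (m : ℕ) :
    ContDiff ℝ ((⊤ : ℕ∞) : WithTop ℕ∞) (ψc φ m) := by
  have h2 : ContDiff ℝ ((⊤ : ℕ∞) : WithTop ℕ∞) (fun x : E n => bχ n (((m : ℝ) + 1) • x)) :=
    bχ_smooth.comp (contDiff_const_smul _)
  exact h1.mul (contDiff_const.sub h2)

private lemma ψc_fderiv {φ : E n → ℝ} (h1 : ContDiff ℝ ((⊤ : ℕ∞) : WithTop ℕ∞) φ) (m : ℕ)
    (x v : E n) : fderiv ℝ (ψc φ m) x v = fderiv ℝ φ x v * (1 - bχ n (((m : ℝ) + 1) • x)) -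
      φ x * (((m : ℝ) + 1) * fderiv ℝ (bχ n) (((m : ℝ) + 1) • x) v) := by
  have a1 : HasFDerivAt φ (fderiv ℝ φ x) x :=
    (h1.differentiable (by simp) x).hasFDerivAt
  have a2 : HasFDerivAt (bχ n : E n → ℝ) (fderiv ℝ (bχ n) (((m : ℝ) + 1) • x))
      (((m : ℝ) + 1) • x) := (bχ_smooth.differentiable (by simp) _).hasFDerivAt
  have a3 : HasFDerivAt (fun x : E n => ((m : ℝ) + 1) • x)
      (((m : ℝ) + 1) • ContinuousLinearMap.id ℝ (E n)) x :=
    (hasFDerivAt_id (𝕜 := ℝ) x).const_smul ((m : ℝ) + 1)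
  have a4 := a2.comp x a3
  have a5 := a1.mul (a4.const_sub 1)
  have a6 : HasFDerivAt (ψc φ m) _ x := a5
  rw [a6.fderiv]
  simp
  ring

private lemma ψc_zero {φ : E n → ℝ} (m : ℕ) {x : E n} (hx : x ∈ tsupport (ψc φ m)) : x ≠ 0 := by
  rintro rfl
  refine absurd hx ?_
  rw [notMem_tsupport_iff_eventuallyEq]
  have h1 : Tendsto (fun x : E n => ((m : ℝ) + 1) • x) (𝓝 0) (𝓝 0) := by
    have : Continuous fun x : E n => ((m : ℝ) + 1) • x := by fun_prop
    simpa using this.tendsto 0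
  filter_upwards [h1.eventually (bχ n).eventuallyEq_one] with x hx
  simp only [ψc, Pi.zero_apply]
  rw [hx]
  simp

private lemma fL_ibp (hn : 3 ≤ n) (φ : E n → ℝ) (h1 : ContDiff ℝ ((⊤ : ℕ∞) : WithTop ℕ∞) φ)
    (h2 : HasCompactSupport φ) (v : E n) :
    ∫ x, (fderiv ℝ φ x v) • fL hn x = -∫ x, φ x • (fderiv ℝ (fL hn) x) v := by
  have lf : LocallyIntegrable (fL hn) volume := by
    refine (li1 hn).mono (fL_meas hn).aestronglyMeasurable (ae_of_all _ fun x => ?_)
    rw [fL_norm, norm_inv, norm_norm]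
  have lD : LocallyIntegrable (fun x => fderiv ℝ (fL hn) x v) volume := by
    refine ((li2 hn).smul ‖v‖).mono
      ((measurable_fderiv_apply_const ℝ (fL hn) v).aestronglyMeasurable) ?_
    filter_upwards [ae_ne hn] with x hx
    refine (ContinuousLinearMap.le_opNorm _ _).trans ?_
    rw [DfL_norm hn hx]
    simp only [Pi.smul_apply, smul_eq_mul, norm_mul, norm_norm, norm_inv, norm_pow]
    rw [mul_comm]
  have hφ' : Continuous fun x => fderiv ℝ φ x v :=
    (h1.continuous_fderiv (by simp)).clm_apply continuous_const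
  have hφ'c : HasCompactSupport fun x => fderiv ℝ φ x v :=
    (h2.fderiv ℝ).comp_left (g := fun L : E n →L[ℝ] ℝ => L v) (by simp)
  have hψc : ∀ m, HasCompactSupport (ψc φ m) := fun m => h2.mul_right
  have key : ∀ m : ℕ, ∫ x, ψc φ m x • (fderiv ℝ (fL hn) x) v =
      -∫ x, (fderiv ℝ (ψc φ m) x v) • fL hn x := by
    intro m
    have hs := ψc_smooth h1 m
    have hs' : Continuous fun x => fderiv ℝ (ψc φ m) x v :=
      (hs.continuous_fderiv (by simp)).clm_apply continuous_const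
    have hs'c : HasCompactSupport fun x => fderiv ℝ (ψc φ m) x v :=
      ((hψc m).fderiv ℝ).comp_left (g := fun L : E n →L[ℝ] ℝ => L v) (by simp)
    refine integral_bilinear_hasFDerivAt_right_eq_neg_left_of_integrable
      (B := ContinuousLinearMap.lsmul ℝ ℝ) (f := ψc φ m) (f' := fderiv ℝ (ψc φ m))
      (g := fL hn) (g' := fderiv ℝ (fL hn)) ?_ ?_ ?_ ?_ ?_
    · exact lf.integrable_smul_left_of_hasCompactSupport hs' hs'c
    · exact lD.integrable_smul_left_of_hasCompactSupport hs.continuous (hψc m)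
    · exact lf.integrable_smul_left_of_hasCompactSupport hs.continuous (hψc m)
    · exact fun x _ => (hs.differentiable (by simp) x).hasFDerivAt
    · exact fun x hx => (fL_deriv hn (ψc_zero m hx)).differentiableAt.hasFDerivAt
  obtain ⟨K, hK0, hK⟩ := bχ_bound n
  -- the cut-off at a point
  have hev : ∀ x : E n, x ≠ 0 → ∀ᶠ m : ℕ in atTop, 2 < ‖((m : ℝ) + 1) • x‖ := by
    intro x hx
    have hx0 : 0 < ‖x‖ := norm_pos_iff.2 hx
    have h3 : Tendsto (fun m : ℕ => ((m : ℝ) + 1) * ‖x‖) atTop atTop :=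
      (tendsto_atTop_add_const_right _ _ tendsto_natCast_atTop_atTop).atTop_mul_const hx0
    filter_upwards [h3.eventually_gt_atTop 2] with m hm
    rw [norm_smul, Real.norm_of_nonneg (by positivity)]
    exact hm
  have h01 : ∀ y : E n, ‖1 - bχ n y‖ ≤ 1 := by
    intro y
    have a1 := (bχ n).nonneg (x := y)
    have a2 := (bχ n).le_one (x := y)
    rw [Real.norm_of_nonneg (by linarith)]
    linarith
  have limA : Tendsto (fun m : ℕ => ∫ x, ψc φ m x • (fderiv ℝ (fL hn) x) v) atTop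
      (𝓝 (∫ x, φ x • (fderiv ℝ (fL hn) x) v)) := by
    refine tendsto_integral_of_dominated_convergence
      (fun x => ‖φ x • (fderiv ℝ (fL hn) x) v‖) (fun m => ?_) ?_ (fun m => ?_) ?_
    · exact ((ψc_smooth h1 m).continuous.measurable.smul
        (measurable_fderiv_apply_const ℝ (fL hn) v)).aestronglyMeasurable
    · exact (lD.integrable_smul_left_of_hasCompactSupport h1.continuous h2).norm
    · refine ae_of_all _ fun x => ?_
      rw [norm_smul, norm_smul, ψc, norm_mul]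
      have := h01 (((m : ℝ) + 1) • x)
      refine mul_le_mul_of_nonneg_right ?_ (norm_nonneg _)
      exact mul_le_of_le_one_right (norm_nonneg _) this
    · filter_upwards [ae_ne hn] with x hx
      refine tendsto_const_nhds.congr' ?_
      filter_upwards [hev x hx] with m hm
      rw [ψc, (bχ_far hm).1]
      simp
  have limB : Tendsto (fun m : ℕ => ∫ x, (fderiv ℝ (ψc φ m) x v) • fL hn x) atTop
      (𝓝 (∫ x, (fderiv ℝ φ x v) • fL hn x)) := by
    refine tendsto_integral_of_dominated_convergence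
      (fun x => ‖(fderiv ℝ φ x v) • fL hn x‖ + ‖φ x • (K * ‖v‖ * (‖x‖ ^ 2)⁻¹)‖)
      (fun m => ?_) ?_ (fun m => ?_) ?_
    · exact (((ψc_smooth h1 m).continuous_fderiv (by simp)).clm_apply
        continuous_const).measurable.smul (fL_meas hn) |>.aestronglyMeasurable
    · refine (lf.integrable_smul_left_of_hasCompactSupport hφ' hφ'c).norm.add ?_
      exact (((li2 hn).smul (K * ‖v‖)).integrable_smul_left_of_hasCompactSupport
        h1.continuous h2).norm
    · refine ae_of_all _ fun x => ?_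
      by_cases hx : x = 0
      · subst hx
        simp [fL]
      have hx0 : 0 < ‖x‖ := norm_pos_iff.2 hx
      rw [ψc_fderiv h1, sub_smul]
      refine (norm_sub_le _ _).trans (add_le_add ?_ ?_)
      · rw [norm_smul, norm_smul, norm_mul]
        refine mul_le_mul_of_nonneg_right ?_ (norm_nonneg _)
        exact mul_le_of_le_one_right (norm_nonneg _) (h01 _)
      · rw [norm_smul, norm_smul, norm_mul, fL_norm, mul_assoc]
        refine mul_le_mul_of_nonneg_left ?_ (norm_nonneg _)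
        have b1 := hK (((m : ℝ) + 1) • x)
        rw [norm_smul, Real.norm_of_nonneg (by positivity : (0 : ℝ) ≤ (m : ℝ) + 1)] at b1
        have b2 := ContinuousLinearMap.le_opNorm (fderiv ℝ (bχ n) (((m : ℝ) + 1) • x)) v
        rw [norm_mul, Real.norm_of_nonneg (by positivity : (0 : ℝ) ≤ (m : ℝ) + 1),
          Real.norm_of_nonneg (by positivity : (0 : ℝ) ≤ K * ‖v‖ * (‖x‖ ^ 2)⁻¹)]
        have b3 : ((m : ℝ) + 1) * ‖(fderiv ℝ (bχ n) (((m : ℝ) + 1) • x)) v‖ ≤
            ((m : ℝ) + 1) * (‖fderiv ℝ (bχ n) (((m : ℝ) + 1) • x)‖ * ‖v‖) :=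
          mul_le_mul_of_nonneg_left b2 (by positivity)
        have b4 : ((m : ℝ) + 1) * ‖fderiv ℝ (bχ n) (((m : ℝ) + 1) • x)‖ ≤ K * ‖x‖⁻¹ := by
          rw [← div_eq_mul_inv, le_div_iff₀ hx0]
          nlinarith [b1]
        calc ((m : ℝ) + 1) * ‖(fderiv ℝ (bχ n) (((m : ℝ) + 1) • x)) v‖ * ‖x‖⁻¹
            ≤ (((m : ℝ) + 1) * (‖fderiv ℝ (bχ n) (((m : ℝ) + 1) • x)‖ * ‖v‖)) * ‖x‖⁻¹ :=
              mul_le_mul_of_nonneg_right b3 (by positivity)
          _ = (((m : ℝ) + 1) * ‖fderiv ℝ (bχ n) (((m : ℝ) + 1) • x)‖) * (‖v‖ * ‖x‖⁻¹) := by ring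
          _ ≤ (K * ‖x‖⁻¹) * (‖v‖ * ‖x‖⁻¹) := mul_le_mul_of_nonneg_right b4 (by positivity)
          _ = K * ‖v‖ * (‖x‖ ^ 2)⁻¹ := by rw [pow_two, mul_inv]; ring
    · filter_upwards [ae_ne hn] with x hx
      refine tendsto_const_nhds.congr' ?_
      filter_upwards [hev x hx] with m hm
      rw [ψc_fderiv h1, (bχ_far hm).1, (bχ_far hm).2]
      simp
  have limC : Tendsto (fun m : ℕ => ∫ x, ψc φ m x • (fderiv ℝ (fL hn) x) v) atTop
      (𝓝 (-∫ x, (fderiv ℝ φ x v) • fL hn x)) := by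
    refine limB.neg.congr fun m => ?_
    rw [key m]
  rw [tendsto_nhds_unique limA limC, neg_neg]

/-- PROOF. Suppose `1 < q < n/2`.  Take `Ω = univ`, `f x = ρ (x / ‖x‖²)` with `ρ` the reflection
`x ↦ x - 2 x_0 e_0`, `Df x v = ρ ((v - 2 ⟪x,v⟫ x/‖x‖²)/‖x‖²)` (zero at `x = 0`): `‖Df x‖ = ‖x‖⁻²`,
`det (Df x) = ‖x‖^(-2n)` (product of two reflections, determinant 1, times `‖x‖⁻²`).  `Df ∈ L^q` on compacts since
`2q < n`, `f ∈ L^q` as `q < n`; weak derivative: test function times the cut-off `1 - χ(x/r)`, the extra term is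
`≤ (C/r) ∫_{B_2r} ‖x‖⁻¹ → 0`.  But `∫_{B_1} ‖x‖^(-2n) = ∞`, so `Df ∉ L^n(B_1)`. -/
theorem lower (hn : 3 ≤ n) (q : ℝ) (h : QProp n q) : (n : ℝ) / 2 ≤ q := by
  by_contra hlt
  push Not at hlt
  obtain ⟨hq1, -, hq⟩ := h
  have h1 := hq univ (fL hn) (fderiv ℝ (fL hn)) isOpen_univ
    (fun C hC _ => ⟨fL_memLp hn hq1 hlt hC, DfL_memLp hn hq1 hlt hC⟩)
    (fun φ h1 h2 _ v => fL_ibp hn φ h1 h2 v)
    (by
      rw [Measure.restrict_univ]
      filter_upwards [ae_ne hn] with x hx using DfL_conf hn hx)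
    (closedBall 0 1) (isCompact_closedBall 0 1) (subset_univ _)
  exact not_memLp hn h1.2

/-- PROOF: `QProp n n` holds trivially. -/
theorem qprop_self (hn : 3 ≤ n) : QProp n n := by
  refine ⟨by exact_mod_cast (by omega : 1 < n), le_rfl, ?_⟩
  intro Ω f Df _ hC _ _ C h1 h2
  have h3 := hC C h1 h2
  rwa [ENNReal.ofReal_natCast] at h3

end Pool.Agent.Lib.QR
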