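import Pool.Agent.Lib.MP_ba1c0b_an.Defs

/-!
M1: Sobolev maps with compact support: approximation by smooth maps.
-/

set_option autoImplicit false

open MeasureTheory Filter Topology
open scoped ENNReal NNReal

namespace Pool.Agent.Lib.QR

variable {n : ℕ}

section M1Aux

variable {F : Type*} [NormedAddCommGroup F] [NormedSpace ℝ F] [CompleteSpace F]

private lemma M1_int_sub (χ : E n → ℝ) (h1 : ∫ x, χ x = 1) (x : E n) :
    ∫ y, χ (x - y) = 1 := by
  rw [integral_sub_left_eq_self χ volume x, h1]

omit [CompleteSpace F] in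
private lemma M1_pointwise (χ : E n → ℝ) (hc : Continuous χ) (h0 : ∀ x, 0 ≤ χ x)
    (h1 : ∫ x, χ x = 1) (hcs : HasCompactSupport χ) {p : ℝ≥0∞} (hp1 : 1 ≤ p) (hp : p ≠ ∞)
    (f : E n → F) (hf : AEStronglyMeasurable f volume) (x : E n) :
    ‖∫ y, χ (x - y) • f y‖ₑ ^ p.toReal
      ≤ ∫⁻ y, ENNReal.ofReal (χ (x - y)) * ‖f y‖ₑ ^ p.toReal := by
  have hp0 : p ≠ 0 := (lt_of_lt_of_le one_pos hp1).ne'
  have hr : 0 < p.toReal := ENNReal.toReal_pos hp0 hp
  have hcx : Continuous (fun y => χ (x - y)) := hc.comp (continuous_const.sub continuous_id)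
  have hmx : Measurable (fun y => ENNReal.ofReal (χ (x - y))) :=
    ENNReal.measurable_ofReal.comp hcx.measurable
  have hint : Integrable (fun y => χ (x - y)) :=
    (hc.integrable_of_hasCompactSupport hcs).comp_sub_left x
  set ν : Measure (E n) := volume.withDensity (fun y => ENNReal.ofReal (χ (x - y))) with hν
  have hprob : IsProbabilityMeasure ν := by
    constructor
    rw [hν, withDensity_apply _ MeasurableSet.univ, Measure.restrict_univ,
      ← ofReal_integral_eq_lintegral_ofReal hint (Filter.Eventually.of_forall (fun y => h0 _)),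
      M1_int_sub χ h1 x, ENNReal.ofReal_one]
  have hfν : AEStronglyMeasurable f ν := hf.mono_ac (withDensity_absolutelyContinuous _ _)
  have key : ∀ g : E n → ℝ≥0∞, AEMeasurable g volume →
      ∫⁻ y, g y ∂ν = ∫⁻ y, ENNReal.ofReal (χ (x - y)) * g y := by
    intro g hg
    rw [hν, lintegral_withDensity_eq_lintegral_mul₀ hmx.aemeasurable hg]
    rfl
  have e1 : ‖∫ y, χ (x - y) • f y‖ₑ ≤ eLpNorm f 1 ν := by
    rw [eLpNorm_one_eq_lintegral_enorm, key _ hf.enorm]
    refine (enorm_integral_le_lintegral_enorm _).trans (le_of_eq ?_)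
    refine lintegral_congr (fun y => ?_)
    rw [enorm_smul, Real.enorm_of_nonneg (h0 _)]
  have e2 : ‖∫ y, χ (x - y) • f y‖ₑ ≤ eLpNorm f p ν :=
    e1.trans (eLpNorm_le_eLpNorm_of_exponent_le hp1 hfν)
  rw [eLpNorm_eq_lintegral_rpow_enorm_toReal hp0 hp, key _ (hf.enorm.pow_const _)] at e2
  calc ‖∫ y, χ (x - y) • f y‖ₑ ^ p.toReal
      ≤ ((∫⁻ y, ENNReal.ofReal (χ (x - y)) * ‖f y‖ₑ ^ p.toReal) ^ (1 / p.toReal)) ^ p.toReal :=
        ENNReal.rpow_le_rpow e2 hr.le
    _ = _ := by
        rw [← ENNReal.rpow_mul, one_div, inv_mul_cancel₀ hr.ne', ENNReal.rpow_one]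

omit [CompleteSpace F] in
private lemma M1_contr (χ : E n → ℝ) (hc : Continuous χ) (h0 : ∀ x, 0 ≤ χ x)
    (h1 : ∫ x, χ x = 1) (hcs : HasCompactSupport χ) {p : ℝ≥0∞} (hp1 : 1 ≤ p) (hp : p ≠ ∞)
    (f : E n → F) (hf : AEStronglyMeasurable f volume) :
    eLpNorm (fun x => ∫ y, χ (x - y) • f y) p volume ≤ eLpNorm f p volume := by
  have hp0 : p ≠ 0 := (lt_of_lt_of_le one_pos hp1).ne'
  have hr : 0 < p.toReal := ENNReal.toReal_pos hp0 hp
  rw [eLpNorm_eq_lintegral_rpow_enorm_toReal hp0 hp, eLpNorm_eq_lintegral_rpow_enorm_toReal hp0 hp]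
  apply ENNReal.rpow_le_rpow _ (by positivity)
  calc ∫⁻ x, ‖∫ y, χ (x - y) • f y‖ₑ ^ p.toReal
      ≤ ∫⁻ x, ∫⁻ y, ENNReal.ofReal (χ (x - y)) * ‖f y‖ₑ ^ p.toReal :=
        lintegral_mono (fun x => M1_pointwise χ hc h0 h1 hcs hp1 hp f hf x)
    _ = ∫⁻ y, ∫⁻ x, ENNReal.ofReal (χ (x - y)) * ‖f y‖ₑ ^ p.toReal := by
        apply lintegral_lintegral_swap
        apply AEMeasurable.mul
        · have : Continuous (fun z : E n × E n => χ (z.1 - z.2)) :=
            hc.comp (continuous_fst.sub continuous_snd)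
          exact (ENNReal.measurable_ofReal.comp this.measurable).aemeasurable
        · exact (hf.enorm.pow_const _).comp_snd
    _ = ∫⁻ y, ‖f y‖ₑ ^ p.toReal := by
        refine lintegral_congr (fun y => ?_)
        have hcy : Continuous (fun x => χ (x - y)) := hc.comp (continuous_id.sub continuous_const)
        have hmy : Measurable (fun x => ENNReal.ofReal (χ (x - y))) :=
          ENNReal.measurable_ofReal.comp hcy.measurable
        rw [lintegral_mul_const _ hmy]
        have hint : Integrable (fun x => χ (x - y)) :=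
          (hc.integrable_of_hasCompactSupport hcs).comp_sub_right y
        rw [← ofReal_integral_eq_lintegral_ofReal hint (Filter.Eventually.of_forall (fun y => h0 _)),
          integral_sub_right_eq_self χ y, h1, ENNReal.ofReal_one, one_mul]

end M1Aux

open scoped Convolution in
/-- Mollification converges in `L^p`, for maps with values in a complete normed space. -/
private theorem M1_mollifier (n : ℕ) : ∃ χ : ℕ → E n → ℝ,
    (∀ k, ContDiff ℝ ((⊤ : ℕ∞) : WithTop ℕ∞) (χ k)) ∧ (∀ k x, 0 ≤ χ k x) ∧ (∀ k, ∫ x, χ k x = 1) ∧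
    (∀ k x, 1 ≤ ‖x‖ → χ k x = 0) ∧ (∀ k, HasCompactSupport (χ k)) ∧
    ∀ (F : Type) (_ : NormedAddCommGroup F) (_ : NormedSpace ℝ F) (_ : CompleteSpace F)
      (p : ℝ≥0∞), 1 ≤ p → p ≠ ∞ → ∀ f : E n → F, MemLp f p volume →
      Tendsto (fun k => eLpNorm (fun x => (∫ y, χ k (x - y) • f y) - f x) p volume) atTop (𝓝 0) := by
  have hpos : ∀ k : ℕ, (0 : ℝ) < 1 / ((k : ℝ) + 1) := fun k => by positivity
  let φ : ℕ → ContDiffBump (0 : E n) := fun k =>
    ⟨1 / ((k : ℝ) + 1) / 2, 1 / ((k : ℝ) + 1), half_pos (hpos k), half_lt_self (hpos k)⟩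
  have hrout : ∀ k, (φ k).rOut = 1 / ((k : ℝ) + 1) := fun k => rfl
  have hle1 : ∀ k : ℕ, 1 / ((k : ℝ) + 1) ≤ 1 := by
    intro k
    rw [div_le_one (by positivity)]
    have : (0 : ℝ) ≤ (k : ℝ) := Nat.cast_nonneg k
    linarith
  refine ⟨fun k => (φ k).normed volume, fun k => (φ k).contDiff_normed,
    fun k x => (φ k).nonneg_normed x, fun k => (φ k).integral_normed, ?_,
    fun k => (φ k).hasCompactSupport_normed, ?_⟩
  · intro k x hx
    by_contra h
    have h3 : x ∈ Metric.ball (0 : E n) (φ k).rOut := by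
      rw [← (φ k).support_normed_eq (μ := (volume : Measure (E n)))]
      exact h
    rw [Metric.mem_ball, dist_zero_right, hrout] at h3
    have := hle1 k
    linarith
  · intro F _ _ _ p hp1 hp f hf
    have hp0 : p ≠ 0 := (lt_of_lt_of_le one_pos hp1).ne'
    have hr : 0 < p.toReal := ENNReal.toReal_pos hp0 hp
    have hcont : ∀ k, Continuous ((φ k).normed (volume : Measure (E n))) := fun k =>
      ((φ k).contDiff_normed (n := 0) (μ := volume)).continuous
    have hcs : ∀ k, HasCompactSupport ((φ k).normed (volume : Measure (E n))) := fun k =>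
      (φ k).hasCompactSupport_normed
    -- the mollification as a convolution
    have hconv : ∀ (k : ℕ) (u : E n → F) (x : E n),
        ((φ k).normed volume ⋆[ContinuousLinearMap.lsmul ℝ ℝ, volume] u) x
          = ∫ y, (φ k).normed volume (x - y) • u y := by
      intro k u x
      rw [convolution_eq_swap]
      rfl
    have hli : ∀ u : E n → F, MemLp u p volume → LocallyIntegrable u volume := fun u hu =>
      hu.locallyIntegrable hp1
    have hmeas : ∀ (k : ℕ) (u : E n → F), MemLp u p volume →
        AEStronglyMeasurable (fun x => ∫ y, (φ k).normed volume (x - y) • u y) volume := by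
      intro k u hu
      have h := ((hcs k).continuous_convolution_left (ContinuousLinearMap.lsmul ℝ ℝ) (hcont k)
        (hli u hu)).aestronglyMeasurable (μ := volume)
      have he : (fun x => ∫ y, (φ k).normed volume (x - y) • u y)
          = ((φ k).normed volume ⋆[ContinuousLinearMap.lsmul ℝ ℝ, volume] u) := by
        funext x
        rw [hconv]
      rw [he]
      exact h
    have hintg : ∀ (k : ℕ) (u : E n → F), MemLp u p volume → ∀ x,
        Integrable (fun y => (φ k).normed volume (x - y) • u y) := by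
      intro k u hu x
      exact ((hcs k).convolutionExists_left (ContinuousLinearMap.lsmul ℝ ℝ) (hcont k)
        (hli u hu) x).integrable_swap
    rw [ENNReal.tendsto_nhds_zero]
    intro ε hε
    -- `ε₃ = ε / 3`
    have hε3 : ε / 3 ≠ 0 := by
      rw [Ne, ENNReal.div_eq_zero_iff]
      push Not
      exact ⟨hε.ne', by norm_num⟩
    obtain ⟨g, hgcs, hfg, hgc, hgm⟩ := hf.exists_hasCompactSupport_eLpNorm_sub_le hp hε3
    -- the compact set
    set K' : Set (E n) := Metric.cthickening 1 (tsupport g) with hK'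
    have hK'c : IsCompact K' := hgcs.isCompact.cthickening
    set A : ℝ≥0∞ := volume K' ^ (1 / p.toReal) with hA
    have hAtop : A ≠ ∞ := by
      rw [hA]
      exact ENNReal.rpow_ne_top_of_nonneg (by positivity) hK'c.measure_lt_top.ne
    -- choice of δ
    obtain ⟨δ, hδ, hδA⟩ : ∃ δ : ℝ, 0 < δ ∧ ENNReal.ofReal δ * A ≤ ε / 3 := by
      by_cases htop : ε / 3 = ∞
      · exact ⟨1, one_pos, by rw [htop]; exact le_top⟩
      · have hq : ε / 3 / (A + 1) ≠ ∞ := by
          apply ENNReal.div_ne_top htop
          simp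
        have hq0 : ε / 3 / (A + 1) ≠ 0 := by
          rw [Ne, ENNReal.div_eq_zero_iff]
          push Not
          exact ⟨hε3, ENNReal.add_ne_top.mpr ⟨hAtop, ENNReal.one_ne_top⟩⟩
        refine ⟨(ε / 3 / (A + 1)).toReal, ENNReal.toReal_pos hq0 hq, ?_⟩
        rw [ENNReal.ofReal_toReal hq]
        calc ε / 3 / (A + 1) * A ≤ ε / 3 / (A + 1) * (A + 1) := by
              apply mul_le_mul_right
              exact le_self_add
          _ ≤ ε / 3 := by
              rw [ENNReal.div_mul_cancel (by simp) (ENNReal.add_ne_top.mpr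
                ⟨hAtop, ENNReal.one_ne_top⟩)]
    -- uniform continuity of `g`
    have hguc : UniformContinuous g := hgcs.uniformContinuous_of_continuous hgc
    obtain ⟨η, hη, hgη⟩ := Metric.uniformContinuous_iff.mp hguc δ hδ
    have hev : ∀ᶠ k : ℕ in atTop, 1 / ((k : ℝ) + 1) < η :=
      (tendsto_one_div_add_atTop_nhds_zero_nat (𝕜 := ℝ)).eventually (gt_mem_nhds hη)
    filter_upwards [hev] with k hk
    -- decomposition
    have hdec : (fun x => (∫ y, (φ k).normed volume (x - y) • f y) - f x)
        = (fun x => ∫ y, (φ k).normed volume (x - y) • (f - g) y)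
          + ((fun x => (∫ y, (φ k).normed volume (x - y) • g y) - g x) + (g - f)) := by
      funext x
      simp only [Pi.add_apply, Pi.sub_apply, smul_sub]
      rw [integral_sub (hintg k f hf x) (hintg k g hgm x)]
      abel
    have hm1 : AEStronglyMeasurable (fun x => ∫ y, (φ k).normed volume (x - y) • (f - g) y)
        volume := hmeas k (f - g) (hf.sub hgm)
    have hm2 : AEStronglyMeasurable
        (fun x => (∫ y, (φ k).normed volume (x - y) • g y) - g x) volume :=
      (hmeas k g hgm).sub hgm.1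
    have hm3 : AEStronglyMeasurable (g - f) volume := hgm.1.sub hf.1
    have b1 : eLpNorm (fun x => ∫ y, (φ k).normed volume (x - y) • (f - g) y) p volume ≤ ε / 3 :=
      (M1_contr _ (hcont k) (fun x => (φ k).nonneg_normed x) (φ k).integral_normed (hcs k)
        hp1 hp _ (hf.sub hgm).1).trans hfg
    have b3 : eLpNorm (g - f) p volume ≤ ε / 3 := by
      rw [eLpNorm_sub_comm]
      exact hfg
    have b2 : eLpNorm (fun x => (∫ y, (φ k).normed volume (x - y) • g y) - g x) p volume
        ≤ ε / 3 := by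
      refine le_trans ?_ hδA
      have hb : ∀ x, ‖(∫ y, (φ k).normed volume (x - y) • g y) - g x‖
          ≤ ‖K'.indicator (fun _ => δ) x‖ := by
        intro x
        by_cases hx : x ∈ K'
        · rw [Set.indicator_of_mem hx, Real.norm_of_nonneg hδ.le, ← hconv, ← dist_eq_norm]
          apply (φ k).dist_normed_convolution_le hgm.1
          intro y hy
          rw [Metric.mem_ball, hrout] at hy
          exact (hgη (hy.trans hk)).le
        · have hgx : g x = 0 := by
            by_contra h
            exact hx (Metric.self_subset_cthickening _ (subset_tsupport _ h))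
          have hz : ∀ y, (φ k).normed volume (x - y) • g y = 0 := by
            intro y
            by_contra h
            have h1 : (φ k).normed volume (x - y) ≠ 0 := fun h0 => h (by rw [h0, zero_smul])
            have h2 : g y ≠ 0 := fun h0 => h (by rw [h0, smul_zero])
            have h3 : x - y ∈ Metric.ball (0 : E n) (φ k).rOut := by
              rw [← (φ k).support_normed_eq (μ := (volume : Measure (E n)))]
              exact h1
            rw [Metric.mem_ball, dist_zero_right, ← dist_eq_norm, hrout] at h3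
            apply hx
            apply Metric.mem_cthickening_of_dist_le x y _ _ (subset_tsupport _ h2)
            exact h3.le.trans (hle1 k)
          rw [hgx]
          simp only [hz, integral_zero, sub_zero, norm_zero]
          exact norm_nonneg _
      refine (eLpNorm_mono hb).trans ?_
      rw [eLpNorm_indicator_const hK'c.measurableSet hp0 hp, Real.enorm_of_nonneg hδ.le]
    rw [hdec]
    calc eLpNorm ((fun x => ∫ y, (φ k).normed volume (x - y) • (f - g) y)
          + ((fun x => (∫ y, (φ k).normed volume (x - y) • g y) - g x) + (g - f))) p volume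
        ≤ eLpNorm (fun x => ∫ y, (φ k).normed volume (x - y) • (f - g) y) p volume
          + eLpNorm ((fun x => (∫ y, (φ k).normed volume (x - y) • g y) - g x) + (g - f))
            p volume := eLpNorm_add_le hm1 (hm2.add hm3) hp1
      _ ≤ ε / 3 + (ε / 3 + ε / 3) := by
          apply add_le_add b1
          exact (eLpNorm_add_le hm2 hm3 hp1).trans (add_le_add b2 b3)
      _ = ε := by
          rw [← add_assoc]
          exact ENNReal.add_thirds ε

open scoped Convolution in
/-- The convolution with a smooth function of compact support and its derivative. -/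
private theorem M1_smooth {q : ℝ} (hq : 1 ≤ q) {g : E n → E n} {Dg : E n → E n →L[ℝ] E n}
    (h : SobC q g Dg) {χ : E n → ℝ} (hχ : ContDiff ℝ ((⊤ : ℕ∞) : WithTop ℕ∞) χ)
    (hcs : HasCompactSupport χ) :
    ContDiff ℝ ((⊤ : ℕ∞) : WithTop ℕ∞) (fun x => ∫ y, χ (x - y) • g y) ∧
      ∀ x, fderiv ℝ (fun x => ∫ y, χ (x - y) • g y) x = ∫ y, χ (x - y) • Dg y := by
  have hq1 : (1 : ℝ≥0∞) ≤ ENNReal.ofReal q := by
    rw [← ENNReal.ofReal_one]
    exact ENNReal.ofReal_le_ofReal hq
  have hgl : LocallyIntegrable g volume := h.mem.locallyIntegrable hq1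
  have hDl : LocallyIntegrable Dg volume := h.memD.locallyIntegrable hq1
  have he : (fun x => ∫ y, χ (x - y) • g y)
      = (χ ⋆[ContinuousLinearMap.lsmul ℝ ℝ, volume] g) := by
    funext x
    rw [convolution_eq_swap]
    rfl
  constructor
  · rw [he]
    exact hcs.contDiff_convolution_left (ContinuousLinearMap.lsmul ℝ ℝ) hχ hgl
  · intro x
    have h1 : HasFDerivAt (χ ⋆[ContinuousLinearMap.lsmul ℝ ℝ, volume] g)
        ((fderiv ℝ χ ⋆[(ContinuousLinearMap.lsmul ℝ ℝ).precompL (E n), volume] g) x) x :=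
      hcs.hasFDerivAt_convolution_left (ContinuousLinearMap.lsmul ℝ ℝ)
        (hχ.of_le (by exact_mod_cast le_top)) hgl x
    rw [he, h1.fderiv]
    have hφ : ContDiff ℝ ((⊤ : ℕ∞) : WithTop ℕ∞) (fun y => χ (x - y)) :=
      hχ.comp (contDiff_const.sub contDiff_id)
    have hφc : HasCompactSupport (fun y => χ (x - y)) :=
      hcs.comp_homeomorph (Homeomorph.subLeft x)
    have hint : Integrable (fun y => χ (x - y) • Dg y) := by
      have := (hcs.convolutionExists_left (ContinuousLinearMap.lsmul ℝ ℝ) hχ.continuous hDl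
        x).integrable_swap
      exact this
    have hcf : Continuous (fderiv ℝ χ) := hχ.continuous_fderiv (by simp)
    have hint2 : Integrable (fun y =>
        ((ContinuousLinearMap.lsmul ℝ ℝ : ℝ →L[ℝ] E n →L[ℝ] E n).precompL (E n))
          (fderiv ℝ χ (x - y)) (g y)) := by
      have := ((hcs.fderiv ℝ).convolutionExists_left
        ((ContinuousLinearMap.lsmul ℝ ℝ : ℝ →L[ℝ] E n →L[ℝ] E n).precompL (E n)) hcf hgl
        x).integrable_swap
      exact this
    ext1 v
    rw [convolution_eq_swap, ContinuousLinearMap.integral_apply hint2 v,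
      ContinuousLinearMap.integral_apply hint v]
    have hw := h.weak (fun y => χ (x - y)) hφ hφc v
    have hfd : ∀ y, fderiv ℝ (fun y => χ (x - y)) y v = -(fderiv ℝ χ (x - y) v) := by
      intro y
      have h2 : HasFDerivAt χ (fderiv ℝ χ (x - y)) (x - y) :=
        (hχ.differentiable (by simp) (x - y)).hasFDerivAt
      have h3 : HasFDerivAt (fun y : E n => x - y) (-(ContinuousLinearMap.id ℝ (E n))) y := by
        exact (hasFDerivAt_id (𝕜 := ℝ) y).const_sub x
      have h4 := h2.comp y h3
      have h5 : fderiv ℝ (fun y => χ (x - y)) y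
          = (fderiv ℝ χ (x - y)).comp (-(ContinuousLinearMap.id ℝ (E n))) := h4.fderiv
      rw [h5]
      simp
    simp only [hfd, neg_smul, integral_neg, neg_inj] at hw
    simpa using hw

/-- Mollification. PROOF: convolution with `ContDiffBump.normed`; `D(g * ρ) = (Dg) * ρ` from the weak
derivative with `φ y = ρ (x - y)`; `h * ρ_k → h` in `L^q` (density of continuous compactly supported functions
and Young/Jensen for the contraction). -/
theorem SobC.approx {q : ℝ} (hq : 1 ≤ q) {g : E n → E n} {Dg : E n → E n →L[ℝ] E n}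
    (h : SobC q g Dg) : ∃ (R : ℝ) (gk : ℕ → E n → E n),
      (∀ k, ContDiff ℝ ((⊤ : ℕ∞) : WithTop ℕ∞) (gk k)) ∧ (∀ k x, R < ‖x‖ → gk k x = 0) ∧
      Tendsto (fun k => eLpNorm (fun x => gk k x - g x) (ENNReal.ofReal q) volume) atTop (𝓝 0) ∧
      Tendsto (fun k => eLpNorm (fun x => fderiv ℝ (gk k) x - Dg x) (ENNReal.ofReal q) volume)
        atTop (𝓝 0) := by
  have hq1 : (1 : ℝ≥0∞) ≤ ENNReal.ofReal q := by
    rw [← ENNReal.ofReal_one]
    exact ENNReal.ofReal_le_ofReal hq
  obtain ⟨χ, c1, -, -, c4, c5, c6⟩ := M1_mollifier n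
  obtain ⟨R, hR⟩ := h.supp
  refine ⟨R + 1, fun k x => ∫ y, χ k (x - y) • g y, fun k => (M1_smooth hq h (c1 k) (c5 k)).1,
    ?_, c6 (E n) _ _ inferInstance _ hq1 ENNReal.ofReal_ne_top g h.mem, ?_⟩
  · intro k x hx
    have hz : ∀ y, χ k (x - y) • g y = 0 := by
      intro y
      rcases lt_or_ge R ‖y‖ with h1 | h1
      · rw [(hR y h1).1, smul_zero]
      · rw [c4 k (x - y) ?_, zero_smul]
        have := norm_sub_norm_le x y
        linarith
    simp only [hz, integral_zero]
  · have h2 : ∀ k, (fun x => fderiv ℝ (fun x => ∫ y, χ k (x - y) • g y) x - Dg x)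
        = fun x => (∫ y, χ k (x - y) • Dg y) - Dg x := by
      intro k
      funext x
      rw [(M1_smooth hq h (c1 k) (c5 k)).2 x]
    simp only [h2]
    exact c6 (E n →L[ℝ] E n) _ _ inferInstance _ hq1 ENNReal.ofReal_ne_top Dg h.memD

end Pool.Agent.Lib.QR
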