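import Pool.Agent.Lib.MP_ba1c0b_an.H1g

/-!
N1: the numerical condition `GoodQ (12 m) l m κ q`.
-/

set_option autoImplicit false

namespace Pool.Agent.Lib.QR

private theorem n1_rpow (M B : ℝ) (hM : 0 ≤ M) (hB : 0 ≤ B) (p q : ℕ) (hq : 0 < q)
    (h : M ^ p ≤ B ^ q) : M ^ ((p : ℝ) / q) ≤ B := by
  have hq' : (0 : ℝ) < q := by exact_mod_cast hq
  have h1 : M ^ ((p : ℝ) / q) = (M ^ p) ^ ((1 : ℝ) / q) := by
    rw [← Real.rpow_natCast M p, ← Real.rpow_mul hM]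
    congr 1
    ring
  rw [h1]
  calc (M ^ p) ^ ((1 : ℝ) / q) ≤ (B ^ q) ^ ((1 : ℝ) / q) :=
        Real.rpow_le_rpow (by positivity) h (by positivity)
    _ = B := by
        rw [← Real.rpow_natCast B q, ← Real.rpow_mul hB, mul_one_div_cancel hq'.ne', Real.rpow_one]

/-- The regime `q` close to `n`: `m = 5`, `lam = del = ρ`. -/
private theorem n1_top (l : ℕ) (q ρ ε s κ B : ℝ) (hl : 1 ≤ l) (hε : ε = 1 / (l : ℝ))
    (hs : s = q / l) (hρ : 0 < ρ) (hρ2 : ρ ≤ 1 / 5) (hερ : ε < ρ) (hs1 : 19 / 10 ≤ s)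
    (hs2 : s ≤ 21 / 10) (hB0 : 0 ≤ B) (hB : (60 : ℝ) ≤ B ^ 4) (hsρ : (1 + ρ) / s - 1 / 2 ≥ 0)
    (hsρ2 : (1 - ρ) / s - 1 / 2 ≤ 0)
    (hch : 1 / 2 - (ε + ρ) / (2 * ρ) + (2 * ((ε + ρ) / (2 * ρ)) - (1 - ρ)) / s ≤ 1 / 10)
    (hκ : B * (ε / ρ) ≤ κ) : GoodQ (12 * (5 : ℕ)) l 5 κ q := by
  have hl0 : (0 : ℝ) < l := by exact_mod_cast hl
  have hε0 : 0 < ε := by rw [hε]; positivity
  have hs0 : 0 < s := by linarith
  refine ⟨ρ, ρ, hρ, ?_, ?_, ?_, ?_⟩
  · rw [← hs]; push_cast; linarith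
  · rw [← hε]; exact hερ
  · rw [← hs]; push_cast; linarith
  · rw [← hs, ← hε]
    unfold Kst
    have e1 : thet (2 * ((5 : ℕ) : ℝ)) s (-ρ) = (1 / 2 - (1 - ρ) / s) / (2 / 5) := by
      unfold thet
      rw [abs_of_nonpos (by rw [← sub_eq_add_neg]; exact hsρ2)]
      push_cast
      congr 1
      · ring
      · norm_num
    have e2 : thet (2 * ((5 : ℕ) : ℝ)) s ρ = ((1 + ρ) / s - 1 / 2) / (2 / 5) := by
      unfold thet
      rw [abs_of_nonneg hsρ]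
      push_cast
      congr 1
      norm_num
    have e3 : thet (2 * ((5 : ℕ) : ℝ)) s (-ρ)
        + (thet (2 * ((5 : ℕ) : ℝ)) s ρ - thet (2 * ((5 : ℕ) : ℝ)) s (-ρ))
          * ((ε + ρ) / (ρ + ρ))
        = (1 / 2 - (ε + ρ) / (2 * ρ) + (2 * ((ε + ρ) / (2 * ρ)) - (1 - ρ)) / s) / (2 / 5) := by
      rw [e1, e2]
      field_simp
      ring
    rw [e3]
    have e4 : ε * (ρ + ρ) / (2 * ρ * ρ - ε * (ρ - ρ)) = ε / ρ := by
      rw [sub_self, mul_zero, sub_zero]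
      field_simp
      ring
    rw [e4]
    have h1 : (12 * ((5 : ℕ) : ℝ)) ^ ((1 / 2 - (ε + ρ) / (2 * ρ)
        + (2 * ((ε + ρ) / (2 * ρ)) - (1 - ρ)) / s) / (2 / 5)) ≤ B := by
      have h2 : (12 * ((5 : ℕ) : ℝ)) ^ ((1 / 2 - (ε + ρ) / (2 * ρ)
          + (2 * ((ε + ρ) / (2 * ρ)) - (1 - ρ)) / s) / (2 / 5))
          ≤ (12 * ((5 : ℕ) : ℝ)) ^ (((1 : ℕ) : ℝ) / (4 : ℕ)) := by
        apply Real.rpow_le_rpow_of_exponent_le (by norm_num)
        rw [div_le_iff₀ (by norm_num)]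
        push_cast
        linarith
      refine h2.trans (n1_rpow _ _ (by norm_num) hB0 1 4 (by norm_num) ?_)
      push_cast
      norm_num
      linarith
    exact (mul_le_mul_of_nonneg_right h1 (by positivity)).trans hκ

/-- For `n ≥ 29` all `q ∈ [n - 1, n]` are good. -/
theorem good_nm1 (l : ℕ) (hl : 14 ≤ l) (q : ℝ) (h0 : 2 * l ≤ q) (h1 : q ≤ 2 * l + 1) :
    GoodQ (12 * (5 : ℕ)) l 5 (995 / 1000) q := by
  have hl' : (14 : ℝ) ≤ l := by exact_mod_cast hl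
  have hl0 : (0 : ℝ) < l := by linarith
  have hε : (1 : ℝ) / l ≤ 1 / 14 := one_div_le_one_div_of_le (by norm_num) hl'
  have hs1 : 2 ≤ q / l := by rw [le_div_iff₀ hl0]; linarith
  have hs2 : q / l ≤ 21 / 10 := by
    rw [div_le_iff₀ hl0]; linarith
  have hs0 : 0 < q / l := by linarith
  have hε0 : (0 : ℝ) < 1 / l := by positivity
  refine n1_top l q (1 / 5) (1 / l) (q / l) (995 / 1000) (2786 / 1000) (by omega) rfl rfl
    (by norm_num) (by norm_num) (by linarith) (by linarith) hs2 (by norm_num) (by norm_num)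
    ?_ ?_ ?_ ?_
  · rw [ge_iff_le, sub_nonneg, le_div_iff₀ hs0]; linarith
  · rw [sub_nonpos, div_le_iff₀ hs0]; linarith
  · have h3 : (1 / (l : ℝ) + 1 / 5) / (2 * (1 / 5)) = 5 / 2 * (1 / (l : ℝ)) + 1 / 2 := by ring
    rw [h3]
    have h2 : (2 * (5 / 2 * (1 / (l : ℝ)) + 1 / 2) - (1 - 1 / 5)) / (q / l)
        ≤ (2 * (5 / 2 * (1 / (l : ℝ)) + 1 / 2) - (1 - 1 / 5)) / 2 :=
      div_le_div_of_nonneg_left (by linarith) (by norm_num) hs1
    linarith
  · linarith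

private theorem n1_low (l : ℕ) (q σ a b Mi B : ℝ) (p r : ℕ) (hl : 1 ≤ l) (hq : q = l * (1 + σ))
    (hσl : 18 ≤ l * σ ^ 2) (hσ0 : 0 < σ) (haσ : a ≤ σ) (hσb : σ ≤ b) (hb : b ≤ 9 / 10)
    (hr : 0 < r) (hMi : 12 * (1 + 2 * σ) ≤ Mi * σ) (hMi0 : 0 ≤ Mi) (hB0 : 0 ≤ B)
    (he : 1 - a + a ^ 2 / 9 ≤ (p : ℝ) / r) (hpow : Mi ^ p ≤ B ^ r)
    (hfin : B * (b / 18) ≤ 98 / 100 * ((1 - b) - b / 18 * (1 - 2 * b))) :
    ∃ m : ℕ, 2 ≤ m ∧ (m : ℝ) ≤ 2 + 1 / σ ∧ GoodQ (12 * m) l m (98 / 100) q := by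
  have hl0 : (0 : ℝ) < l := by exact_mod_cast hl
  obtain ⟨m, hm⟩ : ∃ m : ℕ, m = ⌊(1 + σ) / σ⌋₊ + 1 := ⟨_, rfl⟩
  have hx0 : 0 ≤ (1 + σ) / σ := by positivity
  have hm1 : (1 + σ) / σ < m := by
    rw [hm]; push_cast; exact Nat.lt_floor_add_one _
  have hm2 : (m : ℝ) ≤ (1 + σ) / σ + 1 := by
    rw [hm]; push_cast
    have := Nat.floor_le hx0
    linarith
  have hx1 : (1 + σ) / σ = 1 + 1 / σ := by field_simp; ring
  have h1σ : 1 < 1 / σ := by rw [lt_div_iff₀ hσ0]; linarith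
  have hm3 : (2 : ℝ) < m := by rw [hx1] at hm1; linarith
  have hm4 : 2 ≤ m := by
    have : (2 : ℝ) ≤ m := hm3.le
    exact_mod_cast this
  refine ⟨m, hm4, by rw [hx1] at hm2; linarith, ?_⟩
  have hs : q / l = 1 + σ := by rw [hq]; field_simp
  obtain ⟨ε, hε⟩ : ∃ ε : ℝ, ε = 1 / (l : ℝ) := ⟨_, rfl⟩
  have hε0 : 0 < ε := by rw [hε]; positivity
  have hεσ : ε ≤ σ ^ 2 / 18 := by
    rw [hε, div_le_div_iff₀ hl0 (by norm_num)]
    linarith
  have hm0 : (0 : ℝ) < m := by linarith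
  have hmσ : (1 + σ) / (2 * m) < σ / 2 := by
    rw [div_lt_iff₀ hσ0] at hm1
    rw [div_lt_div_iff₀ (by positivity) (by norm_num)]
    linarith
  have hσ9 : σ ≤ 9 / 10 := hσb.trans hb
  refine ⟨(1 - σ) / 2, σ / 2, by linarith, ?_, ?_, ?_, ?_⟩
  · rw [hs]
    have : (1 + σ) / (2 * m) < (1 + σ) / 2 :=
      div_lt_div_of_pos_left (by linarith) (by norm_num) (by linarith)
    linarith
  · rw [← hε]
    nlinarith
  · rw [hs]
    have : (1 + σ) * (2 * m - 1) / (2 * m) = (1 + σ) - (1 + σ) / (2 * m) := by field_simp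
    rw [this]
    linarith
  · rw [hs, ← hε]
    unfold Kst
    have hc : 1 / (2 * (1 + σ)) ≤ 1 / 2 - 1 / (2 * (m : ℝ)) := by
      have h1 : 1 / (2 * (m : ℝ)) = (1 + σ) / (2 * m) / (1 + σ) := by field_simp
      have h2 : (1 + σ) / (2 * m) / (1 + σ) ≤ σ / 2 / (1 + σ) :=
        div_le_div_of_nonneg_right hmσ.le (by linarith)
      have h3 : 1 / (2 * (1 + σ)) = 1 / 2 - σ / 2 / (1 + σ) := by field_simp; ring
      rw [h3, h1]
      linarith
    have hc0 : 0 < 1 / 2 - 1 / (2 * (m : ℝ)) := lt_of_lt_of_le (by positivity) hc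
    have e1 : thet (2 * (m : ℝ)) (1 + σ) (-((1 - σ) / 2)) = 0 := by
      unfold thet
      have : (1 + -((1 - σ) / 2)) / (1 + σ) - 1 / 2 = 0 := by field_simp; ring
      rw [this, abs_zero, zero_div]
    have e2 : thet (2 * (m : ℝ)) (1 + σ) (σ / 2) ≤ 1 := by
      unfold thet
      have : (1 + σ / 2) / (1 + σ) - 1 / 2 = 1 / (2 * (1 + σ)) := by field_simp; ring
      rw [this, abs_of_nonneg (by positivity), div_le_one hc0]
      exact hc
    have e20 : 0 ≤ thet (2 * (m : ℝ)) (1 + σ) (σ / 2) := by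
      unfold thet
      exact div_nonneg (abs_nonneg _) hc0.le
    have e3 : (1 - σ) / 2 + σ / 2 = 1 / 2 := by ring
    rw [e1, e3, zero_add, sub_zero]
    have e4 : thet (2 * (m : ℝ)) (1 + σ) (σ / 2) * ((ε + (1 - σ) / 2) / (1 / 2))
        ≤ (p : ℝ) / r := by
      have h1 : (ε + (1 - σ) / 2) / (1 / 2) = 1 - σ + 2 * ε := by ring
      rw [h1]
      have h2 : 0 ≤ 1 - σ + 2 * ε := by linarith
      calc _ ≤ 1 * (1 - σ + 2 * ε) := mul_le_mul_of_nonneg_right e2 h2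
        _ ≤ 1 - σ + σ ^ 2 / 9 := by linarith
        _ ≤ 1 - a + a ^ 2 / 9 := by nlinarith
        _ ≤ _ := he
    have hM12 : 12 * (m : ℝ) ≤ Mi := by
      have h1 : 12 * (m : ℝ) ≤ 12 * (1 + 2 * σ) / σ := by
        have : (1 + σ) / σ + 1 = (1 + 2 * σ) / σ := by field_simp; ring
        rw [this] at hm2
        rw [mul_div_assoc]
        linarith
      refine h1.trans ?_
      rw [div_le_iff₀ hσ0]
      exact hMi
    have hp0 : 0 ≤ (p : ℝ) / r := by positivity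
    have e5 : (12 * (m : ℝ)) ^ (thet (2 * (m : ℝ)) (1 + σ) (σ / 2)
        * ((ε + (1 - σ) / 2) / (1 / 2))) ≤ B := by
      calc _ ≤ (12 * (m : ℝ)) ^ ((p : ℝ) / r) :=
            Real.rpow_le_rpow_of_exponent_le (by linarith) e4
        _ ≤ Mi ^ ((p : ℝ) / r) := Real.rpow_le_rpow (by positivity) hM12 hp0
        _ ≤ B := n1_rpow _ _ hMi0 hB0 p r hr hpow
    have hden : 0 < (1 - σ) - σ / 18 * (1 - 2 * σ) := by nlinarith
    have hdenb : 0 < (1 - b) - b / 18 * (1 - 2 * b) := by nlinarith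
    have e6 : 2 * (σ / 2) * ((1 - σ) / 2) - ε * ((1 - σ) / 2 - σ / 2)
        = (σ * (1 - σ) - ε * (1 - 2 * σ)) / 2 := by ring
    have hden2 : 0 < σ * (1 - σ) - ε * (1 - 2 * σ) := by
      have : ε * (1 - 2 * σ) ≤ σ ^ 2 / 18 * 1 := by
        have h1 : ε * (1 - 2 * σ) ≤ ε * 1 := mul_le_mul_of_nonneg_left (by linarith) hε0.le
        linarith
      nlinarith
    have e7 : ε * (1 / 2) / (2 * (σ / 2) * ((1 - σ) / 2) - ε * ((1 - σ) / 2 - σ / 2))
        = ε / (σ * (1 - σ) - ε * (1 - 2 * σ)) := by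
      rw [e6]
      field_simp
    rw [e7]
    have e8 : ε / (σ * (1 - σ) - ε * (1 - 2 * σ)) ≤ (b / 18) / ((1 - b) - b / 18 * (1 - 2 * b)) := by
      calc ε / (σ * (1 - σ) - ε * (1 - 2 * σ))
          ≤ (σ / 18) / ((1 - σ) - σ / 18 * (1 - 2 * σ)) := by
            rw [div_le_div_iff₀ hden2 hden]
            have h1 : σ / 18 * (σ * (1 - σ) - ε * (1 - 2 * σ))
                - ε * ((1 - σ) - σ / 18 * (1 - 2 * σ)) = (σ ^ 2 / 18 - ε) * (1 - σ) := by ring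
            have h2 : 0 ≤ (σ ^ 2 / 18 - ε) * (1 - σ) :=
              mul_nonneg (by linarith) (by linarith)
            linarith
        _ ≤ (b / 18) / ((1 - b) - b / 18 * (1 - 2 * b)) := by
            apply div_le_div₀ (by linarith) (by linarith) hdenb
            nlinarith
    calc _ ≤ B * ((b / 18) / ((1 - b) - b / 18 * (1 - 2 * b))) :=
          mul_le_mul e5 e8 (div_nonneg hε0.le hden2.le) hB0
      _ ≤ 98 / 100 := by
          rw [← mul_div_assoc, div_le_iff₀ hdenb]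
          exact hfin

/-- For `n ≥ 37` all `q ∈ [n/2 + 3 √n, n]` are good. -/
theorem good_main (l : ℕ) (hl : 18 ≤ l) (q : ℝ) (h0 : (2 * l + 1 : ℝ) / 2 + 3 * √(2 * l + 1) ≤ q)
    (h1 : q ≤ 2 * l + 1) :
    ∃ m : ℕ, 2 ≤ m ∧ m ≤ l + 2 ∧ GoodQ (12 * m) l m (98 / 100) q := by
  have hl' : (18 : ℝ) ≤ l := by exact_mod_cast hl
  have hl0 : (0 : ℝ) < l := by linarith
  have hl1 : 1 ≤ l := by omega
  obtain ⟨σ, hσ⟩ : ∃ σ : ℝ, σ = q / l - 1 := ⟨_, rfl⟩
  have hq : q = l * (1 + σ) := by rw [hσ]; field_simp; ring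
  have hsq : √(2 * l + 1 : ℝ) ^ 2 = 2 * l + 1 := Real.sq_sqrt (by positivity)
  have hs0 : 0 < √(2 * l + 1 : ℝ) := Real.sqrt_pos.2 (by positivity)
  have hσs : 3 * √(2 * l + 1 : ℝ) ≤ l * σ := by
    rw [hq] at h0; linarith
  have hσ0 : 0 < σ := by
    have : 0 < l * σ := by linarith
    exact (pos_iff_pos_of_mul_pos this).1 hl0
  have hσl : 18 ≤ l * σ ^ 2 := by
    have h2 : (3 * √(2 * l + 1 : ℝ)) ^ 2 ≤ (l * σ) ^ 2 := pow_le_pow_left₀ (by positivity) hσs 2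
    rw [mul_pow, hsq] at h2
    have h3 : l * (18 : ℝ) ≤ l * (l * σ ^ 2) := by nlinarith
    exact le_of_mul_le_mul_left h3 hl0
  have hσu : σ ≤ 1 + 1 / 18 := by
    have h2 : l * (1 + σ) ≤ 2 * l + 1 := by rw [← hq]; exact h1
    have h3 : l * σ ≤ l * (1 + 1 / 18) := by linarith
    exact le_of_mul_le_mul_left h3 hl0
  have hmain : ∀ m : ℕ, 2 ≤ m → (m : ℝ) ≤ 2 + 1 / σ → m ≤ l + 2 := by
    intro m _ hm
    have h2 : 1 / σ ≤ l := by
      rw [div_le_iff₀ hσ0]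
      have : 1 ≤ √(2 * l + 1 : ℝ) := by
        rw [Real.one_le_sqrt]; linarith
      linarith
    have h3 : (m : ℝ) ≤ ((l + 2 : ℕ) : ℝ) := by push_cast; linarith
    exact_mod_cast h3
  have hfinish : (∃ m : ℕ, 2 ≤ m ∧ (m : ℝ) ≤ 2 + 1 / σ ∧ GoodQ (12 * m) l m (98 / 100) q) →
      ∃ m : ℕ, 2 ≤ m ∧ m ≤ l + 2 ∧ GoodQ (12 * m) l m (98 / 100) q := by
    rintro ⟨m, h2, h3, h4⟩
    exact ⟨m, h2, hmain m h2 h3, h4⟩
  by_cases c0 : σ ≤ 13 / 100
  · -- exponent one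
    apply hfinish
    refine n1_low l q σ 0 σ (12 * (1 + 2 * σ) / σ) (12 * (1 + 2 * σ) / σ) 1 1 hl1 hq hσl
      hσ0 hσ0.le le_rfl (by linarith) (by norm_num) ?_ (by positivity) (by positivity)
      (by norm_num) le_rfl ?_
    · rw [div_mul_cancel₀ _ hσ0.ne']
    · have h2 : 12 * (1 + 2 * σ) / σ * (σ / 18) = 2 / 3 * (1 + 2 * σ) := by field_simp; ring
      rw [h2]
      nlinarith
  push Not at c0
  by_cases c1 : σ ≤ 21 / 100
  · apply hfinish
    refine n1_low l q σ (13 / 100) (21 / 100) (1164 / 10) (644 / 10) 7 8 hl1 hq hσl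
      hσ0 c0.le c1 (by norm_num) (by norm_num) (by linarith) (by norm_num)
      (by norm_num) (by norm_num) (by norm_num) (by norm_num)
  push Not at c1
  by_cases c2 : σ ≤ 33 / 100
  · apply hfinish
    refine n1_low l q σ (21 / 100) (33 / 100) (812 / 10) (338 / 10) 4 5 hl1 hq hσl
      hσ0 c1.le c2 (by norm_num) (by norm_num) (by linarith) (by norm_num)
      (by norm_num) (by norm_num) (by norm_num) (by norm_num)
  push Not at c2
  by_cases c3 : σ ≤ 5 / 10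
  · apply hfinish
    refine n1_low l q σ (33 / 100) (5 / 10) (604 / 10) (172 / 10) 9 13 hl1 hq hσl
      hσ0 c2.le c3 (by norm_num) (by norm_num) (by linarith) (by norm_num)
      (by norm_num) (by norm_num) (by norm_num) (by norm_num)
  push Not at c3
  by_cases c4 : σ ≤ 68 / 100
  · apply hfinish
    refine n1_low l q σ (5 / 10) (68 / 100) 48 (82 / 10) 8 15 hl1 hq hσl
      hσ0 c3.le c4 (by norm_num) (by norm_num) (by linarith) (by norm_num)
      (by norm_num) (by norm_num) (by norm_num) (by norm_num)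
  push Not at c4
  by_cases c5 : σ ≤ 82 / 100
  · apply hfinish
    refine n1_low l q σ (68 / 100) (82 / 100) (417 / 10) (41 / 10) 3 8 hl1 hq hσl
      hσ0 c4.le c5 (by norm_num) (by norm_num) (by linarith) (by norm_num)
      (by norm_num) (by norm_num) (by norm_num) (by norm_num)
  push Not at c5
  by_cases c6 : σ ≤ 9 / 10
  · apply hfinish
    refine n1_low l q σ (82 / 100) (9 / 10) (387 / 10) (26 / 10) 13 50 hl1 hq hσl
      hσ0 c5.le c6 (by norm_num) (by norm_num) (by linarith) (by norm_num)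
      (by norm_num) (by norm_num) (by norm_num) (by norm_num)
  push Not at c6
  refine ⟨5, by norm_num, by omega, ?_⟩
  have hs : q / l = 1 + σ := by rw [hσ]; ring
  have hε : (1 : ℝ) / l ≤ 1 / 18 := one_div_le_one_div_of_le (by norm_num) hl'
  have hε0 : (0 : ℝ) < 1 / l := by positivity
  refine n1_top l q (17 / 100) (1 / l) (q / l) (98 / 100) (279 / 100) hl1 rfl rfl
    (by norm_num) (by norm_num) (by linarith) (by rw [hs]; linarith) (by rw [hs]; linarith)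
    (by norm_num) (by norm_num) ?_ ?_ ?_ ?_
  · rw [hs, ge_iff_le, sub_nonneg, le_div_iff₀ (by linarith)]; linarith
  · rw [hs, sub_nonpos, div_le_iff₀ (by linarith)]; linarith
  · have h3 : (1 / (l : ℝ) + 17 / 100) / (2 * (17 / 100)) = 50 / 17 * (1 / (l : ℝ)) + 1 / 2 := by
      ring
    rw [h3]
    have h2 : (2 * (50 / 17 * (1 / (l : ℝ)) + 1 / 2) - (1 - 17 / 100)) / (q / l)
        ≤ (2 * (50 / 17 * (1 / (l : ℝ)) + 1 / 2) - (1 - 17 / 100)) / (19 / 10) :=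
      div_le_div_of_nonneg_left (by linarith) (by norm_num) (by rw [hs]; linarith)
    linarith
  · linarith

end Pool.Agent.Lib.QR
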