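import Pool.Agent.Lib.MP_ba1c0b_an.G6
import Pool.Agent.Lib.MP_ba1c0b_an.H0
import Pool.Agent.Lib.MP_ba1c0b_an.H1
import Pool.Agent.Lib.MP_ba1c0b_an.H2
import Pool.Agent.Lib.MP_ba1c0b_an.L1

/-!
Z1: the theorem.
-/

set_option autoImplicit false

open MeasureTheory Filter Topology
open scoped ENNReal NNReal

namespace Pool.Agent.Lib.QR

theorem upper (δ : ℝ) (hδ : 0 < δ) (hδ' : δ ≤ 1 / 4) : ∃ l0 : ℕ, ∀ l : ℕ, l0 ≤ l → ∀ q : ℝ,
    (1 / 2 + δ) * (2 * l + 1) ≤ q → q ≤ 2 * l + 1 → QProp (2 * l + 1) q := by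
  obtain ⟨m, l0, rs, hm, hl0, hrs, hrs2, hnum⟩ := num_cond δ hδ hδ'
  refine ⟨l0, fun l hl q hq hq' => ?_⟩
  have hl1 : 1 ≤ l := hl0.trans hl
  obtain ⟨C, hC⟩ := coercive_num l m hl1 hm rs hrs hrs2
  have hl1' : (1 : ℝ) ≤ l := by exact_mod_cast hl1
  refine qprop_of_coer (by omega) q ?_ (by push_cast; linarith) C ?_
  · push_cast
    nlinarith
  · intro q' hq1 hq2
    push_cast at hq2
    obtain ⟨h1, h2, h3⟩ := hnum l hl q' (hq.trans hq1) hq2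
    refine coer_of_cube ?_ C ?_
    · nlinarith
    · intro g A hg hgc hgs hA hAc hA0
      exact hC q' h1 h2 h3 g A hg hgc hgs hA hAc hA0

theorem bddBelow_qprop (n : ℕ) : BddBelow {q : ℝ | QProp n q} :=
  ⟨1, fun _ hq => hq.1.le⟩

theorem half_le_qexp (n : ℕ) (hn : 3 ≤ n) : (n : ℝ) / 2 ≤ qexp n :=
  le_csInf ⟨n, qprop_self hn⟩ fun q hq => lower hn q hq

theorem main : Tendsto (fun l : ℕ => qexp (2 * l + 1) / ((2 * l + 1 : ℕ) : ℝ)) atTop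
    (𝓝 (1 / 2)) := by
  rw [Metric.tendsto_atTop]
  intro e he
  have hd : 0 < min (e / 2) (1 / 4) := lt_min (by linarith) (by norm_num)
  obtain ⟨l0, h⟩ := upper (min (e / 2) (1 / 4)) hd (min_le_right _ _)
  refine ⟨max l0 1, fun l hl => ?_⟩
  have hl0 : l0 ≤ l := (le_max_left _ _).trans hl
  have hl1 : 1 ≤ l := (le_max_right _ _).trans hl
  have hl1' : (1 : ℝ) ≤ l := by exact_mod_cast hl1
  have hpos : (0 : ℝ) < ((2 * l + 1 : ℕ) : ℝ) := by positivity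
  have h1 := half_le_qexp (2 * l + 1) (by omega)
  have h2 : qexp (2 * l + 1) ≤ (1 / 2 + min (e / 2) (1 / 4)) * (2 * l + 1) := by
    refine csInf_le (bddBelow_qprop _) (h l hl0 _ le_rfl ?_)
    have : min (e / 2) (1 / 4) ≤ 1 / 4 := min_le_right _ _
    nlinarith
  have h3 : (1 / 2 : ℝ) ≤ qexp (2 * l + 1) / ((2 * l + 1 : ℕ) : ℝ) := by
    rw [le_div_iff₀ hpos]
    linarith
  have h4 : qexp (2 * l + 1) / ((2 * l + 1 : ℕ) : ℝ) ≤ 1 / 2 + min (e / 2) (1 / 4) := by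
    rw [div_le_iff₀ hpos]
    push_cast
    exact h2
  rw [Real.dist_eq, abs_of_nonneg (by linarith)]
  have : min (e / 2) (1 / 4) ≤ e / 2 := min_le_left _ _
  linarith

end Pool.Agent.Lib.QR
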