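import Pool.Agent.Lib.MP_ba1c0b_an.G6
import Pool.Agent.Lib.MP_ba1c0b_an.H1
import Pool.Agent.Lib.MP_ba1c0b_an.H2
import Pool.Agent.Lib.MP_ba1c0b_an.H4
import Pool.Agent.Lib.MP_ba1c0b_an.L1

/-!
Z2: the theorems with a rate.
-/

set_option autoImplicit false

open MeasureTheory Filter Topology
open scoped ENNReal NNReal

namespace Pool.Agent.Lib.QR

theorem qprop_of_num (l m : ℕ) (rs q0 : ℝ) (h : NumCond l m rs q0)
    (h0 : (2 * l + 1 : ℝ) / 2 ≤ q0) (h1 : q0 ≤ 2 * l + 1) : QProp (2 * l + 1) q0 := by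
  obtain ⟨hl, hm, hrs, hrs2, hnum⟩ := h
  obtain ⟨C, hC⟩ := coercive_num l m hl hm rs hrs hrs2
  have hl1' : (1 : ℝ) ≤ l := by exact_mod_cast hl
  refine qprop_of_coer (by omega) q0 (by push_cast; linarith) (by push_cast; linarith) C ?_
  intro q' hq1 hq2
  push_cast at hq2
  obtain ⟨h1, h2, h3⟩ := hnum q' hq1 hq2
  refine coer_of_cube (by linarith) C ?_
  intro g A hg hgc hgs hA hAc hA0
  exact hC q' h1 h2 h3 g A hg hgc hgs hA hAc hA0

theorem bddBelow_qprop' (n : ℕ) : BddBelow {q : ℝ | QProp n q} :=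
  ⟨1, fun _ hq => hq.1.le⟩

theorem half_le_qexp' (n : ℕ) (hn : 3 ≤ n) : (n : ℝ) / 2 ≤ qexp n :=
  le_csInf ⟨n, qprop_self hn⟩ fun q hq => lower hn q hq

theorem qexp_le_self (n : ℕ) (hn : 3 ≤ n) : qexp n ≤ n :=
  csInf_le (bddBelow_qprop' n) (qprop_self hn)

theorem rate (n : ℕ) (hodd : Odd n) (hn : 3 ≤ n) :
    qexp n ≤ n / 2 + 128 * n * (Real.log (Real.log n) / Real.log n) := by
  obtain ⟨l, rfl⟩ := hodd
  have hl : 1 ≤ l := by omega
  have hl' : (1 : ℝ) ≤ l := by exact_mod_cast hl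
  set x : ℝ := Real.log (Real.log ((2 * l + 1 : ℕ) : ℝ)) / Real.log ((2 * l + 1 : ℕ) : ℝ) with hx
  have hx' : x = Real.log (Real.log (2 * l + 1)) / Real.log (2 * l + 1) := by
    rw [hx]; push_cast; rfl
  have hx0 : 0 ≤ x := by
    have h3 : (1 : ℝ) ≤ Real.log ((2 * l + 1 : ℕ) : ℝ) := by
      rw [Real.le_log_iff_exp_le (by positivity)]
      have := Real.exp_one_lt_d9
      push_cast
      linarith
    rw [hx]
    exact div_nonneg (Real.log_nonneg h3) (by linarith)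
  by_cases h : 64 * x ≤ 1 / 4
  · rw [hx'] at h
    obtain ⟨m, rs, hm⟩ := num_rate l hl h
    rw [← hx'] at hm h
    have hq := qprop_of_num l m rs _ hm (by nlinarith) (by nlinarith)
    refine (csInf_le (bddBelow_qprop' _) hq).trans ?_
    push_cast
    nlinarith
  · push Not at h
    refine (qexp_le_self _ hn).trans ?_
    push_cast
    nlinarith

theorem nm1 (n : ℕ) (hodd : Odd n) (hn : 401 ≤ n) : qexp n ≤ n - 1 := by
  obtain ⟨l, rfl⟩ := hodd
  have hl : 200 ≤ l := by omega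
  have hl' : (200 : ℝ) ≤ l := by exact_mod_cast hl
  have hq := qprop_of_num l 2 (52 / 27) (2 * l) (num_nm1 l hl) (by linarith) (by linarith)
  refine (csInf_le (bddBelow_qprop' _) hq).trans ?_
  push_cast
  linarith

theorem limit : Tendsto (fun l : ℕ => qexp (2 * l + 1) / ((2 * l + 1 : ℕ) : ℝ)) atTop
    (𝓝 (1 / 2)) := by
  have hn : Tendsto (fun l : ℕ => ((2 * l + 1 : ℕ) : ℝ)) atTop atTop := by
    refine tendsto_natCast_atTop_atTop.comp ?_
    refine tendsto_atTop_mono (fun l => ?_) tendsto_id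
    simp only [id]; omega
  have hlog : Tendsto (fun y : ℝ => Real.log y / y) atTop (𝓝 0) := by
    simpa using Real.isLittleO_log_id_atTop.tendsto_div_nhds_zero
  have hL : Tendsto (fun l : ℕ => Real.log (Real.log ((2 * l + 1 : ℕ) : ℝ))
      / Real.log ((2 * l + 1 : ℕ) : ℝ)) atTop (𝓝 0) :=
    hlog.comp (Real.tendsto_log_atTop.comp hn)
  have hU : Tendsto (fun l : ℕ => (1 / 2 : ℝ) + 128 * (Real.log (Real.log ((2 * l + 1 : ℕ) : ℝ))
      / Real.log ((2 * l + 1 : ℕ) : ℝ))) atTop (𝓝 (1 / 2)) := by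
    simpa using (hL.const_mul 128).const_add (1 / 2 : ℝ)
  refine tendsto_of_tendsto_of_tendsto_of_le_of_le' tendsto_const_nhds hU ?_ ?_
  · filter_upwards [eventually_ge_atTop 1] with l hl
    have hpos : (0 : ℝ) < ((2 * l + 1 : ℕ) : ℝ) := by positivity
    rw [le_div_iff₀ hpos]
    have := half_le_qexp' (2 * l + 1) (by omega)
    linarith
  · filter_upwards [eventually_ge_atTop 1] with l hl
    have hpos : (0 : ℝ) < ((2 * l + 1 : ℕ) : ℝ) := by positivity
    rw [div_le_iff₀ hpos]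
    have := rate (2 * l + 1) ⟨l, rfl⟩ (by omega)
    linarith

end Pool.Agent.Lib.QR
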