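import Pool.Agent.Lib.MP_ba1c0b_an.G6
import Pool.Agent.Lib.MP_ba1c0b_an.H1g
import Pool.Agent.Lib.MP_ba1c0b_an.H2
import Pool.Agent.Lib.MP_ba1c0b_an.L1
import Pool.Agent.Lib.MP_ba1c0b_an.K9

/-!
Z3: from the numerical condition to the property of the exponent.
-/

set_option autoImplicit false

open MeasureTheory Filter Topology
open scoped ENNReal NNReal

namespace Pool.Agent.Lib.QR

theorem qprop_of_good (l : ℕ) (hl : 1 ≤ l) (q0 κ : ℝ) (hκ0 : 0 ≤ κ) (hκ1 : κ < 1)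
    (h0 : (2 * l + 1 : ℝ) / 2 ≤ q0) (h1 : q0 ≤ 2 * l + 1) (N : ℕ)
    (h : ∀ q : ℝ, q0 ≤ q → q ≤ 2 * l + 1 →
      ∃ m : ℕ, 2 ≤ m ∧ m ≤ N ∧ GoodQ (12 * m) l m κ q) : QProp (2 * l + 1) q0 := by
  have hl1' : (1 : ℝ) ≤ l := by exact_mod_cast hl
  have hC : ∀ m : ℕ, 2 ≤ m → ∃ C : ℝ≥0, ∀ q : ℝ, 0 < q → q ≤ 2 * l + 1 →
      GoodQ (12 * m) l m κ q →
      ∀ (g : E (2 * l + 1) → E (2 * l + 1))
        (A : E (2 * l + 1) → E (2 * l + 1) →L[ℝ] E (2 * l + 1)),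
        ContDiff ℝ ((⊤ : ℕ∞) : WithTop ℕ∞) g → HasCompactSupport g →
        tsupport g ⊆ cube (2 * l + 1) →
        MemLp A (ENNReal.ofReal q) volume → (∀ᵐ x, Conf (A x)) →
        (∀ x ∉ cube (2 * l + 1), A x = 0) →
        ∫⁻ x, ‖A x‖ₑ ^ q ≤ C * ∫⁻ x, ‖fderiv ℝ g x - A x‖ₑ ^ q := by
    intro m hm
    have hm' : (2 : ℝ) ≤ m := by exact_mod_cast hm
    exact coercive_gen l m hl hm (12 * m) (by linarith) (fun S a => proj_dimfree l m hm S a)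
      κ hκ0 hκ1
  choose! Cm hCm using hC
  refine qprop_of_coer (by omega) q0 (by push_cast; linarith) (by push_cast; linarith)
    (∑ m ∈ Finset.range (N + 1), Cm m) ?_
  intro q' hq1 hq2
  push_cast at hq2
  obtain ⟨m, hm2, hmN, hg⟩ := h q' hq1 hq2
  refine coer_of_cube (by linarith) _ ?_
  intro g A hg1 hgc hgs hA hAc hA0
  refine (hCm m hm2 q' (by linarith) hq2 hg g A hg1 hgc hgs hA hAc hA0).trans ?_
  refine mul_le_mul_left ?_ _
  exact_mod_cast Finset.single_le_sum (f := Cm) (fun i _ => zero_le)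
    (Finset.mem_range.2 (by omega))

end Pool.Agent.Lib.QR
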