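import Pool.Agent.Lib.MP_ba1c0b_an.Z3
import Pool.Agent.Lib.MP_ba1c0b_an.N1

/-!
Z4: the theorems with the square root.
-/

set_option autoImplicit false

open MeasureTheory Filter Topology
open scoped ENNReal NNReal

namespace Pool.Agent.Lib.QR

private theorem z4_bdd (n : ℕ) : BddBelow {q : ℝ | QProp n q} := ⟨1, fun _ hq => hq.1.le⟩

theorem half_le_qexp4 (n : ℕ) (hn : 3 ≤ n) : (n : ℝ) / 2 ≤ qexp n :=
  le_csInf ⟨n, qprop_self hn⟩ fun q hq => lower hn q hq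

/-- For odd `n ≥ 37` the exponent `n/2 + 3 √n` has the property. -/
theorem qprop_sqrt (n : ℕ) (hodd : Odd n) (hn : 37 ≤ n) : QProp n (n / 2 + 3 * √n) := by
  obtain ⟨l, rfl⟩ := hodd
  have hl : 18 ≤ l := by omega
  have hl' : (18 : ℝ) ≤ l := by exact_mod_cast hl
  have hc : (((2 * l + 1 : ℕ) : ℝ)) = 2 * l + 1 := by push_cast; rfl
  rw [hc]
  have hs0 : 0 ≤ √(2 * (l : ℝ) + 1) := Real.sqrt_nonneg _
  have hsq : √(2 * (l : ℝ) + 1) ^ 2 = 2 * l + 1 := Real.sq_sqrt (by positivity)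
  refine qprop_of_good l (by omega) _ (98 / 100) (by norm_num) (by norm_num) (by linarith) ?_
    (l + 2) (fun q h1 h2 => good_main l hl q h1 h2)
  have h6 : 6 ≤ √(2 * (l : ℝ) + 1) := by
    rw [Real.le_sqrt (by norm_num) (by positivity)]
    linarith
  nlinarith

/-- `q(n,1) ≤ n/2 + 3 √n` for all odd `n ≥ 3`. -/
theorem rate_sqrt (n : ℕ) (hodd : Odd n) (hn : 3 ≤ n) : qexp n ≤ n / 2 + 3 * √n := by
  by_cases h : 37 ≤ n
  · exact csInf_le (z4_bdd n) (qprop_sqrt n hodd h)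
  · have h1 : qexp n ≤ n := csInf_le (z4_bdd n) (qprop_self hn)
    refine h1.trans ?_
    have h2 : (n : ℝ) ≤ 36 := by
      have : n ≤ 36 := by omega
      exact_mod_cast this
    have hs0 : 0 ≤ √(n : ℝ) := Real.sqrt_nonneg _
    have hsq : √(n : ℝ) ^ 2 = n := Real.sq_sqrt (by positivity)
    have h6 : √(n : ℝ) ≤ 6 := by
      rw [Real.sqrt_le_left (by norm_num)]
      linarith
    nlinarith

/-- `q(n,1) ≤ n - 1` for all odd `n ≥ 29`. -/
theorem qprop_nm1 (n : ℕ) (hodd : Odd n) (hn : 29 ≤ n) : QProp n (n - 1) := by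
  obtain ⟨l, rfl⟩ := hodd
  have hl : 14 ≤ l := by omega
  have hl' : (14 : ℝ) ≤ l := by exact_mod_cast hl
  have hc : (((2 * l + 1 : ℕ) : ℝ)) = 2 * l + 1 := by push_cast; rfl
  rw [hc]
  refine qprop_of_good l (by omega) _ (995 / 1000) (by norm_num) (by norm_num) (by linarith)
    (by linarith) 5 (fun q h1 h2 => ⟨5, by norm_num, le_rfl, ?_⟩)
  exact good_nm1 l hl q (by linarith) h2

theorem rate_nm1 (n : ℕ) (hodd : Odd n) (hn : 29 ≤ n) : qexp n ≤ n - 1 :=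
  csInf_le (z4_bdd n) (qprop_nm1 n hodd hn)

end Pool.Agent.Lib.QR
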